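import Pool.Agent.Lib.MP_fe8b6f_pr.Defs

/-! Working definitions for the upper bound. -/

open MeasureTheory ProbabilityTheory
open scoped NNReal ENNReal

noncomputable section

namespace Pool.Agent.Lib.MP_fe8b6f_pr

variable {d : ℕ}

/-- discrepancy used for concave costs -/
def discL (p : ℝ) (ν : Measure (E d)) (a : E d) (s : ℝ) (m : ℕ) : ℝ≥0∞ :=
  ∑ j : Fin d → Fin m,
    ENNReal.ofReal ((s / m) ^ p * |(ν (gc a s m j)).toReal - (s / m) ^ d|)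

/-- properties of a family of random measures on growing cubes with local limit `P` -/
structure UFam {X : Type} [MeasurableSpace X] (P : ℝ → Measure (Measure (E d)))
    (T : ℝ → Measure X) (m : ℝ → X → Measure (E d)) : Prop where
  prob : ∀ Λ, 0 < Λ → IsProbabilityMeasure (T Λ)
  meas : ∀ Λ, Measurable (m Λ)
  mean : ∀ Λ, 0 < Λ → ∀ A : Set (E d), MeasurableSet A → A ⊆ cube 0 Λ →
    ∫⁻ x, m Λ x A ∂(T Λ) = volume A
  mom : ∀ q : ℝ, 1 ≤ q → ∃ C : ℝ, 0 ≤ C ∧ ∀ (Λ r : ℝ) (a : E d) (h : E d → ℝ), 1 ≤ r → r ≤ Λ →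
    cube a r ⊆ cube 0 Λ → Measurable h → (∀ y, 0 ≤ h y) → (∀ y, h y ≤ 1) →
    (∀ y, y ∉ cube a r → h y = 0) →
    ∫⁻ x, ENNReal.ofReal (|∫ y, h y ∂(m Λ x) - ∫ y, h y| ^ q) ∂(T Λ) ≤
      ENNReal.ofReal (C * r ^ (q * (d + 2) / 2))
  lim : ∀ L : ℝ, 0 < L → ∀ ε : ℝ≥0∞, 0 < ε → ∃ Λ0 : ℝ, ∀ Λ, Λ0 ≤ Λ → ∀ (z : E d)
    (F : Measure (E d) → ℝ≥0∞), cube z L ⊆ cube 0 Λ → Measurable F → (∀ μ, F μ ≤ 1) →
    ∫⁻ x, F (loc z L (m Λ x)) ∂(T Λ) ≤ ∫⁻ μ, F μ ∂(P L) + ε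

/-- normalised expected cost on the big cube -/
def uL {X : Type} [MeasurableSpace X] (p : ℝ) (T : ℝ → Measure X)
    (m : ℝ → X → Measure (E d)) (Λ : ℝ) : ℝ≥0∞ :=
  (∫⁻ x, Gf p Λ 0 (m Λ x) ∂(T Λ)) / ENNReal.ofReal (Λ ^ d)

/-- representative in the period cell -/
def red (Λ : ℝ) (x : E d) : E d := Λ • frac (Λ⁻¹ • x)

/-- transition operator -/
def Pop (W : Measure (Path d)) (t : ℝ≥0) (g : E d → ℝ) (x : E d) : ℝ := ∫ w, g (x + w t) ∂W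

/-- real average over the period cell -/
def Pav (Λ : ℝ) (g : E d → ℝ) : ℝ := (∫ x in cube 0 Λ, g x) / Λ ^ d

/-- additive functional up to time `t` -/
def Sf (f : E d → ℝ) (t : ℝ) (x : E d) (w : Path d) : ℝ :=
  ∫ s in Set.Ico 0 t, f (x + w s.toNNReal)

/-- exponential moment of the additive functional -/
def uf (W : Measure (Path d)) (θ : ℝ) (f : E d → ℝ) (n : ℕ) (x : E d) : ℝ :=
  ∫ w, Real.exp (θ * Sf f n x w) ∂W

/-- source term of the discrete Duhamel formula -/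
def gf (W : Measure (Path d)) (θ : ℝ) (f : E d → ℝ) (j : ℕ) (y : E d) : ℝ :=
  ∫ w, (Real.exp (θ * Sf f 1 y w) - 1) * uf W θ f j (y + w 1) ∂W

/-- bounded measurable periodic function -/
structure BMP (Λ : ℝ) (g : E d → ℝ) : Prop where
  meas : Measurable g
  per : IsPer Λ g
  bdd : ∃ M, ∀ x, |g x| ≤ M

end Pool.Agent.Lib.MP_fe8b6f_pr
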