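import Pool.Agent.Lib.MP_fe8b6f_pr.AKTA
import Pool.Agent.Lib.MP_fe8b6f_pr.Defs2

/-! Dyadic bound with weights peaked at an intermediate level. -/

open MeasureTheory ProbabilityTheory
open scoped NNReal ENNReal

noncomputable section

namespace Pool.Agent.Lib.MP_fe8b6f_pr

variable {d : ℕ}

theorem ak2_chain {p : ℝ} (hp : 1 ≤ p) :
    ∃ C : ℝ≥0, ∀ (a : E d) (s : ℝ) (ν : Measure (E d)) (n : ℕ) (w : ℕ → ℝ), 0 < s →
      ν (cube a s) ≠ ⊤ → (∀ k < n, 0 < w k) → ∑ k ∈ Finset.range n, w k ≤ 1 →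
      Wp p (avg ν a s 1) (avg ν a s (2 ^ n)) ≤
        ∑ k ∈ Finset.range n, ENNReal.ofReal (w k ^ (1 - p)) * (C * disc p ν a s (2 ^ (k + 1))) := by
  obtain ⟨C, hC⟩ := avg_step (d := d) hp
  refine ⟨C, fun a s ν n w hs hν hw hw1 => ?_⟩
  refine (Wp_chain hp n (fun k => avg ν a s (2 ^ k)) (fun k => isFiniteMeasure_avg hs hν _) w hw
    hw1).trans (Finset.sum_le_sum fun k _ => ?_)
  refine mul_le_mul_right ?_ _
  rw [Wp_comm]
  exact hC a s ν (2 ^ k) hs (by positivity) hν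

theorem ak2_geom {r : ℝ} (h0 : 0 < r) (n : ℕ) :
    ∑ k ∈ Finset.range n, (1 - r) * r ^ k ≤ 1 := by
  rw [← Finset.mul_sum, mul_neg_geom_sum]
  have := pow_pos h0 n
  linarith

theorem ak2_sum {r : ℝ} (h0 : 0 < r) (h1 : r < 1) (k0 n : ℕ) :
    ∑ k ∈ Finset.range n, (1 - r) / 2 * r ^ (k - k0 + (k0 - k)) ≤ 1 := by
  have h2 : 0 < 1 - r := by linarith
  have hsub : Finset.range n ⊆ Finset.range (k0 + n) :=
    Finset.range_subset_range.2 (by omega)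
  refine (Finset.sum_le_sum_of_subset_of_nonneg hsub fun k _ _ => by positivity).trans ?_
  rw [Finset.sum_range_add]
  have hA : ∑ k ∈ Finset.range k0, (1 - r) / 2 * r ^ (k - k0 + (k0 - k)) ≤ 1 / 2 := by
    have h3 := ak2_geom h0 k0
    rw [← Finset.sum_range_reflect (fun k => (1 - r) * r ^ k) k0] at h3
    refine le_trans ?_ (div_le_div_of_nonneg_right h3 zero_le_two)
    rw [Finset.sum_div]
    refine Finset.sum_le_sum fun k _ => ?_
    rw [mul_div_right_comm]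
    exact mul_le_mul_of_nonneg_left (pow_le_pow_of_le_one h0.le h1.le (by omega)) (by positivity)
  have hB : ∑ k ∈ Finset.range n, (1 - r) / 2 * r ^ (k0 + k - k0 + (k0 - (k0 + k))) ≤ 1 / 2 := by
    refine le_trans (le_of_eq ?_) (div_le_div_of_nonneg_right (ak2_geom h0 n) zero_le_two)
    rw [Finset.sum_div]
    refine Finset.sum_congr rfl fun k _ => ?_
    rw [mul_div_right_comm, show k0 + k - k0 + (k0 - (k0 + k)) = k by omega]
  linarith

theorem ak2_w {c : ℝ} (hc : 0 ≤ c) (p : ℝ) (j : ℕ) :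
    ENNReal.ofReal ((c * ((2 : ℝ) ^ (-(1 / 2 : ℝ))) ^ j) ^ (1 - p)) =
      ((c ^ (1 - p)).toNNReal : ℝ≥0∞) * ENNReal.ofReal (2 ^ ((j : ℝ) * (p - 1) / 2)) := by
  have h0 : 0 < (2 : ℝ) ^ (-(1 / 2 : ℝ)) := Real.rpow_pos_of_pos two_pos _
  rw [Real.mul_rpow hc (pow_pos h0 j).le, ENNReal.ofReal_mul (Real.rpow_nonneg hc _),
    ← Real.rpow_natCast, ← Real.rpow_mul zero_le_two, ← Real.rpow_mul zero_le_two]
  have e : -(1 / 2 : ℝ) * j * (1 - p) = (j : ℝ) * (p - 1) / 2 := by ring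
  rw [e]
  rfl

theorem ak2_cast (k k0 : ℕ) : ((k - k0 + (k0 - k) : ℕ) : ℝ) = |(k : ℝ) - k0| := by
  rcases le_total k k0 with h | h
  · rw [Nat.sub_eq_zero_of_le h, zero_add, Nat.cast_sub h, abs_sub_comm,
      abs_of_nonneg (sub_nonneg.2 (Nat.cast_le.2 h))]
  · rw [Nat.sub_eq_zero_of_le h, add_zero, Nat.cast_sub h,
      abs_of_nonneg (sub_nonneg.2 (Nat.cast_le.2 h))]

theorem AKT_two {p : ℝ} (hp : 1 ≤ p) :
    ∃ C : ℝ≥0, ∀ (a : E d) (s : ℝ) (ν : Measure (E d)) (k0 : ℕ), 0 < s → ν (cube a s) ≠ ⊤ →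
      Wp p (ν.restrict (cube a s)) (avg ν a s 1) ≤
        C * ∑' k : ℕ,
          ENNReal.ofReal (2 ^ (|(k : ℝ) - k0| * (p - 1) / 2)) * disc p ν a s (2 ^ (k + 1)) := by
  obtain ⟨C, hC⟩ := ak2_chain (d := d) hp
  have hp0 : 0 < p := by linarith
  obtain ⟨C', hC'⟩ := Wp_tri_eps (d := d) hp0 one_pos
  set r : ℝ := (2 : ℝ) ^ (-(1 / 2 : ℝ)) with hr
  have h0 : 0 < r := Real.rpow_pos_of_pos two_pos _
  have h1 : r < 1 := Real.rpow_lt_one_of_one_lt_of_neg one_lt_two (by norm_num)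
  have hc : 0 < (1 - r) / 2 := by linarith
  refine ⟨2 * ((((1 - r) / 2) ^ (1 - p)).toNNReal * C), fun a s ν k0 hs hν => ?_⟩
  rw [Wp_comm]
  have h2 : ∀ n : ℕ, Wp p (avg ν a s 1) (avg ν a s (2 ^ n)) ≤
      (((((1 - r) / 2) ^ (1 - p)).toNNReal * C : ℝ≥0) : ℝ≥0∞) * ∑' k : ℕ,
        ENNReal.ofReal (2 ^ (|(k : ℝ) - k0| * (p - 1) / 2)) * disc p ν a s (2 ^ (k + 1)) := by
    intro n
    refine (hC a s ν n (fun k => (1 - r) / 2 * r ^ (k - k0 + (k0 - k)))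
      hs hν (fun k _ => mul_pos hc (pow_pos h0 _)) (ak2_sum h0 h1 k0 n)).trans ?_
    refine le_trans (le_of_eq ?_) (mul_le_mul_right (ENNReal.sum_le_tsum (Finset.range n)) _)
    rw [Finset.mul_sum]
    refine Finset.sum_congr rfl fun k _ => ?_
    rw [ak2_w hc.le, ak2_cast, ENNReal.coe_mul]
    ring
  have h3 : Filter.Tendsto (fun n : ℕ => √(d : ℝ) * (s / ((2 ^ n : ℕ) : ℝ))) Filter.atTop
      (nhds 0) := by
    have := ((tendsto_pow_atTop_atTop_of_one_lt (one_lt_two (α := ℝ))).const_div_atTop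
      s).const_mul √(d : ℝ)
    rw [mul_zero] at this
    simpa using this
  have h4 : Filter.Tendsto (fun n : ℕ => (C' : ℝ≥0∞) *
      (ENNReal.ofReal (√(d : ℝ) * (s / ((2 ^ n : ℕ) : ℝ))) ^ p * ν (cube a s))) Filter.atTop
      (nhds 0) := by
    have h5 := (ENNReal.continuous_rpow_const (y := p)).tendsto _ |>.comp
      (ENNReal.tendsto_ofReal h3)
    rw [ENNReal.ofReal_zero, ENNReal.zero_rpow_of_pos hp0] at h5
    have h6 := ENNReal.Tendsto.const_mul (a := (C' : ℝ≥0∞))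
      (ENNReal.Tendsto.mul_const h5 (Or.inr hν)) (Or.inr ENNReal.coe_ne_top)
    rwa [zero_mul, mul_zero] at h6
  have h7 := h4.const_add (((2 * ((((1 - r) / 2) ^ (1 - p)).toNNReal * C) : ℝ≥0) :
    ℝ≥0∞) * ∑' k : ℕ,
      ENNReal.ofReal (2 ^ (|(k : ℝ) - k0| * (p - 1) / 2)) * disc p ν a s (2 ^ (k + 1)))
  rw [add_zero] at h7
  refine ge_of_tendsto' h7 fun n => ?_
  refine (hC' _ (avg ν a s (2 ^ n)) _ (isFiniteMeasure_avg hs hν _)).trans (add_le_add ?_ ?_)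
  · rw [ENNReal.coe_mul, mul_assoc, one_add_one_eq_two, ENNReal.ofReal_ofNat]
    exact mul_le_mul_right (h2 n) _
  · rw [Wp_comm]
    exact mul_le_mul_right (Wp_restrict_avg hp0.le hs hν (by positivity)) _

end Pool.Agent.Lib.MP_fe8b6f_pr
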