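import Pool.Agent.Lib.MP_fe8b6f_pr.AK3a

/-! Dyadic bound for concave costs. -/

open MeasureTheory ProbabilityTheory
open scoped NNReal ENNReal

noncomputable section

namespace Pool.Agent.Lib.MP_fe8b6f_pr

variable {d : ℕ}

theorem ak3_step {p : ℝ} (hp : 0 < p) :
    ∃ C : ℝ≥0, ∀ (a : E d) (s : ℝ) (ν : Measure (E d)) (m : ℕ), 0 < s → 0 < m →
      ν (cube a s) ≠ ⊤ →
      Wp p (avg ν a s (m * 2)) (avg ν a s m) ≤ C * discL p ν a s (m * 2) := by
  obtain ⟨C, hC⟩ := step_low (d := d) hp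
  refine ⟨C, fun a s ν m hs hm hν => ?_⟩
  obtain ⟨e, he⟩ := exists_grid_equiv (d := d) m 2
  have hsm : 0 < s / m := div_pos hs (Nat.cast_pos.2 hm)
  have h1 : avg ν a s (m * 2) = ∑ j : Fin d → Fin m, avg ν (gcorner a s m j) (s / m) 2 := by
    rw [avg, ← e.sum_comp, Fintype.sum_prod_type]
    refine Finset.sum_congr rfl fun j _ => ?_
    rw [avg]
    exact Finset.sum_congr rfl fun j' _ => by rw [(he a s j j').2]
  have h2 : avg ν a s m = ∑ j : Fin d → Fin m, avg ν (gcorner a s m j) (s / m) 1 := by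
    rw [avg]
    exact Finset.sum_congr rfl fun j _ => by rw [avg_one]; rfl
  have h3 : discL p ν a s (m * 2) =
      ∑ j : Fin d → Fin m, discL p ν (gcorner a s m j) (s / m) 2 := by
    rw [discL, ← e.sum_comp, Fintype.sum_prod_type]
    refine Finset.sum_congr rfl fun j _ => ?_
    rw [discL]
    refine Finset.sum_congr rfl fun j' _ => ?_
    rw [(he a s j j').2, Nat.cast_mul, div_div]
  rw [h1, h2, h3, Finset.mul_sum]
  refine (Wc_sum_le _ _ _ _).trans (Finset.sum_le_sum fun j _ => ?_)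
  exact hC _ _ ν hsm (ne_top_of_le_ne_top hν (measure_mono (gc_subset a hs.le m j)))

theorem ak3_chain {p : ℝ} (hp : 0 < p) (hp1 : p ≤ 1) :
    ∃ C : ℝ≥0, ∀ (a : E d) (s : ℝ) (ν : Measure (E d)) (n : ℕ), 0 < s → ν (cube a s) ≠ ⊤ →
      Wp p (avg ν a s (2 ^ n)) (avg ν a s 1) ≤
        C * ∑ k ∈ Finset.range n, discL p ν a s (2 ^ (k + 1)) := by
  obtain ⟨C, hC⟩ := ak3_step (d := d) hp
  refine ⟨C, fun a s ν n hs hν => ?_⟩
  induction n with
  | zero => rw [pow_zero, Wp_self hp]; exact zero_le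
  | succ n ih =>
    have := isFiniteMeasure_avg hs hν (2 ^ n)
    refine (Wp_tri_low hp hp1 _ (avg ν a s (2 ^ n)) _).trans ?_
    rw [Finset.sum_range_succ, mul_add, add_comm]
    refine add_le_add ih ?_
    rw [pow_succ]
    exact hC a s ν (2 ^ n) hs (by positivity) hν

theorem AKT_low {p : ℝ} (hp : 0 < p) (hp1 : p ≤ 1) :
    ∃ C : ℝ≥0, ∀ (a : E d) (s : ℝ) (ν : Measure (E d)), 0 < s → ν (cube a s) ≠ ⊤ →
      Wp p (ν.restrict (cube a s)) (avg ν a s 1) ≤
        C * ∑' k : ℕ, discL p ν a s (2 ^ (k + 1)) := by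
  obtain ⟨C, hC⟩ := ak3_chain (d := d) hp hp1
  refine ⟨C, fun a s ν hs hν => ?_⟩
  have h3 : Filter.Tendsto (fun n : ℕ => √(d : ℝ) * (s / ((2 ^ n : ℕ) : ℝ))) Filter.atTop
      (nhds 0) := by
    have := ((tendsto_pow_atTop_atTop_of_one_lt (one_lt_two (α := ℝ))).const_div_atTop
      s).const_mul √(d : ℝ)
    rw [mul_zero] at this
    simpa using this
  have h4 : Filter.Tendsto (fun n : ℕ =>
      (ENNReal.ofReal (√(d : ℝ) * (s / ((2 ^ n : ℕ) : ℝ))) ^ p * ν (cube a s))) Filter.atTop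
      (nhds 0) := by
    have h5 := (ENNReal.continuous_rpow_const (y := p)).tendsto _ |>.comp
      (ENNReal.tendsto_ofReal h3)
    rw [ENNReal.ofReal_zero, ENNReal.zero_rpow_of_pos hp] at h5
    have h6 := ENNReal.Tendsto.mul_const h5 (Or.inr hν)
    rwa [zero_mul] at h6
  have h7 := h4.add_const ((C : ℝ≥0∞) * ∑' k : ℕ, discL p ν a s (2 ^ (k + 1)))
  rw [zero_add] at h7
  refine ge_of_tendsto' h7 fun n => ?_
  have := isFiniteMeasure_avg hs hν (2 ^ n)
  refine (Wp_tri_low hp hp1 _ (avg ν a s (2 ^ n)) _).trans (add_le_add ?_ ?_)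
  · exact Wp_restrict_avg hp.le hs hν (by positivity)
  · exact (hC a s ν n hs hν).trans
      (mul_le_mul_right (ENNReal.sum_le_tsum (Finset.range n)) _)

end Pool.Agent.Lib.MP_fe8b6f_pr
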