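import Pool.Agent.Lib.MP_fe8b6f_pr.AKTA
import Pool.Agent.Lib.MP_fe8b6f_pr.Defs2

/-! One dyadic step for concave costs. -/

open MeasureTheory ProbabilityTheory
open scoped NNReal ENNReal

noncomputable section

namespace Pool.Agent.Lib.MP_fe8b6f_pr

variable {d : ℕ}

theorem Wp_tri_low {p : ℝ} (hp : 0 < p) (hp1 : p ≤ 1) (μ ν ρ : Measure (E d))
    [IsFiniteMeasure ν] : Wp p μ ρ ≤ Wp p μ ν + Wp p ν ρ := by
  have h := Wc_glue (c₁ := fun x y : E d => ‖x - y‖ₑ ^ p) (c₂ := fun x y : E d => ‖x - y‖ₑ ^ p)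
    (c₃ := fun x y : E d => ‖x - y‖ₑ ^ p)
    (measurable_ecost p) (measurable_ecost p) (measurable_ecost p)
    (A := 1) (B := 1) one_ne_zero ENNReal.one_ne_top one_ne_zero ENNReal.one_ne_top
    (fun x y z => by
      rw [one_mul, one_mul]
      exact (ENNReal.rpow_le_rpow (otb_enorm_tri x y z) hp.le).trans
        (ENNReal.rpow_add_le_add_rpow _ _ hp.le hp1)) μ ν ρ
  rwa [one_mul, one_mul] at h

theorem measurable_discL (p : ℝ) (a : E d) (s : ℝ) (m : ℕ) :
    Measurable fun ν : Measure (E d) => discL p ν a s m := by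
  unfold discL
  refine Finset.measurable_sum _ fun j _ => ?_
  have h1 : Measurable fun ν : Measure (E d) => ν (gc a s m j) :=
    Measure.measurable_coe (measurableSet_gc a s m j)
  exact (((continuous_abs.measurable.comp
    (h1.ennreal_toReal.sub_const _)).const_mul _).ennreal_ofReal)

theorem ak3a_real {ι : Type*} [Fintype ι] [Nonempty ι] (x : ι → ℝ) (h : ℝ) :
    ∑ j, x j - ∑ j, min (x j) ((∑ i, x i) / Fintype.card ι) ≤ 2 * ∑ j, |x j - h| := by
  have hN : (0 : ℝ) < Fintype.card ι := Nat.cast_pos.2 Fintype.card_pos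
  set c : ℝ := (∑ i, x i) / Fintype.card ι with hc
  have h1 : (Fintype.card ι : ℝ) * |c - h| ≤ ∑ j, |x j - h| := by
    have e : (Fintype.card ι : ℝ) * (c - h) = ∑ j, (x j - h) := by
      rw [Finset.sum_sub_distrib, Finset.sum_const, Finset.card_univ, nsmul_eq_mul, hc]
      field_simp
    rw [← abs_of_pos hN, ← abs_mul, e]
    exact Finset.abs_sum_le_sum_abs _ _
  have h2 : ∀ j, x j - min (x j) c ≤ |x j - h| + |c - h| := by
    intro j
    have a1 := le_abs_self (x j - h)
    have a2 := neg_abs_le (c - h)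
    have a3 := abs_nonneg (x j - h)
    have a4 := abs_nonneg (c - h)
    rcases le_total (x j) c with hj | hj
    · rw [min_eq_left hj]
      linarith
    · rw [min_eq_right hj]
      linarith
  have h3 : ∑ j, (x j - min (x j) c) ≤ ∑ j, (|x j - h| + |c - h|) :=
    Finset.sum_le_sum fun j _ => h2 j
  rw [Finset.sum_sub_distrib, Finset.sum_add_distrib, Finset.sum_const, Finset.card_univ,
    nsmul_eq_mul] at h3
  linarith

theorem ak3a_sum_le {ι : Type*} [Fintype ι] (μ : ι → Measure (E d)) {a b : ι → ℝ≥0∞}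
    (h : ∀ j, a j ≤ b j) : ∑ j, a j • μ j ≤ ∑ j, b j • μ j := by
  refine Measure.le_iff.2 fun A _ => ?_
  rw [Measure.finsetSum_apply, Measure.finsetSum_apply]
  refine Finset.sum_le_sum fun j _ => ?_
  rw [Measure.smul_apply, Measure.smul_apply, smul_eq_mul, smul_eq_mul]
  exact mul_le_mul_left (h j) _

/-- keep the common part in place (`Wp_sub_plan` with a diagonal plan) -/
theorem step_low {p : ℝ} (hp : 0 < p) :
    ∃ C : ℝ≥0, ∀ (a : E d) (s : ℝ) (ν : Measure (E d)), 0 < s → ν (cube a s) ≠ ⊤ →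
      Wp p (avg ν a s 2) (avg ν a s 1) ≤ C * discL p ν a s 2 := by
  have hC : 0 ≤ 2 * (2 * √d) ^ p := by positivity
  refine ⟨Real.toNNReal (2 * (2 * √d) ^ p), fun a s ν hs hν => ?_⟩
  have hj : ∀ j, ν (gc a s 2 j) ≠ ⊤ := fun j =>
    ne_top_of_le_ne_top hν (measure_mono (gc_subset a hs.le 2 j))
  have hsum := measure_cube_eq_sum ν a hs (m := 2) (by norm_num)
  set x : (Fin d → Fin 2) → ℝ := fun j => (ν (gc a s 2 j)).toReal with hx
  have hx0 : ∀ j, 0 ≤ x j := fun j => ENNReal.toReal_nonneg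
  have hM0 : 0 ≤ ∑ j, x j := Finset.sum_nonneg fun j _ => hx0 j
  have hM : ν (cube a s) = ENNReal.ofReal (∑ j, x j) := by
    rw [hsum, ENNReal.ofReal_sum_of_nonneg fun j _ => hx0 j]
    exact Finset.sum_congr rfl fun j _ => (ENNReal.ofReal_toReal (hj j)).symm
  have hcard : (Fintype.card (Fin d → Fin 2) : ℝ) = 2 ^ d := by simp
  set κ : (Fin d → Fin 2) → ℝ := fun j =>
    min (x j) ((∑ i, x i) / Fintype.card (Fin d → Fin 2)) with hκ
  have hκ0 : ∀ j, 0 ≤ κ j := fun j => le_min (hx0 j) (by positivity)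
  have hh : 0 < (s / (2 : ℕ)) ^ d := by positivity
  have hv : ∀ j, volume (gc a s 2 j) = ENNReal.ofReal ((s / (2 : ℕ)) ^ d) := fun j =>
    volume_gc a hs.le 2 j
  set ρ : Measure (E d) :=
    ∑ j, (ENNReal.ofReal (κ j) / volume (gc a s 2 j)) • volume.restrict (gc a s 2 j) with hρ
  have hρ2 : ρ ≤ avg ν a s 2 := by
    refine ak3a_sum_le _ fun j => ENNReal.div_le_div_right ?_ _
    exact ENNReal.ofReal_le_of_le_toReal (min_le_left _ _)
  have hρ1 : ρ ≤ avg ν a s 1 := by
    rw [avg_one, restrict_cube_eq_sum volume a hs (m := 2) (by norm_num), Finset.smul_sum]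
    refine ak3a_sum_le _ fun j => ?_
    rw [hv j, hM, volume_cube a hs.le, ← ENNReal.ofReal_div_of_pos hh,
      ← ENNReal.ofReal_div_of_pos (by positivity)]
    refine ENNReal.ofReal_le_ofReal ?_
    have e : (∑ i, x i) / s ^ d =
        (∑ i, x i) / Fintype.card (Fin d → Fin 2) / (s / (2 : ℕ)) ^ d := by
      rw [hcard, div_pow]
      push_cast
      field_simp
    rw [e]
    exact div_le_div_of_nonneg_right (min_le_right _ _) hh.le
  have hρu : ρ Set.univ = ENNReal.ofReal (∑ j, κ j) := by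
    rw [hρ, Measure.finsetSum_apply, ENNReal.ofReal_sum_of_nonneg fun j _ => hκ0 j]
    refine Finset.sum_congr rfl fun j _ => ?_
    rw [Measure.smul_apply, Measure.restrict_apply_univ, smul_eq_mul, ENNReal.div_mul_cancel]
    · rw [hv j]
      exact (ENNReal.ofReal_pos.2 hh).ne'
    · rw [hv j]
      exact ENNReal.ofReal_ne_top
  have h2 := knothe_avg_univ ν a hs (m := 2) (by norm_num)
  have h1 := knothe_avg_univ ν a hs (m := 1) (by norm_num)
  have : IsFiniteMeasure (avg ν a s 2) := ⟨by rw [h2]; exact hν.lt_top⟩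
  have hdm : Measurable fun y : E d => (y, y) := measurable_id.prodMk measurable_id
  have hW := Wp_sub_plan hp.le (h2.trans h1.symm) (ρ.map fun y => (y, y))
    (by rw [Measure.map_map measurable_fst hdm]; exact (Measure.map_id' (μ := ρ)).le.trans hρ2)
    (by rw [Measure.map_map measurable_snd hdm]; exact (Measure.map_id' (μ := ρ)).le.trans hρ1)
    (knothe_avg_compl ν a hs 2) (knothe_avg_compl ν a hs 1)
    fun y hy z hz => norm_sub_le_of_cube hs.le hy hz
  rw [lintegral_map (measurable_ecost p) hdm, Measure.map_apply hdm MeasurableSet.univ,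
    Set.preimage_univ, hρu, h2, hM] at hW
  simp only [sub_self, enorm_zero, ENNReal.zero_rpow_of_pos hp, lintegral_zero, zero_add] at hW
  refine hW.trans ?_
  rw [← ENNReal.ofReal_sub _ (Finset.sum_nonneg fun j _ => hκ0 j),
    ENNReal.ofReal_rpow_of_nonneg (by positivity) hp.le, ← ENNReal.ofReal_mul (by positivity)]
  unfold discL
  rw [← ENNReal.ofReal_sum_of_nonneg fun j _ => by positivity]
  change _ ≤ ENNReal.ofReal (2 * (2 * √d) ^ p) * _
  rw [← ENNReal.ofReal_mul hC]
  refine ENNReal.ofReal_le_ofReal ?_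
  rw [← Finset.mul_sum]
  have h3 := ak3a_real x ((s / (2 : ℕ)) ^ d)
  have e : (√d * s) ^ p = (2 * √d) ^ p * (s / (2 : ℕ)) ^ p := by
    rw [← Real.mul_rpow (by positivity) (by positivity)]
    congr 1
    push_cast
    ring
  rw [e]
  calc (2 * √d) ^ p * (s / (2 : ℕ)) ^ p * (∑ j, x j - ∑ j, κ j)
      ≤ (2 * √d) ^ p * (s / (2 : ℕ)) ^ p * (2 * ∑ j, |x j - (s / (2 : ℕ)) ^ d|) :=
        mul_le_mul_of_nonneg_left h3 (by positivity)
    _ = _ := by ring

end Pool.Agent.Lib.MP_fe8b6f_pr
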