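import Pool.Agent.Lib.MP_fe8b6f_pr.AKTA

/-! Dyadic (Ajtai-Komlos-Tusnady) bound for the transport cost. Part 2. -/

open MeasureTheory ProbabilityTheory
open scoped NNReal ENNReal

noncomputable section

namespace Pool.Agent.Lib.MP_fe8b6f_pr

variable {d : ℕ}

theorem akt_chain {p : ℝ} (hp : 1 ≤ p) :
    ∃ C : ℝ≥0, ∀ (a : E d) (s : ℝ) (ν : Measure (E d)) (n : ℕ) (w : ℕ → ℝ), 0 < s →
      ν (cube a s) ≠ ⊤ → (∀ k < n, 0 < w k) → ∑ k ∈ Finset.range n, w k ≤ 1 →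
      Wp p (avg ν a s 1) (avg ν a s (2 ^ n)) ≤
        ∑ k ∈ Finset.range n, ENNReal.ofReal (w k ^ (1 - p)) * (C * disc p ν a s (2 ^ (k + 1))) := by
  obtain ⟨C, hC⟩ := avg_step (d := d) hp
  refine ⟨C, fun a s ν n w hs hν hw hw1 => ?_⟩
  refine (Wp_chain hp n (fun k => avg ν a s (2 ^ k)) (fun k => isFiniteMeasure_avg hs hν _) w hw
    hw1).trans (Finset.sum_le_sum fun k _ => ?_)
  refine mul_le_mul_right ?_ _
  rw [Wp_comm]
  exact hC a s ν (2 ^ k) hs (by positivity) hν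

theorem akt_r {α : ℝ} (hα : 0 < α) : 0 < (2 : ℝ) ^ (-α) ∧ (2 : ℝ) ^ (-α) < 1 :=
  ⟨Real.rpow_pos_of_pos two_pos _, Real.rpow_lt_one_of_one_lt_of_neg one_lt_two (by linarith)⟩

theorem akt_geom {r : ℝ} (h0 : 0 < r) (n : ℕ) :
    ∑ k ∈ Finset.range n, (1 - r) * r ^ k ≤ 1 := by
  rw [← Finset.mul_sum, mul_neg_geom_sum]
  have := pow_pos h0 n
  linarith

theorem akt_w {α : ℝ} (hα : 0 < α) (p : ℝ) (j : ℕ) :
    ENNReal.ofReal (((1 - (2 : ℝ) ^ (-α)) * ((2 : ℝ) ^ (-α)) ^ j) ^ (1 - p)) =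
      (((1 - (2 : ℝ) ^ (-α)) ^ (1 - p)).toNNReal : ℝ≥0∞) *
        ENNReal.ofReal (2 ^ ((j : ℝ) * (p - 1) * α)) := by
  obtain ⟨h0, h1⟩ := akt_r hα
  have h2 : 0 ≤ 1 - (2 : ℝ) ^ (-α) := by linarith
  rw [Real.mul_rpow h2 (pow_pos h0 j).le, ENNReal.ofReal_mul (Real.rpow_nonneg h2 _),
    ← Real.rpow_natCast, ← Real.rpow_mul zero_le_two, ← Real.rpow_mul zero_le_two]
  have e : -α * j * (1 - p) = (j : ℝ) * (p - 1) * α := by ring
  rw [e]
  rfl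

/-- chain from level `n` to level `0`, weights favouring the fine levels -/
theorem AKT_sub {p : ℝ} (hp : 1 ≤ p) :
    ∃ C : ℝ≥0, ∀ (a : E d) (s : ℝ) (ν : Measure (E d)) (n : ℕ), 0 < s → ν (cube a s) ≠ ⊤ →
      Wp p (avg ν a s (2 ^ n)) (avg ν a s 1) ≤
        C * ∑ k ∈ Finset.range n,
          ENNReal.ofReal (2 ^ (((n : ℝ) - k) * (p - 1) / 2)) * disc p ν a s (2 ^ (k + 1)) := by
  obtain ⟨C, hC⟩ := akt_chain (d := d) hp
  have hα : (0 : ℝ) < 1 / 2 := one_half_pos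
  obtain ⟨h0, h1⟩ := akt_r hα
  refine ⟨((1 - (2 : ℝ) ^ (-(1 / 2 : ℝ))) ^ (1 - p)).toNNReal * C, fun a s ν n hs hν => ?_⟩
  rw [Wp_comm]
  refine (hC a s ν n (fun k => (1 - (2 : ℝ) ^ (-(1 / 2 : ℝ))) * ((2 : ℝ) ^ (-(1 / 2 : ℝ))) ^ (n - k))
    hs hν (fun k _ => mul_pos (by linarith) (pow_pos h0 _)) ?_).trans (le_of_eq ?_)
  · refine le_trans ?_ (akt_geom h0 n)
    rw [← Finset.sum_range_reflect
      (fun k => (1 - (2 : ℝ) ^ (-(1 / 2 : ℝ))) * ((2 : ℝ) ^ (-(1 / 2 : ℝ))) ^ k) n]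
    exact Finset.sum_le_sum fun k _ => mul_le_mul_of_nonneg_left
      (pow_le_pow_of_le_one h0.le h1.le (by omega)) (by linarith)
  · rw [Finset.mul_sum]
    refine Finset.sum_congr rfl fun k hk => ?_
    have e : ((n - k : ℕ) : ℝ) * (p - 1) * (1 / 2) = ((n : ℝ) - k) * (p - 1) / 2 := by
      rw [Nat.cast_sub (Finset.mem_range.1 hk).le]
      ring
    rw [akt_w hα, e, ENNReal.coe_mul]
    ring

/-- full chain, weights favouring the coarse levels (let the depth tend to infinity) -/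
theorem AKT_full {p : ℝ} (hp : 1 ≤ p) :
    ∃ C : ℝ≥0, ∀ (a : E d) (s : ℝ) (ν : Measure (E d)), 0 < s → ν (cube a s) ≠ ⊤ →
      Wp p (ν.restrict (cube a s)) (avg ν a s 1) ≤
        C * ∑' k : ℕ,
          ENNReal.ofReal (2 ^ (((k : ℝ) + 1) * (p - 1) / p)) * disc p ν a s (2 ^ (k + 1)) := by
  obtain ⟨C, hC⟩ := akt_chain (d := d) hp
  have hp0 : 0 < p := by linarith
  obtain ⟨C', hC'⟩ := Wp_tri_eps (d := d) hp0 one_pos
  have hα : (0 : ℝ) < 1 / p := by positivity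
  obtain ⟨h0, h1⟩ := akt_r hα
  refine ⟨2 * (((1 - (2 : ℝ) ^ (-(1 / p))) ^ (1 - p)).toNNReal * C), fun a s ν hs hν => ?_⟩
  rw [Wp_comm]
  have h2 : ∀ n : ℕ, Wp p (avg ν a s 1) (avg ν a s (2 ^ n)) ≤
      ((((1 - (2 : ℝ) ^ (-(1 / p))) ^ (1 - p)).toNNReal * C : ℝ≥0) : ℝ≥0∞) * ∑' k : ℕ,
        ENNReal.ofReal (2 ^ (((k : ℝ) + 1) * (p - 1) / p)) * disc p ν a s (2 ^ (k + 1)) := by
    intro n
    refine (hC a s ν n (fun k => (1 - (2 : ℝ) ^ (-(1 / p))) * ((2 : ℝ) ^ (-(1 / p))) ^ (k + 1))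
      hs hν (fun k _ => mul_pos (by linarith) (pow_pos h0 _)) ?_).trans ?_
    · refine le_trans ?_ (akt_geom h0 n)
      exact Finset.sum_le_sum fun k _ => mul_le_mul_of_nonneg_left
        (pow_le_pow_of_le_one h0.le h1.le (by omega)) (by linarith)
    · refine le_trans (le_of_eq ?_) (mul_le_mul_right (ENNReal.sum_le_tsum (Finset.range n)) _)
      rw [Finset.mul_sum]
      refine Finset.sum_congr rfl fun k _ => ?_
      have e : ((k + 1 : ℕ) : ℝ) * (p - 1) * (1 / p) = ((k : ℝ) + 1) * (p - 1) / p := by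
        push_cast
        ring
      rw [akt_w hα, e, ENNReal.coe_mul]
      ring
  have h3 : Filter.Tendsto (fun n : ℕ => √(d : ℝ) * (s / ((2 ^ n : ℕ) : ℝ))) Filter.atTop
      (nhds 0) := by
    have := ((tendsto_pow_atTop_atTop_of_one_lt (one_lt_two (α := ℝ))).const_div_atTop
      s).const_mul √(d : ℝ)
    rw [mul_zero] at this
    simpa using this
  have h4 : Filter.Tendsto (fun n : ℕ => (C' : ℝ≥0∞) *
      (ENNReal.ofReal (√(d : ℝ) * (s / ((2 ^ n : ℕ) : ℝ))) ^ p * ν (cube a s))) Filter.atTop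
      (nhds 0) := by
    have h5 := (ENNReal.continuous_rpow_const (y := p)).tendsto _ |>.comp
      (ENNReal.tendsto_ofReal h3)
    rw [ENNReal.ofReal_zero, ENNReal.zero_rpow_of_pos hp0] at h5
    have h6 := ENNReal.Tendsto.const_mul (a := (C' : ℝ≥0∞))
      (ENNReal.Tendsto.mul_const h5 (Or.inr hν)) (Or.inr ENNReal.coe_ne_top)
    rwa [zero_mul, mul_zero] at h6
  have h7 := h4.const_add (((2 * (((1 - (2 : ℝ) ^ (-(1 / p))) ^ (1 - p)).toNNReal * C) : ℝ≥0) :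
    ℝ≥0∞) * ∑' k : ℕ,
      ENNReal.ofReal (2 ^ (((k : ℝ) + 1) * (p - 1) / p)) * disc p ν a s (2 ^ (k + 1)))
  rw [add_zero] at h7
  refine ge_of_tendsto' h7 fun n => ?_
  refine (hC' _ (avg ν a s (2 ^ n)) _ (isFiniteMeasure_avg hs hν _)).trans (add_le_add ?_ ?_)
  · rw [ENNReal.coe_mul, mul_assoc, one_add_one_eq_two, ENNReal.ofReal_ofNat]
    exact mul_le_mul_right (h2 n) _
  · rw [Wp_comm]
    exact mul_le_mul_right (Wp_restrict_avg hp0.le hs hν (by positivity)) _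

end Pool.Agent.Lib.MP_fe8b6f_pr
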