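import Pool.Agent.Lib.MP_fe8b6f_pr.KnB

/-! One refinement step: a Knothe type rearrangement of a piecewise constant density. Part 3. -/

open MeasureTheory ProbabilityTheory
open scoped NNReal ENNReal

noncomputable section

namespace Pool.Agent.Lib.MP_fe8b6f_pr

variable {d : ℕ}

theorem knothe_avg_univ (ν : Measure (E d)) (a : E d) {s : ℝ} (hs : 0 < s) {m : ℕ} (hm : 0 < m) :
    avg ν a s m Set.univ = ν (cube a s) := by
  rw [measure_cube_eq_sum ν a hs hm, avg, Measure.finsetSum_apply]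
  refine Finset.sum_congr rfl fun j _ => ?_
  have hpos : 0 < (s / m) ^ d := by positivity
  rw [Measure.smul_apply, Measure.restrict_apply_univ, smul_eq_mul, ENNReal.div_mul_cancel]
  · rw [volume_gc a hs.le]
    simpa using hpos
  · rw [volume_gc a hs.le]
    exact ENNReal.ofReal_ne_top

theorem knothe_avg_compl (ν : Measure (E d)) (a : E d) {s : ℝ} (hs : 0 < s) (m : ℕ) :
    avg ν a s m (cube a s)ᶜ = 0 := by
  rw [avg, Measure.finsetSum_apply]
  refine Finset.sum_eq_zero fun j _ => ?_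
  have h : (cube a s)ᶜ ∩ gc a s m j = ∅ := by
    rw [Set.eq_empty_iff_forall_notMem]
    intro x hx
    exact hx.1 (gc_subset a hs.le m j hx.2)
  rw [Measure.smul_apply, Measure.restrict_apply (measurableSet_cube a s).compl, h, measure_empty,
    smul_zero]

theorem knothe_far {p : ℝ} (hp : 0 ≤ p) (a : E d) {s : ℝ} (ν : Measure (E d)) (hs : 0 < s)
    (hν : ν (cube a s) ≠ ⊤) :
    Wp p (avg ν a s 2) (avg ν a s 1) ≤ ENNReal.ofReal (√d * s) ^ p * ν (cube a s) := by
  have h2 := knothe_avg_univ ν a hs (m := 2) (by norm_num)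
  have h1 := knothe_avg_univ ν a hs (m := 1) (by norm_num)
  have : IsFiniteMeasure (avg ν a s 2) := ⟨by rw [h2]; exact hν.lt_top⟩
  rw [← h2]
  exact Wp_diam hp (h2.trans h1.symm) (knothe_avg_compl ν a hs 2) (knothe_avg_compl ν a hs 1)
    fun x hx y hy => norm_sub_le_of_cube hs.le hx hy

theorem knothe_near {p : ℝ} (hp : 0 ≤ p) (a : E d) {s : ℝ} (ν : Measure (E d)) (hs : 0 < s)
    (hν : ν (cube a s) ≠ ⊤) (hm : 0 < (ν (cube a s)).toReal) {δ : ℝ} (hδ0 : 0 ≤ δ)
    (hδ : δ ≤ 1 / 2)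
    (hf : ∀ j, |(ν (gc a s 2 j)).toReal / (ν (cube a s)).toReal * 2 ^ d - 1| ≤ δ) :
    Wp p (avg ν a s 2) (avg ν a s 1) ≤ ENNReal.ofReal (√d * (δ * s)) ^ p * ν (cube a s) := by
  have hj : ∀ j, ν (gc a s 2 j) ≠ ⊤ := fun j =>
    ne_top_of_le_ne_top hν (measure_mono (gc_subset a hs.le 2 j))
  have hsum := measure_cube_eq_sum ν a hs (m := 2) (by norm_num)
  have hf1 : ∑ j, (ν (gc a s 2 j)).toReal / (ν (cube a s)).toReal = 1 := by
    rw [← Finset.sum_div, ← ENNReal.toReal_sum fun j _ => hj j, ← hsum, div_self hm.ne']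
  obtain ⟨lo, hi, hlt, hcl, hvol, hpart⟩ := exists_knothe a hs _ hδ0 hδ hf1 hf
  have hsd : 0 < s ^ d := by positivity
  have hav : avg ν a s 1 = ∑ j, (ν (gc a s 2 j) / volume (box (lo j) (hi j))) •
      volume.restrict (box (lo j) (hi j)) := by
    rw [avg, Fintype.sum_unique, gc_one, ← hpart, Finset.smul_sum]
    refine Finset.sum_congr rfl fun j _ => ?_
    congr 1
    have hpos : 0 < (ν (gc a s 2 j)).toReal := by
      have h1 := (abs_le.1 (hf j)).1
      by_contra h2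
      have h3 : (ν (gc a s 2 j)).toReal = 0 := le_antisymm (not_lt.1 h2) ENNReal.toReal_nonneg
      rw [h3] at h1
      simp only [zero_div, zero_mul] at h1
      linarith
    rw [hvol, volume_cube a hs.le, ← ENNReal.ofReal_toReal hν, ← ENNReal.ofReal_toReal (hj j),
      ENNReal.toReal_ofReal hm.le, ENNReal.toReal_ofReal hpos.le,
      ← ENNReal.ofReal_div_of_pos hsd, ← ENNReal.ofReal_div_of_pos (by positivity)]
    congr 1
    field_simp
  rw [hav, hsum, Finset.mul_sum, avg]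
  refine (Wc_sum_le _ _ _ _).trans (Finset.sum_le_sum fun j _ => ?_)
  have hgc : gc a s 2 j =
      box (gcorner a s 2 j) (gcorner a s 2 j + WithLp.toLp 2 fun _ => s / 2) := by
    ext x
    simp [gc, cube, box]
  have h1 := Wp_box hp (a := gcorner a s 2 j)
    (b := gcorner a s 2 j + WithLp.toLp 2 fun _ => s / 2) (a' := lo j) (b' := hi j)
    (fun i => by simpa using hs) (hlt j) (mul_nonneg hδ0 hs.le) (fun i => (hcl j i).1)
    (fun i => by simpa using (hcl j i).2) (hj j)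
  rw [← hgc] at h1
  exact h1

theorem knothe_step {p : ℝ} (hp : 1 ≤ p) :
    ∃ C : ℝ≥0, ∀ (a : E d) (s : ℝ) (ν : Measure (E d)), 0 < s → ν (cube a s) ≠ ⊤ →
      Wp p (avg ν a s 2) (avg ν a s 1) ≤ C * disc p ν a s 2 := by
  have hp0 : 0 ≤ p := by linarith
  have hC : 0 ≤ (10 * √d) ^ p * (6 / 5 * 2 ^ d : ℝ) := by positivity
  refine ⟨Real.toNNReal ((10 * √d) ^ p * (6 / 5 * 2 ^ d)), fun a s ν hs hν => ?_⟩
  have hj : ∀ j, ν (gc a s 2 j) ≠ ⊤ := fun j =>
    ne_top_of_le_ne_top hν (measure_mono (gc_subset a hs.le 2 j))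
  obtain ⟨j₀, -, hj₀⟩ := Finset.exists_max_image Finset.univ
    (fun j : Fin d → Fin 2 => |(ν (gc a s 2 j)).toReal - (s / 2) ^ d|) Finset.univ_nonempty
  obtain ⟨h, hh⟩ : ∃ h, h = (s / 2) ^ d := ⟨_, rfl⟩
  obtain ⟨m, hm⟩ : ∃ m, m = (ν (cube a s)).toReal := ⟨_, rfl⟩
  obtain ⟨t, ht⟩ : ∃ t, t = |(ν (gc a s 2 j₀)).toReal - (s / 2) ^ d| / h := ⟨_, rfl⟩
  obtain ⟨N, hN⟩ : ∃ N : ℝ, N = 2 ^ d := ⟨_, rfl⟩
  have hh0 : 0 < h := by rw [hh]; positivity
  have hN0 : 0 < N := by rw [hN]; positivity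
  have hm0 : 0 ≤ m := by rw [hm]; exact ENNReal.toReal_nonneg
  have ht0 : 0 ≤ t := by rw [ht]; positivity
  have hE : |(ν (gc a s 2 j₀)).toReal - (s / 2) ^ d| = t * h := by
    rw [ht, div_mul_cancel₀ _ hh0.ne']
  have he : ∀ j, |(ν (gc a s 2 j)).toReal - h| ≤ t * h := fun j => by
    rw [← hE, hh]
    exact hj₀ j (Finset.mem_univ j)
  have hmsum : m = ∑ j, (ν (gc a s 2 j)).toReal := by
    rw [hm, measure_cube_eq_sum ν a hs (m := 2) (by norm_num), ENNReal.toReal_sum fun j _ => hj j]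
  have hcard : ∀ c : ℝ, ∑ _j : Fin d → Fin 2, c = N * c := by
    intro c
    simp [hN]
  have hmN : |m - N * h| ≤ N * (t * h) := by
    rw [hmsum, ← hcard, ← hcard, ← Finset.sum_sub_distrib]
    exact (Finset.abs_sum_le_sum_abs _ _).trans (Finset.sum_le_sum fun j _ => he j)
  obtain ⟨hm1, hm2⟩ := abs_le.1 hmN
  have hNh : 0 < N * h := mul_pos hN0 hh0
  have hνm : ν (cube a s) = ENNReal.ofReal m := by rw [hm, ENNReal.ofReal_toReal hν]
  have hsd : 0 ≤ √d * s := by positivity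
  have key : Wp p (avg ν a s 2) (avg ν a s 1) ≤
      ENNReal.ofReal ((√d * s) ^ p * (5 * t) ^ p * (6 / 5 * (N * h))) := by
    by_cases htc : t ≤ 1 / 5
    · have hm3 : 4 / 5 * (N * h) ≤ m := by nlinarith
      have hm4 : m ≤ 6 / 5 * (N * h) := by nlinarith
      have hm5 : 0 < m := by linarith
      have h1 := knothe_near hp0 a ν hs hν (hm ▸ hm5) (δ := 5 * t / 2) (by positivity)
        (by linarith) (fun j => by
          rw [← hm, ← hN]
          obtain ⟨h2, h3⟩ := abs_le.1 (he j)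
          have h4 : (ν (gc a s 2 j)).toReal / m * N - 1 = ((ν (gc a s 2 j)).toReal * N - m) / m := by
            field_simp
          rw [h4, abs_div, abs_of_pos hm5, div_le_iff₀ hm5, abs_le]
          have h5 := mul_le_mul_of_nonneg_left h2 hN0.le
          have h6 := mul_le_mul_of_nonneg_left h3 hN0.le
          have h7 := mul_le_mul_of_nonneg_left hm3 ht0
          constructor <;> nlinarith)
      refine h1.trans ?_
      rw [hνm, ENNReal.ofReal_rpow_of_nonneg (by positivity) hp0,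
        ← ENNReal.ofReal_mul (by positivity)]
      refine ENNReal.ofReal_le_ofReal (mul_le_mul ?_ hm4 hm0 (by positivity))
      rw [← Real.mul_rpow hsd (by positivity)]
      refine Real.rpow_le_rpow (by positivity) ?_ hp0
      have := mul_nonneg hsd ht0
      nlinarith
    · refine (knothe_far hp0 a ν hs hν).trans ?_
      rw [hνm, ENNReal.ofReal_rpow_of_nonneg hsd hp0, ← ENNReal.ofReal_mul (by positivity),
        mul_assoc]
      refine ENNReal.ofReal_le_ofReal (mul_le_mul_of_nonneg_left ?_ (by positivity))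
      have h1 : 1 ≤ 5 * t := by linarith
      have h2 : 5 * t ≤ (5 * t) ^ p := Real.self_le_rpow_of_one_le h1 hp
      have h3 := mul_le_mul_of_nonneg_right h2 hNh.le
      have h4 := mul_le_mul_of_nonneg_right h1 hNh.le
      nlinarith
  refine key.trans ?_
  have hdisc : ENNReal.ofReal ((s / 2) ^ (p + d - d * p) * (t * h) ^ p) ≤ disc p ν a s 2 := by
    have := Finset.single_le_sum (f := fun j : Fin d → Fin 2 => ENNReal.ofReal
      ((s / (2 : ℕ)) ^ (p + d - d * p) * |(ν (gc a s 2 j)).toReal - (s / (2 : ℕ)) ^ d| ^ p))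
      (fun _ _ => zero_le) (Finset.mem_univ j₀)
    rw [← hE]
    simpa only [disc, Nat.cast_ofNat] using this
  refine le_trans ?_ (mul_le_mul_right hdisc _)
  change _ ≤ ENNReal.ofReal _ * _
  rw [← ENNReal.ofReal_mul hC]
  refine ENNReal.ofReal_le_ofReal (le_of_eq ?_)
  have hs2 : 0 < s / 2 := by positivity
  have e1 : (s / 2) ^ (p + d - d * p) * h ^ p = (s / 2) ^ p * h := by
    rw [hh, ← Real.rpow_natCast, ← Real.rpow_mul hs2.le, ← Real.rpow_add hs2,
      ← Real.rpow_add hs2]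
    congr 1
    ring
  have e2 : (√d * s) ^ p * (5 * t) ^ p = (10 * √d) ^ p * ((s / 2) ^ p * t ^ p) := by
    rw [← Real.mul_rpow hsd (by positivity), ← Real.mul_rpow hs2.le ht0,
      ← Real.mul_rpow (by positivity) (by positivity)]
    congr 1
    ring
  rw [e2, Real.mul_rpow ht0 hh0.le, ← hN]
  calc (10 * √d) ^ p * ((s / 2) ^ p * t ^ p) * (6 / 5 * (N * h))
      = (10 * √d) ^ p * (6 / 5 * N) * (t ^ p * ((s / 2) ^ p * h)) := by ring
    _ = _ := by rw [← e1]; ring

end Pool.Agent.Lib.MP_fe8b6f_pr
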