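import Pool.Agent.Lib.MP_fe8b6f_pr.OTb
import Pool.Agent.Lib.MP_fe8b6f_pr.Knothe

/-! Dyadic (Ajtai-Komlos-Tusnady) bound for the transport cost. Part 1. -/

open MeasureTheory ProbabilityTheory
open scoped NNReal ENNReal

noncomputable section

namespace Pool.Agent.Lib.MP_fe8b6f_pr

variable {d : ℕ}

theorem avg_one (ν : Measure (E d)) (a : E d) (s : ℝ) :
    avg ν a s 1 = (ν (cube a s) / volume (cube a s)) • volume.restrict (cube a s) := by
  simp only [avg, gc_one, Finset.sum_const, Finset.card_univ, Fintype.card_unique, one_smul]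

theorem akta_mass_le (c : ℝ≥0∞) (A : Set (E d)) :
    ((c / volume A) • (volume : Measure (E d)).restrict A) Set.univ ≤ c := by
  rw [Measure.smul_apply, Measure.restrict_apply_univ, smul_eq_mul, div_eq_mul_inv, mul_assoc]
  exact mul_le_of_le_one_right' (ENNReal.inv_mul_le_one _)

theorem isFiniteMeasure_avg {ν : Measure (E d)} {a : E d} {s : ℝ} (hs : 0 < s)
    (hν : ν (cube a s) ≠ ⊤) (m : ℕ) : IsFiniteMeasure (avg ν a s m) := by
  refine ⟨?_⟩
  rw [avg, Measure.finsetSum_apply]
  refine ENNReal.sum_lt_top.2 fun j _ => ?_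
  exact (akta_mass_le _ _).trans_lt
    ((measure_mono (gc_subset a hs.le m j)).trans_lt (lt_top_iff_ne_top.2 hν))

theorem measurable_disc (p : ℝ) (a : E d) (s : ℝ) (m : ℕ) :
    Measurable fun ν : Measure (E d) => disc p ν a s m := by
  unfold disc
  refine Finset.measurable_sum _ fun j _ => ?_
  have h1 : Measurable fun ν : Measure (E d) => ν (gc a s m j) :=
    Measure.measurable_coe (measurableSet_gc a s m j)
  exact ((((continuous_abs.measurable.comp
    (h1.ennreal_toReal.sub_const _)).pow_const p).const_mul _).ennreal_ofReal)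

theorem Wp_restrict_avg {p : ℝ} (hp : 0 ≤ p) {ν : Measure (E d)} {a : E d} {s : ℝ} (hs : 0 < s)
    (hν : ν (cube a s) ≠ ⊤) {m : ℕ} (hm : 0 < m) :
    Wp p (ν.restrict (cube a s)) (avg ν a s m) ≤
      ENNReal.ofReal (√d * (s / m)) ^ p * ν (cube a s) := by
  have hsm : 0 < s / m := div_pos hs (Nat.cast_pos.2 hm)
  rw [restrict_cube_eq_sum ν a hs hm, measure_cube_eq_sum ν a hs hm, Finset.mul_sum, avg]
  refine (Wc_sum_le _ _ _ _).trans (Finset.sum_le_sum fun j _ => ?_)
  have hfin : ν (gc a s m j) ≠ ⊤ :=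
    ne_top_of_le_ne_top hν (measure_mono (gc_subset a hs.le m j))
  have hA := measurableSet_gc a s m j
  have : IsFiniteMeasure (ν.restrict (gc a s m j)) := isFiniteMeasure_restrict.2 hfin
  have hv0 : volume (gc a s m j) ≠ 0 := by
    rw [volume_gc a hs.le]
    exact (ENNReal.ofReal_pos.2 (pow_pos hsm d)).ne'
  have hvt : volume (gc a s m j) ≠ ⊤ := by
    rw [volume_gc a hs.le]
    exact ENNReal.ofReal_ne_top
  have h1 := Wp_diam hp (μ := ν.restrict (gc a s m j))
    (ν := (ν (gc a s m j) / volume (gc a s m j)) • volume.restrict (gc a s m j))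
    (S := gc a s m j) (T := gc a s m j) (D := √d * (s / m))
    (by
      rw [Measure.smul_apply, Measure.restrict_apply_univ, Measure.restrict_apply_univ,
        smul_eq_mul, ENNReal.div_mul_cancel hv0 hvt])
    (by rw [Measure.restrict_apply hA.compl, Set.compl_inter_self, measure_empty])
    (by
      rw [Measure.smul_apply, Measure.restrict_apply hA.compl, Set.compl_inter_self,
        measure_empty, smul_zero])
    (fun x hx y hy => norm_sub_le_of_cube hsm.le hx hy)
  rwa [Measure.restrict_apply_univ] at h1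

theorem avg_step {p : ℝ} (hp : 1 ≤ p) :
    ∃ C : ℝ≥0, ∀ (a : E d) (s : ℝ) (ν : Measure (E d)) (m : ℕ), 0 < s → 0 < m →
      ν (cube a s) ≠ ⊤ →
      Wp p (avg ν a s (m * 2)) (avg ν a s m) ≤ C * disc p ν a s (m * 2) := by
  obtain ⟨C, hC⟩ := knothe_step (d := d) hp
  refine ⟨C, fun a s ν m hs hm hν => ?_⟩
  obtain ⟨e, he⟩ := exists_grid_equiv (d := d) m 2
  have hsm : 0 < s / m := div_pos hs (Nat.cast_pos.2 hm)
  have h1 : avg ν a s (m * 2) = ∑ j : Fin d → Fin m, avg ν (gcorner a s m j) (s / m) 2 := by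
    rw [avg, ← e.sum_comp, Fintype.sum_prod_type]
    refine Finset.sum_congr rfl fun j _ => ?_
    rw [avg]
    exact Finset.sum_congr rfl fun j' _ => by rw [(he a s j j').2]
  have h2 : avg ν a s m = ∑ j : Fin d → Fin m, avg ν (gcorner a s m j) (s / m) 1 := by
    rw [avg]
    exact Finset.sum_congr rfl fun j _ => by rw [avg_one]; rfl
  have h3 : disc p ν a s (m * 2) =
      ∑ j : Fin d → Fin m, disc p ν (gcorner a s m j) (s / m) 2 := by
    rw [disc, ← e.sum_comp, Fintype.sum_prod_type]
    refine Finset.sum_congr rfl fun j _ => ?_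
    rw [disc]
    refine Finset.sum_congr rfl fun j' _ => ?_
    rw [(he a s j j').2, Nat.cast_mul, div_div]
  rw [h1, h2, h3, Finset.mul_sum]
  refine (Wc_sum_le _ _ _ _).trans (Finset.sum_le_sum fun j _ => ?_)
  exact hC _ _ ν hsm (ne_top_of_le_ne_top hν (measure_mono (gc_subset a hs.le m j)))

end Pool.Agent.Lib.MP_fe8b6f_pr
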