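import Pool.Agent.Lib.MP_fe8b6f_pr.BMa3

/-! Wiener measure: measurability, uniqueness, invariances, Markov property. Part 4. -/

open MeasureTheory ProbabilityTheory
open scoped NNReal ENNReal

noncomputable section

namespace Pool.Agent.Lib.MP_fe8b6f_pr

variable {d : ℕ}

/-- the coordinates of a path -/
def bma_co (w : Path d) (it : Fin d × ℝ≥0) : ℝ := w it.2 it.1

theorem bma_meas_coord (t : ℝ≥0) (i : Fin d) : Measurable fun w : Path d => w t i :=
  (EuclideanSpace.proj i : E d →L[ℝ] ℝ).continuous.measurable.comp (measurable_ev t)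

theorem bma_le_comap :
    pathMeasurableSpace d ≤ MeasurableSpace.comap (bma_co (d := d)) MeasurableSpace.pi := by
  have h : @Measurable (Path d) (Path d)
      (MeasurableSpace.comap (bma_co (d := d)) MeasurableSpace.pi) (pathMeasurableSpace d) id := by
    refine (@measurable_path_iff d (Path d)
      (MeasurableSpace.comap (bma_co (d := d)) MeasurableSpace.pi) id).2 fun t => ?_
    have h1 : @Measurable (Path d) (Fin d × ℝ≥0 → ℝ)
        (MeasurableSpace.comap (bma_co (d := d)) MeasurableSpace.pi) _ bma_co :=
      comap_measurable _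
    have h2 : Measurable fun f : Fin d × ℝ≥0 → ℝ => (WithLp.toLp 2 fun i => f (i, t) : E d) := by
      fun_prop
    exact h2.comp h1
  have h3 := h.comap_le
  rwa [MeasurableSpace.comap_id] at h3

theorem bma_indep {W : Measure (Path d)} (hW : IsWiener W) (t : ℝ≥0) :
    IndepFun (stop t : Path d → Path d) (shift t) W := by
  classical
  have := hW.isProbabilityMeasure
  have hG := hW.isGaussianProcess
  have hL : ∀ (s : ℝ≥0) (i : Fin d), MemLp (fun w : Path d => w s i) 2 W := fun s i =>
    (hG.hasGaussianLaw_eval (i, s)).memLp_two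
  have h1 : IndepFun (fun (w : Path d) (it : Fin d × ℝ≥0) => w (min it.2 t) it.1)
      (fun (w : Path d) (it : Fin d × ℝ≥0) => w (t + it.2) it.1 - w t it.1) W := by
    refine IsGaussianProcess.indepFun_of_covariance_eq_zero
      (X := fun (it : Fin d × ℝ≥0) (w : Path d) => w (min it.2 t) it.1)
      (Y := fun (it : Fin d × ℝ≥0) (w : Path d) => w (t + it.2) it.1 - w t it.1) ?_ ?_ ?_ ?_
    · refine hG.of_isGaussianProcess ?_
      rintro (it | it)
      · exact ⟨{(it.1, min it.2 t)},
          { toFun := fun x => x ⟨(it.1, min it.2 t), by simp⟩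
            map_add' := by simp
            map_smul' := by simp }, by simp⟩
      · exact ⟨{(it.1, t + it.2), (it.1, t)},
          { toFun := fun x => x ⟨(it.1, t + it.2), by simp⟩ - x ⟨(it.1, t), by simp⟩
            map_add' := fun x y => by simp; abel
            map_smul' := fun c x => by simp; ring }, by simp⟩
    · exact fun it => (bma_meas_coord _ _).aemeasurable
    · intro it
      have a1 := bma_meas_coord (d := d) (t + it.2) it.1
      have a2 := bma_meas_coord (d := d) t it.1
      exact (a1.sub a2).aemeasurable
    · intro a b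
      rw [covariance_fun_sub_right (hL _ _) (hL _ _) (hL _ _), hW.covariance_eval,
        hW.covariance_eval]
      have e1 : min (min a.2 t) (t + b.2) = min a.2 t :=
        min_eq_left ((min_le_right _ _).trans le_self_add)
      have e2 : min (min a.2 t) t = min a.2 t := min_eq_left (min_le_right _ _)
      rw [e1, e2, sub_self]
  rw [IndepFun_iff_Indep] at h1 ⊢
  refine indep_of_indep_of_le h1 ?_ ?_
  · refine (MeasurableSpace.comap_mono bma_le_comap).trans ?_
    rw [MeasurableSpace.comap_comp]
    exact le_rfl
  · refine (MeasurableSpace.comap_mono bma_le_comap).trans ?_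
    rw [MeasurableSpace.comap_comp]
    exact le_rfl

/-- weak Markov property -/
theorem IsWiener.markov {W : Measure (Path d)} (hW : IsWiener W) (t : ℝ≥0)
    {Φ : Path d × Path d → ℝ≥0∞} (hΦ : Measurable Φ) :
    ∫⁻ w, Φ (stop t w, shift t w) ∂W = ∫⁻ w, ∫⁻ w', Φ (stop t w, w') ∂W ∂W := by
  have := hW.isProbabilityMeasure
  have h1 : Measurable (stop t : Path d → Path d) := (continuous_stop t).measurable
  have h2 : Measurable (shift t : Path d → Path d) :=
    (continuous_shift.comp (continuous_const.prodMk continuous_id)).measurable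
  have h3 := (indepFun_iff_map_prod_eq_prod_map_map h1.aemeasurable h2.aemeasurable).1
    (bma_indep hW t)
  rw [← lintegral_map hΦ (h1.prodMk h2), h3, hW.map_shift, lintegral_prod _ hΦ.aemeasurable,
    lintegral_map hΦ.lintegral_prod_right' h1]

end Pool.Agent.Lib.MP_fe8b6f_pr
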