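import Pool.Agent.Lib.MP_fe8b6f_pr.Grid

/-! Wiener measure: measurability, uniqueness, invariances, Markov property. Part 1. -/

open MeasureTheory ProbabilityTheory
open scoped NNReal ENNReal

noncomputable section

namespace Pool.Agent.Lib.MP_fe8b6f_pr

variable {d : ℕ}

/-- the values of a path along a fixed dense sequence of times -/
def bma1_emb (w : Path d) : Fin d × ℕ → ℝ :=
  fun iN => w (TopologicalSpace.denseSeq ℝ≥0 iN.2) iN.1

theorem bma1_emb_measurableEmbedding : MeasurableEmbedding (bma1_emb (d := d)) := by
  refine Continuous.measurableEmbedding ?_ ?_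
  · refine continuous_pi fun iN => ?_
    unfold bma1_emb
    fun_prop
  · intro w w' h
    have h1 : (w : ℝ≥0 → E d) = w' := by
      refine (TopologicalSpace.denseRange_denseSeq ℝ≥0).equalizer w.continuous w'.continuous ?_
      funext n
      ext i
      exact congrFun h (i, n)
    exact ContinuousMap.coe_injective h1

theorem measurable_path_eval : Measurable fun q : Path d × ℝ≥0 => q.1 q.2 := by
  exact (continuous_eval : Continuous fun q : Path d × ℝ≥0 => q.1 q.2).measurable

theorem measurable_ev (t : ℝ≥0) : Measurable fun w : Path d => w t := by
  exact (continuous_eval_const t : Continuous fun w : Path d => w t).measurable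

/-- the Borel sigma-algebra of path space is generated by the evaluations
(Lusin-Souslin: `Continuous.measurableEmbedding` into a countable product) -/
theorem measurable_path_iff {X : Type*} [MeasurableSpace X] {f : X → Path d} :
    Measurable f ↔ ∀ t : ℝ≥0, Measurable fun x => f x t := by
  refine ⟨fun hf t => (measurable_ev t).comp hf, fun h => ?_⟩
  rw [← bma1_emb_measurableEmbedding.measurable_comp_iff]
  refine measurable_pi_lambda _ fun iN => ?_
  exact (by fun_prop : Measurable fun v : E d => v iN.1).comp
    (h (TopologicalSpace.denseSeq ℝ≥0 iN.2))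

/-- a measure on a product with path space is determined by its image in the function space -/
theorem measure_path_ext {X : Type*} [MeasurableSpace X] {μ ν : Measure (X × Path d)}
    (h : μ.map (fun q => (q.1, fun (it : Fin d × ℝ≥0) => q.2 it.2 it.1)) =
      ν.map (fun q => (q.1, fun (it : Fin d × ℝ≥0) => q.2 it.2 it.1))) : μ = ν := by
  have hm : Measurable fun q : X × Path d =>
      (q.1, fun (it : Fin d × ℝ≥0) => q.2 it.2 it.1) := by
    refine measurable_fst.prodMk (measurable_pi_lambda _ fun it => ?_)
    exact (by fun_prop : Measurable fun v : E d => v it.1).comp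
      ((measurable_ev it.2).comp measurable_snd)
  let r : X × (Fin d × ℝ≥0 → ℝ) → X × (Fin d × ℕ → ℝ) :=
    fun q => (q.1, fun iN => q.2 (iN.1, TopologicalSpace.denseSeq ℝ≥0 iN.2))
  have hr : Measurable r :=
    measurable_fst.prodMk (measurable_pi_lambda _ fun iN =>
      (measurable_pi_apply _).comp measurable_snd)
  have he : MeasurableEmbedding (Prod.map (id : X → X) (bma1_emb (d := d))) :=
    MeasurableEmbedding.id.prodMap bma1_emb_measurableEmbedding
  apply he.map_injective
  have h2 := congrArg (Measure.map r) h
  rw [Measure.map_map hr hm, Measure.map_map hr hm] at h2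
  exact h2

end Pool.Agent.Lib.MP_fe8b6f_pr
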