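import Pool.Agent.Lib.MP_fe8b6f_pr.BMa1

/-! Wiener measure: measurability, uniqueness, invariances, Markov property. Part 2. -/

open MeasureTheory ProbabilityTheory
open scoped NNReal ENNReal

noncomputable section

namespace Pool.Agent.Lib.MP_fe8b6f_pr

variable {d : ℕ}

theorem IsWiener.isProbabilityMeasure {W : Measure (Path d)} (hW : IsWiener W) :
    IsProbabilityMeasure W := hW.indep.isProbabilityMeasure

theorem bma2_meas (i : Fin d) (t : ℝ≥0) : Measurable fun w : Path d => w t i :=
  (by fun_prop : Measurable fun x : E d => x i).comp (measurable_ev t)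

theorem IsWiener.isGaussianProcess {W : Measure (Path d)} (hW : IsWiener W) :
    IsGaussianProcess (fun (it : Fin d × ℝ≥0) (w : Path d) => w it.2 it.1) W := by
  classical
  refine ⟨fun I => ?_⟩
  have h1 : iIndepFun (fun (i : Fin d) (w : Path d) =>
      (I.image Prod.snd).restrict (fun t => w t i)) W :=
    hW.indep.comp (fun _ => (I.image Prod.snd).restrict) fun _ => Finset.measurable_restrict _
  have h2 := h1.hasGaussianLaw fun i =>
    (hW.brownian i).toIsPreBrownianReal.isGaussianProcess.hasGaussianLaw (I.image Prod.snd)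
  let L : (Fin d → (I.image Prod.snd) → ℝ) →L[ℝ] I → ℝ :=
    { toFun := fun x it => x it.1.1 ⟨it.1.2, Finset.mem_image_of_mem _ it.2⟩
      map_add' := fun _ _ => rfl
      map_smul' := fun _ _ => rfl }
  exact h2.map L

theorem IsWiener.integral_eval {W : Measure (Path d)} (hW : IsWiener W) (i : Fin d) (t : ℝ≥0) :
    ∫ w, w t i ∂W = 0 := (hW.brownian i).toIsPreBrownianReal.integral_eval t

theorem IsWiener.covariance_eval {W : Measure (Path d)} (hW : IsWiener W) (i j : Fin d)
    (s t : ℝ≥0) :
    covariance (fun w : Path d => w s i) (fun w : Path d => w t j) W =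
      if i = j then ((min s t : ℝ≥0) : ℝ) else 0 := by
  split_ifs with h
  · subst h
    exact (hW.brownian i).toIsPreBrownianReal.covariance_eval s t
  · have := hW.isProbabilityMeasure
    exact ((hW.indep.indepFun h).comp (measurable_pi_apply s)
      (measurable_pi_apply t)).covariance_eq_zero
      (hW.isGaussianProcess.hasGaussianLaw_eval (i, s)).memLp_two
      (hW.isGaussianProcess.hasGaussianLaw_eval (j, t)).memLp_two

theorem isWiener_of_gaussian {W : Measure (Path d)}
    (hG : IsGaussianProcess (fun (it : Fin d × ℝ≥0) (w : Path d) => w it.2 it.1) W)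
    (hm : ∀ (i : Fin d) (t : ℝ≥0), ∫ w, w t i ∂W = 0)
    (hc : ∀ (i j : Fin d) (s t : ℝ≥0),
      covariance (fun w : Path d => w s i) (fun w : Path d => w t j) W =
        if i = j then ((min s t : ℝ≥0) : ℝ) else 0) : IsWiener W := by
  refine ⟨fun i => ⟨?_, ae_of_all _ fun w => by fun_prop⟩, ?_⟩
  · refine (hG.comp_right fun t : ℝ≥0 => (i, t)).isPreBrownianReal_of_covariance (hm i)
      fun s t hst => ?_
    have := hc i i s t
    rwa [if_pos rfl, min_eq_left hst] at this
  · refine IsGaussianProcess.iIndepFun_of_covariance_eq_zero (S := fun _ : Fin d => ℝ≥0)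
      (X := fun i t (w : Path d) => w t i)
      (hG.comp_right fun p : (_ : Fin d) × ℝ≥0 => (p.1, p.2))
      (fun i t => (bma2_meas i t).aemeasurable) fun i j hij s t => ?_
    have := hc i j s t
    rwa [if_neg hij] at this

theorem bma2_limit {W : Measure (Path d)} (hW : IsWiener W) (i : Fin d) :
    IsProjectiveLimit (α := fun _ : ℝ≥0 => ℝ) (W.map fun (w : Path d) (t : ℝ≥0) => w t i)
      BrownianReal.projectiveFamily := by
  intro I
  rw [Measure.map_map (Finset.measurable_restrict _) (measurable_pi_lambda _ (bma2_meas i))]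
  exact ((hW.brownian i).hasLaw I).map_eq

theorem bma2_joint {W W' : Measure (Path d)} (hW : IsWiener W) (hW' : IsWiener W') :
    W.map (fun (w : Path d) (i : Fin d) (t : ℝ≥0) => w t i) =
      W'.map (fun (w : Path d) (i : Fin d) (t : ℝ≥0) => w t i) := by
  have := hW.isProbabilityMeasure
  have := hW'.isProbabilityMeasure
  have hm : ∀ i : Fin d, Measurable fun (w : Path d) (t : ℝ≥0) => w t i := fun i =>
    measurable_pi_lambda _ (bma2_meas i)
  rw [(iIndepFun_iff_map_fun_eq_pi_map fun i => (hm i).aemeasurable).1 hW.indep,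
    (iIndepFun_iff_map_fun_eq_pi_map fun i => (hm i).aemeasurable).1 hW'.indep]
  exact congrArg _ (funext fun i => (bma2_limit hW i).unique (bma2_limit hW' i))

theorem IsWiener.unique {W W' : Measure (Path d)} (hW : IsWiener W) (hW' : IsWiener W') :
    W = W' := by
  have hm : Measurable fun (w : Path d) (i : Fin d) (t : ℝ≥0) => w t i :=
    measurable_pi_lambda _ fun i => measurable_pi_lambda _ (bma2_meas i)
  have hg : Measurable fun x : Fin d → ℝ≥0 → ℝ =>
      ((), fun it : Fin d × ℝ≥0 => x it.1 it.2) := by fun_prop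
  have hf : Measurable fun q : Unit × Path d =>
      (q.1, fun it : Fin d × ℝ≥0 => q.2 it.2 it.1) :=
    measurable_fst.prodMk (measurable_pi_lambda _ fun it =>
      (bma2_meas it.1 it.2).comp measurable_snd)
  have h1 := congrArg (Measure.map fun x : Fin d → ℝ≥0 → ℝ =>
    ((), fun it : Fin d × ℝ≥0 => x it.1 it.2)) (bma2_joint hW hW')
  rw [Measure.map_map hg hm, Measure.map_map hg hm] at h1
  have h2 : W.map (Prod.mk ()) = W'.map (Prod.mk ()) := by
    apply measure_path_ext
    rw [Measure.map_map hf measurable_prodMk_left, Measure.map_map hf measurable_prodMk_left]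
    exact h1
  have h3 := congrArg (Measure.map Prod.snd) h2
  rw [Measure.map_map measurable_snd measurable_prodMk_left,
    Measure.map_map measurable_snd measurable_prodMk_left] at h3
  exact Measure.map_id.symm.trans (h3.trans Measure.map_id)

theorem IsWiener.ae_zero {W : Measure (Path d)} (hW : IsWiener W) : ∀ᵐ w ∂W, w 0 = 0 := by
  filter_upwards [ae_all_iff.2 fun i => (hW.brownian i).toIsPreBrownianReal.eval_zero_ae_eq_zero]
    with w hw
  ext i
  exact hw i

end Pool.Agent.Lib.MP_fe8b6f_pr
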