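import Pool.Agent.Lib.MP_fe8b6f_pr.BMa2

/-! Wiener measure: measurability, uniqueness, invariances, Markov property. Part 3. -/

open MeasureTheory ProbabilityTheory
open scoped NNReal ENNReal

noncomputable section

namespace Pool.Agent.Lib.MP_fe8b6f_pr

variable {d : ℕ}

theorem continuous_stop (t : ℝ≥0) : Continuous (stop t : Path d → Path d) := by
  exact ContinuousMap.continuous_precomp _

theorem continuous_shift : Continuous fun q : ℝ≥0 × Path d => shift q.1 q.2 := by
  refine ContinuousMap.continuous_of_continuous_uncurry _ ?_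
  change Continuous fun x : (ℝ≥0 × Path d) × ℝ≥0 => x.1.2 (x.1.1 + x.2) - x.1.2 x.1.1
  fun_prop

theorem continuous_scal (c : ℝ≥0) : Continuous (scal c : Path d → Path d) := by
  exact (ContinuousMap.continuous_precomp _).const_smul (c : ℝ)

theorem continuous_rot (O : E d ≃ₗᵢ[ℝ] E d) : Continuous (rot O : Path d → Path d) := by
  exact ContinuousMap.continuous_postcomp _

theorem stop_apply (t s : ℝ≥0) (w : Path d) : stop t w s = w (min s t) := rfl

theorem shift_apply (t s : ℝ≥0) (w : Path d) : shift t w s = w (t + s) - w t := rfl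

theorem scal_apply (c s : ℝ≥0) (w : Path d) : scal c w s = (c : ℝ) • w (s / c ^ 2) := rfl

theorem rot_apply (O : E d ≃ₗᵢ[ℝ] E d) (s : ℝ≥0) (w : Path d) : rot O w s = O (w s) := rfl

theorem bma3_meas (i : Fin d) (t : ℝ≥0) : Measurable fun w : Path d => w t i := by
  have : Continuous fun w : Path d => w t i := by fun_prop
  exact this.measurable

theorem bma3_map {W : Measure (Path d)} (hW : IsWiener W) {f : Path d → Path d}
    (hf : Continuous f)
    (hG : IsGaussianProcess (fun (it : Fin d × ℝ≥0) (w : Path d) => f w it.2 it.1) W)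
    (hm : ∀ (i : Fin d) (t : ℝ≥0), ∫ w, f w t i ∂W = 0)
    (hc : ∀ (i j : Fin d) (s t : ℝ≥0),
      covariance (fun w : Path d => f w s i) (fun w : Path d => f w t j) W =
        if i = j then ((min s t : ℝ≥0) : ℝ) else 0) : W.map f = W := by
  refine IsWiener.unique (isWiener_of_gaussian ⟨fun I => ⟨?_⟩⟩ (fun i t => ?_)
    (fun i j s t => ?_)) hW
  · have h1 : Measurable fun w : Path d =>
        I.restrict (fun it : Fin d × ℝ≥0 => w it.2 it.1) :=
      measurable_pi_lambda _ fun it => bma3_meas _ _
    rw [Measure.map_map h1 hf.measurable]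
    exact (hG.hasGaussianLaw I).isGaussian_map
  · rw [integral_map hf.measurable.aemeasurable (bma3_meas i t).aestronglyMeasurable]
    exact hm i t
  · rw [covariance_map_fun (bma3_meas i s).aestronglyMeasurable
      (bma3_meas j t).aestronglyMeasurable hf.measurable.aemeasurable]
    exact hc i j s t

theorem bma3_memLp {W : Measure (Path d)} (hW : IsWiener W) (i : Fin d) (t : ℝ≥0) :
    MemLp (fun w : Path d => w t i) 2 W :=
  (hW.isGaussianProcess.hasGaussianLaw_eval (i, t)).memLp_two

theorem bma3_rot (O : E d ≃ₗᵢ[ℝ] E d) (v : E d) (i : Fin d) :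
    O v i = ∑ k, O.symm (EuclideanSpace.single i 1) k * v k := by
  have h1 : O v i = inner ℝ (EuclideanSpace.single i (1 : ℝ) : E d) (O v) := by
    simp [EuclideanSpace.inner_single_left]
  rw [h1, ← O.symm.inner_map_map, O.symm_apply_apply, PiLp.inner_apply]
  exact Finset.sum_congr rfl fun k _ => by simp [mul_comm]

theorem bma3_orth (O : E d ≃ₗᵢ[ℝ] E d) (i j : Fin d) :
    ∑ k, O.symm (EuclideanSpace.single i 1) k * O.symm (EuclideanSpace.single j 1) k =
      if i = j then 1 else 0 := by
  rw [← bma3_rot, O.apply_symm_apply]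
  simp

theorem IsWiener.map_rot {W : Measure (Path d)} (hW : IsWiener W) (O : E d ≃ₗᵢ[ℝ] E d) :
    W.map (rot O) = W := by
  classical
  have := hW.isProbabilityMeasure
  have e : ∀ (w : Path d) s i, rot O w s i =
      ∑ k, O.symm (EuclideanSpace.single i 1) k * w s k := fun w s i => bma3_rot O (w s) i
  refine bma3_map hW (continuous_rot O) ?_ (fun i t => ?_) (fun i j s t => ?_)
  · refine hW.isGaussianProcess.of_isGaussianProcess fun it =>
      ⟨Finset.univ.image fun k : Fin d => (k, it.2),
        ∑ k : Fin d, O.symm (EuclideanSpace.single it.1 1) k •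
          ContinuousLinearMap.proj (R := ℝ) (φ := fun _ => ℝ)
            ⟨(k, it.2), Finset.mem_image.2 ⟨k, Finset.mem_univ _, rfl⟩⟩, fun w => ?_⟩
    rw [rot_apply, bma3_rot]
    simp
  · simp only [e]
    rw [integral_finsetSum _ fun k _ =>
      ((bma3_memLp hW k t).integrable one_le_two).const_mul _]
    simp [integral_const_mul, hW.integral_eval]
  · simp only [e]
    rw [covariance_fun_sum_fun_sum (fun k => (bma3_memLp hW k s).const_mul _)
      (fun k => (bma3_memLp hW k t).const_mul _)]
    simp only [covariance_const_mul_left, covariance_const_mul_right, hW.covariance_eval,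
      mul_ite, mul_zero, Finset.sum_ite_eq, Finset.mem_univ, if_true, ← mul_assoc,
      ← Finset.sum_mul, bma3_orth]
    by_cases hij : i = j
    · simp [hij]
    · simp [hij, Ne.symm hij]

theorem IsWiener.map_scal {W : Measure (Path d)} (hW : IsWiener W) {c : ℝ≥0} (hc : c ≠ 0) :
    W.map (scal c) = W := by
  have := hW.isProbabilityMeasure
  have e : ∀ (w : Path d) s i, scal c w s i = (c : ℝ) * w (s / c ^ 2) i := fun _ _ _ => rfl
  refine bma3_map hW (continuous_scal c) ?_ (fun i t => ?_) (fun i j s t => ?_)
  · exact (hW.isGaussianProcess.comp_right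
      fun it : Fin d × ℝ≥0 => (it.1, it.2 / c ^ 2)).smul fun _ => (c : ℝ)
  · simp only [e]
    rw [integral_const_mul, hW.integral_eval, mul_zero]
  · simp only [e]
    rw [covariance_const_mul_left, covariance_const_mul_right, hW.covariance_eval]
    split_ifs
    · rw [min_div_div_right zero_le]
      have hc' : (c : ℝ) ≠ 0 := NNReal.coe_ne_zero.2 hc
      push_cast
      field_simp
    · simp

theorem IsWiener.map_shift {W : Measure (Path d)} (hW : IsWiener W) (t : ℝ≥0) :
    W.map (shift t) = W := by
  classical
  have := hW.isProbabilityMeasure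
  have e : ∀ (w : Path d) s i, shift t w s i = w (t + s) i - w t i := fun _ _ _ => rfl
  refine bma3_map hW (continuous_shift.comp (Continuous.prodMk_right t)) ?_ (fun i s => ?_)
    (fun i j s u => ?_)
  · refine hW.isGaussianProcess.of_isGaussianProcess fun it =>
      ⟨{(it.1, t + it.2), (it.1, t)},
        ContinuousLinearMap.proj (R := ℝ) (φ := fun _ => ℝ) ⟨(it.1, t + it.2), by simp⟩ -
          ContinuousLinearMap.proj (R := ℝ) (φ := fun _ => ℝ) ⟨(it.1, t), by simp⟩,
        fun w => ?_⟩
    rfl
  · simp only [e]
    rw [integral_sub ((bma3_memLp hW i _).integrable one_le_two)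
      ((bma3_memLp hW i _).integrable one_le_two), hW.integral_eval, hW.integral_eval, sub_zero]
  · simp only [e]
    rw [covariance_fun_sub_fun_sub (bma3_memLp hW _ _) (bma3_memLp hW _ _) (bma3_memLp hW _ _)
      (bma3_memLp hW _ _)]
    simp only [hW.covariance_eval]
    split_ifs
    · rw [min_add_add_left, min_eq_right le_self_add, min_eq_left le_self_add, min_self]
      push_cast
      ring
    · simp

end Pool.Agent.Lib.MP_fe8b6f_pr
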