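import Pool.Agent.Lib.MP_fe8b6f_pr.BMb3

/-! Heat kernel, occupation measures, Green function. Part 4. -/

open MeasureTheory ProbabilityTheory
open scoped NNReal ENNReal

noncomputable section

namespace Pool.Agent.Lib.MP_fe8b6f_pr

variable {d : ℕ}

theorem bmb_half (hd : 3 ≤ d) : (1 : ℝ) / 2 ≤ (d : ℝ) / 2 - 1 := by
  have : (3 : ℝ) ≤ d := by exact_mod_cast hd
  linarith

theorem capBall_pos (hd : 3 ≤ d) {R : ℝ} (hR : 0 < R) : 0 < capBall d R := by
  have h := bmb_half hd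
  have h1 : 0 < Real.Gamma ((d : ℝ) / 2 - 1) := Real.Gamma_pos_of_pos (by linarith)
  have h2 := Real.pi_pos
  unfold capBall
  positivity

theorem capBall_mul {c R : ℝ} (hc : 0 < c) (hR : 0 < R) :
    capBall d (c * R) = c ^ ((d : ℝ) - 2) * capBall d R := by
  unfold capBall
  rw [Real.mul_rpow hc.le hR.le]
  ring

theorem bmb_integral (hd : 3 ≤ d) {r : ℝ} (hr : 0 < r) :
    ∫ t in Set.Ioi (0 : ℝ), (2 * Real.pi * t) ^ (-(d : ℝ) / 2) * Real.exp (-r ^ 2 / (2 * t)) =
      (capBall d r)⁻¹ := by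
  have h := bmb_half hd
  have hπ := Real.pi_pos
  have h1 := integral_comp_rpow_Ioi
    (fun t : ℝ => (2 * Real.pi * t) ^ (-(d : ℝ) / 2) * Real.exp (-r ^ 2 / (2 * t)))
    (p := -1) (by norm_num)
  have h2 := Real.integral_rpow_mul_exp_neg_mul_Ioi (a := (d : ℝ) / 2 - 1) (r := r ^ 2 / 2)
    (by linarith) (by positivity)
  have h3 : ∫ x in Set.Ioi (0 : ℝ), (|(-1 : ℝ)| * x ^ ((-1 : ℝ) - 1)) •
      ((2 * Real.pi * x ^ (-1 : ℝ)) ^ (-(d : ℝ) / 2) * Real.exp (-r ^ 2 / (2 * x ^ (-1 : ℝ)))) =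
      ∫ x in Set.Ioi (0 : ℝ), (2 * Real.pi) ^ (-(d : ℝ) / 2) *
        (x ^ ((d : ℝ) / 2 - 1 - 1) * Real.exp (-(r ^ 2 / 2 * x))) := by
    refine setIntegral_congr_fun measurableSet_Ioi fun x hx => ?_
    have hx' : 0 < x := hx
    have e1 : -r ^ 2 / (2 * x ^ (-1 : ℝ)) = -(r ^ 2 / 2 * x) := by
      rw [Real.rpow_neg_one]
      field_simp
    have e2 : x ^ ((d : ℝ) / 2 - 1 - 1) = x ^ ((-1 : ℝ) - 1) * (x ^ (-1 : ℝ)) ^ (-(d : ℝ) / 2) := by
      rw [← Real.rpow_mul hx'.le, ← Real.rpow_add hx']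
      congr 1
      ring
    simp only [smul_eq_mul]
    rw [e1, e2, Real.mul_rpow (by positivity) (Real.rpow_nonneg hx'.le _), abs_neg, abs_one]
    ring
  rw [← h1, h3, integral_const_mul, h2]
  have hG : 0 < Real.Gamma ((d : ℝ) / 2 - 1) := Real.Gamma_pos_of_pos (by linarith)
  have e3 : (2 * Real.pi) ^ (-(d : ℝ) / 2) =
      ((2 : ℝ) ^ ((d : ℝ) / 2) * Real.pi ^ ((d : ℝ) / 2))⁻¹ := by
    rw [← Real.mul_rpow (by norm_num) hπ.le, ← Real.rpow_neg (by positivity), neg_div]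
  have e4 : (1 / (r ^ 2 / 2)) ^ ((d : ℝ) / 2 - 1) =
      (2 : ℝ) ^ ((d : ℝ) / 2) / 2 / r ^ ((d : ℝ) - 2) := by
    rw [one_div_div, Real.div_rpow (by norm_num) (by positivity), Real.rpow_sub_one (by norm_num),
      ← Real.rpow_natCast r 2, ← Real.rpow_mul hr.le]
    congr 2
    push_cast
    ring
  have p1 : 0 < (2 : ℝ) ^ ((d : ℝ) / 2) := by positivity
  have p2 : 0 < Real.pi ^ ((d : ℝ) / 2) := by positivity
  have p3 : 0 < r ^ ((d : ℝ) - 2) := by positivity
  rw [e3, e4]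
  unfold capBall
  field_simp

/-- the Green function is the reciprocal of the capacity (Gamma integral) -/
theorem green_eq (hd : 3 ≤ d) {x : E d} (hx : x ≠ 0) :
    green x = ENNReal.ofReal (capBall d ‖x‖)⁻¹ := by
  have hr : 0 < ‖x‖ := norm_pos_iff.2 hx
  have h1 := bmb_integral hd hr
  have h2 : Integrable (fun t : ℝ => (2 * Real.pi * t) ^ (-(d : ℝ) / 2) *
      Real.exp (-‖x‖ ^ 2 / (2 * t))) (volume.restrict (Set.Ioi (0 : ℝ))) :=
    Integrable.of_integral_ne_zero (by rw [h1]; exact (inv_pos.2 (capBall_pos hd hr)).ne')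
  rw [← h1, ofReal_integral_eq_lintegral_ofReal h2]
  · rfl
  · refine (ae_restrict_mem measurableSet_Ioi).mono fun t ht => ?_
    have ht' : 0 < t := ht
    have hπ := Real.pi_pos
    positivity

/-- late occupation of a set of finite volume -/
theorem IsWiener.occ_late_le {W : Measure (Path d)} (hW : IsWiener W) (hd : 3 ≤ d) (x : E d)
    {a : ℝ} (ha : 0 < a) {A : Set (E d)} (hA : MeasurableSet A) :
    ∫⁻ w, occ x w (Set.Ici a) A ∂W ≤ ENNReal.ofReal (2 * a ^ (1 - (d : ℝ) / 2)) * volume A := by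
  have h := bmb_half hd
  have h1 := hW.lintegral_occ_eq x (I := Set.Ici a) measurableSet_Ici
    (Set.Ici_subset_Ici.2 ha.le) (f := A.indicator 1) (measurable_one.indicator hA)
  simp only [lintegral_indicator_one hA] at h1
  have hlt : -(d : ℝ) / 2 < -1 := by linarith
  have h2 : ∫⁻ t in Set.Ici a, ENNReal.ofReal (t ^ (-(d : ℝ) / 2)) ≤
      ENNReal.ofReal (2 * a ^ (1 - (d : ℝ) / 2)) := by
    rw [← setLIntegral_congr Ioi_ae_eq_Ici,
      ← ofReal_integral_eq_lintegral_ofReal (integrableOn_Ioi_rpow_of_lt hlt ha),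
      integral_Ioi_rpow_of_lt hlt ha]
    · refine ENNReal.ofReal_le_ofReal ?_
      have e : -(d : ℝ) / 2 + 1 = 1 - (d : ℝ) / 2 := by ring
      have p : 0 < a ^ (1 - (d : ℝ) / 2) := by positivity
      rw [e, div_le_iff_of_neg (by linarith)]
      nlinarith
    · refine (ae_restrict_mem measurableSet_Ioi).mono fun t ht => ?_
      exact Real.rpow_nonneg (ha.trans ht).le _
  rw [h1]
  calc ∫⁻ t in Set.Ici a, ∫⁻ y, A.indicator 1 y * heat t (y - x)
      ≤ ∫⁻ t in Set.Ici a, ENNReal.ofReal (t ^ (-(d : ℝ) / 2)) * volume A := by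
        refine setLIntegral_mono' measurableSet_Ici fun t ht => ?_
        have ht' : 0 < t := ha.trans_le ht
        calc ∫⁻ y, A.indicator 1 y * heat t (y - x)
            ≤ ∫⁻ y, ENNReal.ofReal (t ^ (-(d : ℝ) / 2)) * A.indicator 1 y := by
              refine lintegral_mono fun y => ?_
              rw [mul_comm]
              exact mul_le_mul_left (heat_le ht' _) _
          _ = _ := by
              rw [lintegral_const_mul _ (measurable_one.indicator hA), lintegral_indicator_one hA]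
    _ = (∫⁻ t in Set.Ici a, ENNReal.ofReal (t ^ (-(d : ℝ) / 2))) * volume A := by
        rw [lintegral_mul_const _ (by fun_prop)]
    _ ≤ _ := mul_le_mul_left h2 _

/-- total occupation of a set of volume at most `s ^ d` -/
theorem IsWiener.occ_total_le {W : Measure (Path d)} (hW : IsWiener W) (hd : 3 ≤ d) (x : E d)
    {s : ℝ} (hs : 0 < s) {A : Set (E d)} (hA : MeasurableSet A)
    (hvol : volume A ≤ ENNReal.ofReal (s ^ d)) :
    ∫⁻ w, occ x w (Set.Ici 0) A ∂W ≤ ENNReal.ofReal (3 * s ^ 2) := by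
  have := hW.isProbabilityMeasure
  have hs2 : 0 < s ^ 2 := by positivity
  have h1 : ∀ w, occ x w (Set.Ici 0) A ≤ ENNReal.ofReal (s ^ 2) + occ x w (Set.Ici (s ^ 2)) A := by
    intro w
    have hdis : Disjoint (Set.Ico 0 (s ^ 2)) (Set.Ici (s ^ 2)) :=
      Set.disjoint_left.2 fun t h1 h2 => absurd h1.2 (not_lt.2 h2)
    rw [← Set.Ico_union_Ici_eq_Ici hs2.le, occ_union x w hdis measurableSet_Ici,
      Measure.add_apply]
    refine add_le_add_left ?_ _
    refine (measure_mono (Set.subset_univ A)).trans_eq ?_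
    rw [occ_univ, Real.volume_Ico, sub_zero]
  have h2 := hW.occ_late_le hd x hs2 hA
  have e : 2 * (s ^ 2) ^ (1 - (d : ℝ) / 2) * s ^ d = 2 * s ^ 2 := by
    rw [mul_assoc, ← Real.rpow_natCast s 2, ← Real.rpow_natCast s d, ← Real.rpow_mul hs.le,
      ← Real.rpow_add hs]
    congr 2
    push_cast
    ring
  calc ∫⁻ w, occ x w (Set.Ici 0) A ∂W
      ≤ ∫⁻ w, (ENNReal.ofReal (s ^ 2) + occ x w (Set.Ici (s ^ 2)) A) ∂W := lintegral_mono h1
    _ = ENNReal.ofReal (s ^ 2) + ∫⁻ w, occ x w (Set.Ici (s ^ 2)) A ∂W := by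
        rw [lintegral_add_left measurable_const, lintegral_const, measure_univ, mul_one]
    _ ≤ ENNReal.ofReal (s ^ 2) +
          ENNReal.ofReal (2 * (s ^ 2) ^ (1 - (d : ℝ) / 2)) * ENNReal.ofReal (s ^ d) :=
        add_le_add_right (h2.trans (mul_le_mul_right hvol _)) _
    _ = ENNReal.ofReal (3 * s ^ 2) := by
        rw [← ENNReal.ofReal_mul (by positivity), e, ← ENNReal.ofReal_add hs2.le (by positivity)]
        congr 1
        ring

end Pool.Agent.Lib.MP_fe8b6f_pr
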