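import Pool.Agent.Lib.MP_fe8b6f_pr.BMa

/-! Heat kernel, occupation measures, Green function. Part 1. -/

open MeasureTheory ProbabilityTheory
open scoped NNReal ENNReal

noncomputable section

namespace Pool.Agent.Lib.MP_fe8b6f_pr

variable {d : ℕ}

theorem measurable_heat : Measurable fun q : ℝ × E d => heat q.1 q.2 := by
  unfold heat
  fun_prop

theorem bmb1_pi (v : ℝ≥0) (hv : v ≠ 0) :
    Measure.pi (fun _ : Fin d => gaussianReal 0 v) = (volume : Measure (Fin d → ℝ)).withDensity
      (fun z => ENNReal.ofReal (∏ i, gaussianPDFReal 0 v (z i))) := by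
  refine Measure.pi_eq (fun s hs => ?_)
  rw [withDensity_apply _ (MeasurableSet.univ_pi hs), volume_pi, Measure.restrict_pi_pi,
    ← ofReal_integral_eq_lintegral_ofReal
      (Integrable.fintype_prod (f := fun _ x => gaussianPDFReal 0 v x)
        (fun i => (integrable_gaussianPDFReal 0 v).restrict))
      (Filter.Eventually.of_forall fun z =>
        Finset.prod_nonneg fun i _ => gaussianPDFReal_nonneg 0 v _),
    integral_fintype_prod_eq_prod (fun _ x => gaussianPDFReal 0 v x),
    ENNReal.ofReal_prod_of_nonneg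
      (fun i _ => integral_nonneg fun x => gaussianPDFReal_nonneg 0 v x)]
  exact Finset.prod_congr rfl fun i _ => (gaussianReal_apply_eq_integral 0 hv _).symm

theorem bmb1_heat {t : ℝ} (ht : 0 < t) (y : E d) :
    heat t y = ENNReal.ofReal (∏ i, gaussianPDFReal 0 t.toNNReal (y i)) := by
  have h0 : 0 < 2 * Real.pi * t := by positivity
  unfold heat
  congr 1
  simp only [gaussianPDFReal, Real.coe_toNNReal t ht.le, sub_zero]
  rw [Finset.prod_mul_distrib, Finset.prod_const, Finset.card_univ, Fintype.card_fin,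
    ← Real.exp_sum, EuclideanSpace.real_norm_sq_eq, ← Finset.sum_div, Finset.sum_neg_distrib,
    Real.sqrt_eq_rpow, ← Real.rpow_neg h0.le, ← Real.rpow_natCast, ← Real.rpow_mul h0.le]
  congr 2
  ring

theorem bmb1_lintegral {t : ℝ} (ht : 0 < t) {g : E d → ℝ≥0∞} (hg : Measurable g) :
    ∫⁻ z, g (WithLp.toLp 2 z) ∂(Measure.pi fun _ : Fin d => gaussianReal 0 t.toNNReal) =
      ∫⁻ y, g y * heat t y := by
  have hm : Measurable (WithLp.toLp 2 : (Fin d → ℝ) → E d) :=
    (PiLp.volume_preserving_toLp (Fin d)).measurable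
  have hd : Measurable fun z : Fin d → ℝ =>
      ENNReal.ofReal (∏ i, gaussianPDFReal 0 t.toNNReal (z i)) :=
    (Finset.measurable_prod _ fun i _ =>
      (measurable_gaussianPDFReal 0 _).comp (measurable_pi_apply i)).ennreal_ofReal
  have hh : Measurable fun y : E d => heat t y :=
    measurable_heat.comp (measurable_const.prodMk measurable_id)
  have hgm : Measurable fun z : Fin d → ℝ => g (WithLp.toLp 2 z) := hg.comp hm
  have hgh : Measurable fun y : E d => g y * heat t y := hg.mul hh
  rw [bmb1_pi _ (by simpa using ht), lintegral_withDensity_eq_lintegral_mul _ hd hgm,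
    ← (PiLp.volume_preserving_toLp (Fin d)).lintegral_comp hgh]
  refine lintegral_congr fun z => ?_
  rw [Pi.mul_apply, mul_comm, bmb1_heat ht]

theorem lintegral_heat {t : ℝ} (ht : 0 < t) : ∫⁻ y : E d, heat t y = 1 := by
  have h := bmb1_lintegral (d := d) ht (g := fun _ => 1) measurable_const
  simpa using h.symm

theorem heat_le {t : ℝ} (ht : 0 < t) (x : E d) :
    heat t x ≤ ENNReal.ofReal (t ^ (-(d : ℝ) / 2)) := by
  refine ENNReal.ofReal_le_ofReal ?_
  have h1 : Real.exp (-‖x‖ ^ 2 / (2 * t)) ≤ 1 := by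
    rw [Real.exp_le_one_iff]
    exact div_nonpos_of_nonpos_of_nonneg (neg_nonpos.2 (sq_nonneg _)) (by positivity)
  have h2 : (2 * Real.pi * t) ^ (-(d : ℝ) / 2) ≤ t ^ (-(d : ℝ) / 2) := by
    refine Real.rpow_le_rpow_of_nonpos ht ?_ ?_
    · nlinarith [Real.pi_gt_three]
    · exact div_nonpos_of_nonpos_of_nonneg (neg_nonpos.2 (Nat.cast_nonneg d)) zero_le_two
  exact (mul_le_of_le_one_right (by positivity) h1).trans h2

/-- law of the position at time `t` -/
theorem IsWiener.lintegral_eval {W : Measure (Path d)} (hW : IsWiener W) {t : ℝ} (ht : 0 < t)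
    (x : E d) {f : E d → ℝ≥0∞} (hf : Measurable f) :
    ∫⁻ w, f (x + w t.toNNReal) ∂W = ∫⁻ y, f y * heat t (y - x) := by
  have hm : Measurable (WithLp.toLp 2 : (Fin d → ℝ) → E d) :=
    (PiLp.volume_preserving_toLp (Fin d)).measurable
  have hg : Measurable fun y : E d => f (x + y) := hf.comp (measurable_const_add x)
  have hI := hW.indep.comp (fun _ (u : ℝ≥0 → ℝ) => u t.toNNReal)
    (fun _ => measurable_pi_apply _)
  have hL := hI.hasLaw_pi (μ := fun _ => gaussianReal 0 t.toNNReal)
    (fun i => (hW.brownian i).toIsPreBrownianReal.hasLaw_eval t.toNNReal)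
  have h1 := hL.lintegral_comp (hg.comp hm).aemeasurable
  refine Eq.trans ?_ (h1.trans ((bmb1_lintegral ht hg).trans ?_))
  · rfl
  · rw [← lintegral_add_left_eq_self (fun y => f y * heat t (y - x)) x]
    simp only [add_sub_cancel_left]

end Pool.Agent.Lib.MP_fe8b6f_pr
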