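import Pool.Agent.Lib.MP_fe8b6f_pr.BMb1

/-! Heat kernel, occupation measures, Green function. Part 2. -/

open MeasureTheory ProbabilityTheory
open scoped NNReal ENNReal

noncomputable section

namespace Pool.Agent.Lib.MP_fe8b6f_pr

variable {d : ℕ}

theorem bmb2_meas (x : E d) (w : Path d) : Measurable fun t : ℝ => x + w t.toNNReal :=
  (continuous_const.add (w.continuous.comp continuous_real_toNNReal)).measurable

theorem measurable_occ {I : Set ℝ} :
    Measurable fun q : E d × Path d => occ q.1 q.2 I := by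
  rw [Measure.measurable_measure]
  intro s hs
  have hm : Measurable fun p : (E d × Path d) × ℝ => p.1.1 + p.1.2 p.2.toNNReal :=
    (measurable_fst.comp measurable_fst).add (measurable_path_eval.comp
      ((measurable_snd.comp measurable_fst).prodMk (measurable_real_toNNReal.comp measurable_snd)))
  have h := measurable_measure_prodMk_left (ν := volume.restrict I) (hm hs)
  have e : (fun q : E d × Path d => occ q.1 q.2 I s) = fun q => (volume.restrict I)
      (Prod.mk q ⁻¹' ((fun p : (E d × Path d) × ℝ => p.1.1 + p.1.2 p.2.toNNReal) ⁻¹' s)) := by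
    funext q
    rw [occ, Measure.map_apply (bmb2_meas q.1 q.2) hs]
    rfl
  rw [e]
  exact h

theorem lintegral_occ (x : E d) (w : Path d) (I : Set ℝ) {f : E d → ℝ≥0∞} (hf : Measurable f) :
    ∫⁻ y, f y ∂(occ x w I) = ∫⁻ t in I, f (x + w t.toNNReal) := by
  rw [occ, lintegral_map hf (bmb2_meas x w)]

theorem occ_univ (x : E d) (w : Path d) (I : Set ℝ) : occ x w I Set.univ = volume I := by
  rw [occ, Measure.map_apply (bmb2_meas x w) MeasurableSet.univ, Set.preimage_univ,
    Measure.restrict_apply_univ]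

theorem occ_mono (x : E d) (w : Path d) {I I' : Set ℝ} (h : I ⊆ I') : occ x w I ≤ occ x w I' := by
  exact Measure.map_mono (Measure.restrict_mono_set _ h) (bmb2_meas x w)

theorem occ_union (x : E d) (w : Path d) {I I' : Set ℝ} (h : Disjoint I I')
    (hI' : MeasurableSet I') : occ x w (I ∪ I') = occ x w I + occ x w I' := by
  rw [occ, occ, occ, Measure.restrict_union h hI', Measure.map_add _ _ (bmb2_meas x w)]

theorem occ_Icc (x : E d) (w : Path d) (a b : ℝ) :
    occ x w (Set.Icc a b) = occ x w (Set.Ico a b) := by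
  rw [occ, occ, Measure.restrict_congr_set Ico_ae_eq_Icc]

theorem occ_Ico_sum (x : E d) (w : Path d) {τ : ℝ} (hτ : 0 ≤ τ) (N : ℕ) :
    occ x w (Set.Ico 0 (N * τ)) =
      ∑ j ∈ Finset.range N, occ x w (Set.Ico (j * τ) ((j + 1) * τ)) := by
  induction N with
  | zero => simp [occ]
  | succ N ih =>
    have h1 : (0 : ℝ) ≤ N * τ := by positivity
    have h2 : (N : ℝ) * τ ≤ (N + 1) * τ := by nlinarith
    rw [Finset.sum_range_succ, ← ih, ← occ_union x w (Set.Ico_disjoint_Ico_same) measurableSet_Ico,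
      Set.Ico_union_Ico_eq_Ico h1 h2]
    push_cast
    rfl

theorem occ_shift (x : E d) (w : Path d) (t : ℝ≥0) {I : Set ℝ} (hI : MeasurableSet I)
    (h0 : I ⊆ Set.Ici 0) :
    occ x w ((fun s => s - (t : ℝ)) ⁻¹' I) = occ (x + w t) (shift t w) I := by
  have hm : Measurable fun s : ℝ => s - (t : ℝ) := measurable_id.sub_const _
  have h1 : (volume.restrict ((fun s => s - (t : ℝ)) ⁻¹' I)).map (fun s => s - (t : ℝ))
      = volume.restrict I := by
    rw [← Measure.restrict_map hm hI, map_sub_right_eq_self]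
  rw [occ, occ, ← h1, Measure.map_map (bmb2_meas _ _) hm]
  refine Measure.map_congr ?_
  filter_upwards [ae_restrict_mem (hm hI)] with s hs
  have h2 : (0 : ℝ) ≤ s - t := h0 hs
  have h3 : t + (s - (t : ℝ)).toNNReal = s.toNNReal := by
    apply NNReal.eq
    have h4 : (0 : ℝ) ≤ s := by linarith [t.coe_nonneg]
    rw [NNReal.coe_add, Real.coe_toNNReal _ h2, Real.coe_toNNReal _ h4]
    ring
  change x + w s.toNNReal = x + w t + (w (t + (s - (t : ℝ)).toNNReal) - w t)
  rw [h3]
  abel

theorem occ_stop (x : E d) (w : Path d) (t : ℝ≥0) {I : Set ℝ} (hI : MeasurableSet I)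
    (h : I ⊆ Set.Iic (t : ℝ)) : occ x (stop t w) I = occ x w I := by
  rw [occ, occ]
  refine Measure.map_congr ?_
  filter_upwards [ae_restrict_mem hI] with s hs
  have h2 : s.toNNReal ≤ t := Real.toNNReal_le_iff_le_coe.2 (h hs)
  change x + w (min s.toNNReal t) = x + w s.toNNReal
  rw [min_eq_left h2]

theorem sh_occ (a x : E d) (w : Path d) (I : Set ℝ) : sh a (occ x w I) = occ (x - a) w I := by
  have hm : Measurable fun y : E d => y - a := measurable_id.sub_const _
  rw [sh, occ, occ, Measure.map_map hm (bmb2_meas x w)]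
  congr 1
  funext s
  change x + w s.toNNReal - a = x - a + w s.toNNReal
  abel

theorem occ_map_affine {T : E d → E d} (hT : Measurable T) (O : E d ≃ₗᵢ[ℝ] E d)
    (h : ∀ x y, T (x + y) = T x + O y) (x : E d) (w : Path d) (I : Set ℝ) :
    (occ x w I).map T = occ (T x) (rot O w) I := by
  rw [occ, occ, Measure.map_map hT (bmb2_meas x w)]
  congr 1
  funext s
  exact h x (w s.toNNReal)

theorem occ_scal {c : ℝ≥0} (hc : c ≠ 0) (x : E d) (w : Path d) {I : Set ℝ}
    (hI : MeasurableSet I) :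
    occ ((c : ℝ) • x) (scal c w) ((fun s => s / (c : ℝ) ^ 2) ⁻¹' I) =
      ((c : ℝ≥0∞) ^ 2) • (occ x w I).map fun y => (c : ℝ) • y := by
  have hc' : (0 : ℝ) < c := NNReal.coe_pos.2 (pos_iff_ne_zero.2 hc)
  have hc2 : (0 : ℝ) < (c : ℝ) ^ 2 := by positivity
  have hm : Measurable fun s : ℝ => s / (c : ℝ) ^ 2 := measurable_id.div_const _
  have hm2 : Measurable fun y : E d => (c : ℝ) • y := measurable_const_smul _
  have h0 : (volume : Measure ℝ).map (fun s => s / (c : ℝ) ^ 2) = ((c : ℝ≥0∞) ^ 2) • volume := by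
    have := Real.map_volume_mul_right (a := ((c : ℝ) ^ 2)⁻¹) (inv_ne_zero hc2.ne')
    rw [inv_inv, abs_of_pos hc2, ENNReal.ofReal_pow hc'.le, ENNReal.ofReal_coe_nnreal] at this
    rw [← this]
    simp only [div_eq_mul_inv]
  have h1 : (volume.restrict ((fun s => s / (c : ℝ) ^ 2) ⁻¹' I)).map (fun s => s / (c : ℝ) ^ 2)
      = ((c : ℝ≥0∞) ^ 2) • volume.restrict I := by
    rw [← Measure.restrict_map hm hI, h0, Measure.restrict_smul]
  rw [occ, occ, ← Measure.map_smul, ← Measure.map_smul, ← h1, Measure.map_map (bmb2_meas _ _) hm,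
    Measure.map_map hm2 ((bmb2_meas _ _).comp hm)]
  congr 1
  funext s
  have h3 : s.toNNReal / c ^ 2 = (s / (c : ℝ) ^ 2).toNNReal := by
    rw [Real.toNNReal_div' hc2.le, ← NNReal.coe_pow, Real.toNNReal_coe]
  change (c : ℝ) • x + (c : ℝ) • w (s.toNNReal / c ^ 2)
    = (c : ℝ) • (x + w (s / (c : ℝ) ^ 2).toNNReal)
  rw [h3, smul_add]

theorem mem_hitS_of_occ_ne_zero {x : E d} {w : Path d} {I : Set ℝ} (hI : MeasurableSet I)
    {A : Set (E d)} (hA : MeasurableSet A) (h : occ x w I A ≠ 0) : (x, w) ∈ hitS A I := by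
  rw [occ, Measure.map_apply (bmb2_meas x w) hA, Measure.restrict_apply' hI] at h
  obtain ⟨t, ht1, ht2⟩ := nonempty_of_measure_ne_zero h
  exact ⟨t, ht2, ht1⟩

end Pool.Agent.Lib.MP_fe8b6f_pr
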