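import Pool.Agent.Lib.MP_fe8b6f_pr.BMb2

/-! Heat kernel, occupation measures, Green function. Part 3. -/

open MeasureTheory ProbabilityTheory
open scoped NNReal ENNReal

noncomputable section

namespace Pool.Agent.Lib.MP_fe8b6f_pr

variable {d : ℕ}

theorem bmb3_measurable_shift (t : ℝ≥0) : Measurable (shift t : Path d → Path d) :=
  (continuous_shift.comp (Continuous.prodMk_right t)).measurable

theorem bmb3_measurable_eval :
    Measurable fun q : Path d × ℝ => q.1 q.2.toNNReal :=
  measurable_path_eval.comp (measurable_fst.prodMk (measurable_real_toNNReal.comp measurable_snd))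

/-- Lebesgue measure is stationary -/
theorem IsWiener.map_volume_shift {W : Measure (Path d)} (hW : IsWiener W) (t : ℝ≥0) :
    ((volume : Measure (E d)).prod W).map (fun q => (q.1 + q.2 t, shift t q.2)) =
      (volume : Measure (E d)).prod W := by
  have := hW.isProbabilityMeasure
  have hT : Measurable fun q : E d × Path d => (q.1 + q.2 t, shift t q.2) :=
    (measurable_fst.add ((measurable_ev t).comp measurable_snd)).prodMk
      ((bmb3_measurable_shift t).comp measurable_snd)
  refine Measure.ext_of_lintegral _ fun g hg => ?_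
  have hgT : Measurable fun q : E d × Path d => g (q.1 + q.2 t, shift t q.2) := hg.comp hT
  rw [lintegral_map hg hT, lintegral_prod_symm _ hgT.aemeasurable,
    lintegral_prod_symm _ hg.aemeasurable]
  have h1 : ∀ w : Path d, ∫⁻ x : E d, g (x + w t, shift t w) = ∫⁻ x : E d, g (x, shift t w) :=
    fun w => lintegral_add_right_eq_self (fun x : E d => g (x, shift t w)) (w t)
  simp only [h1]
  have h2 : Measurable fun w : Path d => ∫⁻ x : E d, g (x, w) :=
    hg.lintegral_prod_left'
  conv_rhs => rw [← hW.map_shift t]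
  rw [lintegral_map h2 (bmb3_measurable_shift t)]

theorem IsWiener.lintegral_volume_occ {W : Measure (Path d)} (hW : IsWiener W) (I : Set ℝ)
    {f : E d → ℝ≥0∞} (hf : Measurable f) :
    ∫⁻ q, (∫⁻ y, f y ∂(occ q.1 q.2 I)) ∂((volume : Measure (E d)).prod W) =
      volume I * ∫⁻ y, f y := by
  have := hW.isProbabilityMeasure
  simp only [lintegral_occ _ _ I hf]
  have hm : Measurable fun p : (E d × Path d) × ℝ => f (p.1.1 + p.1.2 p.2.toNNReal) :=
    hf.comp ((measurable_fst.comp measurable_fst).add
      (bmb3_measurable_eval.comp ((measurable_snd.comp measurable_fst).prodMk measurable_snd)))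
  rw [lintegral_lintegral_swap (f := fun (q : E d × Path d) (t : ℝ) => f (q.1 + q.2 t.toNNReal))
    hm.aemeasurable]
  have h1 : ∀ t : ℝ, ∫⁻ q : E d × Path d, f (q.1 + q.2 t.toNNReal)
      ∂((volume : Measure (E d)).prod W) = ∫⁻ y, f y := by
    intro t
    have hm' : Measurable fun q : E d × Path d => f (q.1 + q.2 t.toNNReal) :=
      hf.comp (measurable_fst.add ((measurable_ev _).comp measurable_snd))
    rw [lintegral_prod_symm _ hm'.aemeasurable]
    have h2 : ∀ w : Path d, ∫⁻ x : E d, f (x + w t.toNNReal) = ∫⁻ y, f y :=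
      fun w => lintegral_add_right_eq_self f _
    simp only [h2]
    rw [lintegral_const, measure_univ, mul_one]
  simp only [h1]
  rw [lintegral_const, Measure.restrict_apply_univ, mul_comm]

theorem IsWiener.lintegral_occ_eq {W : Measure (Path d)} (hW : IsWiener W) (x : E d) {I : Set ℝ}
    (hI : MeasurableSet I) (h0 : I ⊆ Set.Ici 0) {f : E d → ℝ≥0∞} (hf : Measurable f) :
    ∫⁻ w, (∫⁻ y, f y ∂(occ x w I)) ∂W = ∫⁻ t in I, ∫⁻ y, f y * heat t (y - x) := by
  have := hW.isProbabilityMeasure
  simp only [lintegral_occ _ _ I hf]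
  have hm : Measurable fun p : Path d × ℝ => f (x + p.1 p.2.toNNReal) :=
    hf.comp (measurable_const.add bmb3_measurable_eval)
  rw [lintegral_lintegral_swap (f := fun (w : Path d) (t : ℝ) => f (x + w t.toNNReal))
    hm.aemeasurable]
  refine lintegral_congr_ae ?_
  have hne : ∀ᵐ t ∂(volume.restrict I : Measure ℝ), t ≠ 0 :=
    ae_restrict_of_ae (by simp [ae_iff])
  filter_upwards [ae_restrict_mem hI, hne] with t ht ht0
  exact hW.lintegral_eval (lt_of_le_of_ne (h0 ht) (Ne.symm ht0)) x hf

theorem IsWiener.lintegral_occ_green {W : Measure (Path d)} (hW : IsWiener W) (x : E d)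
    {f : E d → ℝ≥0∞} (hf : Measurable f) :
    ∫⁻ w, (∫⁻ y, f y ∂(occ x w (Set.Ici 0))) ∂W = ∫⁻ y, f y * green (y - x) := by
  rw [hW.lintegral_occ_eq x measurableSet_Ici subset_rfl hf,
    ← Measure.restrict_congr_set Ioi_ae_eq_Ici]
  have hh : Measurable fun p : ℝ × E d => heat p.1 (p.2 - x) :=
    measurable_heat.comp (measurable_fst.prodMk (measurable_snd.sub measurable_const))
  have hm : Measurable fun p : ℝ × E d => f p.2 * heat p.1 (p.2 - x) :=
    (hf.comp measurable_snd).mul hh
  rw [lintegral_lintegral_swap (f := fun (t : ℝ) (y : E d) => f y * heat t (y - x))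
    hm.aemeasurable]
  refine lintegral_congr fun y => ?_
  unfold green
  rw [lintegral_const_mul]
  exact measurable_heat.comp (measurable_id.prodMk measurable_const)

end Pool.Agent.Lib.MP_fe8b6f_pr
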