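import Pool.Agent.Lib.MP_fe8b6f_pr.BregA

/-! Mean displacements and the choice of good scales. Part 2. -/

open MeasureTheory ProbabilityTheory
open scoped NNReal ENNReal

noncomputable section

namespace Pool.Agent.Lib.MP_fe8b6f_pr

variable {d : ℕ}

/-- first moment of the pairs with displacement in `T` ending in the cube, per unit volume -/
def breg_mom (T : Set (E d)) (s : ℝ) (γ : Measure (E d × E d)) : ℝ≥0∞ :=
  (ENNReal.ofReal (s ^ d))⁻¹ *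
    ∫⁻ q in {q : E d × E d | q.1 - q.2 ∈ T ∧ q.2 ∈ cube 0 s}, ‖q.1 - q.2‖ₑ ∂γ

theorem breg_measurableSet {T : Set (E d)} (hT : MeasurableSet T) (a : E d) (s : ℝ) :
    MeasurableSet {q : E d × E d | q.1 - q.2 ∈ T ∧ q.2 ∈ cube a s} :=
  ((measurable_fst.sub measurable_snd) hT).inter (measurable_snd (measurableSet_cube a s))

theorem breg_measurableSet_shell (K K' : ℝ) :
    MeasurableSet {v : E d | K < ‖v‖ ∧ ‖v‖ ≤ K'} :=
  (measurableSet_lt measurable_const measurable_norm).inter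
    (measurableSet_le measurable_norm measurable_const)

theorem breg_avz_mom {Λ : ℝ} (hΛ : 0 < Λ) {μ : Measure (E d)} {γ : Measure (E d × E d)}
    (hγ : PPlan Λ μ γ) {T : Set (E d)} (hT : MeasurableSet T) {s : ℝ} (hs : 0 < s) :
    avz Λ (fun z => breg_mom T s (shP z γ)) = ∫⁻ v in T, ‖v‖ₑ ∂(rho Λ γ) := by
  have hS := breg_measurableSet hT (0 : E d) s
  have h0 : ENNReal.ofReal (s ^ d) ≠ 0 := (ENNReal.ofReal_pos.2 (pow_pos hs d)).ne'
  unfold breg_mom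
  rw [avz_const_mul Λ (ENNReal.inv_ne_top.2 h0)]
  simp only [← lintegral_indicator hS]
  have hmeas : Measurable fun q : E d × E d => ‖q.1 - q.2‖ₑ :=
    (measurable_fst.sub measurable_snd).enorm
  rw [hγ.avz_lintegral hΛ (hmeas.indicator hS),
    ← lintegral_indicator hT, ← lintegral_const_mul' _ _ (ENNReal.inv_ne_top.2 h0)]
  refine lintegral_congr fun v => ?_
  have h1 : ∀ u : E d, ({q : E d × E d | q.1 - q.2 ∈ T ∧ q.2 ∈ cube 0 s}.indicator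
      (fun q => ‖q.1 - q.2‖ₑ) (u, u - v)) =
      (cube v s).indicator (fun _ => T.indicator (fun v => ‖v‖ₑ) v) u := by
    intro u
    have h2 : u - v ∈ cube 0 s ↔ u ∈ cube v s := by
      have h3 := preimage_sub_cube v 0 s
      rw [add_zero] at h3
      rw [← h3]
      rfl
    by_cases hu : u ∈ cube v s <;> by_cases hv : v ∈ T <;>
      simp [Set.indicator, hu, hv, h2]
  simp only [h1]
  rw [lintegral_indicator_const (measurableSet_cube v s), volume_cube v hs.le, mul_comm,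
    mul_assoc, ENNReal.mul_inv_cancel h0 ENNReal.ofReal_ne_top, mul_one]

theorem breg_enorm_smul {s : ℝ} (hs : 0 < s) (w : E d) :
    ‖(s ^ d)⁻¹ • w‖ₑ = (ENNReal.ofReal (s ^ d))⁻¹ * ‖w‖ₑ := by
  rw [enorm_smul, ← ENNReal.ofReal_inv_of_pos (pow_pos hs d),
    Real.enorm_of_nonneg (inv_nonneg.2 (pow_pos hs d).le)]

theorem breg_enorm_Dv (K : ℝ) {s : ℝ} (hs : 0 < s) (γ : Measure (E d × E d)) :
    ‖Dv K s 0 γ‖ₑ ≤ breg_mom {v | ‖v‖ ≤ K} s γ := by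
  unfold Dv breg_mom
  rw [breg_enorm_smul hs]
  exact mul_le_mul_right (enorm_integral_le_lintegral_enorm _) _

theorem breg_enorm_Dv_sub {K K' : ℝ} (hK : K ≤ K') {s : ℝ} (hs : 0 < s)
    {γ : Measure (E d × E d)} (h2 : γ.map Prod.snd = volume) :
    ‖Dv K' s 0 γ - Dv K s 0 γ‖ₑ ≤ breg_mom {v | K < ‖v‖ ∧ ‖v‖ ≤ K'} s γ := by
  have hm : ∀ K : ℝ, MeasurableSet {q : E d × E d | ‖q.1 - q.2‖ ≤ K ∧ q.2 ∈ cube 0 s} :=
    fun K => breg_measurableSet (T := {v | ‖v‖ ≤ K})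
      (measurableSet_le measurable_norm measurable_const) 0 s
  have hfin : γ {q : E d × E d | ‖q.1 - q.2‖ ≤ K' ∧ q.2 ∈ cube 0 s} ≠ ⊤ := by
    refine ne_top_of_le_ne_top (b := γ (Prod.snd ⁻¹' cube 0 s)) ?_ (measure_mono fun q hq => hq.2)
    rw [← Measure.map_apply measurable_snd (measurableSet_cube 0 s), h2, volume_cube 0 hs.le]
    exact ENNReal.ofReal_ne_top
  have hint : IntegrableOn (fun q : E d × E d => q.1 - q.2)
      {q : E d × E d | ‖q.1 - q.2‖ ≤ K' ∧ q.2 ∈ cube 0 s} γ :=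
    Measure.integrableOn_of_bounded (M := K') hfin
      (measurable_fst.sub measurable_snd).aestronglyMeasurable
      ((ae_restrict_iff' (hm K')).2 (Filter.Eventually.of_forall fun q hq => hq.1))
  have hsub : {q : E d × E d | ‖q.1 - q.2‖ ≤ K ∧ q.2 ∈ cube 0 s} ⊆
      {q : E d × E d | ‖q.1 - q.2‖ ≤ K' ∧ q.2 ∈ cube 0 s} := fun q hq => ⟨hq.1.trans hK, hq.2⟩
  have hset : {q : E d × E d | ‖q.1 - q.2‖ ≤ K' ∧ q.2 ∈ cube 0 s} \
      {q : E d × E d | ‖q.1 - q.2‖ ≤ K ∧ q.2 ∈ cube 0 s} =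
      {q : E d × E d | q.1 - q.2 ∈ {v : E d | K < ‖v‖ ∧ ‖v‖ ≤ K'} ∧ q.2 ∈ cube 0 s} := by
    ext q
    constructor
    · rintro ⟨⟨h3, h4⟩, h5⟩
      exact ⟨⟨not_le.1 fun h6 => h5 ⟨h6, h4⟩, h3⟩, h4⟩
    · rintro ⟨⟨h3, h4⟩, h5⟩
      exact ⟨⟨h4, h5⟩, fun h6 => not_le.2 h3 h6.1⟩
  unfold Dv breg_mom
  rw [← smul_sub, breg_enorm_smul hs, ← setIntegral_sdiff (hm K) hint hsub, hset]
  exact mul_le_mul_right (enorm_integral_le_lintegral_enorm _) _

theorem breg_first_moment {p Λ : ℝ} (hp : 1 ≤ p) (hΛ : 0 < Λ) {μ : Measure (E d)}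
    {γ : Measure (E d × E d)} (hγ : PPlan Λ μ γ) (T : Set (E d)) :
    ∫⁻ v in T, ‖v‖ₑ ∂(rho Λ γ) ≤ 1 + CQ p Λ γ / ENNReal.ofReal (Λ ^ d) := by
  have := hγ.isProbabilityMeasure_rho hΛ
  calc ∫⁻ v in T, ‖v‖ₑ ∂(rho Λ γ) ≤ ∫⁻ v, ‖v‖ₑ ∂(rho Λ γ) := setLIntegral_le_lintegral _ _
    _ ≤ ∫⁻ v, (1 + ‖v‖ₑ ^ p) ∂(rho Λ γ) := by
      refine lintegral_mono fun v => ?_
      rcases le_total ‖v‖ₑ 1 with h | h
      · exact h.trans le_self_add
      · exact (ENNReal.le_rpow_self_of_one_le h hp).trans le_add_self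
    _ = _ := by
      rw [lintegral_add_left measurable_const, lintegral_const, measure_univ, mul_one,
        lintegral_rho_cost p hΛ]

theorem breg_Phi_zero : Phi (0 : E d) = 1 := by
  simp [Phi]

theorem breg_one_le_Phi (v : E d) : 1 ≤ Phi v :=
  Real.one_le_sqrt.2 (le_add_of_nonneg_right (sq_nonneg _))

theorem breg_Phi_le (a b : E d) :
    ENNReal.ofReal (Phi a) ≤ ENNReal.ofReal (Phi b) + ‖a - b‖ₑ := by
  rw [← ofReal_norm,
    ← ENNReal.ofReal_add (zero_le_one.trans (breg_one_le_Phi b)) (norm_nonneg _)]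
  refine ENNReal.ofReal_le_ofReal ?_
  have h := (abs_le.1 (abs_Phi_sub a b)).2
  linarith

theorem breg_measurable_Phi : Measurable (Phi : E d → ℝ) :=
  (Real.continuous_sqrt.comp (continuous_const.add (continuous_norm.pow 2))).measurable

/-- mean of `Phi` of the truncated displacement at scale `s` -/
def breg_Psi (Λ K s : ℝ) (γ : Measure (E d × E d)) : ℝ≥0∞ :=
  avz Λ fun z => ENNReal.ofReal (Phi (Dv K s 0 (shP z γ)))

theorem breg_measurable (K s : ℝ) (a : E d) {γ : Measure (E d × E d)}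
    (h2 : γ.map Prod.snd = volume) :
    Measurable fun z => ENNReal.ofReal (Phi (Dv K s a (shP z γ))) := by
  simp only [Dv_shP]
  exact (breg_measurable_Phi.comp
    ((measurable_Dv K s h2).comp (measurable_const.add measurable_id))).ennreal_ofReal

theorem breg_Psi_shift {Λ : ℝ} (hΛ : 0 < Λ) {μ : Measure (E d)} {γ : Measure (E d × E d)}
    (hγ : PPlan Λ μ γ) (K s : ℝ) (a : E d) :
    avz Λ (fun z => ENNReal.ofReal (Phi (Dv K s a (shP z γ)))) = breg_Psi Λ K s γ := by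
  have h1 := avz_shift hΛ (breg_measurable K s 0 hγ.snd)
    (fun x k => by
      have h3 : shP (x + Λ • lat k) γ = shP x γ := hγ.isPer_shP x k
      change ENNReal.ofReal (Phi (Dv K s 0 (shP (x + Λ • lat k) γ))) = _
      rw [h3]) a
  refine Eq.trans ?_ h1
  simp only [Dv_shP, zero_add, add_comm a]

theorem breg_gap {Λ : ℝ} (hΛ : 0 < Λ) {μ : Measure (E d)} {γ : Measure (E d × E d)}
    (hγ : PPlan Λ μ γ) (K : ℝ) {L : ℝ} (hL : 0 < L) {m : ℕ} (hm : 0 < m) :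
    avz Λ (fun z => ENNReal.ofReal (FBr K L m (shP z γ))) + breg_Psi Λ K L γ =
      breg_Psi Λ K (L / m) γ := by
  have hm' : (0 : ℝ) < (m : ℝ) ^ d := pow_pos (Nat.cast_pos.2 hm) d
  have h0 : ((m : ℝ≥0∞) ^ d) ≠ 0 := pow_ne_zero d (Nat.cast_ne_zero.2 hm.ne')
  have h1 : ∀ z, ENNReal.ofReal (FBr K L m (shP z γ)) +
      ENNReal.ofReal (Phi (Dv K L 0 (shP z γ))) = ((m : ℝ≥0∞) ^ d)⁻¹ *
        ∑ j : Fin d → Fin m, ENNReal.ofReal (Phi (Dv K (L / m) (gcorner 0 L m j) (shP z γ))) := by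
    intro z
    rw [← ENNReal.ofReal_add (FBr_nonneg hL (shP_snd z hγ.snd) hm)
      (zero_le_one.trans (breg_one_le_Phi _)), FBr, sub_add_cancel, ENNReal.ofReal_div_of_pos hm',
      ENNReal.ofReal_sum_of_nonneg fun j _ => zero_le_one.trans (breg_one_le_Phi _),
      ENNReal.ofReal_pow (Nat.cast_nonneg m), ENNReal.ofReal_natCast, div_eq_mul_inv, mul_comm]
  unfold breg_Psi
  rw [← avz_add Λ (measurable_FBr_shP K L m hγ.snd).ennreal_ofReal]
  simp only [h1]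
  rw [avz_const_mul Λ (ENNReal.inv_ne_top.2 h0),
    avz_sum Λ _ fun j => breg_measurable K (L / m) _ hγ.snd]
  simp only [breg_Psi_shift hΛ hγ]
  rw [Finset.sum_const, Finset.card_univ, Fintype.card_fun, Fintype.card_fin, Fintype.card_fin,
    nsmul_eq_mul, Nat.cast_pow, ← mul_assoc,
    ENNReal.inv_mul_cancel h0 (ENNReal.pow_ne_top (ENNReal.natCast_ne_top m)), one_mul]

theorem breg_Psi_trunc {Λ : ℝ} (hΛ : 0 < Λ) {μ : Measure (E d)} {γ : Measure (E d × E d)}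
    (hγ : PPlan Λ μ γ) {K K' : ℝ} (hK : K ≤ K') {s : ℝ} (hs : 0 < s) :
    breg_Psi Λ K' s γ ≤
      breg_Psi Λ K s γ + ∫⁻ v in {v | K < ‖v‖ ∧ ‖v‖ ≤ K'}, ‖v‖ₑ ∂(rho Λ γ) := by
  rw [← breg_avz_mom hΛ hγ (breg_measurableSet_shell K K') hs]
  unfold breg_Psi
  rw [← avz_add Λ (breg_measurable K s 0 hγ.snd)]
  exact avz_mono Λ fun z => (breg_Phi_le _ _).trans
    (add_le_add_right (breg_enorm_Dv_sub hK hs (shP_snd z hγ.snd)) _)

theorem breg_Psi_le {Λ : ℝ} (hΛ : 0 < Λ) {μ : Measure (E d)} {γ : Measure (E d × E d)}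
    (hγ : PPlan Λ μ γ) (K : ℝ) {s : ℝ} (hs : 0 < s) :
    breg_Psi Λ K s γ ≤ 1 + ∫⁻ v in {v | ‖v‖ ≤ K}, ‖v‖ₑ ∂(rho Λ γ) := by
  rw [← breg_avz_mom hΛ hγ (measurableSet_le measurable_norm measurable_const) hs,
    ← avz_const (d := d) hΛ 1, ← avz_add Λ measurable_const]
  refine avz_mono Λ fun z => (breg_Phi_le _ 0).trans ?_
  rw [breg_Phi_zero, ENNReal.ofReal_one, sub_zero]
  exact add_le_add_right (breg_enorm_Dv K hs _) _

theorem breg_one_le_Psi {Λ : ℝ} (hΛ : 0 < Λ) (K s : ℝ) (γ : Measure (E d × E d)) :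
    1 ≤ breg_Psi Λ K s γ := by
  rw [← avz_const (d := d) hΛ 1]
  exact avz_mono Λ fun z => ENNReal.one_le_ofReal.2 (breg_one_le_Phi _)

theorem breg_split (ρ : Measure (E d)) {K K' : ℝ} (hK : K ≤ K') :
    ∫⁻ v in {v | ‖v‖ ≤ K}, ‖v‖ₑ ∂ρ + ∫⁻ v in {v | K < ‖v‖ ∧ ‖v‖ ≤ K'}, ‖v‖ₑ ∂ρ =
      ∫⁻ v in {v | ‖v‖ ≤ K'}, ‖v‖ₑ ∂ρ := by
  have hd : Disjoint {v : E d | ‖v‖ ≤ K} {v : E d | K < ‖v‖ ∧ ‖v‖ ≤ K'} :=
    Set.disjoint_left.2 fun v h1 h2 => not_le.2 h2.1 h1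
  rw [← lintegral_union (breg_measurableSet_shell K K') hd]
  congr 2
  ext v
  constructor
  · rintro (h | h)
    · exact le_trans h hK
    · exact h.2
  · intro h
    rcases le_or_gt ‖v‖ K with h1 | h1
    · exact Or.inl h1
    · exact Or.inr ⟨h1, h⟩

theorem PPlan.avz_norm_Dv {p Λ : ℝ} (hp : 1 ≤ p) (hΛ : 0 < Λ) {μ : Measure (E d)}
    {γ : Measure (E d × E d)} (hγ : PPlan Λ μ γ) (K : ℝ) {L : ℝ} (hL : 0 < L) :
    avz Λ (fun z => ‖Dv K L 0 (shP z γ)‖ₑ) ≤ 1 + CQ p Λ γ / ENNReal.ofReal (Λ ^ d) := by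
  refine le_trans ?_ (breg_first_moment hp hΛ hγ {v | ‖v‖ ≤ K})
  rw [← breg_avz_mom hΛ hγ (measurableSet_le measurable_norm measurable_const) hL]
  exact avz_mono Λ fun z => breg_enorm_Dv K hL _

/-- telescoping sum of the Jensen gaps over the scales -/
theorem PPlan.sum_avz_FBr {p Λ : ℝ} (hp : 1 ≤ p) (hΛ : 0 < Λ) {μ : Measure (E d)}
    {γ : Measure (E d × E d)} (hγ : PPlan Λ μ γ) {K : ℕ → ℝ} (hK : Monotone K) (hK0 : 0 ≤ K 0)
    {L0 : ℝ} (hL0 : 0 < L0) {J J2 : ℕ} (hJ : J2 ≤ J) (M : ℕ) :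
    ∑ i ∈ Finset.range M,
        avz Λ (fun z => ENNReal.ofReal (FBr (K i) (L0 * 2 ^ (i * J)) (2 ^ J2) (shP z γ))) ≤
      1 + CQ p Λ γ / ENNReal.ofReal (Λ ^ d) := by
  have _ := hK0
  have hL : ∀ i : ℕ, 0 < L0 * 2 ^ (i * J) := fun i => by positivity
  have key : ∀ N : ℕ, ∑ i ∈ Finset.range (N + 1),
      avz Λ (fun z => ENNReal.ofReal (FBr (K i) (L0 * 2 ^ (i * J)) (2 ^ J2) (shP z γ))) +
        breg_Psi Λ (K N) (L0 * 2 ^ (N * J)) γ ≤
      1 + ∫⁻ v in {v | ‖v‖ ≤ K N}, ‖v‖ₑ ∂(rho Λ γ) := by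
    intro N
    induction N with
    | zero =>
      rw [Finset.sum_range_one, breg_gap hΛ hγ _ (hL 0) (Nat.two_pow_pos J2)]
      exact breg_Psi_le hΛ hγ _ (div_pos (hL 0) (Nat.cast_pos.2 (Nat.two_pow_pos J2)))
    | succ N ih =>
      have hKN : K N ≤ K (N + 1) := hK (Nat.le_succ N)
      have h1 : L0 * 2 ^ ((N + 1) * J) / ((2 ^ J2 : ℕ) : ℝ) / ((2 ^ (J - J2) : ℕ) : ℝ) =
          L0 * 2 ^ (N * J) := by
        obtain ⟨r, rfl⟩ := Nat.exists_eq_add_of_le hJ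
        rw [Nat.add_sub_cancel_left]
        push_cast
        rw [add_mul, one_mul, pow_add, pow_add]
        field_simp
      have h2 := breg_gap hΛ hγ (K (N + 1))
        (div_pos (hL (N + 1)) (Nat.cast_pos.2 (Nat.two_pow_pos J2))) (Nat.two_pow_pos (J - J2))
      rw [h1] at h2
      rw [Finset.sum_range_succ, add_assoc, breg_gap hΛ hγ _ (hL (N + 1)) (Nat.two_pow_pos J2),
        ← breg_split _ hKN, ← add_assoc]
      refine le_trans ?_ (add_le_add_left ih _)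
      rw [add_assoc]
      exact add_le_add_right ((le_add_self.trans h2.le).trans
        (breg_Psi_trunc hΛ hγ hKN (hL N))) _
  rcases M with _ | N
  · simp
  · refine le_trans ?_ (breg_first_moment hp hΛ hγ {v | ‖v‖ ≤ K N})
    have h3 := (add_le_add_right (breg_one_le_Psi hΛ (K N) (L0 * 2 ^ (N * J)) γ) _).trans (key N)
    rw [add_comm 1] at h3
    exact (ENNReal.add_le_add_iff_right ENNReal.one_ne_top).1 h3

end Pool.Agent.Lib.MP_fe8b6f_pr
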