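import Pool.Agent.Lib.MP_fe8b6f_pr.PPl

/-! Mean displacements and the choice of good scales. Part 1. -/

open MeasureTheory ProbabilityTheory
open scoped NNReal ENNReal

noncomputable section

namespace Pool.Agent.Lib.MP_fe8b6f_pr

variable {d : ℕ}

theorem brega_meas (K : ℝ) {A : Set (E d)} (hA : MeasurableSet A) :
    MeasurableSet {q : E d × E d | ‖q.1 - q.2‖ ≤ K ∧ q.2 ∈ A} := by
  refine MeasurableSet.inter ?_ (measurable_snd hA)
  exact measurableSet_le (measurable_fst.sub measurable_snd).norm measurable_const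

theorem brega_le (K : ℝ) {A : Set (E d)} (hA : MeasurableSet A) {γ : Measure (E d × E d)}
    (h2 : γ.map Prod.snd = volume) :
    γ {q : E d × E d | ‖q.1 - q.2‖ ≤ K ∧ q.2 ∈ A} ≤ volume A := by
  rw [← h2, Measure.map_apply measurable_snd hA]
  exact measure_mono fun q hq => hq.2

theorem brega_int (K : ℝ) {s : ℝ} (hs : 0 ≤ s) (a : E d) {γ : Measure (E d × E d)}
    (h2 : γ.map Prod.snd = volume) :
    IntegrableOn (fun q : E d × E d => q.1 - q.2)
      {q : E d × E d | ‖q.1 - q.2‖ ≤ K ∧ q.2 ∈ cube a s} γ := by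
  have hfin : γ {q : E d × E d | ‖q.1 - q.2‖ ≤ K ∧ q.2 ∈ cube a s} ≠ ⊤ := by
    refine ne_top_of_le_ne_top ?_ (brega_le K (measurableSet_cube a s) h2)
    rw [volume_cube a hs]
    exact ENNReal.ofReal_ne_top
  refine Measure.integrableOn_of_bounded (M := K) hfin
    (measurable_fst.sub measurable_snd).aestronglyMeasurable ?_
  exact ae_restrict_of_forall_mem (brega_meas K (measurableSet_cube a s)) fun q hq => hq.1

theorem norm_Dv_le {K s : ℝ} (hK : 0 ≤ K) (hs : 0 < s) (a : E d) {γ : Measure (E d × E d)}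
    (h2 : γ.map Prod.snd = volume) : ‖Dv K s a γ‖ ≤ K := by
  have hle := brega_le K (measurableSet_cube a s) h2
  rw [volume_cube a hs.le] at hle
  have hfin : γ {q : E d × E d | ‖q.1 - q.2‖ ≤ K ∧ q.2 ∈ cube a s} < ⊤ :=
    lt_of_le_of_lt hle ENNReal.ofReal_lt_top
  have h1 := norm_setIntegral_le_of_norm_le_const (f := fun q : E d × E d => q.1 - q.2)
    (C := K) hfin (fun q hq => hq.1)
  have hp : 0 < s ^ d := pow_pos hs d
  have h3 : γ.real {q : E d × E d | ‖q.1 - q.2‖ ≤ K ∧ q.2 ∈ cube a s} ≤ s ^ d :=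
    ENNReal.toReal_le_of_le_ofReal hp.le hle
  unfold Dv
  rw [norm_smul, norm_inv, Real.norm_of_nonneg hp.le, inv_mul_le_iff₀ hp]
  calc _ ≤ _ := h1
    _ ≤ K * s ^ d := mul_le_mul_of_nonneg_left h3 hK
    _ = s ^ d * K := mul_comm _ _

theorem Dv_avg {K L : ℝ} (hL : 0 < L) (a : E d) {γ : Measure (E d × E d)}
    (h2 : γ.map Prod.snd = volume) {m : ℕ} (hm : 0 < m) :
    Dv K L a γ = ((m : ℝ) ^ d)⁻¹ • ∑ j : Fin d → Fin m, Dv K (L / m) (gcorner a L m j) γ := by
  have hm' : (0 : ℝ) < m := Nat.cast_pos.mpr hm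
  have hset : {q : E d × E d | ‖q.1 - q.2‖ ≤ K ∧ q.2 ∈ cube a L} =
      ⋃ j : Fin d → Fin m, {q : E d × E d | ‖q.1 - q.2‖ ≤ K ∧ q.2 ∈ gc a L m j} := by
    rw [← iUnion_gc a hL hm]
    ext q
    simp only [Set.mem_ofPred_eq, Set.mem_iUnion, exists_and_left]
  have hdis : Pairwise (Function.onFun Disjoint fun j : Fin d → Fin m =>
      {q : E d × E d | ‖q.1 - q.2‖ ≤ K ∧ q.2 ∈ gc a L m j}) := by
    intro i j hij
    have h := gc_disjoint a hL m hij
    exact Set.disjoint_left.mpr fun q hq hq' => Set.disjoint_left.mp h hq.2 hq'.2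
  have hint := integral_iUnion_fintype (μ := γ) (f := fun q : E d × E d => q.1 - q.2)
    (fun j : Fin d → Fin m => brega_meas K (measurableSet_gc a L m j)) hdis
    (fun j => brega_int K (div_pos hL hm').le (gcorner a L m j) h2)
  unfold Dv
  rw [hset, hint, ← Finset.smul_sum, smul_smul]
  congr 1
  rw [div_pow]
  have : (m : ℝ) ^ d ≠ 0 := (pow_pos hm' d).ne'
  have : L ^ d ≠ 0 := (pow_pos hL d).ne'
  field_simp

theorem brega_cube_sub (a z x : E d) (s : ℝ) : x - z ∈ cube a s ↔ x ∈ cube (a + z) s := by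
  have h := preimage_sub_cube z a s
  rw [add_comm] at h
  rw [← h]
  rfl

theorem Dv_shP (K s : ℝ) (a z : E d) (γ : Measure (E d × E d)) :
    Dv K s a (shP z γ) = Dv K s (a + z) γ := by
  have hf : Measurable fun q : E d × E d => (q.1 - z, q.2 - z) :=
    (measurable_fst.sub_const z).prodMk (measurable_snd.sub_const z)
  unfold Dv shP
  have hg : Measurable fun q : E d × E d => q.1 - q.2 := measurable_fst.sub measurable_snd
  rw [setIntegral_map (brega_meas K (measurableSet_cube a s))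
    hg.aestronglyMeasurable hf.aemeasurable]
  congr 1
  have h1 : (fun q : E d × E d => (q.1 - z, q.2 - z)) ⁻¹'
      {q : E d × E d | ‖q.1 - q.2‖ ≤ K ∧ q.2 ∈ cube a s} =
      {q : E d × E d | ‖q.1 - q.2‖ ≤ K ∧ q.2 ∈ cube (a + z) s} := by
    ext q
    simp only [Set.mem_preimage, Set.mem_ofPred_eq, sub_sub_sub_cancel_right, brega_cube_sub]
  rw [h1]
  simp only [sub_sub_sub_cancel_right]

theorem measurable_Dv (K s : ℝ) {γ : Measure (E d × E d)} (h2 : γ.map Prod.snd = volume) :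
    Measurable fun z => Dv K s z γ := by
  have := sigmaFinite_of_snd h2
  have hS : MeasurableSet {p : E d × (E d × E d) |
      ‖p.2.1 - p.2.2‖ ≤ K ∧ p.2.2 - p.1 ∈ cube (0 : E d) s} := by
    refine MeasurableSet.inter ?_ ?_
    · exact measurableSet_le (measurable_snd.fst.sub measurable_snd.snd).norm measurable_const
    · exact (measurable_snd.snd.sub measurable_fst) (measurableSet_cube 0 s)
  have hF : StronglyMeasurable (Set.indicator {p : E d × (E d × E d) |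
      ‖p.2.1 - p.2.2‖ ≤ K ∧ p.2.2 - p.1 ∈ cube (0 : E d) s} fun p => p.2.1 - p.2.2) :=
    ((measurable_snd.fst.sub measurable_snd.snd).indicator hS).stronglyMeasurable
  have hI := (hF.integral_prod_right' (ν := γ)).measurable
  have heq : (fun z => Dv K s z γ) = fun z : E d => (s ^ d)⁻¹ • ∫ q, Set.indicator
      {p : E d × (E d × E d) | ‖p.2.1 - p.2.2‖ ≤ K ∧ p.2.2 - p.1 ∈ cube (0 : E d) s}
      (fun p => p.2.1 - p.2.2) (z, q) ∂γ := by
    funext z
    unfold Dv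
    rw [← integral_indicator (brega_meas K (measurableSet_cube z s))]
    congr 2
    funext q
    have hiff : q ∈ {q : E d × E d | ‖q.1 - q.2‖ ≤ K ∧ q.2 ∈ cube z s} ↔
        (z, q) ∈ {p : E d × (E d × E d) |
          ‖p.2.1 - p.2.2‖ ≤ K ∧ p.2.2 - p.1 ∈ cube (0 : E d) s} := by
      simp only [Set.mem_ofPred_eq, brega_cube_sub, zero_add]
    by_cases hq : q ∈ {q : E d × E d | ‖q.1 - q.2‖ ≤ K ∧ q.2 ∈ cube z s}
    · rw [Set.indicator_of_mem hq, Set.indicator_of_mem (hiff.mp hq)]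
    · rw [Set.indicator_of_notMem hq, Set.indicator_of_notMem (fun h => hq (hiff.mpr h))]
  rw [heq]
  exact hI.const_smul ((s ^ d)⁻¹ : ℝ)

theorem brega_Phi_pos (a : E d) : 0 < Phi a := Real.sqrt_pos.mpr (by positivity)

theorem brega_Phi_sq (a : E d) : Phi a ^ 2 = 1 + ‖a‖ ^ 2 := Real.sq_sqrt (by positivity)

theorem brega_norm_sq (a b : E d) : ‖a - b‖ ^ 2 = ‖a‖ ^ 2 - 2 * inner ℝ a b + ‖b‖ ^ 2 :=
  norm_sub_sq_real a b

theorem brega_key (a b : E d) :
    ‖a - b‖ ^ 2 + (1 + inner ℝ a b) ^ 2 ≤ (Phi a * Phi b) ^ 2 := by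
  have h := real_inner_mul_inner_self_le a b
  rw [real_inner_self_eq_norm_sq, real_inner_self_eq_norm_sq] at h
  rw [mul_pow, brega_Phi_sq, brega_Phi_sq, brega_norm_sq]
  nlinarith

theorem brega_abs (a b : E d) : |1 + inner ℝ a b| ≤ Phi a * Phi b := by
  refine abs_le_of_sq_le_sq' ?_ (mul_pos (brega_Phi_pos a) (brega_Phi_pos b)).le |> abs_le.mpr
  have := brega_key a b
  nlinarith [sq_nonneg ‖a - b‖]

theorem brega_B (a b : E d) :
    Phi b * (Phi a - Phi b - inner ℝ ((Phi b)⁻¹ • b) (a - b)) =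
      Phi a * Phi b - (1 + inner ℝ a b) := by
  have hb := (brega_Phi_pos b).ne'
  have h := brega_Phi_sq b
  rw [real_inner_smul_left, inner_sub_right, real_inner_self_eq_norm_sq, real_inner_comm a b]
  field_simp
  nlinarith

theorem Phi_tangent (a b : E d) : Phi b + inner ℝ ((Phi b)⁻¹ • b) (a - b) ≤ Phi a := by
  have h1 := brega_B a b
  have h2 := (abs_le.mp (brega_abs a b)).2
  have h3 : 0 ≤ Phi b * (Phi a - Phi b - inner ℝ ((Phi b)⁻¹ • b) (a - b)) := by linarith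
  have h5 := (mul_nonneg_iff_of_pos_left (brega_Phi_pos b)).mp h3
  linarith

theorem abs_Phi_sub (a b : E d) : |Phi a - Phi b| ≤ ‖a - b‖ := by
  refine abs_le.mpr (abs_le_of_sq_le_sq' ?_ (norm_nonneg _))
  have h2 := (abs_le.mp (brega_abs a b)).2
  rw [brega_norm_sq, sub_sq, brega_Phi_sq, brega_Phi_sq]
  nlinarith

/-- quantitative strict convexity of `Phi` -/
theorem bregman {K0 δ : ℝ} (hK0 : 0 ≤ K0) (hδ : 0 < δ) :
    ∃ C : ℝ, 0 < C ∧ ∀ a b : E d, ‖b‖ ≤ K0 →
      ‖a - b‖ ≤ δ + C * (Phi a - Phi b - inner ℝ ((Phi b)⁻¹ • b) (a - b)) := by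
  refine ⟨2 * (1 + K0) ^ 2 * ((1 + K0) / δ + 1), by positivity, fun a b hb => ?_⟩
  have hB := brega_B a b
  have hT := Phi_tangent a b
  have hk := brega_key a b
  have hab := abs_le.mp (brega_abs a b)
  have hP := (abs_le.mp (abs_Phi_sub a b)).2
  have hPa := brega_Phi_pos a
  have hPb := brega_Phi_pos b
  have hQ : Phi b ≤ 1 + K0 := by
    refine abs_le_of_sq_le_sq' ?_ (by positivity) |>.2
    rw [brega_Phi_sq]
    nlinarith [norm_nonneg b]
  set B := Phi a - Phi b - inner ℝ ((Phi b)⁻¹ • b) (a - b) with hBdef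
  have hB0 : 0 ≤ B := by linarith
  set t := ‖a - b‖ with ht
  set P := Phi a
  set Q := Phi b
  set s := 1 + inner ℝ a b
  by_cases h : t ≤ δ
  · have : 0 ≤ 2 * (1 + K0) ^ 2 * ((1 + K0) / δ + 1) * B := by positivity
    linarith
  · push Not at h
    have ht0 : 0 < t := hδ.trans h
    have h1 : t ^ 2 ≤ Q * B * (2 * (P * Q)) := by
      rw [hB]
      nlinarith
    have h2 : P ≤ ((1 + K0) / δ + 1) * t := by
      have h3 : (1 + K0) ≤ (1 + K0) / δ * t := by
        rw [div_mul_eq_mul_div, le_div_iff₀ hδ]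
        nlinarith
      nlinarith
    have h4 : Q ^ 2 ≤ (1 + K0) ^ 2 := pow_le_pow_left₀ hPb.le hQ 2
    have h5 : Q * B * (2 * (P * Q)) ≤ (2 * (1 + K0) ^ 2 * ((1 + K0) / δ + 1) * B) * t := by
      calc Q * B * (2 * (P * Q)) = 2 * B * (Q ^ 2 * P) := by ring
        _ ≤ 2 * B * ((1 + K0) ^ 2 * (((1 + K0) / δ + 1) * t)) := by gcongr
        _ = _ := by ring
    have h6 : t ≤ 2 * (1 + K0) ^ 2 * ((1 + K0) / δ + 1) * B := by
      refine le_of_mul_le_mul_right ?_ ht0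
      nlinarith
    linarith

theorem brega_sum_inner {K L : ℝ} (hL : 0 < L) {γ : Measure (E d × E d)}
    (h2 : γ.map Prod.snd = volume) {m : ℕ} (hm : 0 < m) (g : E d) :
    ∑ j : Fin d → Fin m, inner ℝ g (Dv K (L / m) (gcorner 0 L m j) γ - Dv K L 0 γ) = 0 := by
  have hm' : (0 : ℝ) < (m : ℝ) ^ d := pow_pos (Nat.cast_pos.mpr hm) d
  have h := Dv_avg (K := K) hL 0 h2 hm
  rw [← inner_sum, Finset.sum_sub_distrib, Finset.sum_const, Finset.card_univ,
    ← Nat.cast_smul_eq_nsmul ℝ]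
  have hc : ((Fintype.card (Fin d → Fin m) : ℕ) : ℝ) = (m : ℝ) ^ d := by simp
  rw [hc, h, smul_smul, mul_inv_cancel₀ hm'.ne', one_smul, sub_self, inner_zero_right]

theorem FBr_nonneg {K L : ℝ} (hL : 0 < L) {γ : Measure (E d × E d)}
    (h2 : γ.map Prod.snd = volume) {m : ℕ} (hm : 0 < m) : 0 ≤ FBr K L m γ := by
  have hm' : (0 : ℝ) < (m : ℝ) ^ d := pow_pos (Nat.cast_pos.mpr hm) d
  have h0 := brega_sum_inner (K := K) hL h2 hm ((Phi (Dv K L 0 γ))⁻¹ • Dv K L 0 γ)
  have h1 := Finset.sum_le_sum (s := Finset.univ) fun (j : Fin d → Fin m) _ =>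
    Phi_tangent (Dv K (L / m) (gcorner 0 L m j) γ) (Dv K L 0 γ)
  rw [Finset.sum_add_distrib, h0, Finset.sum_const, Finset.card_univ, nsmul_eq_mul] at h1
  have hc : ((Fintype.card (Fin d → Fin m) : ℕ) : ℝ) = (m : ℝ) ^ d := by simp
  rw [hc] at h1
  unfold FBr
  rw [sub_nonneg, le_div_iff₀ hm']
  linarith

theorem FD_le_FBr {K0 δ : ℝ} (hK0 : 0 ≤ K0) (hδ : 0 < δ) :
    ∃ C : ℝ, 0 < C ∧ ∀ (K L : ℝ) (m : ℕ) (γ : Measure (E d × E d)), 0 < L → 0 < m →
      γ.map Prod.snd = volume → ‖Dv K L 0 γ‖ ≤ K0 →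
      FD K L m (Dv K L 0 γ) γ ≤ δ + C * FBr K L m γ := by
  obtain ⟨C, hC, h⟩ := bregman (d := d) hK0 hδ
  refine ⟨C, hC, fun K L m γ hL hm h2 hD => ?_⟩
  have hm' : (0 : ℝ) < (m : ℝ) ^ d := pow_pos (Nat.cast_pos.mpr hm) d
  have h0 := brega_sum_inner (K := K) hL h2 hm ((Phi (Dv K L 0 γ))⁻¹ • Dv K L 0 γ)
  have h1 := Finset.sum_le_sum (s := Finset.univ) fun (j : Fin d → Fin m) _ =>
    h (Dv K (L / m) (gcorner 0 L m j) γ) (Dv K L 0 γ) hD
  rw [Finset.sum_add_distrib, ← Finset.mul_sum, Finset.sum_sub_distrib, Finset.sum_sub_distrib,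
    h0, Finset.sum_const, Finset.sum_const, Finset.card_univ, nsmul_eq_mul, nsmul_eq_mul] at h1
  have hc : ((Fintype.card (Fin d → Fin m) : ℕ) : ℝ) = (m : ℝ) ^ d := by simp
  rw [hc] at h1
  unfold FD FBr
  rw [div_le_iff₀ hm']
  refine h1.trans (le_of_eq ?_)
  field_simp
  ring

theorem measurable_FBr_shP (K L : ℝ) (m : ℕ) {γ : Measure (E d × E d)}
    (h2 : γ.map Prod.snd = volume) : Measurable fun z => FBr K L m (shP z γ) := by
  have hPhi : Measurable (Phi : E d → ℝ) := by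
    have : Continuous (Phi : E d → ℝ) := by
      unfold Phi
      fun_prop
    exact this.measurable
  have h : ∀ (s : ℝ) (a : E d), Measurable fun z => Phi (Dv K s a (shP z γ)) := by
    intro s a
    simp only [Dv_shP]
    exact hPhi.comp ((measurable_Dv K s h2).comp (measurable_const_add a))
  unfold FBr
  exact ((Finset.measurable_sum _ fun j _ => h _ _).div_const _).sub (h _ _)

end Pool.Agent.Lib.MP_fe8b6f_pr
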