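import Pool.Agent.Lib.MP_fe8b6f_pr.CPa2

/-! Compound Poisson laws: algebraic properties. Part 3. -/

open MeasureTheory ProbabilityTheory
open scoped NNReal ENNReal

noncomputable section

namespace Pool.Agent.Lib.MP_fe8b6f_pr

variable {d : ℕ}

variable {M : Type} [AddCommMonoid M] [MeasurableSpace M] [MeasurableAdd₂ M]


theorem cpa_add {Y : M → ℝ≥0∞} (hY : Measurable Y) (h0 : Y 0 = 0)
    (hadd : ∀ a b, Y (a + b) = Y a + Y b) (n : Measure M) [IsFiniteMeasure n] (k : ℕ) :
    ∫⁻ x, Y x ∂(cpow n (k + 1)) = (k + 1) * (n Set.univ ^ k * ∫⁻ x, Y x ∂n) := by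
  induction k with
  | zero =>
    rw [lintegral_cpow_succ n 0 hY]
    simp only [hadd, cpow]
    simp [lintegral_add_left measurable_const, lintegral_dirac' _ hY, h0]
  | succ k ih =>
    rw [lintegral_cpow_succ n _ hY]
    simp only [hadd]
    simp only [lintegral_add_left measurable_const, lintegral_const, cpow_univ, ih]
    rw [lintegral_add_right _ measurable_const, lintegral_mul_const _ hY, lintegral_const]
    push_cast
    ring

theorem cpa_mul {χ : M → ℝ≥0∞} (hχ : Measurable χ) (h0 : χ 0 = 1)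
    (hmul : ∀ a b, χ (a + b) = χ a * χ b) (n : Measure M) [IsFiniteMeasure n] (k : ℕ) :
    ∫⁻ x, χ x ∂(cpow n k) = (∫⁻ x, χ x ∂n) ^ k := by
  induction k with
  | zero => simp [cpow, lintegral_dirac' _ hχ, h0]
  | succ k ih =>
    rw [lintegral_cpow_succ n _ hχ]
    simp only [hmul, lintegral_const_mul _ hχ, ih]
    rw [lintegral_mul_const _ hχ, pow_succ']

theorem cpa_pi {X : Type} [MeasurableSpace X] (lam : Measure X)
    [IsProbabilityMeasure lam] {Y : X → M} (hY : Measurable Y) (r : ℝ≥0) (k : ℕ) :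
    ∀ {F : M → ℝ≥0∞}, Measurable F → ∫⁻ y, F y ∂(cpow ((r : ℝ≥0∞) • lam.map Y) k) =
      (r : ℝ≥0∞) ^ k * ∫⁻ x : Fin k → X, F (∑ i, Y (x i)) ∂(Measure.pi fun _ => lam) := by
  have hfin : IsFiniteMeasure ((r : ℝ≥0∞) • lam.map Y) := Measure.smul_finite _ ENNReal.coe_ne_top
  induction k with
  | zero =>
    intro F hF
    simp [cpow, lintegral_dirac' _ hF]
  | succ k ih =>
    intro F hF
    have hS : Measurable fun x : Fin k → X => ∑ i, Y (x i) :=
      Finset.measurable_sum _ fun i _ => hY.comp (measurable_pi_apply i)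
    have hG : Measurable fun p : M × (Fin k → X) => F (p.1 + ∑ i, Y (p.2 i)) :=
      hF.comp (measurable_fst.add (hS.comp measurable_snd))
    have hG' : Measurable fun p : X × (Fin k → X) => F (Y p.1 + ∑ i, Y (p.2 i)) :=
      hF.comp ((hY.comp measurable_fst).add (hS.comp measurable_snd))
    have h1 : ∀ a : M, ∫⁻ b, F (a + b) ∂(cpow ((r : ℝ≥0∞) • lam.map Y) k) = (r : ℝ≥0∞) ^ k *
        ∫⁻ x : Fin k → X, F (a + ∑ i, Y (x i)) ∂(Measure.pi fun _ => lam) :=
      fun a => ih (F := fun b => F (a + b)) (hF.comp (measurable_const.add measurable_id))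
    have h2 : Measurable fun a : M =>
        ∫⁻ x : Fin k → X, F (a + ∑ i, Y (x i)) ∂(Measure.pi fun _ => lam) :=
      hG.lintegral_prod_right'
    rw [lintegral_cpow_succ _ _ hF]
    simp only [h1]
    rw [lintegral_const_mul _ h2, lintegral_smul_measure, lintegral_map h2 hY,
      ((measurePreserving_piFinSuccAbove (fun _ : Fin (k + 1) => lam) 0).symm).lintegral_map_equiv,
      smul_eq_mul, pow_succ, mul_assoc, ← lintegral_prod _ hG'.aemeasurable]
    congr 2
    refine lintegral_congr fun p => ?_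
    simp [MeasurableEquiv.piFinSuccAbove_symm_apply, Fin.insertNthEquiv, Fin.sum_univ_succ]

/-- mean of an additive functional -/
theorem lintegral_CP_additive {Y : M → ℝ≥0∞} (hY : Measurable Y) (h0 : Y 0 = 0)
    (hadd : ∀ a b, Y (a + b) = Y a + Y b) (n : Measure M) [IsFiniteMeasure n] :
    ∫⁻ x, Y x ∂(CP n) = ∫⁻ x, Y x ∂n := by
  have hP := isProbabilityMeasure_CP n
  have h1 := lintegral_CP n (fun _ => 1)
  simp only [lintegral_const, cpow_univ, one_mul, measure_univ] at h1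
  rw [lintegral_CP, tsum_eq_zero_add' ENNReal.summable]
  have h2 : ∫⁻ x, Y x ∂(cpow n 0) = 0 := by simp [cpow, lintegral_dirac' _ hY, h0]
  have h3 : ∀ k : ℕ, ENNReal.ofReal (Real.exp (-(n Set.univ).toReal) / (Nat.factorial (k + 1) : ℝ)) *
      ((k : ℝ≥0∞) + 1) = ENNReal.ofReal (Real.exp (-(n Set.univ).toReal) / (Nat.factorial k : ℝ)) := by
    intro k
    have h4 : ((k : ℝ≥0∞) + 1) = ENNReal.ofReal ((k : ℝ) + 1) := by
      rw [ENNReal.ofReal_add (by positivity) zero_le_one, ENNReal.ofReal_natCast, ENNReal.ofReal_one]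
    rw [h4, ← ENNReal.ofReal_mul (by positivity), Nat.factorial_succ]
    congr 1
    push_cast
    field_simp
  rw [h2, mul_zero, zero_add]
  simp only [cpa_add hY h0 hadd, ← mul_assoc, h3]
  rw [ENNReal.tsum_mul_right, ← h1, one_mul]

/-- mean of a multiplicative functional -/
theorem lintegral_CP_mul {χ : M → ℝ≥0∞} (hχ : Measurable χ) (h0 : χ 0 = 1)
    (hmul : ∀ a b, χ (a + b) = χ a * χ b) (n : Measure M) [IsFiniteMeasure n]
    (hfin : ∫⁻ x, χ x ∂n ≠ ⊤) :
    ∫⁻ x, χ x ∂(CP n) =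
      ENNReal.ofReal (Real.exp ((∫⁻ x, χ x ∂n).toReal - (n Set.univ).toReal)) := by
  rw [lintegral_CP]
  simp only [cpa_mul hχ h0 hmul]
  obtain ⟨j, hj, hJ⟩ : ∃ j : ℝ, 0 ≤ j ∧ ∫⁻ x, χ x ∂n = ENNReal.ofReal j :=
    ⟨_, ENNReal.toReal_nonneg, (ENNReal.ofReal_toReal hfin).symm⟩
  rw [hJ, ENNReal.toReal_ofReal hj]
  generalize (n Set.univ).toReal = m
  have h1 : HasSum (fun k : ℕ => Real.exp (-m) / (Nat.factorial k : ℝ) * j ^ k)
      (Real.exp (j - m)) := by
    have h2 := (NormedSpace.expSeries_div_hasSum_exp j).mul_left (Real.exp (-m))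
    rw [← Real.exp_eq_exp_ℝ, ← Real.exp_add, neg_add_eq_sub] at h2
    have h3 : (fun k : ℕ => Real.exp (-m) / (Nat.factorial k : ℝ) * j ^ k) =
        fun k : ℕ => Real.exp (-m) * (j ^ k / (Nat.factorial k : ℝ)) := by
      funext k
      ring
    rw [h3]
    exact h2
  rw [← h1.tsum_eq, ENNReal.ofReal_tsum_of_nonneg (fun k => by positivity) h1.summable]
  refine tsum_congr fun k => ?_
  rw [ENNReal.ofReal_mul (by positivity), ENNReal.ofReal_pow hj]

/-- link with a Poisson number of independent samples -/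
theorem lintegral_poisson_pi {X : Type} [MeasurableSpace X] (lam : Measure X)
    [IsProbabilityMeasure lam] {Y : X → M} (hY : Measurable Y) (r : ℝ≥0) {F : M → ℝ≥0∞}
    (hF : Measurable F) :
    ∫⁻ n, (∫⁻ x : Fin n → X, F (∑ i, Y (x i)) ∂(Measure.pi fun _ => lam)) ∂(poissonMeasure r) =
      ∫⁻ y, F y ∂(CP ((r : ℝ≥0∞) • lam.map Y)) := by
  rw [lintegral_countable', lintegral_CP]
  refine tsum_congr fun k => ?_
  have h1 : (((r : ℝ≥0∞) • lam.map Y) Set.univ).toReal = r := by
    have := Measure.isProbabilityMeasure_map (μ := lam) hY.aemeasurable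
    simp
  rw [cpa_pi lam hY r k hF, poissonMeasure_singleton, h1, mul_comm, ← mul_assoc]
  congr 1
  rw [← ENNReal.ofReal_coe_nnreal, ← ENNReal.ofReal_pow r.coe_nonneg,
    ← ENNReal.ofReal_mul (by positivity)]
  congr 1
  ring

end Pool.Agent.Lib.MP_fe8b6f_pr
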