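import Pool.Agent.Lib.MP_fe8b6f_pr.Defs

/-! Compound Poisson laws: algebraic properties. Part 1. -/

open MeasureTheory ProbabilityTheory
open scoped NNReal ENNReal

noncomputable section

namespace Pool.Agent.Lib.MP_fe8b6f_pr

variable {d : ℕ}

variable {M : Type} [AddCommMonoid M] [MeasurableSpace M] [MeasurableAdd₂ M]



omit [MeasurableAdd₂ M] in
theorem cpa1_succ (n : Measure M) (k : ℕ) : cpow n (k + 1) = Measure.conv n (cpow n k) := rfl

omit [MeasurableAdd₂ M] in
theorem cpa1_zero (n : Measure M) : cpow n 0 = Measure.dirac 0 := rfl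

/-- the Poisson weights have total mass one -/
theorem cpa1_sum {x : ℝ} (hx : 0 ≤ x) :
    ∑' k : ℕ, ENNReal.ofReal (Real.exp (-x) / (Nat.factorial k : ℝ)) * ENNReal.ofReal x ^ k = 1 := by
  have h1 : HasSum (fun k : ℕ => x ^ k / (Nat.factorial k : ℝ)) (Real.exp x) := by
    rw [Real.exp_eq_exp_ℝ]
    exact NormedSpace.expSeries_div_hasSum_exp x
  have h2 := h1.mul_left (Real.exp (-x))
  rw [← Real.exp_add, neg_add_cancel, Real.exp_zero] at h2
  rw [← ENNReal.ofReal_one, ← h2.tsum_eq,
    ENNReal.ofReal_tsum_of_nonneg (fun k => by positivity) h2.summable]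
  refine tsum_congr fun k => ?_
  rw [← ENNReal.ofReal_pow hx, ← ENNReal.ofReal_mul (by positivity)]
  congr 1
  ring

theorem isFiniteMeasure_cpow (n : Measure M) [IsFiniteMeasure n] (k : ℕ) :
    IsFiniteMeasure (cpow n k) := by
  induction k with
  | zero => rw [cpa1_zero]; infer_instance
  | succ k ih => rw [cpa1_succ]; infer_instance

theorem cpow_univ (n : Measure M) [IsFiniteMeasure n] (k : ℕ) :
    cpow n k Set.univ = n Set.univ ^ k := by
  induction k with
  | zero => rw [cpa1_zero, pow_zero, measure_univ]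
  | succ k ih =>
    have := isFiniteMeasure_cpow n k
    rw [cpa1_succ, Measure.conv, Measure.map_apply measurable_add MeasurableSet.univ,
      Set.preimage_univ, ← Set.univ_prod_univ, Measure.prod_prod, ih, pow_succ']

theorem isProbabilityMeasure_cpow (β : Measure M) [IsProbabilityMeasure β] (k : ℕ) :
    IsProbabilityMeasure (cpow β k) := by
  exact ⟨by rw [cpow_univ, measure_univ, one_pow]⟩

theorem lintegral_cpow_succ (n : Measure M) [IsFiniteMeasure n] (k : ℕ) {F : M → ℝ≥0∞}
    (hF : Measurable F) :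
    ∫⁻ x, F x ∂(cpow n (k + 1)) = ∫⁻ a, ∫⁻ b, F (a + b) ∂(cpow n k) ∂n := by
  have := isFiniteMeasure_cpow n k
  rw [cpa1_succ, Measure.lintegral_conv hF]

theorem cpow_add (n : Measure M) [IsFiniteMeasure n] (k l : ℕ) :
    cpow n (k + l) = Measure.conv (cpow n k) (cpow n l) := by
  have := isFiniteMeasure_cpow n l
  induction k with
  | zero => rw [zero_add, cpa1_zero, Measure.dirac_zero_conv]
  | succ k ih =>
    have := isFiniteMeasure_cpow n k
    rw [Nat.add_right_comm, cpa1_succ, cpa1_succ, ih, Measure.conv_assoc]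

theorem lintegral_CP (n : Measure M) (F : M → ℝ≥0∞) :
    ∫⁻ x, F x ∂(CP n) = ∑' k : ℕ,
      ENNReal.ofReal (Real.exp (-(n Set.univ).toReal) / (Nat.factorial k : ℝ)) *
        ∫⁻ x, F x ∂(cpow n k) := by
  rw [CP, lintegral_sum_measure]
  exact tsum_congr fun k => lintegral_smul_measure _ _

theorem isProbabilityMeasure_CP (n : Measure M) [IsFiniteMeasure n] :
    IsProbabilityMeasure (CP n) := by
  constructor
  rw [CP, Measure.sum_apply _ MeasurableSet.univ, ← cpa1_sum (x := (n Set.univ).toReal)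
    ENNReal.toReal_nonneg, ENNReal.ofReal_toReal (measure_ne_top n _)]
  exact tsum_congr fun k => by rw [Measure.smul_apply, cpow_univ, smul_eq_mul]

theorem CP_zero : CP (0 : Measure M) = Measure.dirac 0 := by
  ext s hs
  rw [CP, Measure.sum_apply _ hs, tsum_eq_single 0]
  · simp [cpa1_zero]
  · intro k hk
    obtain ⟨k, rfl⟩ := Nat.exists_eq_succ_of_ne_zero hk
    rw [cpa1_succ, Measure.zero_conv]
    simp

end Pool.Agent.Lib.MP_fe8b6f_pr
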