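import Pool.Agent.Lib.MP_fe8b6f_pr.CPa1
import Pool.Agent.Lib.MP_fe8b6f_pr.DefsEq

/-! Compound Poisson laws: algebraic properties. Part 2. -/

open MeasureTheory ProbabilityTheory
open scoped NNReal ENNReal

noncomputable section

namespace Pool.Agent.Lib.MP_fe8b6f_pr

variable {d : ℕ}

variable {M : Type} [AddCommMonoid M] [MeasurableSpace M] [MeasurableAdd₂ M]


theorem cpa2_conv_finsum {ι : Type} (μ : Measure M) [IsFiniteMeasure μ] (s : Finset ι)
    (ν : ι → Measure M) [∀ i, IsFiniteMeasure (ν i)] :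
    Measure.conv μ (∑ i ∈ s, ν i) = ∑ i ∈ s, Measure.conv μ (ν i) := by
  classical
  induction s using Finset.induction_on with
  | empty => simp
  | insert a s ha ih => rw [Finset.sum_insert ha, Finset.sum_insert ha, Measure.conv_add, ih]

omit [AddCommMonoid M] [MeasurableAdd₂ M] in
theorem cpa2_fin_nsmul (μ : Measure M) [IsFiniteMeasure μ] (c : ℕ) : IsFiniteMeasure (c • μ) := by
  induction c with
  | zero => rw [zero_smul]; infer_instance
  | succ c ih => rw [succ_nsmul]; infer_instance

theorem cpa2_conv_nsmul (μ ν : Measure M) [IsFiniteMeasure μ] [IsFiniteMeasure ν] (c : ℕ) :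
    Measure.conv μ (c • ν) = c • Measure.conv μ ν := by
  induction c with
  | zero => simp
  | succ c ih =>
    have := cpa2_fin_nsmul ν c
    rw [succ_nsmul, succ_nsmul, Measure.conv_add, ih]

theorem cpa2_binom (n₁ n₂ : Measure M) [IsFiniteMeasure n₁] [IsFiniteMeasure n₂] (k : ℕ) :
    cpow (n₁ + n₂) k = ∑ p ∈ Finset.HasAntidiagonal.antidiagonal k,
      k.choose p.1 • Measure.conv (cpow n₁ p.1) (cpow n₂ p.2) := by
  have f₁ := isFiniteMeasure_cpow n₁
  have f₂ := isFiniteMeasure_cpow n₂
  induction k with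
  | zero => simp [cpow]
  | succ k ih =>
    have f₃ := isFiniteMeasure_cpow (n₁ + n₂) k
    have f₄ : ∀ p : ℕ × ℕ,
        IsFiniteMeasure (k.choose p.1 • Measure.conv (cpow n₁ p.1) (cpow n₂ p.2)) :=
      fun p => cpa2_fin_nsmul _ _
    rw [Finset.sum_antidiagonal_choose_succ_nsmul
      (fun i j => Measure.conv (cpow n₁ i) (cpow n₂ j)) k, cpow, Measure.add_conv, add_comm, ih,
      cpa2_conv_finsum, cpa2_conv_finsum]
    congr 1
    · refine Finset.sum_congr rfl fun p _ => ?_
      rw [cpa2_conv_nsmul, cpow, ← Measure.conv_assoc, Measure.conv_comm n₂, Measure.conv_assoc]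
    · refine Finset.sum_congr rfl fun p hp => ?_
      rw [cpa2_conv_nsmul, cpow, ← Measure.conv_assoc]
      congr 1
      rw [← Finset.HasAntidiagonal.mem_antidiagonal.1 hp]
      exact Nat.choose_symm_add

theorem cpa2_tsum (f : ℕ × ℕ → ℝ≥0∞) :
    ∑' p, f p = ∑' k, ∑ p ∈ Finset.HasAntidiagonal.antidiagonal k, f p := by
  rw [← Finset.HasAntidiagonal.sigmaAntidiagonalEquivProd.tsum_eq f, ENNReal.tsum_sigma']
  refine tsum_congr fun k => ?_
  rw [tsum_fintype, ← Finset.sum_coe_sort (Finset.HasAntidiagonal.antidiagonal k) f]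
  rfl

theorem cpa2_coef (x y : ℝ) (i j : ℕ) :
    ENNReal.ofReal (Real.exp (-(x + y)) / (Nat.factorial (i + j) : ℝ)) * ((i + j).choose i : ℕ) =
      ENNReal.ofReal (Real.exp (-x) / (Nat.factorial i : ℝ)) *
        ENNReal.ofReal (Real.exp (-y) / (Nat.factorial j : ℝ)) := by
  rw [← ENNReal.ofReal_natCast, ← ENNReal.ofReal_mul (by positivity),
    ← ENNReal.ofReal_mul (by positivity)]
  congr 1
  have h : (((i + j).factorial : ℕ) : ℝ) = ((i + j).choose i : ℕ) * i.factorial * j.factorial := by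
    rw [Nat.choose_symm_add]
    exact_mod_cast (Nat.add_choose_mul_factorial_mul_factorial i j).symm
  have h0 : (((i + j).choose i : ℕ) : ℝ) ≠ 0 := by
    exact_mod_cast (Nat.choose_pos (Nat.le_add_right i j)).ne'
  rw [h, neg_add, Real.exp_add]
  field_simp

/-- binomial theorem for convolution powers and Cauchy product -/
theorem CP_add (n₁ n₂ : Measure M) [IsFiniteMeasure n₁] [IsFiniteMeasure n₂] :
    CP (n₁ + n₂) = Measure.conv (CP n₁) (CP n₂) := by
  have f₁ := isFiniteMeasure_cpow n₁
  have f₂ := isFiniteMeasure_cpow n₂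
  have e : Measure.conv (CP n₁) (CP n₂) = Measure.sum fun p : ℕ × ℕ =>
      Measure.conv
        (ENNReal.ofReal (Real.exp (-(n₁ Set.univ).toReal) / (Nat.factorial p.1 : ℝ)) • cpow n₁ p.1)
        (ENNReal.ofReal (Real.exp (-(n₂ Set.univ).toReal) / (Nat.factorial p.2 : ℝ)) •
          cpow n₂ p.2) := by
    unfold CP Measure.conv
    rw [Measure.prod_sum, Measure.map_sum (by fun_prop)]
  rw [e]
  ext s hs
  rw [CP, Measure.sum_apply _ hs, Measure.sum_apply _ hs, cpa2_tsum]
  refine tsum_congr fun k => ?_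
  rw [cpa2_binom, Measure.smul_apply, Measure.finsetSum_apply, smul_eq_mul, Finset.mul_sum]
  refine Finset.sum_congr rfl fun p hp => ?_
  rw [Measure.conv_smul_left, Measure.conv_smul_right, Measure.smul_apply, Measure.smul_apply,
    Measure.smul_apply, smul_eq_mul, smul_eq_mul, nsmul_eq_mul, ← mul_assoc, ← mul_assoc,
    ← cpa2_coef, Finset.HasAntidiagonal.mem_antidiagonal.1 hp, Measure.add_apply,
    ENNReal.toReal_add (measure_ne_top _ _) (measure_ne_top _ _)]

theorem CP_smul_dirac {t : ℝ≥0∞} (ht : t ≠ ⊤) :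
    CP (t • Measure.dirac (0 : M)) = Measure.dirac 0 := by
  have hf : IsFiniteMeasure (t • Measure.dirac (0 : M)) := ⟨by simpa using ht.lt_top⟩
  have e : ∀ k, cpow (t • Measure.dirac (0 : M)) k = t ^ k • Measure.dirac 0 := by
    intro k
    induction k with
    | zero => simp [cpow]
    | succ k ih =>
      rw [cpow, ih, Measure.conv_smul_left, Measure.conv_smul_right, Measure.dirac_zero_conv,
        smul_smul, pow_succ']
  have h1 := (isProbabilityMeasure_CP (t • Measure.dirac (0 : M))).measure_univ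
  rw [CP, Measure.sum_apply _ MeasurableSet.univ] at h1
  ext s hs
  rw [CP, Measure.sum_apply _ hs]
  simp only [e, Measure.smul_apply, smul_eq_mul, measure_univ, mul_one] at h1 ⊢
  simp only [← mul_assoc]
  rw [ENNReal.tsum_mul_right, h1, one_mul]

/-- only the part of the intensity away from zero matters -/
theorem CP_restrict_ne_zero (h0 : MeasurableSet ({0} : Set M)) (n : Measure M)
    [IsFiniteMeasure n] : CP (n.restrict {0}ᶜ) = CP n := by
  have hp := isProbabilityMeasure_CP (n.restrict {0}ᶜ)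
  conv_rhs => rw [← Measure.restrict_add_restrict_compl (μ := n) h0]
  rw [CP_add, Measure.restrict_singleton, CP_smul_dirac (measure_ne_top _ _),
    Measure.dirac_zero_conv]

theorem CP_nsmul (n : Measure M) [IsFiniteMeasure n] (N : ℕ) :
    CP ((N : ℝ≥0∞) • n) = cpow (CP n) N := by
  induction N with
  | zero => simp [cpow, CP_zero]
  | succ N ih =>
    have hf : IsFiniteMeasure ((N : ℝ≥0∞) • n) :=
      ⟨by simpa using ENNReal.mul_lt_top (ENNReal.natCast_lt_top N) (measure_lt_top _ _)⟩
    rw [Nat.cast_succ, add_comm, add_smul, one_smul, CP_add, ih, cpow]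

theorem CP_map {M' : Type} [AddCommMonoid M'] [MeasurableSpace M'] [MeasurableAdd₂ M']
    {φ : M → M'} (hφ : Measurable φ) (h0 : φ 0 = 0) (hadd : ∀ a b, φ (a + b) = φ a + φ b)
    (n : Measure M) [IsFiniteMeasure n] : (CP n).map φ = CP (n.map φ) := by
  have f₁ := isFiniteMeasure_cpow n
  have e : ∀ k, (cpow n k).map φ = cpow (n.map φ) k := by
    intro k
    induction k with
    | zero => rw [cpow, cpow, Measure.map_dirac' hφ, h0]
    | succ k ih =>
      rw [cpow, cpow, ← ih]
      exact Measure.map_conv_addMonoidHom (⟨⟨φ, h0⟩, hadd⟩ : M →+ M') hφ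
  rw [CP, CP, Measure.map_sum hφ.aemeasurable]
  congr 1
  funext k
  rw [Measure.map_smul, e, Measure.map_apply hφ MeasurableSet.univ, Set.preimage_univ]

end Pool.Agent.Lib.MP_fe8b6f_pr
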