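import Pool.Agent.Lib.MP_fe8b6f_pr.CPb1

/-! Compound Poisson laws: total variation estimates. Part 2. -/

open MeasureTheory ProbabilityTheory
open scoped NNReal ENNReal

noncomputable section

namespace Pool.Agent.Lib.MP_fe8b6f_pr

variable {d : ℕ}

variable {M : Type} [AddCommMonoid M] [MeasurableSpace M] [MeasurableAdd₂ M]


/-- total variation is subadditive under convolution powers -/
theorem cpow_close (α β : Measure M) [IsProbabilityMeasure α] [IsProbabilityMeasure β]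
    {ε : ℝ≥0∞}
    (h : ∀ F : M → ℝ≥0∞, Measurable F → (∀ x, F x ≤ 1) → ∫⁻ x, F x ∂α ≤ ∫⁻ x, F x ∂β + ε)
    (N : ℕ) {F : M → ℝ≥0∞} (hF : Measurable F) (hF1 : ∀ x, F x ≤ 1) :
    ∫⁻ x, F x ∂(cpow α N) ≤ ∫⁻ x, F x ∂(cpow β N) + N * ε := by
  induction N generalizing F with
  | zero => simp [cpow]
  | succ N ih =>
    have := isProbabilityMeasure_cpow β N
    have hG : Measurable fun a => ∫⁻ b, F (a + b) ∂(cpow β N) :=
      (hF.comp measurable_add).lintegral_prod_right' (ν := cpow β N)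
    have hG1 : ∀ a, ∫⁻ b, F (a + b) ∂(cpow β N) ≤ 1 := by
      intro a
      refine (lintegral_mono fun b => hF1 (a + b)).trans ?_
      simp
    rw [lintegral_cpow_succ α N hF, lintegral_cpow_succ β N hF]
    calc ∫⁻ a, ∫⁻ b, F (a + b) ∂(cpow α N) ∂α
        ≤ ∫⁻ a, (∫⁻ b, F (a + b) ∂(cpow β N) + N * ε) ∂α :=
          lintegral_mono fun a => ih (hF.comp (measurable_const_add a)) fun x => hF1 _
      _ = ∫⁻ a, ∫⁻ b, F (a + b) ∂(cpow β N) ∂α + N * ε := by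
          rw [lintegral_add_right _ measurable_const]
          simp
      _ ≤ ∫⁻ a, ∫⁻ b, F (a + b) ∂(cpow β N) ∂β + ε + N * ε := by
          gcongr
          exact h _ hG hG1
      _ = _ := by
          push_cast
          ring

omit [AddCommMonoid M] [MeasurableAdd₂ M] in
theorem cpb_compl (μ : Measure M) [IsProbabilityMeasure μ] {F : M → ℝ≥0∞} (hF : Measurable F)
    (hF1 : ∀ x, F x ≤ 1) : ∫⁻ x, F x ∂μ + ∫⁻ x, (1 - F x) ∂μ = 1 := by
  rw [← lintegral_add_left hF]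
  simp [add_tsub_cancel_of_le (hF1 _)]

theorem cpb_lower (h0 : MeasurableSet ({0} : Set M)) (β : Measure M) [IsProbabilityMeasure β]
    {G : M → ℝ≥0∞} (hG : Measurable G) (hG1 : ∀ x, G x ≤ 1) :
    ∫⁻ x, G x ∂β ≤ ∫⁻ x, G x ∂(CP β) + (β {0}ᶜ) ^ 2 := by
  set n := β.restrict {0}ᶜ with hn
  have hq : n Set.univ = β {0}ᶜ := by simp [hn]
  have hrq : β {0} + β {0}ᶜ = 1 := prob_add_prob_compl h0
  have hI : ∫⁻ x, G x ∂n ≤ β {0}ᶜ := by
    refine (lintegral_mono hG1).trans ?_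
    simp [hn]
  have hc : β {0} ≤ ENNReal.ofReal (Real.exp (-(n Set.univ).toReal)) := by
    rw [hq, ← ENNReal.ofReal_toReal (measure_ne_top β {0})]
    apply ENNReal.ofReal_le_ofReal
    have h1 := congrArg ENNReal.toReal hrq
    rw [ENNReal.toReal_add (measure_ne_top _ _) (measure_ne_top _ _), ENNReal.toReal_one] at h1
    have h2 := Real.add_one_le_exp (-(β {0}ᶜ).toReal)
    linarith
  have h1 : β {0} * G 0 + β {0} * ∫⁻ x, G x ∂n ≤ ∫⁻ x, G x ∂(CP β) := by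
    rw [← CP_restrict_ne_zero h0 β, ← hn, lintegral_CP]
    refine le_trans ?_ (ENNReal.sum_le_tsum (Finset.range 2))
    rw [Finset.sum_range_succ, Finset.sum_range_one, lintegral_cpow_succ n 0 hG]
    have e0 : ∫⁻ x, G x ∂(cpow n 0) = G 0 := lintegral_dirac' 0 hG
    have e1 : ∀ a, ∫⁻ b, G (a + b) ∂(cpow n 0) = G a := by
      intro a
      have := lintegral_dirac' (0 : M) (hG.comp (measurable_const_add a))
      simpa [cpow] using this
    simp only [e0, e1, Nat.factorial_zero, Nat.factorial_one, Nat.cast_one, div_one]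
    gcongr
  have h2 : ∫⁻ x, G x ∂β = β {0} * G 0 + ∫⁻ x, G x ∂n := by
    rw [← lintegral_add_compl G h0, Measure.restrict_singleton, lintegral_smul_measure,
      lintegral_dirac' 0 hG, smul_eq_mul]
  calc ∫⁻ x, G x ∂β = β {0} * G 0 + (β {0} + β {0}ᶜ) * ∫⁻ x, G x ∂n := by
        rw [hrq, one_mul, h2]
    _ = β {0} * G 0 + β {0} * ∫⁻ x, G x ∂n + β {0}ᶜ * ∫⁻ x, G x ∂n := by ring
    _ ≤ ∫⁻ x, G x ∂(CP β) + β {0}ᶜ * β {0}ᶜ := by gcongr
    _ = _ := by rw [sq]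

theorem cpb_one (h0 : MeasurableSet ({0} : Set M)) (β : Measure M) [IsProbabilityMeasure β]
    {F : M → ℝ≥0∞} (hF : Measurable F) (hF1 : ∀ x, F x ≤ 1) :
    ∫⁻ x, F x ∂(CP β) ≤ ∫⁻ x, F x ∂β + (β {0}ᶜ) ^ 2 := by
  have := isProbabilityMeasure_CP β
  have h1 := cpb_compl (CP β) hF hF1
  have h2 := cpb_compl β hF hF1
  have h3 := cpb_lower h0 β (G := fun x => 1 - F x) (measurable_const.sub hF)
    (fun x => tsub_le_self)
  have h4 : ∫⁻ x, (1 - F x) ∂(CP β) ≠ ⊤ :=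
    ne_top_of_le_ne_top ENNReal.one_ne_top (le_add_self.trans h1.le)
  refine (ENNReal.add_le_add_iff_right h4).1 ?_
  calc ∫⁻ x, F x ∂(CP β) + ∫⁻ x, (1 - F x) ∂(CP β)
      = ∫⁻ x, F x ∂β + ∫⁻ x, (1 - F x) ∂β := by rw [h1, h2]
    _ ≤ ∫⁻ x, F x ∂β + (∫⁻ x, (1 - F x) ∂(CP β) + (β {0}ᶜ) ^ 2) := by gcongr
    _ = _ := by ring

/-- Le Cam inequality -/
theorem lecam (h0 : MeasurableSet ({0} : Set M)) (β : Measure M) [IsProbabilityMeasure β]
    (N : ℕ) {F : M → ℝ≥0∞} (hF : Measurable F) (hF1 : ∀ x, F x ≤ 1) :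
    ∫⁻ x, F x ∂(CP ((N : ℝ≥0∞) • β)) ≤ ∫⁻ x, F x ∂(cpow β N) + N * (β {0}ᶜ) ^ 2 := by
  have := isProbabilityMeasure_CP β
  rw [CP_nsmul]
  exact cpow_close (CP β) β (fun G hG hG1 => cpb_one h0 β hG hG1) N hF hF1

end Pool.Agent.Lib.MP_fe8b6f_pr
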