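import Pool.Agent.Lib.MP_fe8b6f_pr.CPa

/-! Compound Poisson laws: total variation estimates. Part 1. -/

open MeasureTheory ProbabilityTheory
open scoped NNReal ENNReal

noncomputable section

namespace Pool.Agent.Lib.MP_fe8b6f_pr

variable {d : ℕ}

variable {M : Type} [AddCommMonoid M] [MeasurableSpace M] [MeasurableAdd₂ M]



omit [MeasurableAdd₂ M] in
theorem cpb1_lower (r : Measure M) [IsFiniteMeasure r] {G : M → ℝ≥0∞} (hG : Measurable G)
    (hG1 : ∀ x, G x ≤ 1) : G 0 ≤ ∫⁻ x, G x ∂(CP r) + r Set.univ := by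
  set e : ℝ≥0∞ := ENNReal.ofReal (Real.exp (-(r Set.univ).toReal)) with he
  have h1 : e * G 0 ≤ ∫⁻ x, G x ∂(CP r) := by
    rw [CP, lintegral_sum_measure]
    refine le_trans (le_of_eq ?_) (ENNReal.le_tsum 0)
    simp [cpow, lintegral_dirac' _ hG, he]
  have h2 : 1 ≤ e + r Set.univ := by
    rw [he, ← ENNReal.ofReal_toReal (measure_ne_top r Set.univ),
      ← ENNReal.ofReal_add (Real.exp_pos _).le ENNReal.toReal_nonneg, ENNReal.one_le_ofReal,
      ENNReal.toReal_ofReal ENNReal.toReal_nonneg]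
    linarith [Real.add_one_le_exp (-(r Set.univ).toReal)]
  calc G 0 = 1 * G 0 := (one_mul _).symm
    _ ≤ (e + r Set.univ) * G 0 := by gcongr
    _ = e * G 0 + r Set.univ * G 0 := add_mul _ _ _
    _ ≤ ∫⁻ x, G x ∂(CP r) + r Set.univ := add_le_add h1 (mul_le_of_le_one_right' (hG1 0))

theorem cpb1_upper (r : Measure M) [IsFiniteMeasure r] {G : M → ℝ≥0∞} (hG : Measurable G)
    (hG1 : ∀ x, G x ≤ 1) : ∫⁻ x, G x ∂(CP r) ≤ G 0 + r Set.univ := by
  have := isProbabilityMeasure_CP r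
  have hI : ∫⁻ x, G x ∂(CP r) ≤ 1 := by
    refine (lintegral_mono hG1).trans ?_
    simp
  have h1 := cpb1_lower r (G := fun x => 1 - G x) (measurable_const.sub hG) (fun x => tsub_le_self)
  rw [lintegral_sub hG (ne_top_of_le_ne_top ENNReal.one_ne_top hI)
    (Filter.Eventually.of_forall hG1), lintegral_const, measure_univ, mul_one] at h1
  have hne : 1 - ∫⁻ x, G x ∂(CP r) ≠ ⊤ := ne_top_of_le_ne_top ENNReal.one_ne_top tsub_le_self
  refine (ENNReal.add_le_add_iff_right hne).1 ?_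
  calc ∫⁻ x, G x ∂(CP r) + (1 - ∫⁻ x, G x ∂(CP r)) = 1 := add_tsub_cancel_of_le hI
    _ = G 0 + (1 - G 0) := (add_tsub_cancel_of_le (hG1 0)).symm
    _ ≤ G 0 + (1 - ∫⁻ x, G x ∂(CP r) + r Set.univ) := by gcongr
    _ = G 0 + r Set.univ + (1 - ∫⁻ x, G x ∂(CP r)) := by ring

theorem cpb1_lintegral_add (c r : Measure M) [IsFiniteMeasure c] [IsFiniteMeasure r]
    {F : M → ℝ≥0∞} (hF : Measurable F) :
    ∫⁻ x, F x ∂(CP (c + r)) = ∫⁻ x, ∫⁻ y, F (x + y) ∂(CP r) ∂(CP c) := by
  have := isProbabilityMeasure_CP r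
  rw [CP_add, Measure.lintegral_conv hF]

theorem cpb1_add_le (c r : Measure M) [IsFiniteMeasure c] [IsFiniteMeasure r]
    {F : M → ℝ≥0∞} (hF : Measurable F) (hF1 : ∀ x, F x ≤ 1) :
    ∫⁻ x, F x ∂(CP (c + r)) ≤ ∫⁻ x, F x ∂(CP c) + r Set.univ := by
  have := isProbabilityMeasure_CP c
  rw [cpb1_lintegral_add c r hF]
  calc ∫⁻ x, ∫⁻ y, F (x + y) ∂(CP r) ∂(CP c) ≤ ∫⁻ x, (F x + r Set.univ) ∂(CP c) := by
        refine lintegral_mono fun x => ?_
        have h1 := cpb1_upper r (G := fun y => F (x + y)) (hF.comp (measurable_const_add x))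
          (fun y => hF1 _)
        simpa using h1
    _ = _ := by
        rw [lintegral_add_right _ measurable_const, lintegral_const, measure_univ (μ := CP c),
          mul_one]

theorem cpb1_le_add (c r : Measure M) [IsFiniteMeasure c] [IsFiniteMeasure r]
    {F : M → ℝ≥0∞} (hF : Measurable F) (hF1 : ∀ x, F x ≤ 1) :
    ∫⁻ x, F x ∂(CP c) ≤ ∫⁻ x, F x ∂(CP (c + r)) + r Set.univ := by
  have := isProbabilityMeasure_CP c
  rw [cpb1_lintegral_add c r hF]
  calc ∫⁻ x, F x ∂(CP c) ≤ ∫⁻ x, (∫⁻ y, F (x + y) ∂(CP r) + r Set.univ) ∂(CP c) := by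
        refine lintegral_mono fun x => ?_
        have h1 := cpb1_lower r (G := fun y => F (x + y)) (hF.comp (measurable_const_add x))
          (fun y => hF1 _)
        simpa using h1
    _ = _ := by
        rw [lintegral_add_right _ measurable_const, lintegral_const, measure_univ (μ := CP c),
          mul_one]

theorem CP_ne_zero_le (h0 : MeasurableSet ({0} : Set M)) (n : Measure M) [IsFiniteMeasure n] :
    CP n {0}ᶜ ≤ n {0}ᶜ := by
  have h1 := cpb1_upper (n.restrict {0}ᶜ) (G := ({0}ᶜ : Set M).indicator 1)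
    (measurable_one.indicator h0.compl) (fun x => Set.indicator_le_self' (by simp) x)
  rw [CP_restrict_ne_zero h0, lintegral_indicator_one h0.compl, Measure.restrict_apply_univ] at h1
  simpa using h1

/-- continuity in the intensity (Hahn decomposition away from zero) -/
theorem CP_close (h0 : MeasurableSet ({0} : Set M)) (n n' : Measure M) [IsFiniteMeasure n]
    [IsFiniteMeasure n'] {ε : ℝ≥0∞}
    (h1 : ∀ A : Set M, MeasurableSet A → (0 : M) ∉ A → n A ≤ n' A + ε)
    (h2 : ∀ A : Set M, MeasurableSet A → (0 : M) ∉ A → n' A ≤ n A + ε)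
    {F : M → ℝ≥0∞} (hF : Measurable F) (hF1 : ∀ x, F x ≤ 1) :
    ∫⁻ x, F x ∂(CP n) ≤ ∫⁻ x, F x ∂(CP n') + 2 * ε := by
  rw [← CP_restrict_ne_zero h0 n, ← CP_restrict_ne_zero h0 n']
  set a := n.restrict {0}ᶜ with ha
  set b := n'.restrict {0}ᶜ with hb
  have hab : ∀ A : Set M, MeasurableSet A → a A ≤ b A + ε := by
    intro A hA
    rw [ha, hb, Measure.restrict_apply hA, Measure.restrict_apply hA]
    exact h1 _ (hA.inter h0.compl) (by simp)
  have hba : ∀ A : Set M, MeasurableSet A → b A ≤ a A + ε := by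
    intro A hA
    rw [ha, hb, Measure.restrict_apply hA, Measure.restrict_apply hA]
    exact h2 _ (hA.inter h0.compl) (by simp)
  obtain ⟨s, hs, hs1, hs2⟩ := hahn_decomposition a b
  have e1 : b.restrict s ≤ a.restrict s := by
    rw [Measure.le_iff]
    intro t ht
    rw [Measure.restrict_apply ht, Measure.restrict_apply ht]
    exact hs1 _ (ht.inter hs) Set.inter_subset_right
  have e2 : a.restrict sᶜ ≤ b.restrict sᶜ := by
    rw [Measure.le_iff]
    intro t ht
    rw [Measure.restrict_apply ht, Measure.restrict_apply ht]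
    exact hs2 _ (ht.inter hs.compl) Set.inter_subset_right
  have f1 : a = (b.restrict s + a.restrict sᶜ) + (a.restrict s - b.restrict s) := by
    rw [add_comm, ← add_assoc, Measure.sub_add_cancel_of_le e1,
      Measure.restrict_add_restrict_compl hs]
  have f2 : b = (b.restrict s + a.restrict sᶜ) + (b.restrict sᶜ - a.restrict sᶜ) := by
    rw [add_assoc, add_comm (a.restrict sᶜ), Measure.sub_add_cancel_of_le e2,
      Measure.restrict_add_restrict_compl hs]
  have g1 : (a.restrict s - b.restrict s) Set.univ ≤ ε := by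
    rw [Measure.sub_apply MeasurableSet.univ e1, Measure.restrict_apply_univ,
      Measure.restrict_apply_univ, tsub_le_iff_left]
    exact hab s hs
  have g2 : (b.restrict sᶜ - a.restrict sᶜ) Set.univ ≤ ε := by
    rw [Measure.sub_apply MeasurableSet.univ e2, Measure.restrict_apply_univ,
      Measure.restrict_apply_univ, tsub_le_iff_left]
    exact hba _ hs.compl
  have k1 := cpb1_add_le (b.restrict s + a.restrict sᶜ) (a.restrict s - b.restrict s) hF hF1
  have k2 := cpb1_le_add (b.restrict s + a.restrict sᶜ) (b.restrict sᶜ - a.restrict sᶜ) hF hF1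
  rw [← f1] at k1
  rw [← f2] at k2
  calc ∫⁻ x, F x ∂(CP a) ≤ ∫⁻ x, F x ∂(CP (b.restrict s + a.restrict sᶜ)) + ε :=
        k1.trans (by gcongr)
    _ ≤ ∫⁻ x, F x ∂(CP b) + ε + ε := by
        gcongr
        exact k2.trans (by gcongr)
    _ = _ := by rw [two_mul, add_assoc]

theorem CP_eq_of_close (h0 : MeasurableSet ({0} : Set M)) (n n' : Measure M) [IsFiniteMeasure n]
    [IsFiniteMeasure n'] (h : ∀ A : Set M, MeasurableSet A → (0 : M) ∉ A → n A = n' A) :
    CP n = CP n' := by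
  rw [← CP_restrict_ne_zero h0 n, ← CP_restrict_ne_zero h0 n']
  congr 1
  ext A hA
  rw [Measure.restrict_apply hA, Measure.restrict_apply hA]
  exact h _ (hA.inter h0.compl) (by simp)

theorem cpb1_map_ne {M' : Type} [AddCommMonoid M'] [MeasurableSpace M'] [MeasurableAdd₂ M']
    (h0 : MeasurableSet ({0} : Set M')) {φ : M → M'} (hφ : Measurable φ) (hφ0 : φ 0 = 0)
    (hφa : ∀ a b, φ (a + b) = φ a + φ b) (n : Measure M) [IsFiniteMeasure n] :
    CP n {x | φ x ≠ 0} ≤ n {x | φ x ≠ 0} := by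
  have h1 := CP_ne_zero_le h0 (n.map φ)
  rw [← CP_map hφ hφ0 hφa, Measure.map_apply hφ h0.compl, Measure.map_apply hφ h0.compl] at h1
  exact h1

/-- approximate independence -/
theorem CP_indep {M' : Type} [AddCommMonoid M'] [MeasurableSpace M'] [MeasurableAdd₂ M']
    (h0 : MeasurableSet ({0} : Set M')) {φ ψ : M → M'} (hφ : Measurable φ) (hψ : Measurable ψ)
    (hφ0 : φ 0 = 0) (hψ0 : ψ 0 = 0) (hφa : ∀ a b, φ (a + b) = φ a + φ b)
    (hψa : ∀ a b, ψ (a + b) = ψ a + ψ b) (n : Measure M) [IsFiniteMeasure n]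
    {F H : M' → ℝ≥0∞} (hF : Measurable F) (hH : Measurable H) (hF1 : ∀ x, F x ≤ 1)
    (hH1 : ∀ x, H x ≤ 1) :
    ∫⁻ x, F (φ x) * H (ψ x) ∂(CP n) ≤
      (∫⁻ x, F (φ x) ∂(CP n)) * (∫⁻ x, H (ψ x) ∂(CP n)) + 2 * n {x | φ x ≠ 0 ∧ ψ x ≠ 0} := by
  have hA : MeasurableSet {x | φ x ≠ 0} := hφ h0.compl
  have hB : MeasurableSet {x | ψ x ≠ 0} := hψ h0.compl
  set β := n {x | φ x ≠ 0 ∧ ψ x ≠ 0} with hβ
  set n₁ := n.restrict {x | φ x ≠ 0} with hn₁
  set n₂ := n.restrict {x | φ x ≠ 0}ᶜ with hn₂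
  have hn : n = n₁ + n₂ := (Measure.restrict_add_restrict_compl hA).symm
  have p1 := isProbabilityMeasure_CP n₁
  have p2 := isProbabilityMeasure_CP n₂
  have hae : ∀ᵐ y ∂(CP n₂), φ y = 0 := by
    rw [ae_iff]
    refine le_antisymm ((cpb1_map_ne h0 hφ hφ0 hφa n₂).trans (le_of_eq ?_)) zero_le
    rw [hn₂, Measure.restrict_apply hA, Set.inter_compl_self, measure_empty]
  have hβ1 : CP n₁ {x | ψ x ≠ 0} ≤ β := by
    refine (cpb1_map_ne h0 hψ hψ0 hψa n₁).trans (le_of_eq ?_)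
    rw [hn₁, Measure.restrict_apply hB, Set.inter_comm]
    rfl
  set b := ∫⁻ y, H (ψ y) ∂(CP n₂) with hb
  have hle1 : ∀ x, ∫⁻ y, H (ψ (x + y)) ∂(CP n₂) ≤ 1 := by
    intro x
    refine (lintegral_mono fun y => hH1 _).trans ?_
    simp
  have hb1 : b ≤ 1 := by simpa using hle1 0
  have hind : ∫⁻ x, ({x | ψ x ≠ 0} : Set M).indicator 1 x ∂(CP n₁) ≤ β := by
    rwa [lintegral_indicator_one hB]
  have hmi : Measurable (({x | ψ x ≠ 0} : Set M).indicator (1 : M → ℝ≥0∞)) :=
    measurable_one.indicator hB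
  have e1 : ∫⁻ x, F (φ x) ∂(CP n) = ∫⁻ x, F (φ x) ∂(CP n₁) := by
    conv_lhs => rw [hn]
    rw [cpb1_lintegral_add n₁ n₂ (F := fun x => F (φ x)) (hF.comp hφ)]
    refine lintegral_congr fun x => ?_
    rw [lintegral_congr_ae (g := fun _ => F (φ x))
      (hae.mono fun y hy => by simp only [hφa, hy, add_zero])]
    simp
  have e2 : b ≤ ∫⁻ x, H (ψ x) ∂(CP n) + β := by
    conv_rhs => rw [hn]
    rw [cpb1_lintegral_add n₁ n₂ (F := fun x => H (ψ x)) (hH.comp hψ)]
    calc b = ∫⁻ _, b ∂(CP n₁) := by simp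
      _ ≤ ∫⁻ x, (∫⁻ y, H (ψ (x + y)) ∂(CP n₂) + ({x | ψ x ≠ 0} : Set M).indicator 1 x)
          ∂(CP n₁) := by
        refine lintegral_mono fun x => ?_
        by_cases hx : ψ x = 0
        · simp only [hψa, hx, zero_add]
          exact le_self_add
        · rw [Set.indicator_of_mem (show x ∈ {x | ψ x ≠ 0} from hx)]
          exact hb1.trans le_add_self
      _ ≤ _ := by
        rw [lintegral_add_right _ hmi]
        gcongr
  have e3 : ∫⁻ x, F (φ x) * H (ψ x) ∂(CP n) ≤ (∫⁻ x, F (φ x) ∂(CP n₁)) * b + β := by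
    conv_lhs => rw [hn]
    rw [cpb1_lintegral_add n₁ n₂ (F := fun x => F (φ x) * H (ψ x))
      ((hF.comp hφ).mul (hH.comp hψ))]
    calc ∫⁻ x, ∫⁻ y, F (φ (x + y)) * H (ψ (x + y)) ∂(CP n₂) ∂(CP n₁)
        ≤ ∫⁻ x, (F (φ x) * b + ({x | ψ x ≠ 0} : Set M).indicator 1 x) ∂(CP n₁) := by
          refine lintegral_mono fun x => ?_
          by_cases hx : ψ x = 0
          · refine le_trans (le_of_eq ?_) le_self_add
            rw [hb, ← lintegral_const_mul (F (φ x)) (f := fun y => H (ψ y)) (hH.comp hψ)]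
            exact lintegral_congr_ae
              (hae.mono fun y hy => by simp only [hφa, hψa, hx, hy, add_zero, zero_add])
          · rw [Set.indicator_of_mem (show x ∈ {x | ψ x ≠ 0} from hx)]
            refine le_trans ?_ le_add_self
            refine (lintegral_mono fun y => mul_le_one' (hF1 _) (hH1 _)).trans ?_
            simp
      _ ≤ _ := by
          rw [lintegral_add_right _ hmi,
            lintegral_mul_const b (f := fun x => F (φ x)) (hF.comp hφ)]
          gcongr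
  have ha1 : ∫⁻ x, F (φ x) ∂(CP n₁) ≤ 1 := by
    refine (lintegral_mono fun y => hF1 _).trans ?_
    simp
  rw [e1]
  calc ∫⁻ x, F (φ x) * H (ψ x) ∂(CP n)
      ≤ (∫⁻ x, F (φ x) ∂(CP n₁)) * (∫⁻ x, H (ψ x) ∂(CP n) + β) + β := e3.trans (by gcongr)
    _ ≤ (∫⁻ x, F (φ x) ∂(CP n₁)) * (∫⁻ x, H (ψ x) ∂(CP n)) + β + β := by
        rw [mul_add]
        gcongr
        exact mul_le_of_le_one_left' ha1
    _ = _ := by rw [two_mul, add_assoc]

end Pool.Agent.Lib.MP_fe8b6f_pr
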