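import Pool.Agent.Lib.MP_fe8b6f_pr.CPa

/-! Compound Poisson laws: centred moments of additive functionals. -/

open MeasureTheory ProbabilityTheory
open scoped NNReal ENNReal

noncomputable section

namespace Pool.Agent.Lib.MP_fe8b6f_pr

variable {d : ℕ}

variable {M : Type} [AddCommMonoid M] [MeasurableSpace M] [MeasurableAdd₂ M]


/-- exponential of `s * y`, with the value `c` at infinity -/
def cpc_chi (c : ℝ≥0∞) (s : ℝ) (y : ℝ≥0∞) : ℝ≥0∞ :=
  if y = ⊤ then c else ENNReal.ofReal (Real.exp (s * y.toReal))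

theorem cpc_chi_measurable (c : ℝ≥0∞) (s : ℝ) : Measurable (cpc_chi c s) := by
  unfold cpc_chi
  refine Measurable.ite (measurableSet_singleton ⊤) measurable_const ?_
  fun_prop

theorem cpc_chi_zero (c : ℝ≥0∞) (s : ℝ) : cpc_chi c s 0 = 1 := by
  simp [cpc_chi]

theorem cpc_chi_add {c : ℝ≥0∞} (hc : c = 0 ∨ c = ⊤) (s : ℝ) (y z : ℝ≥0∞) :
    cpc_chi c s (y + z) = cpc_chi c s y * cpc_chi c s z := by
  have h0 : ∀ t : ℝ, ENNReal.ofReal (Real.exp t) ≠ 0 := fun t => by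
    simpa using Real.exp_pos t
  unfold cpc_chi
  by_cases hy : y = ⊤
  · by_cases hz : z = ⊤
    · rcases hc with rfl | rfl <;> simp [hy, hz]
    · rcases hc with rfl | rfl
      · simp [hy, hz]
      · simp only [hy, hz, top_add, if_true, if_false]
        rw [ENNReal.top_mul (h0 _)]
  · by_cases hz : z = ⊤
    · rcases hc with rfl | rfl
      · simp [hy, hz]
      · simp only [hy, hz, add_top, if_true, if_false]
        rw [ENNReal.mul_top (h0 _)]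
    · rw [if_neg (ENNReal.add_ne_top.2 ⟨hy, hz⟩), if_neg hy, if_neg hz, ENNReal.toReal_add hy hz,
        mul_add, Real.exp_add, ENNReal.ofReal_mul (Real.exp_pos _).le]

theorem cpc_chi_le_tsum {θ : ℝ} (hθ : 0 < θ) (y : ℝ≥0∞) :
    cpc_chi ⊤ θ y ≤ ∑' k : ℕ, ENNReal.ofReal (θ ^ k / (Nat.factorial k : ℝ)) * y ^ k := by
  unfold cpc_chi
  by_cases hy : y = ⊤
  · refine le_trans ?_ (ENNReal.le_tsum 1)
    rw [if_pos hy, hy, pow_one, pow_one, ENNReal.mul_top (by simpa using hθ)]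
  · rw [if_neg hy]
    have h1 : HasSum (fun k : ℕ => (θ * y.toReal) ^ k / (Nat.factorial k : ℝ))
        (Real.exp (θ * y.toReal)) := by
      rw [Real.exp_eq_exp_ℝ]
      exact NormedSpace.expSeries_div_hasSum_exp _
    rw [← h1.tsum_eq, ENNReal.ofReal_tsum_of_nonneg (fun k => by positivity) h1.summable]
    refine le_of_eq (tsum_congr fun k => ?_)
    conv_rhs => rw [← ENNReal.ofReal_toReal hy, ← ENNReal.ofReal_pow ENNReal.toReal_nonneg,
      ← ENNReal.ofReal_mul (by positivity)]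
    congr 1
    rw [mul_pow]
    ring

theorem cpc_exp_neg_le {u : ℝ} (hu : 0 ≤ u) : Real.exp (-u) + u ≤ 1 + u ^ 2 := by
  have h1 : 1 + u ≤ Real.exp u := by linarith [Real.add_one_le_exp u]
  have h2 : Real.exp (-u) * Real.exp u = 1 := by rw [← Real.exp_add]; simp
  have h3 : Real.exp (-u) * (1 + u) ≤ 1 :=
    (mul_le_mul_of_nonneg_left h1 (Real.exp_pos _).le).trans h2.le
  have h4 : Real.exp (-u) * (1 + u) ≤ (1 + u ^ 2 - u) * (1 + u) := by
    have : 0 ≤ u ^ 3 := by positivity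
    nlinarith
  have := le_of_mul_le_mul_right h4 (by linarith)
  linarith

theorem cpc_chi_neg_le {θ : ℝ} (hθ : 0 < θ) (y : ℝ≥0∞) :
    cpc_chi 0 (-θ) y + ENNReal.ofReal θ * y ≤ 1 + ENNReal.ofReal (θ ^ 2) * y ^ 2 := by
  unfold cpc_chi
  by_cases hy : y = ⊤
  · rw [hy, ENNReal.top_pow two_ne_zero,
      ENNReal.mul_top (a := ENNReal.ofReal (θ ^ 2)) (by simpa using hθ.ne'), add_top]
    exact le_top
  · rw [if_neg hy]
    have h0 : 0 ≤ y.toReal := ENNReal.toReal_nonneg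
    have h1 := cpc_exp_neg_le (mul_nonneg hθ.le h0)
    conv_lhs => rw [← ENNReal.ofReal_toReal hy, ENNReal.toReal_ofReal h0,
      ← ENNReal.ofReal_mul hθ.le, ← ENNReal.ofReal_add (Real.exp_pos _).le (by positivity)]
    conv_rhs => rw [← ENNReal.ofReal_toReal hy, ← ENNReal.ofReal_pow h0,
      ← ENNReal.ofReal_mul (by positivity), ← ENNReal.ofReal_one,
      ← ENNReal.ofReal_add zero_le_one (by positivity)]
    refine ENNReal.ofReal_le_ofReal ?_
    rw [neg_mul, ← mul_pow]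
    exact h1

theorem cpc_rpow_le {q : ℝ} (hq : 1 ≤ q) {t : ℝ} (ht : 0 ≤ t) :
    t ^ q ≤ (1 + (Nat.factorial ⌈q⌉₊ : ℝ)) * Real.exp t := by
  have h1 : t ^ q ≤ 1 + t ^ ⌈q⌉₊ := by
    rcases le_total t 1 with h | h
    · have := Real.rpow_le_one ht h (by linarith : 0 ≤ q)
      have h2 : 0 ≤ t ^ ⌈q⌉₊ := by positivity
      linarith
    · have := Real.rpow_le_rpow_of_exponent_le h (Nat.le_ceil q)
      rw [Real.rpow_natCast] at this
      linarith
  have h2 := Real.pow_div_factorial_le_exp t ht ⌈q⌉₊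
  rw [div_le_iff₀ (by positivity)] at h2
  have h3 : 1 ≤ Real.exp t := Real.one_le_exp ht
  nlinarith

theorem cpc_abs_rpow_le {q : ℝ} (hq : 1 ≤ q) {b : ℝ} (hb : 0 < b) (z : ℝ) :
    |z| ^ q ≤ (1 + (Nat.factorial ⌈q⌉₊ : ℝ)) * b ^ q *
      (Real.exp (b⁻¹ * z) + Real.exp (-(b⁻¹ * z))) := by
  have h1 : |z| ^ q = b ^ q * |b⁻¹ * z| ^ q := by
    rw [← Real.mul_rpow hb.le (abs_nonneg _), abs_mul, abs_of_pos (inv_pos.2 hb), ← mul_assoc,
      mul_inv_cancel₀ hb.ne', one_mul]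
  have h2 := cpc_rpow_le hq (abs_nonneg (b⁻¹ * z))
  have h3 : Real.exp |b⁻¹ * z| ≤ Real.exp (b⁻¹ * z) + Real.exp (-(b⁻¹ * z)) := by
    rcases abs_choice (b⁻¹ * z) with h | h <;> rw [h]
    · linarith [Real.exp_pos (-(b⁻¹ * z))]
    · linarith [Real.exp_pos (b⁻¹ * z)]
  have h4 : 0 ≤ b ^ q := by positivity
  rw [h1]
  calc b ^ q * |b⁻¹ * z| ^ q
      ≤ b ^ q * ((1 + (Nat.factorial ⌈q⌉₊ : ℝ)) *
        (Real.exp (b⁻¹ * z) + Real.exp (-(b⁻¹ * z)))) := by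
        refine mul_le_mul_of_nonneg_left (h2.trans ?_) h4
        exact mul_le_mul_of_nonneg_left h3 (by positivity)
    _ = _ := by ring

section
variable {X : Type} [MeasurableSpace X] {n : Measure X} {Y : X → ℝ≥0∞} {V a θ : ℝ}

theorem cpc_int_pos (hY : Measurable Y) (hV : 0 < V) (ha : 0 < a) (hθ : 0 < θ)
    (h1 : θ * a ≤ 1 / 2) (h2 : θ ^ 2 * (V * a) ≤ 1 / 4)
    (hm : ∀ k : ℕ, ∫⁻ x, Y x ^ (k + 1) ∂n ≤
      ENNReal.ofReal ((Nat.factorial (k + 1) : ℝ) * V * a ^ k)) :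
    ∫⁻ x, cpc_chi ⊤ θ (Y x) ∂n ≤
      n Set.univ + (ENNReal.ofReal θ * ∫⁻ x, Y x ∂n + ENNReal.ofReal (1 / 2)) := by
  refine (lintegral_mono fun x => cpc_chi_le_tsum hθ (Y x)).trans ?_
  rw [lintegral_tsum fun k => (by fun_prop : Measurable fun x =>
    ENNReal.ofReal (θ ^ k / (Nat.factorial k : ℝ)) * Y x ^ k).aemeasurable]
  simp_rw [lintegral_const_mul _ (hY.pow_const _)]
  rw [tsum_eq_zero_add' ENNReal.summable, tsum_eq_zero_add' ENNReal.summable]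
  refine add_le_add (by simp) (add_le_add (by simp) ?_)
  have hs : HasSum (fun k : ℕ => (1 / 4 : ℝ) * (1 / 2) ^ k) (1 / 2) := by
    have := hasSum_geometric_two.mul_left (1 / 4 : ℝ)
    rwa [show (1 / 4 : ℝ) * 2 = 1 / 2 by norm_num] at this
  rw [← hs.tsum_eq, ENNReal.ofReal_tsum_of_nonneg (fun k => by positivity) hs.summable]
  refine ENNReal.tsum_le_tsum fun k => ?_
  refine (mul_le_mul_right (hm (k + 1)) _).trans ?_
  rw [← ENNReal.ofReal_mul (by positivity)]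
  refine ENNReal.ofReal_le_ofReal ?_
  have h3 : (0 : ℝ) < Nat.factorial (k + 1 + 1) := by positivity
  have h4 : θ ^ (k + 1 + 1) / (Nat.factorial (k + 1 + 1) : ℝ) *
      ((Nat.factorial (k + 1 + 1) : ℝ) * V * a ^ (k + 1)) = θ ^ 2 * (V * a) * (θ * a) ^ k := by
    field_simp
    ring
  rw [h4]
  exact mul_le_mul h2 (pow_le_pow_left₀ (by positivity) h1 k) (by positivity) (by norm_num)

theorem cpc_int_neg (hY : Measurable Y) (hθ : 0 < θ) (h2 : θ ^ 2 * (V * a) ≤ 1 / 4)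
    (hm : ∀ k : ℕ, ∫⁻ x, Y x ^ (k + 1) ∂n ≤
      ENNReal.ofReal ((Nat.factorial (k + 1) : ℝ) * V * a ^ k)) :
    ∫⁻ x, cpc_chi 0 (-θ) (Y x) ∂n + ENNReal.ofReal θ * ∫⁻ x, Y x ∂n ≤
      n Set.univ + ENNReal.ofReal (1 / 2) := by
  have hqm : Measurable fun x => cpc_chi 0 (-θ) (Y x) := (cpc_chi_measurable _ _).comp hY
  rw [← lintegral_const_mul _ hY, ← lintegral_add_left hqm]
  refine (lintegral_mono fun x => cpc_chi_neg_le hθ (Y x)).trans ?_
  rw [lintegral_add_left measurable_const, lintegral_const_mul _ (hY.pow_const _)]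
  refine add_le_add (by simp) ?_
  refine (mul_le_mul_right (hm 1) _).trans ?_
  rw [← ENNReal.ofReal_mul (by positivity)]
  refine ENNReal.ofReal_le_ofReal ?_
  norm_num [Nat.factorial]
  linarith

end

/-- centred moments through exponential moments -/
theorem CP_moment {q : ℝ} (hq : 1 ≤ q) :
    ∃ C : ℝ, ∀ (n : Measure M) (Y : M → ℝ≥0∞) (V a : ℝ), IsFiniteMeasure n → Measurable Y →
      Y 0 = 0 → (∀ x y, Y (x + y) = Y x + Y y) → 0 < V → 0 < a →
      (∀ k : ℕ, ∫⁻ x, Y x ^ (k + 1) ∂n ≤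
        ENNReal.ofReal ((Nat.factorial (k + 1) : ℝ) * V * a ^ k)) →
      ∫⁻ x, ENNReal.ofReal (|(Y x).toReal - (∫⁻ y, Y y ∂n).toReal| ^ q) ∂(CP n) ≤
        ENNReal.ofReal (C * ((V * a) ^ (q / 2) + a ^ q)) := by
  refine ⟨2 * ((1 + (Nat.factorial ⌈q⌉₊ : ℝ)) * 2 ^ q * Real.exp (1 / 2)), ?_⟩
  intro n Y V a hn hY hY0 hadd hV ha hm
  set b : ℝ := 2 * max a √(V * a) with hb
  have hb0 : 0 < b := by positivity
  have hθ : 0 < b⁻¹ := inv_pos.2 hb0
  have h1 : b⁻¹ * a ≤ 1 / 2 := by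
    rw [inv_mul_le_iff₀ hb0]
    linarith [le_max_left a √(V * a)]
  have h2 : b⁻¹ ^ 2 * (V * a) ≤ 1 / 4 := by
    rw [inv_pow, inv_mul_le_iff₀ (by positivity)]
    have h3 : √(V * a) ^ 2 = V * a := Real.sq_sqrt (by positivity)
    have h4 : √(V * a) ^ 2 ≤ (max a √(V * a)) ^ 2 :=
      pow_le_pow_left₀ (Real.sqrt_nonneg _) (le_max_right _ _) 2
    rw [hb]
    nlinarith
  have hfin : ∫⁻ x, Y x ∂n ≠ ⊤ := by
    have := hm 0
    simp only [zero_add, pow_one] at this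
    exact ne_top_of_le_ne_top ENNReal.ofReal_ne_top this
  set m : ℝ := (∫⁻ y, Y y ∂n).toReal with hmdef
  have hN : n Set.univ ≠ ⊤ := measure_ne_top _ _
  have hθm : ENNReal.ofReal b⁻¹ * ∫⁻ x, Y x ∂n ≠ ⊤ := ENNReal.mul_ne_top ENNReal.ofReal_ne_top hfin
  have hp := cpc_int_pos hY hV ha hθ h1 h2 hm
  have hq' := cpc_int_neg hY hθ h2 hm
  have hpm : Measurable fun x => cpc_chi ⊤ b⁻¹ (Y x) := (cpc_chi_measurable _ _).comp hY
  have hqm : Measurable fun x => cpc_chi 0 (-b⁻¹) (Y x) := (cpc_chi_measurable _ _).comp hY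
  have hR1 : n Set.univ + (ENNReal.ofReal b⁻¹ * ∫⁻ x, Y x ∂n + ENNReal.ofReal (1 / 2)) ≠ ⊤ :=
    ENNReal.add_ne_top.2 ⟨hN, ENNReal.add_ne_top.2 ⟨hθm, ENNReal.ofReal_ne_top⟩⟩
  have hR2 : n Set.univ + ENNReal.ofReal (1 / 2) ≠ ⊤ :=
    ENNReal.add_ne_top.2 ⟨hN, ENNReal.ofReal_ne_top⟩
  have hpf : ∫⁻ x, cpc_chi ⊤ b⁻¹ (Y x) ∂n ≠ ⊤ := ne_top_of_le_ne_top hR1 hp
  have hqf : ∫⁻ x, cpc_chi 0 (-b⁻¹) (Y x) ∂n ≠ ⊤ :=
    ne_top_of_le_ne_top hR2 (le_self_add.trans hq')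
  have hE1 : ∫⁻ x, cpc_chi ⊤ b⁻¹ (Y x) ∂(CP n) ≤ ENNReal.ofReal (Real.exp (b⁻¹ * m + 1 / 2)) := by
    rw [lintegral_CP_mul hpm (by rw [hY0, cpc_chi_zero])
      (fun x y => by rw [hadd, cpc_chi_add (Or.inr rfl)]) n hpf]
    refine ENNReal.ofReal_le_ofReal (Real.exp_le_exp.2 ?_)
    have := ENNReal.toReal_mono hR1 hp
    rw [ENNReal.toReal_add hN (ENNReal.add_ne_top.2 ⟨hθm, ENNReal.ofReal_ne_top⟩),
      ENNReal.toReal_add hθm ENNReal.ofReal_ne_top, ENNReal.toReal_mul,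
      ENNReal.toReal_ofReal hθ.le, ENNReal.toReal_ofReal (by norm_num)] at this
    linarith
  have hE2 : ∫⁻ x, cpc_chi 0 (-b⁻¹) (Y x) ∂(CP n) ≤
      ENNReal.ofReal (Real.exp (-(b⁻¹ * m) + 1 / 2)) := by
    rw [lintegral_CP_mul hqm (by rw [hY0, cpc_chi_zero])
      (fun x y => by rw [hadd, cpc_chi_add (Or.inl rfl)]) n hqf]
    refine ENNReal.ofReal_le_ofReal (Real.exp_le_exp.2 ?_)
    have := ENNReal.toReal_mono hR2 hq'
    rw [ENNReal.toReal_add hqf hθm, ENNReal.toReal_add hN ENNReal.ofReal_ne_top,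
      ENNReal.toReal_mul, ENNReal.toReal_ofReal hθ.le,
      ENNReal.toReal_ofReal (by norm_num)] at this
    linarith
  set A : ℝ := (1 + (Nat.factorial ⌈q⌉₊ : ℝ)) * b ^ q with hA
  have hA0 : 0 < A := by positivity
  have hpt : ∀ x, ENNReal.ofReal (|(Y x).toReal - m| ^ q) ≤
      ENNReal.ofReal (A * Real.exp (-(b⁻¹ * m))) * cpc_chi ⊤ b⁻¹ (Y x) +
        ENNReal.ofReal (A * Real.exp (b⁻¹ * m)) * cpc_chi 0 (-b⁻¹) (Y x) := by
    intro x
    unfold cpc_chi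
    by_cases hx : Y x = ⊤
    · rw [if_pos hx, ENNReal.mul_top (ENNReal.ofReal_pos.2 (by positivity)).ne', top_add]
      exact le_top
    · rw [if_neg hx, if_neg hx, ← ENNReal.ofReal_mul (by positivity),
        ← ENNReal.ofReal_mul (by positivity), ← ENNReal.ofReal_add (by positivity) (by positivity)]
      refine ENNReal.ofReal_le_ofReal ((cpc_abs_rpow_le hq hb0 _).trans (le_of_eq ?_))
      rw [mul_assoc A, mul_assoc A, ← Real.exp_add, ← Real.exp_add, ← hA, mul_add]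
      congr 3 <;> ring
  refine (lintegral_mono hpt).trans ?_
  rw [lintegral_add_left (hpm.const_mul _), lintegral_const_mul _ hpm, lintegral_const_mul _ hqm]
  refine (add_le_add (mul_le_mul_right hE1 _) (mul_le_mul_right hE2 _)).trans ?_
  rw [← ENNReal.ofReal_mul (by positivity), ← ENNReal.ofReal_mul (by positivity),
    ← ENNReal.ofReal_add (by positivity) (by positivity)]
  refine ENNReal.ofReal_le_ofReal ?_
  rw [mul_assoc A, mul_assoc A, ← Real.exp_add, ← Real.exp_add,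
    show -(b⁻¹ * m) + (b⁻¹ * m + 1 / 2) = 1 / 2 by ring,
    show b⁻¹ * m + (-(b⁻¹ * m) + 1 / 2) = 1 / 2 by ring]
  have hbq : b ^ q ≤ 2 ^ q * ((V * a) ^ (q / 2) + a ^ q) := by
    rw [hb, Real.mul_rpow (by norm_num) (by positivity)]
    refine mul_le_mul_of_nonneg_left ?_ (by positivity)
    have h5 : 0 ≤ (V * a) ^ (q / 2) := by positivity
    have h6 : 0 ≤ a ^ q := by positivity
    rcases max_choice a √(V * a) with h | h <;> rw [h]
    · linarith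
    · rw [Real.sqrt_eq_rpow, ← Real.rpow_mul (by positivity), show 1 / 2 * q = q / 2 by ring]
      linarith
  have h7 : A ≤ (1 + (Nat.factorial ⌈q⌉₊ : ℝ)) * (2 ^ q * ((V * a) ^ (q / 2) + a ^ q)) :=
    mul_le_mul_of_nonneg_left hbq (by positivity)
  have h8 := mul_le_mul_of_nonneg_right h7 (Real.exp_pos (1 / 2)).le
  linarith

end Pool.Agent.Lib.MP_fe8b6f_pr
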