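import Pool.Agent.Lib.MP_fe8b6f_pr.ConcA1

/-! Consequences of the abstract properties: finiteness, symmetry, errors, good events. Part 2. -/

open MeasureTheory ProbabilityTheory
open scoped NNReal ENNReal

noncomputable section

namespace Pool.Agent.Lib.MP_fe8b6f_pr

variable {d : ℕ}

variable {P : ℝ → Measure (Measure (E d))}


theorem concA_meas_int {A : Set (E d)} (hA : MeasurableSet A) {f : E d → ℝ} (hf : Measurable f)
    (h0 : ∀ x, 0 ≤ f x) : Measurable fun μ : Measure (E d) => ∫ x in A, f x ∂μ := by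
  have h1 : (fun μ : Measure (E d) => ∫ x in A, f x ∂μ) =
      fun μ => (∫⁻ x in A, ENNReal.ofReal (f x) ∂μ).toReal :=
    funext fun μ => integral_eq_lintegral_of_nonneg_ae (ae_of_all _ h0) hf.aestronglyMeasurable
  rw [h1]
  exact ((Measure.measurable_lintegral hf.ennreal_ofReal).comp
    (measurable_restrict_measure hA)).ennreal_toReal

theorem concA_meas_Lay (L t : ℝ) : MeasurableSet (Lay L t : Set (E d)) :=
  measurableSet_Lay_fun L measurable_id measurable_const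

theorem concA_markov {X : Type*} [MeasurableSpace X] (Q : Measure X) {f : X → ℝ≥0∞}
    (hf : Measurable f) {a b c : ℝ} (ha : 0 < a) (hb : ∫⁻ x, f x ∂Q ≤ ENNReal.ofReal b)
    (hc : b ≤ c * a) : Q {x | ENNReal.ofReal a ≤ f x} ≤ ENNReal.ofReal c := by
  refine (meas_ge_le_lintegral_div hf.aemeasurable (ENNReal.ofReal_pos.2 ha).ne'
    ENNReal.ofReal_ne_top).trans ?_
  refine (ENNReal.div_le_div_right hb _).trans ?_
  rw [← ENNReal.ofReal_div_of_pos ha]
  exact ENNReal.ofReal_le_ofReal ((div_le_iff₀ ha).2 hc)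

theorem concA_pow1 (hd : 5 ≤ d) {L : ℝ} (hL : 1 ≤ L) :
    L ^ (((d : ℝ) + 2) / 2) ≤ L ^ (-(1 / 2 : ℝ)) * L ^ (d - 1) := by
  have hd' : (5 : ℝ) ≤ d := by exact_mod_cast hd
  rw [← Real.rpow_natCast, ← Real.rpow_add (by linarith), Nat.cast_sub (by omega)]
  refine Real.rpow_le_rpow_of_exponent_le hL ?_
  push_cast
  linarith

theorem concA_pow2 (hd : 5 ≤ d) {L : ℝ} (hL : 1 ≤ L) :
    L ^ (d - 1) ≤ L ^ (-(1 / 2 : ℝ)) * L ^ d := by
  rw [← Real.rpow_natCast, ← Real.rpow_natCast, ← Real.rpow_add (by linarith),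
    Nat.cast_sub (by omega)]
  refine Real.rpow_le_rpow_of_exponent_le hL ?_
  push_cast
  linarith

theorem measurableSet_Good {ι : Type} [Fintype ι] (K0 δ L : ℝ) {h : ι → E d → ℝ}
    (hh : ∀ r, Continuous (h r) ∧ ∀ x, 0 ≤ h r x ∧ h r x ≤ 1) :
    MeasurableSet {μ : Measure (E d) | Good K0 δ L h μ} := by
  have h1 : {μ : Measure (E d) | Good K0 δ L h μ} =
      (fun μ : Measure (E d) => μ (cube 0 L)) ⁻¹' {⊤}ᶜ ∩
        ({μ : Measure (E d) | μ (cube 0 L ∩ Lay L K0) ≤ ENNReal.ofReal (δ * L ^ d)} ∩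
          ⋂ r, {μ : Measure (E d) | |∫ x in cube 0 L, h r (L⁻¹ • x) ∂μ -
            ∫ x in cube 0 L, h r (L⁻¹ • x)| ≤ δ * L ^ (d - 1)}) := by
    ext μ
    simp [Good]
  rw [h1]
  refine (Measure.measurable_coe (measurableSet_cube 0 L)
    (measurableSet_singleton _).compl).inter (MeasurableSet.inter ?_
      (MeasurableSet.iInter fun r => ?_))
  · exact measurableSet_le (Measure.measurable_coe
      ((measurableSet_cube 0 L).inter (concA_meas_Lay L K0))) measurable_const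
  · refine measurableSet_le (Measurable.abs (Measurable.sub_const ?_ _)) measurable_const
    exact concA_meas_int (measurableSet_cube 0 L)
      ((hh r).1.measurable.comp (measurable_const_smul _)) fun x => ((hh r).2 _).1

theorem Fam.good_prob (hP : Fam P) (hd : 5 ≤ d) {ι : Type} [Fintype ι] {K0 δ : ℝ}
    (hK0 : 0 < K0) (hδ : 0 < δ) {h : ι → E d → ℝ}
    (hh : ∀ r, Continuous (h r) ∧ ∀ x, 0 ≤ h r x ∧ h r x ≤ 1) {ε : ℝ≥0∞} (hε : 0 < ε) :
    ∃ L0 : ℝ, ∀ L, L0 ≤ L →
      P L {μ | ¬ (Good K0 δ L h μ ∧ μ (cube 0 L) ≤ ENNReal.ofReal (2 * L ^ d))} ≤ ε := by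
  obtain ⟨C₂, hC₂⟩ := hP.mom 1 le_rfl
  obtain ⟨C₃, hC₃⟩ := hP.mass_dev
  set c₁ : ℝ := 4 * d * 3 ^ (d - 1) * K0 / δ with hc₁
  have hc₁0 : 0 ≤ c₁ := by positivity
  have ht : Filter.Tendsto (fun L : ℝ => ENNReal.ofReal
      ((c₁ + Fintype.card ι * (|C₂| / δ) + |C₃|) * L ^ (-(1 / 2 : ℝ)))) Filter.atTop
      (nhds 0) := by
    have := ENNReal.tendsto_ofReal ((tendsto_rpow_neg_atTop (y := 1 / 2) (by norm_num)).const_mul
      (c₁ + Fintype.card ι * (|C₂| / δ) + |C₃|))
    simpa using this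
  obtain ⟨L₁, hL₁⟩ := Filter.eventually_atTop.1 (ht.eventually (ge_mem_nhds hε))
  refine ⟨max L₁ (max 1 K0), fun L hL => le_trans ?_ (hL₁ L ((le_max_left _ _).trans hL))⟩
  have hL1 : 1 ≤ L := (le_max_left _ _).trans ((le_max_right _ _).trans hL)
  have hLK : K0 ≤ L := (le_max_right _ _).trans ((le_max_right _ _).trans hL)
  have hL0 : 0 < L := by linarith
  have hp1 := concA_pow1 hd hL1
  have hp2 := concA_pow2 hd hL1
  have hp3 : L ^ (d - 1) ≤ L ^ d := pow_le_pow_right₀ hL1 (Nat.sub_le _ _)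
  set w : ℝ := L ^ (-(1 / 2 : ℝ)) with hw
  have hw0 : 0 ≤ w := Real.rpow_nonneg hL0.le _
  have hA := (measurableSet_cube (0 : E d) L).inter (concA_meas_Lay L K0)
  have hB0 : P L {μ | μ (cube 0 L) = ⊤} = 0 := by
    have := ae_iff.1 (hP.ae_fin hL0)
    simpa using this
  have hB1 : P L {μ | ENNReal.ofReal (δ * L ^ d) ≤ μ (cube 0 L ∩ Lay L K0)} ≤
      ENNReal.ofReal (c₁ * w) := by
    refine concA_markov _ (Measure.measurable_coe hA) (by positivity)
      (b := 4 * d * 3 ^ (d - 1) * K0 * L ^ (d - 1)) ?_ ?_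
    · have h1 := hP.mean L hL0 ((Lay L K0).indicator 1)
        (measurable_one.indicator (concA_meas_Lay L K0))
      simp only [lintegral_indicator_one (concA_meas_Lay L K0),
        Measure.restrict_apply (concA_meas_Lay L K0), Set.inter_comm (Lay L K0)] at h1
      rw [h1]
      exact (measure_mono Set.inter_subset_right).trans (volume_Lay_le hK0.le hLK)
    · calc 4 * d * 3 ^ (d - 1) * K0 * L ^ (d - 1) ≤ 4 * d * 3 ^ (d - 1) * K0 * (w * L ^ d) :=
            mul_le_mul_of_nonneg_left hp2 (by positivity)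
        _ = c₁ * w * (δ * L ^ d) := by
            rw [hc₁]
            field_simp
  have hB2 : ∀ r, P L {μ | ENNReal.ofReal (δ * L ^ (d - 1)) ≤
      ENNReal.ofReal |∫ x in cube 0 L, h r (L⁻¹ • x) ∂μ - ∫ x in cube 0 L, h r (L⁻¹ • x)|} ≤
      ENNReal.ofReal (|C₂| / δ * w) := by
    intro r
    have hm : Measurable fun x : E d => h r (L⁻¹ • x) :=
      (hh r).1.measurable.comp (measurable_const_smul _)
    refine concA_markov _ (Measurable.ennreal_ofReal (Measurable.abs (Measurable.sub_const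
      (concA_meas_int (measurableSet_cube 0 L) hm fun x => ((hh r).2 _).1) _))) (by positivity)
      (b := C₂ * L ^ (((d : ℝ) + 2) / 2)) ?_ ?_
    · have h1 := hC₂ L hL1 _ hm (fun x => ((hh r).2 _).1) fun x => ((hh r).2 _).2
      simpa only [Real.rpow_one, one_mul] using h1
    · calc C₂ * L ^ (((d : ℝ) + 2) / 2) ≤ |C₂| * (w * L ^ (d - 1)) :=
            mul_le_mul (le_abs_self _) hp1 (by positivity) (abs_nonneg _)
        _ = |C₂| / δ * w * (δ * L ^ (d - 1)) := by field_simp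
  have hB3 : P L {μ | ENNReal.ofReal (L ^ d) ≤
      ENNReal.ofReal |(μ (cube 0 L)).toReal - L ^ d|} ≤ ENNReal.ofReal (|C₃| * w) := by
    refine concA_markov _ (Measurable.ennreal_ofReal (Measurable.abs (Measurable.sub_const
      (Measure.measurable_coe (measurableSet_cube 0 L)).ennreal_toReal _))) (by positivity)
      (hC₃ L hL1) ?_
    calc C₃ * L ^ (((d : ℝ) + 2) / 2) ≤ |C₃| * (w * L ^ d) :=
          mul_le_mul (le_abs_self _) (hp1.trans (mul_le_mul_of_nonneg_left hp3 hw0))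
            (by positivity) (abs_nonneg _)
      _ = |C₃| * w * L ^ d := by ring
  have hsub : {μ : Measure (E d) |
      ¬ (Good K0 δ L h μ ∧ μ (cube 0 L) ≤ ENNReal.ofReal (2 * L ^ d))} ⊆
      {μ | μ (cube 0 L) = ⊤} ∪ ({μ | ENNReal.ofReal (δ * L ^ d) ≤ μ (cube 0 L ∩ Lay L K0)} ∪
        (⋃ r, {μ | ENNReal.ofReal (δ * L ^ (d - 1)) ≤ ENNReal.ofReal
          |∫ x in cube 0 L, h r (L⁻¹ • x) ∂μ - ∫ x in cube 0 L, h r (L⁻¹ • x)|}) ∪
        {μ | ENNReal.ofReal (L ^ d) ≤ ENNReal.ofReal |(μ (cube 0 L)).toReal - L ^ d|}) := by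
    intro μ hμ
    by_contra hn
    simp only [Set.mem_union, Set.mem_iUnion, Set.mem_ofPred_eq, not_or, not_exists, not_le] at hn
    obtain ⟨h0, ⟨h1, h2⟩, h3⟩ := hn
    refine hμ ⟨⟨h0, h1.le, fun r => ?_⟩, ?_⟩
    · exact ((ENNReal.ofReal_lt_ofReal_iff (by positivity)).1 (h2 r)).le
    · have h4 := (ENNReal.ofReal_lt_ofReal_iff (by positivity)).1 h3
      rw [← ENNReal.ofReal_toReal h0]
      refine ENNReal.ofReal_le_ofReal ?_
      linarith [le_abs_self ((μ (cube 0 L)).toReal - L ^ d)]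
  refine (measure_mono hsub).trans ((measure_union_le _ _).trans ?_)
  rw [hB0, zero_add]
  refine (measure_union_le _ _).trans ((add_le_add ((measure_union_le _ _).trans
    (add_le_add hB1 ((measure_iUnion_fintype_le _ _).trans
      (Finset.sum_le_sum fun r _ => hB2 r)))) hB3).trans (le_of_eq ?_))
  rw [Finset.sum_const, Finset.card_univ, nsmul_eq_mul, ← ENNReal.ofReal_natCast,
    ← ENNReal.ofReal_mul (by positivity), ← ENNReal.ofReal_add (by positivity) (by positivity),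
    ← ENNReal.ofReal_add (by positivity) (by positivity)]
  congr 1
  ring

end Pool.Agent.Lib.MP_fe8b6f_pr
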