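import Pool.Agent.Lib.MP_fe8b6f_pr.FoldA

/-! The folding map and reflections. Part 2. -/

open MeasureTheory ProbabilityTheory
open scoped NNReal ENNReal

noncomputable section

namespace Pool.Agent.Lib.MP_fe8b6f_pr

variable {d : ℕ}

theorem fold_upd_same (x : E d) (i : Fin d) (t : ℝ) : upd x i t i = t := by
  simp [upd]

theorem fold_upd_ne (x : E d) {i j : Fin d} (t : ℝ) (h : j ≠ i) : upd x i t j = x j := by
  simp [upd, Function.update_of_ne h]

theorem fold_ext {x y : E d} (i : Fin d) (h1 : x i = y i) (h2 : ∀ j, j ≠ i → x j = y j) :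
    x = y := by
  ext j
  by_cases h : j = i
  · rw [h]; exact h1
  · exact h2 j h

theorem fold_norm_le {x y : E d} (h : ∀ j, |x j| ≤ |y j|) : ‖x‖ ≤ ‖y‖ := by
  rw [EuclideanSpace.norm_eq, EuclideanSpace.norm_eq]
  refine Real.sqrt_le_sqrt (Finset.sum_le_sum fun j _ => ?_)
  rw [Real.norm_eq_abs, Real.norm_eq_abs]
  exact pow_le_pow_left₀ (abs_nonneg _) (h j) 2

theorem fold_meas_coord (i : Fin d) : Measurable fun x : E d => x i :=
  (EuclideanSpace.proj (𝕜 := ℝ) i).continuous.measurable

theorem fold_hyper (i : Fin d) (t : ℝ) : volume {x : E d | x i = t} = 0 := by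
  have h := (PiLp.volume_preserving_ofLp (Fin d)).measure_preimage
    (s := {f : Fin d → ℝ | f i = t})
    (measurableSet_eq_fun (measurable_pi_apply i) measurable_const).nullMeasurableSet
  have h2 : volume {f : Fin d → ℝ | f i = t} = 0 :=
    Measure.pi_hyperplane (fun _ : Fin d => (volume : Measure ℝ)) i t
  rw [h2] at h
  exact h

/-- slab of a cube with prescribed range of the coordinate `i` -/
def foldS (a : E d) (s : ℝ) (i : Fin d) (J : Set ℝ) : Set (E d) :=
  {x | (∀ j, j ≠ i → a j ≤ x j ∧ x j < a j + s) ∧ x i ∈ J}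

theorem fold_measS (a : E d) (s : ℝ) (i : Fin d) {J : Set ℝ} (hJ : MeasurableSet J) :
    MeasurableSet (foldS a s i J) := by
  have h1 : foldS a s i J = (⋂ j, ⋂ (_ : j ≠ i), (fun x : E d => x j) ⁻¹' Set.Ico (a j) (a j + s)) ∩
      (fun x : E d => x i) ⁻¹' J := by
    ext x
    simp [foldS]
  rw [h1]
  exact (MeasurableSet.iInter fun j => MeasurableSet.iInter fun _ =>
    fold_meas_coord j measurableSet_Ico).inter (fold_meas_coord i hJ)

theorem fold_cube_eq {a b : E d} (s : ℝ) (i : Fin d) (h : ∀ j, j ≠ i → b j = a j) :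
    cube b s = foldS a s i (Set.Ico (b i) (b i + s)) := by
  ext x
  constructor
  · intro hx
    exact ⟨fun j hj => h j hj ▸ hx j, hx i⟩
  · intro hx j
    by_cases hj : j = i
    · rw [hj]; exact hx.2
    · rw [h j hj]; exact hx.1 j hj

theorem fold_split (μ : Measure (E d)) (a : E d) (s : ℝ) (i : Fin d) {u v w : ℝ} (h1 : u ≤ v)
    (h2 : v ≤ w) : μ.restrict (foldS a s i (Set.Ico u w)) =
      μ.restrict (foldS a s i (Set.Ico u v)) + μ.restrict (foldS a s i (Set.Ico v w)) := by
  rw [← Measure.restrict_union _ (fold_measS a s i measurableSet_Ico)]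
  · congr 1
    ext x
    rw [← Set.Ico_union_Ico_eq_Ico h1 h2]
    simp only [foldS, Set.mem_ofPred_eq, Set.mem_union, and_or_left]
  · rw [Set.disjoint_left]
    intro x hx hy
    exact absurd hx.2.2 (not_lt.2 hy.2.1)

theorem fold_Ioc_Ico {μ : Measure (E d)} (a : E d) (s : ℝ) (i : Fin d) {u v : ℝ}
    (hu : μ {x | x i = u} = 0) (hv : μ {x | x i = v} = 0) :
    μ.restrict (foldS a s i (Set.Ioc u v)) = μ.restrict (foldS a s i (Set.Ico u v)) := by
  refine Measure.restrict_congr_set ?_
  have h1 : ∀ᵐ x ∂μ, x i ≠ u := by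
    rw [ae_iff]; simpa using hu
  have h2 : ∀ᵐ x ∂μ, x i ≠ v := by
    rw [ae_iff]; simpa using hv
  filter_upwards [h1, h2] with x h3 h4
  refine propext ⟨fun h => ⟨h.1, h.2.1.le, lt_of_le_of_ne h.2.2 h4⟩,
    fun h => ⟨h.1, lt_of_le_of_ne h.2.1 h3.symm, h.2.2.le⟩⟩

theorem fold_refl_same (i : Fin d) (L : ℝ) (x : E d) : refl i L x i = L - x i :=
  fold_upd_same _ _ _

theorem fold_refl_ne {i j : Fin d} (L : ℝ) (x : E d) (h : j ≠ i) : refl i L x j = x j :=
  fold_upd_ne _ _ h

theorem fold_refl_refl (i : Fin d) (L : ℝ) (x : E d) : refl i L (refl i L x) = x := by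
  refine fold_ext i ?_ fun j hj => ?_
  · rw [fold_refl_same, fold_refl_same]; ring
  · rw [fold_refl_ne _ _ hj, fold_refl_ne _ _ hj]

theorem fold_refl_preimage (a : E d) (s : ℝ) (i : Fin d) (L u v : ℝ) :
    refl i L ⁻¹' foldS a s i (Set.Ioc (L - v) (L - u)) = foldS a s i (Set.Ico u v) := by
  ext x
  simp only [foldS, Set.mem_preimage, Set.mem_ofPred_eq, fold_refl_same, Set.mem_Ioc, Set.mem_Ico]
  refine and_congr (forall_congr' fun j => forall_congr' fun hj => ?_) ?_
  · rw [fold_refl_ne _ _ hj]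
  · constructor <;> intro h <;> constructor <;> linarith [h.1, h.2]

theorem fold_map_refl (a : E d) (s : ℝ) (i : Fin d) (L u v : ℝ) :
    (volume.restrict (foldS a s i (Set.Ico u v))).map (refl i L) =
      volume.restrict (foldS a s i (Set.Ico (L - v) (L - u))) := by
  rw [← fold_refl_preimage a s i L u v,
    ← Measure.restrict_map (measurable_refl i L) (fold_measS a s i measurableSet_Ioc),
    map_refl_volume, fold_Ioc_Ico a s i (fold_hyper i _) (fold_hyper i _)]

/-- folding of one coordinate -/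
def foldT (i : Fin d) (s : ℝ) (y : E d) : E d := upd y i (s - |(|y i| - s)|)

theorem fold_measT (i : Fin d) (s : ℝ) : Measurable (foldT i s) := by
  have h1 : Continuous fun y : E d => Function.update y.ofLp i (s - |(|y i| - s)|) := by
    refine continuous_pi fun j => ?_
    by_cases hj : j = i
    · subst hj
      simp only [Function.update_self]
      fun_prop
    · simp only [Function.update_of_ne hj]
      fun_prop
  exact ((PiLp.continuous_toLp 2 _).comp h1).measurable

theorem fold_T_mid (a : E d) (s s' : ℝ) (i : Fin d) {u v : ℝ} (hu : 0 ≤ u) (hv : v ≤ s) :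
    (volume.restrict (foldS a s' i (Set.Ico u v))).map (foldT i s) =
      volume.restrict (foldS a s' i (Set.Ico u v)) := by
  have h : foldT i s =ᵐ[volume.restrict (foldS a s' i (Set.Ico u v))] id := by
    filter_upwards [ae_restrict_mem (fold_measS a s' i measurableSet_Ico)] with x hx
    refine fold_ext i ?_ fun j hj => fold_upd_ne _ _ hj
    have h1 := hx.2.1
    have h2 := hx.2.2
    rw [foldT, fold_upd_same, abs_of_nonneg (by linarith : 0 ≤ x i),
      abs_of_nonpos (by linarith), id]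
    ring
  rw [Measure.map_congr h, Measure.map_id]

theorem fold_T_low (a : E d) (s s' : ℝ) (i : Fin d) {u : ℝ} (hu : u ≤ s) :
    (volume.restrict (foldS a s' i (Set.Ico (-u) 0))).map (foldT i s) =
      volume.restrict (foldS a s' i (Set.Ico 0 u)) := by
  have h : foldT i s =ᵐ[volume.restrict (foldS a s' i (Set.Ico (-u) 0))] refl i 0 := by
    filter_upwards [ae_restrict_mem (fold_measS a s' i measurableSet_Ico)] with x hx
    refine fold_ext i ?_ fun j hj => ?_
    · have h1 := hx.2.1
      have h2 := hx.2.2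
      rw [foldT, fold_upd_same, fold_refl_same, abs_of_nonpos (by linarith : x i ≤ 0),
        abs_of_nonpos (by linarith)]
      ring
    · rw [foldT, fold_upd_ne _ _ hj, fold_refl_ne _ _ hj]
  rw [Measure.map_congr h, fold_map_refl]
  simp

theorem fold_T_high (a : E d) (s s' : ℝ) (i : Fin d) {u : ℝ} (hs : 0 ≤ s) :
    (volume.restrict (foldS a s' i (Set.Ico s (u + s)))).map (foldT i s) =
      volume.restrict (foldS a s' i (Set.Ico (s - u) s)) := by
  have h : foldT i s =ᵐ[volume.restrict (foldS a s' i (Set.Ico s (u + s)))] refl i (2 * s) := by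
    filter_upwards [ae_restrict_mem (fold_measS a s' i measurableSet_Ico)] with x hx
    refine fold_ext i ?_ fun j hj => ?_
    · have h1 := hx.2.1
      rw [foldT, fold_upd_same, fold_refl_same, abs_of_nonneg (by linarith : 0 ≤ x i),
        abs_of_nonneg (by linarith)]
      ring
    · rw [foldT, fold_upd_ne _ _ hj, fold_refl_ne _ _ hj]
  rw [Measure.map_congr h, fold_map_refl, show 2 * s - (u + s) = s - u by ring,
    show 2 * s - s = s by ring]

theorem fold_T_sum (a : E d) (s s' : ℝ) (i : Fin d) {u : ℝ} (hu : 0 ≤ u) (hus : u ≤ s) :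
    (volume.restrict (foldS a s' i (Set.Ico (-u) (-u + s)))).map (foldT i s) +
      (volume.restrict (foldS a s' i (Set.Ico u (u + s)))).map (foldT i s) =
      volume.restrict (foldS a s' i (Set.Ico 0 s)) +
        volume.restrict (foldS a s' i (Set.Ico 0 s)) := by
  rw [fold_split volume a s' i (by linarith : -u ≤ 0) (by linarith : 0 ≤ -u + s),
    fold_split volume a s' i hus (by linarith : s ≤ u + s),
    Measure.map_add _ _ (fold_measT i s), Measure.map_add _ _ (fold_measT i s),
    fold_T_low a s s' i hus, fold_T_mid a s s' i le_rfl (by linarith),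
    fold_T_mid a s s' i hu le_rfl, fold_T_high a s s' i (hu.trans hus)]
  nth_rewrite 1 [fold_split volume a s' i hu hus]
  rw [fold_split volume a s' i (by linarith : 0 ≤ s - u) (by linarith : s - u ≤ s),
    show -u + s = s - u by ring]
  abel

theorem fold_T_retract (i : Fin d) (s : ℝ) {x : E d} (hx : x ∈ cube (0 : E d) s) (y : E d) :
    ‖x - foldT i s y‖ ≤ ‖x - y‖ := by
  refine fold_norm_le fun j => ?_
  by_cases hj : j = i
  · subst hj
    have h1 := (hx j).1
    have h2 := (hx j).2
    simp only [PiLp.zero_apply, zero_add] at h1 h2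
    rw [PiLp.sub_apply, PiLp.sub_apply, foldT, fold_upd_same]
    have h3 : x j - (s - |(|y j| - s)|) = |(|y j| - s)| - |(|x j| - s)| := by
      rw [abs_of_nonneg h1, abs_of_nonpos (by linarith : x j - s ≤ 0)]
      ring
    rw [h3]
    refine (abs_abs_sub_abs_le_abs_sub _ _).trans ?_
    rw [sub_sub_sub_cancel_right, abs_sub_comm (x j)]
    exact abs_abs_sub_abs_le_abs_sub _ _
  · rw [PiLp.sub_apply, PiLp.sub_apply, foldT, fold_upd_ne _ _ hj]

theorem fold_half {p : ℝ} (μ ν ν1 ν2 : Measure (E d)) (h : ν1 + ν2 = ν + ν) :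
    2 * Wp p μ ν ≤ Wp p μ ν1 + Wp p μ ν2 := by
  have h2 : ∀ m : Measure (E d), (2⁻¹ : ℝ≥0∞) • (m + m) = m := by
    intro m
    rw [← two_smul ℝ≥0∞ m, smul_smul, ENNReal.inv_mul_cancel (by simp) (by simp), one_smul]
  have h3 : Wp p μ ν ≤ 2⁻¹ * (Wp p μ ν1 + Wp p μ ν2) := by
    calc Wp p μ ν = Wp p ((2⁻¹ : ℝ≥0∞) • (μ + μ)) ((2⁻¹ : ℝ≥0∞) • (ν1 + ν2)) := by
          rw [h, h2, h2]
      _ ≤ 2⁻¹ * Wp p (μ + μ) (ν1 + ν2) := Wc_smul_le _ (by simp) _ _
      _ ≤ _ := by
          gcongr
          exact Wc_add_le _ _ _ _ _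
  calc 2 * Wp p μ ν ≤ 2 * (2⁻¹ * (Wp p μ ν1 + Wp p μ ν2)) := by gcongr
    _ = _ := by rw [← mul_assoc, ENNReal.mul_inv_cancel (by simp) (by simp), one_mul]

/-- averaging two plans and folding one coordinate -/
theorem G_refl {p s : ℝ} (hp : 0 ≤ p) (hs : 0 < s) (ξ : E d) (i : Fin d) (hξ : |ξ i| ≤ s)
    {μ : Measure (E d)} (hμ : μ (cube 0 s) ≠ ⊤) :
    2 * G p s (upd ξ i 0) μ ≤ G p s ξ μ + G p s (upd ξ i (-ξ i)) μ := by
  have hS : (μ.restrict (cube 0 s)) (cube 0 s)ᶜ = 0 := by
    rw [Measure.restrict_apply (measurableSet_cube 0 s).compl]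
    simp
  have hr := fun ν => Wp_retract hp (fold_measT i s) hS
    (fun x hx y => fold_T_retract i s hx y) ν
  unfold G
  refine le_trans (fold_half _ _ _ _ ?_) (add_le_add (hr _) (hr _))
  rw [Measure.map_smul, Measure.map_smul, ← smul_add, ← smul_add]
  congr 1
  rw [fold_cube_eq (a := -ξ) (b := -ξ) s i fun _ _ => rfl,
    fold_cube_eq (a := -ξ) (b := -upd ξ i (-ξ i)) s i fun j hj => by
      rw [PiLp.neg_apply, PiLp.neg_apply, fold_upd_ne _ _ hj],
    fold_cube_eq (a := -ξ) (b := -upd ξ i 0) s i fun j hj => by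
      rw [PiLp.neg_apply, PiLp.neg_apply, fold_upd_ne _ _ hj]]
  simp only [PiLp.neg_apply, fold_upd_same, neg_neg, neg_zero, zero_add]
  rcases le_total 0 (ξ i) with h | h
  · exact fold_T_sum _ s s i h ((le_abs_self _).trans hξ)
  · have h1 := fold_T_sum (-ξ) s s i (neg_nonneg.2 h) ((neg_le_abs _).trans hξ)
    rw [neg_neg, add_comm] at h1
    exact h1

theorem fold_Wp_refl {p : ℝ} (hp : 0 ≤ p) (i : Fin d) (L : ℝ) (μ ν : Measure (E d)) :
    Wp p (μ.map (refl i L)) (ν.map (refl i L)) = Wp p μ ν := by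
  have h : ∀ μ ν : Measure (E d), Wp p (μ.map (refl i L)) (ν.map (refl i L)) ≤ Wp p μ ν := by
    intro μ ν
    have h1 := Wp_map_map hp (measurable_refl i L) (c := 1) one_ne_zero (fun x y => by
      rw [NNReal.coe_one, one_mul]
      refine fold_norm_le fun j => ?_
      by_cases hj : j = i
      · subst hj
        rw [PiLp.sub_apply, PiLp.sub_apply, fold_refl_same, fold_refl_same,
          sub_sub_sub_cancel_left, abs_sub_comm]
      · rw [PiLp.sub_apply, PiLp.sub_apply, fold_refl_ne _ _ hj, fold_refl_ne _ _ hj]) μ ν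
    simpa using h1
  have hi : ∀ m : Measure (E d), (m.map (refl i L)).map (refl i L) = m := by
    intro m
    rw [Measure.map_map (measurable_refl i L) (measurable_refl i L)]
    have h2 : refl i L ∘ refl i L = id := funext fun x => fold_refl_refl i L x
    rw [h2, Measure.map_id]
  refine le_antisymm (h μ ν) ?_
  have h3 := h (μ.map (refl i L)) (ν.map (refl i L))
  rwa [hi, hi] at h3

theorem Gf_reflM {p s : ℝ} (hp : 0 ≤ p) (hs : 0 < s) (ξ : E d) (i : Fin d) {μ : Measure (E d)}
    (h0 : μ {x | x i = 0} = 0) (h1 : μ {x | x i = s} = 0) :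
    Gf p s ξ (reflM i s μ) = Gf p s (upd ξ i (-ξ i)) μ := by
  have hQ : cube (0 : E d) s = foldS 0 s i (Set.Ico 0 s) := by
    rw [fold_cube_eq (a := 0) (b := 0) s i fun _ _ => rfl]
    simp
  have hP : refl i s ⁻¹' cube (0 : E d) s = foldS 0 s i (Set.Ioc 0 s) := by
    have h2 := fold_refl_preimage (0 : E d) s i s 0 s
    rw [sub_self, sub_zero] at h2
    rw [hQ, ← h2, ← Set.preimage_comp]
    have h3 : refl i s ∘ refl i s = id := funext fun x => fold_refl_refl i s x
    rw [h3, Set.preimage_id]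
  have hM : reflM i s μ = (μ.restrict (cube 0 s)).map (refl i s) := by
    rw [reflM, Measure.restrict_map (measurable_refl i s) (measurableSet_cube 0 s), hP,
      fold_Ioc_Ico 0 s i h0 h1, ← hQ]
  have hR : (reflM i s μ).restrict (cube 0 s) = (μ.restrict (cube 0 s)).map (refl i s) := by
    rw [← hM, reflM, Measure.restrict_restrict (measurableSet_cube 0 s), Set.inter_self]
  have hm : reflM i s μ (cube 0 s) = μ (cube 0 s) := by
    rw [← Measure.restrict_apply_univ, hR, Measure.map_apply (measurable_refl i s) MeasurableSet.univ,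
      Set.preimage_univ, Measure.restrict_apply_univ]
  have hV : volume.restrict (cube (-ξ) s) =
      (volume.restrict (cube (-upd ξ i (-ξ i)) s)).map (refl i s) := by
    rw [fold_cube_eq (a := -ξ) (b := -ξ) s i fun _ _ => rfl,
      fold_cube_eq (a := -ξ) (b := -upd ξ i (-ξ i)) s i fun j hj => by
        rw [PiLp.neg_apply, PiLp.neg_apply, fold_upd_ne _ _ hj], fold_map_refl]
    simp only [PiLp.neg_apply, fold_upd_same, neg_neg]
    rw [show s - (ξ i + s) = -ξ i by ring, show s - ξ i = -ξ i + s by ring]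
  unfold Gf G
  rw [hm, hR, hV, ← Measure.map_smul, fold_Wp_refl hp]

end Pool.Agent.Lib.MP_fe8b6f_pr
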