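import Pool.Agent.Lib.MP_fe8b6f_pr.GBas
import Pool.Agent.Lib.MP_fe8b6f_pr.Fold

/-! Consequences of the abstract properties: finiteness, symmetry, errors, good events. Part 1. -/

open MeasureTheory ProbabilityTheory
open scoped NNReal ENNReal

noncomputable section

namespace Pool.Agent.Lib.MP_fe8b6f_pr

variable {d : ℕ}

variable {P : ℝ → Measure (Measure (E d))}

theorem concA1_mass (hP : Fam P) {L : ℝ} (hL : 0 < L) :
    ∫⁻ μ, μ (cube 0 L) ∂(P L) = ENNReal.ofReal (L ^ d) := by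
  have h := hP.mean L hL (fun _ => 1) measurable_const
  simp only [lintegral_one, Measure.restrict_apply_univ] at h
  rw [h, volume_cube 0 hL.le]

theorem Fam.ae_fin (hP : Fam P) {L : ℝ} (hL : 0 < L) : ∀ᵐ μ ∂(P L), μ (cube 0 L) ≠ ⊤ := by
  have h := ae_lt_top (μ := P L) (Measure.measurable_coe (measurableSet_cube (0 : E d) L))
    (by rw [concA1_mass hP hL]; exact ENNReal.ofReal_ne_top)
  filter_upwards [h] with μ hμ using hμ.ne

theorem Fam.lintegral_Gf_ne_top (hP : Fam P) {p L : ℝ} (hp : 0 < p) (hL : 0 < L) (ξ : E d) :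
    ∫⁻ μ, Gf p L ξ μ ∂(P L) ≠ ⊤ := by
  have hle : ∀ μ : Measure (E d),
      Gf p L ξ μ ≤ ENNReal.ofReal (√d * L + ‖ξ‖) ^ p * μ (cube 0 L) := by
    intro μ
    unfold Gf
    split_ifs with h
    · exact zero_le
    · exact G_bound hp.le hL ξ h
  refine ne_top_of_le_ne_top ?_ (lintegral_mono hle)
  rw [lintegral_const_mul _ (Measure.measurable_coe (measurableSet_cube (0 : E d) L)),
    concA1_mass hP hL]
  exact ENNReal.mul_ne_top (ENNReal.rpow_ne_top_of_nonneg hp.le ENNReal.ofReal_ne_top)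
    ENNReal.ofReal_ne_top

theorem concA1_measurableSet_hyp (i : Fin d) (t : ℝ) : MeasurableSet {x : E d | x i = t} := by
  have : Measurable fun x : E d => x i := by fun_prop
  exact this (measurableSet_singleton t)

theorem concA1_volume_hyp (i : Fin d) (t : ℝ) : volume {x : E d | x i = t} = 0 := by
  have h1 : {x : E d | x i = t} = (WithLp.ofLp : E d → (Fin d → ℝ)) ⁻¹' {y | y i = t} := rfl
  have hm : MeasurableSet {y : Fin d → ℝ | y i = t} :=
    measurableSet_eq_fun (measurable_pi_apply i) measurable_const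
  rw [h1, (PiLp.volume_preserving_ofLp (Fin d)).measure_preimage hm.nullMeasurableSet]
  exact Measure.pi_hyperplane (fun _ : Fin d => (volume : Measure ℝ)) i t

theorem concA1_ae_hyp (hP : Fam P) {L : ℝ} (hL : 0 < L) (i : Fin d) (t : ℝ) :
    ∀ᵐ μ ∂(P L), (μ.restrict (cube 0 L)) {x : E d | x i = t} = 0 := by
  have hm := concA1_measurableSet_hyp i t
  have h := hP.mean L hL ({x : E d | x i = t}.indicator 1) (measurable_one.indicator hm)
  simp only [lintegral_indicator_one hm] at h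
  have h0 : (volume.restrict (cube (0 : E d) L)) {x : E d | x i = t} = 0 :=
    le_antisymm ((Measure.restrict_le_self _).trans (concA1_volume_hyp i t).le) zero_le
  rw [h0] at h
  have hmeas : Measurable fun μ : Measure (E d) => (μ.restrict (cube 0 L)) {x : E d | x i = t} :=
    (Measure.measurable_coe hm).comp (measurable_restrict_measure (measurableSet_cube 0 L))
  exact (lintegral_eq_zero_iff hmeas).1 h

theorem concA1_loc_zero (L : ℝ) (μ : Measure (E d)) : loc 0 L μ = μ.restrict (cube 0 L) := by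
  unfold loc
  rw [sh_zero_left]

theorem concA1_refl_int (hP : Fam P) {p L : ℝ} (hp : 0 < p) (hL : 0 < L) (ξ : E d) (i : Fin d) :
    ∫⁻ μ, Gf p L (upd ξ i (-ξ i)) μ ∂(P L) = ∫⁻ μ, Gf p L ξ μ ∂(P L) := by
  have hG := measurable_Gf hp hL ξ
  have hR := measurable_reflM (d := d) i L
  have h1 : ∫⁻ μ, Gf p L (upd ξ i (-ξ i)) μ ∂(P L) =
      ∫⁻ μ, Gf p L ξ (reflM i L (loc 0 L μ)) ∂(P L) := by
    refine lintegral_congr_ae ?_
    filter_upwards [concA1_ae_hyp hP hL i 0, concA1_ae_hyp hP hL i L] with μ h0 h1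
    rw [concA1_loc_zero, Gf_reflM hp.le hL ξ i h0 h1, Gf_restrict]
  have h2 : ∫⁻ μ, Gf p L ξ (reflM i L (loc 0 L μ)) ∂(P L) =
      ∫⁻ μ, Gf p L ξ (reflM i L μ) ∂((P L).map (loc 0 L)) :=
    (lintegral_map (f := fun μ => Gf p L ξ (reflM i L μ)) (hG.comp hR) (measurable_loc 0 L)).symm
  have h3 : ∫⁻ μ, Gf p L ξ (reflM i L μ) ∂(P L) = ∫⁻ μ, Gf p L ξ μ ∂((P L).map (reflM i L)) :=
    (lintegral_map hG hR).symm
  rw [h1, h2, hP.stat L L 0 hL hL subset_rfl, h3, hP.refl L i hL]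

theorem concA1_upd_le (hP : Fam P) {p L : ℝ} (hp : 0 < p) (hL : 0 < L) (ξ : E d) (i : Fin d)
    (hξ : |ξ i| ≤ L) :
    ∫⁻ μ, Gf p L (upd ξ i 0) μ ∂(P L) ≤ ∫⁻ μ, Gf p L ξ μ ∂(P L) := by
  have hle : ∀ μ : Measure (E d),
      2 * Gf p L (upd ξ i 0) μ ≤ Gf p L ξ μ + Gf p L (upd ξ i (-ξ i)) μ := by
    intro μ
    unfold Gf
    split_ifs with h
    · simp
    · exact G_refl hp.le hL ξ i hξ h
  have h := lintegral_mono (μ := P L) hle
  rw [lintegral_const_mul _ (measurable_Gf hp hL _), lintegral_add_left (measurable_Gf hp hL _),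
    concA1_refl_int hP hp hL, ← two_mul] at h
  exact (ENNReal.mul_le_mul_iff_right (by norm_num) (by norm_num)).1 h

theorem Fam.cL_zero_le (hP : Fam P) {p L : ℝ} (hp : 0 < p) (hL : 0 < L) {ξ : E d}
    (hξ : ‖ξ‖ ≤ L) : cL p P 0 L ≤ cL p P ξ L := by
  classical
  have key : ∀ s : Finset (Fin d),
      ∫⁻ μ, Gf p L (WithLp.toLp 2 fun i => if i ∈ s then 0 else ξ i) μ ∂(P L) ≤
        ∫⁻ μ, Gf p L ξ μ ∂(P L) := by
    intro s
    induction s using Finset.induction_on with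
    | empty => simp
    | insert i s hi ih =>
      have e : (WithLp.toLp 2 fun k => if k ∈ insert i s then 0 else ξ k : E d) =
          upd (WithLp.toLp 2 fun k => if k ∈ s then 0 else ξ k) i 0 := by
        unfold upd
        congr 1
        funext k
        by_cases hk : k = i
        · subst hk; simp
        · simp [hk]
      rw [e]
      refine (concA1_upd_le hP hp hL _ i ?_).trans ih
      simp only [if_neg hi]
      exact (abs_coord_le_norm ξ i).trans hξ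
  have h := key Finset.univ
  have e : (WithLp.toLp 2 fun i : Fin d => if i ∈ Finset.univ then 0 else ξ i : E d) = 0 := by
    ext i; simp
  rw [e] at h
  unfold cL
  exact ENNReal.div_le_div_right h _

theorem concA1_mom (hP : Fam P) {q : ℝ} (hq : 1 ≤ q) :
    ∃ C : ℝ, 0 ≤ C ∧ ∀ L : ℝ, 1 ≤ L →
      ∫⁻ μ, ENNReal.ofReal (|(μ (cube 0 L)).toReal - L ^ d| ^ q) ∂(P L) ≤
        ENNReal.ofReal (C * L ^ (q * (d + 2) / 2)) := by
  obtain ⟨C, hC⟩ := hP.mom q hq
  refine ⟨max C 0, le_max_right _ _, fun L hL => ?_⟩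
  have hL0 : 0 < L := by linarith
  have h := hC L hL (fun _ => 1) measurable_const (fun _ => zero_le_one) (fun _ => le_rfl)
  simp only [integral_const, smul_eq_mul, mul_one, Measure.real, Measure.restrict_apply_univ] at h
  rw [volume_cube 0 hL0.le, ENNReal.toReal_ofReal (by positivity)] at h
  refine h.trans (ENNReal.ofReal_le_ofReal ?_)
  exact mul_le_mul_of_nonneg_right (le_max_left _ _) (by positivity)

theorem Fam.mass_dev (hP : Fam P) :
    ∃ C : ℝ, ∀ L : ℝ, 1 ≤ L →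
      ∫⁻ μ, ENNReal.ofReal |(μ (cube 0 L)).toReal - L ^ d| ∂(P L) ≤
        ENNReal.ofReal (C * L ^ (((d : ℝ) + 2) / 2)) := by
  obtain ⟨C, -, hC⟩ := concA1_mom hP le_rfl
  refine ⟨C, fun L hL => ?_⟩
  have h := hC L hL
  simpa only [Real.rpow_one, one_mul] using h

theorem concA1_meas_dev (a : E d) (s c r q : ℝ) :
    Measurable fun μ : Measure (E d) =>
      ENNReal.ofReal (c * |(μ (cube a s)).toReal - r| ^ q) := by
  have h : Measurable fun μ : Measure (E d) => (μ (cube a s)).toReal :=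
    (Measure.measurable_coe (measurableSet_cube a s)).ennreal_toReal
  refine ENNReal.measurable_ofReal.comp (Measurable.const_mul ?_ c)
  exact ((h.sub_const r).abs).pow_const q

theorem Fam.lintegral_disc (hP : Fam P) {p : ℝ} (hp : 1 ≤ p) :
    ∃ C : ℝ, 0 ≤ C ∧ ∀ (L : ℝ) (m : ℕ), 0 < m → 1 ≤ L / m →
      ∫⁻ μ, disc p μ 0 L m ∂(P L) ≤
        ENNReal.ofReal (C * L ^ d * (L / m) ^ (-p * ((d : ℝ) - 4) / 2)) := by
  obtain ⟨C, hC0, hC⟩ := concA1_mom hP hp
  refine ⟨C, hC0, fun L m hm hs => ?_⟩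
  have hm0 : (0 : ℝ) < m := by exact_mod_cast hm
  have hs0 : 0 < L / m := by linarith
  have hL : 0 < L := by
    have := mul_pos hs0 hm0
    rwa [div_mul_cancel₀ _ hm0.ne'] at this
  set s := L / m with hsdef
  have cell : ∀ j : Fin d → Fin m,
      ∫⁻ μ, ENNReal.ofReal (s ^ (p + d - d * p) * |(μ (gc 0 L m j)).toReal - s ^ d| ^ p) ∂(P L) ≤
        ENNReal.ofReal (s ^ (p + d - d * p) * (C * s ^ (p * (d + 2) / 2))) := by
    intro j
    have hsub : cube (gcorner 0 L m j) s ⊆ cube 0 L := gc_subset 0 hL.le m j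
    have e1 : ∫⁻ μ, ENNReal.ofReal (s ^ (p + d - d * p) *
          |(μ (gc 0 L m j)).toReal - s ^ d| ^ p) ∂(P L) =
        ∫⁻ μ, ENNReal.ofReal (s ^ (p + d - d * p) *
          |(μ (cube 0 s)).toReal - s ^ d| ^ p) ∂((P L).map (loc (gcorner 0 L m j) s)) := by
      rw [lintegral_map (concA1_meas_dev 0 s _ _ _) (measurable_loc _ _)]
      refine lintegral_congr fun μ => ?_
      rw [loc_cube]
      rfl
    rw [e1, hP.stat L s _ hs0 hL hsub]
    have hc : 0 ≤ s ^ (p + d - d * p) := by positivity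
    simp only [ENNReal.ofReal_mul hc]
    rw [lintegral_const_mul' _ _ ENNReal.ofReal_ne_top]
    exact mul_le_mul_right (hC s hs) _
  have hmj : ∀ j : Fin d → Fin m, Measurable fun μ : Measure (E d) =>
      ENNReal.ofReal (s ^ (p + d - d * p) * |(μ (gc 0 L m j)).toReal - s ^ d| ^ p) :=
    fun j => concA1_meas_dev (gcorner 0 L m j) s _ _ _
  unfold disc
  rw [← hsdef, lintegral_finsetSum _ (fun j _ => hmj j)]
  refine (Finset.sum_le_sum fun j _ => cell j).trans ?_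
  rw [Finset.sum_const, Finset.card_univ, nsmul_eq_mul, ← ENNReal.ofReal_natCast,
    ← ENNReal.ofReal_mul (by positivity)]
  refine ENNReal.ofReal_le_ofReal (le_of_eq ?_)
  have hcard : (Fintype.card (Fin d → Fin m) : ℝ) = (m : ℝ) ^ d := by simp
  have hLs : L ^ d = (m : ℝ) ^ d * s ^ (d : ℝ) := by
    rw [Real.rpow_natCast, ← mul_pow, hsdef, mul_div_cancel₀ _ hm0.ne']
  have hexp : s ^ (p + d - d * p) * s ^ (p * (d + 2) / 2) =
      s ^ (d : ℝ) * s ^ (-p * ((d : ℝ) - 4) / 2) := by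
    rw [← Real.rpow_add hs0, ← Real.rpow_add hs0]
    congr 1
    ring
  rw [hcard, hLs]
  calc (m : ℝ) ^ d * (s ^ (p + d - d * p) * (C * s ^ (p * (d + 2) / 2)))
      = C * (m : ℝ) ^ d * (s ^ (p + d - d * p) * s ^ (p * (d + 2) / 2)) := by ring
    _ = _ := by rw [hexp]; ring

theorem concA1_geom (k : ℕ) :
    ∑ j ∈ Finset.range k, (2 : ℝ) ^ (-((k : ℝ) - j - 1) / 2) ≤
      (1 - (2 : ℝ) ^ (-(1 : ℝ) / 2))⁻¹ := by
  set r : ℝ := (2 : ℝ) ^ (-(1 : ℝ) / 2) with hr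
  have hr0 : 0 ≤ r := by positivity
  have hr1 : r < 1 := Real.rpow_lt_one_of_one_lt_of_neg (by norm_num) (by norm_num)
  have e : ∑ j ∈ Finset.range k, (2 : ℝ) ^ (-((k : ℝ) - j - 1) / 2) =
      ∑ j ∈ Finset.range k, r ^ (k - 1 - j) := by
    refine Finset.sum_congr rfl fun j hj => ?_
    have hj' : j < k := Finset.mem_range.1 hj
    rw [hr, ← Real.rpow_natCast, ← Real.rpow_mul (by norm_num)]
    congr 1
    have : ((k - 1 - j : ℕ) : ℝ) = (k : ℝ) - j - 1 := by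
      have h : k - 1 - j + j + 1 = k := by omega
      have h' : ((k - 1 - j : ℕ) : ℝ) + j + 1 = k := by exact_mod_cast h
      linarith
    rw [this]; ring
  rw [e, Finset.sum_range_reflect (fun i => r ^ i) k, ← tsum_geometric_of_lt_one hr0 hr1]
  exact (summable_geometric_of_lt_one hr0 hr1).sum_le_tsum _ (fun i _ => by positivity)

/-- a measurable majorant of the subadditivity error with small mean -/
theorem Fam.sub_error (hP : Fam P) {p : ℝ} (hp : 1 ≤ p) (hd : 5 ≤ d) :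
    ∃ C : ℝ, 0 ≤ C ∧ ∀ n0 k : ℕ, ∃ Err : Measure (E d) → ℝ≥0∞, Measurable Err ∧
      (∀ μ : Measure (E d), μ (cube 0 (2 ^ (n0 + k))) ≠ ⊤ →
        Wp p (avg μ 0 (2 ^ (n0 + k)) (2 ^ k)) (avg μ 0 (2 ^ (n0 + k)) 1) ≤ Err μ) ∧
      ∫⁻ μ, Err μ ∂(P (2 ^ (n0 + k))) ≤
        ENNReal.ofReal (C * (2 ^ (n0 + k)) ^ d * 2 ^ (-(n0 : ℝ) / 2)) := by
  obtain ⟨C1, hC1⟩ := AKT_sub (d := d) hp
  obtain ⟨C2, hC20, hC2⟩ := hP.lintegral_disc hp
  have hr1 : (2 : ℝ) ^ (-(1 : ℝ) / 2) < 1 :=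
    Real.rpow_lt_one_of_one_lt_of_neg (by norm_num) (by norm_num)
  set S : ℝ := (1 - (2 : ℝ) ^ (-(1 : ℝ) / 2))⁻¹ with hS
  have hS0 : 0 ≤ S := inv_nonneg.2 (by linarith)
  refine ⟨C1 * (C2 * (2 ^ ((p - 1) / 2) * S)), by positivity, fun n0 k => ?_⟩
  set L : ℝ := 2 ^ (n0 + k) with hLdef
  have hL : 0 < L := by positivity
  have hmeas : ∀ j : ℕ, Measurable fun μ : Measure (E d) =>
      ENNReal.ofReal (2 ^ (((k : ℝ) - j) * (p - 1) / 2)) * disc p μ 0 L (2 ^ (j + 1)) :=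
    fun j => (measurable_disc p 0 L _).const_mul _
  refine ⟨fun μ => C1 * ∑ j ∈ Finset.range k,
      ENNReal.ofReal (2 ^ (((k : ℝ) - j) * (p - 1) / 2)) * disc p μ 0 L (2 ^ (j + 1)),
    (Finset.measurable_sum _ fun j _ => hmeas j).const_mul _,
    fun μ hμ => hC1 0 L μ k hL hμ, ?_⟩
  rw [lintegral_const_mul' _ _ ENNReal.coe_ne_top, lintegral_finsetSum _ fun j _ => hmeas j]
  have term : ∀ j ∈ Finset.range k,
      ∫⁻ μ, ENNReal.ofReal (2 ^ (((k : ℝ) - j) * (p - 1) / 2)) * disc p μ 0 L (2 ^ (j + 1))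
        ∂(P L) ≤ ENNReal.ofReal (C2 * L ^ d * 2 ^ ((p - 1) / 2) * 2 ^ (-(n0 : ℝ) / 2) *
          (2 : ℝ) ^ (-((k : ℝ) - j - 1) / 2)) := by
    intro j hj
    have hj' : j < k := Finset.mem_range.1 hj
    have hjk : (0 : ℝ) ≤ (k : ℝ) - j - 1 := by
      have h : ((j + 1 : ℕ) : ℝ) ≤ k := by exact_mod_cast hj'
      push_cast at h
      linarith
    have hq : L / ((2 ^ (j + 1) : ℕ) : ℝ) = (2 : ℝ) ^ ((n0 : ℝ) + ((k : ℝ) - j - 1)) := by
      rw [hLdef]
      push_cast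
      rw [← Real.rpow_natCast, ← Real.rpow_natCast, ← Real.rpow_sub (by norm_num)]
      congr 1
      push_cast
      ring
    have hn0 : (0 : ℝ) ≤ n0 := Nat.cast_nonneg _
    have h1 : 1 ≤ L / ((2 ^ (j + 1) : ℕ) : ℝ) := by
      rw [hq]
      exact Real.one_le_rpow (by norm_num) (by linarith)
    rw [lintegral_const_mul' _ _ ENNReal.ofReal_ne_top]
    refine (mul_le_mul_right (hC2 L (2 ^ (j + 1)) (by positivity) h1) _).trans ?_
    rw [← ENNReal.ofReal_mul (by positivity)]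
    refine ENNReal.ofReal_le_ofReal ?_
    rw [hq, ← Real.rpow_mul (by norm_num)]
    have hd' : (5 : ℝ) ≤ d := by exact_mod_cast hd
    have hexp : (2 : ℝ) ^ (((k : ℝ) - j) * (p - 1) / 2) *
        (2 : ℝ) ^ (((n0 : ℝ) + ((k : ℝ) - j - 1)) * (-p * ((d : ℝ) - 4) / 2)) ≤
        2 ^ ((p - 1) / 2) * 2 ^ (-(n0 : ℝ) / 2) * (2 : ℝ) ^ (-((k : ℝ) - j - 1) / 2) := by
      rw [← Real.rpow_add (by norm_num), ← Real.rpow_add (by norm_num),
        ← Real.rpow_add (by norm_num)]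
      refine Real.rpow_le_rpow_of_exponent_le (by norm_num) ?_
      set i : ℝ := (k : ℝ) - j - 1 with hi
      have hk : (k : ℝ) - j = i + 1 := by rw [hi]; ring
      rw [hk]
      have a1 : 0 ≤ ((n0 : ℝ) + i) * (p * ((d : ℝ) - 5)) :=
        mul_nonneg (by linarith) (mul_nonneg (by linarith) (by linarith))
      have a2 : 0 ≤ (n0 : ℝ) * (p - 1) := mul_nonneg hn0 (by linarith)
      nlinarith
    calc (2 : ℝ) ^ (((k : ℝ) - j) * (p - 1) / 2) * (C2 * L ^ d *
          (2 : ℝ) ^ (((n0 : ℝ) + ((k : ℝ) - j - 1)) * (-p * ((d : ℝ) - 4) / 2)))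
        = C2 * L ^ d * ((2 : ℝ) ^ (((k : ℝ) - j) * (p - 1) / 2) *
          (2 : ℝ) ^ (((n0 : ℝ) + ((k : ℝ) - j - 1)) * (-p * ((d : ℝ) - 4) / 2))) := by ring
      _ ≤ C2 * L ^ d * (2 ^ ((p - 1) / 2) * 2 ^ (-(n0 : ℝ) / 2) *
          (2 : ℝ) ^ (-((k : ℝ) - j - 1) / 2)) :=
          mul_le_mul_of_nonneg_left hexp (by positivity)
      _ = _ := by ring
  refine (mul_le_mul_right (Finset.sum_le_sum term) _).trans ?_
  rw [← ENNReal.ofReal_sum_of_nonneg (fun j _ => by positivity), ← ENNReal.ofReal_coe_nnreal,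
    ← ENNReal.ofReal_mul (by positivity), ← Finset.mul_sum]
  refine ENNReal.ofReal_le_ofReal ?_
  have hg := concA1_geom k
  calc (C1 : ℝ) * (C2 * L ^ d * 2 ^ ((p - 1) / 2) * 2 ^ (-(n0 : ℝ) / 2) *
        ∑ j ∈ Finset.range k, (2 : ℝ) ^ (-((k : ℝ) - j - 1) / 2))
      ≤ (C1 : ℝ) * (C2 * L ^ d * 2 ^ ((p - 1) / 2) * 2 ^ (-(n0 : ℝ) / 2) * S) := by
        gcongr
    _ = _ := by ring

end Pool.Agent.Lib.MP_fe8b6f_pr
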