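import Pool.Agent.Lib.MP_fe8b6f_pr.ConcB1

/-! Law of large numbers and concentration of the cell functional. Part 2. -/

open MeasureTheory ProbabilityTheory
open scoped NNReal ENNReal

noncomputable section

namespace Pool.Agent.Lib.MP_fe8b6f_pr

variable {d : ℕ}

variable {P : ℝ → Measure (Measure (E d))}

theorem concb_markov {X : Type*} [MeasurableSpace X] (Q : Measure X) [IsProbabilityMeasure Q]
    {Z : X → ℝ≥0∞} (hZ : Measurable Z) (t β : ℝ≥0∞) :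
    Q {x | Z x < β} * (t - β) + ∫⁻ x, Z x ∂Q ≤ t + ∫⁻ x, (Z x - t) ∂Q := by
  have h1 : ∫⁻ x, (t - Z x) ∂Q + ∫⁻ x, Z x ∂Q = t + ∫⁻ x, (Z x - t) ∂Q := by
    rw [← lintegral_add_right _ hZ]
    have : ∀ x, t - Z x + Z x = t + (Z x - t) := by
      intro x
      rw [tsub_add_eq_max, add_comm, tsub_add_eq_max, max_comm]
    simp_rw [this]
    rw [lintegral_add_left measurable_const]
    simp
  rw [← h1]
  gcongr
  have h2 := mul_meas_ge_le_lintegral₀ (μ := Q) (f := fun x => t - Z x)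
    (measurable_const.sub hZ).aemeasurable (t - β)
  rw [mul_comm]
  refine le_trans ?_ h2
  gcongr with x
  intro hx
  exact tsub_le_tsub_left (le_of_lt hx) t

theorem concb_point {Z A I Er c S M D C : ℝ≥0∞} (hD : D = M * S) (hM0 : M ≠ 0) (hM : M ≠ ⊤)
    (h : Z ≤ c * A + C * Er) :
    Z / D - c * (I / S) ≤ (c / S) * (A / M - I) + (C / D) * Er := by
  rw [tsub_le_iff_right]
  have hA : A / M ≤ (A / M - I) + I := le_tsub_add
  have h1 : Z / D ≤ (c / S) * (A / M) + (C / D) * Er := by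
    calc Z / D ≤ (c * A + C * Er) / D := ENNReal.div_le_div_right h D
      _ = (c / S) * (A / M) + (C / D) * Er := by
        rw [ENNReal.add_div]
        congr 1
        · rw [hD, div_eq_mul_inv, div_eq_mul_inv, div_eq_mul_inv,
            ENNReal.mul_inv (Or.inl hM0) (Or.inl hM)]
          ring
        · rw [div_eq_mul_inv, div_eq_mul_inv]
          ring
  calc Z / D ≤ (c / S) * (A / M) + (C / D) * Er := h1
    _ ≤ (c / S) * ((A / M - I) + I) + (C / D) * Er := by gcongr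
    _ = (c / S) * (A / M - I) + (C / D) * Er + c * (I / S) := by
      rw [div_eq_mul_inv c S, div_eq_mul_inv I S]
      ring

theorem concb_key (hP : Fam P) {p : ℝ} (hp : 1 ≤ p) (hd : 5 ≤ d) (ξ : E d) {e : ℝ} (he : 0 < e) :
    ∃ C : ℝ, 0 ≤ C ∧ ∀ (n0 : ℕ) (η : ℝ≥0∞), 0 < η → ∃ n1 : ℕ, ∀ n : ℕ, n1 ≤ n →
      ∫⁻ μ, (Gf p (2 ^ n) ξ μ / ENNReal.ofReal ((2 ^ n) ^ d) -
        ENNReal.ofReal (1 + e) * cL p P ξ (2 ^ n0)) ∂(P (2 ^ n)) ≤
        η + ENNReal.ofReal (C * 2 ^ (-(n0 : ℝ) / 2)) := by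
  have hp0 : 0 < p := by linarith
  obtain ⟨C1, hC1⟩ := G_sub (d := d) hp0 he
  obtain ⟨C2, hC2, hErr⟩ := hP.sub_error hp hd
  refine ⟨C1 * C2, mul_nonneg C1.coe_nonneg hC2, fun n0 η hη => ?_⟩
  have hs : (0 : ℝ) < 2 ^ n0 := by positivity
  set S : ℝ≥0∞ := ENNReal.ofReal (((2 : ℝ) ^ n0) ^ d) with hSdef
  have hS0 : S ≠ 0 := by
    rw [hSdef]; exact (ENNReal.ofReal_pos.2 (by positivity)).ne'
  have hS : S ≠ ⊤ := ENNReal.ofReal_ne_top
  set c : ℝ≥0∞ := ENNReal.ofReal (1 + e) with hcdef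
  have hc0 : c ≠ 0 := by
    rw [hcdef]; exact (ENNReal.ofReal_pos.2 (by positivity)).ne'
  have hc : c ≠ ⊤ := ENNReal.ofReal_ne_top
  have hcS : c / S ≠ ⊤ := ENNReal.div_ne_top hc hS0
  have hcS0 : c / S ≠ 0 := (ENNReal.div_pos hc0 hS).ne'
  have hη' : 0 < η / (c / S) := ENNReal.div_pos hη.ne' hcS
  obtain ⟨m0, hm0⟩ := hP.lln (by omega) hs (measurable_Gf hp0 hs ξ)
    (hP.lintegral_Gf_ne_top hp0 hs ξ) hη'
  refine ⟨n0 + m0, fun n hn => ?_⟩
  obtain ⟨k, rfl⟩ : ∃ k, n = n0 + k := ⟨n - n0, by omega⟩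
  have hk : m0 ≤ 2 ^ k := le_trans (by omega) (Nat.lt_two_pow_self (n := k)).le
  have hL : ((2 ^ k : ℕ) : ℝ) * 2 ^ n0 = 2 ^ (n0 + k) := by
    push_cast; ring
  have hLpos : (0 : ℝ) < 2 ^ (n0 + k) := by positivity
  have hdiv : (2 : ℝ) ^ (n0 + k) / ((2 ^ k : ℕ) : ℝ) = 2 ^ n0 := by
    push_cast; rw [pow_add]; field_simp
  have hlln := hm0 (2 ^ k) hk
  rw [hL] at hlln
  obtain ⟨Err, hEm, hE1, hE2⟩ := hErr n0 k
  set D : ℝ≥0∞ := ENNReal.ofReal (((2 : ℝ) ^ (n0 + k)) ^ d) with hDdef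
  set M : ℝ≥0∞ := ((2 ^ k : ℕ) : ℝ≥0∞) ^ d with hMdef
  have hM0 : M ≠ 0 := by
    rw [hMdef]; exact pow_ne_zero _ (by exact_mod_cast (by positivity : (2 ^ k : ℕ) ≠ 0))
  have hM : M ≠ ⊤ := by
    rw [hMdef]; exact ENNReal.pow_ne_top (ENNReal.natCast_ne_top _)
  have hD : D = M * S := by
    rw [hDdef, hMdef, hSdef, ← hL, mul_pow, ENNReal.ofReal_mul (by positivity),
      ENNReal.ofReal_pow (by positivity), ENNReal.ofReal_natCast]
  have hD0 : D ≠ 0 := by rw [hD]; exact mul_ne_zero hM0 hS0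
  have hDt : D ≠ ⊤ := ENNReal.ofReal_ne_top
  set I : ℝ≥0∞ := ∫⁻ ν, Gf p (2 ^ n0) ξ ν ∂(P (2 ^ n0)) with hI
  have hcL : cL p P ξ (2 ^ n0) = I / S := rfl
  rw [hcL]
  have hpt : ∀ᵐ μ ∂(P (2 ^ (n0 + k))), Gf p (2 ^ (n0 + k)) ξ μ / D - c * (I / S) ≤
      (c / S) * ((∑ j : Fin d → Fin (2 ^ k),
        Gf p (2 ^ n0) ξ (loc (gcorner 0 (2 ^ (n0 + k)) (2 ^ k) j) (2 ^ n0) μ)) / M - I) +
        (C1 / D) * Err μ := by
    filter_upwards [hP.ae_fin hLpos] with μ hμ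
    refine concb_point hD hM0 hM ?_
    have h1 := hC1 (2 ^ (n0 + k)) (2 ^ k) ξ μ hLpos (by positivity) hμ
    rw [hdiv] at h1
    have h2 : Gf p (2 ^ (n0 + k)) ξ μ = G p (2 ^ (n0 + k)) ξ μ := by
      simp only [Gf, hμ, if_false]
    have h3 : ∀ j : Fin d → Fin (2 ^ k),
        Gf p (2 ^ n0) ξ (loc (gcorner 0 (2 ^ (n0 + k)) (2 ^ k) j) (2 ^ n0) μ) =
        G p (2 ^ n0) ξ (loc (gcorner 0 (2 ^ (n0 + k)) (2 ^ k) j) (2 ^ n0) μ) := by
      intro j
      have h4 : loc (gcorner 0 (2 ^ (n0 + k)) (2 ^ k) j) (2 ^ n0) μ (cube 0 (2 ^ n0)) ≠ ⊤ := by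
        rw [loc_cube]
        have h5 := gc_subset (0 : E d) hLpos.le (2 ^ k) j
        rw [gc, hdiv] at h5
        exact ne_top_of_le_ne_top hμ (measure_mono h5)
      simp only [Gf, h4, if_false]
    rw [h2]
    simp_rw [h3]
    refine h1.trans ?_
    gcongr
    exact hE1 μ hμ
  refine (lintegral_mono_ae hpt).trans ?_
  rw [lintegral_add_right _ (hEm.const_mul _), lintegral_const_mul' _ _ hcS,
    lintegral_const_mul _ hEm]
  gcongr
  · calc c / S * _ ≤ c / S * (η / (c / S)) := by gcongr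
      _ = η := ENNReal.mul_div_cancel hcS0 hcS
  · calc (C1 : ℝ≥0∞) / D * _ ≤ C1 / D * ENNReal.ofReal
          (C2 * (2 ^ (n0 + k)) ^ d * 2 ^ (-(n0 : ℝ) / 2)) := by gcongr
      _ = ENNReal.ofReal (C1 * C2 * 2 ^ (-(n0 : ℝ) / 2)) := by
        have h6 : C2 * ((2 : ℝ) ^ (n0 + k)) ^ d * 2 ^ (-(n0 : ℝ) / 2) =
            ((2 : ℝ) ^ (n0 + k)) ^ d * (C2 * 2 ^ (-(n0 : ℝ) / 2)) := by ring
        rw [h6, ENNReal.ofReal_mul (by positivity), ← hDdef, ← mul_assoc,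
          ENNReal.div_mul_cancel hD0 hDt, mul_assoc, ENNReal.ofReal_mul C1.coe_nonneg,
          ENNReal.ofReal_coe_nnreal]

theorem concb_cL_ne_top (hP : Fam P) {p : ℝ} (hp : 0 < p) (ξ : E d) (n : ℕ) :
    cL p P ξ (2 ^ n) ≠ ⊤ :=
  ENNReal.div_ne_top (hP.lintegral_Gf_ne_top hp (by positivity) ξ)
    (ENNReal.ofReal_pos.2 (by positivity)).ne'

theorem concb_cL_eq {p : ℝ} (hp : 0 < p) (ξ : E d) (n : ℕ) :
    ∫⁻ μ, Gf p (2 ^ n) ξ μ / ENNReal.ofReal ((2 ^ n) ^ d) ∂(P (2 ^ n)) = cL p P ξ (2 ^ n) := by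
  simp_rw [div_eq_mul_inv]
  rw [lintegral_mul_const _ (measurable_Gf hp (by positivity) ξ), cL, div_eq_mul_inv]

theorem concb_inf_le (hP : Fam P) {p : ℝ} (hp : 0 < p) (ξ : E d) :
    cInf p P ≤ Filter.liminf (fun n : ℕ => cL p P ξ (2 ^ n)) Filter.atTop := by
  have ht : Filter.Tendsto (fun n : ℕ => (2 : ℝ) ^ n) Filter.atTop Filter.atTop :=
    tendsto_pow_atTop_atTop_of_one_lt (by norm_num)
  have h1 : cInf p P ≤ Filter.liminf (fun n : ℕ => cL p P 0 (2 ^ n)) Filter.atTop := by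
    have : Filter.liminf (fun n : ℕ => cL p P 0 (2 ^ n)) Filter.atTop =
        Filter.liminf (cL p P 0) (Filter.map (fun n : ℕ => (2 : ℝ) ^ n) Filter.atTop) :=
      Filter.liminf_comp (cL p P 0) (fun n : ℕ => (2 : ℝ) ^ n) Filter.atTop
    rw [this]
    exact Filter.liminf_le_liminf_of_le ht
  refine h1.trans (Filter.liminf_le_liminf ?_)
  filter_upwards [ht.eventually_ge_atTop ‖ξ‖] with n hn
  exact hP.cL_zero_le hp (by positivity) hn

theorem concb_liminf_ne_top (hP : Fam P) {p : ℝ} (hp : 1 ≤ p) (hd : 5 ≤ d) (ξ : E d) :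
    Filter.liminf (fun n : ℕ => cL p P ξ (2 ^ n)) Filter.atTop ≠ ⊤ := by
  have hp0 : 0 < p := by linarith
  obtain ⟨C, -, hC⟩ := concb_key hP hp hd ξ one_pos
  obtain ⟨n1, hn1⟩ := hC 0 1 one_pos
  set t : ℝ≥0∞ := ENNReal.ofReal (1 + 1) * cL p P ξ (2 ^ 0) with ht
  have htt : t ≠ ⊤ := ENNReal.mul_ne_top ENNReal.ofReal_ne_top (concb_cL_ne_top hP hp0 ξ 0)
  refine ne_top_of_le_ne_top (b := t + (1 + ENNReal.ofReal (C * 2 ^ (-((0 : ℕ) : ℝ) / 2))))
    (ENNReal.add_ne_top.2 ⟨htt, ENNReal.add_ne_top.2 ⟨ENNReal.one_ne_top,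
      ENNReal.ofReal_ne_top⟩⟩) ?_
  refine Filter.liminf_le_of_frequently_le' (Filter.Eventually.frequently ?_)
  filter_upwards [Filter.eventually_ge_atTop n1] with n hn
  have := hP.prob (2 ^ n) (by positivity)
  have h1 := concb_markov (P (2 ^ n))
    ((measurable_Gf hp0 (by positivity : (0 : ℝ) < 2 ^ n) ξ).div_const
      (ENNReal.ofReal ((2 ^ n) ^ d))) t 0
  rw [concb_cL_eq hp0] at h1
  refine le_trans le_add_self (h1.trans ?_)
  gcongr
  exact hn1 n hn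

theorem Fam.conc (hP : Fam P) {p : ℝ} (hp : 1 ≤ p) (hd : 5 ≤ d) (ξ : E d) {b : ℝ}
    (hb : ENNReal.ofReal b < cInf p P) {ε : ℝ≥0∞} (hε : 0 < ε) :
    ∃ n0 : ℕ, ∀ n : ℕ, n0 ≤ n →
      P (2 ^ n) {μ | Gf p (2 ^ n) ξ μ < ENNReal.ofReal (b * (2 ^ n) ^ d)} ≤ ε := by
  have hp0 : 0 < p := by linarith
  by_cases hεt : ε = ⊤
  · exact ⟨0, fun n _ => by rw [hεt]; exact le_top⟩
  set f := Filter.liminf (fun n : ℕ => cL p P ξ (2 ^ n)) Filter.atTop with hf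
  have hft : f ≠ ⊤ := concb_liminf_ne_top hP hp hd ξ
  have hbf : ENNReal.ofReal b < f := hb.trans_le (concb_inf_le hP hp0 ξ)
  set β := ENNReal.ofReal b with hβ
  have hβt : β ≠ ⊤ := ENNReal.ofReal_ne_top
  have hg : 0 < f.toReal - β.toReal := sub_pos.2 ((ENNReal.toReal_lt_toReal hβt hft).2 hbf)
  have hεr : 0 < ε.toReal := ENNReal.toReal_pos hε.ne' hεt
  have hf0 : 0 ≤ f.toReal := ENNReal.toReal_nonneg
  have hβ0 : 0 ≤ β.toReal := ENNReal.toReal_nonneg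
  set g := f.toReal - β.toReal with hgdef
  set e := min 1 (min (g / 2) (ε.toReal * g / (2 * (f.toReal + 5)))) with hedef
  have he : 0 < e := by positivity
  have he1 : e ≤ 1 := min_le_left _ _
  have he2 : e ≤ g / 2 := (min_le_right _ _).trans (min_le_left _ _)
  have he3 : e ≤ ε.toReal * g / (2 * (f.toReal + 5)) :=
    (min_le_right _ _).trans (min_le_right _ _)
  obtain ⟨C, hC0, hC⟩ := concb_key hP hp hd ξ he
  have hlow : ∀ᶠ n : ℕ in Filter.atTop, f.toReal - e ≤ (cL p P ξ (2 ^ n)).toReal := by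
    have h1 : ENNReal.ofReal (f.toReal - e) < f := by
      conv_rhs => rw [← ENNReal.ofReal_toReal hft]
      exact (ENNReal.ofReal_lt_ofReal_iff (by linarith)).2 (by linarith)
    filter_upwards [Filter.eventually_lt_of_lt_liminf h1] with n hn
    exact (ENNReal.ofReal_le_iff_le_toReal (concb_cL_ne_top hP hp0 ξ n)).1 hn.le
  have hup : ∃ᶠ n : ℕ in Filter.atTop, (cL p P ξ (2 ^ n)).toReal ≤ f.toReal + e := by
    have h1 : f < ENNReal.ofReal (f.toReal + e) := by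
      conv_lhs => rw [← ENNReal.ofReal_toReal hft]
      exact (ENNReal.ofReal_lt_ofReal_iff (by linarith)).2 (by linarith)
    refine (Filter.frequently_lt_of_liminf_lt (h := h1)).mono fun n hn => ?_
    exact ENNReal.toReal_le_of_le_ofReal (by linarith) hn.le
  have hsm : ∀ᶠ n : ℕ in Filter.atTop, C * (2 : ℝ) ^ (-(n : ℝ) / 2) ≤ e := by
    have h1 : Filter.Tendsto (fun n : ℕ => (2 : ℝ) ^ (-(n : ℝ) / 2)) Filter.atTop (nhds 0) := by
      refine (tendsto_rpow_atBot_of_base_gt_one 2 (by norm_num)).comp ?_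
      refine Filter.Tendsto.atBot_div_const (by norm_num) ?_
      exact Filter.tendsto_neg_atTop_atBot.comp tendsto_natCast_atTop_atTop
    have h2 := h1.const_mul C
    rw [mul_zero] at h2
    exact h2.eventually (ge_mem_nhds he)
  obtain ⟨n0, hn0u, hn0l, hn0s⟩ := (hup.and_eventually (hlow.and hsm)).exists
  obtain ⟨n1, hn1⟩ := hC n0 (ENNReal.ofReal e) (ENNReal.ofReal_pos.2 he)
  obtain ⟨n2, hn2⟩ := Filter.eventually_atTop.1 hlow
  refine ⟨max n1 n2, fun n hn => ?_⟩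
  have := hP.prob (2 ^ n) (by positivity)
  set t : ℝ≥0∞ := ENNReal.ofReal (1 + e) * cL p P ξ (2 ^ n0) with ht
  have htt : t ≠ ⊤ := ENNReal.mul_ne_top ENNReal.ofReal_ne_top (concb_cL_ne_top hP hp0 ξ n0)
  have htr : t.toReal = (1 + e) * (cL p P ξ (2 ^ n0)).toReal := by
    rw [ht, ENNReal.toReal_mul, ENNReal.toReal_ofReal (by linarith)]
  have h1 := concb_markov (P (2 ^ n))
    ((measurable_Gf hp0 (by positivity : (0 : ℝ) < 2 ^ n) ξ).div_const
      (ENNReal.ofReal ((2 ^ n) ^ d))) t β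
  rw [concb_cL_eq hp0] at h1
  set q := P (2 ^ n) {μ | Gf p (2 ^ n) ξ μ / ENNReal.ofReal ((2 ^ n) ^ d) < β} with hq
  have hqt : q ≠ ⊤ := measure_ne_top _ _
  have h2 : q * (t - β) + cL p P ξ (2 ^ n) ≤ t + ENNReal.ofReal (2 * e) := by
    refine h1.trans ?_
    gcongr
    refine (hn1 n (le_trans (le_max_left _ _) hn)).trans ?_
    rw [two_mul, ENNReal.ofReal_add he.le he.le]
    gcongr
  have hc0 : 0 ≤ (cL p P ξ (2 ^ n0)).toReal := ENNReal.toReal_nonneg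
  have hβle : β ≤ t := by
    rw [← ENNReal.toReal_le_toReal hβt htt, htr]
    nlinarith
  have h3 := ENNReal.toReal_mono (ENNReal.add_ne_top.2 ⟨htt, ENNReal.ofReal_ne_top⟩) h2
  rw [ENNReal.toReal_add (ENNReal.mul_ne_top hqt (ENNReal.sub_ne_top htt))
    (concb_cL_ne_top hP hp0 ξ n), ENNReal.toReal_add htt ENNReal.ofReal_ne_top,
    ENNReal.toReal_mul, ENNReal.toReal_sub_of_le hβle htt,
    ENNReal.toReal_ofReal (by linarith : 0 ≤ 2 * e), htr] at h3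
  have h4 := hn2 n (le_trans (le_max_right _ _) hn)
  have hq0 : 0 ≤ q.toReal := ENNReal.toReal_nonneg
  have h5 : g / 2 ≤ (1 + e) * (cL p P ξ (2 ^ n0)).toReal - β.toReal := by nlinarith
  have h6 : q.toReal * (g / 2) ≤ e * (f.toReal + 5) := by
    have h7 := mul_le_mul_of_nonneg_left h5 hq0
    have h8 : (1 + e) * (cL p P ξ (2 ^ n0)).toReal ≤ (1 + e) * (f.toReal + e) :=
      mul_le_mul_of_nonneg_left hn0u (by linarith)
    have h11 : e * e ≤ e := by nlinarith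
    nlinarith
  have h9 : e * (f.toReal + 5) ≤ ε.toReal * (g / 2) := by
    have := mul_le_mul_of_nonneg_right he3 (by linarith : 0 ≤ f.toReal + 5)
    refine this.trans (le_of_eq ?_)
    field_simp
  have h10 : q.toReal ≤ ε.toReal :=
    le_of_mul_le_mul_right (h6.trans h9) (by linarith)
  refine le_trans (measure_mono ?_) ((ENNReal.toReal_le_toReal hqt hεt).1 h10)
  intro μ hμ
  refine ENNReal.div_lt_of_lt_mul ?_
  rw [hβ, ← ENNReal.ofReal_mul' (by positivity)]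
  exact hμ

end Pool.Agent.Lib.MP_fe8b6f_pr
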