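import Pool.Agent.Lib.MP_fe8b6f_pr.ConcA

/-! Law of large numbers and concentration of the cell functional. Part 1. -/

open MeasureTheory ProbabilityTheory
open scoped NNReal ENNReal

noncomputable section

namespace Pool.Agent.Lib.MP_fe8b6f_pr

variable {d : ℕ}

variable {P : ℝ → Measure (Measure (E d))}

theorem concB1_point (X a : ℝ≥0∞) (hX : X ≠ ⊤) (ha : a ≠ ⊤) (δ : ℝ≥0) :
    2 * δ * (X - a) + 2 * a * X ≤ X * X + a * a + δ * δ := by
  lift X to ℝ≥0 using hX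
  lift a to ℝ≥0 using ha
  have h : 2 * δ * (X - a) + 2 * a * X ≤ X * X + a * a + δ * δ := by
    rcases le_total X a with h | h
    · rw [tsub_eq_zero_of_le h, ← NNReal.coe_le_coe]
      push_cast
      nlinarith [sq_nonneg ((X : ℝ) - a), sq_nonneg (δ : ℝ)]
    · rw [← NNReal.coe_le_coe]
      push_cast
      rw [NNReal.coe_sub h]
      nlinarith [sq_nonneg ((X : ℝ) - a - δ)]
  exact_mod_cast h

theorem concB1_var {Ω J : Type*} [MeasurableSpace Ω] [Fintype J] [Nonempty J] (Q : Measure Ω)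
    [IsProbabilityMeasure Q] (F : J → Ω → ℝ≥0∞) (hF : ∀ j, Measurable (F j))
    (hF1 : ∀ j ω, F j ω ≤ 1) {a η κ : ℝ≥0∞} (ha : ∀ j, ∫⁻ ω, F j ω ∂Q = a)
    (cl : J → J → Prop) [∀ j, DecidablePred (cl j)]
    (hcl : ∀ j, ((Finset.univ.filter (cl j)).card : ℝ≥0∞) ≤ κ * Fintype.card J)
    (hmix : ∀ j k, ¬ cl j k → ∫⁻ ω, F j ω * F k ω ∂Q ≤ a * a + η) {δ : ℝ≥0} (hδ : δ ≠ 0)
    (hη : η + κ ≤ δ * δ) :
    ∫⁻ ω, ((∑ j, F j ω) / (Fintype.card J : ℝ≥0∞) - a) ∂Q ≤ δ := by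
  set N : ℝ≥0∞ := (Fintype.card J : ℝ≥0∞) with hN
  have hN0 : N ≠ 0 := by
    rw [hN]; exact_mod_cast Fintype.card_ne_zero
  have hNt : N ≠ ⊤ := ENNReal.natCast_ne_top _
  have hNw : N * N⁻¹ = 1 := ENNReal.mul_inv_cancel hN0 hNt
  have hwt : N⁻¹ ≠ ⊤ := ENNReal.inv_ne_top.2 hN0
  have ha1 : a ≤ 1 := by
    rw [← ha (Classical.arbitrary J)]
    calc ∫⁻ ω, F (Classical.arbitrary J) ω ∂Q ≤ ∫⁻ _, 1 ∂Q := lintegral_mono (hF1 _)
      _ = 1 := by simp
  have hat : a ≠ ⊤ := ne_top_of_le_ne_top ENNReal.one_ne_top ha1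
  have hS : Measurable fun ω => ∑ j, F j ω := Finset.measurable_sum _ fun j _ => hF j
  have hX : Measurable fun ω => (∑ j, F j ω) / N := hS.div_const _
  have hXt : ∀ ω, (∑ j, F j ω) / N ≠ ⊤ := fun ω =>
    ENNReal.div_ne_top (ENNReal.sum_ne_top.2 fun j _ =>
      ne_top_of_le_ne_top ENNReal.one_ne_top (hF1 j ω)) hN0
  have e1 : ∫⁻ ω, (∑ j, F j ω) / N ∂Q = a := by
    simp only [div_eq_mul_inv]
    rw [lintegral_mul_const _ hS, lintegral_finsetSum _ fun j _ => hF j]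
    simp only [ha, Finset.sum_const, Finset.card_univ, nsmul_eq_mul]
    rw [← hN, mul_right_comm, hNw, one_mul]
  have e2 : ∀ j, ∑ k, ∫⁻ ω, F j ω * F k ω ∂Q ≤ N * (a * a + η) + κ * N := by
    intro j
    calc ∑ k, ∫⁻ ω, F j ω * F k ω ∂Q
        ≤ ∑ k, ((a * a + η) + if cl j k then 1 else 0) := by
          refine Finset.sum_le_sum fun k _ => ?_
          split_ifs with h
          · refine le_add_left ?_
            calc ∫⁻ ω, F j ω * F k ω ∂Q ≤ ∫⁻ _, 1 ∂Q :=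
                  lintegral_mono fun ω => mul_le_one' (hF1 j ω) (hF1 k ω)
              _ = 1 := by simp
          · rw [add_zero]; exact hmix j k h
      _ = N * (a * a + η) + (Finset.univ.filter (cl j)).card := by
          rw [Finset.sum_add_distrib, Finset.sum_boole]
          simp only [Finset.sum_const, Finset.card_univ, nsmul_eq_mul, hN]
      _ ≤ _ := by gcongr; exact hcl j
  have e3 : ∫⁻ ω, (∑ j, F j ω) / N * ((∑ j, F j ω) / N) ∂Q ≤ a * a + δ * δ := by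
    have : ∀ ω, (∑ j, F j ω) / N * ((∑ j, F j ω) / N)
        = (∑ j, ∑ k, F j ω * F k ω) * (N⁻¹ * N⁻¹) := by
      intro ω
      rw [← Finset.sum_mul_sum, div_eq_mul_inv]
      ring
    simp only [this]
    rw [lintegral_mul_const _ (Finset.measurable_sum _ fun j _ =>
      Finset.measurable_sum _ fun k _ => (hF j).fun_mul (hF k)),
      lintegral_finsetSum _ fun j _ => Finset.measurable_sum _ fun k _ => (hF j).fun_mul (hF k)]
    calc (∑ j, ∫⁻ ω, ∑ k, F j ω * F k ω ∂Q) * (N⁻¹ * N⁻¹)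
        ≤ (∑ _j : J, (N * (a * a + η) + κ * N)) * (N⁻¹ * N⁻¹) := by
          gcongr with j
          rw [lintegral_finsetSum _ fun k _ => (hF j).fun_mul (hF k)]
          exact e2 j
      _ = (N * N⁻¹) * (N * N⁻¹) * (a * a + (η + κ)) := by
          rw [Finset.sum_const, Finset.card_univ, nsmul_eq_mul, ← hN]
          ring
      _ ≤ a * a + δ * δ := by
          rw [hNw, one_mul, one_mul]
          gcongr
  have e4 : 2 * δ * ∫⁻ ω, ((∑ j, F j ω) / N - a) ∂Q + 2 * a * a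
      ≤ 2 * δ * δ + 2 * a * a := by
    calc 2 * δ * ∫⁻ ω, ((∑ j, F j ω) / N - a) ∂Q + 2 * a * a
        = ∫⁻ ω, (2 * δ * ((∑ j, F j ω) / N - a) + 2 * a * ((∑ j, F j ω) / N)) ∂Q := by
          rw [lintegral_add_right _ (hX.const_mul _), lintegral_const_mul _ hX,
            lintegral_const_mul _ (hX.sub_const _), e1]
      _ ≤ ∫⁻ ω, ((∑ j, F j ω) / N * ((∑ j, F j ω) / N) + a * a + δ * δ) ∂Q :=
          lintegral_mono fun ω => concB1_point _ _ (hXt ω) hat δ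
      _ = ∫⁻ ω, (∑ j, F j ω) / N * ((∑ j, F j ω) / N) ∂Q + a * a + δ * δ := by
          rw [lintegral_add_right _ measurable_const, lintegral_add_right _ measurable_const]
          simp
      _ ≤ a * a + δ * δ + a * a + δ * δ := by gcongr
      _ = 2 * δ * δ + 2 * a * a := by ring
  have h2 : (2 : ℝ≥0∞) * a * a ≠ ⊤ :=
    ENNReal.mul_ne_top (ENNReal.mul_ne_top ENNReal.ofNat_ne_top hat) hat
  have e5 := ENNReal.le_of_add_le_add_right h2 e4
  have h3 : (2 : ℝ≥0∞) * δ ≠ 0 := mul_ne_zero two_ne_zero (by exact_mod_cast hδ)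
  have h4 : (2 : ℝ≥0∞) * δ ≠ ⊤ := ENNReal.mul_ne_top ENNReal.ofNat_ne_top ENNReal.coe_ne_top
  exact (ENNReal.mul_le_mul_iff_right h3 h4).1 e5

theorem concB1_tail {Ω : Type*} [MeasurableSpace Ω] (Q : Measure Ω) {Y : Ω → ℝ≥0∞}
    (hY : Measurable Y) (hfin : ∫⁻ ω, Y ω ∂Q ≠ ⊤) {e : ℝ≥0∞} (he : 0 < e) :
    ∃ T : ℕ, 0 < T ∧ ∫⁻ ω, (Y ω - T) ∂Q ≤ e := by
  have h := tendsto_lintegral_of_dominated_convergence (μ := Q) (F := fun (n : ℕ) ω => Y ω - n)
    (f := fun _ => 0) Y (fun n => hY.sub_const _)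
    (fun n => Filter.Eventually.of_forall fun ω => tsub_le_self) hfin (by
      filter_upwards [ae_lt_top hY hfin] with ω hω
      obtain ⟨n, hn⟩ := ENNReal.exists_nat_gt hω.ne
      refine tendsto_const_nhds.congr' ?_
      filter_upwards [Filter.eventually_ge_atTop n] with k hk
      exact (tsub_eq_zero_of_le (hn.le.trans (by exact_mod_cast hk))).symm)
  rw [lintegral_zero] at h
  obtain ⟨T, hT1, hT2⟩ :=
    ((h.eventually (ge_mem_nhds he)).and (Filter.eventually_gt_atTop 0)).exists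
  exact ⟨T, hT2, hT1⟩

theorem Fam.lln (hP : Fam P) (hd : 1 ≤ d) {s : ℝ} (hs : 0 < s) {Y : Measure (E d) → ℝ≥0∞}
    (hY : Measurable Y) (hfin : ∫⁻ μ, Y μ ∂(P s) ≠ ⊤) {ε : ℝ≥0∞} (hε : 0 < ε) :
    ∃ m0 : ℕ, ∀ m : ℕ, m0 ≤ m →
      ∫⁻ μ, ((∑ j : Fin d → Fin m, Y (loc (gcorner 0 (m * s) m j) s μ)) / (m : ℝ≥0∞) ^ d -
        ∫⁻ ν, Y ν ∂(P s)) ∂(P (m * s)) ≤ ε := by
  classical
  obtain ⟨e, he0, heε⟩ := ENNReal.lt_iff_exists_nnreal_btwn.1 hε
  have he0' : 0 < e := by exact_mod_cast he0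
  obtain ⟨T, hT0, hT⟩ := concB1_tail (P s) hY hfin (e := ((e / 2 : ℝ≥0) : ℝ≥0∞))
    (by exact_mod_cast half_pos he0')
  have hT0' : (T : ℝ≥0) ≠ 0 := by exact_mod_cast hT0.ne'
  have hT1 : (T : ℝ≥0∞) ≠ 0 := by exact_mod_cast hT0.ne'
  have hT2 : (T : ℝ≥0∞) ≠ ⊤ := ENNReal.natCast_ne_top _
  set δ : ℝ≥0 := e / 2 / T with hδ
  have hδ0 : 0 < δ := by positivity
  set κ : ℝ≥0 := δ * δ / 2 with hκ
  have hκ0 : 0 < κ := by positivity
  obtain ⟨r, hr⟩ := hP.mix s hs κ (by exact_mod_cast hκ0)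
  obtain ⟨m1, hm1⟩ := exists_nat_ge ((2 * max r 0 / s + 1) ^ d / κ)
  refine ⟨max m1 1, fun m hm => ?_⟩
  have hm0 : 0 < m := lt_of_lt_of_le one_pos (le_of_max_le_right hm)
  have hmr : (0 : ℝ) < m := by exact_mod_cast hm0
  have hL : 0 < (m : ℝ) * s := by positivity
  have := hP.prob _ hL
  have : Nonempty (Fin d → Fin m) := ⟨fun _ => ⟨0, hm0⟩⟩
  have hsub : ∀ j : Fin d → Fin m, cube (gcorner (0 : E d) (m * s) m j) s ⊆ cube 0 (m * s) := by
    intro j
    have h := gc_subset (0 : E d) hL.le m j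
    rwa [gc, mul_div_cancel_left₀ _ hmr.ne'] at h
  have hstat : ∀ (j : Fin d → Fin m) (f : Measure (E d) → ℝ≥0∞), Measurable f →
      ∫⁻ μ, f (loc (gcorner 0 (m * s) m j) s μ) ∂(P (m * s)) = ∫⁻ μ, f μ ∂(P s) := by
    intro j f hf
    rw [← hP.stat (m * s) s _ hs hL (hsub j), lintegral_map hf (measurable_loc _ _)]
  set Z : Measure (E d) → ℝ≥0∞ := fun μ => min (Y μ) T / T with hZ
  have hZm : Measurable Z := (hY.min measurable_const).div_const _
  have hZ1 : ∀ μ, Z μ ≤ 1 := fun μ => ENNReal.div_le_of_le_mul (by simp)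
  have hTZ : ∀ μ, T * Z μ = min (Y μ) T := fun μ => ENNReal.mul_div_cancel hT1 hT2
  have hYZ : ∀ μ, Y μ ≤ T * Z μ + (Y μ - T) := by
    intro μ
    rw [hTZ]
    rcases le_total (Y μ) T with h | h
    · rw [min_eq_left h]; exact le_self_add
    · rw [min_eq_right h]; exact le_add_tsub
  have hcard : (Fintype.card (Fin d → Fin m) : ℝ≥0∞) = (m : ℝ≥0∞) ^ d := by simp
  have hm0' : (m : ℝ≥0∞) ^ d ≠ 0 := pow_ne_zero _ (by exact_mod_cast hm0.ne')
  have hmt : (m : ℝ≥0∞) ^ d ≠ ⊤ := ENNReal.pow_ne_top (ENNReal.natCast_ne_top _)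
  have hvar := concB1_var (P (m * s))
    (fun (j : Fin d → Fin m) μ => Z (loc (gcorner 0 (m * s) m j) s μ))
    (fun j => hZm.comp (measurable_loc _ _)) (fun j μ => hZ1 _) (a := ∫⁻ μ, Z μ ∂(P s))
    (η := κ) (κ := κ) (fun j => hstat j Z hZm)
    (fun j j' => ‖gcorner (0 : E d) (m * s) m j - gcorner 0 (m * s) m j'‖ < max r 0)
    (fun j => by
      have h1 := card_close_corners hs (le_max_right r 0) m j
      have h2 : (m1 : ℝ) ≤ (m : ℝ) ^ d := by
        have h3 : m1 ≤ m ^ d := (le_of_max_le_left hm).trans (Nat.le_self_pow (by omega) m)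
        exact_mod_cast h3
      have hκr : (0 : ℝ) < κ := hκ0
      have h4 := (div_le_iff₀ hκr).1 (hm1.trans h2)
      have h5 : (((Finset.univ.filter fun j' : Fin d → Fin m =>
          ‖gcorner (0 : E d) (m * s) m j - gcorner 0 (m * s) m j'‖ < max r 0).card : ℕ) : ℝ≥0)
          ≤ κ * (m : ℝ≥0) ^ d := by
        rw [← NNReal.coe_le_coe]
        push_cast
        linarith
      rw [hcard]
      exact_mod_cast h5)
    (fun j k h => hr _ _ _ hL (hsub j) (hsub k) ((le_max_left r 0).trans (not_lt.1 h)) Z Z hZm hZm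
      hZ1 hZ1) hδ0.ne' (by
      have : κ + κ = δ * δ := add_halves _
      exact_mod_cast this.le)
  rw [hcard] at hvar
  have hTa : T * ∫⁻ μ, Z μ ∂(P s) ≤ ∫⁻ μ, Y μ ∂(P s) := by
    rw [← lintegral_const_mul _ hZm]
    exact lintegral_mono fun μ => (hTZ μ).le.trans (min_le_left _ _)
  have hm1 : Measurable fun μ => (∑ j : Fin d → Fin m,
      Z (loc (gcorner 0 (m * s) m j) s μ)) / (m : ℝ≥0∞) ^ d - ∫⁻ μ, Z μ ∂(P s) :=
    ((Finset.measurable_sum _ fun j _ => hZm.comp (measurable_loc _ _)).div_const _).sub_const _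
  have hm2 : ∀ j : Fin d → Fin m, Measurable fun μ => Y (loc (gcorner 0 (m * s) m j) s μ) - T :=
    fun j => (hY.comp (measurable_loc _ _)).sub_const _
  calc ∫⁻ μ, ((∑ j : Fin d → Fin m, Y (loc (gcorner 0 (m * s) m j) s μ)) / (m : ℝ≥0∞) ^ d -
        ∫⁻ ν, Y ν ∂(P s)) ∂(P (m * s))
      ≤ ∫⁻ μ, (T * ((∑ j : Fin d → Fin m, Z (loc (gcorner 0 (m * s) m j) s μ)) / (m : ℝ≥0∞) ^ d
          - ∫⁻ μ, Z μ ∂(P s)) + (∑ j : Fin d → Fin m,
            (Y (loc (gcorner 0 (m * s) m j) s μ) - T)) * ((m : ℝ≥0∞) ^ d)⁻¹) ∂(P (m * s)) := by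
        refine lintegral_mono fun μ => ?_
        rw [tsub_le_iff_right]
        calc (∑ j : Fin d → Fin m, Y (loc (gcorner 0 (m * s) m j) s μ)) / (m : ℝ≥0∞) ^ d
            ≤ (∑ j : Fin d → Fin m, (T * Z (loc (gcorner 0 (m * s) m j) s μ)
              + (Y (loc (gcorner 0 (m * s) m j) s μ) - T))) / (m : ℝ≥0∞) ^ d := by
              gcongr with j
              exact hYZ _
          _ = T * ((∑ j : Fin d → Fin m, Z (loc (gcorner 0 (m * s) m j) s μ)) / (m : ℝ≥0∞) ^ d)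
              + (∑ j : Fin d → Fin m, (Y (loc (gcorner 0 (m * s) m j) s μ) - T))
                * ((m : ℝ≥0∞) ^ d)⁻¹ := by
              rw [Finset.sum_add_distrib, ← Finset.mul_sum, div_eq_mul_inv, div_eq_mul_inv]
              ring
          _ ≤ T * (((∑ j : Fin d → Fin m, Z (loc (gcorner 0 (m * s) m j) s μ)) / (m : ℝ≥0∞) ^ d
              - ∫⁻ μ, Z μ ∂(P s)) + ∫⁻ μ, Z μ ∂(P s))
              + (∑ j : Fin d → Fin m, (Y (loc (gcorner 0 (m * s) m j) s μ) - T))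
                * ((m : ℝ≥0∞) ^ d)⁻¹ := by
              gcongr
              exact le_tsub_add
          _ ≤ _ := by
              rw [mul_add, add_right_comm]
              gcongr
    _ = T * ∫⁻ μ, ((∑ j : Fin d → Fin m, Z (loc (gcorner 0 (m * s) m j) s μ)) / (m : ℝ≥0∞) ^ d
          - ∫⁻ μ, Z μ ∂(P s)) ∂(P (m * s)) + ∫⁻ μ, (Y μ - T) ∂(P s) := by
        rw [lintegral_add_left (hm1.const_mul _), lintegral_const_mul _ hm1,
          lintegral_mul_const _ (Finset.measurable_sum _ fun j _ => hm2 j),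
          lintegral_finsetSum _ fun j _ => hm2 j]
        have : ∀ j : Fin d → Fin m, ∫⁻ μ, (Y (loc (gcorner 0 (m * s) m j) s μ) - T) ∂(P (m * s))
            = ∫⁻ μ, (Y μ - T) ∂(P s) := fun j => hstat j (fun μ => Y μ - T) (hY.sub_const _)
        simp only [this]
        rw [Finset.sum_const, Finset.card_univ, nsmul_eq_mul, hcard, mul_right_comm,
          ENNReal.mul_inv_cancel hm0' hmt, one_mul]
    _ ≤ T * δ + ((e / 2 : ℝ≥0) : ℝ≥0∞) := by gcongr
    _ = e := by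
        have : (T : ℝ≥0) * δ + e / 2 = e := by
          rw [hδ, mul_div_cancel₀ _ hT0', add_halves]
        exact_mod_cast this
    _ ≤ ε := heε.le

end Pool.Agent.Lib.MP_fe8b6f_pr
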