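import Pool.Agent.Lib.MP_fe8b6f_pr.Stmt

/-! Working definitions (not used in the final statement). -/

open MeasureTheory ProbabilityTheory
open scoped NNReal ENNReal

noncomputable section

namespace Pool.Agent.Lib.MP_fe8b6f_pr

variable {d : ℕ}

/-! ### Cubes, grids, localisation -/

/-- translate a measure by `-a` -/
def sh (a : E d) (μ : Measure (E d)) : Measure (E d) := μ.map fun x => x - a

/-- the part of `μ` in the cube `cube a s`, moved to `cube 0 s` -/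
def loc (a : E d) (s : ℝ) (μ : Measure (E d)) : Measure (E d) := (sh a μ).restrict (cube 0 s)

/-- lower corner of the `j`-th cell of the `m`-grid of `cube a s` -/
def gcorner (a : E d) (s : ℝ) (m : ℕ) (j : Fin d → Fin m) : E d :=
  a + (s / m) • (WithLp.toLp 2 fun i => ((j i : ℕ) : ℝ) : E d)

/-- the `j`-th cell of the `m`-grid of `cube a s` -/
def gc (a : E d) (s : ℝ) (m : ℕ) (j : Fin d → Fin m) : Set (E d) :=
  cube (gcorner a s m j) (s / m)

/-- `ν` averaged over the cells of the `m`-grid -/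
def avg (ν : Measure (E d)) (a : E d) (s : ℝ) (m : ℕ) : Measure (E d) :=
  ∑ j : Fin d → Fin m, (ν (gc a s m j) / volume (gc a s m j)) • volume.restrict (gc a s m j)

/-- weighted discrepancy of `ν` with respect to Lebesgue measure on the `m`-grid -/
def disc (p : ℝ) (ν : Measure (E d)) (a : E d) (s : ℝ) (m : ℕ) : ℝ≥0∞ :=
  ∑ j : Fin d → Fin m,
    ENNReal.ofReal ((s / m) ^ (p + d - d * p) * |(ν (gc a s m j)).toReal - (s / m) ^ d| ^ p)

/-- cost of transporting `μ` on `cube 0 s` to the uniform measure on the cube shifted by `-ξ` -/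
def G (p s : ℝ) (ξ : E d) (μ : Measure (E d)) : ℝ≥0∞ :=
  Wp p (μ.restrict (cube 0 s))
    ((μ (cube 0 s) / volume (cube (0 : E d) s)) • volume.restrict (cube (-ξ) s))

open Classical in
/-- measurable version of `G` -/
def Gf (p s : ℝ) (ξ : E d) (μ : Measure (E d)) : ℝ≥0∞ :=
  if μ (cube 0 s) = ⊤ then 0 else G p s ξ μ

/-- functional used for `p < 1` -/
def F0 (p L : ℝ) (μ : Measure (E d)) : ℝ≥0∞ :=
  Gf p L 0 μ / ENNReal.ofReal (L ^ d) -
    ENNReal.ofReal (√d * L) ^ p * ENNReal.ofReal |(μ (cube 0 L)).toReal - L ^ d| /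
      ENNReal.ofReal (L ^ d)

/-- half-open box -/
def box (a b : E d) : Set (E d) := {x | ∀ i, a i ≤ x i ∧ x i < b i}

/-- closed cube `[-t, L+t]^d` -/
def ecube (L t : ℝ) : Set (E d) := {x | ∀ i, -t ≤ x i ∧ x i ≤ L + t}

/-- boundary layer of half-width `t` of the cube of side `L` -/
def Lay (L t : ℝ) : Set (E d) := {x | x ∈ ecube L t ∧ ∃ i, x i ≤ t ∨ L - t ≤ x i}

/-- part of the boundary layer close to an interior hyperplane of the `2^J`-grid -/
def ZL (L t : ℝ) (J : ℕ) (θ : ℝ) : Set (E d) :=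
  {x | x ∈ ecube L t ∧ ∃ i k, i ≠ k ∧ (x k ≤ t ∨ L - t ≤ x k) ∧
    ∃ n : ℕ, 0 < n ∧ n < 2 ^ J ∧ |x i - n * L / 2 ^ J| ≤ 3 * θ * L}

/-- folding map onto the cube of side `L` -/
def fold (L : ℝ) (x : E d) : E d := WithLp.toLp 2 fun i => L - |(|x i| - L)|

/-- change coordinate `i` to `t` -/
def upd (x : E d) (i : Fin d) (t : ℝ) : E d := WithLp.toLp 2 (Function.update x.ofLp i t)

/-- reflection in the hyperplane `x i = L / 2` -/
def refl (i : Fin d) (L : ℝ) (x : E d) : E d := upd x i (L - x i)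

/-- action of the reflection on measures on the cube of side `L` -/
def reflM (i : Fin d) (L : ℝ) (μ : Measure (E d)) : Measure (E d) :=
  (μ.map (refl i L)).restrict (cube 0 L)

/-! ### Periodic plans -/

/-- `Λ ℤ^d`-periodisation of a measure -/
def per (Λ : ℝ) (μ : Measure (E d)) : Measure (E d) :=
  Measure.sum fun k : Fin d → ℤ => μ.map fun x => x + Λ • lat k

/-- periodic function -/
def IsPer {β : Type*} (Λ : ℝ) (f : E d → β) : Prop :=
  ∀ (x : E d) (k : Fin d → ℤ), f (x + Λ • lat k) = f x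

/-- periodic transport plan from `μ` to Lebesgue measure -/
structure PPlan (Λ : ℝ) (μ : Measure (E d)) (γ : Measure (E d × E d)) : Prop where
  fst : γ.map Prod.fst = μ
  snd : γ.map Prod.snd = volume
  inv : ∀ k : Fin d → ℤ, γ.map (fun q => (q.1 + Λ • lat k, q.2 + Λ • lat k)) = γ

/-- local cost of a plan: pairs starting in the cube of side `L` -/
def CQ (p L : ℝ) (γ : Measure (E d × E d)) : ℝ≥0∞ :=
  ∫⁻ q in {q : E d × E d | q.1 ∈ cube 0 L}, ‖q.1 - q.2‖ₑ ^ p ∂γ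

/-- optimal periodic cost per period cell -/
def PW (p Λ : ℝ) (μ : Measure (E d)) : ℝ≥0∞ :=
  ⨅ (γ : Measure (E d × E d)) (_ : PPlan Λ μ γ), CQ p Λ γ

/-- translate a plan by `-z` -/
def shP (z : E d) (γ : Measure (E d × E d)) : Measure (E d × E d) :=
  γ.map fun q => (q.1 - z, q.2 - z)

/-- average over the period cell -/
def avz (Λ : ℝ) (φ : E d → ℝ≥0∞) : ℝ≥0∞ :=
  (∫⁻ z in cube 0 Λ, φ z) / ENNReal.ofReal (Λ ^ d)

/-- law of the displacement of a periodic plan -/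
def rho (Λ : ℝ) (γ : Measure (E d × E d)) : Measure (E d) :=
  (ENNReal.ofReal (Λ ^ d))⁻¹ •
    (γ.restrict {q : E d × E d | q.1 ∈ cube 0 Λ}).map fun q => q.1 - q.2

/-- mass of the pairs starting in the cube and ending outside -/
def FSep (L : ℝ) (γ : Measure (E d × E d)) : ℝ≥0∞ :=
  γ {q | q.1 ∈ cube 0 L ∧ q.2 ∉ cube 0 L}

/-- mass of long pairs touching the cube -/
def FB (K K0 L : ℝ) (γ : Measure (E d × E d)) : ℝ≥0∞ :=
  γ {q | K < ‖q.1 - q.2‖ ∧ q.1 ∈ cube 0 L} + γ {q | K < ‖q.1 - q.2‖ ∧ q.2 ∈ ecube L K0}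

/-- weighted mass of short pairs near the boundary -/
def FS (p K K0 L : ℝ) (γ : Measure (E d × E d)) : ℝ≥0∞ :=
  ∫⁻ q in {q : E d × E d | ‖q.1 - q.2‖ ≤ K ∧ q.1 ∈ Lay L (‖q.1 - q.2‖ + K0)},
    ENNReal.ofReal ((‖q.1 - q.2‖ + K0) ^ (p - 1)) ∂γ

/-- mass of short pairs near the boundary and near a grid hyperplane -/
def FZ (K K0 L : ℝ) (J : ℕ) (θ : ℝ) (γ : Measure (E d × E d)) : ℝ≥0∞ :=
  γ {q | ‖q.1 - q.2‖ ≤ K ∧ q.1 ∈ ZL L (‖q.1 - q.2‖ + K0) J θ}

/-- first moment of short pairs ending in the cube -/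
def FV1 (K K0 L : ℝ) (γ : Measure (E d × E d)) : ℝ≥0∞ :=
  ∫⁻ q in {q : E d × E d | ‖q.1 - q.2‖ ≤ K ∧ q.2 ∈ cube 0 L},
    ENNReal.ofReal (‖q.1 - q.2‖ + K0) ∂γ

/-- first moment of short pairs ending in the boundary layer -/
def FV2 (K K0 L : ℝ) (γ : Measure (E d × E d)) : ℝ≥0∞ :=
  ∫⁻ q in {q : E d × E d | ‖q.1 - q.2‖ ≤ K ∧ q.2 ∈ Lay L (2 * K)},
    ENNReal.ofReal (‖q.1 - q.2‖ + K0) ∂γ

/-- mean truncated displacement of the pairs ending in `cube a s` -/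
def Dv (K s : ℝ) (a : E d) (γ : Measure (E d × E d)) : E d :=
  (s ^ d)⁻¹ • ∫ q in {q : E d × E d | ‖q.1 - q.2‖ ≤ K ∧ q.2 ∈ cube a s}, (q.1 - q.2) ∂γ

/-- mean distance of the local mean displacements from `ξ` -/
def FD (K L : ℝ) (m : ℕ) (ξ : E d) (γ : Measure (E d × E d)) : ℝ :=
  (∑ j : Fin d → Fin m, ‖Dv K (L / m) (gcorner 0 L m j) γ - ξ‖) / (m : ℝ) ^ d

/-- the convex function used to find good scales -/
def Phi (v : E d) : ℝ := √(1 + ‖v‖ ^ 2)

/-- Jensen gap between scale `L / m` and scale `L` -/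
def FBr (K L : ℝ) (m : ℕ) (γ : Measure (E d × E d)) : ℝ :=
  (∑ j : Fin d → Fin m, Phi (Dv K (L / m) (gcorner 0 L m j) γ)) / (m : ℝ) ^ d - Phi (Dv K L 0 γ)

/-- the folded image of the short pairs starting in the cube, after the shift by `ξ` -/
def nu1 (K L : ℝ) (ξ : E d) (γ : Measure (E d × E d)) : Measure (E d) :=
  (γ.restrict {q : E d × E d | ‖q.1 - q.2‖ ≤ K ∧ q.1 ∈ cube 0 L}).map fun q => fold L (q.2 + ξ)

/-- smooth approximation of the indicator of a grid cell of the unit cube -/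
structure TestFn (J : ℕ) (θ Mc : ℝ) (j : Fin d → Fin (2 ^ J)) (h : E d → ℝ) (g : E d → E d) :
    Prop where
  cont : Continuous h
  nonneg : ∀ x, 0 ≤ h x
  le_one : ∀ x, h x ≤ 1
  lip : ∀ a ∈ ecube 1 0, ∀ b ∈ ecube 1 0, |h a - h b| ≤ Mc * ‖a - b‖
  grad : ∀ c ∈ ecube 1 0, ‖g c‖ ≤ Mc
  taylor : ∀ a ∈ ecube 1 0, ∀ b ∈ ecube 1 0, ∀ c ∈ ecube 1 0,
    |h a - h b - inner ℝ (g c) (a - b)| ≤ Mc * ‖a - b‖ * (‖a - c‖ + ‖b - c‖)
  ind : ∀ x ∈ cube (0 : E d) 1, (∀ (i : Fin d) (n : ℕ), 0 < n → n < 2 ^ J →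
    θ < |x i - n / 2 ^ J|) → h x = (gc 0 1 (2 ^ J) j).indicator 1 x

/-- the good event for the measure on the cube of side `L` -/
def Good {ι : Type} (K0 δ L : ℝ) (h : ι → E d → ℝ) (μ : Measure (E d)) : Prop :=
  μ (cube 0 L) ≠ ⊤ ∧ μ (cube 0 L ∩ Lay L K0) ≤ ENNReal.ofReal (δ * L ^ d) ∧
    ∀ r, |∫ x in cube 0 L, h r (L⁻¹ • x) ∂μ - ∫ x in cube 0 L, h r (L⁻¹ • x)| ≤ δ * L ^ (d - 1)

/-! ### Compound Poisson laws on a commutative monoid -/

section CP

variable {M : Type} [AddCommMonoid M] [MeasurableSpace M]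

/-- convolution powers -/
def cpow (n : Measure M) : ℕ → Measure M
  | 0 => Measure.dirac 0
  | k + 1 => Measure.conv n (cpow n k)

/-- compound Poisson law with (finite) intensity `n` -/
def CP (n : Measure M) : Measure M :=
  Measure.sum fun k : ℕ =>
    ENNReal.ofReal (Real.exp (-(n Set.univ).toReal) / (Nat.factorial k : ℝ)) • cpow n k

end CP

/-! ### Paths -/

/-- path stopped at time `t` -/
def stop (t : ℝ≥0) (w : Path d) : Path d :=
  w.comp ⟨fun s => min s t, continuous_id.min continuous_const⟩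

/-- increments of the path after time `t` -/
def shift (t : ℝ≥0) (w : Path d) : Path d :=
  w.comp ⟨fun s => t + s, continuous_const.add continuous_id⟩ - ContinuousMap.const _ (w t)

/-- Brownian scaling -/
def scal (c : ℝ≥0) (w : Path d) : Path d :=
  (c : ℝ) • w.comp ⟨fun s => s / c ^ 2, continuous_id.div_const _⟩

/-- rotated path -/
def rot (O : E d ≃ₗᵢ[ℝ] E d) (w : Path d) : Path d :=
  (⟨O, O.continuous⟩ : C(E d, E d)).comp w

/-- heat kernel of standard Brownian motion -/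
def heat (t : ℝ) (x : E d) : ℝ≥0∞ :=
  ENNReal.ofReal ((2 * Real.pi * t) ^ (-(d : ℝ) / 2) * Real.exp (-‖x‖ ^ 2 / (2 * t)))

/-- Green function -/
def green (x : E d) : ℝ≥0∞ := ∫⁻ t in Set.Ioi (0 : ℝ), heat t x

/-- the path visits `K` at a time in `I` -/
def hitS (K : Set (E d)) (I : Set ℝ) : Set (E d × Path d) :=
  {q | ∃ t ∈ I, q.1 + q.2 t.toNNReal ∈ K}

/-- first hitting time of `K` (zero if `K` is never hit) -/
def ht (K : Set (E d)) (q : E d × Path d) : ℝ≥0 := sInf {t : ℝ≥0 | q.1 + q.2 t ∈ K}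

/-- periodisation of a set -/
def perS (Λ : ℝ) (K : Set (E d)) : Set (E d) := {x | ∃ k : Fin d → ℤ, x + Λ • lat k ∈ K}

/-- intensity of the interlacement seen through `φ`, built in the ball of radius `R` -/
def nuI (W : Measure (Path d)) (R : ℝ) (φ : Measure (E d) → Measure (E d)) :
    Measure (Measure (E d)) :=
  ENNReal.ofReal (capBall d R) •
    ((sphereUnif d R).prod W).map fun q => φ (occ q.1 q.2 (Set.Ici 0))

/-- law of the level-one interlacement in the cube of side `L` -/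
def PL (W : Measure (Path d)) (L : ℝ) : Measure (Measure (E d)) :=
  CP (nuI W (√d * L + 1) (loc 0 L))

/-- stationary Brownian motion on the torus of side `Λ` -/
def TP (W : Measure (Path d)) (Λ : ℝ) : Measure (E d × Path d) :=
  (ENNReal.ofReal (Λ ^ d))⁻¹ • (volume.restrict (cube 0 Λ)).prod W

/-- periodic occupation measure -/
def tm (Λ : ℝ) (I : Set ℝ) (q : E d × Path d) : Measure (E d) := per Λ (occ q.1 q.2 I)

/-! ### Abstract families -/

/-- properties of the family of laws of the limiting random measure on cubes -/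
structure Fam (P : ℝ → Measure (Measure (E d))) : Prop where
  prob : ∀ L, 0 < L → IsProbabilityMeasure (P L)
  stat : ∀ (L s : ℝ) (a : E d), 0 < s → 0 < L → cube a s ⊆ cube 0 L →
    (P L).map (loc a s) = P s
  refl : ∀ (L : ℝ) (i : Fin d), 0 < L → (P L).map (reflM i L) = P L
  mean : ∀ L, 0 < L → ∀ f : E d → ℝ≥0∞, Measurable f →
    ∫⁻ μ, (∫⁻ x in cube 0 L, f x ∂μ) ∂(P L) = ∫⁻ x in cube 0 L, f x
  mom : ∀ q : ℝ, 1 ≤ q → ∃ C : ℝ, ∀ L : ℝ, 1 ≤ L → ∀ h : E d → ℝ, Measurable h →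
    (∀ x, 0 ≤ h x) → (∀ x, h x ≤ 1) →
    ∫⁻ μ, ENNReal.ofReal (|∫ x in cube 0 L, h x ∂μ - ∫ x in cube 0 L, h x| ^ q) ∂(P L) ≤
      ENNReal.ofReal (C * L ^ (q * (d + 2) / 2))
  mix : ∀ s : ℝ, 0 < s → ∀ ε : ℝ≥0∞, 0 < ε → ∃ r : ℝ, ∀ (L : ℝ) (a b : E d), 0 < L →
    cube a s ⊆ cube 0 L → cube b s ⊆ cube 0 L → r ≤ ‖a - b‖ →
    ∀ F H : Measure (E d) → ℝ≥0∞, Measurable F → Measurable H → (∀ μ, F μ ≤ 1) →
      (∀ μ, H μ ≤ 1) →
      ∫⁻ μ, F (loc a s μ) * H (loc b s μ) ∂(P L) ≤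
        (∫⁻ μ, F μ ∂(P s)) * (∫⁻ μ, H μ ∂(P s)) + ε

/-- properties of the family of periodic random measures: local limit `P` -/
structure TFam {X : Type} [MeasurableSpace X] (P : ℝ → Measure (Measure (E d)))
    (T : ℝ → Measure X) (m : ℝ → X → Measure (E d)) : Prop where
  prob : ∀ Λ, 0 < Λ → IsProbabilityMeasure (T Λ)
  meas : ∀ Λ L : ℝ, 0 < Λ → Measurable fun zq : E d × X => loc zq.1 L (m Λ zq.2)
  fin : ∀ (Λ L : ℝ) (z : E d) (q : X), 0 < Λ → m Λ q (cube z L) ≠ ⊤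
  lim : ∀ L : ℝ, 0 < L → ∀ ε : ℝ≥0∞, 0 < ε → ∃ Λ0 : ℝ, ∀ Λ, Λ0 ≤ Λ → ∀ (z : E d)
    (F : Measure (E d) → ℝ≥0∞), Measurable F → (∀ μ, F μ ≤ 1) →
    ∫⁻ μ, F μ ∂(P L) ≤ ∫⁻ q, F (loc z L (m Λ q)) ∂(T Λ) + ε

/-- normalised expected cost on the cube of side `L` -/
def cL (p : ℝ) (P : ℝ → Measure (Measure (E d))) (ξ : E d) (L : ℝ) : ℝ≥0∞ :=
  (∫⁻ μ, Gf p L ξ μ ∂(P L)) / ENNReal.ofReal (L ^ d)

/-- lower limit of the normalised cost -/
def cInf (p : ℝ) (P : ℝ → Measure (Measure (E d))) : ℝ≥0∞ :=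
  Filter.liminf (cL p P 0) Filter.atTop

/-- normalised expected periodic cost -/
def tL {X : Type} [MeasurableSpace X] (p : ℝ) (T : ℝ → Measure X)
    (m : ℝ → X → Measure (E d)) (Λ : ℝ) : ℝ≥0∞ :=
  (∫⁻ q, PW p Λ (m Λ q) ∂(T Λ)) / ENNReal.ofReal (Λ ^ d)

end Pool.Agent.Lib.MP_fe8b6f_pr
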