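import Pool.Agent.Lib.MP_fe8b6f_pr.Loc0

/-! Averages of the error functionals. -/

open MeasureTheory ProbabilityTheory
open scoped NNReal ENNReal

noncomputable section

namespace Pool.Agent.Lib.MP_fe8b6f_pr

variable {d : ℕ}

theorem exp_meas (γ : Measure (E d × E d)) [SFinite γ] {S : Set (E d × E d)}
    (hS : MeasurableSet S) {φ : E d × E d → ℝ≥0∞} (hφ : Measurable φ) :
    Measurable fun z => ∫⁻ q in S, φ q ∂(shP z γ) := by
  simp_rw [← lintegral_indicator hS]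
  exact measurable_lintegral_shP (hφ.indicator hS)

theorem exp_meas_set (γ : Measure (E d × E d)) [SFinite γ] {S : Set (E d × E d)}
    (hS : MeasurableSet S) : Measurable fun z => shP z γ S := by
  simp_rw [← setLIntegral_one]
  exact exp_meas γ hS measurable_const

theorem exp_short (K : ℝ) : MeasurableSet {q : E d × E d | ‖q.1 - q.2‖ ≤ K} :=
  measurableSet_le (by fun_prop) measurable_const

theorem exp_long (K : ℝ) : MeasurableSet {q : E d × E d | K < ‖q.1 - q.2‖} :=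
  measurableSet_lt measurable_const (by fun_prop)

theorem exp_set_FS (K K0 L : ℝ) :
    MeasurableSet {q : E d × E d | ‖q.1 - q.2‖ ≤ K ∧ q.1 ∈ Lay L (‖q.1 - q.2‖ + K0)} :=
  (exp_short K).inter (measurableSet_Lay_fun L measurable_fst (by fun_prop))

theorem exp_set_FZ (K K0 L : ℝ) (J : ℕ) (θ : ℝ) :
    MeasurableSet {q : E d × E d | ‖q.1 - q.2‖ ≤ K ∧ q.1 ∈ ZL L (‖q.1 - q.2‖ + K0) J θ} :=
  (exp_short K).inter (measurableSet_ZL_fun L J θ measurable_fst (by fun_prop))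

theorem exp_set_FV1 (K L : ℝ) :
    MeasurableSet {q : E d × E d | ‖q.1 - q.2‖ ≤ K ∧ q.2 ∈ cube 0 L} :=
  (exp_short K).inter (measurable_snd (measurableSet_cube 0 L))

theorem exp_set_FV2 (K L : ℝ) :
    MeasurableSet {q : E d × E d | ‖q.1 - q.2‖ ≤ K ∧ q.2 ∈ Lay L (2 * K)} :=
  (exp_short K).inter (measurableSet_Lay_fun L measurable_snd measurable_const)

theorem exp_set_FB1 (K L : ℝ) :
    MeasurableSet {q : E d × E d | K < ‖q.1 - q.2‖ ∧ q.1 ∈ cube 0 L} :=
  (exp_long K).inter (measurable_fst (measurableSet_cube 0 L))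

theorem exp_set_FB2 (K K0 L : ℝ) :
    MeasurableSet {q : E d × E d | K < ‖q.1 - q.2‖ ∧ q.2 ∈ ecube L K0} :=
  (exp_long K).inter (measurable_snd (measurableSet_ecube L K0))

theorem exp_vol_sub (A : Set (E d)) (v : E d) : volume {u : E d | u - v ∈ A} = volume A := by
  simp_rw [sub_eq_add_neg]
  exact measure_preimage_add_right volume (-v) A

/-- averaging formula for a weight depending on the displacement only -/
theorem exp_avz {Λ : ℝ} (hΛ : 0 < Λ) {μ : Measure (E d)} {γ : Measure (E d × E d)}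
    (hγ : PPlan Λ μ γ) {S : Set (E d × E d)} (hS : MeasurableSet S) {φ : E d → ℝ≥0∞}
    (hφ : Measurable φ) :
    avz Λ (fun z => ∫⁻ q in S, φ (q.1 - q.2) ∂(shP z γ)) =
      ∫⁻ v, φ v * volume {u | (u, u - v) ∈ S} ∂(rho Λ γ) := by
  simp_rw [← lintegral_indicator hS]
  have hφ' : Measurable fun q : E d × E d => φ (q.1 - q.2) :=
    hφ.comp (measurable_fst.sub measurable_snd)
  rw [hγ.avz_lintegral hΛ (hφ'.indicator hS)]
  refine lintegral_congr fun v => ?_
  have hm : MeasurableSet {u : E d | (u, u - v) ∈ S} :=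
    (measurable_id.prodMk (measurable_id.sub_const v)) hS
  rw [← lintegral_indicator_const hm]
  refine lintegral_congr fun u => ?_
  by_cases hu : (u, u - v) ∈ S
  · rw [Set.indicator_of_mem hu, Set.indicator_of_mem (show u ∈ {u : E d | (u, u - v) ∈ S} from hu)]
    simp
  · rw [Set.indicator_of_notMem hu,
      Set.indicator_of_notMem (show u ∉ {u : E d | (u, u - v) ∈ S} from hu)]

theorem exp_avz_le {p Λ : ℝ} (hp : 0 ≤ p) (hΛ : 0 < Λ) {μ : Measure (E d)}
    {γ : Measure (E d × E d)} (hγ : PPlan Λ μ γ) {S : Set (E d × E d)} (hS : MeasurableSet S)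
    {φ : E d → ℝ≥0∞} (hφ : Measurable φ) {A : ℝ} (hA : 0 ≤ A)
    (h : ∀ v, φ v * volume {u | (u, u - v) ∈ S} ≤ ENNReal.ofReal (A * (1 + ‖v‖ ^ p))) :
    avz Λ (fun z => ∫⁻ q in S, φ (q.1 - q.2) ∂(shP z γ)) ≤
      ENNReal.ofReal A * (1 + CQ p Λ γ / ENNReal.ofReal (Λ ^ d)) := by
  have := hγ.isProbabilityMeasure_rho hΛ
  rw [exp_avz hΛ hγ hS hφ]
  refine (lintegral_mono h).trans (le_of_eq ?_)
  have e : ∀ v : E d, ENNReal.ofReal (A * (1 + ‖v‖ ^ p)) = ENNReal.ofReal A * (1 + ‖v‖ₑ ^ p) := by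
    intro v
    rw [ENNReal.ofReal_mul hA, ENNReal.ofReal_add zero_le_one (by positivity), ENNReal.ofReal_one,
      ← ENNReal.ofReal_rpow_of_nonneg (norm_nonneg v) hp, ofReal_norm]
  simp_rw [e]
  rw [lintegral_const_mul' _ _ ENNReal.ofReal_ne_top, lintegral_add_left measurable_const,
    lintegral_rho_cost p hΛ, lintegral_one, measure_univ]

theorem exp_t {p K0 r : ℝ} (hp : 1 ≤ p) (hK0 : 0 < K0) (hr : 0 ≤ r) :
    (r + K0) ^ p ≤ (1 + K0) ^ p * (1 + r ^ p) ∧ r + K0 ≤ (1 + K0) ^ p * (1 + r ^ p) := by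
  have h1 : r + K0 ≤ (1 + K0) * max 1 r := by
    have := le_max_left 1 r
    have := le_max_right 1 r
    nlinarith
  have h2 : max 1 r ^ p ≤ 1 + r ^ p := by
    have := Real.rpow_nonneg hr p
    rcases max_choice 1 r with h | h <;> rw [h]
    · rw [Real.one_rpow]; linarith
    · linarith
  have h3 : 1 ≤ (1 + K0) * max 1 r :=
    one_le_mul_of_one_le_of_one_le (by linarith) (le_max_left _ _)
  have h4 : ((1 + K0) * max 1 r) ^ p ≤ (1 + K0) ^ p * (1 + r ^ p) := by
    rw [Real.mul_rpow (by linarith) (by positivity)]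
    exact mul_le_mul_of_nonneg_left h2 (by positivity)
  exact ⟨(Real.rpow_le_rpow (by linarith) h1 (by linarith)).trans h4,
    h1.trans ((Real.self_le_rpow_of_one_le h3 hp).trans h4)⟩

theorem exp_vol_and (P : Prop) (A : Set (E d)) {c B : ℝ≥0∞} (h : P → c * volume A ≤ B) :
    c * volume {u | P ∧ u ∈ A} ≤ B := by
  by_cases hP : P
  · simpa [hP] using h hP
  · simp [hP]

theorem exp_geom (a : ℕ → ℝ) (h0 : ∀ i, 0 ≤ a i) (h2 : ∀ i, 2 * a i ≤ a (i + 1)) (P : ℕ → Prop)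
    [DecidablePred P] {B : ℝ} (hB : 0 ≤ B) (hP : ∀ i, P i → a i ≤ B) (M : ℕ) :
    ∑ i ∈ Finset.range M, (if P i then a i else 0) ≤ 2 * B := by
  have h1 : ∀ M, ∑ i ∈ Finset.range M, (if P i then a i else 0) ≤ a M := by
    intro M
    induction M with
    | zero => simpa using h0 0
    | succ M ih =>
      rw [Finset.sum_range_succ]
      have := h2 M
      have := h0 M
      split_ifs <;> linarith
  induction M with
  | zero => simpa using hB
  | succ M ih =>
    rw [Finset.sum_range_succ]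
    split_ifs with h
    · have := hP M h
      have := h1 M
      linarith
    · linarith

theorem exp_FB {p Λ L K K0 : ℝ} (hΛ : 0 < Λ) {μ : Measure (E d)} {γ : Measure (E d × E d)}
    (hγ : PPlan Λ μ γ) (hL : 0 < L) (hK0 : 0 ≤ K0) (hKL : K0 ≤ L) :
    avz Λ (fun z => ENNReal.ofReal (L ^ p) * FB K K0 L (shP z γ) / ENNReal.ofReal (L ^ d)) ≤
      2 * ∫⁻ v, ENNReal.ofReal (3 ^ d * if K < ‖v‖ then L ^ p else 0) ∂(rho Λ γ) := by
  have := hγ.sigmaFinite
  have hc : ∀ (v : E d) (A : Set (E d)), volume A ≤ ENNReal.ofReal ((3 * L) ^ d) →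
      ENNReal.ofReal (L ^ p) / ENNReal.ofReal (L ^ d) * volume {u | K < ‖v‖ ∧ u ∈ A} ≤
        ENNReal.ofReal (3 ^ d * if K < ‖v‖ then L ^ p else 0) := by
    intro v A hA
    refine exp_vol_and _ _ fun hv => ?_
    refine (mul_le_mul_right hA _).trans (le_of_eq ?_)
    rw [if_pos hv, ← ENNReal.ofReal_div_of_pos (by positivity),
      ← ENNReal.ofReal_mul (by positivity), mul_pow]
    congr 1
    field_simp
  have e : (fun z => ENNReal.ofReal (L ^ p) * FB K K0 L (shP z γ) / ENNReal.ofReal (L ^ d)) =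
      fun z => (∫⁻ q in {q : E d × E d | K < ‖q.1 - q.2‖ ∧ q.1 ∈ cube 0 L},
          (fun _ => ENNReal.ofReal (L ^ p) / ENNReal.ofReal (L ^ d)) (q.1 - q.2) ∂(shP z γ)) +
        ∫⁻ q in {q : E d × E d | K < ‖q.1 - q.2‖ ∧ q.2 ∈ ecube L K0},
          (fun _ => ENNReal.ofReal (L ^ p) / ENNReal.ofReal (L ^ d)) (q.1 - q.2) ∂(shP z γ) := by
    funext z
    rw [setLIntegral_const, setLIntegral_const, FB, ← mul_add, ENNReal.mul_div_right_comm]
  rw [e, avz_add Λ (exp_meas γ (exp_set_FB1 K L) measurable_const),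
    exp_avz hΛ hγ (exp_set_FB1 K L) measurable_const,
    exp_avz hΛ hγ (exp_set_FB2 K K0 L) measurable_const, two_mul]
  refine add_le_add (lintegral_mono fun v => ?_) (lintegral_mono fun v => ?_)
  · simp only [Set.mem_ofPred_eq, sub_sub_cancel]
    refine hc v _ ?_
    rw [volume_cube _ hL.le]
    exact ENNReal.ofReal_le_ofReal (pow_le_pow_left₀ hL.le (by linarith) d)
  · simp only [Set.mem_ofPred_eq, sub_sub_cancel]
    refine hc v {u | u - v ∈ ecube L K0} ?_
    rw [exp_vol_sub, volume_ecube (by linarith)]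
    exact ENNReal.ofReal_le_ofReal (pow_le_pow_left₀ (by linarith) (by linarith) d)

theorem measurable_FS_shP (p K K0 L : ℝ) (γ : Measure (E d × E d)) [SFinite γ] :
    Measurable fun z => FS p K K0 L (shP z γ) := by
  exact exp_meas γ (exp_set_FS K K0 L) (by fun_prop)

theorem measurable_FB_shP (K K0 L : ℝ) (γ : Measure (E d × E d)) [SFinite γ] :
    Measurable fun z => FB K K0 L (shP z γ) := by
  exact (exp_meas_set γ (exp_set_FB1 K L)).add (exp_meas_set γ (exp_set_FB2 K K0 L))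

theorem measurable_FZ_shP (K K0 L : ℝ) (J : ℕ) (θ : ℝ) (γ : Measure (E d × E d)) [SFinite γ] :
    Measurable fun z => FZ K K0 L J θ (shP z γ) := by
  exact exp_meas_set γ (exp_set_FZ K K0 L J θ)

theorem measurable_FV1_shP (K K0 L : ℝ) (γ : Measure (E d × E d)) [SFinite γ] :
    Measurable fun z => FV1 K K0 L (shP z γ) := by
  exact exp_meas γ (exp_set_FV1 K L) (by fun_prop)

theorem measurable_FV2_shP (K K0 L : ℝ) (γ : Measure (E d × E d)) [SFinite γ] :
    Measurable fun z => FV2 K K0 L (shP z γ) := by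
  exact exp_meas γ (exp_set_FV2 K L) (by fun_prop)

theorem avz_errors {p : ℝ} (hp : 1 ≤ p) (hd : 2 ≤ d) {K0 : ℝ} (hK0 : 0 < K0) :
    ∃ C : ℝ, 0 < C ∧ ∀ (Λ L K θ : ℝ) (J : ℕ) (μ : Measure (E d)) (γ : Measure (E d × E d)),
      0 < Λ → PPlan Λ μ γ → K0 ≤ K → 2 * K ≤ L → 0 ≤ θ →
      avz Λ (fun z => FS p K K0 L (shP z γ)) ≤
          ENNReal.ofReal (C * L ^ (d - 1)) * (1 + CQ p Λ γ / ENNReal.ofReal (Λ ^ d)) ∧
        avz Λ (fun z => FZ K K0 L J θ (shP z γ)) ≤
          ENNReal.ofReal (C * 2 ^ J * θ * L ^ (d - 1)) *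
            (1 + CQ p Λ γ / ENNReal.ofReal (Λ ^ d)) ∧
        avz Λ (fun z => FV1 K K0 L (shP z γ)) ≤
          ENNReal.ofReal (C * L ^ d) * (1 + CQ p Λ γ / ENNReal.ofReal (Λ ^ d)) ∧
        avz Λ (fun z => FV2 K K0 L (shP z γ)) ≤
          ENNReal.ofReal (C * K * L ^ (d - 1)) * (1 + CQ p Λ γ / ENNReal.ofReal (Λ ^ d)) := by
  obtain ⟨c1, hc1⟩ : ∃ c1 : ℝ, c1 = 4 * d * 3 ^ (d - 1) := ⟨_, rfl⟩
  obtain ⟨c2, hc2⟩ : ∃ c2 : ℝ, c2 = 24 * d ^ 2 * 3 ^ (d - 2) := ⟨_, rfl⟩
  obtain ⟨c0, hc0⟩ : ∃ c0 : ℝ, c0 = (1 + K0) ^ p := ⟨_, rfl⟩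
  have h0 : 0 < c0 := by rw [hc0]; positivity
  have h1 : 0 ≤ c1 := by rw [hc1]; positivity
  have h2 : 0 ≤ c2 := by rw [hc2]; positivity
  have hp0 : 0 ≤ p := by linarith
  have ht : ∀ v : E d, (‖v‖ + K0) ^ p ≤ c0 * (1 + ‖v‖ ^ p) ∧ ‖v‖ + K0 ≤ c0 * (1 + ‖v‖ ^ p) :=
    fun v => hc0 ▸ exp_t hp hK0 (norm_nonneg v)
  have key : ∀ (c X t R : ℝ), c ≤ 2 * c1 + c2 + 1 → 0 ≤ c → 0 ≤ X → 0 ≤ R → t ≤ c0 * R →
      c * X * t ≤ (2 * c1 + c2 + 1) * c0 * X * R := by
    intro c X t R hc hc' hX hR h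
    calc c * X * t ≤ c * X * (c0 * R) := mul_le_mul_of_nonneg_left h (mul_nonneg hc' hX)
      _ = c * (X * (c0 * R)) := by ring
      _ ≤ (2 * c1 + c2 + 1) * (X * (c0 * R)) :=
        mul_le_mul_of_nonneg_right hc (by positivity)
      _ = _ := by ring
  refine ⟨(2 * c1 + c2 + 1) * c0, by positivity, fun Λ L K θ J μ γ hΛ hγ hK hL hθ => ?_⟩
  have hK' : 0 < K := by linarith
  have hL' : 0 < L := by linarith
  have htp : ∀ v : E d, 0 < ‖v‖ + K0 := fun v => by positivity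
  refine ⟨?_, ?_, ?_, ?_⟩
  · refine exp_avz_le hp0 hΛ hγ (exp_set_FS K K0 L)
      (φ := fun v => ENNReal.ofReal ((‖v‖ + K0) ^ (p - 1))) (by fun_prop) (by positivity)
      fun v => ?_
    simp only [Set.mem_ofPred_eq, sub_sub_cancel]
    refine exp_vol_and _ _ fun hv => ?_
    refine (mul_le_mul_right (volume_Lay_le (htp v).le (by linarith)) _).trans ?_
    rw [← ENNReal.ofReal_mul (Real.rpow_nonneg (htp v).le _), ← hc1]
    refine ENNReal.ofReal_le_ofReal (le_trans (le_of_eq ?_)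
      (key c1 (L ^ (d - 1)) _ _ (by linarith) h1 (by positivity) (by positivity) (ht v).1))
    rw [Real.rpow_sub_one (htp v).ne']
    have := (htp v).ne'
    field_simp
  · simp only [FZ, ← setLIntegral_one]
    refine exp_avz_le hp0 hΛ hγ (exp_set_FZ K K0 L J θ) (φ := fun _ => 1) measurable_const
      (by positivity) fun v => ?_
    simp only [Set.mem_ofPred_eq, sub_sub_cancel]
    refine exp_vol_and _ _ fun hv => ?_
    rw [one_mul]
    refine (volume_ZL_le hd (htp v).le (by linarith) hθ J).trans ?_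
    rw [← hc2]
    refine ENNReal.ofReal_le_ofReal (le_trans (le_of_eq ?_) ((key c2 (2 ^ J * θ * L ^ (d - 1)) _ _
      (by linarith) h2 (by positivity) (by positivity) (ht v).2).trans (le_of_eq ?_)))
    · ring
    · ring
  · refine exp_avz_le hp0 hΛ hγ (exp_set_FV1 K L)
      (φ := fun v => ENNReal.ofReal (‖v‖ + K0)) (by fun_prop) (by positivity) fun v => ?_
    simp only [Set.mem_ofPred_eq, sub_sub_cancel]
    refine exp_vol_and _ {u | u - v ∈ cube 0 L} fun hv => ?_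
    rw [exp_vol_sub, volume_cube _ hL'.le, ← ENNReal.ofReal_mul (htp v).le]
    refine ENNReal.ofReal_le_ofReal (le_trans (le_of_eq ?_)
      (key 1 (L ^ d) _ _ (by linarith) zero_le_one (by positivity) (by positivity) (ht v).2))
    ring
  · refine exp_avz_le hp0 hΛ hγ (exp_set_FV2 K L)
      (φ := fun v => ENNReal.ofReal (‖v‖ + K0)) (by fun_prop) (by positivity) fun v => ?_
    simp only [Set.mem_ofPred_eq, sub_sub_cancel]
    refine exp_vol_and _ {u | u - v ∈ Lay L (2 * K)} fun hv => ?_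
    rw [exp_vol_sub]
    refine (mul_le_mul_right (volume_Lay_le (by positivity) hL) _).trans ?_
    rw [← ENNReal.ofReal_mul (htp v).le, ← hc1]
    refine ENNReal.ofReal_le_ofReal (le_trans (le_of_eq ?_) ((key (2 * c1) (K * L ^ (d - 1)) _ _
      (by linarith) (by linarith) (by positivity) (by positivity) (ht v).2).trans (le_of_eq ?_)))
    · ring
    · ring

/-- geometric sum over the scales of the mass of long pairs -/
theorem sum_avz_FB {p : ℝ} (hp : 1 ≤ p) {η : ℝ} (hη : 0 < η) :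
    ∃ C : ℝ≥0, ∀ (Λ L0 K0 : ℝ) (J M : ℕ) (μ : Measure (E d)) (γ : Measure (E d × E d)),
      0 < Λ → PPlan Λ μ γ → 0 < L0 → 0 ≤ K0 → K0 ≤ L0 → 1 ≤ J →
      ∑ i ∈ Finset.range M, avz Λ (fun z =>
        ENNReal.ofReal ((L0 * 2 ^ (i * J)) ^ p) *
          FB (η * (L0 * 2 ^ (i * J))) K0 (L0 * 2 ^ (i * J)) (shP z γ) /
          ENNReal.ofReal ((L0 * 2 ^ (i * J)) ^ d)) ≤
        C * (CQ p Λ γ / ENNReal.ofReal (Λ ^ d)) := by
  have hp0 : 0 ≤ p := by linarith
  refine ⟨2 * (3 ^ d * (2 * (η ^ p)⁻¹)).toNNReal, fun Λ L0 K0 J M μ γ hΛ hγ hL0 hK0 hKL hJ => ?_⟩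
  have hL : ∀ i : ℕ, L0 ≤ L0 * 2 ^ (i * J) := fun i =>
    le_mul_of_one_le_right hL0.le (one_le_pow₀ one_le_two)
  have hL' : ∀ i : ℕ, 0 < L0 * 2 ^ (i * J) := fun i => by positivity
  refine (Finset.sum_le_sum fun i _ => exp_FB hΛ hγ (hL' i) hK0 (hKL.trans (hL i))).trans ?_
  rw [← Finset.mul_sum, ← lintegral_finsetSum, ENNReal.coe_mul, mul_assoc,
    ← lintegral_rho_cost p hΛ, ← lintegral_const_mul' _ _ ENNReal.coe_ne_top]
  · refine mul_le_mul_right (lintegral_mono fun v => ?_) _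
    have h1 := exp_geom (fun i => (L0 * 2 ^ (i * J)) ^ p) (fun i => by positivity) (fun i => by
      have h2 : (2 : ℝ) ≤ 2 ^ J := le_self_pow₀ one_le_two (by omega)
      have h3 : (2 : ℝ) ≤ ((2 : ℝ) ^ J) ^ p :=
        h2.trans (Real.self_le_rpow_of_one_le (by linarith) hp)
      have h4 : 0 ≤ (L0 * 2 ^ (i * J)) ^ p := by positivity
      rw [add_mul, one_mul, pow_add, ← mul_assoc, Real.mul_rpow (hL' i).le (by positivity)]
      nlinarith) (fun i => η * (L0 * 2 ^ (i * J)) < ‖v‖) (B := (‖v‖ / η) ^ p) (by positivity)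
      (fun i hi => Real.rpow_le_rpow (hL' i).le ((le_div_iff₀' hη).2 hi.le) hp0) M
    beta_reduce
    rw [← ENNReal.ofReal_sum_of_nonneg fun i _ => by split_ifs <;> positivity, ← Finset.mul_sum,
      ← ofReal_norm, ENNReal.ofReal_rpow_of_nonneg (norm_nonneg v) hp0]
    change _ ≤ ENNReal.ofReal _ * _
    rw [← ENNReal.ofReal_mul (by positivity)]
    refine ENNReal.ofReal_le_ofReal ((mul_le_mul_of_nonneg_left h1 (by positivity)).trans
      (le_of_eq ?_))
    rw [Real.div_rpow (norm_nonneg v) hη.le]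
    ring
  · intro i _
    exact (measurable_const.mul (Measurable.ite (measurableSet_lt measurable_const measurable_norm)
      measurable_const measurable_const)).ennreal_ofReal

end Pool.Agent.Lib.MP_fe8b6f_pr
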