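import Pool.Agent.Lib.MP_fe8b6f_pr.GBasA

/-! Basic inequalities for the cell functional `G` and its measurability. Part 2. -/

open MeasureTheory ProbabilityTheory
open scoped NNReal ENNReal

noncomputable section

namespace Pool.Agent.Lib.MP_fe8b6f_pr

variable {d : ℕ}

theorem gbas_add (p s : ℝ) (ξ : E d) (μ ν : Measure (E d)) :
    G p s ξ (μ + ν) ≤ G p s ξ μ + G p s ξ ν := by
  unfold G Wp
  rw [Measure.restrict_add, Measure.add_apply, ENNReal.add_div, add_smul]
  exact Wc_add_le _ _ _ _ _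

theorem gbas_smul (p s : ℝ) (ξ : E d) {r : ℝ≥0∞} (hr : r ≠ ⊤) (μ : Measure (E d)) :
    G p s ξ (r • μ) ≤ r * G p s ξ μ := by
  unfold G Wp
  rw [Measure.restrict_smul, Measure.smul_apply, smul_eq_mul, mul_div_assoc, ← smul_smul]
  exact Wc_smul_le _ hr _ _

/-- a subadditive, positively homogeneous and bounded functional is measurable -/
theorem gbas_usc {ι : Type} [Fintype ι] (f : (ι → ℝ≥0) → ℝ≥0∞) (D : ℝ≥0∞) (hD : D ≠ ⊤)
    (hadd : ∀ x y, f (x + y) ≤ f x + f y) (hsmul : ∀ (θ : ℝ≥0) x, f (θ • x) ≤ θ * f x)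
    (hb : ∀ y, f y ≤ D * ((∑ j, y j : ℝ≥0) : ℝ≥0∞)) : Measurable f := by
  classical
  refine UpperSemicontinuous.measurable fun x₀ a ha => ?_
  let φ : ι → (ι → ℝ≥0) → ℝ≥0 := fun j x => if x₀ j = 0 then 1 else min 1 (x j / x₀ j)
  let θ : (ι → ℝ≥0) → ℝ≥0 := fun x => ∏ j, φ j x
  have hφ1 : ∀ j x, φ j x ≤ 1 := by
    intro j x
    simp only [φ]
    split_ifs
    · exact le_rfl
    · exact min_le_left _ _
  have hφc : ∀ j, Continuous (φ j) := by
    intro j
    simp only [φ]
    split_ifs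
    · exact continuous_const
    · exact continuous_const.min ((continuous_apply j).div_const _)
  have hθc : Continuous θ := continuous_finsetProd _ fun j _ => hφc j
  have hθ0 : θ x₀ = 1 := by
    refine Finset.prod_eq_one fun j _ => ?_
    simp only [φ]
    split_ifs with h
    · rfl
    · rw [div_self h, min_self]
  have hθ1 : ∀ x, θ x ≤ 1 := fun x => Finset.prod_le_one' fun j _ => hφ1 j x
  have hθle : ∀ x j, θ x * x₀ j ≤ x j := by
    intro x j
    by_cases h : x₀ j = 0
    · simp [h]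
    have h1 : θ x ≤ φ j x := by
      simp only [θ]
      rw [← Finset.mul_prod_erase _ _ (Finset.mem_univ j)]
      exact mul_le_of_le_one_right' (Finset.prod_le_one' fun i _ => hφ1 i x)
    have h2 : φ j x ≤ x j / x₀ j := by
      simp only [φ, if_neg h]
      exact min_le_right _ _
    calc θ x * x₀ j ≤ x j / x₀ j * x₀ j := by gcongr; exact h1.trans h2
      _ = x j := div_mul_cancel₀ _ h
  let g : (ι → ℝ≥0) → ℝ≥0∞ := fun x => f x₀ + D * ((∑ j, (x j - θ x * x₀ j) : ℝ≥0) : ℝ≥0∞)
  have hfg : ∀ x, f x ≤ g x := by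
    intro x
    have e : x = θ x • x₀ + fun j => x j - θ x * x₀ j := by
      funext j
      simp only [Pi.add_apply, Pi.smul_apply, smul_eq_mul]
      exact (add_tsub_cancel_of_le (hθle x j)).symm
    calc f x = f (θ x • x₀ + fun j => x j - θ x * x₀ j) := congrArg f e
      _ ≤ f (θ x • x₀) + f (fun j => x j - θ x * x₀ j) := hadd _ _
      _ ≤ g x := by
        refine add_le_add ((hsmul _ _).trans ?_) (hb _)
        exact mul_le_of_le_one_left' (by exact_mod_cast hθ1 x)
  have hgc : Continuous g := by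
    refine continuous_const.add ((ENNReal.continuous_const_mul hD).comp
      (ENNReal.continuous_coe.comp (continuous_finsetSum _ fun j _ => ?_)))
    exact (continuous_apply j).sub (hθc.mul continuous_const)
  have hg0 : g x₀ = f x₀ := by simp [g, hθ0]
  have h1 : ∀ᶠ x in nhds x₀, g x < a :=
    hgc.continuousAt.eventually (gt_mem_nhds (by rw [hg0]; exact ha))
  exact h1.mono fun x hx => (hfg x).trans_lt hx

theorem gbas_vol_ne {s : ℝ} (hs : 0 < s) {m : ℕ} (hm : 0 < m) (j : Fin d → Fin m) :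
    volume (gc (0 : E d) s m j) ≠ 0 ∧ volume (gc (0 : E d) s m j) ≠ ⊤ := by
  rw [volume_gc _ hs.le]
  refine ⟨?_, ENNReal.ofReal_ne_top⟩
  have : (0 : ℝ) < m := by exact_mod_cast hm
  exact (ENNReal.ofReal_pos.2 (by positivity)).ne'

theorem gbas_cells_apply {s : ℝ} (hs : 0 < s) {m : ℕ} (hm : 0 < m)
    (x : (Fin d → Fin m) → ℝ≥0∞) :
    (∑ j, (x j / volume (gc (0 : E d) s m j)) • volume.restrict (gc (0 : E d) s m j) :
      Measure (E d)) (cube 0 s) = ∑ j, x j := by
  rw [Measure.finsetSum_apply]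
  refine Finset.sum_congr rfl fun j _ => ?_
  rw [Measure.smul_apply, Measure.restrict_apply (measurableSet_cube _ _),
    Set.inter_eq_right.2 (gc_subset _ hs.le m j), smul_eq_mul,
    ENNReal.div_mul_cancel (gbas_vol_ne hs hm j).1 (gbas_vol_ne hs hm j).2]

theorem gbas_cells_restrict {s : ℝ} (hs : 0 < s) {m : ℕ} (x : (Fin d → Fin m) → ℝ≥0∞) :
    (∑ j, (x j / volume (gc (0 : E d) s m j)) • volume.restrict (gc (0 : E d) s m j) :
      Measure (E d)).restrict (cube 0 s) =
      ∑ j, (x j / volume (gc (0 : E d) s m j)) • volume.restrict (gc (0 : E d) s m j) := by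
  ext A hA
  rw [Measure.restrict_apply hA, Measure.finsetSum_apply, Measure.finsetSum_apply]
  refine Finset.sum_congr rfl fun j _ => ?_
  rw [Measure.smul_apply, Measure.smul_apply,
    Measure.restrict_apply (hA.inter (measurableSet_cube _ _)), Measure.restrict_apply hA,
    Set.inter_assoc, Set.inter_eq_right.2 (gc_subset _ hs.le m j)]

/-- `G` of the averaged measure is an upper semicontinuous function of the cell masses -/
theorem measurable_G_cells {p s : ℝ} (hp : 0 < p) (hs : 0 < s) (ξ : E d) {m : ℕ} (hm : 0 < m) :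
    Measurable fun x : (Fin d → Fin m) → ℝ≥0 =>
      G p s ξ (∑ j, ((x j : ℝ≥0∞) / volume (gc (0 : E d) s m j)) •
        volume.restrict (gc (0 : E d) s m j)) := by
  refine gbas_usc _ (ENNReal.ofReal (√d * s + ‖ξ‖) ^ p)
    (ENNReal.rpow_ne_top_of_nonneg hp.le ENNReal.ofReal_ne_top) ?_ ?_ ?_
  · intro x y
    refine le_trans (le_of_eq ?_) (gbas_add p s ξ _ _)
    congr 1
    rw [← Finset.sum_add_distrib]
    refine Finset.sum_congr rfl fun j _ => ?_
    rw [Pi.add_apply, ENNReal.coe_add, ENNReal.add_div, add_smul]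
  · intro θ x
    refine le_trans (le_of_eq ?_) (gbas_smul p s ξ ENNReal.coe_ne_top _)
    congr 1
    rw [Finset.smul_sum]
    refine Finset.sum_congr rfl fun j _ => ?_
    rw [Pi.smul_apply, smul_eq_mul, ENNReal.coe_mul, mul_div_assoc, smul_smul]
  · intro y
    have h := gbas_cells_apply hs hm fun j => (y j : ℝ≥0∞)
    rw [← ENNReal.ofNNReal_finsetSum] at h
    refine (G_bound hp.le hs ξ ?_).trans ?_
    · rw [h]
      exact ENNReal.coe_ne_top
    · rw [h]

theorem gbas_eps {x y : ℝ≥0∞} (h : x < y) : ∃ ε : ℝ, 0 < ε ∧ ENNReal.ofReal (1 + ε) * x < y := by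
  have h1 : Filter.Tendsto (fun ε : ℝ => ENNReal.ofReal (1 + ε)) (nhds 0) (nhds 1) := by
    have : Continuous fun ε : ℝ => ENNReal.ofReal (1 + ε) :=
      ENNReal.continuous_ofReal.comp (continuous_const.add continuous_id)
    simpa using this.tendsto 0
  have h2 := ENNReal.Tendsto.mul_const (b := x) h1 (Or.inl one_ne_zero)
  rw [one_mul] at h2
  have h3 : ∀ᶠ ε : ℝ in nhdsWithin 0 (Set.Ioi 0), ENNReal.ofReal (1 + ε) * x < y :=
    (h2.eventually (gt_mem_nhds h)).filter_mono nhdsWithin_le_nhds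
  obtain ⟨ε, h4, h5⟩ := (h3.and self_mem_nhdsWithin).exists
  exact ⟨ε, h5, h4⟩

theorem gbas_tendsto {p s : ℝ} (hp : 0 < p) (hs : 0 < s) (ξ : E d) {μ : Measure (E d)}
    (hμ : μ (cube 0 s) ≠ ⊤) :
    Filter.Tendsto (fun n : ℕ => G p s ξ (avg μ 0 s (n + 1))) Filter.atTop (nhds (G p s ξ μ)) := by
  set τ : Measure (E d) :=
    (μ (cube 0 s) / volume (cube (0 : E d) s)) • volume.restrict (cube (-ξ) s) with hτ
  have h1 : ∀ n : ℕ, G p s ξ (avg μ 0 s (n + 1)) = Wp p τ (avg μ 0 s (n + 1)) := by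
    intro n
    rw [Wp_comm]
    unfold G avg
    rw [gbas_cells_restrict hs, gbas_cells_apply hs n.succ_pos,
      ← measure_cube_eq_sum μ 0 hs n.succ_pos]
  have h2 : G p s ξ μ = Wp p τ (μ.restrict (cube 0 s)) := by
    rw [Wp_comm]
    rfl
  have hfin : IsFiniteMeasure (μ.restrict (cube 0 s)) := isFiniteMeasure_restrict.2 hμ
  have hδ : Filter.Tendsto (fun n : ℕ => Wp p (μ.restrict (cube 0 s)) (avg μ 0 s (n + 1)))
      Filter.atTop (nhds 0) := by
    have a1 : Filter.Tendsto (fun n : ℕ => √d * (s / ((n + 1 : ℕ) : ℝ))) Filter.atTop (nhds 0) := by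
      have := ((tendsto_const_div_atTop_nhds_zero_nat s).comp
        (Filter.tendsto_add_atTop_nat 1)).const_mul (√d)
      simpa using this
    have a2 := (ENNReal.continuous_rpow_const (y := p)).continuousAt.tendsto.comp
      (ENNReal.tendsto_ofReal a1)
    rw [ENNReal.ofReal_zero, ENNReal.zero_rpow_of_pos hp] at a2
    have a3 := ENNReal.Tendsto.mul_const (b := μ (cube 0 s)) a2 (Or.inr hμ)
    rw [zero_mul] at a3
    exact tendsto_of_tendsto_of_tendsto_of_le_of_le tendsto_const_nhds a3 (fun n => zero_le)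
      fun n => Wp_restrict_avg hp.le hs hμ n.succ_pos
  have hev : ∀ (C : ℝ≥0) (b c : ℝ≥0∞), b < c → ∀ᶠ n : ℕ in Filter.atTop,
      b + C * Wp p (μ.restrict (cube 0 s)) (avg μ 0 s (n + 1)) < c := by
    intro C b c hbc
    have a1 := ENNReal.Tendsto.const_mul (a := (C : ℝ≥0∞)) hδ (Or.inr ENNReal.coe_ne_top)
    have a2 := a1.const_add b
    rw [mul_zero, add_zero] at a2
    exact a2.eventually (gt_mem_nhds hbc)
  simp only [h1, h2]
  refine tendsto_order.2 ⟨fun a ha => ?_, fun a ha => ?_⟩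
  · obtain ⟨ε, hε, h3⟩ := gbas_eps ha
    obtain ⟨C, hC⟩ := Wp_tri_eps (d := d) hp hε
    refine (hev C _ _ h3).mono fun n hn => ?_
    by_contra hcon
    have h4 := hC τ (avg μ 0 s (n + 1)) (μ.restrict (cube 0 s)) (isFiniteMeasure_avg hs hμ _)
    rw [Wp_comm p (avg μ 0 s (n + 1))] at h4
    refine absurd (h4.trans ?_) (not_le.2 hn)
    gcongr
    exact not_lt.1 hcon
  · obtain ⟨ε, hε, h3⟩ := gbas_eps ha
    obtain ⟨C, hC⟩ := Wp_tri_eps (d := d) hp hε
    exact (hev C _ _ h3).mono fun n hn => (hC τ _ _ hfin).trans_lt hn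

/-- `G p s ξ (avg μ 0 s (2^n))` converges to `G p s ξ μ` when `μ (cube 0 s)` is finite -/
theorem measurable_Gf {p s : ℝ} (hp : 0 < p) (hs : 0 < s) (ξ : E d) :
    Measurable (Gf p s ξ) := by
  classical
  have hA : MeasurableSet {μ : Measure (E d) | μ (cube 0 s) = ⊤} :=
    Measure.measurable_coe (measurableSet_cube _ _) (measurableSet_singleton ⊤)
  refine ENNReal.measurable_of_tendsto (f := fun (n : ℕ) (μ : Measure (E d)) =>
    if μ (cube 0 s) = ⊤ then 0 else
      G p s ξ (∑ j : Fin d → Fin (n + 1),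
        (((μ (gc 0 s (n + 1) j)).toNNReal : ℝ≥0∞) / volume (gc (0 : E d) s (n + 1) j)) •
          volume.restrict (gc (0 : E d) s (n + 1) j))) (fun n => ?_) ?_
  · refine Measurable.ite hA measurable_const ?_
    exact (measurable_G_cells hp hs ξ n.succ_pos).comp (measurable_pi_lambda _ fun j =>
      (Measure.measurable_coe (measurableSet_gc _ _ _ j)).ennreal_toNNReal)
  · rw [tendsto_pi_nhds]
    intro μ
    unfold Gf
    split_ifs with h
    · exact tendsto_const_nhds
    · refine (gbas_tendsto hp hs ξ h).congr fun n => ?_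
      unfold avg
      congr 1
      refine Finset.sum_congr rfl fun j _ => ?_
      rw [ENNReal.coe_toNNReal
        (ne_top_of_le_ne_top h (measure_mono (gc_subset _ hs.le _ j)))]

end Pool.Agent.Lib.MP_fe8b6f_pr
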