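import Pool.Agent.Lib.MP_fe8b6f_pr.HO1

/-! Hitting probabilities are bounded by expected occupation times. Part 2. -/

open MeasureTheory ProbabilityTheory
open scoped NNReal ENNReal

noncomputable section

namespace Pool.Agent.Lib.MP_fe8b6f_pr

variable {d : ℕ}

theorem ho_green_le (hd : 3 ≤ d) {y : E d} {r : ℝ} (hr : 0 < r) (hy : r ≤ ‖y‖) :
    green y ≤ ENNReal.ofReal (capBall d 1)⁻¹ * ENNReal.ofReal (r ^ (2 - (d : ℝ))) := by
  have hy0 : 0 < ‖y‖ := hr.trans_le hy
  have hc := capBall_pos hd one_pos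
  have hd' : (3 : ℝ) ≤ d := by exact_mod_cast hd
  have h1 := capBall_mul (d := d) hy0 one_pos
  rw [mul_one] at h1
  rw [green_eq hd (norm_pos_iff.1 hy0), ← ENNReal.ofReal_mul (inv_nonneg.2 hc.le), h1, mul_inv,
    mul_comm, ← Real.rpow_neg hy0.le, neg_sub]
  refine ENNReal.ofReal_le_ofReal (mul_le_mul_of_nonneg_left ?_ (inv_nonneg.2 hc.le))
  exact Real.rpow_le_rpow_of_nonpos hr hy (by linarith)

theorem ho_dirac {W : Measure (Path d)} [SFinite W] (x : E d) {S : Set (E d × Path d)}
    {C : ℝ≥0∞} {F : E d × Path d → ℝ≥0∞}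
    (h : ((Measure.dirac x).prod W) S ≤ C * ∫⁻ q, F q ∂((Measure.dirac x).prod W)) :
    W {w | (x, w) ∈ S} ≤ C * ∫⁻ w, F (x, w) ∂W := by
  rw [Measure.dirac_prod] at h
  exact (Measure.le_map_apply measurable_prodMk_left.aemeasurable S).trans
    (h.trans (mul_le_mul_right (lintegral_map_le _ _) _))

/-- consequences used later -/
theorem IsWiener.hit_bounds {W : Measure (Path d)} (hW : IsWiener W) (hd : 3 ≤ d) :
    ∃ C : ℝ≥0, (∀ (K : Set (E d)) (a b : ℝ), 0 ≤ a → a ≤ b →
      ((volume : Measure (E d)).prod W) (hitS K (Set.Icc a b)) ≤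
        C * ENNReal.ofReal (b - a + 1) * volume (Metric.thickening 1 K)) ∧
      (∀ (K : Set (E d)) (x : E d) (a : ℝ), 0 < a →
        W {w | (x, w) ∈ hitS K (Set.Ici a)} ≤
          C * ENNReal.ofReal (a ^ (1 - (d : ℝ) / 2)) * volume (Metric.thickening 1 K)) ∧
      (∀ (K : Set (E d)) (x : E d) (r : ℝ), 0 < r → (∀ y ∈ K, r + 1 ≤ ‖y - x‖) →
        W {w | (x, w) ∈ hitS K (Set.Ici 0)} ≤
          C * ENNReal.ofReal (r ^ (2 - (d : ℝ))) * volume (Metric.thickening 1 K)) := by
  have := hW.isProbabilityMeasure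
  obtain ⟨C, h1, h2⟩ := hW.hit_le_occ
  have hT : ∀ K : Set (E d), MeasurableSet (Metric.thickening 1 K) := fun K =>
    Metric.isOpen_thickening.measurableSet
  have hC : ((C * (2 + (capBall d 1)⁻¹.toNNReal) : ℝ≥0) : ℝ≥0∞) =
      C * (2 + ENNReal.ofReal (capBall d 1)⁻¹) := by
    push_cast
    rfl
  refine ⟨C * (2 + (capBall d 1)⁻¹.toNNReal), fun K a b ha _ => ?_, fun K x a ha => ?_,
    fun K x r hr hK => ?_⟩
  · refine (h1 volume K a b inferInstance ha).trans ?_
    have h3 := hW.lintegral_volume_occ (Set.Icc a (b + 1))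
      (measurable_one.indicator (hT K) : Measurable ((Metric.thickening 1 K).indicator 1))
    simp only [lintegral_indicator_one (hT K)] at h3
    rw [h3, Real.volume_Icc, hC, ← mul_assoc, show b + 1 - a = b - a + 1 by ring]
    gcongr
    exact le_mul_of_one_le_right' (one_le_two.trans le_self_add)
  · refine (ho_dirac x (h2 (Measure.dirac x) K a inferInstance ha.le)).trans ?_
    refine (mul_le_mul_right (hW.occ_late_le hd x ha (hT K)) _).trans ?_
    rw [hC, ENNReal.ofReal_mul zero_le_two, ENNReal.ofReal_ofNat, ← mul_assoc, ← mul_assoc]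
    gcongr
    exact le_self_add
  · refine (ho_dirac x (h2 (Measure.dirac x) K 0 inferInstance le_rfl)).trans ?_
    have h3 := hW.lintegral_occ_green x
      (measurable_one.indicator (hT K) : Measurable ((Metric.thickening 1 K).indicator 1))
    simp only [lintegral_indicator_one (hT K)] at h3
    have h4 : ∫⁻ y, (Metric.thickening 1 K).indicator 1 y * green (y - x) ≤
        ENNReal.ofReal (capBall d 1)⁻¹ * ENNReal.ofReal (r ^ (2 - (d : ℝ))) *
          volume (Metric.thickening 1 K) := by
      rw [← lintegral_indicator_const (hT K)]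
      refine lintegral_mono fun y => ?_
      by_cases hy : y ∈ Metric.thickening 1 K
      · rw [Set.indicator_of_mem hy, Set.indicator_of_mem hy, Pi.one_apply, one_mul]
        obtain ⟨z, hz, hyz⟩ := Metric.mem_thickening_iff.1 hy
        refine ho_green_le hd hr ?_
        have h5 := hK z hz
        have h6 := dist_triangle z y x
        rw [dist_eq_norm z x, dist_eq_norm y x, dist_comm z y] at h6
        linarith
      · rw [Set.indicator_of_notMem hy, zero_mul]
        exact zero_le
    rw [h3]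
    refine (mul_le_mul_right h4 _).trans ?_
    rw [hC, ← mul_assoc, ← mul_assoc]
    gcongr
    exact le_add_self

end Pool.Agent.Lib.MP_fe8b6f_pr
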