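import Pool.Agent.Lib.MP_fe8b6f_pr.TK
import Pool.Agent.Lib.MP_fe8b6f_pr.HO

/-! Blocks of the torus path: law, decoupling, pair estimate. Part 1. -/

open MeasureTheory ProbabilityTheory
open scoped NNReal ENNReal

noncomputable section

namespace Pool.Agent.Lib.MP_fe8b6f_pr

variable {d : ℕ}

theorem tora1_meas (x : E d) (w : Path d) : Measurable fun t : ℝ => x + w t.toNNReal :=
  (continuous_const.add (w.continuous.comp continuous_real_toNNReal)).measurable

theorem tora1_loc_tm (Λ L : ℝ) (I : Set ℝ) (z x : E d) (w : Path d) :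
    loc z L (tm Λ I (x, w)) = loc 0 L (tm Λ I (x - z, w)) := by
  simp only [loc, tm]
  rw [sh_zero_left, sh_per, sh_occ]

theorem tora1_thick_ne_top (L : ℝ) :
    volume (Metric.thickening 1 (cube (0 : E d) L)) ≠ ⊤ := by
  have h1 : cube (0 : E d) L ⊆ cube 0 |L| := fun x hx i =>
    ⟨(hx i).1, lt_of_lt_of_le (hx i).2 (by have := le_abs_self L; linarith)⟩
  have h2 : Bornology.IsBounded (cube (0 : E d) L) :=
    Metric.isBounded_closedBall.subset (h1.trans (cube_subset_closedBall (abs_nonneg L)))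
  exact h2.thickening.measure_lt_top.ne

theorem tora1_meas3 {P : Set (E d)} (hP : MeasurableSet P) :
    Measurable fun z : (E d × Path d) × ℝ =>
      P.indicator (1 : E d → ℝ≥0∞) (z.1.1 + z.1.2 z.2.toNNReal) := by
  refine (measurable_one.indicator hP).comp ?_
  refine (measurable_fst.comp measurable_fst).add ?_
  exact measurable_path_eval.comp ((measurable_snd.comp measurable_fst).prodMk
    (continuous_real_toNNReal.measurable.comp measurable_snd))

theorem tora1_occ_eq (x : E d) (w : Path d) (I : Set ℝ) {P : Set (E d)} (hP : MeasurableSet P) :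
    occ x w I P = ∫⁻ t in I, P.indicator (1 : E d → ℝ≥0∞) (x + w t.toNNReal) := by
  rw [← lintegral_occ x w I (measurable_one.indicator hP), lintegral_indicator_one hP]

theorem tora1_swap {W : Measure (Path d)} (hW : IsWiener W) (x : E d) (I : Set ℝ)
    {P : Set (E d)} (hP : MeasurableSet P) :
    ∫⁻ w, occ x w I P ∂W =
      ∫⁻ t in I, ∫⁻ w, P.indicator (1 : E d → ℝ≥0∞) (x + w t.toNNReal) ∂W := by
  have := hW.isProbabilityMeasure
  simp only [tora1_occ_eq x _ I hP]
  refine lintegral_lintegral_swap ?_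
  exact ((tora1_meas3 hP).comp
    ((measurable_const.prodMk measurable_fst).prodMk measurable_snd)).aemeasurable

theorem tora1_cell_occ {W : Measure (Path d)} (hW : IsWiener W) {Λ : ℝ} (hΛ : 0 < Λ)
    (I : Set ℝ) {T : Set (E d)} (hT : MeasurableSet T) :
    ∫⁻ q, occ q.1 q.2 I (perS Λ T) ∂(((volume : Measure (E d)).restrict (cube 0 Λ)).prod W) =
      volume I * volume (cube 0 Λ ∩ perS Λ T) := by
  have := hW.isProbabilityMeasure
  have hP : MeasurableSet (perS Λ T) := measurableSet_perS Λ hT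
  simp only [fun q : E d × Path d => tora1_occ_eq q.1 q.2 I hP]
  rw [lintegral_lintegral_swap (tora1_meas3 hP).aemeasurable]
  have h : ∀ t : ℝ, ∫⁻ q : E d × Path d,
      (perS Λ T).indicator (1 : E d → ℝ≥0∞) (q.1 + q.2 t.toNNReal)
        ∂(((volume : Measure (E d)).restrict (cube 0 Λ)).prod W) =
      volume (cube 0 Λ ∩ perS Λ T) := by
    intro t
    have hm : Measurable fun q : E d × Path d =>
        (perS Λ T).indicator (1 : E d → ℝ≥0∞) (q.1 + q.2 t.toNNReal) :=
      (measurable_one.indicator hP).comp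
        (measurable_fst.add ((measurable_ev t.toNNReal).comp measurable_snd))
    rw [lintegral_prod_symm' _ hm]
    have h2 : ∀ w : Path d, ∫⁻ x in cube 0 Λ,
        (perS Λ T).indicator (1 : E d → ℝ≥0∞) (x + w t.toNNReal) =
        volume (cube 0 Λ ∩ perS Λ T) := by
      intro w
      rw [setLIntegral_per_shift hΛ (measurable_one.indicator hP) (isPer_indicator_perS Λ T),
        lintegral_indicator_one hP, Measure.restrict_apply hP, Set.inter_comm]
    simp only [h2]
    rw [lintegral_const, measure_univ, mul_one]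
  simp only [h]
  rw [setLIntegral_const, mul_comm]

theorem tora1_ind {X Y : Type*} (f g : X → Y) (s : Set Y) {a b : X} (h : f a = g b) :
    (f ⁻¹' s).indicator (1 : X → ℝ≥0∞) a = (g ⁻¹' s).indicator 1 b := by
  by_cases ha : f a ∈ s
  · have hb : g b ∈ s := h ▸ ha
    rw [Set.indicator_of_mem (show a ∈ f ⁻¹' s from ha),
      Set.indicator_of_mem (show b ∈ g ⁻¹' s from hb)]
    rfl
  · have hb : g b ∉ s := h ▸ ha
    rw [Set.indicator_of_notMem (show a ∉ f ⁻¹' s from ha),
      Set.indicator_of_notMem (show b ∉ g ⁻¹' s from hb)]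

theorem tora1_int (hd : 3 ≤ d) {a : ℝ} (ha : 0 < a) (b : ℝ) :
    ∫⁻ t in Set.Icc a b, ENNReal.ofReal (t ^ (-(d : ℝ) / 2)) ≤
      ENNReal.ofReal (2 * a ^ (1 - (d : ℝ) / 2)) := by
  have hd' : (3 : ℝ) ≤ d := by exact_mod_cast hd
  have he : -(d : ℝ) / 2 < -1 := by linarith
  rw [setLIntegral_congr (Ioc_ae_eq_Icc (μ := (volume : Measure ℝ)) (a := a) (b := b)).symm]
  refine le_trans (lintegral_mono_set (Set.Ioc_subset_Ioi_self)) ?_
  rw [← ofReal_integral_eq_lintegral_ofReal (integrableOn_Ioi_rpow_of_lt he ha)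
    ((ae_restrict_iff' measurableSet_Ioi).2 (Filter.Eventually.of_forall fun t ht =>
      Real.rpow_nonneg (le_of_lt (lt_trans ha ht)) _)), integral_Ioi_rpow_of_lt he ha]
  refine ENNReal.ofReal_le_ofReal ?_
  have e : -(d : ℝ) / 2 + 1 = 1 - (d : ℝ) / 2 := by ring
  rw [e]
  have hr : 0 ≤ a ^ (1 - (d : ℝ) / 2) := Real.rpow_nonneg ha.le _
  rw [div_le_iff_of_neg (by linarith)]
  nlinarith

theorem measurable_tm (Λ : ℝ) (I : Set ℝ) : Measurable (tm Λ I : E d × Path d → Measure (E d)) := by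
  exact (measurable_per Λ).comp (measurable_occ (d := d) (I := I))

theorem measurable_loc_tm (Λ L : ℝ) (I : Set ℝ) :
    Measurable fun zq : E d × (E d × Path d) => loc zq.1 L (tm Λ I zq.2) := by
  have h : (fun zq : E d × (E d × Path d) => loc zq.1 L (tm Λ I zq.2)) =
      fun zq => loc 0 L (tm Λ I (zq.2.1 - zq.1, zq.2.2)) := by
    funext zq
    exact tora1_loc_tm Λ L I zq.1 zq.2.1 zq.2.2
  rw [h]
  exact (measurable_loc 0 L).comp ((measurable_tm Λ I).comp
    (((measurable_fst.comp measurable_snd).sub measurable_fst).prodMk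
      (measurable_snd.comp measurable_snd)))

theorem loc_tm (Λ L : ℝ) (I : Set ℝ) (z x : E d) (w : Path d) :
    loc z L (tm Λ I (x, w)) = loc 0 L (tm Λ I (x - z, w)) := by
  exact tora1_loc_tm Λ L I z x w

theorem isPer_tm (Λ : ℝ) (I : Set ℝ) (w : Path d) : IsPer Λ fun x => tm Λ I (x, w) := by
  intro x k
  have hf : Measurable fun t : ℝ => x + w t.toNNReal := tora1_meas x w
  have h := per_map_of_lat Λ ((volume : Measure ℝ).restrict I) hf
    (k := fun _ => k) measurable_const
  simp only [tm, occ]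
  rw [← h]
  congr 2
  funext t
  abel

theorem mem_hitS_of_loc_tm_ne_zero {Λ L : ℝ} {I : Set ℝ} (hI : MeasurableSet I)
    {q : E d × Path d} (h : loc 0 L (tm Λ I q) ≠ 0) : q ∈ hitS (perS Λ (cube 0 L)) I := by
  have h1 : tm Λ I q (cube 0 L) ≠ 0 := fun h0 => h ((loc_eq_zero_iff 0 L _).2 h0)
  have h2 := per_apply_ne_zero (measurableSet_cube 0 L) h1
  exact mem_hitS_of_occ_ne_zero hI (measurableSet_perS Λ (measurableSet_cube 0 L)) h2

/-- hitting estimates on the torus -/
theorem IsWiener.torus_hit {W : Measure (Path d)} (hW : IsWiener W) (hd : 3 ≤ d) (L : ℝ) :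
    ∃ C : ℝ, 0 < C ∧ (∀ Λ a b : ℝ, 0 < Λ → 0 ≤ a → a ≤ b →
      TP W Λ (hitS (perS Λ (cube 0 L)) (Set.Icc a b)) ≤
        ENNReal.ofReal (C * (b - a + 1) / Λ ^ d)) ∧
      (∀ (Λ a b : ℝ) (x : E d), 0 < Λ → 0 < a → a ≤ b →
        W {w | (x, w) ∈ hitS (perS Λ (cube 0 L)) (Set.Icc a b)} ≤
          ENNReal.ofReal (C * (a ^ (1 - (d : ℝ) / 2) + (b + 1) / Λ ^ d))) := by
  have := hW.isProbabilityMeasure
  obtain ⟨C0, hC0, -⟩ := hW.hit_le_occ
  obtain ⟨C1, hC1, hub⟩ := hW.torus_ub
  set T : Set (E d) := Metric.thickening 1 (cube 0 L) with hT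
  have hTm : MeasurableSet T := Metric.isOpen_thickening.measurableSet
  have hTfin : volume T ≠ ⊤ := tora1_thick_ne_top L
  set V : ℝ := (volume T).toReal with hV
  have hV0 : 0 ≤ V := ENNReal.toReal_nonneg
  have hVe : volume T = ENNReal.ofReal V := (ENNReal.ofReal_toReal hTfin).symm
  have hC00 : (0 : ℝ) ≤ C0 := C0.2
  refine ⟨C0 * V * (1 + 2 * C1) + 1, by positivity, ?_, ?_⟩
  · intro Λ a b hΛ ha hab
    have hΛd : 0 < Λ ^ d := pow_pos hΛ d
    have h1 := hC0 ((volume : Measure (E d)).restrict (cube 0 Λ)) (perS Λ (cube 0 L)) a b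
      inferInstance ha
    have h2 : ∫⁻ q, occ q.1 q.2 (Set.Icc a (b + 1)) (Metric.thickening 1 (perS Λ (cube 0 L)))
        ∂(((volume : Measure (E d)).restrict (cube 0 Λ)).prod W) ≤
        ENNReal.ofReal (b + 1 - a) * volume T := by
      refine le_trans (lintegral_mono fun q => measure_mono (thickening_perS Λ 1 _)) ?_
      rw [tora1_cell_occ hW hΛ (Set.Icc a (b + 1)) hTm, Real.volume_Icc]
      exact mul_le_mul_right (volume_cell_inter_perS hΛ hTm) _
    have h3 := le_trans h1 (mul_le_mul_right h2 _)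
    simp only [TP, Measure.smul_apply, smul_eq_mul]
    refine le_trans (mul_le_mul_right h3 _) ?_
    rw [hVe, ← ENNReal.ofReal_inv_of_pos hΛd, ← ENNReal.ofReal_coe_nnreal,
      ← ENNReal.ofReal_mul (by linarith), ← ENNReal.ofReal_mul hC00,
      ← ENNReal.ofReal_mul (by positivity)]
    refine ENNReal.ofReal_le_ofReal ?_
    have hba : 0 ≤ b - a + 1 := by linarith
    rw [div_eq_inv_mul]
    refine mul_le_mul_of_nonneg_left ?_ (by positivity)
    have e : (b + 1 - a) = b - a + 1 := by ring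
    rw [e]
    have : 0 ≤ (C0 * V * (2 * C1) + 1) * (b - a + 1) := by positivity
    nlinarith
  · intro Λ a b x hΛ ha hab
    have hΛd : 0 < Λ ^ d := pow_pos hΛ d
    have hP : MeasurableSet (perS Λ T) := measurableSet_perS Λ hTm
    have h1 := hC0 (Measure.dirac x) (perS Λ (cube 0 L)) a b inferInstance ha.le
    rw [Measure.dirac_prod] at h1
    have h0 : W {w | (x, w) ∈ hitS (perS Λ (cube 0 L)) (Set.Icc a b)} ≤
        (W.map (Prod.mk x)) (hitS (perS Λ (cube 0 L)) (Set.Icc a b)) :=
      Measure.le_map_apply measurable_prodMk_left.aemeasurable _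
    have hav : avz Λ ((perS Λ T).indicator (1 : E d → ℝ≥0∞)) ≤ ENNReal.ofReal (V / Λ ^ d) := by
      rw [avz, lintegral_indicator_one hP, Measure.restrict_apply hP, Set.inter_comm,
        ENNReal.ofReal_div_of_pos hΛd, ← hVe]
      exact ENNReal.div_le_div_right (volume_cell_inter_perS hΛ hTm) _
    have h2 : ∫⁻ q, occ q.1 q.2 (Set.Icc a (b + 1)) (Metric.thickening 1 (perS Λ (cube 0 L)))
        ∂(W.map (Prod.mk x)) ≤
        ENNReal.ofReal (C1 * V * (2 * a ^ (1 - (d : ℝ) / 2) + (b + 1) / Λ ^ d)) := by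
      refine le_trans (lintegral_mono fun q => measure_mono (thickening_perS Λ 1 _)) ?_
      have hm : Measurable fun q : E d × Path d =>
          occ q.1 q.2 (Set.Icc a (b + 1)) (perS Λ T) :=
        (Measure.measurable_coe hP).comp measurable_occ
      rw [← hT, lintegral_map hm measurable_prodMk_left]
      rw [tora1_swap hW x (Set.Icc a (b + 1)) hP]
      have hb : ∀ t ∈ Set.Icc a (b + 1),
          ∫⁻ w, (perS Λ T).indicator (1 : E d → ℝ≥0∞) (x + w t.toNNReal) ∂W ≤
            ENNReal.ofReal (C1 * V) * ENNReal.ofReal (t ^ (-(d : ℝ) / 2)) +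
              ENNReal.ofReal (C1 * V / Λ ^ d) := by
        intro t ht
        have ht0 : 0 < t := lt_of_lt_of_le ha ht.1
        have hr : 0 ≤ t ^ (-(d : ℝ) / 2) := Real.rpow_nonneg ht0.le _
        refine le_trans (hub Λ t x _ hΛ ht0 (measurable_one.indicator hP)
          (isPer_indicator_perS Λ T)) ?_
        refine le_trans (mul_le_mul_right hav _) ?_
        rw [← ENNReal.ofReal_mul (by positivity), ← ENNReal.ofReal_mul (by positivity),
          ← ENNReal.ofReal_add (by positivity) (by positivity)]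
        refine ENNReal.ofReal_le_ofReal (le_of_eq ?_)
        field_simp
      refine le_trans (setLIntegral_mono' measurableSet_Icc hb) ?_
      rw [lintegral_add_right _ measurable_const, lintegral_const_mul' _ _ ENNReal.ofReal_ne_top,
        setLIntegral_const, Real.volume_Icc]
      have h4 : ∫⁻ t in Set.Icc a (b + 1), ENNReal.ofReal (t ^ (-(d : ℝ) / 2)) ≤
          ENNReal.ofReal (2 * a ^ (1 - (d : ℝ) / 2)) := tora1_int hd ha _
      refine le_trans (add_le_add (mul_le_mul_right h4 _) le_rfl) ?_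
      have hr : 0 ≤ a ^ (1 - (d : ℝ) / 2) := Real.rpow_nonneg ha.le _
      rw [← ENNReal.ofReal_mul (by positivity), ← ENNReal.ofReal_mul (by positivity),
        ← ENNReal.ofReal_add (by positivity)
          (mul_nonneg (by positivity) (by linarith))]
      refine ENNReal.ofReal_le_ofReal ?_
      have h5 : C1 * V / Λ ^ d * (b + 1 - a) ≤ C1 * V * ((b + 1) / Λ ^ d) := by
        have : C1 * V / Λ ^ d * (b + 1 - a) ≤ C1 * V / Λ ^ d * (b + 1) :=
          mul_le_mul_of_nonneg_left (by linarith) (by positivity)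
        refine le_trans this (le_of_eq ?_)
        ring
      nlinarith
    refine le_trans h0 (le_trans h1 (le_trans (mul_le_mul_right h2 _) ?_))
    have hr : 0 ≤ a ^ (1 - (d : ℝ) / 2) := Real.rpow_nonneg ha.le _
    have hq : 0 ≤ (b + 1) / Λ ^ d := div_nonneg (by linarith) hΛd.le
    rw [← ENNReal.ofReal_coe_nnreal, ← ENNReal.ofReal_mul hC00]
    refine ENNReal.ofReal_le_ofReal ?_
    have e1 : 0 ≤ C0 * V * a ^ (1 - (d : ℝ) / 2) := by positivity
    have e2 : 0 ≤ C0 * V * ((b + 1) / Λ ^ d) := by positivity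
    have e3 : 0 ≤ C0 * V * C1 * ((b + 1) / Λ ^ d) := by positivity
    nlinarith

theorem IsWiener.block_law {W : Measure (Path d)} (hW : IsWiener W) {Λ τ : ℝ} (hΛ : 0 < Λ)
    (hτ : 0 ≤ τ) (L : ℝ) (j : ℕ) :
    (TP W Λ).map (fun q => loc 0 L (tm Λ (Set.Ico (j * τ) ((j + 1) * τ)) q)) =
      (TP W Λ).map (fun q => loc 0 L (tm Λ (Set.Ico 0 τ) q)) := by
  have hm : ∀ I : Set ℝ, Measurable fun q : E d × Path d => loc 0 L (tm Λ I q) :=
    fun I => (measurable_loc 0 L).comp (measurable_tm Λ I)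
  have hj : (0 : ℝ) ≤ j * τ := by positivity
  ext s hs
  rw [Measure.map_apply (hm _) hs, Measure.map_apply (hm _) hs,
    ← lintegral_indicator_one (hm _ hs), ← lintegral_indicator_one (hm _ hs)]
  have hper : ∀ w : Path d, IsPer Λ fun x : E d =>
      ((fun q : E d × Path d => loc 0 L (tm Λ (Set.Ico 0 τ) q)) ⁻¹' s).indicator
        (1 : E d × Path d → ℝ≥0∞) (x, w) := by
    intro w x k
    have h := isPer_tm Λ (Set.Ico 0 τ) w x k
    simp only at h
    exact tora1_ind _ _ s (congrArg (loc 0 L) h)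
  rw [← hW.TP_shift hΛ (j * τ).toNNReal 0 (measurable_one.indicator (hm _ hs)) hper]
  refine lintegral_congr fun q => ?_
  have hI : Set.Ico (j * τ) ((j + 1) * τ) =
      (fun s : ℝ => s - (((j * τ).toNNReal : ℝ≥0) : ℝ)) ⁻¹' Set.Ico 0 τ := by
    ext u
    rw [Real.coe_toNNReal _ hj]
    simp only [Set.mem_Ico, Set.mem_preimage]
    constructor
    · rintro ⟨h1, h2⟩
      constructor <;> linarith
    · rintro ⟨h1, h2⟩
      constructor <;> linarith
  have hq : tm Λ (Set.Ico (j * τ) ((j + 1) * τ)) q =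
      tm Λ (Set.Ico 0 τ) (q.1 + q.2 (j * τ).toNNReal + 0, shift (j * τ).toNNReal q.2) := by
    simp only [tm, add_zero]
    rw [hI, occ_shift q.1 q.2 _ measurableSet_Ico fun u hu => hu.1]
  exact tora1_ind _ _ s (congrArg (loc 0 L) hq)

end Pool.Agent.Lib.MP_fe8b6f_pr
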