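import Pool.Agent.Lib.MP_fe8b6f_pr.TM4a
import Pool.Agent.Lib.MP_fe8b6f_pr.TorA1
import Pool.Agent.Lib.MP_fe8b6f_pr.GBas

/-! The torus cost is at most the cost in the period cell. -/

open MeasureTheory ProbabilityTheory
open scoped NNReal ENNReal

noncomputable section

namespace Pool.Agent.Lib.MP_fe8b6f_pr

variable {d : ℕ}

theorem fin2a_preimage_cube {Λ : ℝ} (hΛ : 0 < Λ) :
    (fun x : E d => Λ • x) ⁻¹' cube 0 Λ = cube 0 1 := by
  ext x
  simp only [cube, Set.mem_preimage, Set.mem_ofPred_eq, PiLp.smul_apply, smul_eq_mul,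
    PiLp.zero_apply, zero_add]
  refine forall_congr' fun i => ?_
  constructor
  · rintro ⟨h1, h2⟩
    exact ⟨nonneg_of_mul_nonneg_right h1 hΛ, by nlinarith⟩
  · rintro ⟨h1, h2⟩
    exact ⟨mul_nonneg hΛ.le h1, by nlinarith⟩

theorem fin2a_volume_cube {Λ : ℝ} (hΛ : 0 < Λ) :
    (volume : Measure (E d)).restrict (cube 0 Λ) =
      ENNReal.ofReal (Λ ^ d) • ((volume : Measure (E d)).restrict (cube 0 1)).map
        fun x => Λ • x := by
  have hm : Measurable fun x : E d => Λ • x := measurable_const_smul Λ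
  rw [← fin2a_preimage_cube hΛ, ← Measure.restrict_map hm (measurableSet_cube 0 Λ),
    Measure.map_addHaar_smul volume hΛ.ne', Measure.restrict_smul, smul_smul,
    ← ENNReal.ofReal_mul (by positivity), finrank_euclideanSpace_fin,
    abs_of_pos (by positivity), mul_inv_cancel₀ (by positivity), ENNReal.ofReal_one, one_smul]

theorem fin2a_preimage_Ico {Λ T : ℝ} (hΛ : 0 < Λ) :
    (fun s : ℝ => s / Λ ^ 2) ⁻¹' Set.Ico 0 T = Set.Ico 0 (Λ ^ 2 * T) := by
  ext s
  have h2 : 0 < Λ ^ 2 := by positivity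
  simp only [Set.mem_preimage, Set.mem_Ico]
  rw [div_lt_iff₀ h2, le_div_iff₀ h2, zero_mul, mul_comm]

theorem fin2a_red_one : (red 1 : E d → E d) = frac := by
  funext x
  simp [red]

theorem fin2a_meas_frac : Measurable (frac : E d → E d) := by
  rw [← fin2a_red_one]
  exact measurable_red 1

theorem fin2a_frac_mem (x : E d) : frac x ∈ cube (0 : E d) 1 := by
  rw [← fin2a_red_one]
  exact red_mem one_pos x

theorem fin2a_tdist_le (x y : E d) : tdist x y ≤ ‖x - y‖ₑ := by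
  have h : lat (0 : Fin d → ℤ) = 0 := by
    ext i
    simp [lat]
  refine (iInf_le _ 0).trans (le_of_eq ?_)
  rw [h, sub_zero]

theorem fin2a_WTor_le {p : ℝ} (hp : 0 ≤ p) (ν : Measure (E d)) :
    WTor p (ν.map frac) ≤ G p 1 0 (ν.map frac) := by
  have hpre : (frac : E d → E d) ⁻¹' cube 0 1 = Set.univ :=
    Set.eq_univ_of_forall fun x => fin2a_frac_mem x
  have h1 : (ν.map frac).restrict (cube 0 1) = ν.map frac := by
    rw [Measure.restrict_map fin2a_meas_frac (measurableSet_cube 0 1), hpre, Measure.restrict_univ]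
  have h2 : (ν.map frac) (cube 0 1) = (ν.map frac) Set.univ := by
    rw [Measure.map_apply fin2a_meas_frac (measurableSet_cube 0 1), hpre,
      Measure.map_apply fin2a_meas_frac MeasurableSet.univ, Set.preimage_univ]
  rw [G, h1, h2, volume_cube 0 zero_le_one, one_pow, ENNReal.ofReal_one, div_one, neg_zero, WTor,
    Wp]
  exact Wc_mono (fun x y => ENNReal.rpow_le_rpow (fin2a_tdist_le x y) hp) _ _

theorem fin2a_cell {Λ : ℝ} (hΛ : 0 < Λ) (r : ℝ≥0∞) (ν : Measure (E d)) :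
    (per Λ (r • ν.map fun x => Λ • x)).restrict (cube 0 Λ) =
      r • (ν.map frac).map fun x => Λ • x := by
  have hm : Measurable fun x : E d => Λ • x := measurable_const_smul Λ
  rw [per_restrict_cell hΛ, Measure.map_smul, Measure.map_map (measurable_red Λ) hm,
    Measure.map_map hm fin2a_meas_frac]
  congr 2
  funext x
  simp only [Function.comp, red, smul_smul, inv_mul_cancel₀ hΛ.ne', one_smul]

theorem fin2a_Gf {p Λ : ℝ} (hp : 0 ≤ p) (hΛ : 0 < Λ) {r : ℝ≥0∞} (hr0 : r ≠ 0) (hr : r ≠ ⊤)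
    (ν : Measure (E d)) (hν : ν Set.univ ≠ ⊤) :
    r * ENNReal.ofReal (Λ ^ p) * WTor p (ν.map frac) ≤
      Gf p Λ 0 (per Λ (r • ν.map fun x => Λ • x)) := by
  have hm : Measurable fun x : E d => Λ • x := measurable_const_smul Λ
  rw [← Gf_restrict, fin2a_cell hΛ, Gf, if_neg, G_scale hp hΛ hr0 hr]
  · gcongr
    exact fin2a_WTor_le hp ν
  · rw [Measure.smul_apply, smul_eq_mul]
    refine ENNReal.mul_ne_top hr (ne_top_of_le_ne_top hν ?_)
    refine (measure_mono (Set.subset_univ _)).trans (le_of_eq ?_)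
    rw [Measure.map_apply hm MeasurableSet.univ, Set.preimage_univ,
      Measure.map_apply fin2a_meas_frac MeasurableSet.univ, Set.preimage_univ]

theorem IsWiener.torusCost_le_uL {W : Measure (Path d)} (hW : IsWiener W) (hd : 3 ≤ d) {p T : ℝ}
    (hp : 0 < p) (hT : 0 < T) :
    torusCost p W T / ENNReal.ofReal (T ^ (1 - p / ((d : ℝ) - 2))) ≤
      uL p (TP W) (fun Λ => tm Λ (Set.Ico 0 (Λ ^ d))) (T ^ (1 / ((d : ℝ) - 2))) := by
  have := hW.isProbabilityMeasure
  have hd3 : (3 : ℝ) ≤ d := by exact_mod_cast hd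
  have hd2 : (0 : ℝ) < (d : ℝ) - 2 := by linarith
  set Λ : ℝ := T ^ (1 / ((d : ℝ) - 2)) with hΛdef
  have hΛ : 0 < Λ := Real.rpow_pos_of_pos hT _
  have hTΛ : Λ ^ ((d : ℝ) - 2) = T := by
    rw [hΛdef, ← Real.rpow_mul hT.le, one_div, inv_mul_cancel₀ hd2.ne', Real.rpow_one]
  have hΛd : Λ ^ d = Λ ^ 2 * T := by
    rw [← hTΛ, ← Real.rpow_natCast Λ d, ← Real.rpow_natCast Λ 2, ← Real.rpow_add hΛ]
    congr 1
    push_cast
    ring
  have hexp : T ^ (1 - p / ((d : ℝ) - 2)) * (Λ ^ 2 * Λ ^ p) = Λ ^ d := by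
    have h1 : T ^ (1 - p / ((d : ℝ) - 2)) = Λ ^ ((d : ℝ) - 2 - p) := by
      conv_lhs => rw [← hTΛ]
      rw [← Real.rpow_mul hΛ.le]
      congr 1
      field_simp
    rw [h1, ← Real.rpow_natCast Λ d, ← Real.rpow_natCast Λ 2, ← Real.rpow_add hΛ,
      ← Real.rpow_add hΛ]
    congr 1
    push_cast
    ring
  obtain ⟨c, hc⟩ : ∃ c : ℝ≥0, (c : ℝ) = Λ := ⟨⟨Λ, hΛ.le⟩, rfl⟩
  have hc0 : c ≠ 0 := by
    rintro rfl
    simp at hc
    exact hΛ.ne hc
  have hcE : (c : ℝ≥0∞) ^ 2 = ENNReal.ofReal (Λ ^ 2) := by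
    rw [← hc, ENNReal.ofReal_pow c.coe_nonneg, ENNReal.ofReal_coe_nnreal]
  set Φ : E d × Path d → ℝ≥0∞ := fun q => Gf p Λ 0 (tm Λ (Set.Ico 0 (Λ ^ d)) q) with hΦ
  have hΦm : Measurable Φ := (measurable_Gf hp hΛ 0).comp (measurable_tm Λ _)
  have hpt : ∀ (x : E d) (w : Path d),
      ENNReal.ofReal (Λ ^ 2 * Λ ^ p) * WTor p ((occ x w (Set.Icc 0 T)).map frac) ≤
        Φ (Λ • x, scal c w) := by
    intro x w
    have h1 := occ_scal hc0 x w (I := Set.Ico 0 T) measurableSet_Ico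
    rw [hc, fin2a_preimage_Ico hΛ, ← hΛd, hcE] at h1
    have hr0 : ENNReal.ofReal (Λ ^ 2) ≠ 0 := by
      simp only [ne_eq, ENNReal.ofReal_eq_zero, not_le]
      positivity
    have hfin : occ x w (Set.Ico 0 T) Set.univ ≠ ⊤ := by
      rw [occ_univ, Real.volume_Ico]
      exact ENNReal.ofReal_ne_top
    have h3 := fin2a_Gf hp.le hΛ hr0 ENNReal.ofReal_ne_top _ hfin
    simp only [hΦ, tm]
    rw [h1, occ_Icc, ENNReal.ofReal_mul (by positivity)]
    exact h3
  have hv0 : ENNReal.ofReal (Λ ^ d) ≠ 0 := by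
    simp only [ne_eq, ENNReal.ofReal_eq_zero, not_le]
    positivity
  have hsm : Measurable fun x : E d => Λ • x := measurable_const_smul Λ
  have hmain : ENNReal.ofReal (Λ ^ 2 * Λ ^ p) * torusCost p W T ≤ ∫⁻ q, Φ q ∂(TP W Λ) := by
    rw [hW.lintegral_TP hΦm, avz, fin2a_volume_cube hΛ, lintegral_smul_measure, smul_eq_mul,
      ENNReal.div_eq_inv_mul, ← mul_assoc, ENNReal.inv_mul_cancel hv0 ENNReal.ofReal_ne_top,
      one_mul, lintegral_map hΦm.lintegral_prod_right' hsm, torusCost,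
      ← lintegral_const_mul' _ _ ENNReal.ofReal_ne_top]
    refine lintegral_mono fun x => ?_
    have hx : Measurable fun w : Path d => Φ (Λ • x, w) := hΦm.comp measurable_prodMk_left
    have h4 : ∫⁻ w, Φ (Λ • x, w) ∂W = ∫⁻ w, Φ (Λ • x, scal c w) ∂W := by
      conv_lhs => rw [← hW.map_scal hc0]
      exact lintegral_map hx (continuous_scal c).measurable
    simp only
    rw [h4, ← lintegral_const_mul' _ _ ENNReal.ofReal_ne_top]
    exact lintegral_mono fun w => hpt x w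
  have ha0 : ENNReal.ofReal (Λ ^ 2 * Λ ^ p) ≠ 0 := by
    simp only [ne_eq, ENNReal.ofReal_eq_zero, not_le]
    positivity
  have hden : ENNReal.ofReal (Λ ^ d) =
      ENNReal.ofReal (Λ ^ 2 * Λ ^ p) * ENNReal.ofReal (T ^ (1 - p / ((d : ℝ) - 2))) := by
    rw [← ENNReal.ofReal_mul (by positivity), mul_comm, hexp]
  calc torusCost p W T / ENNReal.ofReal (T ^ (1 - p / ((d : ℝ) - 2)))
      = ENNReal.ofReal (Λ ^ 2 * Λ ^ p) * torusCost p W T / ENNReal.ofReal (Λ ^ d) := by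
        rw [hden, ENNReal.mul_div_mul_left _ _ ha0 ENNReal.ofReal_ne_top]
    _ ≤ uL p (TP W) (fun Λ => tm Λ (Set.Ico 0 (Λ ^ d))) Λ :=
        ENNReal.div_le_div_right hmain _

end Pool.Agent.Lib.MP_fe8b6f_pr
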