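import Pool.Agent.Lib.MP_fe8b6f_pr.TorB1

/-! Local limit of the torus occupation measure. Part 2. -/

open MeasureTheory ProbabilityTheory
open scoped NNReal ENNReal

noncomputable section

namespace Pool.Agent.Lib.MP_fe8b6f_pr

variable {d : ℕ}

theorem torB_sum (Λ L : ℝ) {τ : ℝ} (hτ : 0 ≤ τ) (N : ℕ) (q : E d × Path d) :
    ∑ i ∈ Finset.range N, loc 0 L (tm Λ (Set.Ico (i * τ) ((i + 1) * τ)) q) =
      loc 0 L (tm Λ (Set.Ico 0 (N * τ)) q) := by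
  unfold tm
  rw [occ_Ico_sum q.1 q.2 hτ N]
  induction N with
  | zero => simp [per_zero, loc_zero]
  | succ n ih => rw [Finset.sum_range_succ, Finset.sum_range_succ, per_add, loc_add, ih]

theorem torB_exists_a (hd : 3 ≤ d) {C e : ℝ} (hC : 0 < C) (he : 0 < e) :
    ∃ a : ℝ, 0 < a ∧ C * a ^ (1 - (d : ℝ) / 2) ≤ e := by
  have hd' : (3 : ℝ) ≤ d := by exact_mod_cast hd
  have h1 : (0 : ℝ) < (d : ℝ) / 2 - 1 := by linarith
  have ht := tendsto_rpow_neg_atTop h1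
  have hev := (ht.eventually (gt_mem_nhds (div_pos he hC))).and (Filter.eventually_gt_atTop 0)
  obtain ⟨a, ha1, ha2⟩ := hev.exists
  refine ⟨a, ha2, ?_⟩
  have : 1 - (d : ℝ) / 2 = -((d : ℝ) / 2 - 1) := by ring
  rw [this]
  rw [lt_div_iff₀ hC] at ha1
  linarith

theorem torB_exists_N {V τ0 : ℝ} (hτ0 : 0 < τ0) (hV : τ0 ≤ V) :
    ∃ (N : ℕ) (τ : ℝ), 0 < N ∧ N * τ = V ∧ τ0 ≤ τ ∧ τ ≤ 2 * τ0 := by
  have h1 : 1 ≤ V / τ0 := by rw [le_div_iff₀ hτ0]; linarith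
  have hN : 1 ≤ ⌊V / τ0⌋₊ := Nat.le_floor (by simpa using h1)
  have hN' : (1 : ℝ) ≤ (⌊V / τ0⌋₊ : ℝ) := by exact_mod_cast hN
  have hle : (⌊V / τ0⌋₊ : ℝ) ≤ V / τ0 := Nat.floor_le (by linarith)
  have hlt : V / τ0 < (⌊V / τ0⌋₊ : ℝ) + 1 := Nat.lt_floor_add_one _
  refine ⟨⌊V / τ0⌋₊, V / (⌊V / τ0⌋₊ : ℝ), hN, ?_, ?_, ?_⟩
  · field_simp
  · rw [le_div_iff₀ (by linarith)]
    rw [le_div_iff₀ hτ0] at hle
    linarith
  · rw [div_le_iff₀ (by linarith)]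
    rw [div_lt_iff₀ hτ0] at hlt
    nlinarith

theorem torB_arith {C1 C3 e e2 a A τ τ0 V B : ℝ} {N g : ℕ} (hC1 : 0 < C1) (hC3 : 0 < C3)
    (he2 : 0 < e2) (ha : 0 < a) (hA : 0 ≤ A) (hτ0 : 1 ≤ τ0) (hτ : τ0 ≤ τ) (hN : 0 < N)
    (hV : N * τ = V) (hB : ((g + 1) * τ + 1) / V ≤ B)
    (h1 : 4 * e2 * C1 ≤ e) (h2 : 4 * C3 * A ≤ e) (h3 : 2 * C3 * (a + 1) ≤ e * τ0)
    (h4 : (4 * C3 + 8 * C1 ^ 2) * B ≤ e) :
    N * (2 * (e2 * (C1 * (τ - 0 + 1) / V)) +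
        2 * (C3 * ((τ + 1) / V * (A + ((g + 1) * τ + 1) / V) + (a + 1) / V)) +
        2 * g * (C1 * (τ - 0 + 1) / V) ^ 2) + N * (C1 * (τ - 0 + 1) / V) ^ 2 ≤ 4 * e := by
  have hN' : (0 : ℝ) < N := by exact_mod_cast hN
  have hτp : 0 < τ := by linarith
  have hVp : 0 < V := by rw [← hV]; positivity
  have hg : (0 : ℝ) ≤ g := Nat.cast_nonneg g
  set B0 : ℝ := ((g + 1) * τ + 1) / V with hB0
  have hB0p : 0 ≤ B0 := by positivity
  have hNV : (N : ℝ) / V = 1 / τ := by rw [← hV]; field_simp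
  set r : ℝ := (τ + 1) / τ with hr
  have hr2 : r ≤ 2 := by rw [hr, div_le_iff₀ hτp]; linarith
  have hr0 : 0 ≤ r := by positivity
  set u : ℝ := (τ + 1) / V with hu
  have hu0 : 0 ≤ u := by positivity
  have hNu : N * u = r := by rw [hu, hr, ← hV]; field_simp
  have hgu : (2 * g + 1) * u ≤ 4 * B0 := by
    rw [hu, hB0, ← mul_div_assoc, ← mul_div_assoc]
    apply div_le_div_of_nonneg_right _ hVp.le
    nlinarith
  have hNa : N * ((a + 1) / V) ≤ (a + 1) / τ0 := by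
    have : N * ((a + 1) / V) = (a + 1) / τ := by rw [← hV]; field_simp
    rw [this]
    exact div_le_div_of_nonneg_left (by linarith) (by linarith) hτ
  have h3' : 2 * C3 * ((a + 1) / τ0) ≤ e := by
    rw [← mul_div_assoc, div_le_iff₀ (by linarith)]; exact h3
  have hQ : C1 * (τ - 0 + 1) / V = C1 * u := by rw [hu]; ring
  rw [hQ]
  have key : N * (2 * (e2 * (C1 * u)) + 2 * (C3 * (u * (A + B0) + (a + 1) / V)) +
        2 * g * (C1 * u) ^ 2) + N * (C1 * u) ^ 2 =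
      2 * e2 * C1 * (N * u) + 2 * C3 * (N * u) * A + 2 * C3 * (N * u) * B0 +
        2 * C3 * (N * ((a + 1) / V)) + C1 ^ 2 * (N * u) * ((2 * g + 1) * u) := by ring
  rw [key, hNu]
  have t1 : 2 * e2 * C1 * r ≤ 2 * e2 * C1 * 2 := by gcongr
  have t2 : 2 * C3 * r * A ≤ 2 * C3 * 2 * A := by gcongr
  have t3 : 2 * C3 * r * B0 ≤ 2 * C3 * 2 * B := by gcongr
  have t4 : 2 * C3 * (N * ((a + 1) / V)) ≤ 2 * C3 * ((a + 1) / τ0) := by gcongr
  have t5 : C1 ^ 2 * r * ((2 * g + 1) * u) ≤ C1 ^ 2 * 2 * (4 * B) := by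
    have : (2 * g + 1) * u ≤ 4 * B := by linarith
    gcongr
  linarith

theorem torB_ennreal {N g : ℕ} {q : ℝ≥0∞} {e2 Q H : ℝ} (he2 : 0 ≤ e2) (hQ : 0 ≤ Q) (hH : 0 ≤ H)
    (hq : q ≤ ENNReal.ofReal Q) :
    (N : ℝ≥0∞) * (2 * (ENNReal.ofReal e2 * q) + 2 * ENNReal.ofReal H + 2 * g * q ^ 2) +
      N * q ^ 2 ≤
      ENNReal.ofReal (N * (2 * (e2 * Q) + 2 * H + 2 * g * Q ^ 2) + N * Q ^ 2) := by
  have hg : (0 : ℝ) ≤ g := Nat.cast_nonneg g
  have hN : (0 : ℝ) ≤ N := Nat.cast_nonneg N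
  calc (N : ℝ≥0∞) * (2 * (ENNReal.ofReal e2 * q) + 2 * ENNReal.ofReal H + 2 * g * q ^ 2) +
        N * q ^ 2
      ≤ (N : ℝ≥0∞) * (2 * (ENNReal.ofReal e2 * ENNReal.ofReal Q) + 2 * ENNReal.ofReal H +
          2 * g * ENNReal.ofReal Q ^ 2) + N * ENNReal.ofReal Q ^ 2 := by gcongr
    _ = _ := by
      rw [ENNReal.ofReal_add (by positivity) (by positivity), ENNReal.ofReal_mul hN,
        ENNReal.ofReal_mul hN, ENNReal.ofReal_add (by positivity) (by positivity),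
        ENNReal.ofReal_add (by positivity) (by positivity),
        ENNReal.ofReal_mul (p := 2) (by norm_num), ENNReal.ofReal_mul (p := 2) (by norm_num),
        ENNReal.ofReal_mul (p := 2 * (g : ℝ)) (by positivity),
        ENNReal.ofReal_mul (p := 2) (by norm_num), ENNReal.ofReal_mul he2,
        ENNReal.ofReal_pow hQ]
      simp

theorem torB_smul_beta {W : Measure (Path d)} {Λ τ L : ℝ} {N : ℕ} (hN : 0 < N)
    (hV : N * τ = Λ ^ d) {A : Set (Measure (E d))} (hA : MeasurableSet A) :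
    ((N : ℝ≥0∞) • (TP W Λ).map (fun q => loc 0 L (tm Λ (Set.Ico 0 τ) q))) A =
      (ENNReal.ofReal τ)⁻¹ * ∫⁻ q, A.indicator 1 (loc 0 L (tm Λ (Set.Ico 0 τ) q))
        ∂((volume.restrict (cube (0 : E d) Λ)).prod W) := by
  have hm : Measurable fun q : E d × Path d => loc 0 L (tm Λ (Set.Ico 0 τ) q) :=
    (measurable_loc 0 L).comp (measurable_tm Λ _)
  have hN' : (0 : ℝ) < N := by exact_mod_cast hN
  rw [Measure.smul_apply, Measure.map_apply hm hA, TP, Measure.smul_apply, smul_eq_mul,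
    smul_eq_mul, ← mul_assoc]
  congr 1
  · rw [← hV, ENNReal.ofReal_mul hN'.le, ENNReal.ofReal_natCast,
      ENNReal.mul_inv (Or.inl (by exact_mod_cast hN.ne')) (Or.inl (ENNReal.natCast_ne_top N)),
      ← mul_assoc, ENNReal.mul_inv_cancel (by exact_mod_cast hN.ne') (ENNReal.natCast_ne_top N),
      one_mul]
  · rw [← lintegral_indicator_one (hm hA)]
    rfl

theorem IsWiener.local_limit {W : Measure (Path d)} (hW : IsWiener W) (hd : 3 ≤ d) {L : ℝ}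
    (hL : 0 < L) {ε : ℝ≥0∞} (hε : 0 < ε) :
    ∃ Λ0 : ℝ, ∀ Λ, Λ0 ≤ Λ → ∀ F : Measure (E d) → ℝ≥0∞, Measurable F → (∀ μ, F μ ≤ 1) →
      ∫⁻ μ, F μ ∂(PL W L) ≤
        ∫⁻ q, F (loc 0 L (tm Λ (Set.Ico 0 (Λ ^ d)) q)) ∂(TP W Λ) + ε := by
  obtain ⟨e, he, heε⟩ : ∃ e : ℝ, 0 < e ∧ ENNReal.ofReal (8 * e) ≤ ε := by
    by_cases ht : ε = ⊤
    · exact ⟨1, one_pos, by rw [ht]; exact le_top⟩
    · refine ⟨ε.toReal / 8, div_pos (ENNReal.toReal_pos hε.ne' ht) (by norm_num), ?_⟩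
      rw [show 8 * (ε.toReal / 8) = ε.toReal by ring, ENNReal.ofReal_toReal ht]
  have he' : 0 < ENNReal.ofReal e := ENNReal.ofReal_pos.2 he
  obtain ⟨C1, hC1, hhit, -⟩ := hW.torus_hit hd L
  obtain ⟨C3, hC3, hpair⟩ := hW.block_pair hd L
  have he2 : 0 < e / (4 * C1) := by positivity
  obtain ⟨C2, hC2, hdec⟩ := hW.block_dec he2
  obtain ⟨a, ha, haA⟩ := torB_exists_a hd (C := 4 * C3) (by positivity) he
  have hR : (0 : ℝ) < √d * L + 1 := by positivity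
  have hsub : cube (0 : E d) L ⊆ Metric.closedBall 0 (√d * L + 1) :=
    (cube_subset_closedBall hL.le).trans (Metric.closedBall_subset_closedBall (by linarith))
  obtain ⟨τ1, -, hid⟩ := hW.ident_loc hd hR hsub he'
  obtain ⟨τ0, hτ01, hτ0a, hτ0τ, hτ0e⟩ : ∃ τ0 : ℝ, 1 ≤ τ0 ∧ a ≤ τ0 ∧ τ1 ≤ τ0 ∧
      2 * C3 * (a + 1) ≤ e * τ0 := by
    refine ⟨max (max 1 a) (max τ1 (2 * C3 * (a + 1) / e)), ?_, ?_, ?_, ?_⟩
    · exact (le_max_left _ _).trans (le_max_left _ _)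
    · exact (le_max_right _ _).trans (le_max_left _ _)
    · exact (le_max_left _ _).trans (le_max_right _ _)
    · have : 2 * C3 * (a + 1) / e ≤ max (max 1 a) (max τ1 (2 * C3 * (a + 1) / e)) :=
        (le_max_right _ _).trans (le_max_right _ _)
      rw [div_le_iff₀ he] at this
      linarith
  obtain ⟨Λ1, hunf⟩ := hW.unfold_block hd (τ1 := 2 * τ0) hL he'
  refine ⟨max (max Λ1 τ0) ((4 * C3 + 8 * C1 ^ 2) * (C2 + 4 * τ0 + 1) / e), ?_⟩
  intro Λ hΛ F hF hF1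
  have hΛ1 : Λ1 ≤ Λ := ((le_max_left _ _).trans (le_max_left _ _)).trans hΛ
  have hΛτ : τ0 ≤ Λ := ((le_max_right _ _).trans (le_max_left _ _)).trans hΛ
  have hΛe : (4 * C3 + 8 * C1 ^ 2) * (C2 + 4 * τ0 + 1) / e ≤ Λ := (le_max_right _ _).trans hΛ
  have hΛone : 1 ≤ Λ := hτ01.trans hΛτ
  have hΛp : 0 < Λ := by linarith
  have hV3 : Λ ^ 3 ≤ Λ ^ d := pow_le_pow_right₀ hΛone hd
  have hV1 : Λ ≤ Λ ^ d := le_self_pow₀ hΛone (by omega)
  have hVp : 0 < Λ ^ d := pow_pos hΛp d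
  obtain ⟨N, τ, hN, hNτ, hτl, hτu⟩ := torB_exists_N (V := Λ ^ d) (by linarith) (hΛτ.trans hV1)
  have hτp : 0 < τ := by linarith
  obtain ⟨g, hgl, hgu⟩ : ∃ g : ℕ, C2 * Λ ^ 2 ≤ g * τ ∧ g * τ ≤ C2 * Λ ^ 2 + τ := by
    refine ⟨⌈C2 * Λ ^ 2 / τ⌉₊, ?_, ?_⟩
    · have := Nat.le_ceil (C2 * Λ ^ 2 / τ)
      rwa [div_le_iff₀ hτp] at this
    · have := (Nat.ceil_lt_add_one (a := C2 * Λ ^ 2 / τ) (by positivity)).le
      have h2 := mul_le_mul_of_nonneg_right this hτp.le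
      rwa [add_mul, div_mul_cancel₀ _ hτp.ne', one_mul] at h2
  have hB : ((g + 1) * τ + 1) / Λ ^ d ≤ (C2 + 4 * τ0 + 1) / Λ := by
    rw [div_le_div_iff₀ hVp hΛp]
    have hΛ2 : 1 ≤ Λ ^ 2 := one_le_pow₀ hΛone
    have h1 : (g + 1) * τ + 1 ≤ (C2 + 4 * τ0 + 1) * Λ ^ 2 := by nlinarith
    calc ((g + 1) * τ + 1) * Λ ≤ (C2 + 4 * τ0 + 1) * Λ ^ 2 * Λ := by gcongr
      _ = (C2 + 4 * τ0 + 1) * Λ ^ 3 := by ring
      _ ≤ _ := by gcongr
  have h4 : (4 * C3 + 8 * C1 ^ 2) * ((C2 + 4 * τ0 + 1) / Λ) ≤ e := by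
    rw [← mul_div_assoc, div_le_iff₀ hΛp]
    rw [div_le_iff₀ he] at hΛe
    linarith
  have hA0 : 0 ≤ a ^ (1 - (d : ℝ) / 2) := Real.rpow_nonneg ha.le _
  have harith := torB_arith (e2 := e / (4 * C1)) hC1 hC3 he2 ha hA0 hτ01 hτl hN hNτ hB
    (by rw [show 4 * (e / (4 * C1)) * C1 = e by field_simp]) haA hτ0e h4
  have := hW.isProbabilityMeasure_TP hΛp
  have hYm : ∀ I : Set ℝ, Measurable fun q : E d × Path d => loc 0 L (tm Λ I q) :=
    fun I => (measurable_loc 0 L).comp (measurable_tm Λ I)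
  set β : Measure (Measure (E d)) :=
    (TP W Λ).map (fun q => loc 0 L (tm Λ (Set.Ico 0 τ) q)) with hβ
  have : IsProbabilityMeasure β := Measure.isProbabilityMeasure_map (hYm _).aemeasurable
  have h0 : MeasurableSet ({0} : Set (Measure (E d))) := measurableSet_zero_measure
  have hq : β {0}ᶜ ≤ ENNReal.ofReal (C1 * (τ - 0 + 1) / Λ ^ d) := by
    refine le_trans ?_ (hhit Λ 0 τ hΛp le_rfl hτp.le)
    rw [hβ, Measure.map_apply (hYm _) h0.compl]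
    refine measure_mono fun q hq => ?_
    exact hitS_mono le_rfl Set.Ico_subset_Icc_self
      (mem_hitS_of_loc_tm_ne_zero measurableSet_Ico hq)
  have hlind := lindeberg h0 (TP W Λ) β
    (Y := fun (i : ℕ) q => loc 0 L (tm Λ (Set.Ico (i * τ) ((i + 1) * τ)) q))
    (fun j => hYm _) N g
    (fun j _ => hW.block_law hΛp hτp.le L j)
    (fun j _ ψ hψ hψ1 hψ0 => hdec Λ τ L g j ψ hΛp hτp.le hgl hψ hψ1 hψ0)
    (fun i _ => hpair Λ τ a g i hΛp ha (hτ0a.trans hτl)) hF hF1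
  simp only [torB_sum Λ L hτp.le N, hNτ] at hlind
  have hcam := lecam h0 β N hF hF1
  have := hW.isFiniteMeasure_nuI (√d * L + 1) (loc (0 : E d) L)
  have : IsFiniteMeasure ((N : ℝ≥0∞) • β) :=
    Measure.smul_finite β (ENNReal.natCast_ne_top N)
  have hinv : (ENNReal.ofReal τ)⁻¹ ≤ 1 :=
    ENNReal.inv_le_one.2 (ENNReal.one_le_ofReal.2 (by linarith))
  have hclose := CP_close h0 (nuI W (√d * L + 1) (loc (0 : E d) L)) ((N : ℝ≥0∞) • β)
    (ε := ENNReal.ofReal e + ENNReal.ofReal e) ?_ ?_ hF hF1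
  · have herr := torB_ennreal (N := N) (g := g) (H := C3 * ((τ + 1) / Λ ^ d *
      (a ^ (1 - (d : ℝ) / 2) + ((g + 1) * τ + 1) / Λ ^ d) + (a + 1) / Λ ^ d)) he2.le
      (by positivity) (by positivity) hq
    have herr' := herr.trans (ENNReal.ofReal_le_ofReal harith)
    have h8 : ENNReal.ofReal (4 * e) + 2 * (ENNReal.ofReal e + ENNReal.ofReal e) ≤ ε := by
      refine le_trans (le_of_eq ?_) heε
      rw [← ENNReal.ofReal_add he.le he.le, ← ENNReal.ofReal_ofNat 2,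
        ← ENNReal.ofReal_mul (by norm_num), ← ENNReal.ofReal_add (by positivity) (by positivity)]
      congr 1
      ring
    calc ∫⁻ μ, F μ ∂(PL W L)
        ≤ ∫⁻ x, F x ∂(CP ((N : ℝ≥0∞) • β)) + 2 * (ENNReal.ofReal e + ENNReal.ofReal e) := hclose
      _ ≤ (∫⁻ x, F x ∂(cpow β N) + N * (β {0}ᶜ) ^ 2) +
            2 * (ENNReal.ofReal e + ENNReal.ofReal e) := by gcongr
      _ ≤ _ := by
        refine le_trans (add_le_add (add_le_add hlind le_rfl) le_rfl) ?_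
        rw [add_assoc, add_assoc]
        refine add_le_add le_rfl ?_
        rw [← add_assoc]
        exact (add_le_add herr' le_rfl).trans h8
  · intro A hA hA0
    have hFm : Measurable (A.indicator (1 : Measure (E d) → ℝ≥0∞)) :=
      measurable_one.indicator hA
    have hF1' : ∀ μ, A.indicator (1 : Measure (E d) → ℝ≥0∞) μ ≤ 1 :=
      fun μ => Set.indicator_le_self' (fun _ _ => zero_le) μ
    have hF0 : A.indicator (1 : Measure (E d) → ℝ≥0∞) 0 = 0 := Set.indicator_of_notMem hA0 _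
    have i1 := (hid τ (hτ0τ.trans hτl) _ hFm hF1' hF0).2
    have i2 := (hunf Λ τ hΛ1 hτp.le hτu _ hFm hF1' hF0).2
    rw [lintegral_indicator_one hA] at i1
    rw [hβ, torB_smul_beta hN hNτ hA, ← add_assoc]
    refine i1.trans (add_le_add ?_ le_rfl)
    refine (mul_le_mul_right i2 _).trans ?_
    rw [mul_add]
    exact add_le_add le_rfl (mul_le_of_le_one_left' hinv)
  · intro A hA hA0
    have hFm : Measurable (A.indicator (1 : Measure (E d) → ℝ≥0∞)) :=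
      measurable_one.indicator hA
    have hF1' : ∀ μ, A.indicator (1 : Measure (E d) → ℝ≥0∞) μ ≤ 1 :=
      fun μ => Set.indicator_le_self' (fun _ _ => zero_le) μ
    have hF0 : A.indicator (1 : Measure (E d) → ℝ≥0∞) 0 = 0 := Set.indicator_of_notMem hA0 _
    have i1 := (hid τ (hτ0τ.trans hτl) _ hFm hF1' hF0).1
    have i2 := (hunf Λ τ hΛ1 hτp.le hτu _ hFm hF1' hF0).1
    rw [lintegral_indicator_one hA] at i1
    rw [hβ, torB_smul_beta hN hNτ hA, ← add_assoc]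
    refine (mul_le_mul_right i2 _).trans ?_
    rw [mul_add]
    exact add_le_add i1 (mul_le_of_le_one_left' hinv)

theorem IsWiener.tfam {W : Measure (Path d)} (hW : IsWiener W) (hd : 3 ≤ d) :
    TFam (PL W) (TP W) (fun Λ => tm Λ (Set.Ico 0 (Λ ^ d))) := by
  have := hW.isProbabilityMeasure
  refine ⟨fun Λ hΛ => hW.isProbabilityMeasure_TP hΛ, fun Λ L _ => measurable_loc_tm Λ L _,
    fun Λ L z q hΛ => ?_, fun L hL ε hε => ?_⟩
  · refine per_cube_ne_top hΛ ?_ z L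
    rw [occ_univ, Real.volume_Ico]
    exact ENNReal.ofReal_ne_top
  · obtain ⟨Λ0, h⟩ := hW.local_limit hd hL hε
    refine ⟨max Λ0 1, fun Λ hΛ z F hF hF1 => ?_⟩
    have hΛp : 0 < Λ := lt_of_lt_of_le one_pos ((le_max_right _ _).trans hΛ)
    refine (h Λ ((le_max_left _ _).trans hΛ) F hF hF1).trans (le_of_eq ?_)
    congr 1
    have hm : ∀ y : E d, Measurable fun q : E d × Path d =>
        F (loc y L (tm Λ (Set.Ico 0 (Λ ^ d)) q)) :=
      fun y => hF.comp ((measurable_loc y L).comp (measurable_tm Λ _))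
    rw [hW.lintegral_TP (hm 0), hW.lintegral_TP (hm z)]
    have hφ : Measurable fun x : E d =>
        ∫⁻ w, F (loc 0 L (tm Λ (Set.Ico 0 (Λ ^ d)) (x, w))) ∂W :=
      (hm 0).lintegral_prod_right'
    have hper : IsPer Λ fun x : E d =>
        ∫⁻ w, F (loc 0 L (tm Λ (Set.Ico 0 (Λ ^ d)) (x, w))) ∂W := by
      intro x k
      refine lintegral_congr fun w => ?_
      have := isPer_tm Λ (Set.Ico 0 (Λ ^ d)) w x k
      simp only at this
      rw [this]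
    rw [← avz_shift hΛp hφ hper (-z)]
    congr 1
    funext x
    refine lintegral_congr fun w => ?_
    rw [loc_tm Λ L _ z x w, sub_eq_add_neg]

end Pool.Agent.Lib.MP_fe8b6f_pr
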