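import Pool.Agent.Lib.MP_fe8b6f_pr.TM5a
import Pool.Agent.Lib.MP_fe8b6f_pr.TorB

/-! The torus family satisfies the hypotheses of the upper bound. -/

open MeasureTheory ProbabilityTheory
open scoped NNReal ENNReal

noncomputable section

namespace Pool.Agent.Lib.MP_fe8b6f_pr

variable {d : ℕ}

theorem tm5_cell {Λ : ℝ} (hΛ : 0 < Λ) {A : Set (E d)} (hA : MeasurableSet A)
    (hAc : A ⊆ cube 0 Λ) :
    ∫⁻ z in cube 0 Λ, (red Λ ⁻¹' A).indicator (1 : E d → ℝ≥0∞) z = volume A := by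
  rw [lintegral_indicator_one (measurable_red Λ hA),
    Measure.restrict_apply (measurable_red Λ hA)]
  congr 1
  ext x
  constructor
  · rintro ⟨h1, h2⟩
    rwa [Set.mem_preimage, red_eq_self hΛ h2] at h1
  · intro h
    exact ⟨by rw [Set.mem_preimage, red_eq_self hΛ (hAc h)]; exact h, hAc h⟩

theorem tm5_mean {W : Measure (Path d)} (hW : IsWiener W) {Λ : ℝ} (hΛ : 0 < Λ)
    {A : Set (E d)} (hA : MeasurableSet A) (hAc : A ⊆ cube 0 Λ) :
    ∫⁻ x, tm Λ (Set.Ico 0 (Λ ^ d)) x A ∂(TP W Λ) = volume A := by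
  have := hW.isProbabilityMeasure
  set f : E d → ℝ≥0∞ := (red Λ ⁻¹' A).indicator 1 with hf
  have hfm : Measurable f := measurable_one.indicator (measurable_red Λ hA)
  have hper : IsPer Λ f := fun x k => by
    have h := isPer_red hΛ x k
    by_cases hx : red Λ x ∈ A
    · rw [hf, Set.indicator_of_mem (show x ∈ red Λ ⁻¹' A from hx),
        Set.indicator_of_mem (show x + Λ • lat k ∈ red Λ ⁻¹' A by
          rw [Set.mem_preimage, h]; exact hx)]
      rfl
    · rw [hf, Set.indicator_of_notMem (show x ∉ red Λ ⁻¹' A from hx),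
        Set.indicator_of_notMem (show x + Λ • lat k ∉ red Λ ⁻¹' A by
          rw [Set.mem_preimage, h]; exact hx)]
  have h1 : ∀ q : E d × Path d, tm Λ (Set.Ico 0 (Λ ^ d)) q A =
      ∫⁻ t in Set.Ico (0 : ℝ) (Λ ^ d), f (q.1 + q.2 t.toNNReal) := fun q => by
    rw [← lintegral_occ q.1 q.2 _ hfm, hf, lintegral_indicator_one (measurable_red Λ hA),
      ← Measure.map_apply (measurable_red Λ) hA, ← per_restrict_cell hΛ,
      Measure.restrict_apply hA, Set.inter_eq_left.2 hAc]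
    rfl
  have hm : Measurable fun p : (E d × Path d) × ℝ => f (p.1.1 + p.1.2 p.2.toNNReal) :=
    hfm.comp ((measurable_fst.comp measurable_fst).add (measurable_path_eval.comp
      ((measurable_snd.comp measurable_fst).prodMk
        (measurable_real_toNNReal.comp measurable_snd))))
  have := hW.isProbabilityMeasure_TP hΛ
  have hpos : 0 < Λ ^ d := pow_pos hΛ d
  have h2 : ∀ t : ℝ, ∫⁻ q, f (q.1 + q.2 t.toNNReal) ∂(TP W Λ) =
      volume A / ENNReal.ofReal (Λ ^ d) := fun t => by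
    have hm2 : Measurable fun q : E d × Path d => f (q.1 + q.2 t.toNNReal) :=
      hfm.comp (measurable_fst.add ((measurable_ev _).comp measurable_snd))
    rw [TP, lintegral_smul_measure, lintegral_prod_symm _ hm2.aemeasurable]
    simp only [setLIntegral_per_shift hΛ hfm hper]
    rw [lintegral_const, measure_univ, mul_one, hf, tm5_cell hΛ hA hAc, smul_eq_mul,
      ENNReal.div_eq_inv_mul]
  simp only [h1]
  rw [lintegral_lintegral_swap hm.aemeasurable]
  simp only [h2]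
  rw [setLIntegral_const, Real.volume_Ico, sub_zero]
  exact ENNReal.div_mul_cancel (ENNReal.ofReal_pos.2 hpos).ne' ENNReal.ofReal_ne_top

theorem tm5_compl {Y : Type*} [MeasurableSpace Y] (μ : Measure Y) [IsProbabilityMeasure μ]
    {F : Y → ℝ≥0∞} (hF : Measurable F) (hF1 : ∀ y, F y ≤ 1) :
    ∫⁻ y, F y ∂μ + ∫⁻ y, (1 - F y) ∂μ = 1 := by
  rw [← lintegral_add_left hF]
  simp only [fun y => add_tsub_cancel_of_le (hF1 y)]
  rw [lintegral_const, measure_univ, mul_one]

theorem IsWiener.ufam {W : Measure (Path d)} (hW : IsWiener W) (hd : 3 ≤ d) :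
    UFam (PL W) (TP W) (fun Λ => tm Λ (Set.Ico 0 (Λ ^ d))) := by
  refine ⟨fun Λ hΛ => hW.isProbabilityMeasure_TP hΛ, fun Λ => measurable_tm Λ _,
    fun Λ hΛ A hA hAc => tm5_mean hW hΛ hA hAc, fun q hq => hW.torus_mom hd hq,
    fun L hL ε hε => ?_⟩
  obtain ⟨Λ0, h⟩ := (hW.tfam hd).lim L hL ε hε
  refine ⟨max Λ0 1, fun Λ hΛ z F _ hF hF1 => ?_⟩
  have hΛ0 : 0 < Λ := lt_of_lt_of_le one_pos ((le_max_right _ _).trans hΛ)
  have := hW.isProbabilityMeasure_TP hΛ0
  have := (hW.fam hd).prob L hL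
  have h1 := h Λ ((le_max_left _ _).trans hΛ) z (fun μ => 1 - F μ) (measurable_const.sub hF)
    fun μ => tsub_le_self
  have hm : Measurable fun q : E d × Path d => F (loc z L (tm Λ (Set.Ico 0 (Λ ^ d)) q)) :=
    hF.comp ((measurable_loc z L).comp (measurable_tm Λ _))
  have h2 := tm5_compl (TP W Λ) hm fun q => hF1 _
  have h3 := tm5_compl (PL W L) hF hF1
  have hne : ∫⁻ q, (1 - F (loc z L (tm Λ (Set.Ico 0 (Λ ^ d)) q))) ∂(TP W Λ) ≠ ⊤ :=
    ne_top_of_le_ne_top ENNReal.one_ne_top (le_add_self.trans h2.le)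
  refine (ENNReal.add_le_add_iff_right hne).1 ?_
  rw [h2, add_assoc, add_comm ε]
  exact h3.ge.trans (add_le_add_right h1 _)

end Pool.Agent.Lib.MP_fe8b6f_pr
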