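import Pool.Agent.Lib.MP_fe8b6f_pr.UpA1

/-! The limit family satisfies the hypotheses of the upper bound. -/

open MeasureTheory ProbabilityTheory
open scoped NNReal ENNReal

noncomputable section

namespace Pool.Agent.Lib.MP_fe8b6f_pr

variable {d : ℕ}

variable {X : Type} [MeasurableSpace X] {P : ℝ → Measure (Measure (E d))} {T : ℝ → Measure X}
  {m : ℝ → X → Measure (E d)}

theorem upc3_meas {A : Set (E d)} (hA : MeasurableSet A) {f : E d → ℝ} (hf : Measurable f)
    (h0 : ∀ x, 0 ≤ f x) : Measurable fun μ : Measure (E d) => ∫ x in A, f x ∂μ := by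
  have h1 : (fun μ : Measure (E d) => ∫ x in A, f x ∂μ) =
      fun μ => (∫⁻ x in A, ENNReal.ofReal (f x) ∂μ).toReal :=
    funext fun μ => integral_eq_lintegral_of_nonneg_ae (ae_of_all _ h0) hf.aestronglyMeasurable
  rw [h1]
  exact ((Measure.measurable_lintegral hf.ennreal_ofReal).comp
    (measurable_restrict_measure hA)).ennreal_toReal

theorem upc3_int {a : E d} {r : ℝ} {h : E d → ℝ} (hh : Measurable h)
    (hs : ∀ y, y ∉ cube a r → h y = 0) (μ : Measure (E d)) :
    ∫ y, h (y + a) ∂(loc a r μ) = ∫ y, h y ∂μ := by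
  rw [grid_loc_eq, sh, integral_map (f := fun y => h (y + a)) (grid_meas a).aemeasurable
    (hh.comp (measurable_add_const a)).aestronglyMeasurable]
  simp only [sub_add_cancel]
  exact setIntegral_eq_integral_of_forall_compl_eq_zero hs

theorem Fam.ufam (hP : Fam P) : UFam P P fun _ μ => μ := by
  refine ⟨hP.prob, fun _ => measurable_id, fun Λ hΛ A hA hAs => ?_, fun q hq => ?_,
    fun L hL ε _ => ⟨1, fun Λ hΛ z F hz hF _ => ?_⟩⟩
  · have h := hP.mean Λ hΛ (A.indicator 1) (measurable_one.indicator hA)
    simp only [lintegral_indicator_one hA, Measure.restrict_apply hA,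
      Set.inter_eq_left.2 hAs] at h
    exact h
  · obtain ⟨C, hC⟩ := hP.mom q hq
    refine ⟨max C 0, le_max_right _ _, fun Λ r a h hr hrΛ hsub hh h0 h1 hs => ?_⟩
    have hm : Measurable fun y => h (y + a) := hh.comp (measurable_add_const a)
    have h2 := hC r hr (fun y => h (y + a)) hm (fun _ => h0 _) fun _ => h1 _
    have h3 : ∫ y in cube 0 r, h (y + a) = ∫ y, h y := by
      rw [← upc3_int hh hs volume, loc, sh_volume]
    have h4 : ∀ μ : Measure (E d), ∫ y in cube 0 r, h (y + a) ∂(loc a r μ) = ∫ y, h y ∂μ := by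
      intro μ
      rw [← upc3_int hh hs μ, loc, Measure.restrict_restrict_of_subset subset_rfl]
    rw [← hP.stat Λ r a (by linarith) (by linarith) hsub, lintegral_map
      (((upc3_meas (measurableSet_cube 0 r) hm fun _ => h0 _).sub_const _).abs.pow_const
        q).ennreal_ofReal (measurable_loc a r)] at h2
    simp only [h3, h4] at h2
    refine h2.trans (ENNReal.ofReal_le_ofReal ?_)
    exact mul_le_mul_of_nonneg_right (le_max_left _ _) (Real.rpow_nonneg (by linarith) _)
  · rw [← hP.stat Λ L z hL (by linarith) hz, lintegral_map hF (measurable_loc z L)]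
    exact le_self_add

end Pool.Agent.Lib.MP_fe8b6f_pr
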