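import Pool.Agent.Lib.MP_fe8b6f_pr.UpD1
import Pool.Agent.Lib.MP_fe8b6f_pr.UpC3
import Pool.Agent.Lib.MP_fe8b6f_pr.ConcA1

/-! Existence and finiteness of the limit. -/

open MeasureTheory ProbabilityTheory
open scoped NNReal ENNReal

noncomputable section

namespace Pool.Agent.Lib.MP_fe8b6f_pr

variable {d : ℕ}

variable {X : Type} [MeasurableSpace X] {P : ℝ → Measure (Measure (E d))} {T : ℝ → Measure X}
  {m : ℝ → X → Measure (E d)}

theorem Fam.cInf_ne_top (hP : Fam P) {p : ℝ} (hdp : InRange d p) : cInf p P ≠ ⊤ := by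
  have hp : 0 < p := by
    rcases hdp with ⟨_, h, _⟩ | ⟨_, h⟩ <;> exact h
  have hU := hP.ufam
  obtain ⟨s0, hs0⟩ := hU.sub_error hdp one_pos
  obtain ⟨C, hC⟩ := G_sub (d := d) hp one_pos
  set s1 : ℝ := max 1 s0 with hs1
  have hs1p : 0 < s1 := lt_of_lt_of_le one_pos (le_max_left _ _)
  set D : ℝ≥0∞ := ENNReal.ofReal (√d * (2 * s1)) ^ p with hD
  have hDt : D ≠ ⊤ := ENNReal.rpow_ne_top_of_nonneg hp.le ENNReal.ofReal_ne_top
  have hB : ENNReal.ofReal (1 + 1) * D + C ≠ ⊤ :=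
    ENNReal.add_ne_top.2 ⟨ENNReal.mul_ne_top ENNReal.ofReal_ne_top hDt, ENNReal.coe_ne_top⟩
  refine ne_top_of_le_ne_top hB (Filter.liminf_le_of_frequently_le' ?_)
  refine (Filter.eventually_atTop.2 ⟨s1, fun Λ hΛ => ?_⟩).frequently
  have hΛ0 : 0 < Λ := lt_of_lt_of_le hs1p hΛ
  set n : ℕ := ⌊Λ / s1⌋₊ with hn
  have h1 : 1 ≤ Λ / s1 := (one_le_div hs1p).2 hΛ
  have hn0 : 0 < n := Nat.floor_pos.2 h1
  have hnr : (1 : ℝ) ≤ n := by exact_mod_cast hn0
  have h2 : (n : ℝ) ≤ Λ / s1 := Nat.floor_le (by linarith)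
  have h3 : Λ / s1 < n + 1 := Nat.lt_floor_add_one _
  have h4 : s1 ≤ Λ / n := by
    rw [le_div_iff₀ (by linarith)]
    rw [le_div_iff₀ hs1p] at h2
    linarith
  have h5 : Λ / n ≤ 2 * s1 := by
    rw [div_le_iff₀ (by linarith)]
    rw [div_lt_iff₀ hs1p] at h3
    nlinarith
  obtain ⟨Err, hEm, hE1, hE2⟩ := hs0 Λ n hΛ0 hn0 ((le_max_right _ _).trans h4)
  have hpt : ∀ μ : Measure (E d), Gf p Λ 0 μ ≤
      ENNReal.ofReal (1 + 1) * D * μ (cube 0 Λ) + C * Err μ := by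
    intro μ
    unfold Gf
    split_ifs with hμ
    · exact zero_le
    · refine (hC Λ n 0 μ hΛ0 hn0 hμ).trans (add_le_add ?_ (mul_le_mul_right (hE1 μ hμ) _))
      rw [mul_assoc, measure_cube_eq_sum μ 0 hΛ0 hn0, Finset.mul_sum _ _ D]
      refine mul_le_mul_right (Finset.sum_le_sum fun j _ => ?_) _
      have hj : μ (gc 0 Λ n j) ≠ ⊤ :=
        ne_top_of_le_ne_top hμ (measure_mono (gc_subset 0 hΛ0.le n j))
      have e : loc (gcorner 0 Λ n j) (Λ / n) μ (cube 0 (Λ / n)) = μ (gc 0 Λ n j) :=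
        loc_cube _ _ _
      refine (G_bound (s := Λ / n) hp.le (by linarith) 0 (by rw [e]; exact hj)).trans ?_
      rw [e, norm_zero, add_zero]
      refine mul_le_mul_left (ENNReal.rpow_le_rpow (ENNReal.ofReal_le_ofReal ?_) hp.le) _
      exact mul_le_mul_of_nonneg_left h5 (Real.sqrt_nonneg _)
  have hm : Measurable fun μ : Measure (E d) => μ (cube 0 Λ) :=
    Measure.measurable_coe (measurableSet_cube _ _)
  have hmean : ∫⁻ μ, μ (cube 0 Λ) ∂(P Λ) = ENNReal.ofReal (Λ ^ d) := by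
    rw [← volume_cube (0 : E d) hΛ0.le]
    exact hU.mean Λ hΛ0 _ (measurableSet_cube _ _) subset_rfl
  refine ENNReal.div_le_of_le_mul ((lintegral_mono hpt).trans ?_)
  rw [lintegral_add_left (hm.const_mul _), lintegral_const_mul _ hm, lintegral_const_mul _ hEm,
    hmean, add_mul]
  rw [one_mul] at hE2
  exact add_le_add le_rfl (mul_le_mul_right hE2 _)

theorem Fam.tendsto_cL (hP : Fam P) {p : ℝ} (hdp : InRange d p) :
    Filter.Tendsto (cL p P 0) Filter.atTop (nhds (cInf p P)) := by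
  exact tendsto_of_le_liminf_of_limsup_le le_rfl (main_upper hP hP.ufam hdp)

end Pool.Agent.Lib.MP_fe8b6f_pr
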