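import Pool.Agent.Lib.MP_fe8b6f_pr.Final
import Pool.Agent.Lib.MP_fe8b6f_pr.UpD
import Pool.Agent.Lib.MP_fe8b6f_pr.TM5
import Pool.Agent.Lib.MP_fe8b6f_pr.Fin2a

/-! The full limit theorem. -/

open MeasureTheory ProbabilityTheory
open scoped NNReal ENNReal

noncomputable section

namespace Pool.Agent.Lib.MP_fe8b6f_pr

variable {d : ℕ}

theorem full_limit {p R : ℝ} (hdp : InRange d p) {W : Measure (Path d)} (hW : IsWiener W)
    (hR : √d ≤ R) :
    ∃ c : ℝ≥0,
      Filter.Tendsto (fun u : ℝ => interCost p W R (cube 0 1) u /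
        ENNReal.ofReal (u ^ (1 - p / ((d : ℝ) - 2)))) Filter.atTop (nhds (c : ℝ≥0∞)) ∧
      Filter.Tendsto (fun T : ℝ => torusCost p W T /
        ENNReal.ofReal (T ^ (1 - p / ((d : ℝ) - 2)))) Filter.atTop (nhds (c : ℝ≥0∞)) := by
  have hd : 3 ≤ d := by
    rcases hdp with ⟨h | h, -⟩ | ⟨h, -⟩ <;> omega
  have hp : 0 < p := by
    rcases hdp with ⟨-, h, -⟩ | ⟨-, h⟩ <;> exact h
  have hd3 : (3 : ℝ) ≤ d := by exact_mod_cast hd
  have hd2 : (0 : ℝ) < (d : ℝ) - 2 := by linarith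
  have hP := hW.fam hd
  have hU := hW.ufam hd
  have hne : cInf p (PL W) ≠ ⊤ := hP.cInf_ne_top hdp
  have ht : Filter.Tendsto (fun T : ℝ => T ^ (1 / ((d : ℝ) - 2))) Filter.atTop Filter.atTop :=
    tendsto_rpow_atTop (by positivity)
  have hcube : Filter.Tendsto (fun u : ℝ => interCost p W R (cube 0 1) u /
      ENNReal.ofReal (u ^ (1 - p / ((d : ℝ) - 2)))) Filter.atTop (nhds (cInf p (PL W))) := by
    refine ((hP.tendsto_cL hdp).comp ht).congr' ?_
    filter_upwards [Filter.eventually_gt_atTop 0] with u hu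
    have hL : 0 < u ^ (1 / ((d : ℝ) - 2)) := Real.rpow_pos_of_pos hu _
    have hu' : (u ^ (1 / ((d : ℝ) - 2))) ^ ((d : ℝ) - 2) = u := by
      rw [← Real.rpow_mul hu.le, one_div, inv_mul_cancel₀ hd2.ne', Real.rpow_one]
    have h := hW.interCost_eq hd hp hR hL
    rw [hu'] at h
    exact h.symm
  refine ⟨(cInf p (PL W)).toNNReal, ?_, ?_⟩
  · rw [ENNReal.coe_toNNReal hne]
    exact hcube
  · rw [ENNReal.coe_toNNReal hne]
    refine tendsto_of_le_liminf_of_limsup_le ?_ ?_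
    · have h := lower_bound hdp hW hR
      rwa [hcube.liminf_eq] at h
    · refine le_trans ?_ (main_upper hP hU hdp)
      refine le_trans ?_ (ht.limsup_comp_le_limsup)
      refine Filter.limsup_le_limsup ?_
      filter_upwards [Filter.eventually_gt_atTop 0] with T hT0
      exact hW.torusCost_le_uL hd hp hT0

end Pool.Agent.Lib.MP_fe8b6f_pr
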