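import Pool.Agent.Lib.MP_fe8b6f_pr.BMb3

/-! The interlacement cost does not see Lebesgue null sets. -/

open MeasureTheory ProbabilityTheory
open scoped NNReal ENNReal

noncomputable section

namespace Pool.Agent.Lib.MP_fe8b6f_pr

variable {d : ℕ}

theorem fin2b_finite (R : ℝ) : IsFiniteMeasure (sphereUnif d R) := by
  have : IsFiniteMeasure ((volume (Metric.ball (0 : E d) 1))⁻¹ •
      volume.restrict (Metric.ball (0 : E d) 1)) := by
    constructor
    simp only [Measure.smul_apply, Measure.restrict_apply_univ, smul_eq_mul]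
    rw [ENNReal.inv_mul_cancel (Metric.measure_ball_pos _ _ one_pos).ne' measure_ball_lt_top.ne]
    exact ENNReal.one_lt_top
  unfold sphereUnif
  infer_instance

theorem fin2b_occ_null {W : Measure (Path d)} (hW : IsWiener W) {N : Set (E d)}
    (hN : MeasurableSet N) (h0 : volume N = 0) (m : Measure (E d)) [SFinite m] :
    ∀ᵐ q ∂(m.prod W), occ q.1 q.2 (Set.Ici 0) N = 0 := by
  have := hW.isProbabilityMeasure
  have hm : Measurable fun q : E d × Path d => occ q.1 q.2 (Set.Ici 0) N :=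
    (Measure.measurable_coe hN).comp measurable_occ
  have h1 : ∀ x : E d, ∫⁻ w, occ x w (Set.Ici 0) N ∂W = 0 := by
    intro x
    have h2 := hW.lintegral_occ_green x (f := N.indicator 1) (measurable_one.indicator hN)
    simp only [lintegral_indicator_one hN] at h2
    rw [h2]
    refine lintegral_eq_zero_of_ae_eq_zero ?_
    filter_upwards [measure_eq_zero_iff_ae_notMem.mp h0] with y hy
    simp [Set.indicator_of_notMem hy]
  have h3 : ∫⁻ q, occ q.1 q.2 (Set.Ici 0) N ∂(m.prod W) = 0 := by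
    rw [lintegral_prod _ hm.aemeasurable]
    simp only [h1, lintegral_zero]
  exact (lintegral_eq_zero_iff hm).mp h3

theorem fin2b_WDom {Ω Ω' : Set (E d)} (h : Ω =ᵐ[volume] Ω') (p : ℝ) {μ : Measure (E d)}
    (hμ : Ω =ᵐ[μ] Ω') : WDom p Ω μ = WDom p Ω' μ := by
  unfold WDom
  rw [Measure.restrict_congr_set h, Measure.restrict_congr_set hμ, measure_congr h,
    measure_congr hμ]

theorem IsWiener.interCost_congr {W : Measure (Path d)} (hW : IsWiener W) {Ω Ω' : Set (E d)}
    (hΩ : MeasurableSet Ω) (hΩ' : MeasurableSet Ω') (h : Ω =ᵐ[volume] Ω') (p R u : ℝ) :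
    interCost p W R Ω u = interCost p W R Ω' u := by
  have := hW.isProbabilityMeasure
  have := fin2b_finite (d := d) R
  have hN : MeasurableSet (symmDiff Ω Ω') := hΩ.symmDiff hΩ'
  have h0 : volume (symmDiff Ω Ω') = 0 := measure_symmDiff_eq_zero_iff.mpr h
  have h1 := fin2b_occ_null hW hN h0 (sphereUnif d R)
  unfold interCost
  refine lintegral_congr fun n => lintegral_congr_ae ?_
  have h2 : ∀ᵐ X : Fin n → E d × Path d ∂(Measure.pi fun _ => (sphereUnif d R).prod W),
      ∀ i, occ (X i).1 (X i).2 (Set.Ici 0) (symmDiff Ω Ω') = 0 :=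
    ae_all_iff.mpr fun i => (Measure.tendsto_eval_ae_ae
      (μ := fun _ : Fin n => (sphereUnif d R).prod W) (i := i)).eventually h1
  filter_upwards [h2] with X hX
  refine fin2b_WDom h p (measure_symmDiff_eq_zero_iff.mp ?_)
  rw [Measure.coe_finsetSum, Finset.sum_apply]
  exact Finset.sum_eq_zero fun i _ =>
    le_antisymm ((Measure.restrict_le_self _).trans (hX i).le) bot_le

theorem openCube_ae_eq :
    {x : E d | ∀ i, 0 < x i ∧ x i < 1} =ᵐ[volume] cube (0 : E d) 1 := by
  have h1 : (Set.pi Set.univ fun _ : Fin d => Set.Ioo (0 : ℝ) 1) =ᵐ[volume]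
      Set.pi Set.univ fun _ : Fin d => Set.Ico (0 : ℝ) 1 :=
    Measure.ae_eq_set_pi fun _ _ => Ioo_ae_eq_Ico
  have h2 := (PiLp.volume_preserving_ofLp (Fin d)).quasiMeasurePreserving.preimage_ae_eq h1
  have e1 : {x : E d | ∀ i, 0 < x i ∧ x i < 1} =
      WithLp.ofLp ⁻¹' Set.pi Set.univ fun _ : Fin d => Set.Ioo (0 : ℝ) 1 := by
    ext x
    simp [Set.mem_pi]
  have e2 : cube (0 : E d) 1 =
      WithLp.ofLp ⁻¹' Set.pi Set.univ fun _ : Fin d => Set.Ico (0 : ℝ) 1 := by
    ext x
    simp [Set.mem_pi, cube]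
  rw [e1, e2]
  exact h2

theorem measurableSet_openCube : MeasurableSet {x : E d | ∀ i, 0 < x i ∧ x i < 1} := by
  have e1 : {x : E d | ∀ i, 0 < x i ∧ x i < 1} =
      WithLp.ofLp ⁻¹' Set.pi Set.univ fun _ : Fin d => Set.Ioo (0 : ℝ) 1 := by
    ext x
    simp [Set.mem_pi]
  rw [e1]
  exact (PiLp.volume_preserving_ofLp (Fin d)).measurable
    (MeasurableSet.univ_pi fun _ => measurableSet_Ioo)

end Pool.Agent.Lib.MP_fe8b6f_pr
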