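import Pool.Agent.Lib.MP_fe8b6f_pr.LocP
import Pool.Agent.Lib.MP_fe8b6f_pr.Breg
import Pool.Agent.Lib.MP_fe8b6f_pr.Exp

/-! Averaged localisation for `p ≥ 1`. -/

open MeasureTheory ProbabilityTheory
open scoped NNReal ENNReal

noncomputable section

namespace Pool.Agent.Lib.MP_fe8b6f_pr

variable {d : ℕ}

theorem loc1_one_le {X : ℝ≥0∞} {c : ℝ} (hc : 0 < c) (h : ¬ X ≤ ENNReal.ofReal c) :
    1 ≤ X / ENNReal.ofReal c := by
  rw [ENNReal.le_div_iff_mul_le (Or.inl (by simpa using hc)) (Or.inl ENNReal.ofReal_ne_top),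
    one_mul]
  exact (not_le.1 h).le

theorem loc1_avz_div (Λ : ℝ) (φ : E d → ℝ≥0∞) {c : ℝ} (hc : 0 < c) :
    avz Λ (fun z => φ z / ENNReal.ofReal c) = avz Λ φ / ENNReal.ofReal c := by
  simp only [ENNReal.div_eq_inv_mul (b := ENNReal.ofReal c)]
  exact avz_const_mul Λ (ENNReal.inv_ne_top.2 (by simpa using hc)) φ

theorem loc1_ratio {X cost : ℝ≥0∞} {C w B b e : ℝ} (hC : 0 ≤ C) (hw : 0 < w) (_hB : 0 < B)
    (hb : 0 ≤ b) (he : 0 ≤ e) (hX : X ≤ ENNReal.ofReal (C * w) * (1 + cost))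
    (hc : cost ≤ ENNReal.ofReal b) (hCe : C * (1 + b) ≤ e * B) :
    X / ENNReal.ofReal (B * w) ≤ ENNReal.ofReal e := by
  refine ENNReal.div_le_of_le_mul ?_
  refine hX.trans ((mul_le_mul_right (add_le_add_right hc 1) _).trans ?_)
  rw [← ENNReal.ofReal_one, ← ENNReal.ofReal_add zero_le_one hb,
    ← ENNReal.ofReal_mul (by positivity), ← ENNReal.ofReal_mul he]
  refine ENNReal.ofReal_le_ofReal ?_
  nlinarith

/-- sum of the error ratios at one scale -/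
def loc1R (p K K0 L B δ θ c : ℝ) (J J2 : ℕ) (γ : Measure (E d × E d)) : ℝ≥0∞ :=
  FS p K K0 L γ / ENNReal.ofReal (B * L ^ (d - 1)) +
  FZ K K0 L J θ γ / ENNReal.ofReal (B * (2 ^ J * θ * L ^ (d - 1))) +
  FV1 K K0 L γ / ENNReal.ofReal (B * L ^ d) +
  FV2 K K0 L γ / ENNReal.ofReal (B * (K * L ^ (d - 1))) +
  ‖Dv K L 0 γ‖ₑ / ENNReal.ofReal (K0 * 1) +
  ENNReal.ofReal (L ^ p) * FB K K0 L γ / ENNReal.ofReal (L ^ d) / ENNReal.ofReal δ +
  ENNReal.ofReal (FBr K L (2 ^ J2) γ) / ENNReal.ofReal c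

theorem loc1_pt {p K K0 L B δ θ Cb b ε : ℝ} {J J2 : ℕ} {γ : Measure (E d × E d)}
    {μ : Measure (E d)} (hL : 0 < L) (hB : 0 < B) (hδ : 0 < δ) (hθ : 0 < θ) (hK : 0 < K)
    (hK0 : 0 < K0) (hCb : 0 < Cb) (hb : 0 < b) (hε : 0 < ε)
    (hBr : ‖Dv K L 0 γ‖ ≤ K0 → FD K L (2 ^ J2) (Dv K L 0 γ) γ ≤ δ / 2 + Cb * FBr K L (2 ^ J2) γ)
    (hlow : ∀ ξ : E d, ‖ξ‖ ≤ K0 → ENNReal.ofReal (b * L ^ d) ≤ G p L ξ μ)
    (hP : ∀ ξ : E d, ‖ξ‖ ≤ K0 → FS p K K0 L γ ≤ ENNReal.ofReal (B * L ^ (d - 1)) →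
        ENNReal.ofReal (L ^ p) * FB K K0 L γ ≤ ENNReal.ofReal (δ * L ^ d) →
        FZ K K0 L J θ γ ≤ ENNReal.ofReal (B * 2 ^ J * θ * L ^ (d - 1)) →
        FV1 K K0 L γ ≤ ENNReal.ofReal (B * L ^ d) →
        FV2 K K0 L γ ≤ ENNReal.ofReal (B * K * L ^ (d - 1)) →
        FD K L (2 ^ J2) ξ γ ≤ δ →
        G p L ξ μ ≤ ENNReal.ofReal (1 + ε / 2) * CQ p L γ + ENNReal.ofReal (ε / 2 * L ^ d)) :
    ENNReal.ofReal b ≤ ENNReal.ofReal (1 + ε) * (CQ p L γ / ENNReal.ofReal (L ^ d)) +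
      ENNReal.ofReal (ε / 2) +
      ENNReal.ofReal b * loc1R p K K0 L B δ θ (δ / (2 * Cb)) J J2 γ := by
  have hLd : 0 < L ^ d := pow_pos hL _
  have hLd1 : 0 < L ^ (d - 1) := pow_pos hL _
  by_cases hR : 1 ≤ loc1R p K K0 L B δ θ (δ / (2 * Cb)) J J2 γ
  · calc ENNReal.ofReal b = ENNReal.ofReal b * 1 := (mul_one _).symm
      _ ≤ ENNReal.ofReal b * loc1R p K K0 L B δ θ (δ / (2 * Cb)) J J2 γ := by gcongr
      _ ≤ _ := le_add_self
  have key : ∀ {X : ℝ≥0∞} {c : ℝ}, 0 < c →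
      X / ENNReal.ofReal c ≤ loc1R p K K0 L B δ θ (δ / (2 * Cb)) J J2 γ →
      X ≤ ENNReal.ofReal c := by
    intro X c hc hX
    by_contra hn
    exact hR ((loc1_one_le hc hn).trans hX)
  have h1 : FS p K K0 L γ ≤ ENNReal.ofReal (B * L ^ (d - 1)) := key (by positivity) (by
    unfold loc1R
    simp only [add_assoc]
    exact le_self_add)
  have h2 : FZ K K0 L J θ γ ≤ ENNReal.ofReal (B * (2 ^ J * θ * L ^ (d - 1))) :=
    key (by positivity) (by
      unfold loc1R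
      simp only [add_assoc]
      exact le_add_left le_self_add)
  have h3 : FV1 K K0 L γ ≤ ENNReal.ofReal (B * L ^ d) := key (by positivity) (by
    unfold loc1R
    simp only [add_assoc]
    exact le_add_left (le_add_left le_self_add))
  have h4 : FV2 K K0 L γ ≤ ENNReal.ofReal (B * (K * L ^ (d - 1))) := key (by positivity) (by
    unfold loc1R
    simp only [add_assoc]
    exact le_add_left (le_add_left (le_add_left le_self_add)))
  have h5 : ‖Dv K L 0 γ‖ₑ ≤ ENNReal.ofReal (K0 * 1) := key (by positivity) (by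
    unfold loc1R
    simp only [add_assoc]
    exact le_add_left (le_add_left (le_add_left (le_add_left le_self_add))))
  have h6 : ENNReal.ofReal (L ^ p) * FB K K0 L γ / ENNReal.ofReal (L ^ d) ≤ ENNReal.ofReal δ :=
    key hδ (by
      unfold loc1R
      exact le_add_right le_add_self)
  have h7 : ENNReal.ofReal (FBr K L (2 ^ J2) γ) ≤ ENNReal.ofReal (δ / (2 * Cb)) :=
    key (by positivity) (by
      unfold loc1R
      exact le_add_self)
  have h5' : ‖Dv K L 0 γ‖ ≤ K0 := by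
    rw [mul_one, ← ofReal_norm, ENNReal.ofReal_le_ofReal_iff hK0.le] at h5
    exact h5
  have h6' : ENNReal.ofReal (L ^ p) * FB K K0 L γ ≤ ENNReal.ofReal (δ * L ^ d) := by
    rw [ENNReal.ofReal_mul hδ.le]
    exact (ENNReal.div_le_iff (by simpa using hLd) ENNReal.ofReal_ne_top).1 h6
  have h7' : FD K L (2 ^ J2) (Dv K L 0 γ) γ ≤ δ := by
    rw [ENNReal.ofReal_le_ofReal_iff (by positivity), le_div_iff₀ (by positivity)] at h7
    have := hBr h5'
    linarith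
  have hG := (hlow _ h5').trans (hP _ h5' h1 h6' (by simpa only [mul_assoc] using h2) h3
    (by simpa only [mul_assoc] using h4) h7')
  refine le_add_right ?_
  have hne : ENNReal.ofReal (L ^ d) ≠ 0 := by simpa using hLd
  rw [ENNReal.ofReal_mul hb.le, ENNReal.ofReal_mul (by positivity)] at hG
  have h8 := ENNReal.div_le_div_right hG (ENNReal.ofReal (L ^ d))
  rw [ENNReal.mul_div_cancel_right hne ENNReal.ofReal_ne_top, ENNReal.add_div,
    ENNReal.mul_div_cancel_right hne ENNReal.ofReal_ne_top, mul_div_assoc] at h8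
  refine h8.trans ?_
  gcongr
  linarith

theorem loc1_meas {p K K0 L B δ θ c : ℝ} {J J2 : ℕ} {γ : Measure (E d × E d)} [SFinite γ]
    (h2 : γ.map Prod.snd = volume) (Λ : ℝ) (hL : 0 < L) (hB : 0 < B) (hδ : 0 < δ) (hθ : 0 < θ)
    (hK : 0 < K) (hK0 : 0 < K0) (hc : 0 < c) :
    Measurable (fun z => loc1R p K K0 L B δ θ c J J2 (shP z γ)) ∧
    avz Λ (fun z => loc1R p K K0 L B δ θ c J J2 (shP z γ)) =
      avz Λ (fun z => FS p K K0 L (shP z γ)) / ENNReal.ofReal (B * L ^ (d - 1)) +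
      avz Λ (fun z => FZ K K0 L J θ (shP z γ)) / ENNReal.ofReal (B * (2 ^ J * θ * L ^ (d - 1))) +
      avz Λ (fun z => FV1 K K0 L (shP z γ)) / ENNReal.ofReal (B * L ^ d) +
      avz Λ (fun z => FV2 K K0 L (shP z γ)) / ENNReal.ofReal (B * (K * L ^ (d - 1))) +
      avz Λ (fun z => ‖Dv K L 0 (shP z γ)‖ₑ) / ENNReal.ofReal (K0 * 1) +
      avz Λ (fun z => ENNReal.ofReal (L ^ p) * FB K K0 L (shP z γ) / ENNReal.ofReal (L ^ d)) /
        ENNReal.ofReal δ +
      avz Λ (fun z => ENNReal.ofReal (FBr K L (2 ^ J2) (shP z γ))) / ENNReal.ofReal c := by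
  have m1 := (measurable_FS_shP p K K0 L γ).div_const (ENNReal.ofReal (B * L ^ (d - 1)))
  have m2 := (measurable_FZ_shP K K0 L J θ γ).div_const
    (ENNReal.ofReal (B * (2 ^ J * θ * L ^ (d - 1))))
  have m3 := (measurable_FV1_shP K K0 L γ).div_const (ENNReal.ofReal (B * L ^ d))
  have m4 := (measurable_FV2_shP K K0 L γ).div_const (ENNReal.ofReal (B * (K * L ^ (d - 1))))
  have m5 : Measurable fun z => ‖Dv K L 0 (shP z γ)‖ₑ / ENNReal.ofReal (K0 * 1) := by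
    simp only [Dv_shP, zero_add]
    exact (measurable_Dv K L h2).enorm.div_const _
  have m6 := (((measurable_FB_shP K K0 L γ).const_mul (ENNReal.ofReal (L ^ p))).div_const
    (ENNReal.ofReal (L ^ d))).div_const (ENNReal.ofReal δ)
  have m7 := (measurable_FBr_shP K L (2 ^ J2) h2).ennreal_ofReal.div_const (ENNReal.ofReal c)
  refine ⟨(((((m1.add m2).add m3).add m4).add m5).add m6).add m7, ?_⟩
  unfold loc1R
  rw [avz_add Λ (((((m1.fun_add m2).fun_add m3).fun_add m4).fun_add m5).fun_add m6),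
    avz_add Λ ((((m1.fun_add m2).fun_add m3).fun_add m4).fun_add m5),
    avz_add Λ (((m1.fun_add m2).fun_add m3).fun_add m4),
    avz_add Λ ((m1.fun_add m2).fun_add m3), avz_add Λ (m1.fun_add m2), avz_add Λ m1,
    loc1_avz_div Λ _ (by positivity), loc1_avz_div Λ _ (by positivity),
    loc1_avz_div Λ _ (by positivity), loc1_avz_div Λ _ (by positivity),
    loc1_avz_div Λ _ (by positivity), loc1_avz_div Λ _ hδ, loc1_avz_div Λ _ hc]

theorem loc1 {p : ℝ} (hp : 1 ≤ p) (hd : 2 ≤ d) {ε b : ℝ} (hε : 0 < ε) (hb : 0 < b) :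
    ∃ (K0 δ : ℝ) (J J1 M n0 : ℕ) (h : (Fin d → Fin (2 ^ J1)) → E d → ℝ),
      0 < K0 ∧ 0 < δ ∧ 0 < M ∧ (∀ r, Continuous (h r) ∧ ∀ x, 0 ≤ h r x ∧ h r x ≤ 1) ∧
      ∀ (n1 : ℕ) (Λ : ℝ) (μ : Measure (E d)) (A : ℕ → Set (Measure (E d))), n0 ≤ n1 → 0 < Λ →
        (∀ i < M, ∀ ν ∈ A i, Good K0 δ (2 ^ (n1 + i * J)) h ν ∧ ∀ ξ : E d, ‖ξ‖ ≤ K0 →
          ENNReal.ofReal (b * (2 ^ (n1 + i * J)) ^ d) ≤ G p (2 ^ (n1 + i * J)) ξ ν) →
        ENNReal.ofReal b * ∑ i ∈ Finset.range M,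
            avz Λ (fun z => (A i).indicator 1 (loc z (2 ^ (n1 + i * J)) μ)) ≤
          M * (ENNReal.ofReal (1 + ε) * (PW p Λ μ / ENNReal.ofReal (Λ ^ d)) +
            ENNReal.ofReal ε) := by
  set e : ℝ := ε / (14 * b) with he
  have he0 : 0 < e := by positivity
  set K0 : ℝ := (1 + b) / e with hK0
  have hK00 : 0 < K0 := by positivity
  obtain ⟨C, hC, hCe⟩ := avz_errors (d := d) hp hd hK00
  set B : ℝ := C * (1 + b) / e with hB
  have hB0 : 0 < B := by positivity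
  obtain ⟨δ, θ, η, J1, J2, h, hδ, hη, hηθ, hη4, hh, hP⟩ :=
    locP (d := d) hp hd (half_pos hε) hK00 hB0
  have hθ : 0 < θ := hη.trans_le hηθ
  obtain ⟨Cb, hCb, hBr⟩ := FD_le_FBr (d := d) hK00.le (half_pos hδ)
  obtain ⟨C5, hC5⟩ := sum_avz_FB (d := d) hp hη
  obtain ⟨M, hM⟩ := exists_nat_ge (max 1 (max (C5 * b / δ / e) ((1 + b) / (δ / (2 * Cb)) / e)))
  have hM1 : (1 : ℝ) ≤ M := (le_max_left _ _).trans hM
  have hM2 : C5 * b / δ ≤ M * e := by
    rw [← div_le_iff₀ he0]; exact ((le_max_left _ _).trans (le_max_right _ _)).trans hM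
  have hM3 : (1 + b) / (δ / (2 * Cb)) ≤ M * e := by
    rw [← div_le_iff₀ he0]; exact ((le_max_right _ _).trans (le_max_right _ _)).trans hM
  have hM0 : 0 < M := by exact_mod_cast (show (0 : ℝ) < M by linarith)
  obtain ⟨n0, hn0⟩ := pow_unbounded_of_one_lt (K0 / η) (show (1 : ℝ) < 2 by norm_num)
  refine ⟨K0, δ, max 1 J2, J1, M, n0, h, hK00, hδ, hM0, hh, ?_⟩
  intro n1 Λ μ A hn1 hΛ hA
  set J : ℕ := max 1 J2 with hJ
  have hΛd : ENNReal.ofReal (Λ ^ d) ≠ 0 := by simpa using pow_pos hΛ d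
  have hMne : (M : ℝ≥0∞) ≠ 0 := by exact_mod_cast hM0.ne'
  suffices H : ∀ γ, PPlan Λ μ γ → ENNReal.ofReal b * ∑ i ∈ Finset.range M,
      avz Λ (fun z => (A i).indicator 1 (loc z (2 ^ (n1 + i * J)) μ)) ≤
      M * (ENNReal.ofReal (1 + ε) * (CQ p Λ γ / ENNReal.ofReal (Λ ^ d)) + ENNReal.ofReal ε) by
    have h1ε : ENNReal.ofReal (1 + ε) ≠ 0 := by simpa using (show 0 < 1 + ε by linarith)
    unfold PW
    simp only [ENNReal.div_eq_inv_mul] at H ⊢
    simp only [ENNReal.mul_iInf_of_ne (ENNReal.inv_ne_zero.2 ENNReal.ofReal_ne_top)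
      (ENNReal.inv_ne_top.2 hΛd), ENNReal.mul_iInf_of_ne h1ε ENNReal.ofReal_ne_top,
      ENNReal.iInf_add, ENNReal.mul_iInf_of_ne hMne (ENNReal.natCast_ne_top M)]
    exact le_iInf₂ H
  intro γ hγ
  set cost := CQ p Λ γ / ENNReal.ofReal (Λ ^ d) with hcost
  by_cases hcb : cost ≤ ENNReal.ofReal b
  swap
  · have h1 : ∑ i ∈ Finset.range M,
        avz Λ (fun z => (A i).indicator 1 (loc z (2 ^ (n1 + i * J)) μ)) ≤ M := by
      calc _ ≤ ∑ i ∈ Finset.range M, (1 : ℝ≥0∞) := by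
            refine Finset.sum_le_sum fun i _ => ?_
            rw [← avz_const (d := d) hΛ 1]
            exact avz_mono Λ fun z => Set.indicator_le_self' (fun _ _ => zero_le_one) _
        _ = M := by simp
    refine (mul_le_mul_right h1 _).trans ?_
    rw [mul_comm]
    refine mul_le_mul_right (le_add_right ?_) _
    calc ENNReal.ofReal b ≤ 1 * cost := by rw [one_mul]; exact (not_le.1 hcb).le
      _ ≤ _ := by
        gcongr
        rw [← ENNReal.ofReal_one]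
        exact ENNReal.ofReal_le_ofReal (by linarith)
  have := hγ.sigmaFinite
  have hL0 : K0 ≤ η * 2 ^ n1 := by
    have h1 : (2 : ℝ) ^ n0 ≤ 2 ^ n1 := pow_le_pow_right₀ (by norm_num) hn1
    rw [div_lt_iff₀ hη] at hn0
    nlinarith
  have hpow : ∀ i : ℕ, (2 : ℝ) ^ (n1 + i * J) = 2 ^ n1 * 2 ^ (i * J) := fun i => pow_add _ _ _
  have hge : ∀ i : ℕ, (1 : ℝ) ≤ 2 ^ (i * J) := fun i => one_le_pow₀ (by norm_num)
  have h2n : (1 : ℝ) ≤ 2 ^ n1 := one_le_pow₀ (by norm_num)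
  simp only [hpow] at hA ⊢
  set Ls : ℕ → ℝ := fun i => 2 ^ n1 * 2 ^ (i * J) with hLs
  have hLs1 : ∀ i, 1 ≤ Ls i := fun i => one_le_mul_of_one_le_of_one_le h2n (hge i)
  have hLs0 : ∀ i, 0 < Ls i := fun i => lt_of_lt_of_le one_pos (hLs1 i)
  have hKs : ∀ i, K0 ≤ η * Ls i := fun i =>
    hL0.trans (mul_le_mul_of_nonneg_left (le_mul_of_one_le_right (by positivity) (hge i)) hη.le)
  have hKs0 : ∀ i, 0 < η * Ls i := fun i => mul_pos hη (hLs0 i)
  have hc0 : 0 < δ / (2 * Cb) := by positivity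
  have step : ∀ i ∈ Finset.range M, ENNReal.ofReal b *
      avz Λ (fun z => (A i).indicator 1 (loc z (Ls i) μ)) ≤
      ENNReal.ofReal (1 + ε) * cost + ENNReal.ofReal (ε / 2) + ENNReal.ofReal b *
        (5 * ENNReal.ofReal e +
        avz Λ (fun z => ENNReal.ofReal (Ls i ^ p) * FB (η * Ls i) K0 (Ls i) (shP z γ) /
          ENNReal.ofReal (Ls i ^ d)) / ENNReal.ofReal δ +
        avz Λ (fun z => ENNReal.ofReal (FBr (η * Ls i) (Ls i) (2 ^ J2) (shP z γ))) /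
          ENNReal.ofReal (δ / (2 * Cb))) := by
    intro i hi
    have hi' := Finset.mem_range.1 hi
    obtain ⟨mR, eR⟩ := loc1_meas (p := p) (J := J1) (J2 := J2) hγ.snd Λ (hLs0 i) hB0 hδ hθ
      (hKs0 i) hK00 hc0
    have hLd : 0 < Ls i ^ d := pow_pos (hLs0 i) _
    have hLd1 : 0 < Ls i ^ (d - 1) := pow_pos (hLs0 i) _
    have mC := (measurable_CQ_shP p (Ls i) γ).div_const (ENNReal.ofReal (Ls i ^ d))
    rw [← avz_const_mul Λ ENNReal.ofReal_ne_top]
    refine (avz_mono Λ (ψ := fun z => ENNReal.ofReal (1 + ε) *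
      (CQ p (Ls i) (shP z γ) / ENNReal.ofReal (Ls i ^ d)) + ENNReal.ofReal (ε / 2) +
      ENNReal.ofReal b * loc1R p (η * Ls i) K0 (Ls i) B δ θ (δ / (2 * Cb)) J1 J2 (shP z γ))
      fun z => ?_).trans ?_
    · by_cases hz : loc z (Ls i) μ ∈ A i
      · rw [Set.indicator_of_mem hz, Pi.one_apply, mul_one]
        obtain ⟨hG, hlow⟩ := hA i hi' _ hz
        have hs := shP_snd z hγ.snd
        refine loc1_pt (μ := sh z μ) (hLs0 i) hB0 hδ hθ (hKs0 i) hK00 hCb hb hε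
          (hBr _ _ _ _ (hLs0 i) (by positivity) hs) (fun ξ hξ => ?_) (fun ξ hξ => ?_)
        · rw [← G_restrict]; exact hlow ξ hξ
        · exact hP _ _ ξ _ _ (hLs1 i) (hKs i) le_rfl (by rw [shP_fst, hγ.fst]) hs hξ
            ((Good_restrict _ _ _ _ _).1 hG)
      · rw [Set.indicator_of_notMem hz, mul_zero]
        exact zero_le
    · rw [avz_add Λ ((mC.const_mul _).fun_add measurable_const),
        avz_add Λ (mC.const_mul _), avz_const_mul Λ ENNReal.ofReal_ne_top,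
        avz_const_mul Λ ENNReal.ofReal_ne_top, avz_const hΛ, loc1_avz_div Λ _ hLd,
        hγ.avz_CQ hΛ (hLs0 i), eR, mul_comm (ENNReal.ofReal (Ls i ^ d)),
        ENNReal.mul_div_cancel_right (by simpa using hLd) ENNReal.ofReal_ne_top]
      have h2K : 2 * (η * Ls i) ≤ Ls i := by have := hLs0 i; nlinarith
      obtain ⟨a1, a2, a3, a4⟩ := hCe Λ (Ls i) (η * Ls i) θ J1 μ γ hΛ hγ (hKs i) h2K hθ.le
      have hCB : C * (1 + b) ≤ e * B := by rw [hB]; field_simp; exact le_rfl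
      have r1 := loc1_ratio hC.le hLd1 hB0 hb.le he0.le a1 hcb hCB
      have r2 := loc1_ratio hC.le (show 0 < 2 ^ J1 * θ * Ls i ^ (d - 1) by positivity) hB0 hb.le
        he0.le (by simpa only [mul_assoc] using a2) hcb hCB
      have r3 := loc1_ratio hC.le hLd hB0 hb.le he0.le a3 hcb hCB
      have r4 := loc1_ratio hC.le (mul_pos (hKs0 i) hLd1) hB0 hb.le
        he0.le (by simpa only [mul_assoc] using a4) hcb hCB
      have r5 := loc1_ratio (C := 1) (w := 1) (B := K0) zero_le_one one_pos hK00 hb.le he0.le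
        (by simpa using hγ.avz_norm_Dv hp hΛ (η * Ls i) (hLs0 i)) hcb
        (by rw [hK0]; field_simp; exact le_rfl)
      gcongr
      calc _ ≤ ENNReal.ofReal e + ENNReal.ofReal e + ENNReal.ofReal e + ENNReal.ofReal e +
            ENNReal.ofReal e := by gcongr
        _ = 5 * ENNReal.ofReal e := by ring
  rw [Finset.mul_sum]
  refine (Finset.sum_le_sum step).trans ?_
  have s1 := hC5 Λ (2 ^ n1) K0 J M μ γ hΛ hγ (by positivity) hK00.le
    (hL0.trans (by nlinarith)) (le_max_left _ _)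
  have s2 := hγ.sum_avz_FBr hp hΛ (K := fun i => η * Ls i)
    (fun i j hij => mul_le_mul_of_nonneg_left (mul_le_mul_of_nonneg_left
      (pow_le_pow_right₀ (by norm_num) (Nat.mul_le_mul_right _ hij)) (by positivity)) hη.le)
    (hKs0 0).le (L0 := 2 ^ n1) (by positivity) (J := J) (J2 := J2) (le_max_right _ _) M
  have t1 : (∑ i ∈ Finset.range M, avz Λ (fun z => ENNReal.ofReal (Ls i ^ p) *
      FB (η * Ls i) K0 (Ls i) (shP z γ) / ENNReal.ofReal (Ls i ^ d))) / ENNReal.ofReal δ ≤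
      M * ENNReal.ofReal e := by
    refine ENNReal.div_le_of_le_mul (s1.trans ((mul_le_mul_right hcb _).trans ?_))
    rw [← ENNReal.ofReal_natCast, ← ENNReal.ofReal_coe_nnreal,
      ← ENNReal.ofReal_mul (by positivity), ← ENNReal.ofReal_mul (by positivity),
      ← ENNReal.ofReal_mul (by positivity)]
    exact ENNReal.ofReal_le_ofReal ((div_le_iff₀ hδ).1 hM2)
  have t2 : (∑ i ∈ Finset.range M, avz Λ (fun z =>
      ENNReal.ofReal (FBr (η * Ls i) (Ls i) (2 ^ J2) (shP z γ)))) /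
      ENNReal.ofReal (δ / (2 * Cb)) ≤ M * ENNReal.ofReal e := by
    refine ENNReal.div_le_of_le_mul (s2.trans ((add_le_add_right hcb _).trans ?_))
    rw [← ENNReal.ofReal_natCast, ← ENNReal.ofReal_one, ← ENNReal.ofReal_add zero_le_one hb.le,
      ← ENNReal.ofReal_mul (by positivity), ← ENNReal.ofReal_mul (by positivity)]
    exact ENNReal.ofReal_le_ofReal ((div_le_iff₀ hc0).1 hM3)
  simp only [Finset.sum_add_distrib, Finset.sum_const, Finset.card_range, nsmul_eq_mul,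
    ← Finset.mul_sum, ENNReal.div_eq_inv_mul (b := ENNReal.ofReal δ),
    ENNReal.div_eq_inv_mul (b := ENNReal.ofReal (δ / (2 * Cb)))] at t1 t2 ⊢
  refine (add_le_add_right (mul_le_mul_right (add_le_add (add_le_add_right t1 _) t2) _) _).trans
    (le_of_eq ?_)
  have e7 : ENNReal.ofReal ε = ENNReal.ofReal (ε / 2) + ENNReal.ofReal b * (7 * ENNReal.ofReal e) := by
    rw [← ENNReal.ofReal_ofNat 7, ← ENNReal.ofReal_mul (by norm_num),
      ← ENNReal.ofReal_mul hb.le, ← ENNReal.ofReal_add (by positivity) (by positivity)]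
    congr 1
    rw [he]; field_simp; ring
  rw [e7]
  ring

end Pool.Agent.Lib.MP_fe8b6f_pr
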