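import Pool.Agent.Lib.MP_fe8b6f_pr.ConcB
import Pool.Agent.Lib.MP_fe8b6f_pr.Loc1

/-! Abstract lower bound for `p ≥ 1`. -/

open MeasureTheory ProbabilityTheory
open scoped NNReal ENNReal

noncomputable section

namespace Pool.Agent.Lib.MP_fe8b6f_pr

variable {d : ℕ}

/-- a lower bound on a finite net of shifts gives a lower bound for all shifts -/
theorem main1_net {p : ℝ} (hp : 1 ≤ p) {b b' : ℝ} (hb : 0 < b) (hbb : b < b') (K0 : ℝ) :
    ∃ t : Finset (E d), ∀ (L : ℝ) (ν : Measure (E d)), 0 < L →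
      ν (cube 0 L) ≤ ENNReal.ofReal (2 * L ^ d) →
      (∀ ξ' ∈ t, ENNReal.ofReal (b' * L ^ d) ≤ Gf p L ξ' ν) →
      ∀ ξ : E d, ‖ξ‖ ≤ K0 → ENNReal.ofReal (b * L ^ d) ≤ G p L ξ ν := by
  have hκ : 0 < (b' - b) / 2 := by linarith
  have he : 0 < (b' - b) / (2 * b) := div_pos (by linarith) (by linarith)
  obtain ⟨C, hC⟩ := G_net (d := d) (zero_lt_one.trans_le hp) he
  have hC0 : (0 : ℝ) ≤ C := C.2
  have hη : 0 < min 1 ((b' - b) / 2 / (2 * C + 1)) := lt_min one_pos (by positivity)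
  obtain ⟨t, -, ht, hcov⟩ := (isCompact_closedBall (0 : E d) K0).finite_cover_balls hη
  refine ⟨ht.toFinset, fun L ν hL hν hG ξ hξ => ?_⟩
  obtain ⟨ξ', hξ', hd⟩ := Set.mem_iUnion₂.1 (hcov (mem_closedBall_zero_iff.2 hξ))
  have hfin : ν (cube 0 L) ≠ ⊤ := ne_top_of_le_ne_top ENNReal.ofReal_ne_top hν
  have h1 := hG ξ' (ht.mem_toFinset.2 hξ')
  rw [Gf, if_neg hfin] at h1
  have hLd : 0 < L ^ d := pow_pos hL d
  have h2 : ‖ξ - ξ'‖ < min 1 ((b' - b) / 2 / (2 * C + 1)) := mem_ball_iff_norm.1 hd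
  have h3 : ‖ξ - ξ'‖ₑ ^ p ≤ ENNReal.ofReal ((b' - b) / 2 / (2 * C + 1)) := by
    have h4 : ‖ξ - ξ'‖ₑ ≤ 1 := by
      rw [← ofReal_norm]
      exact ENNReal.ofReal_le_one.2 (h2.le.trans (min_le_left _ _))
    refine (ENNReal.rpow_le_self_of_le_one h4 hp).trans ?_
    rw [← ofReal_norm]
    exact ENNReal.ofReal_le_ofReal (h2.le.trans (min_le_right _ _))
  have h5 : (C : ℝ≥0∞) * (‖ξ - ξ'‖ₑ ^ p * ν (cube 0 L)) ≤
      ENNReal.ofReal ((b' - b) / 2 * L ^ d) := by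
    refine (mul_le_mul_right (mul_le_mul' h3 hν) _).trans ?_
    rw [← ENNReal.ofReal_coe_nnreal, ← ENNReal.ofReal_mul (by positivity),
      ← ENNReal.ofReal_mul hC0]
    refine ENNReal.ofReal_le_ofReal ?_
    have h6 : (C : ℝ) * ((b' - b) / 2 / (2 * C + 1) * (2 * L ^ d)) =
        (2 * C / (2 * C + 1)) * ((b' - b) / 2 * L ^ d) := by ring
    rw [h6]
    exact mul_le_of_le_one_left (by positivity)
      ((div_le_one (by positivity)).2 (by linarith))
  have h7 := (h1.trans (hC L ξ ξ' ν hL hfin)).trans (add_le_add_right h5 _)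
  have h8 : b' * L ^ d = (1 + (b' - b) / (2 * b)) * (b * L ^ d) + (b' - b) / 2 * L ^ d := by
    field_simp
    ring
  rw [h8, ENNReal.ofReal_add (by positivity) (by positivity),
    ENNReal.ofReal_mul (by positivity), ENNReal.add_le_add_iff_right ENNReal.ofReal_ne_top,
    ENNReal.mul_le_mul_iff_right (ENNReal.ofReal_pos.2 (by positivity)).ne'
      ENNReal.ofReal_ne_top] at h7
  exact h7

/-- measurable good events of probability close to one -/
theorem main1_good {P : ℝ → Measure (Measure (E d))} (hP : Fam P) {p : ℝ} (hp : 1 ≤ p)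
    (hd : 5 ≤ d) {b b' : ℝ} (hb : 0 < b) (hbb : b < b') (hb' : ENNReal.ofReal b' < cInf p P)
    {ι : Type} [Fintype ι] {K0 δ : ℝ} (hK0 : 0 < K0) (hδ : 0 < δ) {h : ι → E d → ℝ}
    (hh : ∀ r, Continuous (h r) ∧ ∀ x, 0 ≤ h r x ∧ h r x ≤ 1) {ε : ℝ≥0∞} (hε : 0 < ε) :
    ∃ (A : ℕ → Set (Measure (E d))) (N : ℕ), (∀ n, MeasurableSet (A n)) ∧
      (∀ n, ∀ ν ∈ A n, Good K0 δ (2 ^ n) h ν ∧ ∀ ξ : E d, ‖ξ‖ ≤ K0 →
        ENNReal.ofReal (b * (2 ^ n) ^ d) ≤ G p (2 ^ n) ξ ν) ∧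
      ∀ n, N ≤ n → P (2 ^ n) (A n)ᶜ ≤ ε := by
  obtain ⟨t, ht⟩ := main1_net (d := d) hp hb hbb K0
  have hL : ∀ n : ℕ, (0 : ℝ) < 2 ^ n := fun n => by positivity
  let B : ℕ → Set (Measure (E d)) := fun n =>
    {μ | ¬ (Good K0 δ (2 ^ n) h μ ∧ μ (cube 0 (2 ^ n)) ≤ ENNReal.ofReal (2 * (2 ^ n) ^ d))}
  let D : E d → ℕ → Set (Measure (E d)) := fun ξ n =>
    {μ | Gf p (2 ^ n) ξ μ < ENNReal.ofReal (b' * (2 ^ n) ^ d)}
  have hB : Filter.Tendsto (fun n : ℕ => P (2 ^ n) (B n)) Filter.atTop (nhds 0) := by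
    refine ENNReal.tendsto_atTop_zero.2 fun e he => ?_
    obtain ⟨L0, hL0⟩ := hP.good_prob hd hK0 hδ hh he
    obtain ⟨N, hN⟩ := pow_unbounded_of_one_lt L0 (one_lt_two (α := ℝ))
    exact ⟨N, fun n hn => hL0 _ (hN.le.trans (pow_le_pow_right₀ one_le_two hn))⟩
  have hD : ∀ ξ, Filter.Tendsto (fun n : ℕ => P (2 ^ n) (D ξ n)) Filter.atTop (nhds 0) :=
    fun ξ => ENNReal.tendsto_atTop_zero.2 fun e he => hP.conc hp hd ξ hb' he
  have hsum := hB.add (tendsto_finsetSum t fun ξ _ => hD ξ)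
  rw [Finset.sum_const_zero, add_zero] at hsum
  obtain ⟨N, hN⟩ := ENNReal.tendsto_atTop_zero.1 hsum ε hε
  refine ⟨fun n => (B n ∪ ⋃ ξ ∈ t, D ξ n)ᶜ, N, fun n => ?_, fun n ν hν => ?_, fun n hn => ?_⟩
  · refine (MeasurableSet.union ?_ (t.measurableSet_biUnion fun ξ _ => ?_)).compl
    · exact ((measurableSet_Good K0 δ _ hh).inter (measurableSet_le
        (Measure.measurable_coe (measurableSet_cube 0 _)) measurable_const)).compl
    · exact measurableSet_lt (measurable_Gf (zero_lt_one.trans_le hp) (hL n) ξ) measurable_const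
  · have h1 : Good K0 δ (2 ^ n) h ν ∧ ν (cube 0 (2 ^ n)) ≤ ENNReal.ofReal (2 * (2 ^ n) ^ d) :=
      not_not.1 fun e => hν (Or.inl e)
    exact ⟨h1.1, ht _ ν (hL n) h1.2 fun ξ hξ =>
      not_lt.1 fun e => hν (Or.inr (Set.mem_iUnion₂.2 ⟨ξ, hξ, e⟩))⟩
  · rw [compl_compl]
    exact ((measure_union_le _ _).trans
      (add_le_add_right (measure_biUnion_finset_le t _) _)).trans (hN n hn)

/-- exchange of the spatial average and the expectation -/
theorem main1_swap {X : Type} [MeasurableSpace X] (τ : Measure X) [SFinite τ] {Λ : ℝ}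
    (hΛ : 0 < Λ) {f : E d × X → ℝ≥0∞} (hf : Measurable f) :
    avz Λ (fun z => ∫⁻ q, f (z, q) ∂τ) = ∫⁻ q, avz Λ (fun z => f (z, q)) ∂τ := by
  have h0 : ENNReal.ofReal (Λ ^ d) ≠ 0 := (ENNReal.ofReal_pos.2 (pow_pos hΛ d)).ne'
  unfold avz
  simp only [div_eq_mul_inv]
  rw [lintegral_mul_const' _ _ (ENNReal.inv_ne_top.2 h0),
    lintegral_lintegral_swap (f := fun z q => f (z, q)) hf.aemeasurable]

theorem main1_key {X : Type} [MeasurableSpace X] {P : ℝ → Measure (Measure (E d))}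
    {T : ℝ → Measure X} {m : ℝ → X → Measure (E d)} (hP : Fam P) (hT : TFam P T m) {p : ℝ}
    (hp : 1 ≤ p) (hd : 5 ≤ d) {b b' ε : ℝ} (hb : 0 < b) (hbb : b < b')
    (hb' : ENNReal.ofReal b' < cInf p P) (hε : 0 < ε) :
    ∀ᶠ Λ in Filter.atTop, ENNReal.ofReal b ≤
      ENNReal.ofReal (1 + ε) * tL p T m Λ + ENNReal.ofReal ε + ENNReal.ofReal ε := by
  obtain ⟨K0, δ, J, J1, M, n0, h, hK0, hδ, hM, hh, H⟩ :=
    loc1 (d := d) hp (by omega) hε hb
  have he : 0 < ENNReal.ofReal (ε / (2 * b)) := ENNReal.ofReal_pos.2 (by positivity)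
  obtain ⟨A, N, hA, hA1, hA2⟩ := main1_good hP hp hd hb hbb hb' hK0 hδ hh he
  have hL : ∀ n : ℕ, (0 : ℝ) < 2 ^ n := fun n => by positivity
  have hev : ∀ᶠ Λ in Filter.atTop, ∀ i ∈ Finset.range M, ∀ (z : E d)
      (F : Measure (E d) → ℝ≥0∞), Measurable F → (∀ μ, F μ ≤ 1) →
      ∫⁻ μ, F μ ∂(P (2 ^ (max n0 N + i * J))) ≤
        ∫⁻ q, F (loc z (2 ^ (max n0 N + i * J)) (m Λ q)) ∂(T Λ) +
          ENNReal.ofReal (ε / (2 * b)) := by
    refine (Filter.eventually_all_finset _).2 fun i _ => ?_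
    obtain ⟨Λ0, hΛ0⟩ := hT.lim _ (hL (max n0 N + i * J)) _ he
    exact (Filter.eventually_ge_atTop Λ0).mono hΛ0
  filter_upwards [hev, Filter.eventually_gt_atTop 0] with Λ hlim hΛ
  have := hT.prob Λ hΛ
  have h0 : ENNReal.ofReal (Λ ^ d) ≠ 0 := (ENNReal.ofReal_pos.2 (pow_pos hΛ d)).ne'
  have hmeas : ∀ i : ℕ, Measurable fun zq : E d × X => (A (max n0 N + i * J)).indicator
      (1 : Measure (E d) → ℝ≥0∞) (loc zq.1 (2 ^ (max n0 N + i * J)) (m Λ zq.2)) := fun i =>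
    (measurable_one.indicator (hA _)).comp (hT.meas Λ _ hΛ)
  have h1 : ∀ i ∈ Finset.range M, (1 : ℝ≥0∞) ≤
      ∫⁻ q, avz Λ (fun z => (A (max n0 N + i * J)).indicator 1
        (loc z (2 ^ (max n0 N + i * J)) (m Λ q))) ∂(T Λ) + ENNReal.ofReal (ε / b) := by
    intro i hi
    have := hP.prob _ (hL (max n0 N + i * J))
    rw [← main1_swap (T Λ) hΛ (hmeas i), ← avz_const (d := d) hΛ (ENNReal.ofReal (ε / b)),
      add_comm, ← avz_add Λ measurable_const]
    refine (avz_const (d := d) hΛ 1).symm.le.trans (avz_mono Λ fun z => ?_)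
    have h2 := hlim i hi z _ (measurable_one.indicator (hA (max n0 N + i * J)))
      (fun μ => Set.indicator_le_self _ _ μ)
    rw [lintegral_indicator_one (hA _)] at h2
    have h3 : ε / b = ε / (2 * b) + ε / (2 * b) := by
      field_simp
      ring
    rw [← prob_add_prob_compl (μ := P (2 ^ (max n0 N + i * J))) (hA (max n0 N + i * J)), h3,
      ENNReal.ofReal_add (by positivity) (by positivity), add_comm _ (∫⁻ q, _ ∂(T Λ)),
      ← add_assoc]
    exact add_le_add h2 (hA2 _ ((le_max_right _ _).trans (Nat.le_add_right _ _)))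
  have hmeas' : ∀ i : ℕ, Measurable fun q : X => avz Λ (fun z => (A (max n0 N + i * J)).indicator
      1 (loc z (2 ^ (max n0 N + i * J)) (m Λ q))) := fun i =>
    (hmeas i).lintegral_prod_left'.div_const _
  have h4 := mul_le_mul_right (Finset.sum_le_sum h1) (ENNReal.ofReal b)
  rw [Finset.sum_add_distrib, Finset.sum_const, Finset.sum_const, Finset.card_range,
    nsmul_eq_mul, nsmul_eq_mul, mul_one, mul_add, ← lintegral_finsetSum _ fun i _ => hmeas' i,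
    ← lintegral_const_mul' _ _ ENNReal.ofReal_ne_top] at h4
  have h5 := lintegral_mono (μ := T Λ) fun q => H (max n0 N) Λ (m Λ q)
    (fun i => A (max n0 N + i * J)) (le_max_left _ _) hΛ fun i _ ν hν => hA1 _ ν hν
  rw [lintegral_const_mul' _ _ (ENNReal.natCast_ne_top M),
    lintegral_add_right _ measurable_const, lintegral_const, measure_univ, mul_one,
    lintegral_const_mul' (ENNReal.ofReal (1 + ε)) _ ENNReal.ofReal_ne_top] at h5
  have h8 : ∫⁻ q, PW p Λ (m Λ q) / ENNReal.ofReal (Λ ^ d) ∂(T Λ) = tL p T m Λ :=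
    lintegral_mul_const' _ _ (ENNReal.inv_ne_top.2 h0)
  rw [h8] at h5
  have h6 := h4.trans (add_le_add_left h5 _)
  have h7 : ENNReal.ofReal b * (M * ENNReal.ofReal (ε / b)) = M * ENNReal.ofReal ε := by
    rw [mul_left_comm, ← ENNReal.ofReal_mul hb.le, mul_div_cancel₀ _ hb.ne']
  rw [h7, ← mul_add, mul_comm, ENNReal.mul_le_mul_iff_right (Nat.cast_ne_zero.2 hM.ne')
    (ENNReal.natCast_ne_top M)] at h6
  exact h6

theorem main1 {X : Type} [MeasurableSpace X] {P : ℝ → Measure (Measure (E d))}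
    {T : ℝ → Measure X} {m : ℝ → X → Measure (E d)} (hP : Fam P) (hT : TFam P T m) {p : ℝ}
    (hp : 1 ≤ p) (hd : 5 ≤ d) :
    cInf p P ≤ Filter.liminf (tL p T m) Filter.atTop := by
  refine le_of_forall_lt_imp_le_of_dense fun c hc => ?_
  obtain ⟨b, -, hcb, hb⟩ := ENNReal.lt_iff_exists_real_btwn.1 hc
  obtain ⟨b', -, hbb, hb'⟩ := ENNReal.lt_iff_exists_real_btwn.1 hb
  have hb0 : 0 < b := ENNReal.ofReal_pos.1 (zero_le.trans_lt hcb)
  have hc' : c ≠ ⊤ := hc.ne_top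
  have hc0 : 0 ≤ c.toReal := ENNReal.toReal_nonneg
  have hcb' : c.toReal < b := (ENNReal.lt_ofReal_iff_toReal_lt hc').1 hcb
  have hε : 0 < (b - c.toReal) / (c.toReal + 2) := div_pos (by linarith) (by linarith)
  refine Filter.le_liminf_of_le (by isBoundedDefault) ?_
  filter_upwards [main1_key hP hT hp hd hb0 ((ENNReal.ofReal_lt_ofReal_iff'.1 hbb).1) hb' hε]
    with Λ hΛ
  have h1 : b = (1 + (b - c.toReal) / (c.toReal + 2)) * c.toReal +
      (b - c.toReal) / (c.toReal + 2) + (b - c.toReal) / (c.toReal + 2) := by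
    field_simp
    ring
  have h2 : ENNReal.ofReal b = ENNReal.ofReal (1 + (b - c.toReal) / (c.toReal + 2)) * c +
      ENNReal.ofReal ((b - c.toReal) / (c.toReal + 2)) +
      ENNReal.ofReal ((b - c.toReal) / (c.toReal + 2)) := by
    conv_lhs => rw [h1]
    rw [ENNReal.ofReal_add (by positivity) hε.le, ENNReal.ofReal_add (by positivity) hε.le,
      ENNReal.ofReal_mul (by positivity), ENNReal.ofReal_toReal hc']
  rw [h2, ENNReal.add_le_add_iff_right ENNReal.ofReal_ne_top,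
    ENNReal.add_le_add_iff_right ENNReal.ofReal_ne_top,
    ENNReal.mul_le_mul_iff_right (ENNReal.ofReal_pos.2 (by positivity)).ne'
      ENNReal.ofReal_ne_top] at hΛ
  exact hΛ

end Pool.Agent.Lib.MP_fe8b6f_pr
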