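import Pool.Agent.Lib.MP_fe8b6f_pr.Main0
import Pool.Agent.Lib.MP_fe8b6f_pr.Main1
import Pool.Agent.Lib.MP_fe8b6f_pr.TorB

/-! Scaling and the final lower bound. Part 1. -/

open MeasureTheory ProbabilityTheory
open scoped NNReal ENNReal

noncomputable section

namespace Pool.Agent.Lib.MP_fe8b6f_pr

variable {d : ℕ}

theorem finA_preimage_cube {L : ℝ} (hL : 0 < L) :
    (fun y : E d => L • y) ⁻¹' cube 0 L = cube 0 1 := by
  ext y
  simp only [cube, Set.mem_preimage, Set.mem_setOf_eq, PiLp.smul_apply, smul_eq_mul,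
    PiLp.zero_apply, zero_add]
  refine forall_congr' fun i => ?_
  constructor
  · rintro ⟨h1, h2⟩
    refine ⟨by by_contra h; push_neg at h; nlinarith, by by_contra h; push_neg at h; nlinarith⟩
  · rintro ⟨h1, h2⟩
    exact ⟨by positivity, by nlinarith⟩

theorem finA_restrict_sum {n : ℕ} (μ : Fin n → Measure (E d)) {A : Set (E d)} :
    (∑ i, μ i).restrict A = ∑ i, (μ i).restrict A := by
  ext s hs
  simp only [Measure.restrict_apply hs, Measure.finset_sum_apply]

theorem finA_pathwise {p L : ℝ} (hp : 0 < p) (hL : 0 < L) {n : ℕ} (μ : Fin n → Measure (E d))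
    {B : Set (E d)} (hB : cube (0 : E d) 1 ⊆ B) (hfin : ∀ i, μ i (cube 0 1) ≠ ⊤) {r : ℝ≥0∞}
    (hr0 : r ≠ 0) (hr : r ≠ ⊤) :
    Gf p L 0 (∑ i, loc 0 L (r • (μ i).map fun y => L • y)) =
      r * ENNReal.ofReal (L ^ p) * WDom p (cube 0 1) (∑ i, (μ i).restrict B) := by
  have hm : Measurable fun y : E d => L • y := (continuous_const_smul L).measurable
  have h1 : (∑ i, loc 0 L (r • (μ i).map fun y : E d => L • y)) =
      (r • (∑ i, μ i).map fun y : E d => L • y).restrict (cube 0 L) := by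
    ext s hs
    simp only [loc, sh_zero_left, Measure.finset_sum_apply, Measure.restrict_apply hs,
      Measure.smul_apply, smul_eq_mul,
      Measure.map_apply hm (hs.inter (measurableSet_cube 0 L)), Finset.mul_sum]
  have h2 : (r • (∑ i, μ i).map fun y : E d => L • y) (cube 0 L) ≠ ⊤ := by
    rw [Measure.smul_apply, Measure.map_apply hm (measurableSet_cube 0 L),
      finA_preimage_cube hL, Measure.finset_sum_apply, smul_eq_mul]
    exact ENNReal.mul_ne_top hr (ENNReal.sum_ne_top.2 fun i _ => hfin i)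
  have h3 : (∑ i, (μ i).restrict B).restrict (cube 0 1) = (∑ i, μ i).restrict (cube 0 1) := by
    rw [finA_restrict_sum, finA_restrict_sum]
    refine Finset.sum_congr rfl fun i _ => ?_
    rw [Measure.restrict_restrict (measurableSet_cube 0 1), Set.inter_eq_left.2 hB]
  rw [h1, Gf_restrict, Gf, if_neg h2, G_scale hp.le hL hr0 hr, WDom_cube,
    ← G_restrict p 1 0 (∑ i, (μ i).restrict B), h3, G_restrict]

theorem finA_ae_fin {W : Measure (Path d)} (hW : IsWiener W) (hd : 3 ≤ d) (R : ℝ) :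
    ∀ᵐ q ∂((sphereUnif d R).prod W), occ q.1 q.2 (Set.Ici 0) (cube 0 1) ≠ ⊤ := by
  haveI := hW.isProbabilityMeasure
  haveI := isProbabilityMeasure_sphereUnif (d := d) R
  have hmeas : Measurable fun q : E d × Path d => occ q.1 q.2 (Set.Ici 0) (cube 0 1) :=
    (Measure.measurable_coe (measurableSet_cube 0 1)).comp measurable_occ
  have hle : ∫⁻ q, occ q.1 q.2 (Set.Ici 0) (cube 0 1) ∂((sphereUnif d R).prod W) ≤
      ENNReal.ofReal (3 * 1 ^ 2) := by
    rw [lintegral_prod _ hmeas.aemeasurable]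
    calc _ ≤ ∫⁻ _x, ENNReal.ofReal (3 * 1 ^ 2) ∂(sphereUnif d R) :=
          lintegral_mono fun x => hW.occ_total_le hd x one_pos (measurableSet_cube 0 1)
            (volume_cube 0 zero_le_one).le
      _ = _ := by simp
  filter_upwards [ae_lt_top hmeas (ne_top_of_le_ne_top ENNReal.ofReal_ne_top hle)] with q hq
  exact hq.ne

theorem IsWiener.interCost_eq {W : Measure (Path d)} (hW : IsWiener W) (hd : 3 ≤ d) {p R L : ℝ}
    (hp : 0 < p) (hR : √d ≤ R) (hL : 0 < L) :
    interCost p W R (cube 0 1) (L ^ ((d : ℝ) - 2)) /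
        ENNReal.ofReal ((L ^ ((d : ℝ) - 2)) ^ (1 - p / ((d : ℝ) - 2))) = cL p (PL W) 0 L := by
  haveI := hW.isProbabilityMeasure
  haveI := isProbabilityMeasure_sphereUnif (d := d) R
  have hd' : (3 : ℝ) ≤ d := by exact_mod_cast hd
  have hR0 : 0 < R := lt_of_lt_of_le (Real.sqrt_pos.2 (by linarith)) hR
  set c : ℝ≥0 := ⟨L, hL.le⟩ with hc
  have hcL : (c : ℝ) = L := rfl
  have hc0 : c ≠ 0 := by
    intro h
    have : (c : ℝ) = 0 := by rw [h]; rfl
    linarith
  set r : ℝ≥0∞ := (c : ℝ≥0∞) ^ 2 with hr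
  have hr0 : r ≠ 0 := pow_ne_zero _ (by exact_mod_cast hc0)
  have hrt : r ≠ ⊤ := ENNReal.pow_ne_top ENNReal.coe_ne_top
  have hrL : r = ENNReal.ofReal (L ^ 2) := by
    rw [hr, ENNReal.ofReal_pow hL.le, ← hcL, ENNReal.ofReal_coe_nnreal]
  set lam : Measure (E d × Path d) := (sphereUnif d R).prod W with hlam
  set T : E d × Path d → E d × Path d := Prod.map (fun x => L • x) (scal c) with hT
  have hsm : Measurable fun y : E d => L • y := (continuous_const_smul L).measurable
  have hTm : Measurable T := hsm.prodMap (continuous_scal c).measurable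
  have hlamT : lam.map T = (sphereUnif d (L * R)).prod W := by
    rw [hlam, hT, ← Measure.map_prod_map _ _ hsm (continuous_scal c).measurable,
      sphereUnif_map_smul, hW.map_scal hc0]
  set Y0 : E d × Path d → Measure (E d) := fun q => loc 0 L (occ q.1 q.2 (Set.Ici 0)) with hY0
  have hY0m : Measurable Y0 := (measurable_loc 0 L).comp measurable_occ
  have hpre : (fun s : ℝ => s / (c : ℝ) ^ 2) ⁻¹' Set.Ici 0 = Set.Ici 0 := by
    ext s
    have : (0 : ℝ) < (c : ℝ) ^ 2 := by rw [hcL]; positivity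
    simp only [Set.mem_preimage, Set.mem_Ici]
    rw [le_div_iff₀ this, zero_mul]
  have hYT : ∀ q : E d × Path d,
      (Y0 ∘ T) q = loc 0 L (r • (occ q.1 q.2 (Set.Ici 0)).map fun y => L • y) := by
    intro q
    have := occ_scal hc0 q.1 q.2 (measurableSet_Ici (a := (0 : ℝ)))
    rw [hpre] at this
    simp only [hY0, hT, Function.comp, Prod.map]
    rw [← hcL, this]
  have hB : cube (0 : E d) 1 ⊆ Metric.closedBall 0 R :=
    (cube_subset_closedBall zero_le_one).trans
      (Metric.closedBall_subset_closedBall (by rwa [mul_one]))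
  have hBL : cube (0 : E d) L ⊆ Metric.closedBall 0 (L * R) :=
    (cube_subset_closedBall hL.le).trans
      (Metric.closedBall_subset_closedBall (by nlinarith))
  set K : ℝ≥0∞ := r * ENNReal.ofReal (L ^ p) with hK
  have hK0 : K ≠ 0 := mul_ne_zero hr0 (by simpa using Real.rpow_pos_of_pos hL p)
  have hKt : K ≠ ⊤ := ENNReal.mul_ne_top hrt ENNReal.ofReal_ne_top
  have hinner : ∀ n : ℕ, ∫⁻ X : Fin n → E d × Path d, Gf p L 0 (∑ i, (Y0 ∘ T) (X i))
        ∂(Measure.pi fun _ => lam) =
      K * ∫⁻ X : Fin n → E d × Path d,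
        WDom p (cube 0 1)
          (∑ i, (occ (X i).1 (X i).2 (Set.Ici 0)).restrict (Metric.closedBall 0 R))
        ∂(Measure.pi fun _ => lam) := by
    intro n
    rw [← lintegral_const_mul' _ _ hKt]
    refine lintegral_congr_ae ?_
    have hae : ∀ᵐ X : Fin n → E d × Path d ∂(Measure.pi fun _ => lam),
        ∀ i, occ (X i).1 (X i).2 (Set.Ici 0) (cube 0 1) ≠ ⊤ :=
      ae_all_iff.2 fun i =>
        (measurePreserving_eval (fun _ : Fin n => lam) i).quasiMeasurePreserving.ae
          (finA_ae_fin hW hd R)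
    filter_upwards [hae] with X hX
    simp only [hYT]
    exact finA_pathwise hp hL (fun i => occ (X i).1 (X i).2 (Set.Ici 0)) hB hX hr0 hrt
  have hmain : K * interCost p W R (cube 0 1) (L ^ ((d : ℝ) - 2)) =
      ∫⁻ μ, Gf p L 0 μ ∂(PL W L) := by
    rw [interCost, ← lintegral_const_mul' _ _ hKt]
    simp only [← hlam, ← hinner]
    rw [lintegral_poisson_pi lam (hY0m.comp hTm) _ (measurable_Gf hp hL 0),
      ← hW.CP_nuI_loc hd (mul_pos hL hR0) hL hBL, nuI, capBall_mul hL hR0, ← hlamT,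
      Measure.map_map hY0m hTm]
    rfl
  rw [cL, ← hmain]
  have hpow : (L ^ ((d : ℝ) - 2)) ^ (1 - p / ((d : ℝ) - 2)) = L ^ ((d : ℝ) - 2 - p) := by
    rw [← Real.rpow_mul hL.le]
    congr 1
    have : (d : ℝ) - 2 ≠ 0 := by linarith
    field_simp
  have hLd : ENNReal.ofReal (L ^ d) = K * ENNReal.ofReal (L ^ ((d : ℝ) - 2 - p)) := by
    rw [hK, hrL, ← ENNReal.ofReal_mul (by positivity), ← ENNReal.ofReal_mul (by positivity)]
    congr 1
    rw [← Real.rpow_natCast L d, ← Real.rpow_natCast L 2, ← Real.rpow_add hL, ← Real.rpow_add hL]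
    congr 1
    push_cast
    ring
  rw [hpow, hLd, ENNReal.mul_div_mul_left _ _ hK0 hKt]

end Pool.Agent.Lib.MP_fe8b6f_pr
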