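import Pool.Agent.Lib.MP_fe8b6f_pr.FinA

/-! Scaling and the final lower bound. Part 2. -/

open MeasureTheory ProbabilityTheory
open scoped NNReal ENNReal

noncomputable section

namespace Pool.Agent.Lib.MP_fe8b6f_pr

variable {d : ℕ}

theorem final_preimage_cube {Λ : ℝ} (hΛ : 0 < Λ) :
    (fun x : E d => Λ • x) ⁻¹' cube 0 Λ = cube 0 1 := by
  ext x
  simp only [cube, Set.mem_preimage, Set.mem_ofPred_eq, PiLp.smul_apply, smul_eq_mul,
    PiLp.zero_apply, zero_add]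
  refine forall_congr' fun i => ?_
  constructor
  · rintro ⟨h1, h2⟩
    exact ⟨nonneg_of_mul_nonneg_right h1 hΛ, by nlinarith⟩
  · rintro ⟨h1, h2⟩
    exact ⟨mul_nonneg hΛ.le h1, by nlinarith⟩

theorem final_volume_cube {Λ : ℝ} (hΛ : 0 < Λ) :
    (volume : Measure (E d)).restrict (cube 0 Λ) =
      ENNReal.ofReal (Λ ^ d) • ((volume : Measure (E d)).restrict (cube 0 1)).map
        fun x => Λ • x := by
  have hm : Measurable fun x : E d => Λ • x := measurable_const_smul Λ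
  rw [← final_preimage_cube hΛ, ← Measure.restrict_map hm (measurableSet_cube 0 Λ),
    Measure.map_addHaar_smul volume hΛ.ne', Measure.restrict_smul, smul_smul,
    ← ENNReal.ofReal_mul (by positivity), finrank_euclideanSpace_fin,
    abs_of_pos (by positivity), mul_inv_cancel₀ (by positivity), ENNReal.ofReal_one, one_smul]

theorem final_preimage_Ico {Λ T : ℝ} (hΛ : 0 < Λ) :
    (fun s : ℝ => s / Λ ^ 2) ⁻¹' Set.Ico 0 T = Set.Ico 0 (Λ ^ 2 * T) := by
  ext s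
  have h2 : 0 < Λ ^ 2 := by positivity
  simp only [Set.mem_preimage, Set.mem_Ico]
  rw [div_lt_iff₀ h2, le_div_iff₀ h2, zero_mul, mul_comm]

theorem IsWiener.tL_le_torusCost {W : Measure (Path d)} (hW : IsWiener W) (hd : 3 ≤ d) {p T : ℝ}
    (hp : 0 < p) (hT : 0 < T) :
    tL p (TP W) (fun Λ => tm Λ (Set.Ico 0 (Λ ^ d))) (T ^ (1 / ((d : ℝ) - 2))) ≤
      torusCost p W T / ENNReal.ofReal (T ^ (1 - p / ((d : ℝ) - 2))) := by
  have := hW.isProbabilityMeasure
  have hd3 : (3 : ℝ) ≤ d := by exact_mod_cast hd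
  have hd2 : (0 : ℝ) < (d : ℝ) - 2 := by linarith
  set Λ : ℝ := T ^ (1 / ((d : ℝ) - 2)) with hΛdef
  have hΛ : 0 < Λ := Real.rpow_pos_of_pos hT _
  have hTΛ : Λ ^ ((d : ℝ) - 2) = T := by
    rw [hΛdef, ← Real.rpow_mul hT.le, one_div, inv_mul_cancel₀ hd2.ne', Real.rpow_one]
  have hΛd : Λ ^ d = Λ ^ 2 * T := by
    rw [← hTΛ, ← Real.rpow_natCast Λ d, ← Real.rpow_natCast Λ 2, ← Real.rpow_add hΛ]
    congr 1
    push_cast
    ring
  have hexp : T ^ (1 - p / ((d : ℝ) - 2)) * (Λ ^ 2 * Λ ^ p) = Λ ^ d := by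
    have h1 : T ^ (1 - p / ((d : ℝ) - 2)) = Λ ^ ((d : ℝ) - 2 - p) := by
      conv_lhs => rw [← hTΛ]
      rw [← Real.rpow_mul hΛ.le]
      congr 1
      field_simp
    rw [h1, ← Real.rpow_natCast Λ d, ← Real.rpow_natCast Λ 2, ← Real.rpow_add hΛ,
      ← Real.rpow_add hΛ]
    congr 1
    push_cast
    ring
  obtain ⟨c, hc⟩ : ∃ c : ℝ≥0, (c : ℝ) = Λ := ⟨⟨Λ, hΛ.le⟩, rfl⟩
  have hc0 : c ≠ 0 := by
    rintro rfl
    simp at hc
    exact hΛ.ne hc
  have hcE : (c : ℝ≥0∞) ^ 2 = ENNReal.ofReal (Λ ^ 2) := by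
    rw [← hc, ENNReal.ofReal_pow c.coe_nonneg, ENNReal.ofReal_coe_nnreal]
  have hpt : ∀ (x : E d) (w : Path d),
      PW p Λ (tm Λ (Set.Ico 0 (Λ ^ d)) (Λ • x, scal c w)) ≤
        ENNReal.ofReal (Λ ^ 2 * Λ ^ p) * WTor p ((occ x w (Set.Icc 0 T)).map frac) := by
    intro x w
    have h1 := occ_scal hc0 x w (I := Set.Ico 0 T) measurableSet_Ico
    rw [hc, final_preimage_Ico hΛ, ← hΛd, hcE] at h1
    have h2 : ENNReal.ofReal (Λ ^ 2) * occ x w (Set.Ico 0 T) Set.univ =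
        ENNReal.ofReal (Λ ^ d) := by
      rw [occ_univ, Real.volume_Ico, sub_zero, ← ENNReal.ofReal_mul (by positivity), hΛd]
    have h3 := PW_le_WTor hp.le hΛ h2
    simp only [tm]
    rw [h1, occ_Icc, ENNReal.ofReal_mul (by positivity)]
    exact h3
  have hv0 : ENNReal.ofReal (Λ ^ d) ≠ 0 := by
    simp only [ne_eq, ENNReal.ofReal_eq_zero, not_le]
    positivity
  have hmain : ∫⁻ q, PW p Λ (tm Λ (Set.Ico 0 (Λ ^ d)) q) ∂(TP W Λ) ≤
      ENNReal.ofReal (Λ ^ 2 * Λ ^ p) * torusCost p W T := by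
    rw [TP, lintegral_smul_measure, smul_eq_mul]
    calc (ENNReal.ofReal (Λ ^ d))⁻¹ * ∫⁻ q, PW p Λ (tm Λ (Set.Ico 0 (Λ ^ d)) q)
          ∂(((volume : Measure (E d)).restrict (cube 0 Λ)).prod W)
        ≤ (ENNReal.ofReal (Λ ^ d))⁻¹ * ∫⁻ x in cube 0 Λ,
            ∫⁻ w, PW p Λ (tm Λ (Set.Ico 0 (Λ ^ d)) (x, w)) ∂W := by
          gcongr
          exact lintegral_prod_le _
      _ = ∫⁻ x, (∫⁻ w, PW p Λ (tm Λ (Set.Ico 0 (Λ ^ d)) (x, w)) ∂W)
            ∂(((volume : Measure (E d)).restrict (cube 0 1)).map fun x => Λ • x) := by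
          rw [final_volume_cube hΛ, lintegral_smul_measure, smul_eq_mul, ← mul_assoc,
            ENNReal.inv_mul_cancel hv0 ENNReal.ofReal_ne_top, one_mul]
      _ ≤ ∫⁻ x in cube 0 1, ∫⁻ w, PW p Λ (tm Λ (Set.Ico 0 (Λ ^ d)) (Λ • x, w)) ∂W :=
          lintegral_map_le _ _
      _ ≤ ∫⁻ x in cube 0 1, ENNReal.ofReal (Λ ^ 2 * Λ ^ p) *
            ∫⁻ w, WTor p ((occ x w (Set.Icc 0 T)).map frac) ∂W := by
          refine lintegral_mono fun x => ?_
          rw [← lintegral_const_mul' _ _ ENNReal.ofReal_ne_top]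
          conv_lhs => rw [← hW.map_scal hc0]
          exact (lintegral_map_le _ _).trans (lintegral_mono fun w => hpt x w)
      _ = ENNReal.ofReal (Λ ^ 2 * Λ ^ p) * torusCost p W T := by
          rw [lintegral_const_mul' _ _ ENNReal.ofReal_ne_top, torusCost]
  have ha0 : ENNReal.ofReal (Λ ^ 2 * Λ ^ p) ≠ 0 := by
    simp only [ne_eq, ENNReal.ofReal_eq_zero, not_le]
    positivity
  have hden : ENNReal.ofReal (Λ ^ d) =
      ENNReal.ofReal (Λ ^ 2 * Λ ^ p) * ENNReal.ofReal (T ^ (1 - p / ((d : ℝ) - 2))) := by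
    rw [← ENNReal.ofReal_mul (by positivity), mul_comm, hexp]
  calc tL p (TP W) (fun Λ => tm Λ (Set.Ico 0 (Λ ^ d))) Λ
      ≤ ENNReal.ofReal (Λ ^ 2 * Λ ^ p) * torusCost p W T / ENNReal.ofReal (Λ ^ d) :=
        ENNReal.div_le_div_right hmain _
    _ = torusCost p W T / ENNReal.ofReal (T ^ (1 - p / ((d : ℝ) - 2))) := by
        rw [hden, ENNReal.mul_div_mul_left _ _ ha0 ENNReal.ofReal_ne_top]

theorem lower_bound {p R : ℝ} (hdp : InRange d p) {W : Measure (Path d)} (hW : IsWiener W)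
    (hR : √d ≤ R) :
    Filter.liminf (fun u : ℝ => interCost p W R (cube 0 1) u /
        ENNReal.ofReal (u ^ (1 - p / ((d : ℝ) - 2)))) Filter.atTop ≤
      Filter.liminf (fun T : ℝ => torusCost p W T /
        ENNReal.ofReal (T ^ (1 - p / ((d : ℝ) - 2)))) Filter.atTop := by
  have hd : 3 ≤ d := by
    rcases hdp with ⟨h | h, -⟩ | ⟨h, -⟩ <;> omega
  have hp : 0 < p := by
    rcases hdp with ⟨-, h, -⟩ | ⟨-, h⟩ <;> exact h
  have hd3 : (3 : ℝ) ≤ d := by exact_mod_cast hd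
  have hd2 : (0 : ℝ) < (d : ℝ) - 2 := by linarith
  have hP := hW.fam hd
  have hT := hW.tfam hd
  have h2 : cInf p (PL W) ≤
      Filter.liminf (tL p (TP W) (fun Λ => tm Λ (Set.Ico 0 (Λ ^ d)))) Filter.atTop := by
    rcases hdp with ⟨h, -, hpd⟩ | ⟨h, -⟩
    · refine main0 hP hT hp ?_ hpd
      have h4 : (d : ℝ) ≤ 4 := by
        rcases h with h | h <;> rw [h] <;> norm_num
      linarith
    · rcases lt_or_ge p 1 with h1 | h1
      · refine main0 hP hT hp h1 ?_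
        have h5 : (5 : ℝ) ≤ d := by exact_mod_cast h
        linarith
      · exact main1 hP hT h1 h
  have h1 : Filter.liminf (fun u : ℝ => interCost p W R (cube 0 1) u /
        ENNReal.ofReal (u ^ (1 - p / ((d : ℝ) - 2)))) Filter.atTop ≤ cInf p (PL W) := by
    have ht : Filter.Tendsto (fun L : ℝ => L ^ ((d : ℝ) - 2)) Filter.atTop Filter.atTop :=
      tendsto_rpow_atTop hd2
    refine (ht.liminf_le_liminf_comp).trans (le_of_eq ?_)
    refine Filter.liminf_congr ?_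
    filter_upwards [Filter.eventually_gt_atTop 0] with L hL
    exact hW.interCost_eq hd hp hR hL
  have h3 : Filter.liminf (tL p (TP W) (fun Λ => tm Λ (Set.Ico 0 (Λ ^ d)))) Filter.atTop ≤
      Filter.liminf (fun T : ℝ => torusCost p W T /
        ENNReal.ofReal (T ^ (1 - p / ((d : ℝ) - 2)))) Filter.atTop := by
    have ht : Filter.Tendsto (fun T : ℝ => T ^ (1 / ((d : ℝ) - 2))) Filter.atTop Filter.atTop :=
      tendsto_rpow_atTop (by positivity)
    refine (ht.liminf_le_liminf_comp).trans ?_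
    refine Filter.liminf_le_liminf ?_
    filter_upwards [Filter.eventually_gt_atTop 0] with T hT0
    exact hW.tL_le_torusCost hd hp hT0
  exact h1.trans (h2.trans h3)

end Pool.Agent.Lib.MP_fe8b6f_pr
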