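import Pool.Agent.Lib.MP_fe8b6f_pr.GridB

/-! Cubes, grids, layers, localisation maps. Part 3. -/

open MeasureTheory ProbabilityTheory
open scoped NNReal ENNReal

noncomputable section

namespace Pool.Agent.Lib.MP_fe8b6f_pr

variable {d : ℕ}

theorem grid_meas (a : E d) : Measurable fun x : E d => x - a := measurable_id.sub_const _

theorem sh_zero_left (μ : Measure (E d)) : sh 0 μ = μ := by
  simp [sh]

theorem sh_apply (a : E d) (μ : Measure (E d)) {A : Set (E d)} (hA : MeasurableSet A) :
    sh a μ A = μ ((fun x => x - a) ⁻¹' A) := by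
  rw [sh, Measure.map_apply (grid_meas a) hA]

theorem sh_cube (a b : E d) (s : ℝ) (μ : Measure (E d)) :
    sh a μ (cube b s) = μ (cube (a + b) s) := by
  rw [sh_apply a μ (measurableSet_cube b s), preimage_sub_cube]

theorem sh_sh (a b : E d) (μ : Measure (E d)) : sh b (sh a μ) = sh (a + b) μ := by
  rw [sh, sh, sh, Measure.map_map (grid_meas b) (grid_meas a)]
  congr 1
  funext x
  exact sub_sub x a b

theorem sh_volume (a : E d) : sh a (volume : Measure (E d)) = volume := by
  exact map_sub_right_eq_self volume a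

theorem sh_restrict_cube (a b : E d) (s : ℝ) (μ : Measure (E d)) :
    sh a (μ.restrict (cube (a + b) s)) = (sh a μ).restrict (cube b s) := by
  rw [sh, sh, Measure.restrict_map (grid_meas a) (measurableSet_cube b s), preimage_sub_cube]

theorem sh_add (a : E d) (μ ν : Measure (E d)) : sh a (μ + ν) = sh a μ + sh a ν := by
  exact Measure.map_add _ _ (grid_meas a)

theorem sh_smul (a : E d) (r : ℝ≥0∞) (μ : Measure (E d)) : sh a (r • μ) = r • sh a μ := by
  exact Measure.map_smul _ _ _

theorem measurable_restrict_measure {A : Set (E d)} (hA : MeasurableSet A) :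
    Measurable fun μ : Measure (E d) => μ.restrict A := by
  rw [Measure.measurable_measure]
  intro B hB
  simp only [Measure.restrict_apply hB]
  exact Measure.measurable_coe (hB.inter hA)

theorem measurable_loc (a : E d) (s : ℝ) : Measurable (loc a s) := by
  exact (measurable_restrict_measure (measurableSet_cube 0 s)).comp
    (Measure.measurable_map _ (grid_meas a))

theorem loc_zero (a : E d) (s : ℝ) : loc a s (0 : Measure (E d)) = 0 := by
  simp [loc, sh]

theorem loc_add (a : E d) (s : ℝ) (μ ν : Measure (E d)) :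
    loc a s (μ + ν) = loc a s μ + loc a s ν := by
  rw [loc, loc, loc, sh_add, Measure.restrict_add]

theorem loc_cube (a : E d) (s : ℝ) (μ : Measure (E d)) :
    loc a s μ (cube 0 s) = μ (cube a s) := by
  rw [loc, Measure.restrict_apply_self, sh_cube, add_zero]

theorem loc_eq_zero_iff (a : E d) (s : ℝ) (μ : Measure (E d)) :
    loc a s μ = 0 ↔ μ (cube a s) = 0 := by
  rw [loc, Measure.restrict_eq_zero, sh_cube, add_zero]

theorem grid_loc_eq (a : E d) (s : ℝ) (μ : Measure (E d)) :
    loc a s μ = sh a (μ.restrict (cube a s)) := by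
  rw [loc, ← sh_restrict_cube, add_zero]

theorem loc_loc {a b : E d} {s L : ℝ} (h : cube b s ⊆ cube 0 L) (μ : Measure (E d)) :
    loc b s (loc a L μ) = loc (a + b) s μ := by
  rw [grid_loc_eq b, loc, Measure.restrict_restrict_of_subset h, ← sh_restrict_cube, sh_sh,
    grid_loc_eq]

theorem loc_restrict {a : E d} {s : ℝ} {K : Set (E d)} (hK : MeasurableSet K)
    (h : cube a s ⊆ K) (μ : Measure (E d)) : loc a s (μ.restrict K) = loc a s μ := by
  rw [grid_loc_eq, grid_loc_eq, Measure.restrict_restrict_of_subset h]

theorem measurableSet_zero_measure : MeasurableSet ({0} : Set (Measure (E d))) := by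
  have e : ({0} : Set (Measure (E d))) = (fun μ : Measure (E d) => μ Set.univ) ⁻¹' {0} := by
    ext μ
    simp
  rw [e]
  exact Measure.measurable_coe MeasurableSet.univ (measurableSet_singleton 0)

theorem G_restrict (p s : ℝ) (ξ : E d) (μ : Measure (E d)) :
    G p s ξ (μ.restrict (cube 0 s)) = G p s ξ μ := by
  rw [G, G, Measure.restrict_restrict_of_subset subset_rfl, Measure.restrict_apply_self]

theorem Gf_restrict (p s : ℝ) (ξ : E d) (μ : Measure (E d)) :
    Gf p s ξ (μ.restrict (cube 0 s)) = Gf p s ξ μ := by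
  rw [Gf, Gf, G_restrict, Measure.restrict_apply_self]

theorem Good_restrict {ι : Type} (K0 δ L : ℝ) (h : ι → E d → ℝ) (μ : Measure (E d)) :
    Good K0 δ L h (μ.restrict (cube 0 L)) ↔ Good K0 δ L h μ := by
  rw [Good, Good, Measure.restrict_restrict_of_subset subset_rfl, Measure.restrict_apply_self,
    Measure.restrict_eq_self μ Set.inter_subset_left]

theorem WDom_cube (p s : ℝ) (μ : Measure (E d)) : WDom p (cube 0 s) μ = G p s 0 μ := by
  rw [WDom, G, neg_zero]

end Pool.Agent.Lib.MP_fe8b6f_pr
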