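import Pool.Agent.Lib.MP_fe8b6f_pr.OTa
import Pool.Agent.Lib.MP_fe8b6f_pr.Grid

/-! The folding map and reflections. Part 1. -/

open MeasureTheory ProbabilityTheory
open scoped NNReal ENNReal

noncomputable section

namespace Pool.Agent.Lib.MP_fe8b6f_pr

variable {d : ℕ}

theorem foldA_apply (L : ℝ) (x : E d) (i : Fin d) : fold L x i = L - |(|x i| - L)| := rfl

theorem foldA_refl_apply (i : Fin d) (L : ℝ) (x : E d) (j : Fin d) :
    refl i L x j = if j = i then L - x i else x j := by
  simp [refl, upd, Function.update_apply]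

theorem foldA_isometry (i : Fin d) :
    ∃ O : E d ≃ₗᵢ[ℝ] E d, ∀ (L : ℝ) (x y : E d), refl i L (x + y) = refl i L x + O y := by
  refine ⟨LinearIsometryEquiv.piLpCongrRight 2 (fun j : Fin d =>
    if j = i then LinearIsometryEquiv.neg ℝ else LinearIsometryEquiv.refl ℝ ℝ), fun L x y => ?_⟩
  ext j
  by_cases h : j = i
  · subst h
    simp [foldA_refl_apply]
    ring
  · simp [foldA_refl_apply, h]

theorem foldA_interval (L a b : ℝ) :
    volume {u : ℝ | a ≤ L - |(|u| - L)| ∧ L - |(|u| - L)| ≤ b} ≤ 4 * ENNReal.ofReal (b - a) := by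
  have hsub : {u : ℝ | a ≤ L - |(|u| - L)| ∧ L - |(|u| - L)| ≤ b} ⊆
      (Set.Icc a b ∪ Set.Icc (-b) (-a)) ∪
        (Set.Icc (2 * L - b) (2 * L - a) ∪ Set.Icc (a - 2 * L) (b - 2 * L)) := by
    rintro u ⟨h1, h2⟩
    simp only [Set.mem_union, Set.mem_Icc]
    rcases abs_cases u with ⟨hu, -⟩ | ⟨hu, -⟩ <;>
      rcases abs_cases (|u| - L) with ⟨hv, -⟩ | ⟨hv, -⟩
    · exact Or.inr (Or.inl ⟨by linarith, by linarith⟩)
    · exact Or.inl (Or.inl ⟨by linarith, by linarith⟩)
    · exact Or.inr (Or.inr ⟨by linarith, by linarith⟩)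
    · exact Or.inl (Or.inr ⟨by linarith, by linarith⟩)
  refine (measure_mono hsub).trans ((measure_union_le _ _).trans
    ((add_le_add (measure_union_le _ _) (measure_union_le _ _)).trans (le_of_eq ?_)))
  simp only [Real.volume_Icc]
  rw [show -a - -b = b - a by ring, show 2 * L - a - (2 * L - b) = b - a by ring,
    show b - 2 * L - (a - 2 * L) = b - a by ring]
  ring

theorem measurable_fold (L : ℝ) : Measurable (fold L : E d → E d) := by
  have : Continuous (fold L : E d → E d) :=
    (PiLp.continuous_toLp 2 _).comp (continuous_pi fun i => by fun_prop)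
  exact this.measurable

theorem abs_fold_sub_coord (L : ℝ) (x y : E d) (i : Fin d) :
    |fold L x i - fold L y i| ≤ |x i - y i| := by
  rw [foldA_apply, foldA_apply, sub_sub_sub_cancel_left, abs_sub_comm]
  refine (abs_abs_sub_abs_le_abs_sub _ _).trans ?_
  rw [sub_sub_sub_cancel_right]
  exact abs_abs_sub_abs_le_abs_sub _ _

theorem norm_fold_sub (L : ℝ) (x y : E d) : ‖fold L x - fold L y‖ ≤ ‖x - y‖ := by
  rw [EuclideanSpace.norm_eq, EuclideanSpace.norm_eq]
  refine Real.sqrt_le_sqrt (Finset.sum_le_sum fun i _ => ?_)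
  rw [Real.norm_eq_abs, Real.norm_eq_abs, PiLp.sub_apply, PiLp.sub_apply]
  exact pow_le_pow_left₀ (abs_nonneg _) (abs_fold_sub_coord L x y i) 2

theorem fold_eq_self {L : ℝ} {x : E d} (hx : x ∈ ecube L 0) : fold L x = x := by
  ext i
  obtain ⟨h1, h2⟩ := hx i
  rw [foldA_apply, abs_of_nonneg (a := x i) (by linarith), abs_of_nonpos (by linarith)]
  ring

theorem fold_mem {L : ℝ} {x : E d} (hx : x ∈ ecube L L) : fold L x ∈ ecube L 0 := by
  intro i
  obtain ⟨h1, h2⟩ := hx i
  rw [foldA_apply]
  have h3 : |(|x i| - L)| ≤ L := by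
    rw [abs_le]
    refine ⟨by linarith [abs_nonneg (x i)], ?_⟩
    rw [sub_le_iff_le_add, abs_le]
    exact ⟨by linarith, h2⟩
  constructor <;> linarith [abs_nonneg (|x i| - L)]

theorem norm_sub_fold_le {L : ℝ} (x : E d) {q : E d} (hq : q ∈ ecube L 0) :
    ‖x - fold L x‖ ≤ 2 * ‖x - q‖ := by
  have h1 := norm_fold_sub L q x
  rw [fold_eq_self hq, norm_sub_rev q x] at h1
  have h2 := norm_add_le (x - q) (q - fold L x)
  rw [sub_add_sub_cancel] at h2
  linarith

/-- folding multiplies volumes of boxes by at most `4 ^ d` -/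
theorem volume_fold_preimage_box (L : ℝ) (a b : E d) :
    volume (fold L ⁻¹' {x : E d | ∀ i, a i ≤ x i ∧ x i ≤ b i}) ≤
      4 ^ d * ∏ i, ENNReal.ofReal (b i - a i) := by
  have hm : MeasurableSet {x : E d | ∀ i, a i ≤ x i ∧ x i ≤ b i} := by
    refine IsClosed.measurableSet ?_
    rw [Set.ofPred_forall]
    refine isClosed_iInter fun i => ?_
    have hc : Continuous fun x : E d => x i := by fun_prop
    exact isClosed_Icc.preimage hc
  rw [← (PiLp.volume_preserving_toLp (Fin d)).measure_preimage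
    (measurable_fold L hm).nullMeasurableSet]
  have h1 : (WithLp.toLp 2) ⁻¹' (fold L ⁻¹' {x : E d | ∀ i, a i ≤ x i ∧ x i ≤ b i}) =
      Set.univ.pi fun i => {u : ℝ | a i ≤ L - |(|u| - L)| ∧ L - |(|u| - L)| ≤ b i} := by
    ext x
    simp [foldA_apply, Set.mem_pi]
  rw [h1, volume_pi_pi]
  refine (Finset.prod_le_prod' fun i _ => foldA_interval L (a i) (b i)).trans (le_of_eq ?_)
  rw [Finset.prod_mul_distrib, Finset.prod_const, Finset.card_univ, Fintype.card_fin]

theorem measurable_refl (i : Fin d) (L : ℝ) : Measurable (refl i L) := by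
  obtain ⟨O, hO⟩ := foldA_isometry i
  have h : refl i L = fun y => refl i L 0 + O y := by
    funext y
    rw [← hO, zero_add]
  rw [h]
  exact (continuous_const.add O.continuous).measurable

theorem measurable_reflM (i : Fin d) (L : ℝ) : Measurable (reflM i L) := by
  exact (measurable_restrict_measure (measurableSet_cube 0 L)).comp
    (Measure.measurable_map _ (measurable_refl i L))

theorem reflM_zero (i : Fin d) (L : ℝ) : reflM i L (0 : Measure (E d)) = 0 := by
  simp [reflM]

theorem reflM_add (i : Fin d) (L : ℝ) (μ ν : Measure (E d)) :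
    reflM i L (μ + ν) = reflM i L μ + reflM i L ν := by
  rw [reflM, reflM, reflM, Measure.map_add _ _ (measurable_refl i L), Measure.restrict_add]

/-- the reflection is an affine isometry -/
theorem exists_refl_isometry (i : Fin d) :
    ∃ O : E d ≃ₗᵢ[ℝ] E d, ∀ (L : ℝ) (x y : E d), refl i L (x + y) = refl i L x + O y := by
  exact foldA_isometry i

theorem map_refl_volume (i : Fin d) (L : ℝ) :
    (volume : Measure (E d)).map (refl i L) = volume := by
  obtain ⟨O, hO⟩ := foldA_isometry i
  have h : refl i L = (fun y => refl i L 0 + y) ∘ O := by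
    funext y
    rw [Function.comp_apply, ← hO, zero_add]
  rw [h]
  exact ((measurePreserving_add_left volume _).comp O.measurePreserving).map_eq

end Pool.Agent.Lib.MP_fe8b6f_pr
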