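import Pool.Agent.Lib.MP_fe8b6f_pr.OTb
import Pool.Agent.Lib.MP_fe8b6f_pr.AKT

/-! Basic inequalities for the cell functional `G` and its measurability. Part 1. -/

open MeasureTheory ProbabilityTheory
open scoped NNReal ENNReal

noncomputable section

namespace Pool.Agent.Lib.MP_fe8b6f_pr

variable {d : ℕ}

theorem gbasa_sh_unif (ξ a : E d) (s : ℝ) (r : ℝ≥0∞) :
    sh ξ (r • (volume : Measure (E d)).restrict (cube a s)) =
      r • (volume : Measure (E d)).restrict (cube (a - ξ) s) := by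
  have h := sh_restrict_cube ξ (a - ξ) s (volume : Measure (E d))
  rw [add_sub_cancel, sh_volume] at h
  rw [sh_smul, h]

theorem gbasa_vol_ne_zero (a : E d) {s : ℝ} (hs : 0 < s) : volume (cube a s) ≠ 0 := by
  rw [volume_cube a hs.le]
  exact (ENNReal.ofReal_pos.2 (pow_pos hs d)).ne'

theorem gbasa_vol_ne_top (a : E d) {s : ℝ} (hs : 0 < s) : volume (cube a s) ≠ ⊤ := by
  rw [volume_cube a hs.le]
  exact ENNReal.ofReal_ne_top

theorem gbasa_mass (a b : E d) {s : ℝ} (hs : 0 < s) (r : ℝ≥0∞) :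
    ((r / volume (cube a s)) • (volume : Measure (E d)).restrict (cube b s)) Set.univ = r := by
  rw [Measure.smul_apply, Measure.restrict_apply_univ, smul_eq_mul, volume_cube b hs.le,
    ← volume_cube a hs.le,
    ENNReal.div_mul_cancel (gbasa_vol_ne_zero a hs) (gbasa_vol_ne_top a hs)]

theorem gbasa_sh_sum {ι : Type*} (a : E d) (t : Finset ι) (ν : ι → Measure (E d)) :
    sh a (∑ i ∈ t, ν i) = ∑ i ∈ t, sh a (ν i) := by
  classical
  induction t using Finset.induction_on with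
  | empty => simp [sh]
  | insert i t hi ih => rw [Finset.sum_insert hi, Finset.sum_insert hi, sh_add, ih]

theorem gbasa_smul (p : ℝ) {r : ℝ≥0∞} (hr0 : r ≠ 0) (hr : r ≠ ⊤) (μ ν : Measure (E d)) :
    Wp p (r • μ) (r • ν) = r * Wp p μ ν := by
  refine le_antisymm (Wc_smul_le _ hr μ ν) ?_
  have h := Wc_smul_le (fun x y : E d => ‖x - y‖ₑ ^ p) (ENNReal.inv_ne_top.2 hr0) (r • μ) (r • ν)
  rw [smul_smul, smul_smul, ENNReal.inv_mul_cancel hr0 hr, one_smul, one_smul] at h
  calc r * Wp p μ ν ≤ r * (r⁻¹ * Wp p (r • μ) (r • ν)) := by gcongr; exact h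
    _ = _ := by rw [← mul_assoc, ENNReal.mul_inv_cancel hr0 hr, one_mul]

theorem gbasa_map_le {p : ℝ} (hp : 0 ≤ p) {c : ℝ} (hc : 0 < c) (μ ν : Measure (E d)) :
    Wp p (μ.map fun x => c • x) (ν.map fun x => c • x) ≤ ENNReal.ofReal (c ^ p) * Wp p μ ν := by
  have h := Wp_map_map hp (T := fun x : E d => c • x) (measurable_const_smul c)
    (c := c.toNNReal) (by simpa using hc) (fun x y => by
      rw [← smul_sub, norm_smul, Real.norm_of_nonneg hc.le, Real.coe_toNNReal c hc.le]) μ ν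
  rwa [← ENNReal.ofReal_rpow_of_pos hc]

theorem gbasa_map {p : ℝ} (hp : 0 ≤ p) {c : ℝ} (hc : 0 < c) (μ ν : Measure (E d)) :
    Wp p (μ.map fun x => c • x) (ν.map fun x => c • x) = ENNReal.ofReal (c ^ p) * Wp p μ ν := by
  refine le_antisymm (gbasa_map_le hp hc μ ν) ?_
  have h := gbasa_map_le hp (inv_pos.2 hc) (μ.map fun x => c • x) (ν.map fun x => c • x)
  have e : ((fun x : E d => c⁻¹ • x) ∘ fun x : E d => c • x) = id := by
    funext x
    simp [smul_smul, inv_mul_cancel₀ hc.ne']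
  rw [Measure.map_map (measurable_const_smul _) (measurable_const_smul _),
    Measure.map_map (measurable_const_smul _) (measurable_const_smul _), e, Measure.map_id,
    Measure.map_id] at h
  calc ENNReal.ofReal (c ^ p) * Wp p μ ν ≤ ENNReal.ofReal (c ^ p) * (ENNReal.ofReal (c⁻¹ ^ p) *
        Wp p (μ.map fun x => c • x) (ν.map fun x => c • x)) := by gcongr
    _ = _ := by
      rw [← mul_assoc, ← ENNReal.ofReal_mul (by positivity), ← Real.mul_rpow hc.le (by positivity),
        mul_inv_cancel₀ hc.ne', Real.one_rpow, ENNReal.ofReal_one, one_mul]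

theorem gbasa_preimage {c : ℝ} (hc : 0 < c) :
    (fun x : E d => c • x) ⁻¹' cube 0 c = cube 0 1 := by
  ext x
  simp only [cube, Set.mem_preimage, Set.mem_ofPred_eq, PiLp.smul_apply, smul_eq_mul,
    PiLp.zero_apply, zero_add]
  refine forall_congr' fun i => and_congr ?_ ?_
  · exact mul_nonneg_iff_of_pos_left hc
  · exact mul_lt_iff_lt_one_right hc

theorem gbasa_cell {p : ℝ} (hp : 0 ≤ p) {s : ℝ} (hs : 0 < s) (a ξ : E d) (μ : Measure (E d)) :
    Wp p (μ.restrict (cube a s))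
      (sh ξ ((μ (cube a s) / volume (cube a s)) • volume.restrict (cube a s))) =
      G p s ξ (loc a s μ) := by
  have h := sh_restrict_cube a 0 s μ
  rw [add_zero] at h
  have e : a - ξ - a = -ξ := by abel
  rw [← Wp_sh hp a, gbasa_sh_unif, gbasa_sh_unif, h, e, G, loc_cube, volume_cube a hs.le,
    volume_cube 0 hs.le, loc, Measure.restrict_restrict (measurableSet_cube 0 s), Set.inter_self]

theorem G_bound {p s : ℝ} (hp : 0 ≤ p) (hs : 0 < s) (ξ : E d) {μ : Measure (E d)}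
    (hμ : μ (cube 0 s) ≠ ⊤) :
    G p s ξ μ ≤ ENNReal.ofReal (√d * s + ‖ξ‖) ^ p * μ (cube 0 s) := by
  have : IsFiniteMeasure (μ.restrict (cube 0 s)) := isFiniteMeasure_restrict.2 hμ
  have h := Wp_diam hp (μ := μ.restrict (cube 0 s))
    (ν := (μ (cube 0 s) / volume (cube (0 : E d) s)) • volume.restrict (cube (-ξ) s))
    (by rw [gbasa_mass _ _ hs, Measure.restrict_apply_univ]) (S := cube 0 s) (T := cube (-ξ) s)
    (by rw [Measure.restrict_apply (measurableSet_cube 0 s).compl, Set.compl_inter_self,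
      measure_empty])
    (by rw [Measure.smul_apply, Measure.restrict_apply (measurableSet_cube _ s).compl,
      Set.compl_inter_self, measure_empty, smul_zero])
    (D := √d * s + ‖ξ‖) (fun x hx y hy => by
      have hy' : y - -ξ ∈ cube (0 : E d) s := by
        rw [← Set.mem_preimage (f := fun z : E d => z - -ξ), preimage_sub_cube, add_zero]
        exact hy
      have e : x - y = (x - (y - -ξ)) + ξ := by abel
      rw [e]
      exact (norm_add_le _ _).trans (by gcongr; exact norm_sub_le_of_cube hs.le hx hy'))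
  rwa [Measure.restrict_apply_univ] at h

theorem G_net {p : ℝ} (hp : 0 < p) {ε : ℝ} (hε : 0 < ε) :
    ∃ C : ℝ≥0, ∀ (s : ℝ) (ξ ξ' : E d) (μ : Measure (E d)), 0 < s → μ (cube 0 s) ≠ ⊤ →
      G p s ξ' μ ≤ ENNReal.ofReal (1 + ε) * G p s ξ μ +
        C * (‖ξ - ξ'‖ₑ ^ p * μ (cube 0 s)) := by
  obtain ⟨C, hC⟩ := Wp_tri_eps (d := d) hp hε
  refine ⟨C, fun s ξ ξ' μ hs hμ => ?_⟩
  have hfin : IsFiniteMeasure
      ((μ (cube 0 s) / volume (cube (0 : E d) s)) • volume.restrict (cube (-ξ) s)) :=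
    ⟨by rw [gbasa_mass _ _ hs]; exact hμ.lt_top⟩
  refine (hC _ _ _ hfin).trans ?_
  change _ * G p s ξ μ + _ ≤ _
  gcongr
  have e : -ξ' = -ξ - (ξ' - ξ) := by abel
  rw [e, ← gbasa_sh_unif]
  refine (Wp_map_le p _ (measurable_sub_const _)).trans (le_of_eq ?_)
  simp only [sub_sub_cancel]
  rw [lintegral_const, gbasa_mass _ _ hs, enorm_sub_rev]

/-- pathwise subadditivity -/
theorem G_sub {p : ℝ} (hp : 0 < p) {ε : ℝ} (hε : 0 < ε) :
    ∃ C : ℝ≥0, ∀ (L : ℝ) (m : ℕ) (ξ : E d) (μ : Measure (E d)), 0 < L → 0 < m →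
      μ (cube 0 L) ≠ ⊤ →
      G p L ξ μ ≤ ENNReal.ofReal (1 + ε) *
          ∑ j : Fin d → Fin m, G p (L / m) ξ (loc (gcorner 0 L m j) (L / m) μ) +
        C * Wp p (avg μ 0 L m) (avg μ 0 L 1) := by
  obtain ⟨C, hC⟩ := Wp_tri_eps (d := d) hp hε
  refine ⟨C, fun L m ξ μ hL hm hμ => ?_⟩
  have := isFiniteMeasure_avg hL hμ m
  have hfin : IsFiniteMeasure (sh ξ (avg μ 0 L m)) := Measure.isFiniteMeasure_map _ _
  have hs : 0 < L / m := div_pos hL (Nat.cast_pos.2 hm)
  have e : G p L ξ μ = Wp p (μ.restrict (cube 0 L)) (sh ξ (avg μ 0 L 1)) := by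
    rw [avg_one, gbasa_sh_unif, zero_sub, G]
  rw [e]
  refine (hC _ _ _ hfin).trans ?_
  rw [Wp_sh hp.le]
  gcongr
  rw [restrict_cube_eq_sum μ 0 hL hm, avg, gbasa_sh_sum]
  refine (Wc_sum_le _ _ _ _).trans (le_of_eq (Finset.sum_congr rfl fun j _ => ?_))
  exact gbasa_cell hp.le hs _ ξ μ

/-- scaling -/
theorem G_scale {p : ℝ} (hp : 0 ≤ p) {c : ℝ} (hc : 0 < c) {r : ℝ≥0∞} (hr0 : r ≠ 0) (hr : r ≠ ⊤)
    (μ : Measure (E d)) :
    G p c 0 (r • μ.map fun x => c • x) = r * ENNReal.ofReal (c ^ p) * G p 1 0 μ := by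
  have hT : Measurable fun x : E d => c • x := measurable_const_smul c
  have h1 : (r • μ.map fun x => c • x).restrict (cube 0 c) =
      r • (μ.restrict (cube 0 1)).map fun x => c • x := by
    rw [Measure.restrict_smul, Measure.restrict_map hT (measurableSet_cube 0 c), gbasa_preimage hc]
  have h2 : (r • μ.map fun x => c • x) (cube 0 c) = r * μ (cube 0 1) := by
    rw [Measure.smul_apply, Measure.map_apply hT (measurableSet_cube 0 c), gbasa_preimage hc,
      smul_eq_mul]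
  have h3 : ((volume : Measure (E d)).restrict (cube 0 1)).map (fun x => c • x) =
      (ENNReal.ofReal (c ^ d))⁻¹ • (volume : Measure (E d)).restrict (cube 0 c) := by
    rw [← gbasa_preimage hc, ← Measure.restrict_map hT (measurableSet_cube 0 c),
      Measure.map_addHaar_smul _ hc.ne', Measure.restrict_smul, finrank_euclideanSpace_fin,
      abs_of_pos (inv_pos.2 (pow_pos hc d)), ENNReal.ofReal_inv_of_pos (pow_pos hc d)]
  rw [mul_assoc, G, G, ← gbasa_map hp hc, ← gbasa_smul p hr0 hr, h1, h2, neg_zero,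
    Measure.map_smul, h3, volume_cube 0 hc.le, volume_cube 0 zero_le_one, one_pow,
    ENNReal.ofReal_one, div_one, smul_smul, smul_smul, div_eq_mul_inv]

end Pool.Agent.Lib.MP_fe8b6f_pr
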