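import Pool.Agent.Lib.MP_fe8b6f_pr.Defs

/-! Cubes, grids, layers, localisation maps. Part 1. -/

open MeasureTheory ProbabilityTheory
open scoped NNReal ENNReal

noncomputable section

namespace Pool.Agent.Lib.MP_fe8b6f_pr

variable {d : ℕ}

theorem grida_box_eq (a b : E d) :
    box a b = (WithLp.ofLp : E d → Fin d → ℝ) ⁻¹' Set.univ.pi fun i => Set.Ico (a i) (b i) := by
  ext x
  simp [box, Set.mem_pi]

theorem grida_cube_eq (a : E d) (s : ℝ) :
    cube a s = box a (WithLp.toLp 2 fun i => a i + s) := rfl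

theorem grida_gcorner_apply (a : E d) (s : ℝ) (m : ℕ) (j : Fin d → Fin m) (i : Fin d) :
    gcorner a s m j i = a i + s / m * ((j i : ℕ) : ℝ) := by
  simp [gcorner]

theorem grida_card_one {ρ : ℝ} (hρ : 0 ≤ ρ) (m : ℕ) (j : Fin m) :
    ((Finset.univ.filter fun n : Fin m => |((j : ℕ) : ℝ) - ((n : ℕ) : ℝ)| < ρ).card : ℝ) ≤
      2 * ρ + 1 := by
  have h1 : (Finset.univ.filter fun n : Fin m => |((j : ℕ) : ℝ) - ((n : ℕ) : ℝ)| < ρ).card ≤
      (Finset.Icc ⌈((j : ℕ) : ℝ) - ρ⌉ ⌊((j : ℕ) : ℝ) + ρ⌋).card := by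
    refine Finset.card_le_card_of_injOn (fun n : Fin m => ((n : ℕ) : ℤ)) ?_ ?_
    · intro n hn
      have hn' := abs_lt.1 (Finset.mem_filter.1 hn).2
      simp only [Finset.coe_Icc, Set.mem_Icc, Int.ceil_le, Int.le_floor, Int.cast_natCast]
      constructor <;> linarith [hn'.1, hn'.2]
    · intro n _ n' _ h
      exact Fin.ext (Int.ofNat_inj.1 h)
  rw [Int.card_Icc] at h1
  have h2 : (((⌊((j : ℕ) : ℝ) + ρ⌋ + 1 - ⌈((j : ℕ) : ℝ) - ρ⌉).toNat : ℕ) : ℝ) ≤ 2 * ρ + 1 := by
    rcases le_total 0 (⌊((j : ℕ) : ℝ) + ρ⌋ + 1 - ⌈((j : ℕ) : ℝ) - ρ⌉) with h | h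
    · have h3 : (((⌊((j : ℕ) : ℝ) + ρ⌋ + 1 - ⌈((j : ℕ) : ℝ) - ρ⌉).toNat : ℕ) : ℝ) =
          ((⌊((j : ℕ) : ℝ) + ρ⌋ + 1 - ⌈((j : ℕ) : ℝ) - ρ⌉ : ℤ) : ℝ) := by
        rw [← Int.cast_natCast, Int.toNat_of_nonneg h]
      rw [h3]
      push_cast
      linarith [Int.floor_le (((j : ℕ) : ℝ) + ρ), Int.le_ceil (((j : ℕ) : ℝ) - ρ)]
    · rw [Int.toNat_eq_zero.2 h]
      push_cast
      linarith
  exact le_trans (by exact_mod_cast h1) h2

theorem measurableSet_box (a b : E d) : MeasurableSet (box a b) := by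
  rw [grida_box_eq]
  exact (MeasurableSet.univ_pi fun i => measurableSet_Ico).preimage
    (PiLp.volume_preserving_ofLp (Fin d)).measurable

theorem volume_box (a b : E d) : volume (box a b) = ∏ i, ENNReal.ofReal (b i - a i) := by
  rw [grida_box_eq, (PiLp.volume_preserving_ofLp (Fin d)).measure_preimage
    (MeasurableSet.univ_pi fun i => measurableSet_Ico).nullMeasurableSet, Real.volume_pi_Ico]

theorem measurableSet_cube (a : E d) (s : ℝ) : MeasurableSet (cube a s) := by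
  rw [grida_cube_eq]
  exact measurableSet_box _ _

theorem volume_cube (a : E d) {s : ℝ} (hs : 0 ≤ s) :
    volume (cube a s) = ENNReal.ofReal (s ^ d) := by
  rw [grida_cube_eq, volume_box, ENNReal.ofReal_pow hs]
  simp

theorem preimage_sub_cube (a b : E d) (s : ℝ) :
    (fun x => x - a) ⁻¹' cube b s = cube (a + b) s := by
  ext x
  simp only [cube, Set.mem_preimage, Set.mem_ofPred_eq, PiLp.sub_apply, PiLp.add_apply]
  refine forall_congr' fun i => ?_
  constructor <;> rintro ⟨h1, h2⟩ <;> constructor <;> linarith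

theorem norm_sub_le_of_coord {x y : E d} {D : ℝ} (hD : 0 ≤ D) (h : ∀ i, |x i - y i| ≤ D) :
    ‖x - y‖ ≤ √d * D := by
  rw [EuclideanSpace.norm_eq, ← Real.sqrt_sq hD, ← Real.sqrt_mul (Nat.cast_nonneg d)]
  refine Real.sqrt_le_sqrt ?_
  calc ∑ i, ‖(x - y) i‖ ^ 2 ≤ ∑ _i : Fin d, D ^ 2 := by
        refine Finset.sum_le_sum fun i _ => ?_
        rw [PiLp.sub_apply, Real.norm_eq_abs]
        exact pow_le_pow_left₀ (abs_nonneg _) (h i) 2
    _ = d * D ^ 2 := by simp

theorem abs_coord_le_norm (x : E d) (i : Fin d) : |x i| ≤ ‖x‖ := by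
  rw [← Real.norm_eq_abs]
  exact PiLp.norm_apply_le x i

theorem norm_sub_le_of_cube {a x y : E d} {s : ℝ} (hs : 0 ≤ s) (hx : x ∈ cube a s)
    (hy : y ∈ cube a s) : ‖x - y‖ ≤ √d * s := by
  refine norm_sub_le_of_coord hs fun i => abs_le.2 ⟨?_, ?_⟩
  · linarith [(hx i).1, (hy i).2]
  · linarith [(hx i).2, (hy i).1]

theorem cube_subset_closedBall {L : ℝ} (hL : 0 ≤ L) :
    cube (0 : E d) L ⊆ Metric.closedBall 0 (√d * L) := by
  intro x hx
  rw [Metric.mem_closedBall, dist_eq_norm]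
  refine norm_sub_le_of_coord hL fun i => abs_le.2 ⟨?_, ?_⟩
  · linarith [(hx i).1]
  · linarith [(hx i).2]

theorem cube_subset_ecube (L : ℝ) {t : ℝ} (ht : 0 ≤ t) : cube (0 : E d) L ⊆ ecube L t := by
  intro x hx i
  have h := hx i
  simp only [PiLp.zero_apply, zero_add] at h
  constructor <;> linarith [h.1, h.2]

theorem measurableSet_gc (a : E d) (s : ℝ) (m : ℕ) (j : Fin d → Fin m) :
    MeasurableSet (gc a s m j) := by
  exact measurableSet_cube _ _

theorem volume_gc (a : E d) {s : ℝ} (hs : 0 ≤ s) (m : ℕ) (j : Fin d → Fin m) :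
    volume (gc a s m j) = ENNReal.ofReal ((s / m) ^ d) := by
  exact volume_cube _ (by positivity)

theorem gc_subset (a : E d) {s : ℝ} (hs : 0 ≤ s) (m : ℕ) (j : Fin d → Fin m) :
    gc a s m j ⊆ cube a s := by
  intro x hx i
  have h := hx i
  rw [grida_gcorner_apply] at h
  have hm : (0 : ℝ) < m := by exact_mod_cast (j i).pos
  have h1 : ((j i : ℕ) : ℝ) + 1 ≤ m := by exact_mod_cast (j i).2
  have h2 : 0 ≤ s / m := by positivity
  have h3 : 0 ≤ s / m * ((j i : ℕ) : ℝ) := by positivity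
  have h4 : s / m * (((j i : ℕ) : ℝ) + 1) ≤ s / m * m := mul_le_mul_of_nonneg_left h1 h2
  rw [div_mul_cancel₀ _ hm.ne'] at h4
  constructor <;> linarith [h.1, h.2]

theorem gcorner_mem (a : E d) {s : ℝ} (hs : 0 < s) (m : ℕ) (j : Fin d → Fin m) :
    gcorner a s m j ∈ gc a s m j := by
  intro i
  have hm : (0 : ℝ) < m := by exact_mod_cast (j i).pos
  have h2 : 0 < s / m := by positivity
  exact ⟨le_rfl, by linarith⟩

theorem gc_disjoint (a : E d) {s : ℝ} (hs : 0 < s) (m : ℕ) :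
    Pairwise (Function.onFun Disjoint (gc a s m)) := by
  intro j j' hjj'
  obtain ⟨i, hi⟩ := Function.ne_iff.1 hjj'
  refine Set.disjoint_left.2 fun x hx hx' => hi ?_
  have h := hx i
  have h' := hx' i
  rw [grida_gcorner_apply] at h h'
  have hm : (0 : ℝ) < m := by exact_mod_cast (j i).pos
  have h2 : 0 < s / m := by positivity
  have h3 : ((j i : ℕ) : ℝ) < ((j' i : ℕ) : ℝ) + 1 :=
    lt_of_mul_lt_mul_left (by linarith [h.1, h'.2]) h2.le
  have h4 : ((j' i : ℕ) : ℝ) < ((j i : ℕ) : ℝ) + 1 :=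
    lt_of_mul_lt_mul_left (by linarith [h.2, h'.1]) h2.le
  have h5 : (j i : ℕ) < j' i + 1 := by exact_mod_cast h3
  have h6 : (j' i : ℕ) < j i + 1 := by exact_mod_cast h4
  exact Fin.ext (by omega)

theorem iUnion_gc (a : E d) {s : ℝ} (hs : 0 < s) {m : ℕ} (hm : 0 < m) :
    ⋃ j, gc a s m j = cube a s := by
  refine Set.Subset.antisymm (Set.iUnion_subset fun j => gc_subset a hs.le m j) fun x hx => ?_
  have hm' : (0 : ℝ) < m := by exact_mod_cast hm
  have h2 : 0 < s / m := by positivity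
  have h0 : ∀ i, 0 ≤ (x i - a i) / (s / m) := fun i =>
    div_nonneg (by linarith [(hx i).1]) h2.le
  have h1 : ∀ i, ⌊(x i - a i) / (s / m)⌋₊ < m := by
    intro i
    rw [Nat.floor_lt (h0 i), div_lt_iff₀ h2, mul_div_cancel₀ _ hm'.ne']
    linarith [(hx i).2]
  refine Set.mem_iUnion.2 ⟨fun i => ⟨_, h1 i⟩, fun i => ?_⟩
  rw [grida_gcorner_apply]
  have h3 := Nat.floor_le (h0 i)
  have h4 := Nat.lt_floor_add_one ((x i - a i) / (s / m))
  rw [le_div_iff₀ h2] at h3
  rw [div_lt_iff₀ h2] at h4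
  constructor <;> linarith

theorem gc_one (a : E d) (s : ℝ) (j : Fin d → Fin 1) : gc a s 1 j = cube a s := by
  have h : gcorner a s 1 j = a := by
    ext i
    rw [grida_gcorner_apply]
    simp
  rw [gc, h]
  simp

theorem restrict_cube_eq_sum (μ : Measure (E d)) (a : E d) {s : ℝ} (hs : 0 < s) {m : ℕ}
    (hm : 0 < m) : μ.restrict (cube a s) = ∑ j, μ.restrict (gc a s m j) := by
  rw [← iUnion_gc a hs hm, Measure.restrict_iUnion (gc_disjoint a hs m) (measurableSet_gc a s m),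
    Measure.sum_fintype]

theorem measure_cube_eq_sum (μ : Measure (E d)) (a : E d) {s : ℝ} (hs : 0 < s) {m : ℕ}
    (hm : 0 < m) : μ (cube a s) = ∑ j, μ (gc a s m j) := by
  rw [← iUnion_gc a hs hm, measure_iUnion (gc_disjoint a hs m) (measurableSet_gc a s m),
    tsum_fintype]

/-- nested grids (use `finProdFinEquiv` in each coordinate) -/
theorem exists_grid_equiv (m m' : ℕ) :
    ∃ e : (Fin d → Fin m) × (Fin d → Fin m') ≃ (Fin d → Fin (m * m')),
      ∀ (a : E d) (s : ℝ) (j : Fin d → Fin m) (j' : Fin d → Fin m'),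
        gcorner a s (m * m') (e (j, j')) = gcorner (gcorner a s m j) (s / m) m' j' ∧
        gc a s (m * m') (e (j, j')) = gc (gcorner a s m j) (s / m) m' j' := by
  refine ⟨(Equiv.arrowProdEquivProdArrow (Fin d) (fun _ => Fin m) (fun _ => Fin m')).symm.trans
    (Equiv.piCongrRight fun _ => finProdFinEquiv), fun a s j j' => ?_⟩
  have h : gcorner a s (m * m')
      (((Equiv.arrowProdEquivProdArrow (Fin d) (fun _ => Fin m) (fun _ => Fin m')).symm.trans
        (Equiv.piCongrRight fun _ => finProdFinEquiv)) (j, j')) =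
      gcorner (gcorner a s m j) (s / m) m' j' := by
    ext i
    have hm : (0 : ℝ) < m := by exact_mod_cast (j i).pos
    have hm' : (0 : ℝ) < m' := by exact_mod_cast (j' i).pos
    rw [grida_gcorner_apply, grida_gcorner_apply, grida_gcorner_apply]
    have h1 : ((((Equiv.arrowProdEquivProdArrow (Fin d) (fun _ => Fin m)
        (fun _ => Fin m')).symm.trans (Equiv.piCongrRight fun _ => finProdFinEquiv)) (j, j') i :
          Fin (m * m')) : ℕ) = j' i + m' * j i := rfl
    rw [h1]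
    push_cast
    field_simp
    ring
  refine ⟨h, ?_⟩
  rw [gc, gc, h, div_div, Nat.cast_mul]

/-- few grid corners are close to a given one -/
theorem card_close_corners {s r : ℝ} (hs : 0 < s) (hr : 0 ≤ r) (m : ℕ) (j : Fin d → Fin m) :
    ((Finset.univ.filter fun j' : Fin d → Fin m =>
      ‖gcorner (0 : E d) (m * s) m j - gcorner 0 (m * s) m j'‖ < r).card : ℝ) ≤
      (2 * r / s + 1) ^ d := by
  have h1 : (Finset.univ.filter fun j' : Fin d → Fin m =>
      ‖gcorner (0 : E d) (m * s) m j - gcorner 0 (m * s) m j'‖ < r) ⊆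
      Fintype.piFinset fun i => Finset.univ.filter fun n : Fin m =>
        |((j i : ℕ) : ℝ) - ((n : ℕ) : ℝ)| < r / s := by
    intro j' hj'
    rw [Fintype.mem_piFinset]
    intro i
    have hm : (0 : ℝ) < m := by exact_mod_cast (j i).pos
    have h2 := (abs_coord_le_norm _ i).trans_lt (Finset.mem_filter.1 hj').2
    rw [PiLp.sub_apply, grida_gcorner_apply, grida_gcorner_apply, mul_div_cancel_left₀ _ hm.ne',
      add_sub_add_left_eq_sub, ← mul_sub, abs_mul, abs_of_pos hs] at h2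
    refine Finset.mem_filter.2 ⟨Finset.mem_univ _, ?_⟩
    rw [lt_div_iff₀ hs]
    linarith
  have h2 := Finset.card_le_card h1
  rw [Fintype.card_piFinset] at h2
  refine le_trans (Nat.cast_le.2 h2) ?_
  rw [Nat.cast_prod]
  refine (Finset.prod_le_prod (fun i _ => Nat.cast_nonneg _)
    (fun i _ => grida_card_one (div_nonneg hr hs.le) m (j i))).trans (le_of_eq ?_)
  rw [Finset.prod_const, Finset.card_univ, Fintype.card_fin, mul_div_assoc]

end Pool.Agent.Lib.MP_fe8b6f_pr
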