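import Pool.Agent.Lib.MP_fe8b6f_pr.GridA

/-! Cubes, grids, layers, localisation maps. Part 2. -/

open MeasureTheory ProbabilityTheory
open scoped NNReal ENNReal

noncomputable section

namespace Pool.Agent.Lib.MP_fe8b6f_pr

variable {d : ℕ}

theorem gridb_vol_pi (S : Fin d → Set ℝ) (hS : ∀ i, MeasurableSet (S i)) :
    volume {x : E d | ∀ i, x i ∈ S i} = ∏ i, volume (S i) := by
  have h := (PiLp.volume_preserving_ofLp (Fin d)).measure_preimage
    (s := Set.pi Set.univ S) (MeasurableSet.univ_pi hS).nullMeasurableSet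
  rw [volume_pi_pi] at h
  rw [← h]
  congr 1
  ext x
  simp [Set.mem_pi]

theorem gridb_one (i : Fin d) {A B : Set ℝ} (hA : MeasurableSet A) (hB : MeasurableSet B) :
    volume {x : E d | x i ∈ A ∧ ∀ k, x k ∈ B} ≤ volume A * volume B ^ (d - 1) := by
  have hsub : {x : E d | x i ∈ A ∧ ∀ k, x k ∈ B} ⊆
      {x : E d | ∀ k, x k ∈ Function.update (fun _ : Fin d => B) i A k} := by
    intro x hx k
    by_cases hk : k = i
    · subst hk; simpa using hx.1
    · simpa [Function.update_of_ne hk] using hx.2 k
  refine (measure_mono hsub).trans (le_of_eq ?_)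
  rw [gridb_vol_pi]
  · rw [← Finset.mul_prod_erase _ _ (Finset.mem_univ i), Function.update_self]
    congr 1
    rw [Finset.prod_congr rfl (g := fun _ => volume B)]
    · simp
    · intro k hk
      rw [Function.update_of_ne (Finset.ne_of_mem_erase hk)]
  · intro k
    by_cases hk : k = i
    · subst hk; simpa using hA
    · simpa [Function.update_of_ne hk] using hB

theorem gridb_two {i k : Fin d} (hik : i ≠ k) {A A' B : Set ℝ} (hA : MeasurableSet A)
    (hA' : MeasurableSet A') (hB : MeasurableSet B) :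
    volume {x : E d | x i ∈ A ∧ x k ∈ A' ∧ ∀ l, x l ∈ B} ≤
      volume A * (volume A' * volume B ^ (d - 2)) := by
  have hsub : {x : E d | x i ∈ A ∧ x k ∈ A' ∧ ∀ l, x l ∈ B} ⊆
      {x : E d | ∀ l, x l ∈
        Function.update (Function.update (fun _ : Fin d => B) k A') i A l} := by
    intro x hx l
    by_cases hl : l = i
    · subst hl; simpa using hx.1
    · by_cases hl' : l = k
      · subst hl'; simpa [Function.update_of_ne hl] using hx.2.1
      · simpa [Function.update_of_ne hl, Function.update_of_ne hl'] using hx.2.2 l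
  refine (measure_mono hsub).trans (le_of_eq ?_)
  rw [gridb_vol_pi]
  · rw [← Finset.mul_prod_erase _ _ (Finset.mem_univ i), Function.update_self]
    congr 1
    have hk : k ∈ Finset.univ.erase i := Finset.mem_erase.2 ⟨hik.symm, Finset.mem_univ k⟩
    rw [← Finset.mul_prod_erase _ _ hk, Function.update_of_ne hik.symm, Function.update_self]
    congr 1
    rw [Finset.prod_congr rfl (g := fun _ => volume B)]
    · rw [Finset.prod_const, Finset.card_erase_of_mem hk,
        Finset.card_erase_of_mem (Finset.mem_univ i), Finset.card_univ, Fintype.card_fin]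
      congr 1
    · intro l hl
      rw [Function.update_of_ne (Finset.ne_of_mem_erase (Finset.mem_of_mem_erase hl)),
        Function.update_of_ne (Finset.ne_of_mem_erase hl)]
  · intro l
    by_cases hl : l = i
    · subst hl; simpa using hA
    · by_cases hl' : l = k
      · subst hl'; simpa [Function.update_of_ne hl] using hA'
      · simpa [Function.update_of_ne hl, Function.update_of_ne hl'] using hB

theorem gridb_meas_coord (i : Fin d) : Measurable fun x : E d => x i := by
  fun_prop

theorem measurableSet_ecube (L t : ℝ) : MeasurableSet (ecube L t : Set (E d)) := by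
  unfold ecube
  simp only [Set.ofPred_forall]
  refine MeasurableSet.iInter fun i => ?_
  exact (measurableSet_le measurable_const (gridb_meas_coord i)).inter
    (measurableSet_le (gridb_meas_coord i) measurable_const)

theorem volume_ecube {L t : ℝ} (h : 0 ≤ L + 2 * t) :
    volume (ecube L t : Set (E d)) = ENNReal.ofReal ((L + 2 * t) ^ d) := by
  have := gridb_vol_pi (d := d) (fun _ => Set.Icc (-t) (L + t)) fun _ => measurableSet_Icc
  rw [show (ecube L t : Set (E d)) = {x : E d | ∀ i, x i ∈ Set.Icc (-t) (L + t)} from rfl, this,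
    Finset.prod_const, Finset.card_univ, Fintype.card_fin, Real.volume_Icc,
    ENNReal.ofReal_pow h]
  congr 2
  ring

theorem gridb_ecube_fun {X : Type*} [MeasurableSpace X] (L : ℝ) {f : X → E d} {t : X → ℝ}
    (hf : Measurable f) (ht : Measurable t) : MeasurableSet {x | f x ∈ ecube L (t x)} := by
  change MeasurableSet {x | ∀ i, -t x ≤ f x i ∧ f x i ≤ L + t x}
  simp only [Set.ofPred_forall]
  refine MeasurableSet.iInter fun i => ?_
  have hi := (gridb_meas_coord i).comp hf
  exact (measurableSet_le ht.neg hi).inter (measurableSet_le hi (measurable_const.add ht))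

theorem measurableSet_Lay_fun {X : Type*} [MeasurableSpace X] (L : ℝ) {f : X → E d} {t : X → ℝ}
    (hf : Measurable f) (ht : Measurable t) : MeasurableSet {x | f x ∈ Lay L (t x)} := by
  unfold Lay
  simp only [Set.mem_ofPred_eq]
  refine (gridb_ecube_fun L hf ht).inter ?_
  change MeasurableSet {x | ∃ i, f x i ≤ t x ∨ L - t x ≤ f x i}
  simp only [Set.ofPred_exists]
  refine MeasurableSet.iUnion fun i => ?_
  have hi := (gridb_meas_coord i).comp hf
  exact (measurableSet_le hi ht).union (measurableSet_le (measurable_const.sub ht) hi)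

theorem measurableSet_ZL_fun {X : Type*} [MeasurableSpace X] (L : ℝ) (J : ℕ) (θ : ℝ)
    {f : X → E d} {t : X → ℝ} (hf : Measurable f) (ht : Measurable t) :
    MeasurableSet {x | f x ∈ ZL L (t x) J θ} := by
  unfold ZL
  simp only [Set.mem_ofPred_eq]
  refine (gridb_ecube_fun L hf ht).inter ?_
  change MeasurableSet {x | ∃ i k, i ≠ k ∧ (f x k ≤ t x ∨ L - t x ≤ f x k) ∧
    ∃ n : ℕ, 0 < n ∧ n < 2 ^ J ∧ |f x i - n * L / 2 ^ J| ≤ 3 * θ * L}
  simp only [Set.ofPred_exists]
  refine MeasurableSet.iUnion fun i => MeasurableSet.iUnion fun k => ?_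
  have hi := (gridb_meas_coord i).comp hf
  have hk := (gridb_meas_coord k).comp hf
  refine (MeasurableSet.const _).inter (MeasurableSet.inter
    ((measurableSet_le hk ht).union (measurableSet_le (measurable_const.sub ht) hk)) ?_)
  change MeasurableSet {x | ∃ n : ℕ, 0 < n ∧ n < 2 ^ J ∧ |f x i - n * L / 2 ^ J| ≤ 3 * θ * L}
  simp only [Set.ofPred_exists]
  refine MeasurableSet.iUnion fun n => (MeasurableSet.const _).inter
    ((MeasurableSet.const _).inter ?_)
  exact measurableSet_le ((hi.sub measurable_const).abs) measurable_const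

theorem gridb_thin {L t : ℝ} (ht : 0 ≤ t) :
    volume (Set.Icc (-t) t ∪ Set.Icc (L - t) (L + t)) ≤ ENNReal.ofReal (4 * t) := by
  refine (measure_union_le _ _).trans (le_of_eq ?_)
  rw [Real.volume_Icc, Real.volume_Icc, ← ENNReal.ofReal_add (by linarith) (by linarith)]
  congr 1
  ring

theorem gridb_thick {L t : ℝ} (htL : t ≤ L) :
    volume (Set.Icc (-t) (L + t)) ≤ ENNReal.ofReal (3 * L) := by
  rw [Real.volume_Icc]
  exact ENNReal.ofReal_le_ofReal (by linarith)

theorem volume_Lay_le {L t : ℝ} (ht : 0 ≤ t) (htL : t ≤ L) :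
    volume (Lay L t : Set (E d)) ≤ ENNReal.ofReal (4 * d * 3 ^ (d - 1) * t * L ^ (d - 1)) := by
  have hL : 0 ≤ L := ht.trans htL
  have hsub : (Lay L t : Set (E d)) ⊆ ⋃ i : Fin d,
      {x : E d | x i ∈ Set.Icc (-t) t ∪ Set.Icc (L - t) (L + t) ∧
        ∀ k, x k ∈ Set.Icc (-t) (L + t)} := by
    rintro x ⟨hx, i, hi⟩
    refine Set.mem_iUnion.2 ⟨i, ?_, fun k => hx k⟩
    rcases hi with hi | hi
    · exact Or.inl ⟨(hx i).1, hi⟩
    · exact Or.inr ⟨hi, (hx i).2⟩
  refine (measure_mono hsub).trans ((measure_iUnion_fintype_le _ _).trans ?_)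
  calc _ ≤ ∑ _i : Fin d, ENNReal.ofReal (4 * t) * ENNReal.ofReal (3 * L) ^ (d - 1) := by
        refine Finset.sum_le_sum fun i _ => ?_
        refine (gridb_one i (measurableSet_Icc.union measurableSet_Icc)
          measurableSet_Icc).trans ?_
        exact mul_le_mul' (gridb_thin ht) (pow_le_pow_left' (gridb_thick htL) _)
    _ = _ := by
        rw [Finset.sum_const, Finset.card_univ, Fintype.card_fin, nsmul_eq_mul,
          ← ENNReal.ofReal_pow (by positivity), ← ENNReal.ofReal_mul (by positivity),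
          ← ENNReal.ofReal_natCast, ← ENNReal.ofReal_mul (by positivity)]
        congr 1
        rw [mul_pow]
        ring

theorem gridb_hyp {L θ : ℝ} (hL : 0 ≤ L) (hθ : 0 ≤ θ) (J : ℕ) :
    volume (⋃ n ∈ Finset.range (2 ^ J),
      Set.Icc ((n : ℝ) * L / 2 ^ J - 3 * θ * L) ((n : ℝ) * L / 2 ^ J + 3 * θ * L)) ≤
      ENNReal.ofReal (2 ^ J * (6 * θ * L)) := by
  refine (measure_biUnion_finset_le _ _).trans (le_of_eq ?_)
  rw [Finset.sum_congr rfl (g := fun _ => ENNReal.ofReal (6 * θ * L))]
  · rw [Finset.sum_const, Finset.card_range, nsmul_eq_mul, ← ENNReal.ofReal_natCast,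
      ← ENNReal.ofReal_mul (by positivity)]
    congr 1
    push_cast
    ring
  · intro n _
    rw [Real.volume_Icc]
    congr 1
    ring

theorem volume_ZL_le (hd : 2 ≤ d) {L t θ : ℝ} (ht : 0 ≤ t) (htL : t ≤ L) (hθ : 0 ≤ θ) (J : ℕ) :
    volume (ZL L t J θ : Set (E d)) ≤
      ENNReal.ofReal (24 * d ^ 2 * 3 ^ (d - 2) * 2 ^ J * θ * t * L ^ (d - 1)) := by
  have hL : 0 ≤ L := ht.trans htL
  set A : Set ℝ := ⋃ n ∈ Finset.range (2 ^ J),
      Set.Icc ((n : ℝ) * L / 2 ^ J - 3 * θ * L) ((n : ℝ) * L / 2 ^ J + 3 * θ * L) with hA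
  have hAm : MeasurableSet A := Finset.measurableSet_biUnion _ fun _ _ => measurableSet_Icc
  have hsub : (ZL L t J θ : Set (E d)) ⊆ ⋃ ik : Fin d × Fin d,
      {x : E d | ik.1 ≠ ik.2 ∧ (x ik.1 ∈ A ∧ x ik.2 ∈ Set.Icc (-t) t ∪ Set.Icc (L - t) (L + t) ∧
        ∀ l, x l ∈ Set.Icc (-t) (L + t))} := by
    rintro x ⟨hx, i, k, hik, hk, n, _, hn, hi⟩
    refine Set.mem_iUnion.2 ⟨(i, k), hik, ?_, ?_, fun l => hx l⟩
    · rw [hA]
      simp only [Set.mem_iUnion]
      refine ⟨n, Finset.mem_range.2 hn, ?_⟩
      have := abs_le.1 hi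
      exact ⟨by linarith [this.1], by linarith [this.2]⟩
    · rcases hk with hk | hk
      · exact Or.inl ⟨(hx k).1, hk⟩
      · exact Or.inr ⟨hk, (hx k).2⟩
  refine (measure_mono hsub).trans ((measure_iUnion_fintype_le _ _).trans ?_)
  calc _ ≤ ∑ _ik : Fin d × Fin d, ENNReal.ofReal (2 ^ J * (6 * θ * L)) *
          (ENNReal.ofReal (4 * t) * ENNReal.ofReal (3 * L) ^ (d - 2)) := by
        refine Finset.sum_le_sum fun ik _ => ?_
        by_cases hik : ik.1 = ik.2
        · simp [hik]
        · refine le_trans (measure_mono fun x hx => hx.2) ?_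
          refine (gridb_two hik hAm (measurableSet_Icc.union measurableSet_Icc)
            measurableSet_Icc).trans ?_
          exact mul_le_mul' (gridb_hyp hL hθ J)
            (mul_le_mul' (gridb_thin ht) (pow_le_pow_left' (gridb_thick htL) _))
    _ = _ := by
        rw [Finset.sum_const, Finset.card_univ, Fintype.card_prod, Fintype.card_fin, nsmul_eq_mul,
          ← ENNReal.ofReal_pow (by positivity), ← ENNReal.ofReal_mul (by positivity),
          ← ENNReal.ofReal_mul (by positivity),
          ← ENNReal.ofReal_natCast, ← ENNReal.ofReal_mul (by positivity)]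
        congr 1
        obtain ⟨e, rfl⟩ := Nat.exists_eq_add_of_le' hd
        rw [show e + 2 - 1 = e + 1 by omega, show e + 2 - 2 = e by omega, mul_pow]
        push_cast
        ring

/-- part of a cube within depth `t` of the boundary of the big cube -/
theorem volume_cube_sdiff_shift {L : ℝ} (hL : 0 < L) (v : E d) :
    volume {u : E d | u ∈ cube 0 L ∧ u - v ∉ cube 0 L} ≤
      ENNReal.ofReal (L ^ d * min 1 (d * ‖v‖ / L)) := by
  rcases le_total 1 (d * ‖v‖ / L) with h | h
  · rw [min_eq_left h, mul_one, ← volume_cube (0 : E d) hL.le]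
    exact measure_mono fun u hu => hu.1
  rw [min_eq_right h]
  have hsub : {u : E d | u ∈ cube 0 L ∧ u - v ∉ cube 0 L} ⊆ ⋃ i : Fin d,
      {x : E d | x i ∈ Set.Ico 0 (v i) ∪ Set.Ico (L + v i) L ∧ ∀ k, x k ∈ Set.Ico 0 L} := by
    rintro x ⟨hx, hv⟩
    have hx' : ∀ k, x k ∈ Set.Ico 0 L := fun k => by simpa using hx k
    unfold cube at hv
    simp only [Set.mem_ofPred_eq, not_forall] at hv
    obtain ⟨i, hi⟩ := hv
    refine Set.mem_iUnion.2 ⟨i, ?_, hx'⟩
    simp only [PiLp.zero_apply, PiLp.sub_apply, zero_add, not_and_or, not_le, not_lt] at hi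
    rcases hi with hi | hi
    · exact Or.inl ⟨(hx' i).1, by linarith⟩
    · exact Or.inr ⟨by linarith, (hx' i).2⟩
  refine (measure_mono hsub).trans ((measure_iUnion_fintype_le _ _).trans ?_)
  calc _ ≤ ∑ _i : Fin d, ENNReal.ofReal ‖v‖ * ENNReal.ofReal L ^ (d - 1) := by
        refine Finset.sum_le_sum fun i _ => ?_
        refine (gridb_one i (measurableSet_Ico.union measurableSet_Ico)
          measurableSet_Ico).trans ?_
        refine mul_le_mul' ?_ (by rw [Real.volume_Ico, sub_zero])
        refine (measure_union_le _ _).trans ?_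
        rw [Real.volume_Ico, Real.volume_Ico]
        have habs := abs_le.1 (abs_coord_le_norm v i)
        rcases le_total 0 (v i) with h0 | h0
        · rw [ENNReal.ofReal_of_nonpos (by linarith : L - (L + v i) ≤ 0), add_zero]
          exact ENNReal.ofReal_le_ofReal (by linarith [habs.2])
        · rw [ENNReal.ofReal_of_nonpos (by linarith : v i - 0 ≤ 0), zero_add]
          exact ENNReal.ofReal_le_ofReal (by linarith [habs.1])
    _ = _ := by
        rw [Finset.sum_const, Finset.card_univ, Fintype.card_fin, nsmul_eq_mul,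
          ← ENNReal.ofReal_pow hL.le, ← ENNReal.ofReal_mul (by positivity),
          ← ENNReal.ofReal_natCast, ← ENNReal.ofReal_mul (by positivity)]
        congr 1
        rcases Nat.eq_zero_or_pos d with rfl | hd
        · simp
        · obtain ⟨e, rfl⟩ := Nat.exists_eq_add_of_le' hd
          rw [show e + 1 - 1 = e by omega]
          field_simp
          ring

end Pool.Agent.Lib.MP_fe8b6f_pr
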