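import Pool.Agent.Lib.MP_fe8b6f_pr.BMb

/-! Hitting probabilities are bounded by expected occupation times. Part 1. -/

open MeasureTheory ProbabilityTheory
open scoped NNReal ENNReal

noncomputable section

namespace Pool.Agent.Lib.MP_fe8b6f_pr

variable {d : ℕ}

theorem isClosed_hitS_Icc {K : Set (E d)} (hK : IsClosed K) (a b : ℝ) :
    IsClosed (hitS K (Set.Icc a b)) := by
  have hc : Continuous fun z : (E d × Path d) × Set.Icc a b =>
      z.1.1 + z.1.2 (z.2 : ℝ).toNNReal := by
    refine continuous_fst.fst.add (Continuous.eval continuous_fst.snd ?_)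
    exact continuous_real_toNNReal.comp (continuous_subtype_val.comp continuous_snd)
  have h := isClosedMap_fst_of_compactSpace _ (hK.preimage hc)
  convert h using 1
  ext q
  constructor
  · rintro ⟨t, ht, hq⟩
    exact ⟨(q, ⟨t, ht⟩), hq, rfl⟩
  · rintro ⟨⟨q', t⟩, hq, rfl⟩
    exact ⟨t, t.2, hq⟩

theorem measurableSet_hitS_Ici {K : Set (E d)} (hK : IsClosed K) (a : ℝ) :
    MeasurableSet (hitS K (Set.Ici a)) := by
  have e : hitS K (Set.Ici a) = ⋃ n : ℕ, hitS K (Set.Icc a (a + n)) := by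
    ext q
    simp only [Set.mem_iUnion]
    constructor
    · rintro ⟨t, ht, hq⟩
      obtain ⟨n, hn⟩ := exists_nat_ge (t - a)
      exact ⟨n, t, ⟨ht, by linarith⟩, hq⟩
    · rintro ⟨n, t, ht, hq⟩
      exact ⟨t, ht.1, hq⟩
  rw [e]
  exact MeasurableSet.iUnion fun n => (isClosed_hitS_Icc hK _ _).measurableSet

theorem hitS_mono {K K' : Set (E d)} {I I' : Set ℝ} (hK : K ⊆ K') (hI : I ⊆ I') :
    hitS K I ⊆ hitS K' I' := by
  rintro q ⟨t, ht, hq⟩
  exact ⟨t, hI ht, hK hq⟩

theorem ho1_cont (x : E d) (w : Path d) : Continuous fun t : ℝ => x + w t.toNNReal :=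
  continuous_const.add (w.continuous.comp continuous_real_toNNReal)

theorem ho1_occ_apply (x : E d) (w : Path d) (I : Set ℝ) {A : Set (E d)} (hA : MeasurableSet A) :
    occ x w I A = volume.restrict I {t : ℝ | x + w t.toNNReal ∈ A} := by
  rw [occ, Measure.map_apply (ho1_cont x w).measurable hA]
  rfl

theorem ho1_meas (I : Set ℝ) {A : Set (E d)} (hA : MeasurableSet A) :
    Measurable fun q : E d × Path d => occ q.1 q.2 I A :=
  (Measure.measurable_coe hA).comp measurable_occ

/-- time spent near the starting point -/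
def ho1_g (w : Path d) : ℝ≥0∞ := occ 0 w (Set.Icc 0 1) (Metric.ball 0 (1 / 2))

theorem ho1_g_meas : Measurable (ho1_g : Path d → ℝ≥0∞) :=
  (ho1_meas (Set.Icc 0 1) measurableSet_ball).comp (measurable_prodMk_left (x := (0 : E d)))

theorem ho1_g_ne {w : Path d} (hw : w 0 = 0) : ho1_g w ≠ 0 := by
  rw [ho1_g, ho1_occ_apply _ _ _ measurableSet_ball]
  have ho : IsOpen {t : ℝ | (0 : E d) + w t.toNNReal ∈ Metric.ball (0 : E d) (1 / 2)} :=
    Metric.isOpen_ball.preimage (ho1_cont 0 w)
  obtain ⟨δ, hδ, hsub⟩ := Metric.isOpen_iff.1 ho 0 (by simp [hw])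
  rw [Measure.restrict_apply ho.measurableSet]
  refine ne_of_gt (lt_of_lt_of_le ?_ (measure_mono (s := Set.Ico 0 (min δ 1)) ?_))
  · rw [Real.volume_Ico]
    simpa using hδ
  · intro t ht
    have h1 := ht.2.trans_le (min_le_left _ _)
    have h2 := ht.2.trans_le (min_le_right _ _)
    refine ⟨hsub ?_, ht.1, h2.le⟩
    rw [mem_ball_zero_iff, Real.norm_eq_abs, abs_of_nonneg ht.1]
    exact h1

theorem ho1_c_ne {W : Measure (Path d)} (hW : IsWiener W) : ∫⁻ w, ho1_g w ∂W ≠ 0 := by
  have := hW.isProbabilityMeasure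
  intro h
  rw [lintegral_eq_zero_iff ho1_g_meas] at h
  obtain ⟨w, h1, h2⟩ := (h.and hW.ae_zero).exists
  exact ho1_g_ne h2 h1

theorem ho1_g_le (K : Set (E d)) (x : E d) (w : Path d) (t : ℝ≥0) {J : Set ℝ}
    (hJ : Set.Icc (t : ℝ) (t + 1) ⊆ J) (hx : x + w t ∈ Metric.thickening (1 / 2) K) :
    ho1_g (shift t w) ≤ occ x w J (Metric.thickening 1 K) := by
  have hV : MeasurableSet (Metric.thickening 1 K) := Metric.isOpen_thickening.measurableSet
  calc ho1_g (shift t w) ≤ occ (x + w t) (shift t w) (Set.Icc 0 1) (Metric.thickening 1 K) := by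
        rw [ho1_g, ho1_occ_apply _ _ _ measurableSet_ball, ho1_occ_apply _ _ _ hV]
        refine measure_mono fun s hs => ?_
        obtain ⟨z, hz, hd⟩ := Metric.mem_thickening_iff.1 hx
        refine Metric.mem_thickening_iff.2 ⟨z, hz, ?_⟩
        have h1 : ‖shift t w s.toNNReal‖ < 1 / 2 := by simpa using hs
        have h2 := dist_triangle (x + w t + shift t w s.toNNReal) (x + w t) z
        rw [dist_self_add_left] at h2
        linarith
    _ = occ x w ((fun s => s - (t : ℝ)) ⁻¹' Set.Icc 0 1) (Metric.thickening 1 K) := by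
        rw [occ_shift x w t measurableSet_Icc fun s hs => hs.1]
    _ ≤ _ := by
        refine Measure.le_iff'.1 (occ_mono x w fun s hs => hJ ?_) _
        exact ⟨by linarith [hs.1], by linarith [hs.2]⟩

theorem ho1_fin {W : Measure (Path d)} (hW : IsWiener W) (K : Set (E d)) (x : E d)
    (F : Finset ℝ≥0) {J : Set ℝ} (hJ : ∀ t ∈ F, Set.Icc (t : ℝ) (t + 1) ⊆ J) :
    (∫⁻ w, ho1_g w ∂W) * W {w | ∃ t ∈ F, x + w t ∈ Metric.thickening (1 / 2) K} ≤
      ∫⁻ w, occ x w J (Metric.thickening 1 K) ∂W := by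
  classical
  set U := Metric.thickening (1 / 2) K with hU
  have hUm : MeasurableSet U := Metric.isOpen_thickening.measurableSet
  have hB : ∀ t : ℝ≥0, MeasurableSet {w : Path d | x + w t ∈ U} := fun t =>
    (measurable_const.add (measurable_ev t)) hUm
  set A : ℝ≥0 → Set (Path d) := fun t =>
    {w | x + w t ∈ U} ∩ ⋂ s ∈ F.filter (· < t), {w | x + w s ∈ U}ᶜ with hA
  have hAm : ∀ t, MeasurableSet (A t) := fun t =>
    (hB t).inter (Finset.measurableSet_biInter _ fun s _ => (hB s).compl)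
  have hmem : ∀ t w, w ∈ A t ↔ x + w t ∈ U ∧ ∀ s ∈ F, s < t → x + w s ∉ U := by
    intro t w
    simp [hA]
  have hcov : {w : Path d | ∃ t ∈ F, x + w t ∈ U} ⊆ ⋃ t ∈ F, A t := by
    rintro w ⟨t, ht, hw⟩
    obtain ⟨m, hm, hmin⟩ := (F.filter fun s => x + w s ∈ U).exists_min_image id
      ⟨t, Finset.mem_filter.2 ⟨ht, hw⟩⟩
    rw [Finset.mem_filter] at hm
    refine Set.mem_biUnion (Finset.mem_coe.2 hm.1) ((hmem m w).2 ⟨hm.2, fun s hs hlt h => ?_⟩)
    exact absurd (hmin s (Finset.mem_filter.2 ⟨hs, h⟩)) (not_le.2 hlt)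
  have hstop : ∀ t w, stop t w ∈ A t ↔ w ∈ A t := by
    intro t w
    rw [hmem, hmem, stop_apply, min_self]
    refine and_congr_right fun _ => forall_congr' fun s => forall_congr' fun _ =>
      forall_congr' fun hlt => ?_
    rw [stop_apply, min_eq_left hlt.le]
  have hone : ∀ t, (∫⁻ w, ho1_g w ∂W) * W (A t) =
      ∫⁻ w, (A t).indicator (fun w => ho1_g (shift t w)) w ∂W := by
    intro t
    have hΦ : Measurable fun z : Path d × Path d =>
        (A t).indicator (1 : Path d → ℝ≥0∞) z.1 * ho1_g z.2 :=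
      ((measurable_one.indicator (hAm t)).comp measurable_fst).mul
        (ho1_g_meas.comp measurable_snd)
    have hi : ∀ w, (A t).indicator (1 : Path d → ℝ≥0∞) (stop t w) =
        (A t).indicator (1 : Path d → ℝ≥0∞) w := by
      intro w
      by_cases hw : w ∈ A t
      · rw [Set.indicator_of_mem hw, Set.indicator_of_mem ((hstop t w).2 hw)]
        rfl
      · rw [Set.indicator_of_notMem hw, Set.indicator_of_notMem (fun h => hw ((hstop t w).1 h))]
    have h := hW.markov t hΦ
    simp only [hi] at h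
    simp only [lintegral_const_mul _ ho1_g_meas] at h
    rw [lintegral_mul_const _ (measurable_one.indicator (hAm t)),
      lintegral_indicator_one (hAm t), mul_comm] at h
    rw [← h]
    refine lintegral_congr fun w => ?_
    by_cases hw : w ∈ A t <;> simp [hw]
  have hgm : ∀ t, Measurable ((A t).indicator fun w : Path d => ho1_g (shift t w)) := fun t =>
    (ho1_g_meas.comp (continuous_shift.comp (Continuous.prodMk_right t)).measurable).indicator
      (hAm t)
  calc (∫⁻ w, ho1_g w ∂W) * W {w | ∃ t ∈ F, x + w t ∈ U}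
      ≤ (∫⁻ w, ho1_g w ∂W) * ∑ t ∈ F, W (A t) := by
        gcongr
        exact (measure_mono hcov).trans (measure_biUnion_finset_le _ _)
    _ = ∫⁻ w, ∑ t ∈ F, (A t).indicator (fun w => ho1_g (shift t w)) w ∂W := by
        rw [Finset.mul_sum, lintegral_finsetSum _ fun t _ => hgm t]
        exact Finset.sum_congr rfl fun t _ => hone t
    _ ≤ _ := by
        refine lintegral_mono fun w => ?_
        by_cases hex : ∃ t ∈ F, w ∈ A t
        · obtain ⟨t, ht, hw⟩ := hex
          rw [Finset.sum_eq_single_of_mem t ht, Set.indicator_of_mem hw]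
          · exact ho1_g_le K x w t (hJ t ht) ((hmem t w).1 hw).1
          · intro s hs hne
            refine Set.indicator_of_notMem (fun hs' => ?_) _
            rcases lt_or_gt_of_ne hne with h | h
            · exact ((hmem t w).1 hw).2 s hs h ((hmem s w).1 hs').1
            · exact ((hmem s w).1 hs').2 t ht h ((hmem t w).1 hw).1
        · rw [Finset.sum_eq_zero fun t ht => Set.indicator_of_notMem (fun h => hex ⟨t, ht, h⟩) _]
          exact zero_le

theorem ho1_main {W : Measure (Path d)} (hW : IsWiener W) (ι : Measure (E d)) (K : Set (E d))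
    {I J : Set ℝ} (hI : I ⊆ Set.Ici 0) (hJ : ∀ t ∈ I, Set.Icc t (t + 1) ⊆ J) :
    (∫⁻ w, ho1_g w ∂W) * (ι.prod W) (hitS K I) ≤
      ∫⁻ q, occ q.1 q.2 J (Metric.thickening 1 K) ∂(ι.prod W) := by
  classical
  have := hW.isProbabilityMeasure
  have hUm : MeasurableSet (Metric.thickening (1 / 2) K) := Metric.isOpen_thickening.measurableSet
  have hV : MeasurableSet (Metric.thickening 1 K) := Metric.isOpen_thickening.measurableSet
  obtain ⟨D, hDI, hDc, hcl⟩ := (TopologicalSpace.IsSeparable.of_separableSpace I).exists_countable_dense_subset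
  have := hDc.to_subtype
  set B : Finset D → Set (E d × Path d) := fun F =>
    {q | ∃ t ∈ F.image fun s : D => (s : ℝ).toNNReal, q.1 + q.2 t ∈ Metric.thickening (1 / 2) K}
    with hB
  have hBm : ∀ F, MeasurableSet (B F) := by
    intro F
    have e : B F = ⋃ t ∈ F.image fun s : D => (s : ℝ).toNNReal,
        {q : E d × Path d | q.1 + q.2 t ∈ Metric.thickening (1 / 2) K} := by
      ext q; simp only [hB, Set.mem_ofPred_eq, Set.mem_iUnion, exists_prop]
    rw [e]
    exact Finset.measurableSet_biUnion _ fun t _ =>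
      (measurable_fst.add ((measurable_ev t).comp measurable_snd)) hUm
  have hcov : hitS K I ⊆ ⋃ F, B F := by
    rintro q ⟨t, ht, hq⟩
    have ho : IsOpen {s : ℝ | q.1 + q.2 s.toNNReal ∈ Metric.thickening (1 / 2) K} :=
      Metric.isOpen_thickening.preimage (ho1_cont q.1 q.2)
    obtain ⟨s, hs, hsD⟩ := mem_closure_iff.1 (hcl ht) _ ho
      (Metric.self_subset_thickening (by norm_num) K hq)
    exact Set.mem_iUnion.2 ⟨{⟨s, hsD⟩}, s.toNNReal, by simp, hs⟩
  have hdir : Directed (· ⊆ ·) B := by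
    refine Monotone.directed_le fun F G hFG => ?_
    rintro q ⟨t, ht, hq⟩
    exact ⟨t, Finset.image_subset_image hFG ht, hq⟩
  calc (∫⁻ w, ho1_g w ∂W) * (ι.prod W) (hitS K I)
      ≤ (∫⁻ w, ho1_g w ∂W) * ⨆ F, (ι.prod W) (B F) := by
        rw [← hdir.measure_iUnion]
        gcongr
    _ ≤ _ := by
        rw [ENNReal.mul_iSup]
        refine iSup_le fun F => ?_
        rw [Measure.prod_apply (hBm F), ← lintegral_const_mul _
          (measurable_measure_prodMk_left (hBm F)), lintegral_prod _ (ho1_meas J hV).aemeasurable]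
        refine lintegral_mono fun x => ho1_fin hW K x _ fun t ht => ?_
        obtain ⟨s, -, rfl⟩ := Finset.mem_image.1 ht
        rw [Real.coe_toNNReal _ (hI (hDI s.2))]
        exact hJ _ (hDI s.2)

/-- decompose along the first dyadic time in the half-neighbourhood of `K` -/
theorem IsWiener.hit_le_occ {W : Measure (Path d)} (hW : IsWiener W) :
    ∃ C : ℝ≥0, (∀ (ι : Measure (E d)) (K : Set (E d)) (a b : ℝ), SFinite ι → 0 ≤ a →
      (ι.prod W) (hitS K (Set.Icc a b)) ≤
        C * ∫⁻ q, occ q.1 q.2 (Set.Icc a (b + 1)) (Metric.thickening 1 K) ∂(ι.prod W)) ∧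
      (∀ (ι : Measure (E d)) (K : Set (E d)) (a : ℝ), SFinite ι → 0 ≤ a →
      (ι.prod W) (hitS K (Set.Ici a)) ≤
        C * ∫⁻ q, occ q.1 q.2 (Set.Ici a) (Metric.thickening 1 K) ∂(ι.prod W)) := by
  set c := min (∫⁻ w, ho1_g w ∂W) 1 with hc
  have hc0 : c ≠ 0 := (lt_min (pos_iff_ne_zero.2 (ho1_c_ne hW)) one_pos).ne'
  have hc1 : c ≠ ⊤ := ((min_le_right _ _).trans_lt ENNReal.one_lt_top).ne
  have key : ∀ u R : ℝ≥0∞, (∫⁻ w, ho1_g w ∂W) * u ≤ R → u ≤ (c⁻¹.toNNReal : ℝ≥0∞) * R := by
    intro u R h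
    rw [ENNReal.coe_toNNReal (ENNReal.inv_ne_top.2 hc0)]
    calc u = c⁻¹ * (c * u) := by rw [← mul_assoc, ENNReal.inv_mul_cancel hc0 hc1, one_mul]
      _ ≤ c⁻¹ * R := by
        gcongr
        exact le_trans (by gcongr; exact min_le_left _ _) h
  refine ⟨c⁻¹.toNNReal, fun ι K a b _ ha => key _ _ (ho1_main hW ι K ?_ ?_),
    fun ι K a _ ha => key _ _ (ho1_main hW ι K ?_ ?_)⟩
  · exact fun t ht => ha.trans ht.1
  · exact fun t ht s hs => ⟨ht.1.trans hs.1, by linarith [ht.2, hs.2]⟩
  · exact fun t ht => ha.trans ht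
  · exact fun t ht s hs => le_trans ht hs.1

end Pool.Agent.Lib.MP_fe8b6f_pr
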