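import Pool.Agent.Lib.MP_fe8b6f_pr.Defs

/-! The uniform measure on a sphere. -/

open MeasureTheory ProbabilityTheory
open scoped NNReal ENNReal

noncomputable section

namespace Pool.Agent.Lib.MP_fe8b6f_pr

variable {d : ℕ}

theorem sph_meas (R : ℝ) : Measurable fun x : E d => (R / ‖x‖) • x := by fun_prop

theorem isProbabilityMeasure_sphereUnif (R : ℝ) : IsProbabilityMeasure (sphereUnif d R) := by
  constructor
  unfold sphereUnif
  rw [Measure.map_apply (sph_meas R) MeasurableSet.univ]
  simp only [Set.preimage_univ, Measure.smul_apply, Measure.restrict_apply_univ, smul_eq_mul]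
  exact ENNReal.inv_mul_cancel (Metric.measure_ball_pos _ _ one_pos).ne' measure_ball_lt_top.ne

theorem sphereUnif_compl (hd : 1 ≤ d) {R : ℝ} (hR : 0 < R) :
    sphereUnif d R (Metric.sphere 0 R)ᶜ = 0 := by
  haveI : Nonempty (Fin d) := ⟨⟨0, hd⟩⟩
  unfold sphereUnif
  rw [Measure.map_apply (sph_meas R) Metric.isClosed_sphere.measurableSet.compl]
  have h : (fun x : E d => (R / ‖x‖) • x) ⁻¹' (Metric.sphere 0 R)ᶜ ⊆ {0} := by
    intro x hx
    by_contra h0
    have h1 : ‖x‖ ≠ 0 := by simpa using h0
    apply hx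
    rw [mem_sphere_zero_iff_norm, norm_smul, norm_div, norm_norm, Real.norm_of_nonneg hR.le]
    field_simp
  refine measure_mono_null h ?_
  simp

theorem sphereUnif_map_isometry (R : ℝ) (O : E d ≃ₗᵢ[ℝ] E d) :
    (sphereUnif d R).map O = sphereUnif d R := by
  have hO : Measurable O := O.continuous.measurable
  have h1 : (volume.restrict (Metric.ball (0 : E d) 1)).map O =
      volume.restrict (Metric.ball (0 : E d) 1) := by
    have h2 : Metric.ball (0 : E d) 1 = O ⁻¹' Metric.ball 0 1 := by
      ext x; simp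
    conv_lhs => rw [h2]
    rw [← Measure.restrict_map hO measurableSet_ball, O.measurePreserving.map_eq]
  unfold sphereUnif
  conv_rhs => rw [← h1]
  rw [← Measure.map_smul, Measure.map_map hO (sph_meas R), Measure.map_map (sph_meas R) hO]
  congr 1
  ext1 x
  simp

theorem sphereUnif_map_smul (c R : ℝ) :
    (sphereUnif d R).map (fun x => c • x) = sphereUnif d (c * R) := by
  unfold sphereUnif
  rw [Measure.map_map (by fun_prop) (sph_meas R)]
  congr 1
  ext1 x
  simp [smul_smul, mul_div_assoc]

theorem sph_charFun_eq (m : Measure (E d)) (hinv : ∀ O : E d ≃ₗᵢ[ℝ] E d, m.map O = m)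
    {s t : E d} (h : ‖s‖ = ‖t‖) : charFun m s = charFun m t := by
  set O : E d ≃ₗᵢ[ℝ] E d := (Submodule.span ℝ {s - t})ᗮ.reflection
  have hO : O s = t := Submodule.reflection_sub h
  conv_rhs => rw [← hinv O]
  rw [charFun_apply, charFun_apply,
    integral_map O.continuous.measurable.aemeasurable (by fun_prop)]
  congr 1
  ext x
  rw [← hO, O.inner_map_map]

theorem sph_avg {R : ℝ} (hR : 0 < R) (m σ : Measure (E d))
    (hs : σ (Metric.sphere 0 R)ᶜ = 0) (hinv : ∀ O : E d ≃ₗᵢ[ℝ] E d, m.map O = m) (t : E d) :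
    ∫ y, ∫ x, Complex.exp ((‖t‖ / R * inner ℝ x y : ℝ) * Complex.I) ∂m ∂σ =
      σ.real Set.univ • charFun m t := by
  rw [← integral_const]
  apply integral_congr_ae
  have h : ∀ᵐ y ∂σ, y ∈ Metric.sphere (0 : E d) R := hs
  filter_upwards [h] with y hy
  have h1 : ‖(‖t‖ / R) • y‖ = ‖t‖ := by
    rw [norm_smul, mem_sphere_zero_iff_norm.1 hy, norm_div, norm_norm,
      Real.norm_of_nonneg hR.le]
    field_simp
  rw [← sph_charFun_eq m hinv h1, charFun_apply]
  simp only [inner_smul_right]

/-- uniqueness of the rotation invariant measure (Christensen's averaging argument) -/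
theorem eq_smul_sphereUnif (hd : 1 ≤ d) {R : ℝ} (hR : 0 < R) (m : Measure (E d))
    [IsFiniteMeasure m] (hs : m (Metric.sphere 0 R)ᶜ = 0)
    (hinv : ∀ O : E d ≃ₗᵢ[ℝ] E d, m.map O = m) : m = m Set.univ • sphereUnif d R := by
  haveI := isProbabilityMeasure_sphereUnif (d := d) R
  haveI : IsFiniteMeasure (m Set.univ • sphereUnif d R) := by
    constructor
    simp
  apply Measure.ext_of_charFun
  ext t
  have h1 := sph_avg hR m (sphereUnif d R) (sphereUnif_compl hd hR) hinv t
  have h2 := sph_avg hR (sphereUnif d R) m hs (sphereUnif_map_isometry R) t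
  rw [integral_integral_swap] at h1
  · simp only [probReal_univ, one_smul] at h1
    rw [← h1, charFun_apply, integral_smul_measure, ← charFun_apply]
    rw [← measureReal_def, ← h2]
    simp only [real_inner_comm]
  · refine Integrable.of_bound (by fun_prop) 1 (Filter.Eventually.of_forall fun p => ?_)
    exact (Complex.norm_exp_ofReal_mul_I _).le

end Pool.Agent.Lib.MP_fe8b6f_pr
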