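import Pool.Agent.Lib.MP_fe8b6f_pr.SM
import Pool.Agent.Lib.MP_fe8b6f_pr.Sph

/-! Identification of the interlacement intensity as a limit of Lebesgue started paths. Part 1. -/

open MeasureTheory ProbabilityTheory
open scoped NNReal ENNReal

noncomputable section

namespace Pool.Agent.Lib.MP_fe8b6f_pr

variable {d : ℕ}

theorem idA_sphere {R τ : ℝ} {q : E d × Path d} (h1 : q.1 ∉ Metric.closedBall (0 : E d) R)
    (h2 : q.2 0 = 0) (h3 : q ∈ hitS (Metric.closedBall 0 R) (Set.Icc 0 τ)) :
    q.1 + q.2 (ht (Metric.closedBall 0 R) q) ∈ Metric.sphere (0 : E d) R := by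
  have h4 := (ht_mem Metric.isClosed_closedBall h3).1
  have h5 : ht (Metric.closedBall 0 R) q ≠ 0 := by
    intro h
    rw [h, h2, add_zero] at h4
    exact h1 h4
  have hc : IsClosed {t : ℝ≥0 | R ≤ ‖q.1 + q.2 t‖} :=
    isClosed_le continuous_const (continuous_const.add q.2.continuous).norm
  have h6 : Set.Iio (ht (Metric.closedBall 0 R) q) ⊆ {t : ℝ≥0 | R ≤ ‖q.1 + q.2 t‖} := by
    intro t ht'
    have := not_mem_of_lt_ht (K := Metric.closedBall 0 R) (q := q) ht'
    rw [mem_closedBall_zero_iff, not_le] at this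
    exact this.le
  have h7 : ht (Metric.closedBall 0 R) q ∈ closure (Set.Iio (ht (Metric.closedBall 0 R) q)) := by
    rw [closure_Iio' ⟨0, pos_iff_ne_zero.2 h5⟩]
    exact Set.mem_Iic.2 le_rfl
  have h8 := hc.closure_subset_iff.2 h6 h7
  rw [mem_sphere_zero_iff_norm]
  exact le_antisymm (mem_closedBall_zero_iff.1 h4) h8

/-- exact first-entrance decomposition: paths started from Lebesgue measure outside the ball
enter it at a uniform point, independently of the entrance time in the sense below -/
theorem IsWiener.entrance {W : Measure (Path d)} (hW : IsWiener W) (hd : 3 ≤ d) {R : ℝ}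
    (hR : 0 < R) (τ : ℝ) {f : E d → ℝ≥0∞} (hf : Measurable f) :
    ∫⁻ q in hitS (Metric.closedBall 0 R) (Set.Icc 0 τ),
        f (q.1 + q.2 (ht (Metric.closedBall 0 R) q))
        ∂((volume.restrict (Metric.closedBall (0 : E d) R)ᶜ).prod W) =
      ((volume.restrict (Metric.closedBall (0 : E d) R)ᶜ).prod W)
          (hitS (Metric.closedBall 0 R) (Set.Icc 0 τ)) *
        ∫⁻ y, f y ∂(sphereUnif d R) := by
  have := hW.isProbabilityMeasure
  set K : Set (E d) := Metric.closedBall 0 R with hKdef
  have hK : IsClosed K := Metric.isClosed_closedBall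
  set μ0 : Measure (E d × Path d) := (volume.restrict Kᶜ).prod W with hμ0
  set S := hitS K (Set.Icc 0 τ) with hS
  have hSm : MeasurableSet S := (isClosed_hitS_Icc hK 0 τ).measurableSet
  set g : E d × Path d → E d := fun q => q.1 + q.2 (ht K q) with hg
  have hgm : Measurable g :=
    measurable_fst.add (measurable_path_eval.comp (measurable_snd.prodMk (measurable_ht hK)))
  have hμ0' : μ0 = ((volume : Measure (E d)).prod W).restrict (Kᶜ ×ˢ Set.univ) := by
    rw [hμ0, Measure.restrict_prod_eq_prod_univ]
  set m : Measure (E d) := (μ0.restrict S).map g with hm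
  have hmu : m Set.univ = μ0 S := by
    rw [hm, Measure.map_apply hgm MeasurableSet.univ, Set.preimage_univ,
      Measure.restrict_apply_univ]
  have hfin : IsFiniteMeasure m := by
    refine ⟨?_⟩
    rw [hmu]
    rcases lt_or_ge τ 0 with hτ | hτ
    · have : S = ∅ := by
        rw [hS, Set.Icc_eq_empty_of_lt hτ]
        simp [hitS]
      rw [this, measure_empty]
      exact ENNReal.zero_lt_top
    · obtain ⟨C, hC, -⟩ := hW.hit_bounds hd
      have h1 : μ0 S ≤ ((volume : Measure (E d)).prod W) S := by
        rw [hμ0']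
        exact Measure.restrict_le_self S
      refine (h1.trans (hC K 0 τ le_rfl hτ)).trans_lt ?_
      exact ENNReal.mul_lt_top (ENNReal.mul_lt_top ENNReal.coe_lt_top ENNReal.ofReal_lt_top)
        (Metric.isBounded_closedBall.thickening.measure_lt_top)
  have hsph : m (Metric.sphere 0 R)ᶜ = 0 := by
    rw [hm, Measure.map_apply hgm Metric.isClosed_sphere.measurableSet.compl]
    have h1 : ∀ᵐ q ∂μ0, q.1 ∉ K := by
      rw [hμ0']
      filter_upwards [ae_restrict_mem (hK.measurableSet.compl.prod MeasurableSet.univ)] with q hq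
      exact hq.1
    have h2 : ∀ᵐ q ∂μ0, q.2 0 = 0 := Measure.quasiMeasurePreserving_snd.ae hW.ae_zero
    have h3 : ∀ᵐ q ∂(μ0.restrict S), g q ∈ Metric.sphere (0 : E d) R := by
      filter_upwards [ae_restrict_of_ae h1, ae_restrict_of_ae h2, ae_restrict_mem hSm]
        with q hq1 hq2 hq3
      exact idA_sphere hq1 hq2 hq3
    exact h3
  have hinv : ∀ O : E d ≃ₗᵢ[ℝ] E d, m.map O = m := by
    intro O
    have hO : Measurable O := O.continuous.measurable
    have hr : Measurable (rot O : Path d → Path d) := (continuous_rot O).measurable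
    have hΦ : Measurable (Prod.map O (rot O) : E d × Path d → E d × Path d) := hO.prodMap hr
    have hmem : ∀ x : E d, O x ∈ K ↔ x ∈ K := by
      intro x
      simp [hKdef]
    have hmem2 : ∀ (q : E d × Path d) (t : ℝ≥0),
        (Prod.map O (rot O) q).1 + (Prod.map O (rot O) q).2 t = O (q.1 + q.2 t) := by
      intro q t
      rw [map_add]
      rfl
    have h1 : (volume.restrict Kᶜ).map O = volume.restrict Kᶜ := by
      have e : O ⁻¹' Kᶜ = Kᶜ := by
        ext x
        simp only [Set.mem_preimage, Set.mem_compl_iff, hmem]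
      conv_lhs => rw [← e]
      rw [← Measure.restrict_map hO hK.measurableSet.compl, O.measurePreserving.map_eq]
    have h2 : μ0.map (Prod.map O (rot O)) = μ0 := by
      rw [hμ0, ← Measure.map_prod_map _ _ hO hr, h1, hW.map_rot]
    have h3 : (Prod.map O (rot O)) ⁻¹' S = S := by
      ext q
      simp only [hS, hitS, Set.mem_preimage, Set.mem_ofPred_eq, hmem2, hmem]
    have h4 : ∀ q : E d × Path d, ht K (Prod.map O (rot O) q) = ht K q := by
      intro q
      simp only [ht, hmem2, hmem]
    have h5 : O ∘ g = g ∘ Prod.map O (rot O) := by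
      funext q
      simp only [hg, Function.comp_apply, hmem2, h4]
    rw [hm, Measure.map_map hO hgm, h5, ← Measure.map_map hgm hΦ]
    congr 1
    conv_lhs => rw [← h3]
    rw [← Measure.restrict_map hΦ hSm, h2]
  have key := eq_smul_sphereUnif (by omega) hR m hsph hinv
  rw [← lintegral_map hf hgm, ← hm, key, lintegral_smul_measure, hmu, smul_eq_mul]

end Pool.Agent.Lib.MP_fe8b6f_pr
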