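import Pool.Agent.Lib.MP_fe8b6f_pr.IdA

/-! Identification of the interlacement intensity as a limit of Lebesgue started paths. Part 2. -/

open MeasureTheory ProbabilityTheory
open scoped NNReal ENNReal

noncomputable section

namespace Pool.Agent.Lib.MP_fe8b6f_pr

variable {d : ℕ}

theorem idb_meas_restrict {K : Set (E d)} (hK : MeasurableSet K) :
    Measurable fun μ : Measure (E d) => μ.restrict K := by
  refine Measure.measurable_of_measurable_coe _ (fun s hs => ?_)
  simp only [Measure.restrict_apply hs]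
  exact Measure.measurable_coe (hs.inter hK)

theorem idb_restrict_zero {K : Set (E d)} (hK : MeasurableSet K) {x : E d} {w : Path d}
    {I : Set ℝ} (hI : MeasurableSet I) (h : (x, w) ∉ hitS K I) : (occ x w I).restrict K = 0 := by
  rw [Measure.restrict_eq_zero]
  by_contra hne
  exact h (mem_hitS_of_occ_ne_zero hI hK hne)

/-- on the hitting event the occupation measure in `K` only sees the path after the hit -/
theorem idb_after {K : Set (E d)} (hK : IsClosed K) {q : E d × Path d} {τ : ℝ}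
    (hq : q ∈ hitS K (Set.Icc 0 τ)) :
    (occ q.1 q.2 (Set.Ico 0 τ)).restrict K =
      (occ (q.1 + q.2 (ht K q)) (shift (ht K q) q.2) (Set.Ico 0 (τ - ht K q))).restrict K := by
  have h1 := (ht_mem hK hq).2
  have h0 : (0 : ℝ) ≤ ht K q := (ht K q).2
  rw [← occ_shift q.1 q.2 (ht K q) measurableSet_Ico (fun s hs => hs.1)]
  have e1 : (fun s : ℝ => s - (ht K q : ℝ)) ⁻¹' Set.Ico 0 (τ - ht K q) = Set.Ico (ht K q : ℝ) τ := by
    ext s
    simp only [Set.mem_preimage, Set.mem_Ico]
    constructor <;> rintro ⟨a, b⟩ <;> constructor <;> linarith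
  rw [e1, ← Set.Ico_union_Ico_eq_Ico h0 h1, occ_union _ _ (Set.Ico_disjoint_Ico_same)
    measurableSet_Ico, Measure.restrict_add,
    idb_restrict_zero hK.measurableSet measurableSet_Ico, zero_add]
  rintro ⟨t, ht', hm⟩
  refine not_mem_of_lt_ht (K := K) (q := q) (t := t.toNNReal) ?_ hm
  rw [← NNReal.coe_lt_coe, Real.coe_toNNReal _ ht'.1]
  exact ht'.2

/-- without a late return the finite and the infinite horizon agree in `K` -/
theorem idb_late {K : Set (E d)} (hK : IsClosed K) {y : E d} {w : Path d} {a b : ℝ}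
    (ha : 0 ≤ a) (hab : a ≤ b) (h : (y, w) ∉ hitS K (Set.Ici a)) :
    (occ y w (Set.Ico 0 b)).restrict K = (occ y w (Set.Ici 0)).restrict K := by
  have hd : Disjoint (Set.Ico 0 b) (Set.Ici b) := by
    rw [Set.disjoint_left]
    intro s hs hs'
    exact absurd hs.2 (not_lt.mpr hs')
  rw [← Set.Ico_union_Ici_eq_Ici (ha.trans hab), occ_union _ _ hd measurableSet_Ici,
    Measure.restrict_add, idb_restrict_zero hK.measurableSet measurableSet_Ici
      (fun h' => h (hitS_mono subset_rfl (Set.Ici_subset_Ici.mpr hab) h')), add_zero]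

/-- the two error terms -/
theorem idb_core {W : Measure (Path d)} (hW : IsWiener W) {K : Set (E d)} (hK : IsClosed K)
    (ι : Measure (E d)) [SFinite ι] {τ a : ℝ} (ha : 0 ≤ a) {δ : ℝ≥0∞}
    (hδ : ∀ y : E d, W {w | (y, w) ∈ hitS K (Set.Ici a)} ≤ δ)
    {F : Measure (E d) → ℝ≥0∞} (hF : Measurable F) (hF1 : ∀ μ, F μ ≤ 1) (hF0 : F 0 = 0) :
    ∫⁻ q, F ((occ q.1 q.2 (Set.Ico 0 τ)).restrict K) ∂(ι.prod W) ≤
      ∫⁻ q in hitS K (Set.Icc 0 τ), (∫⁻ w', F ((occ (q.1 + q.2 (ht K q)) w'
        (Set.Ici 0)).restrict K) ∂W) ∂(ι.prod W) +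
      ((ι.prod W) (hitS K (Set.Icc (τ - a) τ)) + δ * (ι.prod W) (hitS K (Set.Icc 0 τ))) ∧
    ∫⁻ q in hitS K (Set.Icc 0 τ), (∫⁻ w', F ((occ (q.1 + q.2 (ht K q)) w'
        (Set.Ici 0)).restrict K) ∂W) ∂(ι.prod W) ≤
      ∫⁻ q, F ((occ q.1 q.2 (Set.Ico 0 τ)).restrict K) ∂(ι.prod W) +
      ((ι.prod W) (hitS K (Set.Icc (τ - a) τ)) + δ * (ι.prod W) (hitS K (Set.Icc 0 τ))) := by
  have := hW.isProbabilityMeasure
  set S := hitS K (Set.Icc 0 τ) with hS
  have hSm : MeasurableSet S := (isClosed_hitS_Icc hK 0 τ).measurableSet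
  set S1 := hitS K (Set.Icc (τ - a) τ) with hS1
  have hS1m : MeasurableSet S1 := (isClosed_hitS_Icc hK _ τ).measurableSet
  have hLm : MeasurableSet (hitS K (Set.Ici a)) := measurableSet_hitS_Ici hK a
  have hpr : Measurable fun z : (ℝ≥0 × E d) × Path d => (z.1.2, z.2) := by fun_prop
  have hΦ1 : Measurable fun z : (ℝ≥0 × E d) × Path d =>
      F ((occ z.1.2 z.2 (Set.Ici 0)).restrict K) :=
    (hF.comp ((idb_meas_restrict hK.measurableSet).comp measurable_occ)).comp hpr
  have hΦ2 : Measurable fun z : (ℝ≥0 × E d) × Path d =>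
      (hitS K (Set.Ici a)).indicator (1 : E d × Path d → ℝ≥0∞) (z.1.2, z.2) :=
    (measurable_one.indicator hLm).comp hpr
  have m1 := hW.strong_markov hK ι τ hΦ1
  have m2 := hW.strong_markov hK ι τ hΦ2
  simp only at m1 m2
  rw [← hS] at m1 m2
  rw [← m1]
  have hA : ∫⁻ q, F ((occ q.1 q.2 (Set.Ico 0 τ)).restrict K) ∂(ι.prod W) =
      ∫⁻ q in S, F ((occ q.1 q.2 (Set.Ico 0 τ)).restrict K) ∂(ι.prod W) := by
    rw [← lintegral_indicator hSm]
    refine lintegral_congr fun q => ?_
    by_cases hq : q ∈ S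
    · rw [Set.indicator_of_mem hq]
    · rw [Set.indicator_of_notMem hq, idb_restrict_zero hK.measurableSet measurableSet_Ico
        (fun h' => hq (hitS_mono subset_rfl Set.Ico_subset_Icc_self h')), hF0]
  have hE2 : ∫⁻ q in S, (hitS K (Set.Ici a)).indicator (1 : E d × Path d → ℝ≥0∞)
      (q.1 + q.2 (ht K q), shift (ht K q) q.2) ∂(ι.prod W) ≤ δ * (ι.prod W) S := by
    rw [m2, ← setLIntegral_const]
    refine lintegral_mono fun q => ?_
    refine le_trans (le_of_eq ?_) (hδ (q.1 + q.2 (ht K q)))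
    have hm : MeasurableSet {w | (q.1 + q.2 (ht K q), w) ∈ hitS K (Set.Ici a)} :=
      measurable_prodMk_left hLm
    rw [← lintegral_indicator_one hm]
    rfl
  have hE1 : ∫⁻ q in S, S1.indicator (1 : E d × Path d → ℝ≥0∞) q ∂(ι.prod W) ≤
      (ι.prod W) S1 := by
    rw [← lintegral_indicator_one hS1m]
    exact setLIntegral_le_lintegral _ _
  have key : ∀ q ∈ S, (occ q.1 q.2 (Set.Ico 0 τ)).restrict K =
      (occ (q.1 + q.2 (ht K q)) (shift (ht K q) q.2) (Set.Ici 0)).restrict K ∨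
      1 ≤ S1.indicator (1 : E d × Path d → ℝ≥0∞) q +
        (hitS K (Set.Ici a)).indicator (1 : E d × Path d → ℝ≥0∞)
          (q.1 + q.2 (ht K q), shift (ht K q) q.2) := by
    intro q hq
    by_cases h1 : q ∈ S1
    · right
      rw [Set.indicator_of_mem h1]
      exact le_self_add
    by_cases h2 : (q.1 + q.2 (ht K q), shift (ht K q) q.2) ∈ hitS K (Set.Ici a)
    · right
      rw [Set.indicator_of_mem h2]
      exact le_add_self
    left
    have hm := ht_mem hK hq
    have hle : a ≤ τ - ht K q := by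
      by_contra hc
      refine h1 ⟨(ht K q : ℝ), ⟨by linarith [not_le.mp hc], hm.2⟩, ?_⟩
      rw [Real.toNNReal_coe]
      exact hm.1
    rw [idb_after hK hq, idb_late hK ha hle h2]
  have hsum : ∀ f g : E d × Path d → ℝ≥0∞, (∀ q, f q ≤ 1) →
      (∀ q ∈ S, f q = g q ∨ 1 ≤ S1.indicator (1 : E d × Path d → ℝ≥0∞) q +
        (hitS K (Set.Ici a)).indicator (1 : E d × Path d → ℝ≥0∞)
          (q.1 + q.2 (ht K q), shift (ht K q) q.2)) →
      ∫⁻ q in S, f q ∂(ι.prod W) ≤ ∫⁻ q in S, g q ∂(ι.prod W) +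
        ((ι.prod W) S1 + δ * (ι.prod W) S) := by
    intro f g hf hfg
    have hH := measurable_ht hK
    have hy : Measurable fun q : E d × Path d => (q.1 + q.2 (ht K q), shift (ht K q) q.2) :=
      (measurable_fst.add (measurable_path_eval.comp (measurable_snd.prodMk hH))).prodMk
        (continuous_shift.measurable.comp (hH.prodMk measurable_snd))
    have hi1 : Measurable (S1.indicator (1 : E d × Path d → ℝ≥0∞)) :=
      measurable_one.indicator hS1m
    have hi2 : Measurable fun q : E d × Path d =>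
        (hitS K (Set.Ici a)).indicator (1 : E d × Path d → ℝ≥0∞)
          (q.1 + q.2 (ht K q), shift (ht K q) q.2) := (measurable_one.indicator hLm).comp hy
    calc ∫⁻ q in S, f q ∂(ι.prod W)
        ≤ ∫⁻ q in S, g q + (S1.indicator (1 : E d × Path d → ℝ≥0∞) q +
          (hitS K (Set.Ici a)).indicator (1 : E d × Path d → ℝ≥0∞)
            (q.1 + q.2 (ht K q), shift (ht K q) q.2)) ∂(ι.prod W) := by
          refine setLIntegral_mono' hSm fun q hq => ?_
          rcases hfg q hq with h | h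
          · rw [h]; exact le_self_add
          · exact ((hf q).trans h).trans le_add_self
      _ ≤ _ := by
          rw [lintegral_add_right _ (hi1.fun_add hi2), lintegral_add_left hi1]
          gcongr
  rw [hA]
  refine ⟨hsum _ _ (fun q => hF1 _) fun q hq => ?_, hsum _ _ (fun q => hF1 _) fun q hq => ?_⟩
  · exact (key q hq).imp (fun h => by rw [h]) id
  · exact (key q hq).imp (fun h => by rw [h]) id

/-- comparison with the entrance mass, up to an error `ε τ` -/
theorem IsWiener.ident_mass {W : Measure (Path d)} (hW : IsWiener W) (hd : 3 ≤ d) {R : ℝ}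
    (hR : 0 < R) {ε : ℝ≥0∞} (hε : 0 < ε) :
    ∃ τ0 : ℝ, 0 < τ0 ∧ ∀ τ, τ0 ≤ τ → ∀ F : Measure (E d) → ℝ≥0∞, Measurable F →
      (∀ μ, F μ ≤ 1) → F 0 = 0 →
      ∫⁻ q, F ((occ q.1 q.2 (Set.Ico 0 τ)).restrict (Metric.closedBall 0 R))
          ∂((volume : Measure (E d)).prod W) ≤
        ((volume.restrict (Metric.closedBall (0 : E d) R)ᶜ).prod W)
            (hitS (Metric.closedBall 0 R) (Set.Icc 0 τ)) *
          ∫⁻ q, F ((occ q.1 q.2 (Set.Ici 0)).restrict (Metric.closedBall 0 R))
            ∂((sphereUnif d R).prod W) + ε * ENNReal.ofReal τ ∧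
      ((volume.restrict (Metric.closedBall (0 : E d) R)ᶜ).prod W)
            (hitS (Metric.closedBall 0 R) (Set.Icc 0 τ)) *
          ∫⁻ q, F ((occ q.1 q.2 (Set.Ici 0)).restrict (Metric.closedBall 0 R))
            ∂((sphereUnif d R).prod W) ≤
        ∫⁻ q, F ((occ q.1 q.2 (Set.Ico 0 τ)).restrict (Metric.closedBall 0 R))
          ∂((volume : Measure (E d)).prod W) + ε * ENNReal.ofReal τ := by
  have := hW.isProbabilityMeasure
  have := isProbabilityMeasure_sphereUnif (d := d) R
  set K : Set (E d) := Metric.closedBall 0 R with hKd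
  have hK : IsClosed K := Metric.isClosed_closedBall
  obtain ⟨C, hC1, hC2, -⟩ := hW.hit_bounds hd
  have hVfin : volume (Metric.thickening 1 K) ≠ ⊤ :=
    (Metric.isBounded_closedBall.thickening (δ := 1)).measure_lt_top.ne
  obtain ⟨V, hV⟩ : ∃ V : ℝ≥0, volume (Metric.thickening 1 K) = V :=
    ⟨_, (ENNReal.coe_toNNReal hVfin).symm⟩
  have hKV : volume K ≤ V := hV ▸ measure_mono (Metric.self_subset_thickening one_pos K)
  obtain ⟨e, he0, heε⟩ : ∃ e : ℝ≥0, 0 < e ∧ (e : ℝ≥0∞) ≤ ε := by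
    obtain ⟨e, h1, h2⟩ := ENNReal.lt_iff_exists_nnreal_btwn.mp hε
    exact ⟨e, by exact_mod_cast h1, h2.le⟩
  have he0' : (0 : ℝ) < e := he0
  have hd' : (3 : ℝ) ≤ d := by exact_mod_cast hd
  obtain ⟨a, ha1, ha2⟩ : ∃ a : ℝ, 1 ≤ a ∧
      (C : ℝ) * a ^ (1 - (d : ℝ) / 2) * V * (C * 2 * V) ≤ e / 2 := by
    have h1 : Filter.Tendsto (fun a : ℝ => (C : ℝ) * a ^ (-((d : ℝ) / 2 - 1)) * V * (C * 2 * V))
        Filter.atTop (nhds ((C : ℝ) * 0 * V * (C * 2 * V))) :=
      (((tendsto_rpow_neg_atTop (by linarith)).const_mul _).mul_const _).mul_const _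
    simp only [mul_zero, zero_mul, neg_sub] at h1
    obtain ⟨a, h2, h3⟩ := ((Filter.eventually_ge_atTop (1 : ℝ)).and
      (h1.eventually (ge_mem_nhds (half_pos he0')))).exists
    exact ⟨a, h2, h3⟩
  refine ⟨a + (V + C * (a + 1) * V) * 2 / e, by positivity, fun τ hτ F hF hF1 hF0 => ?_⟩
  have hpos : (0 : ℝ) ≤ (V + C * (a + 1) * V) * 2 / e := by positivity
  have haτ : a ≤ τ := by linarith
  have hτ2 : (V : ℝ) + C * (a + 1) * V ≤ e / 2 * τ := by
    have : ((V : ℝ) + C * (a + 1) * V) * 2 / e ≤ τ := by linarith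
    rw [div_le_iff₀ he0'] at this
    linarith
  obtain ⟨c1, c2⟩ := idb_core hW hK (volume.restrict Kᶜ) (τ := τ) (by linarith)
    (fun y => hC2 K y a (by linarith)) hF hF1 hF0
  have hG : Measurable fun q : E d × Path d => F ((occ q.1 q.2 (Set.Ici 0)).restrict K) :=
    hF.comp ((idb_meas_restrict hK.measurableSet).comp measurable_occ)
  have hent := hW.entrance hd hR τ (hG.lintegral_prod_right' (ν := W))
  rw [← hKd] at hent
  simp only at hent
  rw [← lintegral_prod _ hG.aemeasurable] at hent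
  rw [hent] at c1 c2
  have hle : ∀ s : Set (E d), (volume.restrict s).prod W ≤ (volume : Measure (E d)).prod W := by
    intro s
    rw [Measure.restrict_prod_eq_prod_univ]
    exact Measure.restrict_le_self
  have hsplit : ∫⁻ q, F ((occ q.1 q.2 (Set.Ico 0 τ)).restrict K)
      ∂((volume : Measure (E d)).prod W) ≤
      ∫⁻ q, F ((occ q.1 q.2 (Set.Ico 0 τ)).restrict K) ∂((volume.restrict Kᶜ).prod W) + V := by
    conv_lhs => rw [← Measure.restrict_compl_add_restrict (μ := (volume : Measure (E d)))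
      hK.measurableSet, Measure.add_prod, lintegral_add_measure]
    gcongr
    calc _ ≤ ∫⁻ _, 1 ∂((volume.restrict K).prod W) := lintegral_mono fun q => hF1 _
      _ = volume K := by
        rw [lintegral_one, ← Set.univ_prod_univ, Measure.prod_prod]; simp
      _ ≤ V := hKV
  have herr : (V : ℝ≥0∞) + (((volume.restrict Kᶜ).prod W) (hitS K (Set.Icc (τ - a) τ)) +
      C * ENNReal.ofReal (a ^ (1 - (d : ℝ) / 2)) * volume (Metric.thickening 1 K) *
        ((volume.restrict Kᶜ).prod W) (hitS K (Set.Icc 0 τ))) ≤ ε * ENNReal.ofReal τ := by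
    have b1 := (hle Kᶜ _).trans (hC1 K (τ - a) τ (by linarith) (by linarith))
    have b2 := (hle Kᶜ _).trans (hC1 K 0 τ le_rfl (by linarith))
    rw [hV] at b1 b2 ⊢
    have hap : 0 ≤ a ^ (1 - (d : ℝ) / 2) := by positivity
    calc _ ≤ (V : ℝ≥0∞) + (C * ENNReal.ofReal (τ - (τ - a) + 1) * V +
          C * ENNReal.ofReal (a ^ (1 - (d : ℝ) / 2)) * V *
            (C * ENNReal.ofReal (τ - 0 + 1) * V)) := by gcongr
      _ = ENNReal.ofReal (V + (C * (τ - (τ - a) + 1) * V +
          C * a ^ (1 - (d : ℝ) / 2) * V * (C * (τ - 0 + 1) * V))) := by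
          have p1 : 0 ≤ τ - (τ - a) + 1 := by linarith
          have p2 : 0 ≤ τ - 0 + 1 := by linarith
          generalize τ - (τ - a) + 1 = x at p1 ⊢
          generalize τ - 0 + 1 = y at p2 ⊢
          generalize a ^ (1 - (d : ℝ) / 2) = z at hap ⊢
          rw [ENNReal.ofReal_add (by positivity) (by positivity),
            ENNReal.ofReal_add (by positivity) (by positivity)]
          simp only [ENNReal.ofReal_mul (by positivity : (0 : ℝ) ≤ C * x),
            ENNReal.ofReal_mul (by positivity : (0 : ℝ) ≤ C * z * V),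
            ENNReal.ofReal_mul (by positivity : (0 : ℝ) ≤ C * z),
            ENNReal.ofReal_mul (by positivity : (0 : ℝ) ≤ C * y),
            ENNReal.ofReal_mul C.coe_nonneg, ENNReal.ofReal_coe_nnreal]
      _ ≤ ENNReal.ofReal (e * τ) := by
          refine ENNReal.ofReal_le_ofReal ?_
          have h3 : (C : ℝ) * a ^ (1 - (d : ℝ) / 2) * V * (C * (τ - 0 + 1) * V) ≤
              C * a ^ (1 - (d : ℝ) / 2) * V * (C * 2 * V) * τ := by
            have : (C : ℝ) * (τ - 0 + 1) * V ≤ C * (2 * τ) * V := by gcongr; linarith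
            calc _ ≤ (C : ℝ) * a ^ (1 - (d : ℝ) / 2) * V * (C * (2 * τ) * V) := by gcongr
              _ = _ := by ring
          have h4 : (C : ℝ) * a ^ (1 - (d : ℝ) / 2) * V * (C * 2 * V) * τ ≤ e / 2 * τ := by
            gcongr; linarith
          have h5 : τ - (τ - a) + 1 = a + 1 := by ring
          rw [h5]
          linarith
      _ ≤ ε * ENNReal.ofReal τ := by
          rw [ENNReal.ofReal_mul e.coe_nonneg, ENNReal.ofReal_coe_nnreal]
          gcongr
  constructor
  · refine hsplit.trans ?_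
    refine le_trans (add_le_add c1 le_rfl) ?_
    rw [add_assoc]
    gcongr
    rw [add_comm]
    exact herr
  · refine c2.trans (add_le_add (lintegral_mono' (hle _) le_rfl) (le_add_self.trans herr))

end Pool.Agent.Lib.MP_fe8b6f_pr
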