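import Pool.Agent.Lib.MP_fe8b6f_pr.Ident

/-! The entrance mass grows like capacity times time; main identification. Part 1. -/

open MeasureTheory ProbabilityTheory
open scoped NNReal ENNReal

noncomputable section

namespace Pool.Agent.Lib.MP_fe8b6f_pr

variable {d : ℕ}

theorem idd_tendsto_mul {W : Measure (Path d)} (hW : IsWiener W) (hd : 3 ≤ d) {R : ℝ}
    (hR : 0 < R) {A : Set (E d)} (hA : MeasurableSet A) (hAK : A ⊆ Metric.closedBall 0 R) :
    Filter.Tendsto (fun τ : ℝ => ((volume.restrict (Metric.closedBall (0 : E d) R)ᶜ).prod W)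
        (hitS (Metric.closedBall 0 R) (Set.Icc 0 τ)) / ENNReal.ofReal τ *
          ∫⁻ q, occ q.1 q.2 (Set.Ici 0) A ∂((sphereUnif d R).prod W)) Filter.atTop
      (nhds (volume A)) := by
  have hv : volume A ≠ ⊤ :=
    ((measure_mono hAK).trans_lt measure_closedBall_lt_top).ne
  rw [ENNReal.tendsto_nhds hv]
  intro ε hε
  obtain ⟨τ0, hτ0, h⟩ := hW.ident_occ hd hR hε
  filter_upwards [Filter.eventually_ge_atTop τ0] with τ hτ
  obtain ⟨h1, h2⟩ := h τ hτ A hA hAK
  have ht0 : ENNReal.ofReal τ ≠ 0 := by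
    simpa using lt_of_lt_of_le hτ0 hτ
  have htt : ENNReal.ofReal τ ≠ ⊤ := ENNReal.ofReal_ne_top
  generalize ((volume.restrict (Metric.closedBall (0 : E d) R)ᶜ).prod W)
        (hitS (Metric.closedBall 0 R) (Set.Icc 0 τ)) = M at h1 h2 ⊢
  generalize (∫⁻ q, occ q.1 q.2 (Set.Ici 0) A ∂((sphereUnif d R).prod W)) = e at h1 h2 ⊢
  generalize ENNReal.ofReal τ = t at h1 h2 ht0 htt ⊢
  generalize volume A = v at h1 h2 ⊢
  have hMe : M / t * e = M * e / t := by
    rw [div_eq_mul_inv, div_eq_mul_inv, mul_right_comm]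
  rw [hMe]
  constructor
  · rw [tsub_le_iff_right]
    calc v = t * v / t := by
          rw [mul_comm, ENNReal.mul_div_cancel_right ht0 htt]
      _ ≤ (M * e + ε * t) / t := ENNReal.div_le_div_right h1 t
      _ = M * e / t + ε := by
          rw [ENNReal.add_div, ENNReal.mul_div_cancel_right ht0 htt]
  · calc M * e / t ≤ (t * v + ε * t) / t := ENNReal.div_le_div_right h2 t
      _ = v + ε := by
          rw [ENNReal.add_div, ENNReal.mul_div_cancel_right ht0 htt, mul_comm,
            ENNReal.mul_div_cancel_right ht0 htt]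

theorem idd_cap_mono (hd : 3 ≤ d) {r s : ℝ} (hr : 0 < r) (hrs : r ≤ s) :
    capBall d r ≤ capBall d s := by
  have hs : 0 < s := lt_of_lt_of_le hr hrs
  have h1 := capBall_mul (d := d) hr one_pos
  have h2 := capBall_mul (d := d) hs one_pos
  rw [mul_one] at h1 h2
  rw [h1, h2]
  have hd' : (0 : ℝ) ≤ (d : ℝ) - 2 := by
    have : (3 : ℝ) ≤ d := by exact_mod_cast hd
    linarith
  exact mul_le_mul_of_nonneg_right (Real.rpow_le_rpow hr.le hrs hd') (capBall_pos hd one_pos).le

theorem idd_cap_cont {R : ℝ} (hR : 0 < R) : ContinuousAt (capBall d) R := by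
  unfold capBall
  exact ((continuousAt_const.mul (Real.continuousAt_rpow_const R _ (Or.inl hR.ne'))).div_const _)

theorem idd_green_bounds (hd : 3 ≤ d) {R η : ℝ} (hηR : η < R) {x y : E d}
    (hx : x ∈ Metric.sphere (0 : E d) R) (hy : y ∈ Metric.ball (0 : E d) η) :
    ENNReal.ofReal (capBall d (R + η))⁻¹ ≤ green (y - x) ∧
      green (y - x) ≤ ENNReal.ofReal (capBall d (R - η))⁻¹ := by
  have hx' : ‖x‖ = R := by simpa using hx
  have hy' : ‖y‖ < η := by simpa using hy
  have h1 : ‖y - x‖ ≤ R + η := by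
    have := norm_sub_le y x
    linarith
  have h2 : R - η ≤ ‖y - x‖ := by
    have := norm_sub_norm_le x y
    rw [norm_sub_rev] at this
    linarith
  have h3 : 0 < R - η := by linarith
  have h4 : 0 < ‖y - x‖ := lt_of_lt_of_le h3 h2
  rw [green_eq hd (norm_pos_iff.mp h4)]
  constructor
  · exact ENNReal.ofReal_le_ofReal (inv_anti₀ (capBall_pos hd h4) (idd_cap_mono hd h4 h1))
  · exact ENNReal.ofReal_le_ofReal (inv_anti₀ (capBall_pos hd h3) (idd_cap_mono hd h3 h2))

theorem idd_occ_ball {W : Measure (Path d)} (hW : IsWiener W) (hd : 3 ≤ d) {R η : ℝ}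
    (hR : 0 < R) (hηR : η < R) :
    ENNReal.ofReal (capBall d (R + η))⁻¹ * volume (Metric.ball (0 : E d) η) ≤
        ∫⁻ q, occ q.1 q.2 (Set.Ici 0) (Metric.ball 0 η) ∂((sphereUnif d R).prod W) ∧
      ∫⁻ q, occ q.1 q.2 (Set.Ici 0) (Metric.ball 0 η) ∂((sphereUnif d R).prod W) ≤
        ENNReal.ofReal (capBall d (R - η))⁻¹ * volume (Metric.ball (0 : E d) η) := by
  have := hW.isProbabilityMeasure
  have := isProbabilityMeasure_sphereUnif (d := d) R
  have hA : MeasurableSet (Metric.ball (0 : E d) η) := measurableSet_ball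
  have hm : Measurable fun q : E d × Path d => occ q.1 q.2 (Set.Ici 0) (Metric.ball 0 η) :=
    (Measure.measurable_coe hA).comp measurable_occ
  have hx : ∀ x : E d, ∫⁻ w, occ x w (Set.Ici 0) (Metric.ball 0 η) ∂W =
      ∫⁻ y in Metric.ball (0 : E d) η, green (y - x) := by
    intro x
    have h := hW.lintegral_occ_green x
      (f := (Metric.ball (0 : E d) η).indicator 1) (measurable_one.indicator hA)
    simp only [lintegral_indicator_one hA] at h
    rw [h, ← lintegral_indicator hA]
    refine lintegral_congr fun y => ?_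
    by_cases hy : y ∈ Metric.ball (0 : E d) η
    · simp [Set.indicator_of_mem hy]
    · simp [Set.indicator_of_notMem hy]
  have hae : ∀ᵐ x ∂(sphereUnif d R), x ∈ Metric.sphere (0 : E d) R :=
    sphereUnif_compl (le_trans (by norm_num) hd) hR
  rw [lintegral_prod _ hm.aemeasurable]
  simp only [hx]
  constructor
  · calc ENNReal.ofReal (capBall d (R + η))⁻¹ * volume (Metric.ball (0 : E d) η)
        = ∫⁻ _x, ENNReal.ofReal (capBall d (R + η))⁻¹ * volume (Metric.ball (0 : E d) η)
            ∂(sphereUnif d R) := by simp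
      _ ≤ _ := by
          refine lintegral_mono_ae ?_
          filter_upwards [hae] with x hxs
          rw [← setLIntegral_const]
          exact setLIntegral_mono' hA fun y hy => (idd_green_bounds hd hηR hxs hy).1
  · calc _ ≤ ∫⁻ _x, ENNReal.ofReal (capBall d (R - η))⁻¹ * volume (Metric.ball (0 : E d) η)
            ∂(sphereUnif d R) := by
          refine lintegral_mono_ae ?_
          filter_upwards [hae] with x hxs
          rw [← setLIntegral_const]
          exact setLIntegral_mono' hA fun y hy => (idd_green_bounds hd hηR hxs hy).2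
      _ = _ := by simp

theorem idd_exists_lim {W : Measure (Path d)} (hW : IsWiener W) (hd : 3 ≤ d) {R η : ℝ}
    (hR : 0 < R) (hη : 0 < η) (hηR : η < R) :
    ∃ c : ℝ≥0∞, Filter.Tendsto
      (fun τ : ℝ => ((volume.restrict (Metric.closedBall (0 : E d) R)ᶜ).prod W)
        (hitS (Metric.closedBall 0 R) (Set.Icc 0 τ)) / ENNReal.ofReal τ) Filter.atTop (nhds c) ∧
      ENNReal.ofReal (capBall d (R - η)) ≤ c ∧ c ≤ ENNReal.ofReal (capBall d (R + η)) := by
  have hsub : Metric.ball (0 : E d) η ⊆ Metric.closedBall 0 R :=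
    Metric.ball_subset_closedBall.trans (Metric.closedBall_subset_closedBall hηR.le)
  have ht := idd_tendsto_mul hW hd hR measurableSet_ball hsub
  obtain ⟨h1, h2⟩ := idd_occ_ball hW hd hR hηR
  have hv0 : volume (Metric.ball (0 : E d) η) ≠ 0 := (Metric.measure_ball_pos _ _ hη).ne'
  have hvt : volume (Metric.ball (0 : E d) η) ≠ ⊤ := measure_ball_lt_top.ne
  have hp : 0 < capBall d (R + η) := capBall_pos hd (by linarith)
  have hm : 0 < capBall d (R - η) := capBall_pos hd (by linarith)
  rw [ENNReal.ofReal_inv_of_pos hp] at h1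
  rw [ENNReal.ofReal_inv_of_pos hm] at h2
  have hp0 : ENNReal.ofReal (capBall d (R + η)) ≠ 0 := by simpa using hp
  have hm0 : ENNReal.ofReal (capBall d (R - η)) ≠ 0 := by simpa using hm
  have hpt : ENNReal.ofReal (capBall d (R + η)) ≠ ⊤ := ENNReal.ofReal_ne_top
  have hmt : ENNReal.ofReal (capBall d (R - η)) ≠ ⊤ := ENNReal.ofReal_ne_top
  generalize (∫⁻ q, occ q.1 q.2 (Set.Ici 0) (Metric.ball 0 η) ∂((sphereUnif d R).prod W)) = e
    at h1 h2 ht
  generalize volume (Metric.ball (0 : E d) η) = v at h1 h2 ht hv0 hvt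
  generalize ENNReal.ofReal (capBall d (R + η)) = cp at h1 hp0 hpt ⊢
  generalize ENNReal.ofReal (capBall d (R - η)) = cm at h2 hm0 hmt ⊢
  have he0 : e ≠ 0 := by
    have : 0 < cp⁻¹ * v := ENNReal.mul_pos (ENNReal.inv_ne_zero.mpr hpt) hv0
    exact (lt_of_lt_of_le this h1).ne'
  have het : e ≠ ⊤ :=
    ne_top_of_le_ne_top (ENNReal.mul_ne_top (ENNReal.inv_ne_top.mpr hm0) hvt) h2
  refine ⟨v / e, ?_, ?_, ?_⟩
  · have h3 := ENNReal.Tendsto.mul_const (b := e⁻¹) ht (Or.inl hv0)
    refine h3.congr fun τ => ?_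
    rw [mul_assoc, ENNReal.mul_inv_cancel he0 het, mul_one]
  · rw [ENNReal.le_div_iff_mul_le (Or.inl he0) (Or.inl het)]
    calc cm * e ≤ cm * (cm⁻¹ * v) := mul_le_mul_right h2 cm
      _ = v := by rw [← mul_assoc, ENNReal.mul_inv_cancel hm0 hmt, one_mul]
  · rw [ENNReal.div_le_iff he0 het]
    calc v = cp * (cp⁻¹ * v) := by rw [← mul_assoc, ENNReal.mul_inv_cancel hp0 hpt, one_mul]
      _ ≤ cp * e := mul_le_mul_right h1 cp

theorem IsWiener.tendsto_mass {W : Measure (Path d)} (hW : IsWiener W) (hd : 3 ≤ d) {R : ℝ}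
    (hR : 0 < R) :
    Filter.Tendsto (fun τ : ℝ => ((volume.restrict (Metric.closedBall (0 : E d) R)ᶜ).prod W)
        (hitS (Metric.closedBall 0 R) (Set.Icc 0 τ)) / ENNReal.ofReal τ) Filter.atTop
      (nhds (ENNReal.ofReal (capBall d R))) := by
  obtain ⟨c, hc, -, -⟩ := idd_exists_lim hW hd hR (half_pos hR) (half_lt_self hR)
  have hb : ∀ᶠ η in nhdsWithin (0 : ℝ) (Set.Ioi 0),
      ENNReal.ofReal (capBall d (R - η)) ≤ c ∧ c ≤ ENNReal.ofReal (capBall d (R + η)) := by
    filter_upwards [Ioo_mem_nhdsGT hR] with η hη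
    obtain ⟨c', hc', h1, h2⟩ := idd_exists_lim hW hd hR hη.1 hη.2
    rw [tendsto_nhds_unique hc hc']
    exact ⟨h1, h2⟩
  have hcont := (ENNReal.continuous_ofReal.continuousAt.comp (idd_cap_cont (d := d) hR)).tendsto
  have hm : Filter.Tendsto (fun η : ℝ => R - η) (nhdsWithin (0 : ℝ) (Set.Ioi 0)) (nhds R) := by
    have : Filter.Tendsto (fun η : ℝ => R - η) (nhds 0) (nhds (R - 0)) :=
      (continuous_const.sub continuous_id).tendsto 0
    rw [sub_zero] at this
    exact this.mono_left nhdsWithin_le_nhds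
  have hp : Filter.Tendsto (fun η : ℝ => R + η) (nhdsWithin (0 : ℝ) (Set.Ioi 0)) (nhds R) := by
    have : Filter.Tendsto (fun η : ℝ => R + η) (nhds 0) (nhds (R + 0)) :=
      (continuous_const.add continuous_id).tendsto 0
    rw [add_zero] at this
    exact this.mono_left nhdsWithin_le_nhds
  have h1 : ENNReal.ofReal (capBall d R) ≤ c :=
    le_of_tendsto (hcont.comp hm) (hb.mono fun η h => h.1)
  have h2 : c ≤ ENNReal.ofReal (capBall d R) :=
    ge_of_tendsto (hcont.comp hp) (hb.mono fun η h => h.2)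
  rw [← le_antisymm h2 h1]
  exact hc

theorem idd_cap_mul_occ {W : Measure (Path d)} (hW : IsWiener W) (hd : 3 ≤ d) {R : ℝ}
    (hR : 0 < R) {A : Set (E d)} (hA : MeasurableSet A) (hAK : A ⊆ Metric.closedBall 0 R) :
    ENNReal.ofReal (capBall d R) *
      ∫⁻ q, occ q.1 q.2 (Set.Ici 0) A ∂((sphereUnif d R).prod W) = volume A := by
  have h0 : ENNReal.ofReal (capBall d R) ≠ 0 := by simpa using capBall_pos hd hR
  exact tendsto_nhds_unique
    (ENNReal.Tendsto.mul_const (hW.tendsto_mass hd hR) (Or.inl h0))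
    (idd_tendsto_mul hW hd hR hA hAK)

/-- Newton's theorem: the interlacement has mean measure Lebesgue -/
theorem IsWiener.mean_sphere {W : Measure (Path d)} (hW : IsWiener W) (hd : 3 ≤ d) {R : ℝ}
    (hR : 0 < R) {f : E d → ℝ≥0∞} (hf : Measurable f) :
    ENNReal.ofReal (capBall d R) *
        ∫⁻ q, (∫⁻ y in Metric.closedBall 0 R, f y ∂(occ q.1 q.2 (Set.Ici 0)))
          ∂((sphereUnif d R).prod W) =
      ∫⁻ y in Metric.closedBall 0 R, f y := by
  have hK : MeasurableSet (Metric.closedBall (0 : E d) R) := measurableSet_closedBall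
  have hocc : Measurable fun q : E d × Path d => occ q.1 q.2 (Set.Ici 0) := measurable_occ
  have hmeas : (ENNReal.ofReal (capBall d R) • ((sphereUnif d R).prod W).bind
      (fun q : E d × Path d => occ q.1 q.2 (Set.Ici 0))).restrict (Metric.closedBall 0 R) =
      volume.restrict (Metric.closedBall (0 : E d) R) := by
    ext A hA
    rw [Measure.restrict_apply hA, Measure.restrict_apply hA, Measure.smul_apply, smul_eq_mul,
      Measure.bind_apply (hA.inter hK) hocc.aemeasurable]
    exact idd_cap_mul_occ hW hd hR (hA.inter hK) Set.inter_subset_right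
  rw [← hmeas, ← lintegral_indicator hK, lintegral_smul_measure, smul_eq_mul,
    Measure.lintegral_bind hocc.aemeasurable (hf.indicator hK).aemeasurable]
  simp only [lintegral_indicator hK]

end Pool.Agent.Lib.MP_fe8b6f_pr
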