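import Pool.Agent.Lib.MP_fe8b6f_pr.IdB

/-! Identification of the interlacement intensity as a limit of Lebesgue started paths. Part 3. -/

open MeasureTheory ProbabilityTheory
open scoped NNReal ENNReal

noncomputable section

namespace Pool.Agent.Lib.MP_fe8b6f_pr

variable {d : ℕ}

theorem identOcc_exists_tau {B ε : ℝ≥0∞} (hB : B ≠ ⊤) (hε : 0 < ε) :
    ∃ τ0 : ℝ, 0 < τ0 ∧ ∀ τ, τ0 ≤ τ → B ≤ ε * ENNReal.ofReal τ := by
  rcases eq_or_ne ε ⊤ with h | h
  · refine ⟨1, one_pos, fun τ hτ => ?_⟩
    have : ENNReal.ofReal τ ≠ 0 := by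
      simp only [ne_eq, ENNReal.ofReal_eq_zero, not_le]
      linarith
    rw [h, ENNReal.top_mul this]
    exact le_top
  · have hpos : 0 < ε.toReal := ENNReal.toReal_pos hε.ne' h
    refine ⟨B.toReal / ε.toReal + 1, by positivity, fun τ hτ => ?_⟩
    have h1 : B.toReal ≤ ε.toReal * τ := by
      have h2 : B.toReal / ε.toReal ≤ τ := by linarith
      rwa [div_le_iff₀ hpos, mul_comm] at h2
    calc B = ENNReal.ofReal B.toReal := (ENNReal.ofReal_toReal hB).symm
      _ ≤ ENNReal.ofReal (ε.toReal * τ) := ENNReal.ofReal_le_ofReal h1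
      _ = ε * ENNReal.ofReal τ := by
          rw [ENNReal.ofReal_mul hpos.le, ENNReal.ofReal_toReal h]

theorem identOcc_exists_a (hd : 3 ≤ d) {B ε : ℝ≥0∞} (hB : B ≠ ⊤) (hε : 0 < ε) :
    ∃ a : ℝ, 0 < a ∧ ENNReal.ofReal (2 * a ^ (1 - (d : ℝ) / 2)) * B ≤ ε := by
  have hd' : (3 : ℝ) ≤ d := by exact_mod_cast hd
  have h1 : Filter.Tendsto (fun a : ℝ => a ^ (1 - (d : ℝ) / 2)) Filter.atTop (nhds 0) := by
    have := tendsto_rpow_neg_atTop (y := (d : ℝ) / 2 - 1) (by linarith)
    simpa only [neg_sub] using this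
  have h2 : Filter.Tendsto (fun a : ℝ => ENNReal.ofReal (2 * a ^ (1 - (d : ℝ) / 2)))
      Filter.atTop (nhds 0) := by
    have := ENNReal.tendsto_ofReal (h1.const_mul 2)
    simpa using this
  have h3 := ENNReal.Tendsto.mul_const h2 (b := B) (Or.inr hB)
  rw [zero_mul] at h3
  have h4 := (h3.eventually (ge_mem_nhds hε)).and (Filter.eventually_gt_atTop (0 : ℝ))
  obtain ⟨a, ha1, ha2⟩ := h4.exists
  exact ⟨a, ha2, ha1⟩

theorem identOcc_measurable {A : Set (E d)} (hA : MeasurableSet A) (I : Set ℝ) :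
    Measurable fun q : E d × Path d => occ q.1 q.2 I A :=
  (Measure.measurable_coe hA).comp measurable_occ

theorem identOcc_shift_Ici (x : E d) (w : Path d) (t : ℝ≥0) {a : ℝ} (ha : 0 ≤ a) :
    occ x w (Set.Ici ((t : ℝ) + a)) = occ (x + w t) (shift t w) (Set.Ici a) := by
  rw [← occ_shift x w t measurableSet_Ici (Set.Ici_subset_Ici.2 ha)]
  congr 1
  ext s
  simp only [Set.mem_Ici, Set.mem_preimage]
  constructor <;> intro h <;> linarith

/-- before the hitting time nothing is deposited in `K` -/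
theorem identOcc_before {K A : Set (E d)} (hA : MeasurableSet A) (hAK : A ⊆ K)
    (q : E d × Path d) : occ q.1 q.2 (Set.Ico 0 (ht K q : ℝ)) A = 0 := by
  by_contra h
  obtain ⟨t, ht', hmem⟩ := mem_hitS_of_occ_ne_zero measurableSet_Ico hA h
  have hlt : t.toNNReal < ht K q := by
    rw [← NNReal.coe_lt_coe, Real.coe_toNNReal _ ht'.1]
    exact ht'.2
  exact not_mem_of_lt_ht hlt (hAK hmem)

theorem identOcc_le_after {K A : Set (E d)} (hA : MeasurableSet A) (hAK : A ⊆ K)
    (q : E d × Path d) (τ : ℝ) :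
    occ q.1 q.2 (Set.Ico 0 τ) A ≤
      occ (q.1 + q.2 (ht K q)) (shift (ht K q) q.2) (Set.Ici 0) A := by
  have h0 : (0 : ℝ) ≤ ht K q := (ht K q).coe_nonneg
  have hsub : Set.Ico 0 τ ⊆ Set.Ico 0 (ht K q : ℝ) ∪ Set.Ici (ht K q : ℝ) := by
    intro s hs
    rcases lt_or_ge s (ht K q : ℝ) with h | h
    · exact Or.inl ⟨hs.1, h⟩
    · exact Or.inr h
  have hdis : Disjoint (Set.Ico 0 (ht K q : ℝ)) (Set.Ici (ht K q : ℝ)) :=
    Set.disjoint_left.2 fun s hs hs' => absurd hs.2 (not_lt.2 hs')
  calc occ q.1 q.2 (Set.Ico 0 τ) A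
      ≤ occ q.1 q.2 (Set.Ico 0 (ht K q : ℝ) ∪ Set.Ici (ht K q : ℝ)) A :=
        occ_mono q.1 q.2 hsub A
    _ = occ q.1 q.2 (Set.Ici (ht K q : ℝ)) A := by
        rw [occ_union _ _ hdis measurableSet_Ici, Measure.add_apply, identOcc_before hA hAK,
          zero_add]
    _ = _ := by
        rw [← identOcc_shift_Ici q.1 q.2 (ht K q) le_rfl, add_zero]

open Classical in
/-- the functional bounding the occupation after time `τ` -/
def identOccPhi (A : Set (E d)) (τ a : ℝ) (z : (ℝ≥0 × E d) × Path d) : ℝ≥0∞ :=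
  if (z.1.1 : ℝ) ≤ τ - a then occ z.1.2 z.2 (Set.Ici a) A else occ z.1.2 z.2 (Set.Ici 0) A

theorem identOcc_measurable_phi {A : Set (E d)} (hA : MeasurableSet A) (τ a : ℝ) :
    Measurable (identOccPhi A τ a) := by
  have hm : Measurable fun z : (ℝ≥0 × E d) × Path d => (z.1.2, z.2) :=
    (measurable_snd.comp measurable_fst).prodMk measurable_snd
  refine Measurable.ite ?_ ((identOcc_measurable hA _).comp hm)
    ((identOcc_measurable hA _).comp hm)
  exact measurableSet_le (NNReal.continuous_coe.measurable.comp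
    (measurable_fst.comp measurable_fst)) measurable_const

theorem identOcc_after_le {K A : Set (E d)} (q : E d × Path d) (τ : ℝ) {a : ℝ} (ha : 0 ≤ a) :
    occ (q.1 + q.2 (ht K q)) (shift (ht K q) q.2) (Set.Ici 0) A ≤
      occ q.1 q.2 (Set.Ico 0 τ) A +
        identOccPhi A τ a ((ht K q, q.1 + q.2 (ht K q)), shift (ht K q) q.2) := by
  unfold identOccPhi
  split_ifs with h
  · dsimp only at h ⊢
    rw [← identOcc_shift_Ici q.1 q.2 (ht K q) le_rfl, ← identOcc_shift_Ici q.1 q.2 (ht K q) ha,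
      add_zero]
    have h0 : (0 : ℝ) ≤ ht K q := (ht K q).coe_nonneg
    have hsub : Set.Ici (ht K q : ℝ) ⊆ Set.Ico 0 τ ∪ Set.Ici τ := by
      intro s hs
      rcases lt_or_ge s τ with h' | h'
      · exact Or.inl ⟨h0.trans hs, h'⟩
      · exact Or.inr h'
    have hdis : Disjoint (Set.Ico 0 τ) (Set.Ici τ) :=
      Set.disjoint_left.2 fun s hs hs' => absurd hs.2 (not_lt.2 hs')
    calc occ q.1 q.2 (Set.Ici (ht K q : ℝ)) A ≤ occ q.1 q.2 (Set.Ico 0 τ ∪ Set.Ici τ) A :=
          occ_mono q.1 q.2 hsub A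
      _ = occ q.1 q.2 (Set.Ico 0 τ) A + occ q.1 q.2 (Set.Ici τ) A := by
          rw [occ_union _ _ hdis measurableSet_Ici, Measure.add_apply]
      _ ≤ _ := by
          gcongr
          exact occ_mono q.1 q.2 (Set.Ici_subset_Ici.2 (by linarith))
  · exact le_add_self

/-- same comparison for the (unbounded) occupation time of a subset of the ball -/
theorem IsWiener.ident_occ {W : Measure (Path d)} (hW : IsWiener W) (hd : 3 ≤ d) {R : ℝ}
    (hR : 0 < R) {ε : ℝ≥0∞} (hε : 0 < ε) :
    ∃ τ0 : ℝ, 0 < τ0 ∧ ∀ τ, τ0 ≤ τ → ∀ A : Set (E d), MeasurableSet A →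
      A ⊆ Metric.closedBall 0 R →
      ENNReal.ofReal τ * volume A ≤
        ((volume.restrict (Metric.closedBall (0 : E d) R)ᶜ).prod W)
            (hitS (Metric.closedBall 0 R) (Set.Icc 0 τ)) *
          ∫⁻ q, occ q.1 q.2 (Set.Ici 0) A ∂((sphereUnif d R).prod W) + ε * ENNReal.ofReal τ ∧
      ((volume.restrict (Metric.closedBall (0 : E d) R)ᶜ).prod W)
            (hitS (Metric.closedBall 0 R) (Set.Icc 0 τ)) *
          ∫⁻ q, occ q.1 q.2 (Set.Ici 0) A ∂((sphereUnif d R).prod W) ≤
        ENNReal.ofReal τ * volume A + ε * ENNReal.ofReal τ := by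
  haveI := hW.isProbabilityMeasure
  haveI := isProbabilityMeasure_sphereUnif (d := d) R
  set K : Set (E d) := Metric.closedBall 0 R with hKdef
  have hKc : IsClosed K := Metric.isClosed_closedBall
  have hKm : MeasurableSet K := hKc.measurableSet
  have hKfin : volume K ≠ ⊤ := (measure_closedBall_lt_top).ne
  have hK1fin : volume (Metric.thickening 1 K) ≠ ⊤ :=
    ((Metric.isBounded_closedBall.thickening).measure_lt_top).ne
  obtain ⟨C, hC1, -, -⟩ := hW.hit_bounds hd
  set s : ℝ := max 1 (volume K).toReal with hsdef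
  have hs1 : 1 ≤ s := le_max_left _ _
  have hs : 0 < s := by linarith
  have hvolK : volume K ≤ ENNReal.ofReal (s ^ d) := by
    rw [← ENNReal.ofReal_toReal hKfin]
    refine ENNReal.ofReal_le_ofReal ((le_max_right 1 _).trans ?_)
    exact le_self_pow₀ hs1 (by omega)
  set c2 : ℝ≥0∞ := ENNReal.ofReal (3 * s ^ 2) with hc2
  have hc2fin : c2 ≠ ⊤ := ENNReal.ofReal_ne_top
  have hε2 : 0 < ε / 2 := ENNReal.half_pos hε.ne'
  obtain ⟨a, ha, haε⟩ := identOcc_exists_a hd
    (B := volume K * (C * 2 * volume (Metric.thickening 1 K)))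
    (ENNReal.mul_ne_top hKfin (ENNReal.mul_ne_top (ENNReal.mul_ne_top ENNReal.coe_ne_top
      (by norm_num)) hK1fin)) hε2
  obtain ⟨τ1, hτ1, h1⟩ := identOcc_exists_tau (B := volume K * c2)
    (ENNReal.mul_ne_top hKfin hc2fin) hε
  obtain ⟨τ2, hτ2, h2⟩ := identOcc_exists_tau
    (B := c2 * (C * ENNReal.ofReal (a + 1) * volume (Metric.thickening 1 K)))
    (ENNReal.mul_ne_top hc2fin (ENNReal.mul_ne_top (ENNReal.mul_ne_top ENNReal.coe_ne_top
      ENNReal.ofReal_ne_top) hK1fin)) hε2
  refine ⟨max (max 1 a) (max τ1 τ2), by positivity, fun τ hτ A hA hAK => ?_⟩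
  have hτ1' : 1 ≤ τ := ((le_max_left _ _).trans (le_max_left _ _)).trans hτ
  have hτa : a ≤ τ := ((le_max_right _ _).trans (le_max_left _ _)).trans hτ
  have hττ1 : τ1 ≤ τ := ((le_max_left _ _).trans (le_max_right _ _)).trans hτ
  have hττ2 : τ2 ≤ τ := ((le_max_right _ _).trans (le_max_right _ _)).trans hτ
  set P : Measure (E d × Path d) := (volume.restrict Kᶜ).prod W with hP
  set S : Set (E d × Path d) := hitS K (Set.Icc 0 τ) with hS
  have hSm : MeasurableSet S := (isClosed_hitS_Icc hKc 0 τ).measurableSet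
  have hPle : P ≤ (volume : Measure (E d)).prod W := by
    rw [hP, Measure.restrict_prod_eq_prod_univ]
    exact Measure.restrict_le_self
  have hvolA : volume A ≤ ENNReal.ofReal (s ^ d) := (measure_mono hAK).trans hvolK
  have htot : ∀ y : E d, ∫⁻ w, occ y w (Set.Ici 0) A ∂W ≤ c2 := fun y =>
    hW.occ_total_le hd y hs hA hvolA
  have hlate : ∀ y : E d, ∫⁻ w, occ y w (Set.Ici a) A ∂W ≤
      ENNReal.ofReal (2 * a ^ (1 - (d : ℝ) / 2)) * volume K := fun y =>
    (hW.occ_late_le hd y ha hA).trans (by gcongr)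
  -- total occupation up to time `τ`
  have hvol : ∫⁻ q, occ q.1 q.2 (Set.Ico 0 τ) A ∂((volume : Measure (E d)).prod W) =
      ENNReal.ofReal τ * volume A := by
    have h := hW.lintegral_volume_occ (Set.Ico 0 τ)
      (f := A.indicator fun _ => (1 : ℝ≥0∞)) (measurable_const.indicator hA)
    simp only [lintegral_indicator hA, lintegral_const, one_mul, Measure.restrict_apply,
      MeasurableSet.univ, Set.univ_inter, Real.volume_Ico, sub_zero] at h
    exact h
  -- entrance formula
  have hg : Measurable fun y : E d => ∫⁻ w, occ y w (Set.Ici 0) A ∂W :=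
    (identOcc_measurable hA (Set.Ici 0)).lintegral_prod_right'
  have hent : P S * ∫⁻ q, occ q.1 q.2 (Set.Ici 0) A ∂((sphereUnif d R).prod W) =
      ∫⁻ q in S, occ (q.1 + q.2 (ht K q)) (shift (ht K q) q.2) (Set.Ici 0) A ∂P := by
    have hm : Measurable fun z : (ℝ≥0 × E d) × Path d => (z.1.2, z.2) :=
      (measurable_snd.comp measurable_fst).prodMk measurable_snd
    have h3 := hW.strong_markov hKc (volume.restrict Kᶜ) τ
      (Φ := fun z => occ z.1.2 z.2 (Set.Ici 0) A) ((identOcc_measurable hA _).comp hm)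
    dsimp only at h3
    rw [h3, lintegral_prod _ (identOcc_measurable hA (Set.Ici 0)).aemeasurable]
    exact (hW.entrance hd hR τ hg).symm
  rw [hent, ← hvol]
  have hocc := identOcc_measurable hA (Set.Ico 0 τ)
  constructor
  · -- split according to the starting point
    have hsplit : (volume : Measure (E d)).prod W =
        P + (volume.restrict K).prod W := by
      rw [hP, ← Measure.add_prod, add_comm, Measure.restrict_add_restrict_compl hKm]
    rw [hsplit, lintegral_add_measure]
    refine add_le_add ?_ ?_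
    · rw [← lintegral_add_compl _ hSm]
      have hz : ∫⁻ q in Sᶜ, occ q.1 q.2 (Set.Ico 0 τ) A ∂P = 0 := by
        refine setLIntegral_eq_zero hSm.compl fun q hq => ?_
        by_contra h
        exact hq (hitS_mono hAK Set.Ico_subset_Icc_self
          (mem_hitS_of_occ_ne_zero measurableSet_Ico hA h))
      rw [hz, add_zero]
      exact lintegral_mono fun q => identOcc_le_after hA hAK q τ
    · refine le_trans ?_ (h1 τ hττ1)
      rw [lintegral_prod _ hocc.aemeasurable]
      calc ∫⁻ x in K, ∫⁻ w, occ x w (Set.Ico 0 τ) A ∂W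
          ≤ ∫⁻ _ in K, c2 := lintegral_mono fun x =>
            (lintegral_mono fun w => occ_mono x w Set.Ico_subset_Ici_self A).trans (htot x)
        _ = volume K * c2 := by rw [setLIntegral_const, mul_comm]
  · have hHm : Measurable (ht K) := measurable_ht hKc
    set T : Set (E d × Path d) := {q | τ - a < (ht K q : ℝ)} with hT
    have hTm : MeasurableSet T :=
      measurableSet_lt measurable_const (NNReal.continuous_coe.measurable.comp hHm)
    set c1 : ℝ≥0∞ := ENNReal.ofReal (2 * a ^ (1 - (d : ℝ) / 2)) * volume K with hc1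
    have hphi : ∀ q : E d × Path d,
        ∫⁻ w', identOccPhi A τ a ((ht K q, q.1 + q.2 (ht K q)), w') ∂W ≤
          c1 + T.indicator (fun _ => c2) q := by
      intro q
      by_cases h : (ht K q : ℝ) ≤ τ - a
      · simp only [identOccPhi, h, if_true]
        exact (hlate _).trans le_self_add
      · simp only [identOccPhi, h, if_false]
        have hq : q ∈ T := not_le.1 h
        rw [Set.indicator_of_mem hq]
        exact (htot _).trans le_add_self
    have hPS : P S ≤ C * 2 * volume (Metric.thickening 1 K) * ENNReal.ofReal τ := by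
      refine (hPle S).trans ((hC1 K 0 τ le_rfl (by linarith)).trans ?_)
      have : ENNReal.ofReal (τ - 0 + 1) ≤ 2 * ENNReal.ofReal τ := by
        rw [← ENNReal.ofReal_ofNat 2, ← ENNReal.ofReal_mul (by norm_num)]
        exact ENNReal.ofReal_le_ofReal (by linarith)
      calc (C : ℝ≥0∞) * ENNReal.ofReal (τ - 0 + 1) * volume (Metric.thickening 1 K)
          ≤ C * (2 * ENNReal.ofReal τ) * volume (Metric.thickening 1 K) := by gcongr
        _ = _ := by ring
    have hPT : P (T ∩ S) ≤ C * ENNReal.ofReal (a + 1) * volume (Metric.thickening 1 K) := by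
      have hsub : T ∩ S ⊆ hitS K (Set.Icc (τ - a) τ) := by
        rintro q ⟨hqT, hqS⟩
        obtain ⟨hm1, hm2⟩ := ht_mem hKc hqS
        exact ⟨ht K q, ⟨le_of_lt hqT, hm2⟩, by rwa [Real.toNNReal_coe]⟩
      refine (measure_mono hsub).trans ((hPle _).trans ?_)
      have := hC1 K (τ - a) τ (by linarith) (by linarith)
      rwa [show τ - (τ - a) + 1 = a + 1 by ring] at this
    calc ∫⁻ q in S, occ (q.1 + q.2 (ht K q)) (shift (ht K q) q.2) (Set.Ici 0) A ∂P
        ≤ ∫⁻ q in S, (occ q.1 q.2 (Set.Ico 0 τ) A +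
            identOccPhi A τ a ((ht K q, q.1 + q.2 (ht K q)), shift (ht K q) q.2)) ∂P :=
          lintegral_mono fun q => identOcc_after_le q τ ha.le
      _ = ∫⁻ q in S, occ q.1 q.2 (Set.Ico 0 τ) A ∂P + ∫⁻ q in S,
            identOccPhi A τ a ((ht K q, q.1 + q.2 (ht K q)), shift (ht K q) q.2) ∂P :=
          lintegral_add_left hocc _
      _ ≤ _ := by
          refine add_le_add (lintegral_mono' (Measure.restrict_le_self.trans hPle) le_rfl) ?_
          rw [hW.strong_markov hKc (volume.restrict Kᶜ) τ (identOcc_measurable_phi hA τ a)]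
          calc ∫⁻ q in S, (∫⁻ w', identOccPhi A τ a ((ht K q, q.1 + q.2 (ht K q)), w') ∂W) ∂P
              ≤ ∫⁻ q in S, (c1 + T.indicator (fun _ => c2) q) ∂P := lintegral_mono hphi
            _ = c1 * P S + c2 * P (T ∩ S) := by
                rw [lintegral_add_left measurable_const, setLIntegral_const,
                  lintegral_indicator hTm, setLIntegral_const, Measure.restrict_apply hTm]
            _ ≤ c1 * (C * 2 * volume (Metric.thickening 1 K) * ENNReal.ofReal τ) +
                c2 * (C * ENNReal.ofReal (a + 1) * volume (Metric.thickening 1 K)) := by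
                gcongr
            _ ≤ ε / 2 * ENNReal.ofReal τ + ε / 2 * ENNReal.ofReal τ := by
                refine add_le_add ?_ (h2 τ hττ2)
                rw [← mul_assoc]
                gcongr
                rw [hc1, mul_assoc]
                exact haε
            _ = ε * ENNReal.ofReal τ := by rw [← add_mul, ENNReal.add_halves]

end Pool.Agent.Lib.MP_fe8b6f_pr
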