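import Pool.Agent.Lib.MP_fe8b6f_pr.IdD
import Pool.Agent.Lib.MP_fe8b6f_pr.CPb

/-! The entrance mass grows like capacity times time; main identification. Part 2. -/

open MeasureTheory ProbabilityTheory
open scoped NNReal ENNReal

noncomputable section

namespace Pool.Agent.Lib.MP_fe8b6f_pr

variable {d : ℕ}

theorem ident2_arith {t m J X c ε : ℝ≥0∞} (h0 : t ≠ 0) (ht : t ≠ ⊤) (hJ : J ≤ 1)
    (h3 : X ≤ m * J + ε / 2 * t) (h4 : m * J ≤ X + ε / 2 * t) (h5 : c - ε / 2 ≤ m / t)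
    (h6 : m / t ≤ c + ε / 2) : t⁻¹ * X ≤ c * J + ε ∧ c * J ≤ t⁻¹ * X + ε := by
  have e1 : t⁻¹ * (ε / 2 * t) = ε / 2 := by
    rw [mul_comm (ε / 2), ← mul_assoc, ENNReal.inv_mul_cancel h0 ht, one_mul]
  have e2 : t⁻¹ * (m * J) = m / t * J := by
    rw [div_eq_mul_inv]
    ring
  have e3 : ε / 2 * J ≤ ε / 2 := mul_le_of_le_one_right' hJ
  constructor
  · calc t⁻¹ * X ≤ t⁻¹ * (m * J + ε / 2 * t) := by gcongr
      _ = m / t * J + ε / 2 := by rw [mul_add, e1, e2]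
      _ ≤ (c + ε / 2) * J + ε / 2 := by gcongr
      _ ≤ c * J + ε / 2 + ε / 2 := by
        rw [add_mul]
        gcongr
      _ = c * J + ε := by rw [add_assoc, ENNReal.add_halves]
  · calc c * J ≤ (m / t + ε / 2) * J := by
          gcongr
          exact tsub_le_iff_right.1 h5
      _ ≤ t⁻¹ * (m * J) + ε / 2 := by
        rw [add_mul, e2]
        gcongr
      _ ≤ t⁻¹ * (X + ε / 2 * t) + ε / 2 := by gcongr
      _ = t⁻¹ * X + ε := by rw [mul_add, e1, add_assoc, ENNReal.add_halves]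

theorem IsWiener.ident {W : Measure (Path d)} (hW : IsWiener W) (hd : 3 ≤ d) {R : ℝ}
    (hR : 0 < R) {ε : ℝ≥0∞} (hε : 0 < ε) :
    ∃ τ0 : ℝ, 0 < τ0 ∧ ∀ τ, τ0 ≤ τ → ∀ F : Measure (E d) → ℝ≥0∞, Measurable F →
      (∀ μ, F μ ≤ 1) → F 0 = 0 →
      (ENNReal.ofReal τ)⁻¹ * ∫⁻ q, F ((occ q.1 q.2 (Set.Ico 0 τ)).restrict (Metric.closedBall 0 R))
          ∂((volume : Measure (E d)).prod W) ≤
        ENNReal.ofReal (capBall d R) *
          ∫⁻ q, F ((occ q.1 q.2 (Set.Ici 0)).restrict (Metric.closedBall 0 R))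
            ∂((sphereUnif d R).prod W) + ε ∧
      ENNReal.ofReal (capBall d R) *
          ∫⁻ q, F ((occ q.1 q.2 (Set.Ici 0)).restrict (Metric.closedBall 0 R))
            ∂((sphereUnif d R).prod W) ≤
        (ENNReal.ofReal τ)⁻¹ *
          ∫⁻ q, F ((occ q.1 q.2 (Set.Ico 0 τ)).restrict (Metric.closedBall 0 R))
            ∂((volume : Measure (E d)).prod W) + ε := by
  have hW1 := hW.isProbabilityMeasure
  have hS := isProbabilityMeasure_sphereUnif (d := d) R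
  have hε2 : 0 < ε / 2 := ENNReal.half_pos hε.ne'
  obtain ⟨τ1, hτ1, h1⟩ := hW.ident_mass hd hR hε2
  obtain ⟨τ2, h2⟩ := Filter.eventually_atTop.1
    ((ENNReal.tendsto_nhds ENNReal.ofReal_ne_top).1 (hW.tendsto_mass hd hR) _ hε2)
  refine ⟨max τ1 τ2, lt_max_of_lt_left hτ1, fun τ hτ F hF hF1 hF0 => ?_⟩
  obtain ⟨h3, h4⟩ := h1 τ (le_of_max_le_left hτ) F hF hF1 hF0
  obtain ⟨h5, h6⟩ := h2 τ (le_of_max_le_right hτ)
  have hJ : ∫⁻ q, F ((occ q.1 q.2 (Set.Ici 0)).restrict (Metric.closedBall 0 R))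
      ∂((sphereUnif d R).prod W) ≤ 1 := by
    refine (lintegral_mono fun q => hF1 _).trans_eq ?_
    simp
  have ht0 : ENNReal.ofReal τ ≠ 0 :=
    (ENNReal.ofReal_pos.2 (hτ1.trans_le (le_of_max_le_left hτ))).ne'
  exact ident2_arith ht0 ENNReal.ofReal_ne_top hJ h3 h4 h5 h6

theorem IsWiener.isFiniteMeasure_nuI {W : Measure (Path d)} (hW : IsWiener W) (R : ℝ)
    (φ : Measure (E d) → Measure (E d)) : IsFiniteMeasure (nuI W R φ) := by
  have hW1 := hW.isProbabilityMeasure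
  have hS := isProbabilityMeasure_sphereUnif (d := d) R
  exact Measure.smul_finite _ ENNReal.ofReal_ne_top

/-- version for the intensity seen in a cube contained in the ball -/
theorem IsWiener.ident_loc {W : Measure (Path d)} (hW : IsWiener W) (hd : 3 ≤ d) {R s : ℝ}
    (hR : 0 < R) {a : E d} (ha : cube a s ⊆ Metric.closedBall 0 R) {ε : ℝ≥0∞} (hε : 0 < ε) :
    ∃ τ0 : ℝ, 0 < τ0 ∧ ∀ τ, τ0 ≤ τ → ∀ F : Measure (E d) → ℝ≥0∞, Measurable F →
      (∀ μ, F μ ≤ 1) → F 0 = 0 →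
      (ENNReal.ofReal τ)⁻¹ * ∫⁻ q, F (loc 0 s (occ q.1 q.2 (Set.Ico 0 τ)))
          ∂((volume : Measure (E d)).prod W) ≤ ∫⁻ μ, F μ ∂(nuI W R (loc a s)) + ε ∧
      ∫⁻ μ, F μ ∂(nuI W R (loc a s)) ≤
        (ENNReal.ofReal τ)⁻¹ * ∫⁻ q, F (loc 0 s (occ q.1 q.2 (Set.Ico 0 τ)))
          ∂((volume : Measure (E d)).prod W) + ε := by
  have hW1 := hW.isProbabilityMeasure
  obtain ⟨τ0, hτ0, h⟩ := hW.ident hd hR hε
  refine ⟨τ0, hτ0, fun τ hτ F hF hF1 hF0 => ?_⟩
  have h1 := h τ hτ (fun μ => F (loc a s μ)) (hF.comp (measurable_loc a s)) (fun μ => hF1 _)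
    (by simp only [loc_zero, hF0])
  simp only [loc_restrict measurableSet_closedBall ha] at h1
  have h2 : ∫⁻ μ, F μ ∂(nuI W R (loc a s)) = ENNReal.ofReal (capBall d R) *
      ∫⁻ q, F (loc a s (occ q.1 q.2 (Set.Ici 0))) ∂((sphereUnif d R).prod W) := by
    rw [nuI, lintegral_smul_measure, smul_eq_mul]
    congr 1
    exact lintegral_map hF ((measurable_loc a s).comp measurable_occ)
  have h3 : ∫⁻ q, F (loc a s (occ q.1 q.2 (Set.Ico 0 τ))) ∂((volume : Measure (E d)).prod W) =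
      ∫⁻ q, F (loc 0 s (occ q.1 q.2 (Set.Ico 0 τ))) ∂((volume : Measure (E d)).prod W) := by
    have h4 := ((measurePreserving_sub_right (volume : Measure (E d)) a).prod
      (MeasurePreserving.id W)).lintegral_comp
      (f := fun q : E d × Path d => F (loc 0 s (occ q.1 q.2 (Set.Ico 0 τ))))
      (hF.comp ((measurable_loc 0 s).comp measurable_occ))
    rw [← h4]
    refine lintegral_congr fun q => ?_
    simp only [loc, sh_occ, Prod.map_fst, Prod.map_snd, id, sub_zero]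
  rw [h2, ← h3]
  exact h1

/-- the law seen in a cube depends neither on the ball nor on the position of the cube -/
theorem IsWiener.CP_nuI_loc {W : Measure (Path d)} (hW : IsWiener W) (hd : 3 ≤ d) {R s : ℝ}
    (hR : 0 < R) (hs : 0 < s) {a : E d} (ha : cube a s ⊆ Metric.closedBall 0 R) :
    CP (nuI W R (loc a s)) = PL W s := by
  have hR' : 0 < √(d : ℝ) * s + 1 := by positivity
  have ha' : cube (0 : E d) s ⊆ Metric.closedBall 0 (√(d : ℝ) * s + 1) :=
    (cube_subset_closedBall hs.le).trans (Metric.closedBall_subset_closedBall (by linarith))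
  have i1 := hW.isFiniteMeasure_nuI R (loc a s)
  have i2 := hW.isFiniteMeasure_nuI (√(d : ℝ) * s + 1) (loc 0 s)
  refine CP_eq_of_close measurableSet_zero_measure _ _ fun A hA h0 => ?_
  have key : ∀ ε : ℝ≥0∞, 0 < ε →
      nuI W R (loc a s) A ≤ nuI W (√(d : ℝ) * s + 1) (loc 0 s) A + ε ∧
      nuI W (√(d : ℝ) * s + 1) (loc 0 s) A ≤ nuI W R (loc a s) A + ε := by
    intro ε hε
    have hε2 : 0 < ε / 2 := ENNReal.half_pos hε.ne'
    obtain ⟨τ1, -, h1⟩ := hW.ident_loc hd hR ha hε2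
    obtain ⟨τ2, -, h2⟩ := hW.ident_loc hd hR' ha' hε2
    have hF : Measurable (A.indicator (1 : Measure (E d) → ℝ≥0∞)) := measurable_one.indicator hA
    have hF1 : ∀ μ, A.indicator (1 : Measure (E d) → ℝ≥0∞) μ ≤ 1 :=
      fun μ => Set.indicator_le_self _ _ μ
    obtain ⟨h3, h4⟩ := h1 _ (le_max_left τ1 τ2) _ hF hF1 (Set.indicator_of_notMem h0 _)
    obtain ⟨h5, h6⟩ := h2 _ (le_max_right τ1 τ2) _ hF hF1 (Set.indicator_of_notMem h0 _)
    rw [lintegral_indicator_one hA] at h3 h4 h5 h6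
    constructor
    · refine h4.trans ((add_le_add_left h5 _).trans_eq ?_)
      rw [add_assoc, ENNReal.add_halves]
    · refine h6.trans ((add_le_add_left h3 _).trans_eq ?_)
      rw [add_assoc, ENNReal.add_halves]
  exact le_antisymm
    (ENNReal.le_of_forall_pos_le_add fun ε hε _ => (key ε (ENNReal.coe_pos.2 hε)).1)
    (ENNReal.le_of_forall_pos_le_add fun ε hε _ => (key ε (ENNReal.coe_pos.2 hε)).2)

end Pool.Agent.Lib.MP_fe8b6f_pr
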