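import Pool.Agent.Lib.MP_fe8b6f_pr.BMb

/-! Kac moment bound. -/

open MeasureTheory ProbabilityTheory
open scoped NNReal ENNReal

noncomputable section

namespace Pool.Agent.Lib.MP_fe8b6f_pr

variable {d : ℕ}

theorem pow_le_mul_lintegral_tail (ρ : Measure ℝ) [SigmaFinite ρ] (k : ℕ) :
    ρ Set.univ ^ (k + 1) ≤ (k + 1 : ℝ≥0∞) * ∫⁻ t, ρ (Set.Ici t) ^ k ∂ρ := by
  have hT : MeasurableSet {z : ℝ × (Fin k → ℝ) | ∀ j, z.1 ≤ z.2 j} := by
    rw [Set.ofPred_forall]
    exact MeasurableSet.iInter fun j => measurableSet_le measurable_fst (by fun_prop)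
  have h1 : ∀ i : Fin (k + 1), Measure.pi (fun _ : Fin (k + 1) => ρ) {f | ∀ j, f i ≤ f j} ≤
      ∫⁻ t, ρ (Set.Ici t) ^ k ∂ρ := by
    intro i
    have hp := measurePreserving_piFinSuccAbove (fun _ : Fin (k + 1) => ρ) i
    have h2 : {f : Fin (k + 1) → ℝ | ∀ j, f i ≤ f j} ⊆
        MeasurableEquiv.piFinSuccAbove (fun _ => ℝ) i ⁻¹' {z | ∀ j, z.1 ≤ z.2 j} :=
      fun f hf j => hf _
    refine (measure_mono h2).trans (le_of_eq ?_)
    rw [hp.measure_preimage hT.nullMeasurableSet, Measure.prod_apply hT]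
    refine lintegral_congr fun t => ?_
    have e : Prod.mk t ⁻¹' {z : ℝ × (Fin k → ℝ) | ∀ j, z.1 ≤ z.2 j} =
        Set.univ.pi fun _ => Set.Ici t := by
      ext g
      exact ⟨fun h j _ => h j, fun h j => h j trivial⟩
    rw [e, Measure.pi_pi, Finset.prod_const, Finset.card_univ, Fintype.card_fin]
  have h3 : (Set.univ : Set (Fin (k + 1) → ℝ)) ⊆ ⋃ i, {f | ∀ j, f i ≤ f j} := fun f _ => by
    obtain ⟨i, hi⟩ := Finite.exists_min f
    exact Set.mem_iUnion.2 ⟨i, hi⟩
  calc ρ Set.univ ^ (k + 1) = Measure.pi (fun _ : Fin (k + 1) => ρ) Set.univ := by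
        rw [Measure.pi_univ, Finset.prod_const, Finset.card_univ, Fintype.card_fin]
    _ ≤ ∑ i : Fin (k + 1), Measure.pi (fun _ : Fin (k + 1) => ρ) {f | ∀ j, f i ≤ f j} :=
        (measure_mono h3).trans (measure_iUnion_fintype_le _ _)
    _ ≤ ∑ _i : Fin (k + 1), ∫⁻ t, ρ (Set.Ici t) ^ k ∂ρ := Finset.sum_le_sum fun i _ => h1 i
    _ = _ := by
        rw [Finset.sum_const, Finset.card_univ, Fintype.card_fin, nsmul_eq_mul, Nat.cast_succ]

theorem kac_meas (x : E d) (w : Path d) : Measurable fun t : ℝ => x + w t.toNNReal :=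
  (continuous_const.add (w.continuous.comp continuous_real_toNNReal)).measurable

theorem kac_occ (x : E d) (w : Path d) (I : Set ℝ) {A : Set (E d)} (hA : MeasurableSet A) :
    occ x w I A = volume ((fun t : ℝ => x + w t.toNNReal) ⁻¹' A ∩ I) := by
  rw [occ, Measure.map_apply (kac_meas x w) hA, Measure.restrict_apply (kac_meas x w hA)]

/-- pathwise form: split along the first of the `k + 1` times -/
theorem kac_path (x : E d) (w : Path d) {A : Set (E d)} (hA : MeasurableSet A) (k : ℕ) :
    occ x w (Set.Ici 0) A ^ (k + 1) ≤ (k + 1 : ℝ≥0∞) * ∫⁻ t in Set.Ici (0 : ℝ),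
      A.indicator 1 (x + w t.toNNReal) *
        occ (x + w t.toNNReal) (shift t.toNNReal w) (Set.Ici 0) A ^ k := by
  have hB := kac_meas x w hA
  have h := pow_le_mul_lintegral_tail (((volume : Measure ℝ).restrict (Set.Ici 0)).restrict
    ((fun t : ℝ => x + w t.toNNReal) ⁻¹' A)) k
  rw [Measure.restrict_apply_univ, Measure.restrict_apply hB, ← kac_occ x w _ hA,
    ← lintegral_indicator hB] at h
  refine h.trans (le_of_eq ?_)
  congr 1
  refine setLIntegral_congr_fun measurableSet_Ici fun t ht => ?_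
  by_cases hx : x + w t.toNNReal ∈ A
  · have ht' : (0 : ℝ) ≤ t := ht
    have e : (fun s => s - ((t.toNNReal : ℝ≥0) : ℝ)) ⁻¹' Set.Ici 0 = Set.Ici t := by
      ext s
      simp [Real.coe_toNNReal t ht']
    beta_reduce
    rw [Set.indicator_of_mem (show t ∈ (fun t : ℝ => x + w t.toNNReal) ⁻¹' A from hx),
      Set.indicator_of_mem hx, Pi.one_apply, one_mul,
      ← occ_shift x w t.toNNReal measurableSet_Ici subset_rfl, e, kac_occ x w _ hA,
      Measure.restrict_apply measurableSet_Ici,
      Measure.restrict_apply (measurableSet_Ici.inter hB), Set.inter_comm (Set.Ici t),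
      Set.inter_assoc, Set.inter_eq_left.2 (Set.Ici_subset_Ici.2 ht')]
  · beta_reduce
    rw [Set.indicator_of_notMem (show t ∉ (fun t : ℝ => x + w t.toNNReal) ⁻¹' A from hx),
      Set.indicator_of_notMem hx, zero_mul]

theorem IsWiener.kac {W : Measure (Path d)} (hW : IsWiener W) {A : Set (E d)}
    (hA : MeasurableSet A) {a : ℝ≥0∞} (ha : ∀ y, ∫⁻ w, occ y w (Set.Ici 0) A ∂W ≤ a)
    (k : ℕ) (x : E d) :
    ∫⁻ w, occ x w (Set.Ici 0) A ^ (k + 1) ∂W ≤
      (Nat.factorial (k + 1) : ℝ≥0∞) * a ^ k * ∫⁻ w, occ x w (Set.Ici 0) A ∂W := by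
  have := hW.isProbabilityMeasure
  have hg : Measurable fun q : E d × Path d => occ q.1 q.2 (Set.Ici 0) A :=
    (Measure.measurable_coe hA).comp measurable_occ
  have hi : Measurable (A.indicator (1 : E d → ℝ≥0∞)) := measurable_one.indicator hA
  induction k generalizing x with
  | zero => simp
  | succ k ih =>
    have hev : Measurable fun q : Path d × ℝ => x + q.1 q.2.toNNReal :=
      measurable_const.add (measurable_path_eval.comp
        (measurable_fst.prodMk (measurable_real_toNNReal.comp measurable_snd)))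
    have hsh : Measurable fun q : Path d × ℝ => shift q.2.toNNReal q.1 :=
      continuous_shift.measurable.comp
        ((measurable_real_toNNReal.comp measurable_snd).prodMk measurable_fst)
    have h1 : Measurable fun q : Path d × ℝ => A.indicator (1 : E d → ℝ≥0∞) (x + q.1 q.2.toNNReal) :=
      hi.comp hev
    have h2 : Measurable fun q : Path d × ℝ => A.indicator 1 (x + q.1 q.2.toNNReal) *
        occ (x + q.1 q.2.toNNReal) (shift q.2.toNNReal q.1) (Set.Ici 0) A ^ (k + 1) :=
      h1.mul ((hg.comp (hev.prodMk hsh)).pow_const _)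
    have h3 : ∀ t : ℝ≥0, ∫⁻ w, A.indicator 1 (x + w t) *
        occ (x + w t) (shift t w) (Set.Ici 0) A ^ (k + 1) ∂W ≤
        ∫⁻ w, A.indicator 1 (x + w t) * ((Nat.factorial (k + 1) : ℝ≥0∞) * a ^ (k + 1)) ∂W := by
      intro t
      have he : Measurable fun q : Path d × Path d => x + q.1 t :=
        measurable_const.add ((measurable_ev t).comp measurable_fst)
      have hm := hW.markov t (Φ := fun q => A.indicator 1 (x + q.1 t) *
        occ (x + q.1 t) q.2 (Set.Ici 0) A ^ (k + 1))
        ((hi.comp he).mul ((hg.comp (he.prodMk measurable_snd)).pow_const _))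
      simp only [stop_apply, min_self] at hm
      rw [hm]
      refine lintegral_mono fun w => ?_
      have hm2 : Measurable fun w' : Path d => occ (x + w t) w' (Set.Ici 0) A ^ (k + 1) :=
        (hg.comp measurable_prodMk_left).pow_const _
      beta_reduce
      rw [lintegral_const_mul _ hm2]
      refine mul_le_mul_right ((ih _).trans ?_) _
      rw [pow_succ, ← mul_assoc]
      exact mul_le_mul_right (ha _) _
    refine (lintegral_mono fun w => kac_path x w hA (k + 1)).trans ?_
    rw [lintegral_const_mul' _ _ (by finiteness), lintegral_lintegral_swap h2.aemeasurable]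
    refine (mul_le_mul_right (lintegral_mono fun t : ℝ => h3 t.toNNReal) _).trans (le_of_eq ?_)
    rw [← lintegral_lintegral_swap (h1.mul_const _).aemeasurable]
    have h4 : ∀ w : Path d, ∫⁻ t in Set.Ici (0 : ℝ), A.indicator 1 (x + w t.toNNReal) *
        ((Nat.factorial (k + 1) : ℝ≥0∞) * a ^ (k + 1)) =
        occ x w (Set.Ici 0) A * ((Nat.factorial (k + 1) : ℝ≥0∞) * a ^ (k + 1)) := by
      intro w
      have h5 : Measurable fun t : ℝ => A.indicator (1 : E d → ℝ≥0∞) (x + w t.toNNReal) :=
        hi.comp (kac_meas x w)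
      rw [lintegral_mul_const _ h5, ← lintegral_indicator_one hA, lintegral_occ x w _ hi]
    simp only [h4]
    have h6 : Measurable fun w : Path d => occ x w (Set.Ici 0) A := hg.comp measurable_prodMk_left
    rw [lintegral_mul_const _ h6, Nat.factorial_succ (k + 1)]
    push_cast
    ring

end Pool.Agent.Lib.MP_fe8b6f_pr
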