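import Pool.Agent.Lib.MP_fe8b6f_pr.OTa
import Pool.Agent.Lib.MP_fe8b6f_pr.Grid

/-! One refinement step: a Knothe type rearrangement of a piecewise constant density. Part 1. -/

open MeasureTheory ProbabilityTheory
open scoped NNReal ENNReal

noncomputable section

namespace Pool.Agent.Lib.MP_fe8b6f_pr

variable {d : ℕ}

/-- the affine map sending the unit cube onto `box a b` -/
def knaAff (a b : E d) (u : E d) : E d :=
  a + Matrix.toLpLin 2 2 (Matrix.diagonal fun i => b i - a i) u

theorem knaAff_apply (a b u : E d) (i : Fin d) :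
    knaAff a b u i = a i + (b i - a i) * u i := by
  simp [knaAff, Matrix.toLpLin_apply, Matrix.mulVec_diagonal]

theorem knaAff_measurable (a b : E d) : Measurable (knaAff a b) := by
  unfold knaAff
  exact (continuous_const.add (LinearMap.continuous_of_finiteDimensional _)).measurable

theorem knaAff_map_volume {a b : E d} (h : ∀ i, a i < b i) :
    (volume : Measure (E d)).map (knaAff a b) = (volume (box a b))⁻¹ • volume := by
  have hpos : 0 < ∏ i, (b i - a i) := Finset.prod_pos fun i _ => sub_pos.2 (h i)
  set L : E d →ₗ[ℝ] E d := Matrix.toLpLin 2 2 (Matrix.diagonal fun i => b i - a i) with hL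
  have hdet : LinearMap.det L = ∏ i, (b i - a i) := by
    rw [hL, LinearMap.det_toLpLin, Matrix.det_diagonal]
  have hLm : Measurable L := (LinearMap.continuous_of_finiteDimensional L).measurable
  have h1 : (volume : Measure (E d)).map L = ENNReal.ofReal |(LinearMap.det L)⁻¹| • volume :=
    Measure.map_linearMap_addHaar_eq_smul_addHaar volume (by rw [hdet]; exact hpos.ne')
  have h2 : knaAff a b = (fun x => a + x) ∘ L := rfl
  rw [h2, ← Measure.map_map (measurable_const_add a) hLm, h1, Measure.map_smul,
    map_add_left_eq_self, volume_box, hdet, abs_of_pos (inv_pos.2 hpos),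
    ENNReal.ofReal_inv_of_pos hpos,
    ENNReal.ofReal_prod_of_nonneg fun i _ => (sub_pos.2 (h i)).le]

theorem knaAff_preimage {a b : E d} (h : ∀ i, a i < b i) :
    knaAff a b ⁻¹' box a b = cube 0 1 := by
  ext u
  simp only [box, cube, Set.mem_preimage, Set.mem_ofPred_eq, knaAff_apply, PiLp.zero_apply,
    zero_add]
  refine forall_congr' fun i => ?_
  have hi : 0 < b i - a i := sub_pos.2 (h i)
  constructor
  · rintro ⟨h1, h2⟩
    constructor
    · by_contra hc
      push Not at hc
      nlinarith
    · by_contra hc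
      push Not at hc
      nlinarith
  · rintro ⟨h1, h2⟩
    constructor <;> nlinarith

theorem knaAff_map_cube {a b : E d} (h : ∀ i, a i < b i) (m : ℝ≥0∞) :
    (m • (volume : Measure (E d)).restrict (cube 0 1)).map (knaAff a b) =
      (m / volume (box a b)) • volume.restrict (box a b) := by
  rw [Measure.map_smul, ← knaAff_preimage h,
    ← Measure.restrict_map (knaAff_measurable a b) (measurableSet_box a b),
    knaAff_map_volume h, Measure.restrict_smul, smul_smul, div_eq_mul_inv]

/-- affine map between two boxes -/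
theorem Wp_box {p : ℝ} (hp : 0 ≤ p) {a b a' b' : E d} (h : ∀ i, a i < b i)
    (h' : ∀ i, a' i < b' i) {D : ℝ} (hD : 0 ≤ D) (ha : ∀ i, |a i - a' i| ≤ D)
    (hb : ∀ i, |b i - b' i| ≤ D) {m : ℝ≥0∞} (hm : m ≠ ⊤) :
    Wp p ((m / volume (box a b)) • volume.restrict (box a b))
      ((m / volume (box a' b')) • volume.restrict (box a' b')) ≤
      ENNReal.ofReal (√d * D) ^ p * m := by
  rw [← knaAff_map_cube h m, ← knaAff_map_cube h' m]
  refine (Wp_plan_le p _ (knaAff_measurable a b) (knaAff_measurable a' b')).trans ?_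
  rw [lintegral_smul_measure, smul_eq_mul, mul_comm]
  gcongr
  have key : ∀ u ∈ cube (0 : E d) 1,
      ‖knaAff a b u - knaAff a' b' u‖ₑ ^ p ≤ ENNReal.ofReal (√d * D) ^ p := by
    intro u hu
    refine ENNReal.rpow_le_rpow ?_ hp
    rw [← ofReal_norm]
    refine ENNReal.ofReal_le_ofReal (norm_sub_le_of_coord hD fun i => ?_)
    have hi := hu i
    simp only [PiLp.zero_apply, zero_add] at hi
    rw [knaAff_apply, knaAff_apply]
    have e : a i + (b i - a i) * u i - (a' i + (b' i - a' i) * u i) =
        (1 - u i) * (a i - a' i) + u i * (b i - b' i) := by ring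
    rw [e]
    have h1 := abs_le.1 (ha i)
    have h2 := abs_le.1 (hb i)
    have h3 : 0 ≤ 1 - u i := by linarith [hi.2]
    refine abs_le.2 ⟨?_, ?_⟩ <;> nlinarith [hi.1]
  calc ∫⁻ u in cube (0 : E d) 1, ‖knaAff a b u - knaAff a' b' u‖ₑ ^ p
      ≤ ∫⁻ _ in cube (0 : E d) 1, ENNReal.ofReal (√d * D) ^ p :=
        setLIntegral_mono' (measurableSet_cube 0 1) key
    _ = ENNReal.ofReal (√d * D) ^ p := by
        rw [setLIntegral_const, volume_cube 0 zero_le_one]; simp

end Pool.Agent.Lib.MP_fe8b6f_pr
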