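import Pool.Agent.Lib.MP_fe8b6f_pr.KnA

/-! One refinement step: a Knothe type rearrangement of a piecewise constant density. Part 2. -/

open MeasureTheory ProbabilityTheory
open scoped NNReal ENNReal

noncomputable section

namespace Pool.Agent.Lib.MP_fe8b6f_pr

variable {d : ℕ}

theorem knb_sum (f : (Fin (d + 1) → Fin 2) → ℝ) :
    ∑ j, f j = ∑ j : Fin d → Fin 2, f (Fin.cons 0 j) + ∑ j : Fin d → Fin 2, f (Fin.cons 1 j) := by
  rw [← (Fin.consEquiv fun _ : Fin (d + 1) => Fin 2).sum_comp, Fintype.sum_prod_type,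
    Fin.sum_univ_two]
  rfl

/-- the partition of the unit cube, by induction on the dimension -/
theorem knb_ind {δ : ℝ} (hδ0 : 0 ≤ δ) (d : ℕ) (f : (Fin d → Fin 2) → ℝ) (hpos : ∀ j, 0 < f j)
    (hf : ∀ j j', f j - f j' ≤ 2 * δ * (f j + f j')) :
    ∃ lo hi : (Fin d → Fin 2) → Fin d → ℝ,
      (∀ j i, 0 ≤ lo j i ∧ lo j i < hi j i ∧ hi j i ≤ 1) ∧
      (∀ j i, |((j i : ℕ) : ℝ) / 2 - lo j i| ≤ δ ∧ |((j i : ℕ) : ℝ) / 2 + 1 / 2 - hi j i| ≤ δ) ∧
      (∀ j, ∏ i, (hi j i - lo j i) = f j / ∑ j', f j') ∧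
      (∀ j j' (x : Fin d → ℝ), (∀ i, lo j i ≤ x i ∧ x i < hi j i) →
        (∀ i, lo j' i ≤ x i ∧ x i < hi j' i) → j = j') ∧
      (∀ x : Fin d → ℝ, (∀ i, 0 ≤ x i ∧ x i < 1) → ∃ j, ∀ i, lo j i ≤ x i ∧ x i < hi j i) := by
  induction d with
  | zero =>
    refine ⟨fun _ i => i.elim0, fun _ i => i.elim0, fun _ i => i.elim0, fun _ i => i.elim0,
      fun j => ?_, fun j j' _ _ _ => Subsingleton.elim _ _,
      fun _ _ => ⟨default, fun i => i.elim0⟩⟩
    have e : ∑ j', f j' = f j := Fintype.sum_subsingleton _ j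
    rw [e, div_self (hpos _).ne']
    simp
  | succ d ih =>
    choose lo hi h1 h2 h3 h4 h5 using fun c : Fin 2 =>
      ih (fun j => f (Fin.cons c j)) (fun j => hpos _) (fun j j' => hf _ _)
    obtain ⟨A, hA⟩ : ∃ A, A = ∑ j : Fin d → Fin 2, f (Fin.cons 0 j) := ⟨_, rfl⟩
    obtain ⟨B, hB⟩ : ∃ B, B = ∑ j : Fin d → Fin 2, f (Fin.cons 1 j) := ⟨_, rfl⟩
    have hA0 : 0 < A := hA ▸ Finset.sum_pos (fun j _ => hpos _) Finset.univ_nonempty
    have hB0 : 0 < B := hB ▸ Finset.sum_pos (fun j _ => hpos _) Finset.univ_nonempty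
    have hAB : A - B ≤ 2 * δ * (A + B) := by
      rw [hA, hB, ← Finset.sum_sub_distrib, ← Finset.sum_add_distrib, Finset.mul_sum]
      exact Finset.sum_le_sum fun j _ => hf _ _
    have hBA : B - A ≤ 2 * δ * (B + A) := by
      rw [hA, hB, ← Finset.sum_sub_distrib, ← Finset.sum_add_distrib, Finset.mul_sum]
      exact Finset.sum_le_sum fun j _ => hf _ _
    have hS : 0 < A + B := by linarith
    obtain ⟨θ, hθ⟩ : ∃ θ, θ = A / (A + B) := ⟨_, rfl⟩
    have hθ0 : 0 < θ := by rw [hθ]; positivity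
    have hθ1 : θ < 1 := by rw [hθ, div_lt_one hS]; linarith
    have hθ2 : |1 / 2 - θ| ≤ δ := by
      have e : 1 / 2 - θ = (B - A) / (2 * (A + B)) := by
        rw [hθ]
        field_simp
        ring
      rw [e, abs_div, abs_of_pos (by linarith : 0 < 2 * (A + B)), div_le_iff₀ (by linarith),
        abs_le]
      constructor <;> linarith
    have hc : ∀ c : Fin 2, c = 0 ∨ c = 1 := by decide
    refine ⟨fun j => Fin.cons (if j 0 = 0 then 0 else θ) (lo (j 0) (Fin.tail j)),
      fun j => Fin.cons (if j 0 = 0 then θ else 1) (hi (j 0) (Fin.tail j)), ?_, ?_, ?_, ?_, ?_⟩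
    · intro j i
      refine Fin.cases ?_ (fun i => ?_) i
      · simp only [Fin.cons_zero]
        split_ifs
        · exact ⟨le_rfl, hθ0, hθ1.le⟩
        · exact ⟨hθ0.le, hθ1, le_rfl⟩
      · simpa only [Fin.cons_succ] using h1 (j 0) (Fin.tail j) i
    · intro j i
      refine Fin.cases ?_ (fun i => ?_) i
      · simp only [Fin.cons_zero]
        rcases hc (j 0) with h | h
        · rw [h]
          simpa [hδ0] using hθ2
        · rw [h]
          norm_num [hδ0]
          simpa using hθ2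
      · simpa only [Fin.cons_succ, Fin.tail] using h2 (j 0) (Fin.tail j) i
    · intro j
      rw [Fin.prod_univ_succ, knb_sum, ← hA, ← hB]
      simp only [Fin.cons_zero, Fin.cons_succ]
      rw [h3 (j 0) (Fin.tail j), Fin.cons_self_tail]
      rcases hc (j 0) with h | h
      · rw [h, ← hA, hθ]
        simp only [if_true]
        field_simp
        ring
      · rw [h, ← hB, hθ]
        simp only [one_ne_zero, if_false]
        field_simp
        ring
    · intro j j' x hx hx'
      have h0 : j 0 = j' 0 := by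
        have a1 := hx 0
        have a2 := hx' 0
        simp only [Fin.cons_zero] at a1 a2
        rcases hc (j 0) with h | h <;> rcases hc (j' 0) with h' | h'
        · rw [h, h']
        · simp only [h, h', if_true, one_ne_zero, if_false] at a1 a2
          linarith [a1.2, a2.1]
        · simp only [h, h', if_true, one_ne_zero, if_false] at a1 a2
          linarith [a1.1, a2.2]
        · rw [h, h']
      have h6 : Fin.tail j = Fin.tail j' := by
        refine h4 (j 0) _ _ (fun i => x i.succ) (fun i => ?_) (fun i => ?_)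
        · simpa only [Fin.cons_succ] using hx i.succ
        · rw [h0]
          simpa only [Fin.cons_succ] using hx' i.succ
      rw [← Fin.cons_self_tail j, ← Fin.cons_self_tail j', h0, h6]
    · intro x hx
      by_cases h : x 0 < θ
      · obtain ⟨j, hj⟩ := h5 0 (fun i => x i.succ) fun i => hx i.succ
        refine ⟨Fin.cons 0 j, fun i => ?_⟩
        refine Fin.cases ?_ (fun i => ?_) i
        · simpa using ⟨(hx 0).1, h⟩
        · simpa using hj i
      · obtain ⟨j, hj⟩ := h5 1 (fun i => x i.succ) fun i => hx i.succ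
        refine ⟨Fin.cons 1 j, fun i => ?_⟩
        refine Fin.cases ?_ (fun i => ?_) i
        · simpa using ⟨not_lt.1 h, (hx 0).2⟩
        · simpa using hj i

/-- Knothe partition of a cube into boxes of prescribed volume fractions -/
theorem exists_knothe (a : E d) {s : ℝ} (hs : 0 < s) (f : (Fin d → Fin 2) → ℝ)
    {δ : ℝ} (hδ0 : 0 ≤ δ) (hδ : δ ≤ 1 / 2) (hf1 : ∑ j, f j = 1)
    (hf : ∀ j, |f j * 2 ^ d - 1| ≤ δ) :
    ∃ lo hi : (Fin d → Fin 2) → E d, (∀ j i, lo j i < hi j i) ∧
      (∀ j i, |gcorner a s 2 j i - lo j i| ≤ δ * s ∧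
        |gcorner a s 2 j i + s / 2 - hi j i| ≤ δ * s) ∧
      (∀ j, volume (box (lo j) (hi j)) = ENNReal.ofReal (f j * s ^ d)) ∧
      ∑ j, (volume : Measure (E d)).restrict (box (lo j) (hi j)) =
        volume.restrict (cube a s) := by
  have hN : (0 : ℝ) < 2 ^ d := by positivity
  have hpos : ∀ j, 0 < f j := fun j => by
    have := (abs_le.1 (hf j)).1
    exact (mul_pos_iff_of_pos_right hN).1 (by linarith : 0 < f j * 2 ^ d)
  have hf' : ∀ j j', f j - f j' ≤ 2 * δ * (f j + f j') := fun j j' => by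
    obtain ⟨a1, a2⟩ := abs_le.1 (hf j)
    obtain ⟨a3, a4⟩ := abs_le.1 (hf j')
    refine le_of_mul_le_mul_right ?_ hN
    have : 1 ≤ (f j + f j') * 2 ^ d := by linarith
    nlinarith
  obtain ⟨lo, hi, h1, h2, h3, h4, h5⟩ := knb_ind hδ0 d f hpos hf'
  have hmem : ∀ j (x : E d), x ∈ box (WithLp.toLp 2 fun i => a i + s * lo j i : E d)
      (WithLp.toLp 2 fun i => a i + s * hi j i) ↔
      ∀ i, lo j i ≤ (x i - a i) / s ∧ (x i - a i) / s < hi j i := by
    intro j x
    refine forall_congr' fun i => ?_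
    rw [le_div_iff₀ hs, div_lt_iff₀ hs]
    constructor <;> rintro ⟨b1, b2⟩ <;> constructor <;> simp only at * <;> linarith
  refine ⟨fun j => WithLp.toLp 2 fun i => a i + s * lo j i,
    fun j => WithLp.toLp 2 fun i => a i + s * hi j i, ?_, ?_, ?_, ?_⟩
  · intro j i
    have := mul_lt_mul_of_pos_left (h1 j i).2.1 hs
    simpa using this
  · intro j i
    have e : gcorner a s 2 j i = a i + s / 2 * ((j i : ℕ) : ℝ) := by simp [gcorner]
    have e1 : gcorner a s 2 j i - (a i + s * lo j i) = (((j i : ℕ) : ℝ) / 2 - lo j i) * s := by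
      rw [e]
      ring
    have e2 : gcorner a s 2 j i + s / 2 - (a i + s * hi j i) =
        (((j i : ℕ) : ℝ) / 2 + 1 / 2 - hi j i) * s := by
      rw [e]
      ring
    simp only
    rw [e1, e2, abs_mul, abs_mul, abs_of_pos hs]
    exact ⟨mul_le_mul_of_nonneg_right (h2 j i).1 hs.le, mul_le_mul_of_nonneg_right (h2 j i).2 hs.le⟩
  · intro j
    have e : ∀ i, a i + s * hi j i - (a i + s * lo j i) = (hi j i - lo j i) * s := fun i => by ring
    rw [volume_box]
    simp only [e]
    rw [← ENNReal.ofReal_prod_of_nonneg fun i _ =>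
      mul_nonneg (sub_nonneg.2 (h1 j i).2.1.le) hs.le, Finset.prod_mul_distrib, h3, hf1]
    simp
  · rw [← Measure.sum_fintype, ← Measure.restrict_iUnion]
    · congr 1
      ext x
      simp only [Set.mem_iUnion, hmem]
      constructor
      · rintro ⟨j, hj⟩ i
        have b1 := (h1 j i).1.trans (hj i).1
        have b2 := (hj i).2.trans_le (h1 j i).2.2
        rw [le_div_iff₀ hs] at b1
        rw [div_lt_iff₀ hs] at b2
        constructor <;> linarith
      · intro hx
        refine h5 (fun i => (x i - a i) / s) fun i => ?_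
        rw [le_div_iff₀ hs, div_lt_iff₀ hs]
        constructor <;> linarith [(hx i).1, (hx i).2]
    · intro j j' hjj
      refine Set.disjoint_left.2 fun x hx hx' => hjj ?_
      exact h4 j j' _ ((hmem j x).1 hx) ((hmem j' x).1 hx')
    · exact fun j => measurableSet_box _ _

end Pool.Agent.Lib.MP_fe8b6f_pr
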