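import Pool.Agent.Lib.MP_fe8b6f_pr.CPa

/-! Lindeberg telescoping for rare weakly dependent contributions. -/

open MeasureTheory ProbabilityTheory
open scoped NNReal ENNReal

noncomputable section

namespace Pool.Agent.Lib.MP_fe8b6f_pr

variable {d : ℕ}

variable {M : Type} [AddCommMonoid M] [MeasurableSpace M] [MeasurableAdd₂ M]


theorem lind_count (p : ℕ → Prop) [DecidablePred p] (N g : ℕ)
    [DecidablePred fun j => (∃ i, j - g ≤ i ∧ i < j ∧ p i) ∧ p j]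
    [DecidablePred fun i => p i ∧ ∃ j, i < j ∧ j ≤ i + g ∧ p j] :
    ((Finset.range N).filter fun j => (∃ i, j - g ≤ i ∧ i < j ∧ p i) ∧ p j).card ≤
      ((Finset.range N).filter fun i => p i ∧ ∃ j, i < j ∧ j ≤ i + g ∧ p j).card := by
  refine Finset.card_le_card_of_injOn (fun j => Nat.findGreatest p (j - 1)) ?_ ?_
  · intro j hj
    simp only [Finset.coe_filter, Finset.mem_range, Set.mem_ofPred_eq] at hj ⊢
    obtain ⟨hN, ⟨i, h1, h2, h3⟩, h4⟩ := hj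
    have a1 : i ≤ Nat.findGreatest p (j - 1) := Nat.le_findGreatest (by omega) h3
    have a2 : Nat.findGreatest p (j - 1) ≤ j - 1 := Nat.findGreatest_le _
    exact ⟨by omega, Nat.findGreatest_spec (m := i) (by omega) h3, j, by omega, by omega, h4⟩
  · have key : ∀ j j', 0 < j → p j → j < j' →
        Nat.findGreatest p (j - 1) ≠ Nat.findGreatest p (j' - 1) := by
      intro j j' h0 hj hlt
      have a1 : j ≤ Nat.findGreatest p (j' - 1) := Nat.le_findGreatest (by omega) hj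
      have a2 : Nat.findGreatest p (j - 1) ≤ j - 1 := Nat.findGreatest_le _
      omega
    intro j hj j' hj' h
    simp only [Finset.coe_filter, Finset.mem_range, Set.mem_ofPred_eq] at hj hj'
    obtain ⟨-, ⟨i, -, h2, -⟩, h4⟩ := hj
    obtain ⟨-, ⟨i', -, h2', -⟩, h4'⟩ := hj'
    rcases lt_trichotomy j j' with hlt | hlt | hlt
    · exact absurd h (key j j' (by omega) h4 hlt)
    · exact hlt
    · exact absurd h.symm (key j' j (by omega) h4' hlt)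

theorem lind_sum_meas {Ω : Type} [MeasurableSpace Ω] (P : Measure Ω) (N : ℕ) (A : ℕ → Set Ω)
    (hA : ∀ j, MeasurableSet (A j)) [∀ ω, DecidablePred fun j => ω ∈ A j] :
    ∑ j ∈ Finset.range N, P (A j) =
      ∫⁻ ω, (((Finset.range N).filter fun j => ω ∈ A j).card : ℝ≥0∞) ∂P := by
  have h1 : ∀ ω, (((Finset.range N).filter fun j => ω ∈ A j).card : ℝ≥0∞) =
      ∑ j ∈ Finset.range N, (A j).indicator 1 ω := by
    intro ω
    rw [Finset.card_filter, Nat.cast_sum]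
    refine Finset.sum_congr rfl fun j _ => ?_
    by_cases h : ω ∈ A j <;> simp [h]
  simp only [h1]
  rw [lintegral_finsetSum _ fun j _ => measurable_one.indicator (hA j)]
  exact Finset.sum_congr rfl fun j _ => (lintegral_indicator_one (hA j)).symm

omit [MeasurableAdd₂ M] [MeasurableSpace M] in
theorem lind_swap1 {Ω : Type} [MeasurableSpace Ω] (P : Measure Ω) {ψ : M × M → ℝ≥0∞}
    (h1 : ∀ z, ψ z ≤ 1) (hz : ∀ s, ψ (s, 0) = 0) {U V Y : Ω → M} {D : Set Ω}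
    (hD : MeasurableSet (D ∩ {ω | Y ω ≠ 0})) (hUV : ∀ ω, ω ∉ D → U ω = V ω) :
    ∫⁻ ω, ψ (U ω, Y ω) ∂P ≤ ∫⁻ ω, ψ (V ω, Y ω) ∂P + P (D ∩ {ω | Y ω ≠ 0}) := by
  rw [← lintegral_indicator_one hD, ← lintegral_add_right _ (measurable_one.indicator hD)]
  refine lintegral_mono fun ω => ?_
  by_cases h : ω ∈ D ∩ {ω | Y ω ≠ 0}
  · simp only [Set.indicator_of_mem h, Pi.one_apply]
    exact (h1 _).trans le_add_self
  · by_cases h2 : ω ∈ D
    · have h3 : Y ω = 0 := by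
        by_contra h4
        exact h ⟨h2, h4⟩
      simp [h3, hz]
    · simp [hUV ω h2]

omit [MeasurableAdd₂ M] in
theorem lind_swap2 (h0 : MeasurableSet ({0} : Set M)) {Ω : Type} [MeasurableSpace Ω]
    (P : Measure Ω) (β : Measure M) {ψ : M × M → ℝ≥0∞}
    (h1 : ∀ z, ψ z ≤ 1) (hz : ∀ s, ψ (s, 0) = 0) {U V : Ω → M} {D : Set Ω}
    (hD : MeasurableSet D) (hUV : ∀ ω, ω ∉ D → U ω = V ω) :
    ∫⁻ ω, (∫⁻ y, ψ (U ω, y) ∂β) ∂P ≤ ∫⁻ ω, (∫⁻ y, ψ (V ω, y) ∂β) ∂P + β {0}ᶜ * P D := by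
  rw [← lintegral_indicator_const hD, ← lintegral_add_right _ (measurable_const.indicator hD)]
  refine lintegral_mono fun ω => ?_
  by_cases h : ω ∈ D
  · simp only [Set.indicator_of_mem h]
    refine le_trans ?_ le_add_self
    rw [← lintegral_indicator_one h0.compl]
    refine lintegral_mono fun y => ?_
    by_cases hy : y = 0
    · simp [hy, hz]
    · simpa [hy] using h1 _
  · simp [hUV ω h]

/-- one replacement step -/
theorem lind_step (h0 : MeasurableSet ({0} : Set M)) {Ω : Type} [MeasurableSpace Ω]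
    (P : Measure Ω) [IsProbabilityMeasure P] (β : Measure M) [IsProbabilityMeasure β]
    {S T Y : Ω → M} (hS : Measurable S) (hY : Measurable Y) {D : Set Ω} (hD : MeasurableSet D)
    (hST : ∀ ω, ω ∉ D → S ω = T ω) {η : ℝ≥0∞}
    (hdec : ∀ ψ : M × M → ℝ≥0∞, Measurable ψ → (∀ z, ψ z ≤ 1) → (∀ s, ψ (s, 0) = 0) →
      ∫⁻ ω, ψ (T ω, Y ω) ∂P ≤ ∫⁻ ω, (∫⁻ y, ψ (T ω, y) ∂β) ∂P + η ∧
        ∫⁻ ω, (∫⁻ y, ψ (T ω, y) ∂β) ∂P ≤ ∫⁻ ω, ψ (T ω, Y ω) ∂P + η)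
    {H : M → ℝ≥0∞} (hH : Measurable H) (hH1 : ∀ x, H x ≤ 1) :
    ∫⁻ ω, (∫⁻ y, H (S ω + y) ∂β) ∂P ≤ ∫⁻ ω, H (S ω + Y ω) ∂P +
      2 * (η + P (D ∩ {ω | Y ω ≠ 0}) + β {0}ᶜ * P D) := by
  have hDY : MeasurableSet (D ∩ {ω | Y ω ≠ 0}) := hD.inter (hY h0).compl
  have hTS : ∀ ω, ω ∉ D → T ω = S ω := fun ω h => (hST ω h).symm
  let u : M × M → ℝ≥0∞ := fun z => H (z.1 + z.2) - H z.1
  let v : M × M → ℝ≥0∞ := fun z => H z.1 - H (z.1 + z.2)
  have mu : Measurable u := (hH.comp measurable_add).sub (hH.comp measurable_fst)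
  have mv : Measurable v := (hH.comp measurable_fst).sub (hH.comp measurable_add)
  have u1 : ∀ z, u z ≤ 1 := fun z => tsub_le_self.trans (hH1 _)
  have v1 : ∀ z, v z ≤ 1 := fun z => tsub_le_self.trans (hH1 _)
  have u0 : ∀ s, u (s, 0) = 0 := fun s => by simp [u]
  have v0 : ∀ s, v (s, 0) = 0 := fun s => by simp [v]
  have huv : ∀ s y, H (s + y) + v (s, y) = H s + u (s, y) := fun s y => by
    simp only [u, v]
    rw [add_tsub_eq_max, add_tsub_eq_max, max_comm]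
  have mHS : Measurable fun ω => H (S ω) := hH.comp hS
  have e1 : ∫⁻ ω, (∫⁻ y, H (S ω + y) ∂β) ∂P + ∫⁻ ω, (∫⁻ y, v (S ω, y) ∂β) ∂P =
      ∫⁻ ω, H (S ω) ∂P + ∫⁻ ω, (∫⁻ y, u (S ω, y) ∂β) ∂P := by
    have m1 : Measurable fun ω => ∫⁻ y, v (S ω, y) ∂β := mv.lintegral_prod_right'.comp hS
    rw [← lintegral_add_right _ m1, ← lintegral_add_left mHS]
    refine lintegral_congr fun ω => ?_
    have m2 : Measurable fun y => v (S ω, y) := mv.comp measurable_prodMk_left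
    rw [← lintegral_add_right _ m2]
    simp only [huv]
    rw [lintegral_add_left measurable_const]
    simp
  have e2 : ∫⁻ ω, H (S ω + Y ω) ∂P + ∫⁻ ω, v (S ω, Y ω) ∂P =
      ∫⁻ ω, H (S ω) ∂P + ∫⁻ ω, u (S ω, Y ω) ∂P := by
    have m1 : Measurable fun ω => v (S ω, Y ω) := mv.comp (hS.prodMk hY)
    rw [← lintegral_add_right _ m1, ← lintegral_add_left mHS]
    exact lintegral_congr fun ω => huv _ _
  have b1 : ∫⁻ ω, (∫⁻ y, u (S ω, y) ∂β) ∂P ≤ ∫⁻ ω, u (S ω, Y ω) ∂P +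
      (η + P (D ∩ {ω | Y ω ≠ 0}) + β {0}ᶜ * P D) := by
    calc _ ≤ _ := lind_swap2 h0 P β u1 u0 hD hST
      _ ≤ ∫⁻ ω, u (T ω, Y ω) ∂P + η + β {0}ᶜ * P D := by
          gcongr
          exact (hdec u mu u1 u0).2
      _ ≤ ∫⁻ ω, u (S ω, Y ω) ∂P + P (D ∩ {ω | Y ω ≠ 0}) + η + β {0}ᶜ * P D := by
          gcongr
          exact lind_swap1 P u1 u0 hDY hTS
      _ = _ := by ring
  have b2 : ∫⁻ ω, v (S ω, Y ω) ∂P ≤ ∫⁻ ω, (∫⁻ y, v (S ω, y) ∂β) ∂P +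
      (η + P (D ∩ {ω | Y ω ≠ 0}) + β {0}ᶜ * P D) := by
    calc _ ≤ _ := lind_swap1 P v1 v0 hDY hST
      _ ≤ ∫⁻ ω, (∫⁻ y, v (T ω, y) ∂β) ∂P + η + P (D ∩ {ω | Y ω ≠ 0}) := by
          gcongr
          exact (hdec v mv v1 v0).1
      _ ≤ ∫⁻ ω, (∫⁻ y, v (S ω, y) ∂β) ∂P + β {0}ᶜ * P D + η + P (D ∩ {ω | Y ω ≠ 0}) := by
          gcongr
          exact lind_swap2 h0 P β v1 v0 hD hTS
      _ = _ := by ring
  have fin : ∫⁻ ω, (∫⁻ y, v (S ω, y) ∂β) ∂P ≠ ⊤ := by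
    refine ne_top_of_le_ne_top ENNReal.one_ne_top ?_
    calc _ ≤ ∫⁻ _ω, (∫⁻ _y, 1 ∂β) ∂P := lintegral_mono fun ω => lintegral_mono fun y => v1 _
      _ = 1 := by simp
  rw [← ENNReal.add_le_add_iff_right fin, e1]
  calc _ ≤ ∫⁻ ω, H (S ω) ∂P + (∫⁻ ω, u (S ω, Y ω) ∂P +
        (η + P (D ∩ {ω | Y ω ≠ 0}) + β {0}ᶜ * P D)) := by gcongr
    _ = ∫⁻ ω, H (S ω + Y ω) ∂P + ∫⁻ ω, v (S ω, Y ω) ∂P +
        (η + P (D ∩ {ω | Y ω ≠ 0}) + β {0}ᶜ * P D) := by rw [e2, add_assoc (∫⁻ ω, H (S ω) ∂P)]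
    _ ≤ ∫⁻ ω, H (S ω + Y ω) ∂P + (∫⁻ ω, (∫⁻ y, v (S ω, y) ∂β) ∂P +
        (η + P (D ∩ {ω | Y ω ≠ 0}) + β {0}ᶜ * P D)) +
        (η + P (D ∩ {ω | Y ω ≠ 0}) + β {0}ᶜ * P D) := by gcongr
    _ = _ := by ring

theorem lindeberg (h0 : MeasurableSet ({0} : Set M)) {Ω : Type} [MeasurableSpace Ω]
    (P : Measure Ω) [IsProbabilityMeasure P] (β : Measure M) [IsProbabilityMeasure β]
    {Y : ℕ → Ω → M} (hY : ∀ j, Measurable (Y j)) (N g : ℕ) {η η' : ℝ≥0∞}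
    (hlaw : ∀ j < N, P.map (Y j) = β)
    (hdec : ∀ j < N, ∀ ψ : M × M → ℝ≥0∞, Measurable ψ → (∀ z, ψ z ≤ 1) → (∀ s, ψ (s, 0) = 0) →
      ∫⁻ ω, ψ (∑ i ∈ Finset.range (j - g), Y i ω, Y j ω) ∂P ≤
          ∫⁻ ω, (∫⁻ y, ψ (∑ i ∈ Finset.range (j - g), Y i ω, y) ∂β) ∂P + η ∧
        ∫⁻ ω, (∫⁻ y, ψ (∑ i ∈ Finset.range (j - g), Y i ω, y) ∂β) ∂P ≤
          ∫⁻ ω, ψ (∑ i ∈ Finset.range (j - g), Y i ω, Y j ω) ∂P + η)
    (hpair : ∀ i < N, P {ω | Y i ω ≠ 0 ∧ ∃ j, i < j ∧ j ≤ i + g ∧ Y j ω ≠ 0} ≤ η')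
    {F : M → ℝ≥0∞} (hF : Measurable F) (hF1 : ∀ x, F x ≤ 1) :
    ∫⁻ x, F x ∂(cpow β N) ≤ ∫⁻ ω, F (∑ i ∈ Finset.range N, Y i ω) ∂P +
      N * (2 * η + 2 * η' + 2 * g * (β {0}ᶜ) ^ 2) := by
  classical
  let H : ℕ → M → ℝ≥0∞ := fun k s => ∫⁻ t, F (s + t) ∂(cpow β k)
  have mH : ∀ k, Measurable (H k) := fun k => by
    have := isProbabilityMeasure_cpow β k
    exact (hF.comp measurable_add).lintegral_prod_right'
  have H1 : ∀ k x, H k x ≤ 1 := fun k x => by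
    have := isProbabilityMeasure_cpow β k
    exact (lintegral_mono fun t => hF1 _).trans (by simp)
  have Hs : ∀ k s, H (k + 1) s = ∫⁻ y, H k (s + y) ∂β := fun k s => by
    simp only [H]
    rw [lintegral_cpow_succ β k (F := fun t => F (s + t)) (hF.comp (measurable_const_add s))]
    simp only [add_assoc]
  have H0 : ∀ s, H 0 s = F s := fun s => by
    simp only [H, cpow]
    have m1 : Measurable fun t => F (s + t) := hF.comp (measurable_const_add s)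
    rw [lintegral_dirac' _ m1, add_zero]
  have mS : ∀ j, Measurable fun ω => ∑ i ∈ Finset.range j, Y i ω := fun j =>
    Finset.measurable_sum _ fun i _ => hY i
  have mne : ∀ i, MeasurableSet {ω | Y i ω ≠ 0} := fun i => (hY i h0).compl
  let D : ℕ → Set Ω := fun j => {ω | ∃ i, j - g ≤ i ∧ i < j ∧ Y i ω ≠ 0}
  have hDU : ∀ j, D j = ⋃ i ∈ Finset.Ico (j - g) j, {ω | Y i ω ≠ 0} := fun j => by
    ext ω
    simp [D, and_assoc]
  have mD : ∀ j, MeasurableSet (D j) := fun j => by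
    rw [hDU]
    exact Finset.measurableSet_biUnion _ fun i _ => mne i
  have hPD : ∀ j < N, P (D j) ≤ g * β {0}ᶜ := fun j hj => by
    rw [hDU]
    refine (measure_biUnion_finset_le _ _).trans ?_
    have h1 : ∀ i ∈ Finset.Ico (j - g) j, P {ω | Y i ω ≠ 0} = β {0}ᶜ := fun i hi => by
      rw [← hlaw i (by simp at hi; omega), Measure.map_apply (hY i) h0.compl]
      rfl
    rw [Finset.sum_congr rfl h1, Finset.sum_const, nsmul_eq_mul, Nat.card_Ico]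
    gcongr
    omega
  have hST : ∀ j ω, ω ∉ D j →
      ∑ i ∈ Finset.range j, Y i ω = ∑ i ∈ Finset.range (j - g), Y i ω := fun j ω hω => by
    refine (Finset.sum_subset (Finset.range_mono (Nat.sub_le _ _)) fun i hi hi' => ?_).symm
    by_contra h
    exact hω ⟨i, by simpa using hi', by simpa using hi, h⟩
  have step : ∀ j ≤ N, ∫⁻ x, F x ∂(cpow β N) ≤
      ∫⁻ ω, H (N - j) (∑ i ∈ Finset.range j, Y i ω) ∂P +
        ∑ i ∈ Finset.range j, 2 * (η + P (D i ∩ {ω | Y i ω ≠ 0}) + g * (β {0}ᶜ) ^ 2) := by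
    intro j
    induction j with
    | zero => intro _; simp [H]
    | succ j ih =>
      intro hj
      refine (ih (by omega)).trans ?_
      have e : N - j = N - (j + 1) + 1 := by omega
      have h1 := lind_step h0 P β (mS j) (hY j) (mD j) (hST j) (hdec j (by omega))
        (mH (N - (j + 1))) (H1 _)
      have h2 : β {0}ᶜ * P (D j) ≤ g * (β {0}ᶜ) ^ 2 := by
        calc _ ≤ β {0}ᶜ * (g * β {0}ᶜ) := by gcongr; exact hPD j (by omega)
          _ = _ := by ring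
      simp only [e, Hs, Finset.sum_range_succ]
      calc _ ≤ ∫⁻ ω, H (N - (j + 1)) (∑ i ∈ Finset.range j, Y i ω + Y j ω) ∂P +
            2 * (η + P (D j ∩ {ω | Y j ω ≠ 0}) + g * (β {0}ᶜ) ^ 2) +
            ∑ i ∈ Finset.range j, 2 * (η + P (D i ∩ {ω | Y i ω ≠ 0}) + g * (β {0}ᶜ) ^ 2) := by
            gcongr
            refine h1.trans ?_
            gcongr
        _ = _ := by ring
  have hr : ∑ i ∈ Finset.range N, P (D i ∩ {ω | Y i ω ≠ 0}) ≤ N * η' := by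
    have mB : ∀ i, MeasurableSet {ω | Y i ω ≠ 0 ∧ ∃ j, i < j ∧ j ≤ i + g ∧ Y j ω ≠ 0} := by
      intro i
      have : {ω | Y i ω ≠ 0 ∧ ∃ j, i < j ∧ j ≤ i + g ∧ Y j ω ≠ 0} =
          {ω | Y i ω ≠ 0} ∩ ⋃ j ∈ Finset.Ioc i (i + g), {ω | Y j ω ≠ 0} := by
        ext ω
        simp [and_assoc]
      rw [this]
      exact (mne i).inter (Finset.measurableSet_biUnion _ fun j _ => mne j)
    calc _ ≤ ∑ i ∈ Finset.range N,
          P {ω | Y i ω ≠ 0 ∧ ∃ j, i < j ∧ j ≤ i + g ∧ Y j ω ≠ 0} := by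
          rw [lind_sum_meas P N _ fun j => (mD j).inter (mne j), lind_sum_meas P N _ mB]
          refine lintegral_mono fun ω => ?_
          exact Nat.cast_le.2 (lind_count (fun i => Y i ω ≠ 0) N g)
      _ ≤ ∑ _i ∈ Finset.range N, η' := Finset.sum_le_sum fun i hi => hpair i (by simpa using hi)
      _ = _ := by simp
  refine (step N le_rfl).trans ?_
  simp only [Nat.sub_self, H0]
  gcongr
  rw [← Finset.mul_sum, Finset.sum_add_distrib, Finset.sum_add_distrib]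
  simp only [Finset.sum_const, Finset.card_range, nsmul_eq_mul]
  calc _ ≤ 2 * (N * η + N * η' + N * (g * (β {0}ᶜ) ^ 2)) := by gcongr
    _ = _ := by ring

end Pool.Agent.Lib.MP_fe8b6f_pr
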