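import Pool.Agent.Lib.MP_fe8b6f_pr.PPl

/-! Localisation of periodic plans for concave costs. -/

open MeasureTheory ProbabilityTheory
open scoped NNReal ENNReal

noncomputable section

namespace Pool.Agent.Lib.MP_fe8b6f_pr

variable {d : ℕ}

theorem loc0_meas_fst (L : ℝ) : MeasurableSet {q : E d × E d | q.1 ∈ cube 0 L} :=
  measurable_fst (measurableSet_cube 0 L)

theorem loc0_meas_snd (L : ℝ) : MeasurableSet {q : E d × E d | q.2 ∈ cube 0 L} :=
  measurable_snd (measurableSet_cube 0 L)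

theorem loc0_meas_sep (L : ℝ) :
    MeasurableSet {q : E d × E d | q.1 ∈ cube 0 L ∧ q.2 ∉ cube 0 L} :=
  (loc0_meas_fst L).inter (loc0_meas_snd L).compl

theorem loc0_arith {m a F V e : ℝ≥0∞} (hm : m = a + F) (ha : a ≤ V) (hV0 : V ≠ 0) (hVt : V ≠ ⊤)
    (he : V - m ≤ e) : m - min 1 (m / V) * a ≤ F + e := by
  rw [tsub_le_iff_right]
  rcases le_total 1 (m / V) with h | h
  · rw [min_eq_left h, one_mul, hm, add_comm a F]
    exact add_le_add le_self_add le_rfl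
  · rw [min_eq_right h]
    have h1 : a = (1 - m / V) * a + m / V * a := by
      rw [← add_mul, tsub_add_cancel_of_le h, one_mul]
    have h2 : (1 - m / V) * a ≤ e := by
      refine le_trans (mul_le_mul_right ha _) ?_
      rw [ENNReal.sub_mul fun _ _ => hVt, one_mul, ENNReal.div_mul_cancel hV0 hVt]
      exact he
    calc m = a + F := hm
      _ = F + ((1 - m / V) * a + m / V * a) := by rw [← h1, add_comm]
      _ ≤ F + (e + m / V * a) := add_le_add le_rfl (add_le_add h2 le_rfl)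
      _ = F + e + m / V * a := (add_assoc _ _ _).symm

theorem G_le_CQ_add {p L : ℝ} (hp : 0 < p) (hL : 0 < L) {μ : Measure (E d)}
    {γ : Measure (E d × E d)} (h1 : γ.map Prod.fst = μ) (h2 : γ.map Prod.snd = volume)
    (hμ : μ (cube 0 L) ≠ ⊤) :
    G p L 0 μ ≤ CQ p L γ + ENNReal.ofReal (√d * L) ^ p *
      (FSep L γ + ENNReal.ofReal |(μ (cube 0 L)).toReal - L ^ d|) := by
  have hQ : MeasurableSet (cube (0 : E d) L) := measurableSet_cube 0 L
  have hV : volume (cube (0 : E d) L) = ENNReal.ofReal (L ^ d) := volume_cube 0 hL.le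
  have hV0 : volume (cube (0 : E d) L) ≠ 0 := by
    rw [hV]; exact (ENNReal.ofReal_pos.2 (pow_pos hL d)).ne'
  have hVt : volume (cube (0 : E d) L) ≠ ⊤ := by
    rw [hV]; exact ENNReal.ofReal_ne_top
  set B : Set (E d × E d) := {q | q.1 ∈ cube 0 L} ∩ {q | q.2 ∈ cube 0 L} with hB
  have hBm : MeasurableSet B := (loc0_meas_fst L).inter (loc0_meas_snd L)
  set κ : ℝ≥0∞ := μ (cube 0 L) / volume (cube (0 : E d) L) with hκ
  set π : Measure (E d × E d) := min 1 κ • γ.restrict B with hπ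
  have hfin : IsFiniteMeasure (μ.restrict (cube 0 L)) := isFiniteMeasure_restrict.2 hμ
  have hm : (μ.restrict (cube 0 L)) Set.univ =
      (κ • (volume : Measure (E d)).restrict (cube 0 L)) Set.univ := by
    rw [Measure.smul_apply, Measure.restrict_apply_univ, Measure.restrict_apply_univ, smul_eq_mul,
      hκ, ENNReal.div_mul_cancel hV0 hVt]
  have hp1 : π.map Prod.fst ≤ μ.restrict (cube 0 L) := by
    refine Measure.le_iff.2 fun A hA => ?_
    rw [Measure.map_apply measurable_fst hA, hπ, Measure.smul_apply, smul_eq_mul,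
      Measure.restrict_apply (measurable_fst hA), Measure.restrict_apply hA, ← h1,
      Measure.map_apply measurable_fst (hA.inter hQ)]
    refine le_trans (mul_le_mul_left (min_le_left _ _) _) ?_
    rw [one_mul]
    exact measure_mono fun q hq => ⟨hq.1, hq.2.1⟩
  have hp2 : π.map Prod.snd ≤ κ • (volume : Measure (E d)).restrict (cube 0 L) := by
    refine Measure.le_iff.2 fun A hA => ?_
    rw [Measure.map_apply measurable_snd hA, hπ, Measure.smul_apply, smul_eq_mul,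
      Measure.restrict_apply (measurable_snd hA), Measure.smul_apply, smul_eq_mul,
      Measure.restrict_apply hA, ← h2, Measure.map_apply measurable_snd (hA.inter hQ)]
    exact mul_le_mul' (min_le_right _ _) (measure_mono fun q hq => ⟨hq.1, hq.2.2⟩)
  have hS : (μ.restrict (cube 0 L)) (cube 0 L)ᶜ = 0 := by
    rw [Measure.restrict_apply hQ.compl, Set.compl_inter_self, measure_empty]
  have hT : (κ • (volume : Measure (E d)).restrict (cube 0 L)) (cube 0 L)ᶜ = 0 := by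
    rw [Measure.smul_apply, Measure.restrict_apply hQ.compl, Set.compl_inter_self, measure_empty,
      smul_zero]
  have key := Wp_sub_plan hp.le hm π hp1 hp2 hS hT
    (fun x hx y hy => norm_sub_le_of_cube hL.le hx hy)
  unfold G
  rw [neg_zero]
  refine key.trans (add_le_add ?_ (mul_le_mul_right ?_ _))
  · rw [hπ, lintegral_smul_measure, smul_eq_mul]
    refine le_trans (mul_le_mul_left (min_le_left _ _) _) ?_
    rw [one_mul]
    exact lintegral_mono_set Set.inter_subset_left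
  · rw [hπ, Measure.smul_apply, smul_eq_mul, Measure.restrict_apply_univ,
      Measure.restrict_apply_univ]
    refine loc0_arith ?_ ?_ hV0 hVt ?_
    · have e : μ (cube 0 L) = γ {q : E d × E d | q.1 ∈ cube 0 L} := by
        rw [← h1, Measure.map_apply measurable_fst hQ]
        rfl
      rw [e, ← measure_inter_add_sdiff _ (loc0_meas_snd L)]
      rfl
    · rw [← h2, Measure.map_apply measurable_snd hQ]
      exact measure_mono Set.inter_subset_right
    · rw [hV]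
      conv_lhs => rw [← ENNReal.ofReal_toReal hμ]
      rw [← ENNReal.ofReal_sub _ ENNReal.toReal_nonneg]
      refine ENNReal.ofReal_le_ofReal ?_
      rw [abs_sub_comm]
      exact le_abs_self _

theorem loc0_CQ_eq (p L : ℝ) (γ : Measure (E d × E d)) :
    CQ p L γ = ∫⁻ q, {q : E d × E d | q.1 ∈ cube 0 L}.indicator
      (fun q => ‖q.1 - q.2‖ₑ ^ p) q ∂γ := by
  rw [lintegral_indicator (loc0_meas_fst L)]
  rfl

theorem PPlan.avz_CQ {p Λ L : ℝ} (hΛ : 0 < Λ) (hL : 0 < L) {μ : Measure (E d)}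
    {γ : Measure (E d × E d)} (hγ : PPlan Λ μ γ) :
    avz Λ (fun z => CQ p L (shP z γ)) =
      ENNReal.ofReal (L ^ d) * (CQ p Λ γ / ENNReal.ofReal (Λ ^ d)) := by
  simp only [loc0_CQ_eq p L]
  rw [hγ.avz_lintegral hΛ ((measurable_ecost p).indicator (loc0_meas_fst L)),
    ← lintegral_rho_cost p hΛ γ, ← lintegral_const_mul' _ _ ENNReal.ofReal_ne_top]
  refine lintegral_congr fun v => ?_
  have e : (fun u : E d => {q : E d × E d | q.1 ∈ cube 0 L}.indicator
      (fun q => ‖q.1 - q.2‖ₑ ^ p) (u, u - v)) =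
      (cube (0 : E d) L).indicator fun _ => ‖v‖ₑ ^ p := by
    funext u
    by_cases hu : u ∈ cube (0 : E d) L
    · rw [Set.indicator_of_mem hu, Set.indicator_of_mem (by exact hu)]
      simp only [sub_sub_cancel]
    · rw [Set.indicator_of_notMem hu, Set.indicator_of_notMem (by exact hu)]
  rw [e, lintegral_indicator_const (measurableSet_cube 0 L), volume_cube 0 hL.le, mul_comm]

theorem measurable_CQ_shP (p L : ℝ) (γ : Measure (E d × E d)) [SFinite γ] :
    Measurable fun z => CQ p L (shP z γ) := by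
  simp only [loc0_CQ_eq p L]
  exact measurable_lintegral_shP ((measurable_ecost p).indicator (loc0_meas_fst L))

theorem loc0_step {p r s : ℝ} (hp : 0 < p) (hp1 : p < 1) (hr : 0 < r) (hs : 0 < s) :
    s ^ p * min 1 (r / s) ≤
      ((2 : ℝ) ^ p - 1)⁻¹ * (min (s * 2) (r * 2) ^ p - min s (r * 2) ^ p) +
      (1 - (2 : ℝ) ^ (p - 1))⁻¹ * (r * max s r ^ (p - 1) - r * max (s * 2) r ^ (p - 1)) := by
  have ha : 0 < (2 : ℝ) ^ p - 1 := sub_pos.2 (Real.one_lt_rpow one_lt_two hp)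
  have hb : 0 < 1 - (2 : ℝ) ^ (p - 1) :=
    sub_pos.2 (Real.rpow_lt_one_of_one_lt_of_neg one_lt_two (by linarith))
  have hA : 0 ≤ min (s * 2) (r * 2) ^ p - min s (r * 2) ^ p := by
    refine sub_nonneg.2 (Real.rpow_le_rpow (le_min hs.le (by linarith)) ?_ hp.le)
    exact min_le_min (by linarith) le_rfl
  have hB : 0 ≤ r * max s r ^ (p - 1) - r * max (s * 2) r ^ (p - 1) := by
    refine sub_nonneg.2 (mul_le_mul_of_nonneg_left ?_ hr.le)
    refine Real.rpow_le_rpow_of_nonpos (lt_max_of_lt_left hs) ?_ (by linarith)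
    exact max_le_max (by linarith) le_rfl
  rcases le_total s r with h | h
  · have e1 : min (s * 2) (r * 2) = s * 2 := min_eq_left (by linarith)
    have e2 : min s (r * 2) = s := min_eq_left (by linarith)
    have e3 : ((2 : ℝ) ^ p - 1)⁻¹ * (min (s * 2) (r * 2) ^ p - min s (r * 2) ^ p) = s ^ p := by
      rw [e1, e2, Real.mul_rpow hs.le zero_le_two]
      field_simp
    rw [e3]
    have h1 : s ^ p * min 1 (r / s) ≤ s ^ p :=
      mul_le_of_le_one_right (Real.rpow_nonneg hs.le p) (min_le_left _ _)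
    have h2 := mul_nonneg (inv_nonneg.2 hb.le) hB
    linarith
  · have e1 : max s r = s := max_eq_left h
    have e2 : max (s * 2) r = s * 2 := max_eq_left (by linarith)
    have e3 : (1 - (2 : ℝ) ^ (p - 1))⁻¹ *
        (r * max s r ^ (p - 1) - r * max (s * 2) r ^ (p - 1)) = r * s ^ (p - 1) := by
      rw [e1, e2, Real.mul_rpow hs.le zero_le_two]
      field_simp
    rw [e3]
    have h1 : s ^ p * min 1 (r / s) ≤ r * s ^ (p - 1) := by
      refine le_trans (mul_le_mul_of_nonneg_left (min_le_right _ _) (Real.rpow_nonneg hs.le p))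
        (le_of_eq ?_)
      rw [Real.rpow_sub_one hs.ne']
      field_simp
    have h2 := mul_nonneg (inv_nonneg.2 ha.le) hA
    linarith

theorem sum_dyadic_min {p : ℝ} (hp : 0 < p) (hp1 : p < 1) :
    ∃ C : ℝ, ∀ (L0 r : ℝ) (M : ℕ), 0 < L0 → 0 ≤ r →
      ∑ i ∈ Finset.range M, (L0 * 2 ^ i) ^ p * min 1 (r / (L0 * 2 ^ i)) ≤ C * r ^ p := by
  have ha : 0 < (2 : ℝ) ^ p - 1 := sub_pos.2 (Real.one_lt_rpow one_lt_two hp)
  have hb : 0 < 1 - (2 : ℝ) ^ (p - 1) :=
    sub_pos.2 (Real.rpow_lt_one_of_one_lt_of_neg one_lt_two (by linarith))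
  refine ⟨((2 : ℝ) ^ p - 1)⁻¹ * 2 ^ p + (1 - (2 : ℝ) ^ (p - 1))⁻¹, fun L0 r M hL0 hr => ?_⟩
  rcases hr.eq_or_lt with rfl | hr
  · simp [Real.zero_rpow hp.ne']
  have hs : ∀ i : ℕ, 0 < L0 * 2 ^ i := fun i => mul_pos hL0 (pow_pos two_pos i)
  have hrp : r ^ p = r * r ^ (p - 1) := by
    rw [Real.rpow_sub_one hr.ne']
    field_simp
  have key : ∀ M : ℕ, ∑ i ∈ Finset.range M, (L0 * 2 ^ i) ^ p * min 1 (r / (L0 * 2 ^ i)) ≤
      ((2 : ℝ) ^ p - 1)⁻¹ * min (L0 * 2 ^ M) (r * 2) ^ p +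
      (1 - (2 : ℝ) ^ (p - 1))⁻¹ * (r ^ p - r * max (L0 * 2 ^ M) r ^ (p - 1)) := by
    intro M
    induction M with
    | zero =>
      rw [Finset.sum_range_zero]
      refine add_nonneg (mul_nonneg (inv_nonneg.2 ha.le)
        (Real.rpow_nonneg (le_min (hs 0).le (by linarith)) p))
        (mul_nonneg (inv_nonneg.2 hb.le) (sub_nonneg.2 ?_))
      rw [hrp]
      exact mul_le_mul_of_nonneg_left
        (Real.rpow_le_rpow_of_nonpos hr (le_max_right _ _) (by linarith)) hr.le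
    | succ n ih =>
      rw [Finset.sum_range_succ, pow_succ, ← mul_assoc]
      have := loc0_step hp hp1 hr (hs n)
      linarith
  refine (key M).trans ?_
  rw [add_mul]
  refine add_le_add ?_ ?_
  · rw [mul_assoc]
    refine mul_le_mul_of_nonneg_left ?_ (inv_nonneg.2 ha.le)
    rw [← Real.mul_rpow zero_le_two hr.le, mul_comm 2 r]
    exact Real.rpow_le_rpow (le_min (hs M).le (by linarith)) (min_le_right _ _) hp.le
  · refine mul_le_mul_of_nonneg_left ?_ (inv_nonneg.2 hb.le)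
    have := mul_nonneg hr.le (Real.rpow_nonneg (le_max_of_le_right hr.le :
      0 ≤ max (L0 * 2 ^ M) r) (p - 1))
    linarith

theorem loc0_FSep_eq (L : ℝ) (γ : Measure (E d × E d)) :
    FSep L γ = ∫⁻ q, {q : E d × E d | q.1 ∈ cube 0 L ∧ q.2 ∉ cube 0 L}.indicator
      (1 : E d × E d → ℝ≥0∞) q ∂γ := by
  rw [lintegral_indicator_one (loc0_meas_sep L)]
  rfl

theorem loc0_avz_FSep {Λ L : ℝ} (hΛ : 0 < Λ) (hL : 0 < L) {μ : Measure (E d)}
    {γ : Measure (E d × E d)} (hγ : PPlan Λ μ γ) :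
    avz Λ (fun z => FSep L (shP z γ)) ≤
      ∫⁻ v, ENNReal.ofReal (L ^ d * min 1 (d * ‖v‖ / L)) ∂(rho Λ γ) := by
  simp only [loc0_FSep_eq L]
  rw [hγ.avz_lintegral hΛ (measurable_one.indicator (loc0_meas_sep L))]
  refine lintegral_mono fun v => ?_
  have e : (fun u : E d => {q : E d × E d | q.1 ∈ cube 0 L ∧ q.2 ∉ cube 0 L}.indicator
      (1 : E d × E d → ℝ≥0∞) (u, u - v)) =
      {u : E d | u ∈ cube 0 L ∧ u - v ∉ cube 0 L}.indicator 1 := by
    funext u
    by_cases hu : u ∈ {u : E d | u ∈ cube 0 L ∧ u - v ∉ cube 0 L}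
    · rw [Set.indicator_of_mem hu, Set.indicator_of_mem (by exact hu)]
      rfl
    · rw [Set.indicator_of_notMem hu, Set.indicator_of_notMem (by exact hu)]
  show ∫⁻ u, _ ≤ _
  rw [e]
  exact (lintegral_indicator_one_le _).trans (volume_cube_sdiff_shift hL v)

theorem loc0_F0_le {p L : ℝ} (hp : 0 < p) (hL : 0 < L) {μ : Measure (E d)}
    {γ : Measure (E d × E d)} (h1 : γ.map Prod.fst = μ) (h2 : γ.map Prod.snd = volume)
    (z : E d) :
    F0 p L (loc z L μ) ≤ (ENNReal.ofReal (L ^ d))⁻¹ * CQ p L (shP z γ) +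
      ((ENNReal.ofReal (L ^ d))⁻¹ * ENNReal.ofReal (√d * L) ^ p) * FSep L (shP z γ) := by
  unfold F0 loc
  rw [Gf_restrict, Measure.restrict_apply_self, tsub_le_iff_right]
  unfold Gf
  split_ifs with h
  · rw [ENNReal.zero_div]
    exact zero_le
  · have key := G_le_CQ_add hp hL ((shP_fst z γ).trans (by rw [h1])) (shP_snd z h2) h
    refine (ENNReal.div_le_div_right key _).trans (le_of_eq ?_)
    rw [ENNReal.div_eq_inv_mul, ENNReal.div_eq_inv_mul]
    ring

theorem loc0_avz_F0 {p Λ L : ℝ} (hp : 0 < p) (hΛ : 0 < Λ) (hL : 0 < L) {μ : Measure (E d)}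
    {γ : Measure (E d × E d)} (hγ : PPlan Λ μ γ) :
    avz Λ (fun z => F0 p L (loc z L μ)) ≤ CQ p Λ γ / ENNReal.ofReal (Λ ^ d) +
      ∫⁻ v, ENNReal.ofReal ((√d) ^ p * (L ^ p * min 1 (d * ‖v‖ / L))) ∂(rho Λ γ) := by
  have := hγ.sigmaFinite
  have hV0 : ENNReal.ofReal (L ^ d) ≠ 0 := (ENNReal.ofReal_pos.2 (pow_pos hL d)).ne'
  have hVt : ENNReal.ofReal (L ^ d) ≠ ⊤ := ENNReal.ofReal_ne_top
  have hi : (ENNReal.ofReal (L ^ d))⁻¹ ≠ ⊤ := ENNReal.inv_ne_top.2 hV0
  have hD : ENNReal.ofReal (√d * L) ^ p ≠ ⊤ :=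
    ENNReal.rpow_ne_top_of_nonneg hp.le ENNReal.ofReal_ne_top
  refine (avz_mono Λ fun z => loc0_F0_le hp hL hγ.fst hγ.snd z).trans ?_
  rw [avz_add Λ ((measurable_CQ_shP p L γ).const_mul _), avz_const_mul Λ hi,
    avz_const_mul Λ (ENNReal.mul_ne_top hi hD), hγ.avz_CQ hΛ hL, ← mul_assoc,
    ENNReal.inv_mul_cancel hV0 hVt, one_mul]
  refine add_le_add le_rfl ((mul_le_mul_right (loc0_avz_FSep hΛ hL hγ) _).trans ?_)
  rw [← lintegral_const_mul' _ _ (ENNReal.mul_ne_top hi hD)]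
  refine lintegral_mono fun v => le_of_eq ?_
  have hs : (0 : ℝ) ≤ √d := Real.sqrt_nonneg _
  show (ENNReal.ofReal (L ^ d))⁻¹ * ENNReal.ofReal (√d * L) ^ p *
    ENNReal.ofReal (L ^ d * min 1 (d * ‖v‖ / L)) = _
  rw [ENNReal.ofReal_mul (pow_pos hL d).le, ENNReal.ofReal_rpow_of_nonneg (mul_nonneg hs hL.le) hp.le,
    Real.mul_rpow hs hL.le, ← mul_assoc ((√d) ^ p),
    ENNReal.ofReal_mul (p := (√d) ^ p * L ^ p)
      (mul_nonneg (Real.rpow_nonneg hs p) (Real.rpow_nonneg hL.le p))]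
  calc (ENNReal.ofReal (L ^ d))⁻¹ * ENNReal.ofReal ((√d) ^ p * L ^ p) *
        (ENNReal.ofReal (L ^ d) * ENNReal.ofReal (min 1 (d * ‖v‖ / L)))
      = ((ENNReal.ofReal (L ^ d))⁻¹ * ENNReal.ofReal (L ^ d)) *
        (ENNReal.ofReal ((√d) ^ p * L ^ p) * ENNReal.ofReal (min 1 (d * ‖v‖ / L))) := by ring
    _ = _ := by rw [ENNReal.inv_mul_cancel hV0 hVt, one_mul]

theorem loc0 {p : ℝ} (hp : 0 < p) (hp1 : p < 1) :
    ∃ C : ℝ≥0, ∀ (L0 Λ : ℝ) (M : ℕ) (μ : Measure (E d)), 0 < L0 → 0 < Λ →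
      ∑ i ∈ Finset.range M, avz Λ (fun z => F0 p (L0 * 2 ^ i) (loc z (L0 * 2 ^ i) μ)) ≤
        ((M : ℝ≥0∞) + 1 + C) * (PW p Λ μ / ENNReal.ofReal (Λ ^ d)) := by
  obtain ⟨C, hC⟩ := sum_dyadic_min hp hp1
  refine ⟨((√d) ^ p * (C * (d : ℝ) ^ p)).toNNReal, fun L0 Λ M μ hL0 hΛ => ?_⟩
  set C' : ℝ≥0 := ((√d) ^ p * (C * (d : ℝ) ^ p)).toNNReal with hC'
  have hs : ∀ i : ℕ, 0 < L0 * 2 ^ i := fun i => mul_pos hL0 (pow_pos two_pos i)
  have hsd : (0 : ℝ) ≤ (√d) ^ p := Real.rpow_nonneg (Real.sqrt_nonneg _) p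
  have hV0 : ENNReal.ofReal (Λ ^ d) ≠ 0 := (ENNReal.ofReal_pos.2 (pow_pos hΛ d)).ne'
  have hVt : ENNReal.ofReal (Λ ^ d) ≠ ⊤ := ENNReal.ofReal_ne_top
  have ha0 : ((M : ℝ≥0∞) + 1 + C') * (ENNReal.ofReal (Λ ^ d))⁻¹ ≠ 0 :=
    mul_ne_zero (by simp) (ENNReal.inv_ne_zero.2 hVt)
  have hat : ((M : ℝ≥0∞) + 1 + C') * (ENNReal.ofReal (Λ ^ d))⁻¹ ≠ ⊤ :=
    ENNReal.mul_ne_top (by simp) (ENNReal.inv_ne_top.2 hV0)
  rw [ENNReal.div_eq_inv_mul, ← mul_assoc]
  unfold PW
  rw [ENNReal.mul_iInf_of_ne ha0 hat]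
  refine le_iInf fun γ => ?_
  rw [ENNReal.mul_iInf_of_ne ha0 hat]
  refine le_iInf fun hγ => ?_
  rw [mul_assoc, ← ENNReal.div_eq_inv_mul]
  refine (Finset.sum_le_sum fun i _ => loc0_avz_F0 hp hΛ (hs i) hγ).trans ?_
  rw [Finset.sum_add_distrib, Finset.sum_const, Finset.card_range, nsmul_eq_mul, add_mul]
  refine add_le_add (mul_le_mul_left le_self_add _) ?_
  have hmeas : ∀ i ∈ Finset.range M, Measurable fun v : E d =>
      ENNReal.ofReal ((√d) ^ p * ((L0 * 2 ^ i) ^ p * min 1 (d * ‖v‖ / (L0 * 2 ^ i)))) := by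
    intro i _
    refine ENNReal.measurable_ofReal.comp (Measurable.const_mul (Measurable.const_mul ?_ _) _)
    exact measurable_const.min ((measurable_norm.const_mul _).div_const _)
  rw [← lintegral_finsetSum _ hmeas, ← lintegral_rho_cost p hΛ γ,
    ← lintegral_const_mul' _ _ ENNReal.coe_ne_top]
  refine lintegral_mono fun v => ?_
  have hn : ∀ i ∈ Finset.range M,
      0 ≤ (√d) ^ p * ((L0 * 2 ^ i) ^ p * min 1 (d * ‖v‖ / (L0 * 2 ^ i))) := fun i _ =>
    mul_nonneg hsd (mul_nonneg (Real.rpow_nonneg (hs i).le p)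
      (le_min zero_le_one (div_nonneg (mul_nonneg (Nat.cast_nonneg d) (norm_nonneg v)) (hs i).le)))
  show ∑ i ∈ Finset.range M, ENNReal.ofReal _ ≤ (C' : ℝ≥0∞) * ‖v‖ₑ ^ p
  rw [← ENNReal.ofReal_sum_of_nonneg hn, ← Finset.mul_sum, ← ofReal_norm,
    ENNReal.ofReal_rpow_of_nonneg (norm_nonneg v) hp.le]
  have e : (C' : ℝ≥0∞) = ENNReal.ofReal ((√d) ^ p * (C * (d : ℝ) ^ p)) := rfl
  rw [e, ← ENNReal.ofReal_mul' (Real.rpow_nonneg (norm_nonneg v) p)]
  refine ENNReal.ofReal_le_ofReal ?_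
  rw [mul_assoc]
  refine mul_le_mul_of_nonneg_left ?_ hsd
  refine (hC L0 (d * ‖v‖) M hL0 (mul_nonneg (Nat.cast_nonneg d) (norm_nonneg v))).trans
    (le_of_eq ?_)
  rw [Real.mul_rpow (Nat.cast_nonneg d) (norm_nonneg v), mul_assoc]

end Pool.Agent.Lib.MP_fe8b6f_pr
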