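import Pool.Agent.Lib.MP_fe8b6f_pr.LocCA

/-! Coarse scale discrepancy of the folded second marginal. Part 2. -/

open MeasureTheory ProbabilityTheory
open scoped NNReal ENNReal

noncomputable section

namespace Pool.Agent.Lib.MP_fe8b6f_pr

variable {d : ℕ}

theorem locc_short (K : ℝ) : MeasurableSet {q : E d × E d | ‖q.1 - q.2‖ ≤ K} :=
  measurableSet_le (measurable_fst.sub measurable_snd).norm measurable_const

theorem locc_long (K : ℝ) : MeasurableSet {q : E d × E d | K < ‖q.1 - q.2‖} :=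
  measurableSet_lt measurable_const (measurable_fst.sub measurable_snd).norm

theorem locc_m2 (K : ℝ) {A : Set (E d)} (hA : MeasurableSet A) :
    MeasurableSet {q : E d × E d | ‖q.1 - q.2‖ ≤ K ∧ q.2 ∈ A} :=
  (locc_short K).inter (measurable_snd hA)

theorem locc_m2' (K : ℝ) {A : Set (E d)} (hA : MeasurableSet A) :
    MeasurableSet {q : E d × E d | K < ‖q.1 - q.2‖ ∧ q.2 ∈ A} :=
  (locc_long K).inter (measurable_snd hA)

theorem locc_m1 (K : ℝ) {A : Set (E d)} (hA : MeasurableSet A) :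
    MeasurableSet {q : E d × E d | ‖q.1 - q.2‖ ≤ K ∧ q.1 ∈ A} :=
  (locc_short K).inter (measurable_fst hA)

theorem locc_m1' (K : ℝ) {A : Set (E d)} (hA : MeasurableSet A) :
    MeasurableSet {q : E d × E d | K < ‖q.1 - q.2‖ ∧ q.1 ∈ A} :=
  (locc_long K).inter (measurable_fst hA)

theorem locc_split (K : ℝ) {s : ℝ} (hs : 0 ≤ s) (a : E d) {γ : Measure (E d × E d)}
    (h2 : γ.map Prod.snd = volume) :
    γ {q : E d × E d | ‖q.1 - q.2‖ ≤ K ∧ q.2 ∈ cube a s} +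
      γ {q : E d × E d | K < ‖q.1 - q.2‖ ∧ q.2 ∈ cube a s} = ENNReal.ofReal (s ^ d) := by
  rw [← volume_cube a hs, ← h2, Measure.map_apply measurable_snd (measurableSet_cube a s),
    ← measure_union _ (locc_m2' K (measurableSet_cube a s))]
  · congr 1
    ext q
    simp only [Set.mem_union, Set.mem_ofPred_eq, Set.mem_preimage]
    constructor
    · rintro (h | h) <;> exact h.2
    · intro h
      rcases le_or_gt ‖q.1 - q.2‖ K with h' | h'
      · exact Or.inl ⟨h', h⟩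
      · exact Or.inr ⟨h', h⟩
  · exact Set.disjoint_left.mpr fun q hq hq' => absurd hq.1 (not_le.mpr hq'.1)

theorem locc_fin (K : ℝ) {s : ℝ} (hs : 0 ≤ s) (a : E d) {γ : Measure (E d × E d)}
    (h2 : γ.map Prod.snd = volume) :
    γ {q : E d × E d | ‖q.1 - q.2‖ ≤ K ∧ q.2 ∈ cube a s} ≠ ⊤ ∧
      γ {q : E d × E d | K < ‖q.1 - q.2‖ ∧ q.2 ∈ cube a s} ≠ ⊤ := by
  rw [← ENNReal.add_ne_top, locc_split K hs a h2]
  exact ENNReal.ofReal_ne_top

theorem locc_int (K : ℝ) {s : ℝ} (hs : 0 ≤ s) (a : E d) {γ : Measure (E d × E d)}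
    (h2 : γ.map Prod.snd = volume) :
    IntegrableOn (fun q : E d × E d => q.1 - q.2)
      {q : E d × E d | ‖q.1 - q.2‖ ≤ K ∧ q.2 ∈ cube a s} γ := by
  refine Measure.integrableOn_of_bounded (M := K) (locc_fin K hs a h2).1
    (measurable_fst.sub measurable_snd).aestronglyMeasurable ?_
  exact ae_restrict_of_forall_mem (locc_m2 K (measurableSet_cube a s)) fun q hq => hq.1

theorem locc_int' (K : ℝ) {s : ℝ} (hs : 0 ≤ s) (a ξ : E d) {γ : Measure (E d × E d)}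
    (h2 : γ.map Prod.snd = volume) :
    IntegrableOn (fun q : E d × E d => q.1 - q.2 - ξ)
      {q : E d × E d | ‖q.1 - q.2‖ ≤ K ∧ q.2 ∈ cube a s} γ :=
  (locc_int K hs a h2).sub (integrableOn_const (locc_fin K hs a h2).1)

theorem locc_cell {K K0 s : ℝ} (hs : 0 < s) (a : E d) {ξ : E d} (hξ : ‖ξ‖ ≤ K0)
    {γ : Measure (E d × E d)} (h2 : γ.map Prod.snd = volume) :
    ‖∫ q in {q : E d × E d | ‖q.1 - q.2‖ ≤ K ∧ q.2 ∈ cube a s}, (q.1 - q.2 - ξ) ∂γ‖ ≤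
      s ^ d * ‖Dv K s a γ - ξ‖ +
        K0 * γ.real {q : E d × E d | K < ‖q.1 - q.2‖ ∧ q.2 ∈ cube a s} := by
  have hp : 0 < s ^ d := pow_pos hs d
  have hf := locc_fin K hs.le a h2
  have hsp := congrArg ENNReal.toReal (locc_split K hs.le a h2)
  rw [ENNReal.toReal_add hf.1 hf.2, ENNReal.toReal_ofReal hp.le] at hsp
  rw [integral_sub (locc_int K hs.le a h2) (integrableOn_const hf.1), setIntegral_const]
  have hD : ∫ q in {q : E d × E d | ‖q.1 - q.2‖ ≤ K ∧ q.2 ∈ cube a s}, (q.1 - q.2) ∂γ =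
      s ^ d • Dv K s a γ := by
    unfold Dv
    rw [smul_smul, mul_inv_cancel₀ hp.ne', one_smul]
  have hr : γ.real {q : E d × E d | ‖q.1 - q.2‖ ≤ K ∧ q.2 ∈ cube a s} =
      s ^ d - γ.real {q : E d × E d | K < ‖q.1 - q.2‖ ∧ q.2 ∈ cube a s} := by
    rw [← hsp]
    simp only [Measure.real, add_sub_cancel_right]
  rw [hD, hr]
  set r := γ.real {q : E d × E d | K < ‖q.1 - q.2‖ ∧ q.2 ∈ cube a s} with hr'
  have hr0 : 0 ≤ r := measureReal_nonneg
  have he : s ^ d • Dv K s a γ - (s ^ d - r) • ξ = s ^ d • (Dv K s a γ - ξ) + r • ξ := by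
    rw [sub_smul, smul_sub]
    abel
  rw [he]
  refine (norm_add_le _ _).trans ?_
  rw [norm_smul, norm_smul, Real.norm_of_nonneg hp.le, Real.norm_of_nonneg hr0]
  have := mul_le_mul_of_nonneg_left hξ hr0
  linarith

theorem locc_scale {L : ℝ} (hL : 0 < L) {x : E d} (hx : x ∈ ecube L 0) :
    L⁻¹ • x ∈ ecube 1 0 := by
  intro i
  obtain ⟨h1, h2⟩ := hx i
  have hi : 0 < L⁻¹ := inv_pos.mpr hL
  simp only [PiLp.smul_apply, smul_eq_mul, neg_zero, add_zero] at h1 h2 ⊢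
  refine ⟨mul_nonneg hi.le h1, ?_⟩
  rw [inv_mul_le_iff₀ hL]
  linarith

theorem locc_norm_scale {L : ℝ} (hL : 0 < L) (x y : E d) :
    ‖L⁻¹ • x - L⁻¹ • y‖ = ‖x - y‖ / L := by
  rw [← smul_sub, norm_smul, norm_inv, Real.norm_of_nonneg hL.le, div_eq_inv_mul]

theorem locc_corner {L : ℝ} (hL : 0 < L) (m : ℕ) (j : Fin d → Fin m) :
    gcorner (0 : E d) L m j ∈ ecube L 0 :=
  cube_subset_ecube L le_rfl (gc_subset 0 hL.le m j (gcorner_mem 0 hL m j))

/-- the linear part -/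
theorem locc_lin {Mc L K K0 : ℝ} {ξ : E d} {γ : Measure (E d × E d)} (hL : 0 < L)
    (hMc : 0 < Mc) (h2 : γ.map Prod.snd = volume) (hξ : ‖ξ‖ ≤ K0) {m : ℕ} (hm : 0 < m)
    (w : (Fin d → Fin m) → E d) (hw : ∀ j, ‖w j‖ ≤ Mc / L) :
    ENNReal.ofReal |∑ j : Fin d → Fin m,
      ∫ q in {q : E d × E d | ‖q.1 - q.2‖ ≤ K ∧ q.2 ∈ gc 0 L m j},
        inner ℝ (w j) (q.1 - q.2 - ξ) ∂γ| ≤
      ENNReal.ofReal (Mc / L) *
        (ENNReal.ofReal (L ^ d * FD K L m ξ γ) + ENNReal.ofReal K0 * FB K K0 L γ) := by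
  have hm' : (0 : ℝ) < m := Nat.cast_pos.mpr hm
  have hs : 0 < L / m := div_pos hL hm'
  have hK0 : 0 ≤ K0 := (norm_nonneg _).trans hξ
  have hML : 0 ≤ Mc / L := (div_pos hMc hL).le
  have h1 : ∀ j : Fin d → Fin m,
      |∫ q in {q : E d × E d | ‖q.1 - q.2‖ ≤ K ∧ q.2 ∈ gc 0 L m j},
        inner ℝ (w j) (q.1 - q.2 - ξ) ∂γ| ≤
      Mc / L * ((L / m) ^ d * ‖Dv K (L / m) (gcorner 0 L m j) γ - ξ‖ +
        K0 * γ.real {q : E d × E d | K < ‖q.1 - q.2‖ ∧ q.2 ∈ gc 0 L m j}) := by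
    intro j
    have hi := integral_inner (𝕜 := ℝ) (locc_int' K hs.le (gcorner 0 L m j) ξ h2) (w j)
    unfold gc
    rw [hi]
    refine (abs_real_inner_le_norm _ _).trans ?_
    exact mul_le_mul (hw j) (locc_cell hs _ hξ h2) (norm_nonneg _) hML
  have hsum : ∑ j : Fin d → Fin m, γ {q : E d × E d | K < ‖q.1 - q.2‖ ∧ q.2 ∈ gc 0 L m j} ≤
      FB K K0 L γ := by
    rw [← measure_biUnion_finset]
    · refine le_trans (measure_mono ?_) le_add_self
      intro q hq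
      simp only [Set.mem_iUnion] at hq
      obtain ⟨j, -, hj⟩ := hq
      exact ⟨hj.1, cube_subset_ecube L hK0 (gc_subset 0 hL.le m j hj.2)⟩
    · intro i _ j _ hij
      have h := gc_disjoint (0 : E d) hL m hij
      exact Set.disjoint_left.mpr fun q hq hq' => Set.disjoint_left.mp h hq.2 hq'.2
    · exact fun j _ => locc_m2' K (measurableSet_gc 0 L m j)
  have hFD : ∑ j : Fin d → Fin m, (L / m) ^ d * ‖Dv K (L / m) (gcorner 0 L m j) γ - ξ‖ =
      L ^ d * FD K L m ξ γ := by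
    unfold FD
    rw [← Finset.mul_sum, div_pow]
    ring
  have h3 := (Finset.abs_sum_le_sum_abs _ _).trans
    (Finset.sum_le_sum (s := Finset.univ) fun j _ => h1 j)
  rw [← Finset.mul_sum, Finset.sum_add_distrib, hFD, ← Finset.mul_sum] at h3
  refine (ENNReal.ofReal_le_ofReal h3).trans ?_
  rw [ENNReal.ofReal_mul hML]
  refine mul_le_mul_right (ENNReal.ofReal_add_le.trans (add_le_add_right ?_ _)) _
  rw [ENNReal.ofReal_mul hK0]
  refine mul_le_mul_right (le_trans ?_ hsum) _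
  rw [ENNReal.ofReal_sum_of_nonneg fun j _ => measureReal_nonneg]
  exact Finset.sum_le_sum fun j _ => ENNReal.ofReal_toReal_le

theorem locc_sum_in {L : ℝ} (hL : 0 < L) {m : ℕ} (K : ℝ) (f : (Fin d → Fin m) → E d × E d → ℝ)
    {q : E d × E d} (hq : ‖q.1 - q.2‖ ≤ K) {j0 : Fin d → Fin m} (hj : q.2 ∈ gc 0 L m j0) :
    ∑ j : Fin d → Fin m,
      {q : E d × E d | ‖q.1 - q.2‖ ≤ K ∧ q.2 ∈ gc 0 L m j}.indicator (f j) q = f j0 q := by
  rw [Finset.sum_eq_single j0]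
  · exact Set.indicator_of_mem (show q ∈ {q : E d × E d | ‖q.1 - q.2‖ ≤ K ∧ q.2 ∈ gc 0 L m j0}
      from ⟨hq, hj⟩) _
  · intro j _ hne
    refine Set.indicator_of_notMem (fun h => ?_) _
    exact Set.disjoint_left.mp (gc_disjoint (0 : E d) hL m hne) h.2 hj
  · intro h
    exact absurd (Finset.mem_univ _) h

theorem locc_sum_out {L : ℝ} (hL : 0 < L) {m : ℕ} (K : ℝ) (f : (Fin d → Fin m) → E d × E d → ℝ)
    {q : E d × E d} (hq : ¬(‖q.1 - q.2‖ ≤ K ∧ q.2 ∈ cube 0 L)) :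
    ∑ j : Fin d → Fin m,
      {q : E d × E d | ‖q.1 - q.2‖ ≤ K ∧ q.2 ∈ gc 0 L m j}.indicator (f j) q = 0 :=
  Finset.sum_eq_zero fun j _ => Set.indicator_of_notMem
    (fun h => hq ⟨h.1, gc_subset 0 hL.le m j h.2⟩) _

theorem locc_tri (x y ξ : E d) {K0 : ℝ} (hξ : ‖ξ‖ ≤ K0) : ‖x - y - ξ‖ ≤ ‖x - y‖ + K0 :=
  (norm_sub_le _ _).trans (add_le_add_right hξ _)

/-- pointwise bound on the error -/
theorem locc_pt {J : ℕ} {θ Mc : ℝ} {j : Fin d → Fin (2 ^ J)} {h : E d → ℝ} {g : E d → E d}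
    (hT : TestFn J θ Mc j h g) (hMc : 0 < Mc) {L K K0 : ℝ} {ξ : E d} (hL : 0 < L)
    (hξ : ‖ξ‖ ≤ K0) (hK0 : K0 ≤ K) (hK : 2 * K ≤ L) {m : ℕ} (hm : 0 < m) (q : E d × E d) :
    |{q : E d × E d | ‖q.1 - q.2‖ ≤ K ∧ q.1 ∈ cube 0 L}.indicator
        (fun q => h (L⁻¹ • q.1) - h (L⁻¹ • fold L (q.2 + ξ))) q -
      ∑ j : Fin d → Fin m, {q : E d × E d | ‖q.1 - q.2‖ ≤ K ∧ q.2 ∈ gc 0 L m j}.indicator
        (fun q => inner ℝ (L⁻¹ • g (L⁻¹ • gcorner 0 L m j)) (q.1 - q.2 - ξ)) q| ≤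
      Mc / L ^ 2 * (2 * √d * (L / m) + 2 * K) *
        {q : E d × E d | ‖q.1 - q.2‖ ≤ K ∧ q.2 ∈ cube 0 L}.indicator
          (fun q => ‖q.1 - q.2‖ + K0) q +
      2 * Mc / L * {q : E d × E d | ‖q.1 - q.2‖ ≤ K ∧ q.2 ∈ Lay L (2 * K)}.indicator
          (fun q => ‖q.1 - q.2‖ + K0) q := by
  have hm' : (0 : ℝ) < m := Nat.cast_pos.mpr hm
  have hK00 : 0 ≤ K0 := (norm_nonneg _).trans hξ
  have hK' : 0 ≤ K := hK00.trans hK0
  have ht0 : ∀ q : E d × E d, 0 ≤ ‖q.1 - q.2‖ + K0 := fun q => by positivity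
  have hA : 0 ≤ Mc / L ^ 2 * (2 * √d * (L / m) + 2 * K) := by positivity
  have hB : 0 ≤ 2 * Mc / L := by positivity
  have hI1 : 0 ≤ {q : E d × E d | ‖q.1 - q.2‖ ≤ K ∧ q.2 ∈ cube 0 L}.indicator
      (fun q => ‖q.1 - q.2‖ + K0) q := Set.indicator_nonneg (fun q _ => ht0 q) q
  have hI2 : 0 ≤ {q : E d × E d | ‖q.1 - q.2‖ ≤ K ∧ q.2 ∈ Lay L (2 * K)}.indicator
      (fun q => ‖q.1 - q.2‖ + K0) q := Set.indicator_nonneg (fun q _ => ht0 q) q
  have hP1 := mul_nonneg hA hI1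
  have hP2 := mul_nonneg hB hI2
  by_cases hS : ‖q.1 - q.2‖ ≤ K
  swap
  · rw [locc_sum_out hL K _ (fun h => hS h.1), Set.indicator_of_notMem (fun h => hS h.1)]
    simp only [sub_zero, abs_zero]
    linarith
  have hc1 : ∀ i, |q.1 i - q.2 i| ≤ K := fun i => (abs_coord_le_norm (q.1 - q.2) i).trans hS
  have hc2 : ∀ i, |ξ i| ≤ K0 := fun i => (abs_coord_le_norm ξ i).trans hξ
  have htri := locc_tri q.1 q.2 ξ hξ
  have hsub : q.1 - (q.2 + ξ) = q.1 - q.2 - ξ := by abel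
  by_cases hE : q.2 ∈ ecube L (2 * K)
  swap
  · have h1 : q.1 ∉ cube 0 L := by
      intro hx
      refine hE fun i => ?_
      obtain ⟨a1, a2⟩ := hx i
      obtain ⟨a3, a4⟩ := abs_le.mp (hc1 i)
      simp only [PiLp.zero_apply, zero_add] at a1 a2
      constructor <;> linarith
    have h2 : q.2 ∉ cube 0 L := fun hy => hE (cube_subset_ecube L (by linarith) hy)
    rw [locc_sum_out hL K _ (fun h => h2 h.2), Set.indicator_of_notMem (fun h => h1 h.2)]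
    simp only [sub_zero, abs_zero]
    linarith
  by_cases hLay : q.2 ∈ Lay L (2 * K)
  · have e2 : {q : E d × E d | ‖q.1 - q.2‖ ≤ K ∧ q.2 ∈ Lay L (2 * K)}.indicator
        (fun q => ‖q.1 - q.2‖ + K0) q = ‖q.1 - q.2‖ + K0 :=
      Set.indicator_of_mem (show q ∈ {q : E d × E d | ‖q.1 - q.2‖ ≤ K ∧ q.2 ∈ Lay L (2 * K)}
        from ⟨hS, hLay⟩) _
    have hML : 0 ≤ Mc / L := by positivity
    have b1 : |{q : E d × E d | ‖q.1 - q.2‖ ≤ K ∧ q.1 ∈ cube 0 L}.indicator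
        (fun q => h (L⁻¹ • q.1) - h (L⁻¹ • fold L (q.2 + ξ))) q| ≤
        Mc / L * (‖q.1 - q.2‖ + K0) := by
      by_cases hx : q.1 ∈ cube 0 L
      · rw [Set.indicator_of_mem (show q ∈ {q : E d × E d | ‖q.1 - q.2‖ ≤ K ∧ q.1 ∈ cube 0 L}
          from ⟨hS, hx⟩)]
        have hx0 := cube_subset_ecube L le_rfl hx
        have hy : q.2 + ξ ∈ ecube L L := by
          intro i
          obtain ⟨a1, a2⟩ := hx i
          obtain ⟨a3, a4⟩ := abs_le.mp (hc1 i)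
          obtain ⟨a5, a6⟩ := abs_le.mp (hc2 i)
          simp only [PiLp.zero_apply, zero_add, PiLp.add_apply] at a1 a2 ⊢
          constructor <;> linarith
        refine (hT.lip _ (locc_scale hL hx0) _ (locc_scale hL (fold_mem hy))).trans ?_
        rw [locc_norm_scale hL]
        have h3 := norm_fold_sub L q.1 (q.2 + ξ)
        rw [fold_eq_self hx0, hsub] at h3
        rw [div_mul_eq_mul_div, mul_div_assoc]
        gcongr
        exact h3.trans htri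
      · rw [Set.indicator_of_notMem (fun h => hx h.2), abs_zero]
        exact mul_nonneg hML (ht0 q)
    have b2 : |∑ j : Fin d → Fin m,
        {q : E d × E d | ‖q.1 - q.2‖ ≤ K ∧ q.2 ∈ gc 0 L m j}.indicator
        (fun q => inner ℝ (L⁻¹ • g (L⁻¹ • gcorner 0 L m j)) (q.1 - q.2 - ξ)) q| ≤
        Mc / L * (‖q.1 - q.2‖ + K0) := by
      by_cases hy : q.2 ∈ cube 0 L
      · rw [← iUnion_gc 0 hL hm] at hy
        obtain ⟨j0, hj0⟩ := Set.mem_iUnion.mp hy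
        rw [locc_sum_in hL K _ hS hj0]
        refine (abs_real_inner_le_norm _ _).trans (mul_le_mul ?_ htri (norm_nonneg _) hML)
        rw [norm_smul, norm_inv, Real.norm_of_nonneg hL.le, div_eq_inv_mul]
        exact mul_le_mul_of_nonneg_left (hT.grad _ (locc_scale hL (locc_corner hL m j0)))
          (inv_pos.mpr hL).le
      · rw [locc_sum_out hL K _ (fun h => hy h.2), abs_zero]
        exact mul_nonneg hML (ht0 q)
    rw [e2]
    refine (abs_sub _ _).trans ?_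
    have : 2 * Mc / L * (‖q.1 - q.2‖ + K0) = 2 * (Mc / L * (‖q.1 - q.2‖ + K0)) := by ring
    linarith
  · have hin : ∀ i, 2 * K < q.2 i ∧ q.2 i < L - 2 * K := by
      intro i
      by_contra hcon
      refine hLay ⟨hE, i, ?_⟩
      by_contra hc
      push Not at hc
      exact hcon hc
    have hy : q.2 ∈ cube 0 L := by
      intro i
      obtain ⟨a1, a2⟩ := hin i
      simp only [PiLp.zero_apply, zero_add]
      constructor <;> linarith
    have hx : q.1 ∈ cube 0 L := by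
      intro i
      obtain ⟨a1, a2⟩ := hin i
      obtain ⟨a3, a4⟩ := abs_le.mp (hc1 i)
      simp only [PiLp.zero_apply, zero_add]
      constructor <;> linarith
    have hy' : q.2 + ξ ∈ ecube L 0 := by
      intro i
      obtain ⟨a1, a2⟩ := hin i
      obtain ⟨a5, a6⟩ := abs_le.mp (hc2 i)
      simp only [PiLp.add_apply]
      constructor <;> linarith
    have hx0 := cube_subset_ecube L le_rfl hx
    have e1 : {q : E d × E d | ‖q.1 - q.2‖ ≤ K ∧ q.2 ∈ cube 0 L}.indicator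
        (fun q => ‖q.1 - q.2‖ + K0) q = ‖q.1 - q.2‖ + K0 :=
      Set.indicator_of_mem (show q ∈ {q : E d × E d | ‖q.1 - q.2‖ ≤ K ∧ q.2 ∈ cube 0 L}
        from ⟨hS, hy⟩) _
    have hy2 := hy
    rw [← iUnion_gc 0 hL hm] at hy2
    obtain ⟨j0, hj0⟩ := Set.mem_iUnion.mp hy2
    rw [locc_sum_in hL K _ hS hj0, e1,
      Set.indicator_of_mem (show q ∈ {q : E d × E d | ‖q.1 - q.2‖ ≤ K ∧ q.1 ∈ cube 0 L}
          from ⟨hS, hx⟩), fold_eq_self hy']
    have hc0 := locc_corner hL m j0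
    have ht := hT.taylor _ (locc_scale hL hx0) _ (locc_scale hL hy') _ (locc_scale hL hc0)
    rw [locc_norm_scale hL, locc_norm_scale hL, locc_norm_scale hL, ← smul_sub, hsub,
      real_inner_smul_right] at ht
    rw [real_inner_smul_left]
    have hyc : ‖q.2 - gcorner 0 L m j0‖ ≤ √d * (L / m) :=
      norm_sub_le_of_cube (div_pos hL hm').le hj0 (gcorner_mem 0 hL m j0)
    have n1 : ‖q.1 - gcorner 0 L m j0‖ ≤ K + √d * (L / m) :=
      (norm_sub_le_norm_sub_add_norm_sub _ q.2 _).trans (add_le_add hS hyc)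
    have n2 : ‖q.2 + ξ - gcorner 0 L m j0‖ ≤ K + √d * (L / m) := by
      have : q.2 + ξ - gcorner 0 L m j0 = ξ + (q.2 - gcorner 0 L m j0) := by abel
      rw [this]
      exact (norm_add_le _ _).trans (add_le_add (hξ.trans hK0) hyc)
    have n3 : Mc * (‖q.1 - q.2 - ξ‖ / L) *
        (‖q.1 - gcorner 0 L m j0‖ / L + ‖q.2 + ξ - gcorner 0 L m j0‖ / L) ≤
        Mc * ((‖q.1 - q.2‖ + K0) / L) *
        ((K + √d * (L / m)) / L + (K + √d * (L / m)) / L) := by gcongr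
    have n4 : Mc * ((‖q.1 - q.2‖ + K0) / L) *
        ((K + √d * (L / m)) / L + (K + √d * (L / m)) / L) =
        Mc / L ^ 2 * (2 * √d * (L / m) + 2 * K) * (‖q.1 - q.2‖ + K0) := by
      field_simp
      ring
    linarith

theorem locc_Lay (L t : ℝ) : MeasurableSet (Lay L t : Set (E d)) :=
  measurableSet_Lay_fun (X := E d) L (f := fun x => x) (t := fun _ => t) measurable_id
    measurable_const

theorem locc_ofReal_ind {X : Type*} (c : ℝ) (hc : 0 ≤ c) (S : Set X) (f : X → ℝ) (x : X) :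
    ENNReal.ofReal (c * S.indicator f x) =
      S.indicator (fun x => ENNReal.ofReal c * ENNReal.ofReal (f x)) x := by
  by_cases hx : x ∈ S
  · rw [Set.indicator_of_mem hx, Set.indicator_of_mem hx, ENNReal.ofReal_mul hc]
  · rw [Set.indicator_of_notMem hx, Set.indicator_of_notMem hx, mul_zero, ENNReal.ofReal_zero]

/-- the test function: Taylor expansion on the cells of the `m`-grid -/
theorem coarse_test {J : ℕ} {θ Mc : ℝ} {j : Fin d → Fin (2 ^ J)} {h : E d → ℝ} {g : E d → E d}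
    (hT : TestFn J θ Mc j h g) (hMc : 0 < Mc) {L K K0 : ℝ} {ξ : E d} {μ : Measure (E d)}
    {γ : Measure (E d × E d)} (hL : 0 < L) (h1 : γ.map Prod.fst = μ)
    (h2 : γ.map Prod.snd = volume) (hμ : μ (cube 0 L) ≠ ⊤) (hξ : ‖ξ‖ ≤ K0) (hK0 : K0 ≤ K)
    (hK : 2 * K ≤ L) {m : ℕ} (hm : 0 < m) :
    ENNReal.ofReal |∫ x, h (L⁻¹ • x) ∂(nu1 K L ξ γ) - ∫ x in cube 0 L, h (L⁻¹ • x) ∂μ| ≤
      FB K K0 L γ +
      ENNReal.ofReal (Mc / L) *
        (ENNReal.ofReal (L ^ d * FD K L m ξ γ) + ENNReal.ofReal K0 * FB K K0 L γ) +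
      ENNReal.ofReal (Mc / L ^ 2 * (2 * √d * (L / m) + 2 * K)) * FV1 K K0 L γ +
      ENNReal.ofReal (2 * Mc / L) * FV2 K K0 L γ := by
  have hm' : (0 : ℝ) < m := Nat.cast_pos.mpr hm
  have hK00 : 0 ≤ K0 := (norm_nonneg _).trans hξ
  have hK' : 0 ≤ K := hK00.trans hK0
  have hQ : MeasurableSet (cube (0 : E d) L) := measurableSet_cube 0 L
  have hH : Measurable fun x : E d => h (L⁻¹ • x) :=
    hT.cont.measurable.comp (measurable_const_smul L⁻¹)
  have hH1 : ∀ x : E d, ‖h x‖ ≤ 1 := fun x => by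
    rw [Real.norm_of_nonneg (hT.nonneg x)]
    exact hT.le_one x
  have hF : Measurable fun q : E d × E d => fold L (q.2 + ξ) :=
    (measurable_fold L).comp (measurable_snd.add_const ξ)
  have hfin : γ (Prod.fst ⁻¹' cube 0 L) ≠ ⊤ := by
    rwa [← Measure.map_apply measurable_fst hQ, h1]
  have hf1 : γ {q : E d × E d | ‖q.1 - q.2‖ ≤ K ∧ q.1 ∈ cube 0 L} ≠ ⊤ :=
    ne_top_of_le_ne_top hfin (measure_mono fun q hq => hq.2)
  have hf2 : γ {q : E d × E d | K < ‖q.1 - q.2‖ ∧ q.1 ∈ cube 0 L} ≠ ⊤ :=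
    ne_top_of_le_ne_top hfin (measure_mono fun q hq => hq.2)
  have hI : ∀ (S : Set (E d × E d)) (f : E d × E d → E d), γ S ≠ ⊤ → Measurable f →
      IntegrableOn (fun q => h (L⁻¹ • f q)) S γ := fun S f hS hf =>
    Measure.integrableOn_of_bounded (M := 1) hS (hH.comp hf).aestronglyMeasurable
      (Filter.Eventually.of_forall fun q => hH1 _)
  have e1 : ∫ x, h (L⁻¹ • x) ∂(nu1 K L ξ γ) =
      ∫ q in {q : E d × E d | ‖q.1 - q.2‖ ≤ K ∧ q.1 ∈ cube 0 L},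
        h (L⁻¹ • fold L (q.2 + ξ)) ∂γ := by
    unfold nu1
    exact integral_map hF.aemeasurable hH.aestronglyMeasurable
  have e2 : ∫ x in cube 0 L, h (L⁻¹ • x) ∂μ =
      ∫ q in {q : E d × E d | ‖q.1 - q.2‖ ≤ K ∧ q.1 ∈ cube 0 L}, h (L⁻¹ • q.1) ∂γ +
      ∫ q in {q : E d × E d | K < ‖q.1 - q.2‖ ∧ q.1 ∈ cube 0 L}, h (L⁻¹ • q.1) ∂γ := by
    rw [← h1, setIntegral_map hQ hH.aestronglyMeasurable measurable_fst.aemeasurable,
      ← setIntegral_union _ (locc_m1' K hQ) (hI _ _ hf1 measurable_fst)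
        (hI _ _ hf2 measurable_fst)]
    · congr 2
      ext q
      simp only [Set.mem_union, Set.mem_ofPred_eq, Set.mem_preimage]
      constructor
      · intro h
        rcases le_or_gt ‖q.1 - q.2‖ K with h' | h'
        · exact Or.inl ⟨h', h⟩
        · exact Or.inr ⟨h', h⟩
      · rintro (h | h) <;> exact h.2
    · exact Set.disjoint_left.mpr fun q hq hq' => absurd hq.1 (not_le.mpr hq'.1)
  have bR : ENNReal.ofReal
      |∫ q in {q : E d × E d | K < ‖q.1 - q.2‖ ∧ q.1 ∈ cube 0 L}, h (L⁻¹ • q.1) ∂γ| ≤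
      FB K K0 L γ := by
    have := norm_setIntegral_le_of_norm_le_const (f := fun q : E d × E d => h (L⁻¹ • q.1))
      (C := 1) hf2.lt_top (fun q _ => hH1 _)
    rw [one_mul, Real.norm_eq_abs] at this
    exact (ENNReal.ofReal_le_ofReal this).trans (ENNReal.ofReal_toReal_le.trans le_self_add)
  have bL := locc_lin (K := K) hL hMc h2 hξ hm (fun j => L⁻¹ • g (L⁻¹ • gcorner 0 L m j))
    (fun j => by
      rw [norm_smul, norm_inv, Real.norm_of_nonneg hL.le, div_eq_inv_mul]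
      exact mul_le_mul_of_nonneg_left (hT.grad _ (locc_scale hL (locc_corner hL m j)))
          (inv_pos.mpr hL).le)
  have i1 : Integrable ({q : E d × E d | ‖q.1 - q.2‖ ≤ K ∧ q.1 ∈ cube 0 L}.indicator
      (fun q => h (L⁻¹ • q.1) - h (L⁻¹ • fold L (q.2 + ξ)))) γ :=
    (integrable_indicator_iff (locc_m1 K hQ)).mpr
      ((hI _ _ hf1 measurable_fst).sub (hI _ _ hf1 hF))
  have i2 : ∀ j : Fin d → Fin m, Integrable
      ({q : E d × E d | ‖q.1 - q.2‖ ≤ K ∧ q.2 ∈ gc 0 L m j}.indicator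
        (fun q => inner ℝ (L⁻¹ • g (L⁻¹ • gcorner 0 L m j)) (q.1 - q.2 - ξ))) γ := fun j =>
    (integrable_indicator_iff (locc_m2 K (measurableSet_gc 0 L m j))).mpr
      ((locc_int' K (div_pos hL hm').le (gcorner 0 L m j) ξ h2).const_inner _)
  have e3 : ∫ q, ({q : E d × E d | ‖q.1 - q.2‖ ≤ K ∧ q.1 ∈ cube 0 L}.indicator
        (fun q => h (L⁻¹ • q.1) - h (L⁻¹ • fold L (q.2 + ξ))) q -
      ∑ j : Fin d → Fin m, {q : E d × E d | ‖q.1 - q.2‖ ≤ K ∧ q.2 ∈ gc 0 L m j}.indicator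
        (fun q => inner ℝ (L⁻¹ • g (L⁻¹ • gcorner 0 L m j)) (q.1 - q.2 - ξ)) q) ∂γ =
      (∫ q in {q : E d × E d | ‖q.1 - q.2‖ ≤ K ∧ q.1 ∈ cube 0 L}, h (L⁻¹ • q.1) ∂γ -
        ∫ q in {q : E d × E d | ‖q.1 - q.2‖ ≤ K ∧ q.1 ∈ cube 0 L},
          h (L⁻¹ • fold L (q.2 + ξ)) ∂γ) -
      ∑ j : Fin d → Fin m, ∫ q in {q : E d × E d | ‖q.1 - q.2‖ ≤ K ∧ q.2 ∈ gc 0 L m j},
        inner ℝ (L⁻¹ • g (L⁻¹ • gcorner 0 L m j)) (q.1 - q.2 - ξ) ∂γ := by
    rw [integral_sub i1 (integrable_finsetSum _ fun j _ => i2 j),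
      integral_finsetSum _ fun j _ => i2 j, integral_indicator (locc_m1 K hQ),
      integral_sub (hI _ _ hf1 measurable_fst) (hI _ _ hf1 hF)]
    congr 1
    exact Finset.sum_congr rfl fun j _ =>
      integral_indicator (locc_m2 K (measurableSet_gc 0 L m j))
  have hA : 0 ≤ Mc / L ^ 2 * (2 * √d * (L / m) + 2 * K) := by positivity
  have hB : 0 ≤ 2 * Mc / L := by positivity
  have ht : Measurable fun q : E d × E d => ENNReal.ofReal (‖q.1 - q.2‖ + K0) :=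
    ((measurable_fst.sub measurable_snd).norm.add_const K0).ennreal_ofReal
  have bE := enorm_integral_le_lintegral_enorm (μ := γ)
    (fun q => {q : E d × E d | ‖q.1 - q.2‖ ≤ K ∧ q.1 ∈ cube 0 L}.indicator
        (fun q => h (L⁻¹ • q.1) - h (L⁻¹ • fold L (q.2 + ξ))) q -
      ∑ j : Fin d → Fin m, {q : E d × E d | ‖q.1 - q.2‖ ≤ K ∧ q.2 ∈ gc 0 L m j}.indicator
        (fun q => inner ℝ (L⁻¹ • g (L⁻¹ • gcorner 0 L m j)) (q.1 - q.2 - ξ)) q)
  rw [e3, Real.enorm_eq_ofReal_abs] at bE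
  have bE2 := bE.trans (lintegral_mono (μ := γ) fun q =>
    (Real.enorm_eq_ofReal_abs _).le.trans
      ((ENNReal.ofReal_le_ofReal (locc_pt hT hMc hL hξ hK0 hK hm q)).trans
        (ENNReal.ofReal_add_le.trans
          (add_le_add (locc_ofReal_ind _ hA _ _ q).le (locc_ofReal_ind _ hB _ _ q).le))))
  rw [lintegral_add_left ((ht.const_mul _).indicator (locc_m2 K hQ)),
    lintegral_indicator (locc_m2 K hQ), lintegral_indicator (locc_m2 K (locc_Lay L (2 * K))),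
    lintegral_const_mul _ ht, lintegral_const_mul _ ht] at bE2
  rw [e1, e2]
  set a := ∫ q in {q : E d × E d | ‖q.1 - q.2‖ ≤ K ∧ q.1 ∈ cube 0 L}, h (L⁻¹ • q.1) ∂γ
  set b := ∫ q in {q : E d × E d | ‖q.1 - q.2‖ ≤ K ∧ q.1 ∈ cube 0 L},
          h (L⁻¹ • fold L (q.2 + ξ)) ∂γ
  set r := ∫ q in {q : E d × E d | K < ‖q.1 - q.2‖ ∧ q.1 ∈ cube 0 L}, h (L⁻¹ • q.1) ∂γ
  set t := ∑ j : Fin d → Fin m, ∫ q in {q : E d × E d | ‖q.1 - q.2‖ ≤ K ∧ q.2 ∈ gc 0 L m j},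
        inner ℝ (L⁻¹ • g (L⁻¹ • gcorner 0 L m j)) (q.1 - q.2 - ξ) ∂γ
  have hab : |b - (a + r)| ≤ |r| + |t| + |a - b - t| := by
    rw [abs_le]
    constructor <;>
      linarith [le_abs_self r, neg_abs_le r, le_abs_self t, neg_abs_le t,
        le_abs_self (a - b - t), neg_abs_le (a - b - t)]
  refine (ENNReal.ofReal_le_ofReal hab).trans (ENNReal.ofReal_add_le.trans ?_)
  rw [add_assoc (FB K K0 L γ + _)]
  exact add_le_add (ENNReal.ofReal_add_le.trans (add_le_add bR bL)) bE2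

end Pool.Agent.Lib.MP_fe8b6f_pr
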