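import Pool.Agent.Lib.MP_fe8b6f_pr.LocF

/-! Coarse scale discrepancy of the folded second marginal. Part 1. -/

open MeasureTheory ProbabilityTheory
open scoped NNReal ENNReal

noncomputable section

namespace Pool.Agent.Lib.MP_fe8b6f_pr

variable {d : ℕ}

theorem locca_enorm_le {X : Type*} [MeasurableSpace X] (μ : Measure X) {φ : X → ℝ}
    (hφ : Measurable φ) (h1 : ∀ x, |φ x| ≤ 1) :
    ENNReal.ofReal |∫ x, φ x ∂μ| ≤ μ {x | φ x ≠ 0} := by
  have hm : MeasurableSet {x | φ x ≠ 0} := (hφ (measurableSet_singleton 0)).compl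
  rw [← Real.enorm_eq_ofReal_abs, ← lintegral_indicator_one hm]
  refine (enorm_integral_le_lintegral_enorm _).trans (lintegral_mono fun x => ?_)
  by_cases hx : φ x = 0
  · simp [hx]
  · rw [Set.indicator_of_mem (show x ∈ {x | φ x ≠ 0} from hx), Real.enorm_eq_ofReal_abs]
    simpa using h1 x

theorem locca_abstract {X : Type*} [MeasurableSpace X] {μ ν c β α ω : Measure X}
    [IsFiniteMeasure μ] [IsFiniteMeasure ν] (hμ : μ = c + β) (hν : ν = c + α + ω) {φ : X → ℝ}
    (hφ : Measurable φ) (h1 : ∀ x, |φ x| ≤ 1) :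
    ENNReal.ofReal |∫ x, φ x ∂μ - ∫ x, φ x ∂ν| ≤
      β {x | φ x ≠ 0} + α {x | φ x ≠ 0} + ω Set.univ := by
  have hi : ∀ (ρ : Measure X) [IsFiniteMeasure ρ], Integrable φ ρ := fun ρ _ =>
    Integrable.of_bound hφ.aestronglyMeasurable 1 (Filter.Eventually.of_forall h1)
  have h2 := hi μ
  have h3 := hi ν
  rw [hμ, integrable_add_measure] at h2
  rw [hν, integrable_add_measure, integrable_add_measure] at h3
  rw [hμ, hν, integral_add_measure h2.1 h2.2,
    integral_add_measure (h3.1.1.add_measure h3.1.2) h3.2, integral_add_measure h3.1.1 h3.1.2]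
  have h4 : |∫ x, φ x ∂c + ∫ x, φ x ∂β - (∫ x, φ x ∂c + ∫ x, φ x ∂α + ∫ x, φ x ∂ω)| ≤
      |∫ x, φ x ∂β| + |∫ x, φ x ∂α| + |∫ x, φ x ∂ω| := by
    rw [abs_le]
    constructor <;>
      linarith [le_abs_self (∫ x, φ x ∂β), neg_abs_le (∫ x, φ x ∂β), le_abs_self (∫ x, φ x ∂α),
        neg_abs_le (∫ x, φ x ∂α), le_abs_self (∫ x, φ x ∂ω), neg_abs_le (∫ x, φ x ∂ω)]
  refine (ENNReal.ofReal_le_ofReal h4).trans ?_
  rw [ENNReal.ofReal_add (by positivity) (abs_nonneg _),
    ENNReal.ofReal_add (abs_nonneg _) (abs_nonneg _)]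
  exact add_le_add (add_le_add (locca_enorm_le β hφ h1) (locca_enorm_le α hφ h1))
    ((locca_enorm_le ω hφ h1).trans (measure_mono (Set.subset_univ _)))

/-- image of a part of the plan, restricted to the cube -/
def locca_m (L : ℝ) (γ : Measure (E d × E d)) (S : Set (E d × E d)) (f : E d × E d → E d) :
    Measure (E d) := ((γ.restrict S).map f).restrict (cube 0 L)

theorem locca_m_apply (L : ℝ) (γ : Measure (E d × E d)) (S : Set (E d × E d))
    {f : E d × E d → E d} (hf : Measurable f) {B : Set (E d)} (hB : MeasurableSet B) :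
    locca_m L γ S f B = γ (f ⁻¹' (B ∩ cube 0 L) ∩ S) := by
  have h := hB.inter (measurableSet_cube (0 : E d) L)
  rw [locca_m, Measure.restrict_apply hB, Measure.map_apply hf h, Measure.restrict_apply (hf h)]

theorem locca_smul_mem_gc {L : ℝ} (hL : 0 < L) (m : ℕ) (j : Fin d → Fin m) (x : E d) :
    L⁻¹ • x ∈ gc (0 : E d) 1 m j ↔ x ∈ gc (0 : E d) L m j := by
  refine forall_congr' fun i => ?_
  have h1 : ∀ s : ℝ, gcorner (0 : E d) s m j i = s / m * ((j i : ℕ) : ℝ) := fun s => by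
    simp [gcorner]
  rw [h1, h1, PiLp.smul_apply, smul_eq_mul, le_inv_mul_iff₀ hL, inv_mul_lt_iff₀ hL,
    show L * (1 / m * ((j i : ℕ) : ℝ)) = L / m * ((j i : ℕ) : ℝ) by ring,
    show L * (1 / m * ((j i : ℕ) : ℝ) + 1 / m) = L / m * ((j i : ℕ) : ℝ) + L / m by ring]

/-- where the test function differs from the indicator -/
theorem locca_near {J : ℕ} {θ Mc : ℝ} {j : Fin d → Fin (2 ^ J)} {h : E d → ℝ} {g : E d → E d}
    (hT : TestFn J θ Mc j h g) {L : ℝ} (hL : 0 < L) {z : E d} (hz : z ∈ cube (0 : E d) L)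
    (hne : (gc 0 L (2 ^ J) j).indicator 1 z - h (L⁻¹ • z) ≠ 0) :
    ∃ (i : Fin d) (n : ℕ), 0 < n ∧ n < 2 ^ J ∧ |z i - n * L / 2 ^ J| ≤ θ * L := by
  by_contra hcon
  push Not at hcon
  apply hne
  have h1 : L⁻¹ • z ∈ cube (0 : E d) 1 := by
    intro i
    have := hz i
    simp only [PiLp.zero_apply, zero_add] at this ⊢
    rw [PiLp.smul_apply, smul_eq_mul, inv_mul_lt_iff₀ hL, mul_one]
    exact ⟨mul_nonneg (inv_pos.2 hL).le this.1, this.2⟩
  rw [hT.ind _ h1 fun i n hn0 hn => ?_]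
  · by_cases hz' : z ∈ gc (0 : E d) L (2 ^ J) j
    · rw [Set.indicator_of_mem hz', Set.indicator_of_mem ((locca_smul_mem_gc hL _ j z).2 hz')]
      simp
    · rw [Set.indicator_of_notMem hz',
        Set.indicator_of_notMem fun h' => hz' ((locca_smul_mem_gc hL _ j z).1 h')]
      simp
  · have h2 := hcon i n hn0 hn
    have h3 : z i - n * L / 2 ^ J = L * ((L⁻¹ • z) i - n / 2 ^ J) := by
      rw [PiLp.smul_apply, smul_eq_mul]
      field_simp
    rw [h3, abs_mul, abs_of_pos hL, mul_comm θ L] at h2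
    exact lt_of_mul_lt_mul_left h2 hL.le

/-- a point near the boundary and near a grid hyperplane lies in `ZL` -/
theorem locca_mem_ZL {J : ℕ} {θ L t : ℝ} (hL : 0 < L) (ht : t ≤ 2 * (θ * L))
    (hθ : 5 * θ < 1 / 2 ^ J) {x : E d} (hx : x ∈ ecube L t) {i k : Fin d} {n : ℕ} (hn0 : 0 < n)
    (hn : n < 2 ^ J) (hi : |x i - n * L / 2 ^ J| ≤ 3 * θ * L) (hk : x k ≤ t ∨ L - t ≤ x k) :
    x ∈ ZL L t J θ := by
  refine ⟨hx, i, k, ?_, hk, n, hn0, hn, hi⟩
  rintro rfl
  have h2 : (0 : ℝ) < 2 ^ J := by positivity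
  have h3 : (1 : ℝ) ≤ n := by exact_mod_cast hn0
  have h4 : (n : ℝ) + 1 ≤ 2 ^ J := by exact_mod_cast hn
  have h5 : 5 * θ * L < L / 2 ^ J := by
    have := mul_lt_mul_of_pos_right hθ hL
    rwa [div_mul_eq_mul_div, one_mul] at this
  have h6 : L / 2 ^ J ≤ n * L / 2 ^ J := by
    gcongr
    nlinarith
  have h7 : n * L / 2 ^ J + L / 2 ^ J ≤ L := by
    rw [← add_div, div_le_iff₀ h2]
    nlinarith
  rw [abs_le] at hi
  rcases hk with hk | hk <;> linarith [hi.1, hi.2]

theorem locca_coord {K0 : ℝ} {ξ : E d} (hξ : ‖ξ‖ ≤ K0) (x y : E d) (i : Fin d) :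
    |x i - (y + ξ) i| ≤ ‖x - y‖ + K0 := by
  have h1 := abs_coord_le_norm (x - (y + ξ)) i
  rw [PiLp.sub_apply] at h1
  have h2 : ‖x - (y + ξ)‖ ≤ ‖x - y‖ + ‖ξ‖ := by
    rw [← sub_sub]
    exact norm_sub_le _ _
  linarith

theorem locca_notMem {L : ℝ} {x : E d} (hx : x ∉ cube (0 : E d) L) :
    ∃ k, x k < 0 ∨ L ≤ x k := by
  by_contra hcon
  push Not at hcon
  exact hx fun i => by simpa using hcon i

/-- replacing the indicator of a cell by the test function -/
theorem coarse_ind {J : ℕ} {θ Mc : ℝ} {j : Fin d → Fin (2 ^ J)} {h : E d → ℝ} {g : E d → E d}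
    (hT : TestFn J θ Mc j h g) {L K K0 : ℝ} {ξ : E d} {γ : Measure (E d × E d)} (hL : 0 < L)
    (h2 : γ.map Prod.snd = volume) (hξ : ‖ξ‖ ≤ K0) (hK0 : K0 ≤ K) (hK : K ≤ θ * L)
    (hθ : 5 * θ < 1 / 2 ^ J) :
    ENNReal.ofReal |((nu1 K L ξ γ (gc 0 L (2 ^ J) j)).toReal - (L / (2 ^ J : ℕ)) ^ d) -
        (∫ x, h (L⁻¹ • x) ∂(nu1 K L ξ γ) - ∫ x in cube 0 L, h (L⁻¹ • x))| ≤
      FZ K K0 L J θ γ + FB K K0 L γ := by
  have hK00 : 0 ≤ K0 := (norm_nonneg _).trans hξ
  have hθ1 : 5 * θ < 1 := hθ.trans_le (by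
    rw [div_le_one (by positivity)]
    exact one_le_pow₀ (by norm_num))
  have hKL : K + K0 ≤ L := by nlinarith
  have hQ : MeasurableSet (cube (0 : E d) L) := measurableSet_cube 0 L
  have hA : MeasurableSet (gc (0 : E d) L (2 ^ J) j) := measurableSet_gc _ _ _ _
  have hAQ : gc (0 : E d) L (2 ^ J) j ⊆ cube 0 L := gc_subset _ hL.le _ _
  have hf : Measurable fun q : E d × E d => q.2 + ξ := by fun_prop
  have hf' : Measurable fun q : E d × E d => fold L (q.2 + ξ) := (measurable_fold L).comp hf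
  have hres : (nu1 K L ξ γ).restrict (cube 0 L) = nu1 K L ξ γ :=
    Measure.restrict_eq_self_of_ae_mem (nu1_compl_cube h2 hξ hKL)
  have : IsFiniteMeasure ((nu1 K L ξ γ).restrict (cube 0 L)) :=
    isFiniteMeasure_restrict.2 (nu1_cube_ne_top h2)
  have : IsFiniteMeasure ((volume : Measure (E d)).restrict (cube 0 L)) :=
    isFiniteMeasure_restrict.2 (by rw [volume_cube _ hL.le]; exact ENNReal.ofReal_ne_top)
  have hμ : (nu1 K L ξ γ).restrict (cube 0 L) =
      locca_m L γ {q | ‖q.1 - q.2‖ ≤ K ∧ q.1 ∈ cube 0 L} (fun q => q.2 + ξ) +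
      locca_m L γ {q | ‖q.1 - q.2‖ ≤ K ∧ q.1 ∈ cube 0 L ∧ q.2 + ξ ∉ cube 0 L}
        (fun q => fold L (q.2 + ξ)) := by
    ext B hB
    rw [Measure.add_apply, locca_m_apply L γ _ hf hB, locca_m_apply L γ _ hf' hB,
      Measure.restrict_apply hB, (nu1_decomp h2 (hB.inter hQ) Set.inter_subset_right).1]
    congr 2 <;> ext q <;> simp only [Set.mem_ofPred_eq, Set.mem_inter_iff, Set.mem_preimage] <;>
      tauto
  have hν : (volume : Measure (E d)).restrict (cube 0 L) =
      locca_m L γ {q | ‖q.1 - q.2‖ ≤ K ∧ q.1 ∈ cube 0 L} (fun q => q.2 + ξ) +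
      locca_m L γ {q | ‖q.1 - q.2‖ ≤ K ∧ q.1 ∉ cube 0 L} (fun q => q.2 + ξ) +
      locca_m L γ {q | K < ‖q.1 - q.2‖} (fun q => q.2 + ξ) := by
    ext B hB
    rw [Measure.add_apply, Measure.add_apply, locca_m_apply L γ _ hf hB, locca_m_apply L γ _ hf hB,
      locca_m_apply L γ _ hf hB, Measure.restrict_apply hB,
      (nu1_decomp (K := K) (ξ := ξ) h2 (hB.inter hQ) Set.inter_subset_right).2]
    congr 2
    · congr 1
      ext q
      simp only [Set.mem_ofPred_eq, Set.mem_inter_iff, Set.mem_preimage]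
      tauto
    · congr 1
      ext q
      simp only [Set.mem_ofPred_eq, Set.mem_inter_iff, Set.mem_preimage]
      tauto
    · ext q
      simp only [Set.mem_ofPred_eq, Set.mem_inter_iff, Set.mem_preimage]
      tauto
  have hh : Measurable fun x : E d => h (L⁻¹ • x) := (hT.cont.comp (by fun_prop)).measurable
  set φ : E d → ℝ := fun x => (gc 0 L (2 ^ J) j).indicator 1 x - h (L⁻¹ • x) with hφdef
  have hφ : Measurable φ := (measurable_one.indicator hA).sub hh
  have hφ1 : ∀ x, |φ x| ≤ 1 := by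
    intro x
    have h3 := hT.nonneg (L⁻¹ • x)
    have h4 := hT.le_one (L⁻¹ • x)
    by_cases hx : x ∈ gc (0 : E d) L (2 ^ J) j
    · simp only [hφdef, Set.indicator_of_mem hx, Pi.one_apply]
      rw [abs_le]
      constructor <;> linarith
    · simp only [hφdef, Set.indicator_of_notMem hx]
      rw [abs_le]
      constructor <;> linarith
  have hint : ∀ (ρ : Measure (E d)) [IsFiniteMeasure ρ],
      ∫ x, φ x ∂ρ = (ρ (gc 0 L (2 ^ J) j)).toReal - ∫ x, h (L⁻¹ • x) ∂ρ := by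
    intro ρ _
    have hI : Integrable ((gc (0 : E d) L (2 ^ J) j).indicator (1 : E d → ℝ)) ρ :=
      (integrable_const (1 : ℝ)).indicator hA
    rw [hφdef, integral_sub hI
      (Integrable.of_bound hh.aestronglyMeasurable 1 (Filter.Eventually.of_forall fun x => by
        rw [Real.norm_eq_abs, abs_of_nonneg (hT.nonneg _)]
        exact hT.le_one _))]
    congr 1
    exact integral_indicator_one hA
  have key := locca_abstract hμ hν hφ hφ1
  rw [hint, hint, hres, Measure.restrict_apply hA, Set.inter_eq_left.2 hAQ,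
    volume_gc _ hL.le, ENNReal.toReal_ofReal (by positivity)] at key
  have hZ : MeasurableSet {x | φ x ≠ 0} := (hφ (measurableSet_singleton 0)).compl
  rw [locca_m_apply L γ _ hf' hZ, locca_m_apply L γ _ hf hZ,
    locca_m_apply L γ _ hf MeasurableSet.univ] at key
  rw [sub_sub_sub_comm]
  refine key.trans (add_le_add ?_ ?_)
  · have hQ1 : MeasurableSet {q : E d × E d | q.1 ∈ cube (0 : E d) L} := measurable_fst hQ
    refine le_trans ?_ (measure_inter_add_sdiff (μ := γ)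
      {q | ‖q.1 - q.2‖ ≤ K ∧ q.1 ∈ ZL L (‖q.1 - q.2‖ + K0) J θ} hQ1).le
    refine add_le_add (measure_mono ?_) (measure_mono ?_)
    · rintro q ⟨⟨hq1, hq2⟩, hq3, hq4, hq5⟩
      obtain ⟨i, n, hn0, hn, hi⟩ := locca_near hT hL hq2 hq1
      obtain ⟨k, hk⟩ := locca_notMem hq5
      have ht0 : 0 ≤ ‖q.1 - q.2‖ + K0 := by positivity
      refine ⟨⟨hq3, locca_mem_ZL hL (by linarith) hθ (cube_subset_ecube L ht0 hq4) (i := i) (k := k)
        hn0 hn ?_ ?_⟩, hq4⟩
      · have h3 := abs_fold_sub_coord L q.1 (q.2 + ξ) i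
        rw [fold_eq_self (cube_subset_ecube L le_rfl hq4)] at h3
        have h4 := h3.trans (locca_coord hξ q.1 q.2 i)
        rw [abs_le] at hi h4 ⊢
        constructor <;> linarith [hi.1, hi.2, h4.1, h4.2]
      · have h4 := locca_coord hξ q.1 q.2 k
        rw [abs_le] at h4
        rcases hk with hk | hk
        · exact Or.inl (by linarith [h4.2])
        · exact Or.inr (by linarith [h4.1])
    · rintro q ⟨⟨hq1, hq2⟩, hq3, hq4⟩
      obtain ⟨i, n, hn0, hn, hi⟩ := locca_near hT hL hq2 hq1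
      obtain ⟨k, hk⟩ := locca_notMem hq4
      have ht0 : 0 ≤ ‖q.1 - q.2‖ + K0 := by positivity
      refine ⟨⟨hq3, locca_mem_ZL hL (by linarith) hθ (fun l => ?_) (i := i) (k := k)
        hn0 hn ?_ ?_⟩, hq4⟩
      · have h4 := locca_coord hξ q.1 q.2 l
        have h5 := hq2 l
        simp only [PiLp.zero_apply, zero_add] at h5
        rw [abs_le] at h4
        constructor <;> linarith [h4.1, h4.2, h5.1, h5.2]
      · have h4 := locca_coord hξ q.1 q.2 i
        rw [abs_le] at hi h4 ⊢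
        constructor <;> linarith [hi.1, hi.2, h4.1, h4.2]
      · rcases hk with hk | hk
        · exact Or.inl (by linarith)
        · exact Or.inr (by linarith)
  · refine le_trans (measure_mono ?_) le_add_self
    rintro q ⟨⟨-, hq2⟩, hq3⟩
    refine ⟨hq3, fun l => ?_⟩
    have h4 := abs_le.1 ((abs_coord_le_norm ξ l).trans hξ)
    have h5 := hq2 l
    simp only [PiLp.zero_apply, zero_add, PiLp.add_apply] at h5
    constructor <;> linarith [h4.1, h4.2, h5.1, h5.2]

end Pool.Agent.Lib.MP_fe8b6f_pr
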