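import Pool.Agent.Lib.MP_fe8b6f_pr.LocFA

/-! Fine scale discrepancy of the folded second marginal. Part 2. -/

open MeasureTheory ProbabilityTheory
open scoped NNReal ENNReal

noncomputable section

namespace Pool.Agent.Lib.MP_fe8b6f_pr

variable {d : ℕ}

/-- short pairs with exactly one end in the cube and folded second end in `A` -/
def locFS (K L : ℝ) (ξ : E d) (A : Set (E d)) : Set (E d × E d) :=
  {q | ‖q.1 - q.2‖ ≤ K ∧ ¬(q.1 ∈ cube 0 L ↔ q.2 + ξ ∈ cube 0 L) ∧ fold L (q.2 + ξ) ∈ A}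

theorem locF_meas (K L : ℝ) (ξ : E d) {A : Set (E d)} (hA : MeasurableSet A) :
    MeasurableSet (locFS K L ξ A) := by
  have h1 : MeasurableSet {q : E d × E d | ‖q.1 - q.2‖ ≤ K} :=
    measurableSet_le (by fun_prop) measurable_const
  have h2 : MeasurableSet {q : E d × E d | q.1 ∈ cube 0 L} :=
    measurable_fst (measurableSet_cube 0 L)
  have h3 : MeasurableSet {q : E d × E d | q.2 + ξ ∈ cube 0 L} :=
    (measurable_snd.add_const ξ) (measurableSet_cube 0 L)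
  have h4 : MeasurableSet {q : E d × E d | fold L (q.2 + ξ) ∈ A} :=
    ((measurable_fold L).comp (measurable_snd.add_const ξ)) hA
  exact h1.inter ((MeasurableSet.iff h2 h3).compl.inter h4)

theorem locF_coord {K0 : ℝ} {ξ : E d} (hξ : ‖ξ‖ ≤ K0) (x y : E d) (i : Fin d) :
    |x i - (y + ξ) i| ≤ ‖x - y‖ + K0 := by
  have h1 := abs_coord_le_norm (x - (y + ξ)) i
  rw [PiLp.sub_apply] at h1
  refine h1.trans ?_
  rw [← sub_sub]
  exact (norm_sub_le _ _).trans (by linarith)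

theorem locF_not_mem {L : ℝ} {x : E d} (hx : x ∉ cube 0 L) : ∃ i, x i < 0 ∨ L ≤ x i := by
  by_contra h
  push Not at h
  exact hx fun i => by simpa using h i

theorem locF_mem {L : ℝ} {x : E d} (hx : x ∈ cube 0 L) (i : Fin d) : 0 ≤ x i ∧ x i < L := by
  simpa using hx i

theorem locF_subset {K K0 L : ℝ} {ξ : E d} (hξ : ‖ξ‖ ≤ K0) (A : Set (E d)) :
    locFS K L ξ A ⊆ {q : E d × E d | ‖q.1 - q.2‖ ≤ K ∧ q.1 ∈ Lay L (‖q.1 - q.2‖ + K0)} := by
  rintro ⟨x, y⟩ ⟨h1, h2, -⟩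
  have hc := fun i => abs_le.1 (locF_coord hξ x y i)
  have ht : 0 ≤ ‖x - y‖ + K0 := add_nonneg (norm_nonneg _) ((norm_nonneg _).trans hξ)
  refine ⟨h1, ?_⟩
  by_cases hx : x ∈ cube 0 L
  · have hy : y + ξ ∉ cube 0 L := fun hy => h2 ⟨fun _ => hy, fun _ => hx⟩
    obtain ⟨i, hi⟩ := locF_not_mem hy
    refine ⟨cube_subset_ecube L ht hx, i, ?_⟩
    rcases hi with hi | hi
    · exact Or.inl (by linarith [(hc i).2])
    · exact Or.inr (by linarith [(hc i).1])
  · have hy : y + ξ ∈ cube 0 L := by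
      by_contra hy
      exact h2 ⟨fun h => absurd h hx, fun h => absurd h hy⟩
    obtain ⟨i, hi⟩ := locF_not_mem hx
    refine ⟨fun k => ?_, i, ?_⟩
    · have := locF_mem hy k
      exact ⟨by linarith [(hc k).1], by linarith [(hc k).2]⟩
    · rcases hi with hi | hi
      · exact Or.inl (by linarith)
      · exact Or.inr (by linarith)

theorem locF_face {K K0 L r : ℝ} {ξ : E d} (hL : 0 < L) (hξ : ‖ξ‖ ≤ K0) {A : Set (E d)}
    {q : E d × E d} (hq : q ∈ locFS K L ξ A) (hr : ‖q.1 - q.2‖ + K0 ≤ r) :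
    ∃ i, fold L (q.2 + ξ) i ≤ r ∨ L - r ≤ fold L (q.2 + ξ) i := by
  obtain ⟨x, y⟩ := q
  obtain ⟨-, h2, -⟩ := hq
  have hc := fun i => abs_le.1 (locF_coord hξ x y i)
  have hf : ∀ i, fold L (y + ξ) i = L - |(|(y + ξ) i| - L)| := fun i => rfl
  dsimp only at *
  by_cases hx : x ∈ cube 0 L
  · have hy : y + ξ ∉ cube 0 L := fun hy => h2 ⟨fun _ => hy, fun _ => hx⟩
    obtain ⟨i, hi⟩ := locF_not_mem hy
    have hxi := locF_mem hx i
    refine ⟨i, ?_⟩
    rw [hf]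
    rcases hi with hi | hi
    · left
      have := neg_abs_le (|(y + ξ) i| - L)
      rw [abs_of_neg hi] at *
      linarith [(hc i).2]
    · right
      rw [abs_of_nonneg (a := (y + ξ) i) (by linarith), abs_of_nonneg (by linarith)]
      linarith [(hc i).1]
  · have hy : y + ξ ∈ cube 0 L := by
      by_contra hy
      exact h2 ⟨fun h => absurd h hx, fun h => absurd h hy⟩
    obtain ⟨i, hi⟩ := locF_not_mem hx
    rw [fold_eq_self (cube_subset_ecube L le_rfl hy)]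
    refine ⟨i, ?_⟩
    rcases hi with hi | hi
    · exact Or.inl (by linarith [(hc i).1])
    · exact Or.inr (by linarith [(hc i).2])

theorem locF_box {γ : Measure (E d × E d)} (h2 : γ.map Prod.snd = volume) (L : ℝ) (ξ a b : E d) :
    γ {q | ∀ i, a i ≤ fold L (q.2 + ξ) i ∧ fold L (q.2 + ξ) i ≤ b i} ≤
      4 ^ d * ∏ i, ENNReal.ofReal (b i - a i) := by
  refine le_trans ?_ (volume_fold_preimage_box L a b)
  rw [← measure_preimage_add_right volume ξ, ← h2]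
  exact Measure.le_map_apply measurable_snd.aemeasurable _

theorem locF_slab {γ : Measure (E d × E d)} (h2 : γ.map Prod.snd = volume) (L : ℝ) (ξ c : E d)
    {s r : ℝ} (hs : 0 < s) (hr : 0 < r) (i : Fin d) (u : ℝ) :
    γ {q | fold L (q.2 + ξ) ∈ cube c s ∧ u ≤ fold L (q.2 + ξ) i ∧ fold L (q.2 + ξ) i ≤ u + r} ≤
      ENNReal.ofReal (4 ^ d * (s ^ d / s) * r) := by
  have h1 := locF_box h2 L ξ (upd c i u) (upd (c + WithLp.toLp 2 fun _ => s) i (u + r))
  refine (measure_mono ?_).trans (h1.trans (le_of_eq ?_))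
  · rintro q ⟨hq, hu⟩ k
    by_cases hk : k = i
    · subst hk
      simpa [upd] using hu
    · have := hq k
      simp only [upd, Function.update_of_ne hk, PiLp.add_apply]
      exact ⟨this.1, this.2.le⟩
  · have h3 : ∀ k, (upd (c + WithLp.toLp 2 fun _ => s) i (u + r)) k - (upd c i u) k =
        Function.update (fun _ => s) i r k := by
      intro k
      by_cases hk : k = i
      · subst hk
        simp [upd]
      · simp [upd, Function.update_of_ne hk]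
    simp only [h3]
    rw [← ENNReal.ofReal_prod_of_nonneg (fun k _ => by
      by_cases hk : k = i
      · subst hk
        simpa using hr.le
      · simpa [Function.update_of_ne hk] using hs.le), Finset.prod_update_of_mem (Finset.mem_univ i),
      mul_assoc, ENNReal.ofReal_mul (p := 4 ^ d) (by positivity), ENNReal.ofReal_pow (by norm_num)]
    have h4 := Finset.prod_erase_mul Finset.univ (fun _ : Fin d => s) (Finset.mem_univ i)
    rw [Finset.prod_const (s := Finset.univ), Finset.card_univ, Fintype.card_fin,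
      ← Finset.sdiff_singleton_eq_erase] at h4
    rw [← h4, mul_div_cancel_right₀ _ hs.ne', mul_comm r]
    simp

theorem locF_level {γ : Measure (E d × E d)} (h2 : γ.map Prod.snd = volume) {K K0 L : ℝ}
    {ξ c : E d} (hL : 0 < L) (hξ : ‖ξ‖ ≤ K0) {s r : ℝ} (hs : 0 < s) (hr : 0 < r)
    (hc : cube c s ⊆ cube 0 L) :
    γ.restrict (locFS K L ξ (cube c s)) {q | ‖q.1 - q.2‖ + K0 ≤ r} ≤
      ENNReal.ofReal ((2 * d + 1) * 4 ^ d * (s ^ d / s) * r) := by
  rw [Measure.restrict_apply (measurableSet_le (by fun_prop) measurable_const)]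
  have hsub : {q : E d × E d | ‖q.1 - q.2‖ + K0 ≤ r} ∩ locFS K L ξ (cube c s) ⊆
      ⋃ i : Fin d, ({q | fold L (q.2 + ξ) ∈ cube c s ∧ 0 ≤ fold L (q.2 + ξ) i ∧
          fold L (q.2 + ξ) i ≤ 0 + r} ∪
        {q | fold L (q.2 + ξ) ∈ cube c s ∧ L - r ≤ fold L (q.2 + ξ) i ∧
          fold L (q.2 + ξ) i ≤ L - r + r}) := by
    rintro q ⟨hq1, hq2⟩
    obtain ⟨i, hi⟩ := locF_face hL hξ hq2 hq1
    have hm := locF_mem (hc hq2.2.2) i
    refine Set.mem_iUnion.2 ⟨i, ?_⟩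
    rcases hi with hi | hi
    · exact Or.inl ⟨hq2.2.2, hm.1, by linarith⟩
    · exact Or.inr ⟨hq2.2.2, hi, by linarith⟩
  refine (measure_mono hsub).trans ((measure_iUnion_fintype_le _ _).trans ?_)
  refine (Finset.sum_le_sum fun i _ => (measure_union_le _ _).trans
    (add_le_add (locF_slab h2 L ξ c hs hr i 0) (locF_slab h2 L ξ c hs hr i (L - r)))).trans ?_
  have hX : 0 ≤ 4 ^ d * (s ^ d / s) * r := by positivity
  rw [← ENNReal.ofReal_add hX hX, Finset.sum_const, Finset.card_univ, Fintype.card_fin,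
    nsmul_eq_mul, ← ENNReal.ofReal_natCast, ← ENNReal.ofReal_mul (Nat.cast_nonneg d)]
  exact ENNReal.ofReal_le_ofReal (by nlinarith)

theorem locF_fin {γ : Measure (E d × E d)} (h2 : γ.map Prod.snd = volume) (K L : ℝ)
    (ξ c : E d) (s : ℝ) : γ (locFS K L ξ (cube c s)) ≠ ⊤ := by
  have h1 := locF_box h2 L ξ c (c + WithLp.toLp 2 fun _ => s)
  refine ne_top_of_le_ne_top ?_ ((measure_mono ?_).trans h1)
  · exact ENNReal.mul_ne_top (by simp) (ENNReal.prod_ne_top fun _ _ => ENNReal.ofReal_ne_top)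
  · rintro q ⟨-, -, hq⟩ k
    exact ⟨(hq k).1, (hq k).2.le⟩

theorem locF_real {p s σ ω D : ℝ} (hp : 1 ≤ p) (hs : 0 < s) (hσ : 0 ≤ σ) (hω : 0 ≤ ω)
    (hωs : ω ≤ s ^ d) (hD0 : 0 ≤ D) (hD : D ≤ σ + ω) :
    s ^ (p + d - d * p) * D ^ p ≤ 2 ^ p * (s ^ (p + d - d * p) * σ ^ p + s ^ p * ω) := by
  have hp0 : 0 ≤ p := by linarith
  have h1 : D ^ p ≤ 2 ^ p * (σ ^ p + ω ^ p) := by
    have hσp := Real.rpow_nonneg hσ p
    have hωp := Real.rpow_nonneg hω p
    have h2p : (0 : ℝ) ≤ 2 ^ p := by positivity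
    rcases le_total σ ω with h | h
    · calc D ^ p ≤ (2 * ω) ^ p := Real.rpow_le_rpow hD0 (by linarith) hp0
        _ = 2 ^ p * ω ^ p := Real.mul_rpow (by norm_num) hω
        _ ≤ _ := by gcongr; linarith
    · calc D ^ p ≤ (2 * σ) ^ p := Real.rpow_le_rpow hD0 (by linarith) hp0
        _ = 2 ^ p * σ ^ p := Real.mul_rpow (by norm_num) hσ
        _ ≤ _ := by gcongr; linarith
  have h2 : s ^ (p + d - d * p) * ω ^ p ≤ s ^ p * ω := by
    have e1 : ω ^ p = ω ^ (p - 1) * ω := by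
      rw [← Real.rpow_add_one' hω (by linarith), sub_add_cancel]
    have e2 : ω ^ (p - 1) ≤ s ^ (d * (p - 1)) := by
      rw [Real.rpow_mul hs.le, Real.rpow_natCast]
      exact Real.rpow_le_rpow hω hωs (by linarith)
    have e3 : s ^ p = s ^ (p + d - d * p) * s ^ (d * (p - 1)) := by
      rw [← Real.rpow_add hs]
      congr 1
      ring
    rw [e1, e3, mul_assoc]
    gcongr
  calc s ^ (p + d - d * p) * D ^ p ≤ s ^ (p + d - d * p) * (2 ^ p * (σ ^ p + ω ^ p)) := by gcongr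
    _ = 2 ^ p * (s ^ (p + d - d * p) * σ ^ p + s ^ (p + d - d * p) * ω ^ p) := by ring
    _ ≤ _ := by gcongr

theorem locF_cell {p : ℝ} (hp : 1 ≤ p) {γ : Measure (E d × E d)} (h2 : γ.map Prod.snd = volume)
    {K K0 L : ℝ} {ξ c : E d} (hL : 0 < L) (hξ : ‖ξ‖ ≤ K0) {s : ℝ} (hs : 0 < s)
    (hc : cube c s ⊆ cube 0 L) :
    ENNReal.ofReal (s ^ (p + d - d * p) * |(nu1 K L ξ γ (cube c s)).toReal - s ^ d| ^ p) ≤
      ENNReal.ofReal (2 ^ p * (2 ^ p * ((2 * d + 1) * 4 ^ d) ^ (p - 1) + 1)) *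
        (ENNReal.ofReal s * ∫⁻ q in locFS K L ξ (cube c s),
            ENNReal.ofReal ((‖q.1 - q.2‖ + K0) ^ (p - 1)) ∂γ +
          ENNReal.ofReal (s ^ p) * γ {q | K < ‖q.1 - q.2‖ ∧ q.2 + ξ ∈ cube c s}) := by
  obtain ⟨e1, e2⟩ := nu1_decomp (K := K) (ξ := ξ) h2 (measurableSet_cube c s) hc
  rw [volume_cube c hs.le] at e2
  set S := locFS K L ξ (cube c s) with hS
  set c₀ := γ {q | ‖q.1 - q.2‖ ≤ K ∧ q.1 ∈ cube 0 L ∧ q.2 + ξ ∈ cube c s}
  set β := γ {q | ‖q.1 - q.2‖ ≤ K ∧ q.1 ∈ cube 0 L ∧ q.2 + ξ ∉ cube 0 L ∧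
    fold L (q.2 + ξ) ∈ cube c s}
  set α := γ {q | ‖q.1 - q.2‖ ≤ K ∧ q.1 ∉ cube 0 L ∧ q.2 + ξ ∈ cube c s}
  set ω := γ {q | K < ‖q.1 - q.2‖ ∧ q.2 + ξ ∈ cube c s}
  have hSf : γ S ≠ ⊤ := locF_fin h2 K L ξ c s
  have hβ : β ≤ γ S := measure_mono fun q hq => ⟨hq.1, fun h => hq.2.2.1 (h.1 hq.2.1), hq.2.2.2⟩
  have hα : α ≤ γ S := measure_mono fun q hq => ⟨hq.1, fun h => hq.2.1 (h.2 (hc hq.2.2)), by
    rw [fold_eq_self (cube_subset_ecube L le_rfl (hc hq.2.2))]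
    exact hq.2.2⟩
  have hsum : c₀ + α + ω ≠ ⊤ := e2 ▸ ENNReal.ofReal_ne_top
  have hω : ω ≠ ⊤ := (ENNReal.add_ne_top.1 hsum).2
  have hc₀ : c₀ ≠ ⊤ := (ENNReal.add_ne_top.1 (ENNReal.add_ne_top.1 hsum).1).1
  have hαf : α ≠ ⊤ := ne_top_of_le_ne_top hSf hα
  have hβf : β ≠ ⊤ := ne_top_of_le_ne_top hSf hβ
  have e3 : s ^ d = c₀.toReal + α.toReal + ω.toReal := by
    rw [← ENNReal.toReal_add hc₀ hαf, ← ENNReal.toReal_add (ENNReal.add_ne_top.2 ⟨hc₀, hαf⟩) hω,
      ← e2, ENNReal.toReal_ofReal (by positivity)]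
  have hβ' := ENNReal.toReal_mono hSf hβ
  have hα' := ENNReal.toReal_mono hSf hα
  have n1 : 0 ≤ c₀.toReal := ENNReal.toReal_nonneg
  have n2 : 0 ≤ α.toReal := ENNReal.toReal_nonneg
  have n3 : 0 ≤ β.toReal := ENNReal.toReal_nonneg
  have n4 : 0 ≤ ω.toReal := ENNReal.toReal_nonneg
  have hD : |(nu1 K L ξ γ (cube c s)).toReal - s ^ d| ≤ (γ S).toReal + ω.toReal := by
    rw [e1, ENNReal.toReal_add hc₀ hβf, abs_le]
    constructor <;> linarith
  have h3 := locF_real (d := d) hp hs ENNReal.toReal_nonneg n4 (by linarith) (abs_nonneg _) hD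
  set A0 : ℝ := (2 * d + 1) * 4 ^ d with hA0
  have hA0p : 0 < A0 := by positivity
  have h4 := rear hp (γ.restrict S) (t := fun q => ‖q.1 - q.2‖ + K0) (by fun_prop)
    (fun q => add_nonneg (norm_nonneg _) ((norm_nonneg _).trans hξ)) (a := A0 * (s ^ d / s))
    (by positivity) (by rwa [Measure.restrict_apply_univ])
    (fun r hr => locF_level h2 hL hξ hs hr hc)
  rw [Measure.restrict_apply_univ] at h4
  set I := ∫⁻ q in S, ENNReal.ofReal ((‖q.1 - q.2‖ + K0) ^ (p - 1)) ∂γ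
  have e4 : s ^ (p + d - d * p) * (2 ^ p * (A0 * (s ^ d / s)) ^ (p - 1)) =
      2 ^ p * A0 ^ (p - 1) * s := by
    have e5 : s ^ (p + d - d * p) * (s ^ d / s) ^ (p - 1) = s := by
      rw [← Real.rpow_natCast, ← Real.rpow_sub_one hs.ne', ← Real.rpow_mul hs.le,
        ← Real.rpow_add hs, show p + d - d * p + ((d : ℝ) - 1) * (p - 1) = 1 by ring,
        Real.rpow_one]
    rw [Real.mul_rpow hA0p.le (by positivity)]
    linear_combination 2 ^ p * A0 ^ (p - 1) * e5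
  have hB : (0 : ℝ) ≤ 2 ^ p * A0 ^ (p - 1) := by positivity
  have h5 : ENNReal.ofReal (s ^ (p + d - d * p) * (γ S).toReal ^ p) ≤
      ENNReal.ofReal (2 ^ p * A0 ^ (p - 1) + 1) * (ENNReal.ofReal s * I) := by
    rw [ENNReal.ofReal_mul (by positivity)]
    refine (mul_le_mul_right h4 _).trans ?_
    rw [← mul_assoc, ← ENNReal.ofReal_mul (by positivity), e4, ENNReal.ofReal_mul hB, mul_assoc]
    gcongr
    linarith
  have h6 : ENNReal.ofReal (s ^ p * ω.toReal) ≤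
      ENNReal.ofReal (2 ^ p * A0 ^ (p - 1) + 1) * (ENNReal.ofReal (s ^ p) * ω) := by
    rw [ENNReal.ofReal_mul (by positivity), ENNReal.ofReal_toReal hω]
    exact le_mul_of_one_le_left' (ENNReal.one_le_ofReal.2 (by linarith))
  refine (ENNReal.ofReal_le_ofReal h3).trans ?_
  rw [ENNReal.ofReal_mul (by positivity), ENNReal.ofReal_mul (p := 2 ^ p) (by positivity),
    mul_assoc, mul_add (ENNReal.ofReal (2 ^ p * A0 ^ (p - 1) + 1))]
  gcongr
  exact ENNReal.ofReal_add_le.trans (add_le_add h5 h6)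

theorem disc_nu1_le {p : ℝ} (hp : 1 ≤ p) :
    ∃ C : ℝ≥0, ∀ (L K K0 : ℝ) (ξ : E d) (γ : Measure (E d × E d)) (m : ℕ), 0 < L → 0 < m →
      γ.map Prod.snd = volume → ‖ξ‖ ≤ K0 → K + K0 ≤ L →
      disc p (nu1 K L ξ γ) 0 L m ≤
        C * (ENNReal.ofReal (L / m) * FS p K K0 L γ +
          ENNReal.ofReal ((L / m) ^ p) * FB K K0 L γ) := by
  refine ⟨Real.toNNReal (2 ^ p * (2 ^ p * ((2 * d + 1) * 4 ^ d) ^ (p - 1) + 1)), ?_⟩
  intro L K K0 ξ γ m hL hm h2 hξ _
  have hs : 0 < L / m := div_pos hL (Nat.cast_pos.2 hm)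
  have hdis := gc_disjoint (0 : E d) hL m
  have h3 : ∑ j : Fin d → Fin m, ∫⁻ q in locFS K L ξ (gc 0 L m j),
      ENNReal.ofReal ((‖q.1 - q.2‖ + K0) ^ (p - 1)) ∂γ ≤ FS p K K0 L γ := by
    rw [← tsum_fintype (L := SummationFilter.unconditional _),
      ← lintegral_iUnion (fun j => locF_meas K L ξ (measurableSet_gc 0 L m j))
        (fun j j' h => Set.disjoint_left.2 fun q hq hq' =>
          Set.disjoint_left.1 (hdis h) hq.2.2 hq'.2.2)]
    exact lintegral_mono_set (Set.iUnion_subset fun j => locF_subset hξ _)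
  have h4 : ∑ j : Fin d → Fin m, γ {q | K < ‖q.1 - q.2‖ ∧ q.2 + ξ ∈ gc 0 L m j} ≤
      FB K K0 L γ := by
    have hK : MeasurableSet {q : E d × E d | K < ‖q.1 - q.2‖} :=
      measurableSet_lt measurable_const (by fun_prop)
    rw [← tsum_fintype (L := SummationFilter.unconditional _), ← measure_iUnion
      (f := fun j => {q : E d × E d | K < ‖q.1 - q.2‖ ∧ q.2 + ξ ∈ gc 0 L m j})
      (fun j j' h => Set.disjoint_left.2 fun q hq hq' =>
        Set.disjoint_left.1 (hdis h) hq.2 hq'.2)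
      (fun j => hK.inter ((measurable_snd.add_const ξ) (measurableSet_gc 0 L m j)))]
    refine le_trans (measure_mono (Set.iUnion_subset fun j q hq => ?_)) le_add_self
    refine ⟨hq.1, fun i => ?_⟩
    have h5 := locF_mem (gc_subset 0 hL.le m j hq.2) i
    have h6 := abs_le.1 ((abs_coord_le_norm ξ i).trans hξ)
    rw [PiLp.add_apply] at h5
    constructor <;> linarith [h5.1, h5.2, h6.1, h6.2]
  refine (Finset.sum_le_sum fun j _ =>
    locF_cell hp h2 (K := K) hL hξ hs (gc_subset 0 hL.le m j)).trans ?_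
  rw [← Finset.mul_sum, Finset.sum_add_distrib, ← Finset.mul_sum, ← Finset.mul_sum]
  exact mul_le_mul' le_rfl (add_le_add (mul_le_mul' le_rfl h3) (mul_le_mul' le_rfl h4))

end Pool.Agent.Lib.MP_fe8b6f_pr
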