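import Pool.Agent.Lib.MP_fe8b6f_pr.PPlA

/-! Periodic plans: averaging formula and lifting of torus couplings. Part 2. -/

open MeasureTheory ProbabilityTheory
open scoped NNReal ENNReal

noncomputable section

namespace Pool.Agent.Lib.MP_fe8b6f_pr

variable {d : ℕ}

theorem ppl_meas_coord (i : Fin d) : Measurable fun x : E d => x i :=
  (measurable_pi_apply i).comp (WithLp.measurable_ofLp 2 (Fin d → ℝ))

theorem measurable_frac : Measurable (frac : E d → E d) := by
  unfold frac
  exact (WithLp.measurable_toLp 2 (Fin d → ℝ)).comp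
    (measurable_pi_lambda _ fun i => (ppl_meas_coord i).fract)

/-- rounding gives the nearest lattice point -/
theorem tdist_eq_round (x y : E d) :
    tdist x y = ‖x - y - lat (fun i => round (x i - y i))‖ₑ := by
  unfold tdist
  refine le_antisymm (iInf_le _ _) (le_iInf fun k => ?_)
  rw [← ofReal_norm, ← ofReal_norm]
  refine ENNReal.ofReal_le_ofReal ?_
  rw [EuclideanSpace.norm_eq, EuclideanSpace.norm_eq]
  refine Real.sqrt_le_sqrt (Finset.sum_le_sum fun i _ => ?_)
  refine pow_le_pow_left₀ (norm_nonneg _) ?_ 2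
  simp only [lat, PiLp.sub_apply, Real.norm_eq_abs]
  exact round_le _ _

theorem ppl_meas_lat : Measurable (lat : (Fin d → ℤ) → E d) := measurable_of_countable _

theorem ppl_meas_round :
    Measurable fun q : E d × E d => fun i : Fin d => round (q.1 i - q.2 i) := by
  refine measurable_pi_lambda _ fun i => ?_
  have h : Measurable fun q : E d × E d => q.1 i - q.2 i + 1 / 2 :=
    (((ppl_meas_coord i).comp measurable_fst).sub
      ((ppl_meas_coord i).comp measurable_snd)).add_const _
  simp only [round_eq]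
  exact h.floor

theorem ppl_meas_add (z : E d) :
    Measurable fun q : E d × E d => ((q.1 + z, q.2 + z) : E d × E d) :=
  (measurable_fst.add_const z).prodMk (measurable_snd.add_const z)

/-- splitting an integral along the cells of the first coordinate -/
theorem ppl_cells {Λ : ℝ} (hΛ : 0 < Λ) (γ : Measure (E d × E d)) (f : E d × E d → ℝ≥0∞) :
    ∫⁻ q, f q ∂γ =
      ∑' k : Fin d → ℤ, ∫⁻ q in {q : E d × E d | q.1 + Λ • lat k ∈ cube 0 Λ}, f q ∂γ := by
  set S : (Fin d → ℤ) → Set (E d × E d) := fun k => {q | q.1 + Λ • lat k ∈ cube 0 Λ} with hS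
  have hSm : ∀ k, MeasurableSet (S k) := fun k =>
    (measurable_fst.add_const (Λ • lat k)) (measurableSet_cube 0 Λ)
  have hneg : ∀ (x : E d) (k : Fin d → ℤ), x - Λ • lat (-k) = x + Λ • lat k := by
    intro x k
    rw [lat_neg, smul_neg, sub_neg_eq_add]
  have hSd : Pairwise (Function.onFun Disjoint S) := by
    intro k l hkl
    refine Set.disjoint_left.2 fun q hk hl => hkl ?_
    obtain ⟨m, -, hm⟩ := existsUnique_cell hΛ (0 : E d) q.1
    have h1 : -k = m := hm (-k) (by
      show q.1 - Λ • lat (-k) ∈ cube 0 Λ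
      rw [hneg]; exact hk)
    have h2 : -l = m := hm (-l) (by
      show q.1 - Λ • lat (-l) ∈ cube 0 Λ
      rw [hneg]; exact hl)
    exact neg_injective (h1.trans h2.symm)
  have hSu : ⋃ k, S k = Set.univ := by
    refine Set.eq_univ_of_forall fun q => ?_
    obtain ⟨m, hm, -⟩ := existsUnique_cell hΛ (0 : E d) q.1
    refine Set.mem_iUnion.2 ⟨-m, ?_⟩
    show q.1 + Λ • lat (-m) ∈ cube 0 Λ
    rw [← hneg, neg_neg]
    exact hm
  rw [← setLIntegral_univ, ← hSu, lintegral_iUnion hSm hSd]

/-- periodisation of a plan -/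
def pplPer (Λ : ℝ) (γ : Measure (E d × E d)) : Measure (E d × E d) :=
  Measure.sum fun k : Fin d → ℤ =>
    γ.map fun q : E d × E d => ((q.1 + Λ • lat k, q.2 + Λ • lat k) : E d × E d)

theorem pplPer_fst (Λ : ℝ) (γ : Measure (E d × E d)) :
    (pplPer Λ γ).map Prod.fst = per Λ (γ.map Prod.fst) := by
  unfold pplPer per
  rw [Measure.map_sum measurable_fst.aemeasurable]
  refine congrArg Measure.sum (funext fun k => ?_)
  rw [Measure.map_map measurable_fst (ppl_meas_add _),
    Measure.map_map (measurable_id'.add_const _) measurable_fst]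
  rfl

theorem pplPer_snd (Λ : ℝ) (γ : Measure (E d × E d)) :
    (pplPer Λ γ).map Prod.snd = per Λ (γ.map Prod.snd) := by
  unfold pplPer per
  rw [Measure.map_sum measurable_snd.aemeasurable]
  refine congrArg Measure.sum (funext fun k => ?_)
  rw [Measure.map_map measurable_snd (ppl_meas_add _),
    Measure.map_map (measurable_id'.add_const _) measurable_snd]
  rfl

theorem pplPer_inv (Λ : ℝ) (γ : Measure (E d × E d)) (l : Fin d → ℤ) :
    (pplPer Λ γ).map (fun q => (q.1 + Λ • lat l, q.2 + Λ • lat l)) = pplPer Λ γ := by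
  unfold pplPer
  rw [Measure.map_sum (ppl_meas_add _).aemeasurable]
  rw [← Measure.sum_comp_equiv (Equiv.addRight l) fun k : Fin d → ℤ =>
    γ.map fun q : E d × E d => ((q.1 + Λ • lat k, q.2 + Λ • lat k) : E d × E d)]
  refine congrArg Measure.sum (funext fun k => ?_)
  rw [Measure.map_map (ppl_meas_add _) (ppl_meas_add _)]
  simp only [Function.comp_def, Equiv.coe_addRight, lat_add, smul_add, add_assoc]

theorem pplPer_CQ (p : ℝ) {Λ : ℝ} (hΛ : 0 < Λ) (γ : Measure (E d × E d)) :
    CQ p Λ (pplPer Λ γ) = ∫⁻ q, ‖q.1 - q.2‖ₑ ^ p ∂γ := by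
  have hS : MeasurableSet {q : E d × E d | q.1 ∈ cube 0 Λ} :=
    measurable_fst (measurableSet_cube 0 Λ)
  unfold CQ pplPer
  rw [Measure.restrict_sum _ hS, lintegral_sum_measure, ppl_cells hΛ γ]
  refine tsum_congr fun k => ?_
  rw [setLIntegral_map hS (measurable_ecost p) (ppl_meas_add _)]
  simp only [add_sub_add_right_eq_sub]
  rfl

theorem ppl_map_smul_cube {Λ : ℝ} (hΛ : 0 < Λ) :
    ((volume : Measure (E d)).restrict (cube 0 1)).map (fun x => Λ • x) =
      (ENNReal.ofReal (Λ ^ d))⁻¹ • (volume : Measure (E d)).restrict (cube 0 Λ) := by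
  have hm : Measurable fun x : E d => Λ • x := measurable_const_smul Λ
  have hpre : (fun x : E d => Λ • x) ⁻¹' cube 0 Λ = cube 0 1 := by
    ext x
    simp only [cube, Set.mem_preimage, Set.mem_ofPred_eq, PiLp.smul_apply, smul_eq_mul,
      PiLp.zero_apply, zero_add]
    refine forall_congr' fun i => ?_
    constructor
    · rintro ⟨h1, h2⟩
      exact ⟨by by_contra h; nlinarith, by by_contra h; nlinarith⟩
    · rintro ⟨h1, h2⟩
      exact ⟨by nlinarith, by nlinarith⟩
  rw [← hpre, ← Measure.restrict_map hm (measurableSet_cube 0 Λ),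
    Measure.map_addHaar_smul volume hΛ.ne', Measure.restrict_smul, finrank_euclideanSpace_fin,
    abs_of_pos (inv_pos.2 (pow_pos hΛ d)), ENNReal.ofReal_inv_of_pos (pow_pos hΛ d)]

theorem ppl_smul_frac (Λ : ℝ) (x : E d) :
    Λ • frac x = Λ • x + Λ • lat (fun i => -⌊x i⌋) := by
  rw [← smul_add]
  refine congrArg (fun y : E d => Λ • y) ?_
  ext i
  simp only [frac, lat, PiLp.add_apply, Int.cast_neg]
  rw [Int.fract, sub_eq_add_neg]

/-- a coupling on the unit torus lifts, after dilation by `Λ`, to a periodic plan -/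
theorem PW_le_WTor {p Λ : ℝ} (hp : 0 ≤ p) (hΛ : 0 < Λ) {μ : Measure (E d)} {c : ℝ≥0∞}
    (hc : c * μ Set.univ = ENNReal.ofReal (Λ ^ d)) :
    PW p Λ (per Λ (c • μ.map fun x => Λ • x)) ≤
      c * ENNReal.ofReal (Λ ^ p) * WTor p (μ.map frac) := by
  have hV0 : ENNReal.ofReal (Λ ^ d) ≠ 0 := (ENNReal.ofReal_pos.2 (pow_pos hΛ d)).ne'
  have hVt : ENNReal.ofReal (Λ ^ d) ≠ ⊤ := ENNReal.ofReal_ne_top
  have hc0 : c ≠ 0 := by
    rintro rfl
    rw [zero_mul] at hc
    exact hV0 hc.symm
  have hμ0 : μ Set.univ ≠ 0 := by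
    intro h
    rw [h, mul_zero] at hc
    exact hV0 hc.symm
  have hct : c ≠ ⊤ := by
    rintro rfl
    rw [ENNReal.top_mul hμ0] at hc
    exact hVt hc.symm
  have ha0 : c * ENNReal.ofReal (Λ ^ p) ≠ 0 :=
    mul_ne_zero hc0 (ENNReal.ofReal_pos.2 (Real.rpow_pos_of_pos hΛ p)).ne'
  have hat : c * ENNReal.ofReal (Λ ^ p) ≠ ⊤ := ENNReal.mul_ne_top hct ENNReal.ofReal_ne_top
  have hm : Measurable fun x : E d => Λ • x := measurable_const_smul Λ
  unfold WTor Wc
  rw [ENNReal.mul_iInf_of_ne ha0 hat]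
  refine le_iInf fun π => ?_
  rw [ENNReal.mul_iInf_of_ne ha0 hat]
  refine le_iInf fun h1 => ?_
  rw [ENNReal.mul_iInf_of_ne ha0 hat]
  refine le_iInf fun h2 => ?_
  set r : E d × E d → Fin d → ℤ := fun q i => round (q.1 i - q.2 i) with hr
  have hrm : Measurable r := ppl_meas_round
  have hF1 : Measurable fun q : E d × E d => Λ • q.1 := hm.comp measurable_fst
  have hF2 : Measurable fun q : E d × E d => Λ • q.2 := hm.comp measurable_snd
  have hF3 : Measurable fun q : E d × E d => Λ • q.2 + Λ • lat (r q) :=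
    hF2.add (hm.comp (ppl_meas_lat.comp hrm))
  set F : E d × E d → E d × E d := fun q => (Λ • q.1, Λ • q.2 + Λ • lat (r q)) with hF
  have hFm : Measurable F := hF1.prodMk hF3
  have hplan : PPlan Λ (per Λ (c • μ.map fun x => Λ • x)) (pplPer Λ (c • π.map F)) := by
    refine ⟨?_, ?_, pplPer_inv Λ _⟩
    · rw [pplPer_fst, Measure.map_smul, per_smul, per_smul, Measure.map_map measurable_fst hFm]
      have e1 : π.map (Prod.fst ∘ F) = (π.map Prod.fst).map fun x => Λ • x := by
        rw [Measure.map_map hm measurable_fst]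
        rfl
      have e2 : (μ.map frac).map (fun x => Λ • x) =
          μ.map fun x => Λ • x + Λ • lat (fun i => -⌊x i⌋) := by
        rw [Measure.map_map hm measurable_frac]
        refine congrArg (fun f => μ.map f) (funext fun x => ?_)
        exact ppl_smul_frac Λ x
      have hk : Measurable fun x : E d => fun i : Fin d => -⌊x i⌋ :=
        measurable_pi_lambda _ fun i => (ppl_meas_coord i).floor.neg
      rw [e1, h1, e2, per_map_of_lat Λ μ hm hk]
    · rw [pplPer_snd, Measure.map_smul, per_smul, Measure.map_map measurable_snd hFm]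
      have e1 : π.map (Prod.snd ∘ F) = π.map fun q => Λ • q.2 + Λ • lat (r q) := rfl
      have e2 : π.map (fun q => Λ • q.2) = (π.map Prod.snd).map fun x => Λ • x := by
        rw [Measure.map_map hm measurable_snd]
        rfl
      rw [e1, per_map_of_lat Λ π hF2 hrm, e2, h2, Measure.map_smul, ppl_map_smul_cube hΛ,
        per_smul, per_smul, per_volume_cell hΛ, smul_smul, smul_smul,
        Measure.map_apply measurable_frac MeasurableSet.univ, Set.preimage_univ, hc,
        ENNReal.mul_inv_cancel hV0 hVt, one_smul]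
  refine (iInf_le_of_le (pplPer Λ (c • π.map F)) (iInf_le _ hplan)).trans ?_
  rw [pplPer_CQ p hΛ, lintegral_smul_measure, lintegral_map (measurable_ecost p) hFm,
    smul_eq_mul, mul_assoc, ← lintegral_const_mul' _ _ ENNReal.ofReal_ne_top]
  refine le_of_eq (congrArg (fun t => c * t) (lintegral_congr fun q => ?_))
  have e : Λ • q.1 - (Λ • q.2 + Λ • lat (r q)) = Λ • (q.1 - q.2 - lat (r q)) := by
    rw [smul_sub, smul_sub, sub_sub]
  show ‖Λ • q.1 - (Λ • q.2 + Λ • lat (r q))‖ₑ ^ p =
    ENNReal.ofReal (Λ ^ p) * tdist q.1 q.2 ^ p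
  rw [e, tdist_eq_round, enorm_smul, ENNReal.mul_rpow_of_nonneg _ _ hp,
    Real.enorm_eq_ofReal hΛ.le, ENNReal.ofReal_rpow_of_pos hΛ]

end Pool.Agent.Lib.MP_fe8b6f_pr
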