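import Pool.Agent.Lib.MP_fe8b6f_pr.Fold
import Pool.Agent.Lib.MP_fe8b6f_pr.PPl

/-! Fine scale discrepancy of the folded second marginal. Part 1. -/

open MeasureTheory ProbabilityTheory
open scoped NNReal ENNReal

noncomputable section

namespace Pool.Agent.Lib.MP_fe8b6f_pr

variable {d : ℕ}

theorem locfa_meas_S (K L : ℝ) :
    MeasurableSet {q : E d × E d | ‖q.1 - q.2‖ ≤ K ∧ q.1 ∈ cube 0 L} :=
  (measurableSet_le (measurable_fst.sub measurable_snd).norm measurable_const).inter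
    (measurable_fst (measurableSet_cube 0 L))

theorem locfa_meas_f (L : ℝ) (ξ : E d) :
    Measurable fun q : E d × E d => fold L (q.2 + ξ) :=
  (measurable_fold L).comp (measurable_snd.add_const ξ)

theorem locfa_nu1_apply (K L : ℝ) (ξ : E d) (γ : Measure (E d × E d)) {A : Set (E d)}
    (hA : MeasurableSet A) :
    nu1 K L ξ γ A = γ ({q | fold L (q.2 + ξ) ∈ A} ∩
      {q : E d × E d | ‖q.1 - q.2‖ ≤ K ∧ q.1 ∈ cube 0 L}) := by
  unfold nu1
  rw [Measure.map_apply (locfa_meas_f L ξ) hA, Measure.restrict_apply (locfa_meas_f L ξ hA)]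
  rfl

theorem locfa_snd_apply {ξ : E d} {γ : Measure (E d × E d)} (h2 : γ.map Prod.snd = volume)
    {A : Set (E d)} (hA : MeasurableSet A) :
    γ {q | q.2 + ξ ∈ A} = volume A := by
  have h1 : MeasurableSet ((fun y : E d => y + ξ) ⁻¹' A) := (measurable_id.add_const ξ) hA
  have h3 : γ {q | q.2 + ξ ∈ A} = γ.map Prod.snd ((fun y : E d => y + ξ) ⁻¹' A) := by
    rw [Measure.map_apply measurable_snd h1]
    rfl
  rw [h3, h2, measure_preimage_add_right]

theorem locfa_meas_cbox (a b : E d) :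
    MeasurableSet {x : E d | ∀ i, a i ≤ x i ∧ x i ≤ b i} := by
  have : {x : E d | ∀ i, a i ≤ x i ∧ x i ≤ b i} = ⋂ i, {x : E d | a i ≤ x i ∧ x i ≤ b i} := by
    ext x
    simp
  rw [this]
  refine MeasurableSet.iInter fun i => ?_
  have hm : Measurable fun x : E d => x i := by fun_prop
  exact (measurableSet_le measurable_const hm).inter (measurableSet_le hm measurable_const)

/-- rearrangement inequality -/
theorem rear {X : Type*} [MeasurableSpace X] {p : ℝ} (hp : 1 ≤ p) (lam : Measure X) {t : X → ℝ}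
    (ht : Measurable t) (ht0 : ∀ x, 0 ≤ t x) {a : ℝ} (ha : 0 < a) (hfin : lam Set.univ ≠ ⊤)
    (h : ∀ r : ℝ, 0 < r → lam {x | t x ≤ r} ≤ ENNReal.ofReal (a * r)) :
    ENNReal.ofReal ((lam Set.univ).toReal ^ p) ≤
      ENNReal.ofReal (2 ^ p * a ^ (p - 1)) * ∫⁻ x, ENNReal.ofReal (t x ^ (p - 1)) ∂lam := by
  set m : ℝ := (lam Set.univ).toReal with hm
  have hm0 : 0 ≤ m := ENNReal.toReal_nonneg
  have hlam : lam Set.univ = ENNReal.ofReal m := (ENNReal.ofReal_toReal hfin).symm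
  rcases hm0.eq_or_lt with h0 | hpos
  · rw [← h0, Real.zero_rpow (by linarith)]
    simp
  set r : ℝ := m / (2 * a) with hr
  have hr0 : 0 < r := by positivity
  have har : a * r = m / 2 := by
    rw [hr]
    field_simp
  have hS : MeasurableSet {x | t x ≤ r} := measurableSet_le ht measurable_const
  have h1 : ENNReal.ofReal (m / 2) ≤ lam {x | t x ≤ r}ᶜ := by
    have h2 := h r hr0
    rw [har] at h2
    have h3 : lam {x | t x ≤ r} + lam {x | t x ≤ r}ᶜ = ENNReal.ofReal m := by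
      rw [measure_add_measure_compl hS, hlam]
    have h4 : ENNReal.ofReal (m / 2) + ENNReal.ofReal (m / 2) ≤
        ENNReal.ofReal (m / 2) + lam {x | t x ≤ r}ᶜ := by
      rw [← ENNReal.ofReal_add (by positivity) (by positivity), add_halves, ← h3]
      gcongr
    exact (ENNReal.add_le_add_iff_left ENNReal.ofReal_ne_top).1 h4
  have h5 : ENNReal.ofReal (r ^ (p - 1)) * lam {x | t x ≤ r}ᶜ ≤
      ∫⁻ x, ENNReal.ofReal (t x ^ (p - 1)) ∂lam := by
    rw [← lintegral_indicator_const hS.compl]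
    refine lintegral_mono fun x => ?_
    by_cases hx : x ∈ {x | t x ≤ r}ᶜ
    · rw [Set.indicator_of_mem hx]
      have hx' : r ≤ t x := le_of_lt (not_le.1 hx)
      exact ENNReal.ofReal_le_ofReal (Real.rpow_le_rpow hr0.le hx' (by linarith))
    · rw [Set.indicator_of_notMem hx]
      exact zero_le
  refine le_trans ?_ (mul_le_mul_right (le_trans (mul_le_mul_right h1 _) h5) _)
  rw [← ENNReal.ofReal_mul (by positivity), ← ENNReal.ofReal_mul (by positivity)]
  refine ENNReal.ofReal_le_ofReal (le_of_eq ?_)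
  have e1 : a ^ (p - 1) * r ^ (p - 1) = (m / 2) ^ (p - 1) := by
    rw [← Real.mul_rpow ha.le hr0.le, har]
  have e2 : (m / 2) ^ (p - 1) * (m / 2) = (m / 2) ^ p := by
    rw [← Real.rpow_add_one (by positivity)]
    congr 1
    ring
  have e3 : (2 : ℝ) ^ p * (m / 2) ^ p = m ^ p := by
    rw [← Real.mul_rpow (by norm_num) (by positivity)]
    congr 1
    ring
  calc m ^ p = 2 ^ p * ((a ^ (p - 1) * r ^ (p - 1)) * (m / 2)) := by rw [e1, e2, e3]
    _ = _ := by ring

theorem nu1_box_le {K L : ℝ} {ξ : E d} {γ : Measure (E d × E d)}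
    (h2 : γ.map Prod.snd = volume) (a b : E d) :
    nu1 K L ξ γ {x : E d | ∀ i, a i ≤ x i ∧ x i ≤ b i} ≤
      4 ^ d * ∏ i, ENNReal.ofReal (b i - a i) := by
  rw [locfa_nu1_apply K L ξ γ (locfa_meas_cbox a b)]
  refine le_trans (measure_mono Set.inter_subset_left) ?_
  have h1 := locfa_snd_apply (ξ := ξ) h2 (measurable_fold L (locfa_meas_cbox a b))
  exact le_trans (le_of_eq h1) (volume_fold_preimage_box L a b)

theorem nu1_compl_cube {K K0 L : ℝ} {ξ : E d} {γ : Measure (E d × E d)}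
    (h2 : γ.map Prod.snd = volume) (hξ : ‖ξ‖ ≤ K0) (hK : K + K0 ≤ L) :
    nu1 K L ξ γ (cube 0 L)ᶜ = 0 := by
  have hE : MeasurableSet (ecube L 0 : Set (E d)) := by
    have : (ecube L 0 : Set (E d)) = {x : E d | ∀ i, (0 : E d) i ≤ x i ∧
        x i ≤ (WithLp.toLp 2 fun _ => L : E d) i} := by
      ext x
      simp [ecube]
    rw [this]
    exact locfa_meas_cbox _ _
  have h0 : nu1 K L ξ γ (ecube L 0)ᶜ = 0 := by
    rw [locfa_nu1_apply K L ξ γ hE.compl]
    have : ({q | fold L (q.2 + ξ) ∈ (ecube L 0)ᶜ} ∩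
        {q : E d × E d | ‖q.1 - q.2‖ ≤ K ∧ q.1 ∈ cube 0 L}) = ∅ := by
      refine Set.eq_empty_of_forall_notMem fun q hq => ?_
      obtain ⟨hq1, hq2, hq3⟩ := hq
      refine hq1 (fold_mem fun i => ?_)
      have a1 := abs_coord_le_norm (q.1 - q.2) i
      have a2 := abs_coord_le_norm ξ i
      have a3 := hq3 i
      have a4 : (q.1 - q.2) i = q.1 i - q.2 i := rfl
      have a5 : (q.2 + ξ) i = q.2 i + ξ i := rfl
      have a6 : (0 : E d) i = 0 := rfl
      rw [a4] at a1
      rw [a6] at a3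
      rw [a5]
      have b1 := abs_le.1 (a1.trans hq2)
      have b2 := abs_le.1 (a2.trans hξ)
      constructor <;> linarith [b1.1, b1.2, b2.1, b2.2, a3.1, a3.2]
    rw [this, measure_empty]
  have h1 : ∀ i : Fin d, nu1 K L ξ γ {x : E d | ∀ j, (upd 0 i L) j ≤ x j ∧
      x j ≤ (WithLp.toLp 2 fun _ => L : E d) j} = 0 := by
    intro i
    refine le_antisymm (le_trans (nu1_box_le h2 _ _) (le_of_eq ?_)) zero_le
    rw [Finset.prod_eq_zero (Finset.mem_univ i), mul_zero]
    simp [upd]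
  refine measure_mono_null (t := (ecube L 0)ᶜ ∪ ⋃ i, {x : E d | ∀ j, (upd 0 i L) j ≤ x j ∧
      x j ≤ (WithLp.toLp 2 fun _ => L : E d) j}) ?_
    (measure_union_null h0 (measure_iUnion_null h1))
  intro x hx
  by_cases hx1 : x ∈ ecube L 0
  · right
    have : ∃ i, ¬ ((0 : E d) i ≤ x i ∧ x i < (0 : E d) i + L) := not_forall.1 hx
    obtain ⟨i, hi⟩ := this
    have a6 : (0 : E d) i = 0 := rfl
    rw [a6] at hi
    refine Set.mem_iUnion.2 ⟨i, fun j => ⟨?_, ?_⟩⟩
    · by_cases hj : j = i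
      · subst hj
        have b1 := hx1 j
        have : (upd (0 : E d) j L) j = L := by simp [upd]
        rw [this]
        by_contra hc
        exact hi ⟨by linarith [b1.1], by linarith [not_le.1 hc]⟩
      · have : (upd (0 : E d) i L) j = 0 := by simp [upd, hj]
        rw [this]
        linarith [(hx1 j).1]
    · have b1 := (hx1 j).2
      show x j ≤ L
      linarith
  · left
    exact hx1

theorem nu1_cube_ne_top {K L : ℝ} {ξ : E d} {γ : Measure (E d × E d)}
    (h2 : γ.map Prod.snd = volume) : nu1 K L ξ γ (cube 0 L) ≠ ⊤ := by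
  have hsub : (cube 0 L : Set (E d)) ⊆ {x : E d | ∀ i, (0 : E d) i ≤ x i ∧
      x i ≤ (WithLp.toLp 2 fun _ => L : E d) i} := by
    intro x hx i
    have b1 := hx i
    have a6 : (0 : E d) i = 0 := rfl
    rw [a6] at b1 ⊢
    refine ⟨b1.1, ?_⟩
    show x i ≤ L
    linarith [b1.2]
  refine ne_top_of_le_ne_top ?_ (le_trans (measure_mono hsub) (nu1_box_le h2 _ _))
  exact ENNReal.mul_ne_top (ENNReal.pow_ne_top (by norm_num))
    (ENNReal.prod_ne_top fun _ _ => ENNReal.ofReal_ne_top)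

/-- decomposition of `nu1` and of Lebesgue measure on subsets of the cube -/
theorem nu1_decomp {K L : ℝ} {ξ : E d} {γ : Measure (E d × E d)}
    (h2 : γ.map Prod.snd = volume) {A : Set (E d)} (hA : MeasurableSet A)
    (hAQ : A ⊆ cube 0 L) :
    nu1 K L ξ γ A = γ {q | ‖q.1 - q.2‖ ≤ K ∧ q.1 ∈ cube 0 L ∧ q.2 + ξ ∈ A} +
        γ {q | ‖q.1 - q.2‖ ≤ K ∧ q.1 ∈ cube 0 L ∧ q.2 + ξ ∉ cube 0 L ∧ fold L (q.2 + ξ) ∈ A} ∧
      volume A = γ {q | ‖q.1 - q.2‖ ≤ K ∧ q.1 ∈ cube 0 L ∧ q.2 + ξ ∈ A} +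
        γ {q | ‖q.1 - q.2‖ ≤ K ∧ q.1 ∉ cube 0 L ∧ q.2 + ξ ∈ A} +
        γ {q | K < ‖q.1 - q.2‖ ∧ q.2 + ξ ∈ A} := by
  have hs : Measurable fun q : E d × E d => q.2 + ξ := measurable_snd.add_const ξ
  have hQ2 : MeasurableSet {q : E d × E d | q.2 + ξ ∈ cube 0 L} := hs (measurableSet_cube 0 L)
  have hQ1 : MeasurableSet {q : E d × E d | q.1 ∈ cube 0 L} :=
    measurable_fst (measurableSet_cube 0 L)
  have hK : MeasurableSet {q : E d × E d | ‖q.1 - q.2‖ ≤ K} :=
    measurableSet_le (measurable_fst.sub measurable_snd).norm measurable_const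
  constructor
  · rw [locfa_nu1_apply K L ξ γ hA, ← measure_inter_add_diff _ hQ2]
    congr 2
    · ext q
      simp only [Set.mem_inter_iff, Set.mem_setOf_eq]
      constructor
      · rintro ⟨⟨a1, a2, a3⟩, a4⟩
        rw [fold_eq_self (cube_subset_ecube L le_rfl a4)] at a1
        exact ⟨a2, a3, a1⟩
      · rintro ⟨a1, a2, a3⟩
        refine ⟨⟨?_, a1, a2⟩, hAQ a3⟩
        rw [fold_eq_self (cube_subset_ecube L le_rfl (hAQ a3))]
        exact a3
    · ext q
      simp only [Set.mem_inter_iff, Set.mem_setOf_eq, Set.mem_diff]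
      tauto
  · rw [← locfa_snd_apply (ξ := ξ) h2 hA, ← measure_inter_add_diff _ hK,
      ← measure_inter_add_diff (_ ∩ _) hQ1]
    congr 2
    · congr 1
      ext q
      simp only [Set.mem_inter_iff, Set.mem_setOf_eq]
      tauto
    · congr 1
      ext q
      simp only [Set.mem_inter_iff, Set.mem_setOf_eq, Set.mem_diff]
      tauto
    · ext q
      simp only [Set.mem_setOf_eq, Set.mem_diff, not_le]
      tauto

end Pool.Agent.Lib.MP_fe8b6f_pr
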