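import Pool.Agent.Lib.MP_fe8b6f_pr.LocPA

/-! Pointwise localisation lemma for `p ≥ 1`. Part 2. -/

open MeasureTheory ProbabilityTheory
open scoped NNReal ENNReal

noncomputable section

namespace Pool.Agent.Lib.MP_fe8b6f_pr

variable {d : ℕ}

theorem locP_FB {p L δ : ℝ} (hp : 1 ≤ p) (hd : 1 ≤ d) (hL : 1 ≤ L) {X : ℝ≥0∞}
    (h : ENNReal.ofReal (L ^ p) * X ≤ ENNReal.ofReal (δ * L ^ d)) :
    X ≤ ENNReal.ofReal (δ * L ^ (d - 1)) := by
  have hL0 : 0 < L := by linarith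
  have h1 : L ≤ L ^ p := by
    have := Real.rpow_le_rpow_of_exponent_le hL hp
    simpa using this
  have h2 : ENNReal.ofReal L * X ≤ ENNReal.ofReal L * ENNReal.ofReal (δ * L ^ (d - 1)) := by
    refine le_trans (mul_le_mul_left (ENNReal.ofReal_le_ofReal h1) X) (h.trans (le_of_eq ?_))
    rw [← ENNReal.ofReal_mul hL0.le]
    congr 1
    obtain ⟨e, rfl⟩ : ∃ e, d = e + 1 := ⟨d - 1, by omega⟩
    simp only [Nat.add_sub_cancel]
    ring
  exact (ENNReal.mul_le_mul_iff_right (by simpa using hL0) ENNReal.ofReal_ne_top).1 h2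

/-- coarse discrepancy in real form -/
theorem locP_coarse {J : ℕ} {θ Mc : ℝ} {j : Fin d → Fin (2 ^ J)} {h : E d → ℝ} {g : E d → E d}
    (hT : TestFn J θ Mc j h g) (hMc : 0 < Mc) (hd : 1 ≤ d) {L K K0 δ η B : ℝ} {ξ : E d}
    {μ : Measure (E d)} {γ : Measure (E d × E d)} (hL : 1 ≤ L) (h1 : γ.map Prod.fst = μ)
    (h2 : γ.map Prod.snd = volume) (hμ : μ (cube 0 L) ≠ ⊤) (hξ : ‖ξ‖ ≤ K0) (hK0 : K0 ≤ K)
    (hK : K ≤ η * L) (hηθ : η ≤ θ) (hη4 : η ≤ 1 / 4) (hθ : 5 * θ < 1 / 2 ^ J) (hδ : 0 ≤ δ)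
    (hB : 0 ≤ B) {m : ℕ} (hm : 0 < m)
    (hG : |∫ x in cube 0 L, h (L⁻¹ • x) ∂μ - ∫ x in cube 0 L, h (L⁻¹ • x)| ≤ δ * L ^ (d - 1))
    (hFB : FB K K0 L γ ≤ ENNReal.ofReal (δ * L ^ (d - 1)))
    (hFZ : FZ K K0 L J θ γ ≤ ENNReal.ofReal (B * 2 ^ J * θ * L ^ (d - 1)))
    (hV1 : FV1 K K0 L γ ≤ ENNReal.ofReal (B * L ^ d))
    (hV2 : FV2 K K0 L γ ≤ ENNReal.ofReal (B * K * L ^ (d - 1)))
    (hD : FD K L m ξ γ ≤ δ) :
    |(nu1 K L ξ γ (gc 0 L (2 ^ J) j)).toReal - (L / (2 ^ J : ℕ)) ^ d| ≤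
      (B * 2 ^ J * θ + δ * (3 + Mc + Mc * K0) + 2 * √d * Mc * B / m + 4 * Mc * B * η) *
        L ^ (d - 1) := by
  have hL0 : 0 < L := by linarith
  have hK00 : 0 ≤ K0 := (norm_nonneg _).trans hξ
  have hKn : 0 ≤ K := hK00.trans hK0
  have hη0 : 0 ≤ η := by
    by_contra hn
    push Not at hn
    nlinarith
  have hθ0 : 0 ≤ θ := hη0.trans hηθ
  have hP : 0 < L ^ (d - 1) := pow_pos hL0 _
  have hLd : L ^ d = L * L ^ (d - 1) := by
    obtain ⟨e, rfl⟩ : ∃ e, d = e + 1 := ⟨d - 1, by omega⟩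
    simp only [Nat.add_sub_cancel]
    ring
  have hm0 : (0 : ℝ) < m := by exact_mod_cast hm
  have hsd : 0 ≤ √(d : ℝ) := Real.sqrt_nonneg _
  have hηL : η * L ≤ 1 / 4 * L := mul_le_mul_of_nonneg_right hη4 hL0.le
  have A1 := coarse_ind hT hL0 h2 hξ hK0
    (hK.trans (mul_le_mul_of_nonneg_right hηθ hL0.le)) hθ
  have A2 := coarse_test hT hMc hL0 h1 h2 hμ hξ hK0 (by linarith) hm
  have B1 := A1.trans (add_le_add hFZ hFB)
  rw [← ENNReal.ofReal_add (by positivity) (by positivity),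
    ENNReal.ofReal_le_ofReal_iff (by positivity)] at B1
  have hD' : ENNReal.ofReal (L ^ d * FD K L m ξ γ) ≤ ENNReal.ofReal (L ^ d * δ) :=
    ENNReal.ofReal_le_ofReal (mul_le_mul_of_nonneg_left hD (by positivity))
  have B2 := A2.trans (add_le_add (add_le_add (add_le_add hFB
    (mul_le_mul_right (add_le_add hD' (mul_le_mul_right hFB _)) _)) (mul_le_mul_right hV1 _))
    (mul_le_mul_right hV2 _))
  rw [← ENNReal.ofReal_mul hK00, ← ENNReal.ofReal_add (by positivity) (by positivity),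
    ← ENNReal.ofReal_mul (by positivity), ← ENNReal.ofReal_mul (by positivity),
    ← ENNReal.ofReal_mul (by positivity), ← ENNReal.ofReal_add (by positivity) (by positivity),
    ← ENNReal.ofReal_add (by positivity) (by positivity),
    ← ENNReal.ofReal_add (by positivity) (by positivity),
    ENNReal.ofReal_le_ofReal_iff (by positivity)] at B2
  have e1 : Mc / L * (L ^ d * δ + K0 * (δ * L ^ (d - 1))) ≤ δ * (Mc + Mc * K0) * L ^ (d - 1) := by
    have : Mc / L * (L ^ d * δ + K0 * (δ * L ^ (d - 1))) =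
        δ * Mc * L ^ (d - 1) + (Mc * K0 * δ * L ^ (d - 1)) / L := by
      rw [hLd]; field_simp
    rw [this]
    have h3 : (Mc * K0 * δ * L ^ (d - 1)) / L ≤ Mc * K0 * δ * L ^ (d - 1) :=
      div_le_self (by positivity) hL
    nlinarith
  have hKL : K / L ≤ η := by rw [div_le_iff₀ hL0]; exact hK
  have e2 : Mc / L ^ 2 * (2 * √d * (L / m) + 2 * K) * (B * L ^ d) ≤
      (2 * √d * Mc * B / m + 2 * Mc * B * η) * L ^ (d - 1) := by
    have : Mc / L ^ 2 * (2 * √d * (L / m) + 2 * K) * (B * L ^ d) =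
        (2 * √d * Mc * B / m + 2 * Mc * B * (K / L)) * L ^ (d - 1) := by
      rw [hLd]; field_simp
    rw [this]
    gcongr
  have e3 : 2 * Mc / L * (B * K * L ^ (d - 1)) ≤ (2 * Mc * B * η) * L ^ (d - 1) := by
    have : 2 * Mc / L * (B * K * L ^ (d - 1)) = (2 * Mc * B * (K / L)) * L ^ (d - 1) := by
      field_simp
    rw [this]
    gcongr
  have t1 := abs_le.1 B1
  have t2 := abs_le.1 B2
  have t3 := abs_le.1 hG
  rw [abs_le]
  constructor <;> linarith [t1.1, t1.2, t2.1, t2.2, t3.1, t3.2]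

theorem locP_tsum {A ρ : ℝ} (hA : 0 ≤ A) (h0 : 0 ≤ ρ) (h1 : ρ < 1) {u : ℕ → ℝ≥0∞}
    (hu : ∀ k, u k ≤ ENNReal.ofReal (A * ρ ^ k)) :
    ∑' k, u k ≤ ENNReal.ofReal (A / (1 - ρ)) := by
  refine (ENNReal.tsum_le_tsum hu).trans (le_of_eq ?_)
  rw [← ENNReal.ofReal_tsum_of_nonneg (fun k => by positivity)
    ((summable_geometric_of_lt_one h0 h1).mul_left A), tsum_mul_left,
    tsum_geometric_of_lt_one h0 h1, div_eq_mul_inv]

theorem locP_small {a : ℝ} (ha : 0 < a) {c : ℝ} (hc : 0 ≤ c) : ∃ δ : ℝ, 0 < δ ∧ c * δ ≤ a :=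
  ⟨a / (c + 1), by positivity, by
    rw [← mul_div_assoc, div_le_iff₀ (by positivity)]; nlinarith⟩

theorem locP {p : ℝ} (hp : 1 ≤ p) (hd : 2 ≤ d) {ε K0 B : ℝ} (hε : 0 < ε) (hK0 : 0 < K0)
    (hB : 0 < B) :
    ∃ (δ θ η : ℝ) (J J2 : ℕ) (h : (Fin d → Fin (2 ^ J)) → E d → ℝ),
      0 < δ ∧ 0 < η ∧ η ≤ θ ∧ η ≤ 1 / 4 ∧
      (∀ r, Continuous (h r) ∧ ∀ x, 0 ≤ h r x ∧ h r x ≤ 1) ∧
      ∀ (L K : ℝ) (ξ : E d) (μ : Measure (E d)) (γ : Measure (E d × E d)),
        1 ≤ L → K0 ≤ K → K ≤ η * L → γ.map Prod.fst = μ → γ.map Prod.snd = volume →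
        ‖ξ‖ ≤ K0 → Good K0 δ L h μ →
        FS p K K0 L γ ≤ ENNReal.ofReal (B * L ^ (d - 1)) →
        ENNReal.ofReal (L ^ p) * FB K K0 L γ ≤ ENNReal.ofReal (δ * L ^ d) →
        FZ K K0 L J θ γ ≤ ENNReal.ofReal (B * 2 ^ J * θ * L ^ (d - 1)) →
        FV1 K K0 L γ ≤ ENNReal.ofReal (B * L ^ d) →
        FV2 K K0 L γ ≤ ENNReal.ofReal (B * K * L ^ (d - 1)) →
        FD K L (2 ^ J2) ξ γ ≤ δ →
        G p L ξ μ ≤ ENNReal.ofReal (1 + ε) * CQ p L γ + ENNReal.ofReal (ε * L ^ d) := by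
  have hp0 : 0 < p := by linarith
  have hd1 : 1 ≤ d := by omega
  obtain ⟨C1, hC1⟩ := G_le_nu1 (d := d) hp hε
  obtain ⟨C2, hC2⟩ := AKT_full (d := d) hp
  obtain ⟨C3, hC3⟩ := disc_nu1_le (d := d) hp
  set a : ℝ := ε / (3 * (C1 + 1)) with ha
  have ha0 : 0 < a := by positivity
  set ρ : ℝ := 2 ^ (-1 / (2 * p)) with hρ
  have hρ0 : 0 < ρ := by positivity
  have hρ1 : ρ < 1 := Real.rpow_lt_one_of_one_lt_of_neg (by norm_num)
    (div_neg_of_neg_of_pos (by norm_num) (by positivity))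
  set A0 : ℝ := a * (1 - ρ) / (C2 + 1) with hA0
  have hA00 : 0 < A0 := by
    have : 0 < 1 - ρ := by linarith
    positivity
  obtain ⟨J, hJ⟩ : ∃ J : ℕ, ρ ^ J ≤ A0 / ((C3 + 1) * (B + 1)) := by
    obtain ⟨J, hJ⟩ := exists_pow_lt_of_lt_one (show 0 < A0 / ((C3 + 1) * (B + 1)) by positivity) hρ1
    exact ⟨J, hJ.le⟩
  obtain ⟨C4, hC4⟩ := disc_coarse_le (d := d) hp hd1 J
  obtain ⟨δ0, hδ0, hδ0'⟩ := locP_small (show 0 < A0 * ρ ^ J by positivity)
    (show 0 ≤ 2 ^ J * |C4| by positivity)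
  set δ1 : ℝ := min δ0 1 with hδ1
  have hδ10 : 0 < δ1 := lt_min hδ0 one_pos
  have hδ1p : δ1 ^ p ≤ δ0 := by
    have h1 : δ1 ^ p ≤ δ1 ^ (1 : ℝ) :=
      Real.rpow_le_rpow_of_exponent_ge hδ10 (min_le_right _ _) hp
    rw [Real.rpow_one] at h1
    exact h1.trans (min_le_left _ _)
  obtain ⟨θ0, hθ0, hθ0'⟩ := locP_small (show 0 < δ1 / 4 by positivity)
    (show 0 ≤ B * 2 ^ J by positivity)
  set θ : ℝ := min θ0 (1 / 2 ^ J / 6) with hθ
  have hθp : 0 < θ := lt_min hθ0 (by positivity)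
  have hθ5 : 5 * θ < 1 / 2 ^ J := by
    have h1 : θ ≤ 1 / 2 ^ J / 6 := min_le_right _ _
    have h2 : (0 : ℝ) < 1 / 2 ^ J := by positivity
    linarith
  have hθ1 : B * 2 ^ J * θ ≤ δ1 / 4 :=
    le_trans (mul_le_mul_of_nonneg_left (min_le_left _ _) (by positivity)) hθ0'
  obtain ⟨Mc, h, g, hMc, hT⟩ := exists_testFn (d := d) J hθp
  obtain ⟨J2, hJ2⟩ : ∃ J2 : ℕ, 2 * √d * Mc * B / ((2 ^ J2 : ℕ) : ℝ) ≤ δ1 / 4 := by
    obtain ⟨n, hn⟩ := pow_unbounded_of_one_lt (2 * √d * Mc * B / (δ1 / 4)) (show (1 : ℝ) < 2 by norm_num)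
    refine ⟨n, ?_⟩
    push_cast
    rw [div_le_iff₀ (by positivity)]
    rw [div_lt_iff₀ (by positivity)] at hn
    linarith
  obtain ⟨η0, hη0, hη0'⟩ := locP_small (show 0 < δ1 / 4 by positivity)
    (show 0 ≤ 4 * Mc * B by positivity)
  set η : ℝ := min η0 (min θ (1 / 4)) with hη
  have hηp : 0 < η := lt_min hη0 (lt_min hθp (by norm_num))
  have hηθ : η ≤ θ := (min_le_right _ _).trans (min_le_left _ _)
  have hη4 : η ≤ 1 / 4 := (min_le_right _ _).trans (min_le_right _ _)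
  have hη1 : 4 * Mc * B * η ≤ δ1 / 4 :=
    le_trans (mul_le_mul_of_nonneg_left (min_le_left _ _) (by positivity)) hη0'
  obtain ⟨δa, hδa, hδa'⟩ := locP_small (show 0 < δ1 / 4 by positivity)
    (show 0 ≤ 3 + Mc + Mc * K0 by positivity)
  obtain ⟨δb, hδb, hδb'⟩ := locP_small ha0 (show 0 ≤ K0 ^ p + 1 by positivity)
  set δ : ℝ := min δa (min δb 1) with hδ
  have hδp : 0 < δ := lt_min hδa (lt_min hδb one_pos)
  have hδ1' : δ ≤ 1 := (min_le_right _ _).trans (min_le_right _ _)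
  have hδ2 : δ * (3 + Mc + Mc * K0) ≤ δ1 / 4 := by
    rw [mul_comm]
    exact le_trans (mul_le_mul_of_nonneg_left (min_le_left _ _) (by positivity)) hδa'
  have hδ3 : (K0 ^ p + 1) * δ ≤ a :=
    le_trans (mul_le_mul_of_nonneg_left ((min_le_right _ _).trans (min_le_left _ _))
      (by positivity)) hδb'
  have hK0p : 0 ≤ K0 ^ p := by positivity
  have hδ6 : 0 ≤ K0 ^ p * δ := by positivity
  have hδ4 : K0 ^ p * δ ≤ a := by linarith
  have hδ5 : δ ≤ a := by linarith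
  refine ⟨δ, θ, η, J, J2, h, hδp, hηp, hηθ, hη4,
    fun r => ⟨(hT r).cont, fun x => ⟨(hT r).nonneg x, (hT r).le_one x⟩⟩, ?_⟩
  intro L K ξ μ γ hL hK0K hK h1 h2 hξ hG hFS hFB hFZ hV1 hV2 hD
  have hL0 : 0 < L := by linarith
  have hKn : 0 ≤ K := by linarith
  have hηL : η * L ≤ 1 / 4 * L := mul_le_mul_of_nonneg_right hη4 hL0.le
  have hKK : K + K0 ≤ L := by linarith
  have hLd0 : 0 < L ^ d := pow_pos hL0 _
  have hLd : L ^ d = L * L ^ (d - 1) := by
    obtain ⟨e, rfl⟩ : ∃ e, d = e + 1 := ⟨d - 1, by omega⟩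
    simp only [Nat.add_sub_cancel]
    ring
  refine (hC1 L K K0 ξ μ γ hL0 h1 h2 hG.1 hξ hKn hKK).trans (add_le_add_right ?_ _)
  have hFB' := locP_FB hp hd1 hL hFB
  have hν := nu1_cube_ne_top (K := K) (L := L) (ξ := ξ) h2
  have hco : ∀ j, |(nu1 K L ξ γ (gc 0 L (2 ^ J) j)).toReal - (L / (2 ^ J : ℕ)) ^ d| ≤
      δ1 * L ^ (d - 1) := by
    intro j
    refine (locP_coarse (hT j) hMc hd1 hL h1 h2 hG.1 hξ hK0K hK hηθ hη4 hθ5 hδp.le hB.le
      (m := 2 ^ J2) (by positivity) (hG.2.2 j) hFB' hFZ hV1 hV2 hD).trans ?_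
    refine mul_le_mul_of_nonneg_right (by linarith) (by positivity)
  have T1 : ENNReal.ofReal (K0 ^ p) * μ (cube 0 L ∩ Lay L K0) ≤ ENNReal.ofReal (a * L ^ d) := by
    refine (mul_le_mul_right hG.2.1 _).trans ?_
    rw [← ENNReal.ofReal_mul hK0p]
    refine ENNReal.ofReal_le_ofReal ?_
    rw [← mul_assoc]
    exact mul_le_mul_of_nonneg_right hδ4 hLd0.le
  have T2 : ENNReal.ofReal (L ^ p) * FB K K0 L γ ≤ ENNReal.ofReal (a * L ^ d) := by
    exact hFB.trans (ENNReal.ofReal_le_ofReal (mul_le_mul_of_nonneg_right hδ5 hLd0.le))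
  have T3 : Wp p ((nu1 K L ξ γ).restrict (cube 0 L)) (avg (nu1 K L ξ γ) 0 L 1) ≤
      ENNReal.ofReal (a * L ^ d) := by
    refine (hC2 0 L _ hL0 hν).trans ?_
    have hterm : ∀ k : ℕ, ENNReal.ofReal (2 ^ (((k : ℝ) + 1) * (p - 1) / p)) *
        disc p (nu1 K L ξ γ) 0 L (2 ^ (k + 1)) ≤ ENNReal.ofReal (A0 * L ^ d * ρ ^ k) := by
      intro k
      have hw0 : (0 : ℝ) < 2 ^ (((k : ℝ) + 1) * (p - 1) / p) := by positivity
      by_cases hk : k + 1 ≤ J
      · refine (mul_le_mul_right (hC4 L δ1 _ (k + 1) hL0 hδ10.le hk hν hco) _).trans ?_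
        rw [← ENNReal.ofReal_mul hw0.le]
        refine ENNReal.ofReal_le_ofReal ?_
        have hw : (2 : ℝ) ^ (((k : ℝ) + 1) * (p - 1) / p) ≤ 2 ^ J := by
          rw [← Real.rpow_natCast]
          refine Real.rpow_le_rpow_of_exponent_le (by norm_num) ?_
          have hk' : (k : ℝ) + 1 ≤ J := by exact_mod_cast hk
          rw [div_le_iff₀ hp0]
          have : (0 : ℝ) ≤ k := Nat.cast_nonneg k
          nlinarith
        have hρk : ρ ^ J ≤ ρ ^ k := pow_le_pow_of_le_one hρ0.le hρ1.le (by omega)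
        have hδp' : 0 ≤ δ1 ^ p := by positivity
        calc (2 : ℝ) ^ (((k : ℝ) + 1) * (p - 1) / p) * (C4 * δ1 ^ p * L ^ d)
            ≤ 2 ^ (((k : ℝ) + 1) * (p - 1) / p) * (|C4| * δ1 ^ p * L ^ d) := by
              gcongr
              exact le_abs_self _
          _ ≤ 2 ^ J * (|C4| * δ0 * L ^ d) := by gcongr
          _ = (2 ^ J * |C4| * δ0) * L ^ d := by ring
          _ ≤ (A0 * ρ ^ J) * L ^ d := by gcongr
          _ ≤ (A0 * ρ ^ k) * L ^ d := by gcongr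
          _ = A0 * L ^ d * ρ ^ k := by ring
      · have hm : 0 < 2 ^ (k + 1) := by positivity
        refine (mul_le_mul_right (hC3 L K K0 ξ γ _ hL0 hm h2 hξ hKK) _).trans ?_
        set m : ℝ := ((2 ^ (k + 1) : ℕ) : ℝ) with hmdef
        have hm1 : 1 ≤ m := by
          rw [hmdef]; exact_mod_cast hm
        have hm0 : 0 < m := by linarith
        have S1 : ENNReal.ofReal (L / m) * FS p K K0 L γ ≤ ENNReal.ofReal (B * L ^ d / m) := by
          refine (mul_le_mul_right hFS _).trans (le_of_eq ?_)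
          rw [← ENNReal.ofReal_mul (by positivity), hLd]
          congr 1
          field_simp
        have S2 : ENNReal.ofReal ((L / m) ^ p) * FB K K0 L γ ≤ ENNReal.ofReal (L ^ d / m) := by
          have e : (L / m) ^ p = (1 / m) ^ p * L ^ p := by
            rw [← Real.mul_rpow (by positivity) hL0.le]; congr 1; field_simp
          rw [e, ENNReal.ofReal_mul (by positivity), mul_assoc]
          refine (mul_le_mul_right hFB _).trans ?_
          rw [← ENNReal.ofReal_mul (by positivity)]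
          refine ENNReal.ofReal_le_ofReal ?_
          have h3 : (1 / m) ^ p ≤ (1 / m) ^ (1 : ℝ) :=
            Real.rpow_le_rpow_of_exponent_ge (by positivity)
              (by rw [div_le_one hm0]; exact hm1) hp
          rw [Real.rpow_one] at h3
          calc (1 / m) ^ p * (δ * L ^ d) ≤ (1 / m) * (1 * L ^ d) := by gcongr
            _ = L ^ d / m := by ring
        refine (mul_le_mul_right (mul_le_mul_right (add_le_add S1 S2) _) _).trans ?_
        rw [← ENNReal.ofReal_add (by positivity) (by positivity), ← ENNReal.ofReal_coe_nnreal,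
          ← ENNReal.ofReal_mul (by positivity), ← ENNReal.ofReal_mul hw0.le]
        refine ENNReal.ofReal_le_ofReal ?_
        have hw : (2 : ℝ) ^ (((k : ℝ) + 1) * (p - 1) / p) / m = ρ ^ (2 * (k + 1)) := by
          rw [hmdef, hρ, ← Real.rpow_natCast, ← Real.rpow_mul (by norm_num)]
          push_cast
          rw [← Real.rpow_natCast, ← Real.rpow_sub (by norm_num)]
          congr 1
          push_cast
          field_simp
          ring
        have hρk : ρ ^ (2 * (k + 1)) ≤ ρ ^ J * ρ ^ k := by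
          rw [← pow_add]
          exact pow_le_pow_of_le_one hρ0.le hρ1.le (by omega)
        have hC30 : (0 : ℝ) ≤ C3 := C3.2
        rw [le_div_iff₀ (by positivity)] at hJ
        calc (2 : ℝ) ^ (((k : ℝ) + 1) * (p - 1) / p) * (C3 * (B * L ^ d / m + L ^ d / m))
            = (2 ^ (((k : ℝ) + 1) * (p - 1) / p) / m) * (C3 * (B + 1)) * L ^ d := by
              field_simp
          _ ≤ (ρ ^ J * ρ ^ k) * ((C3 + 1) * (B + 1)) * L ^ d := by
              rw [hw]; gcongr; linarith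
          _ = (ρ ^ J * ((C3 + 1) * (B + 1))) * L ^ d * ρ ^ k := by ring
          _ ≤ A0 * L ^ d * ρ ^ k := by gcongr
    refine (mul_le_mul_right (locP_tsum (by positivity) hρ0.le hρ1 hterm) _).trans ?_
    have h1ρ : 0 < 1 - ρ := by linarith
    rw [← ENNReal.ofReal_coe_nnreal, ← ENNReal.ofReal_mul (by positivity)]
    refine ENNReal.ofReal_le_ofReal ?_
    have hC20 : (0 : ℝ) ≤ C2 := C2.2
    have e : (C2 : ℝ) * (A0 * L ^ d / (1 - ρ)) = (C2 / (C2 + 1)) * (a * L ^ d) := by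
      rw [hA0]; field_simp
    rw [e]
    have : (C2 : ℝ) / (C2 + 1) ≤ 1 := by rw [div_le_one (by positivity)]; linarith
    exact mul_le_of_le_one_left (by positivity) this
  refine (mul_le_mul_right (add_le_add (add_le_add T1 T2) T3) _).trans ?_
  rw [← ENNReal.ofReal_add (by positivity) (by positivity),
    ← ENNReal.ofReal_add (by positivity) (by positivity), ← ENNReal.ofReal_coe_nnreal,
    ← ENNReal.ofReal_mul (by positivity)]
  refine ENNReal.ofReal_le_ofReal ?_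
  have hC10 : (0 : ℝ) ≤ C1 := C1.2
  have e : (C1 : ℝ) * (a * L ^ d + a * L ^ d + a * L ^ d) = (C1 / (C1 + 1)) * (ε * L ^ d) := by
    rw [ha]; field_simp; ring
  rw [e]
  have : (C1 : ℝ) / (C1 + 1) ≤ 1 := by rw [div_le_one (by positivity)]; linarith
  exact mul_le_of_le_one_left (by positivity) this

end Pool.Agent.Lib.MP_fe8b6f_pr
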