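import Pool.Agent.Lib.MP_fe8b6f_pr.Grid

/-! Existence of the smooth test functions. -/

open MeasureTheory ProbabilityTheory
open scoped NNReal ENNReal

noncomputable section

namespace Pool.Agent.Lib.MP_fe8b6f_pr

variable {d : ℕ}

theorem test_ecube_subset : (ecube 1 0 : Set (E d)) ⊆ Metric.closedBall 0 (√d * 1) := by
  intro x hx
  rw [Metric.mem_closedBall, dist_eq_norm]
  refine norm_sub_le_of_coord zero_le_one fun i => ?_
  have h := hx i
  rw [abs_le]
  simp only [PiLp.zero_apply]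
  constructor <;> linarith [h.1, h.2]

theorem test_C2 {h : E d → ℝ} (hh : ContDiff ℝ 2 h) :
    ∃ M : ℝ, 0 ≤ M ∧
      (∀ a ∈ (ecube 1 0 : Set (E d)), ∀ b ∈ (ecube 1 0 : Set (E d)), |h a - h b| ≤ M * ‖a - b‖) ∧
      (∀ c ∈ (ecube 1 0 : Set (E d)), ‖gradient h c‖ ≤ M) ∧
      (∀ a ∈ (ecube 1 0 : Set (E d)), ∀ b ∈ (ecube 1 0 : Set (E d)),
        ∀ c ∈ (ecube 1 0 : Set (E d)),
        |h a - h b - inner ℝ (gradient h c) (a - b)| ≤ M * ‖a - b‖ * (‖a - c‖ + ‖b - c‖)) := by
  set K : Set (E d) := Metric.closedBall 0 (√d * 1) with hK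
  have hKc : IsCompact K := isCompact_closedBall _ _
  have hKv : Convex ℝ K := convex_closedBall _ _
  have h1 : ContDiff ℝ 1 (fderiv ℝ h) := hh.fderiv_right (by norm_num)
  have hd : Differentiable ℝ h := hh.differentiable (by norm_num)
  have hd1 : Differentiable ℝ (fderiv ℝ h) := h1.differentiable (by norm_num)
  obtain ⟨M1, hM1⟩ := hKc.exists_bound_of_continuousOn h1.continuous.continuousOn
  obtain ⟨M2, hM2⟩ := hKc.exists_bound_of_continuousOn
    (h1.continuous_fderiv (by norm_num)).continuousOn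
  set M := max (max M1 M2) 0 with hM
  have hM0 : 0 ≤ M := le_max_right _ _
  have hb1 : ∀ x ∈ K, ‖fderiv ℝ h x‖ ≤ M := fun x hx =>
    (hM1 x hx).trans ((le_max_left _ _).trans (le_max_left _ _))
  have hb2 : ∀ x ∈ K, ‖fderiv ℝ (fderiv ℝ h) x‖ ≤ M := fun x hx =>
    (hM2 x hx).trans ((le_max_right _ _).trans (le_max_left _ _))
  refine ⟨M, hM0, fun a ha b hb => ?_, fun c hc => ?_, fun a ha b hb c hc => ?_⟩
  · exact hKv.norm_image_sub_le_of_norm_fderiv_le (fun x _ => hd x) hb1 (test_ecube_subset hb)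
      (test_ecube_subset ha)
  · unfold gradient
    rw [LinearIsometryEquiv.norm_map]
    exact hb1 c (test_ecube_subset hc)
  · have hs : Convex ℝ (K ∩ Metric.closedBall c (‖a - c‖ + ‖b - c‖)) :=
      hKv.inter (convex_closedBall _ _)
    have hbd : ∀ x ∈ K ∩ Metric.closedBall c (‖a - c‖ + ‖b - c‖),
        ‖fderiv ℝ h x - fderiv ℝ h c‖ ≤ M * (‖a - c‖ + ‖b - c‖) := by
      intro x hx
      have e := hKv.norm_image_sub_le_of_norm_fderiv_le (fun x _ => hd1 x) hb2
        (test_ecube_subset hc) hx.1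
      refine e.trans (mul_le_mul_of_nonneg_left ?_ hM0)
      have := hx.2
      rwa [Metric.mem_closedBall, dist_eq_norm] at this
    have ha' : a ∈ K ∩ Metric.closedBall c (‖a - c‖ + ‖b - c‖) := by
      refine ⟨test_ecube_subset ha, ?_⟩
      rw [Metric.mem_closedBall, dist_eq_norm]
      linarith [norm_nonneg (b - c)]
    have hb' : b ∈ K ∩ Metric.closedBall c (‖a - c‖ + ‖b - c‖) := by
      refine ⟨test_ecube_subset hb, ?_⟩
      rw [Metric.mem_closedBall, dist_eq_norm]
      linarith [norm_nonneg (a - c)]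
    have e := hs.norm_image_sub_le_of_norm_fderiv_le' (fun x _ => hd x) hbd hb' ha'
    have eg : inner ℝ (gradient h c) (a - b) = fderiv ℝ h c (a - b) := by
      unfold gradient
      exact InnerProductSpace.toDual_symm_apply
    rw [eg]
    refine le_trans (le_of_eq (Real.norm_eq_abs _).symm) (e.trans (le_of_eq ?_))
    ring

/-- one-sided cut-off -/
def testCut (θ : ℝ) (b : Prop) [Decidable b] (u : ℝ) : ℝ :=
  if b then 1 else Real.smoothTransition (u / (2 * θ) + 1 / 2)

theorem test_cut_contDiff (θ : ℝ) (b : Prop) [Decidable b] : ContDiff ℝ 2 (testCut θ b) := by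
  unfold testCut
  split_ifs
  · exact contDiff_const
  · exact Real.smoothTransition.contDiff.comp ((contDiff_id.div_const _).add contDiff_const)

theorem test_cut_nonneg (θ : ℝ) (b : Prop) [Decidable b] (u : ℝ) : 0 ≤ testCut θ b u := by
  unfold testCut
  split_ifs
  · exact zero_le_one
  · exact Real.smoothTransition.nonneg _

theorem test_cut_le_one (θ : ℝ) (b : Prop) [Decidable b] (u : ℝ) : testCut θ b u ≤ 1 := by
  unfold testCut
  split_ifs
  · exact le_rfl
  · exact Real.smoothTransition.le_one _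

theorem test_cut_one {θ : ℝ} (hθ : 0 < θ) (b : Prop) [Decidable b] {u : ℝ}
    (h : ¬ b → θ < |u|) (hu : 0 ≤ u) : testCut θ b u = 1 := by
  unfold testCut
  split_ifs with hb
  · rfl
  · have h' := h hb
    rw [abs_of_nonneg hu] at h'
    refine Real.smoothTransition.one_of_one_le ?_
    have : 1 / 2 ≤ u / (2 * θ) := by
      rw [le_div_iff₀ (by positivity)]
      linarith
    linarith

theorem test_cut_zero {θ : ℝ} (hθ : 0 < θ) (b : Prop) [Decidable b] {u : ℝ}
    (hb : ¬ b) (h : θ < |u|) (hu : u ≤ 0) : testCut θ b u = 0 := by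
  unfold testCut
  rw [if_neg hb]
  rw [abs_of_nonpos hu] at h
  refine Real.smoothTransition.zero_of_nonpos ?_
  have : u / (2 * θ) ≤ -(1 / 2) := by
    rw [div_le_iff₀ (by positivity)]
    linarith
  linarith

/-- the test function of the cell `j` -/
def testH (J : ℕ) (θ : ℝ) (j : Fin d → Fin (2 ^ J)) (x : E d) : ℝ :=
  ∏ i, testCut θ ((j i : ℕ) = 0) (x i - (j i : ℕ) / 2 ^ J) *
    testCut θ ((j i : ℕ) + 1 = 2 ^ J) ((((j i : ℕ) + 1 : ℕ) : ℝ) / 2 ^ J - x i)

theorem test_H_contDiff (J : ℕ) (θ : ℝ) (j : Fin d → Fin (2 ^ J)) :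
    ContDiff ℝ 2 (testH J θ j) := by
  unfold testH
  refine contDiff_prod fun i _ => ?_
  have hi : ContDiff ℝ 2 fun x : E d => x i := by fun_prop
  exact ((test_cut_contDiff θ _).comp (hi.sub contDiff_const)).mul
    ((test_cut_contDiff θ _).comp (contDiff_const.sub hi))

theorem test_mem_gc (J : ℕ) (j : Fin d → Fin (2 ^ J)) (x : E d) :
    x ∈ gc 0 1 (2 ^ J) j ↔
      ∀ i, ((j i : ℕ) : ℝ) / 2 ^ J ≤ x i ∧ x i < (((j i : ℕ) + 1 : ℕ) : ℝ) / 2 ^ J := by
  unfold gc cube gcorner
  simp only [Set.mem_ofPred_eq, zero_add, PiLp.smul_apply, smul_eq_mul]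
  refine forall_congr' fun i => ?_
  push_cast
  have e1 : 1 / (2 : ℝ) ^ J * ((j i : ℕ) : ℝ) = ((j i : ℕ) : ℝ) / 2 ^ J := by ring
  have e2 : ((j i : ℕ) : ℝ) / 2 ^ J + 1 / 2 ^ J = (((j i : ℕ) : ℝ) + 1) / 2 ^ J := by ring
  rw [e1, e2]

theorem test_H_ind (J : ℕ) {θ : ℝ} (hθ : 0 < θ) (j : Fin d → Fin (2 ^ J)) (x : E d)
    (hx : x ∈ cube (0 : E d) 1)
    (hfar : ∀ (i : Fin d) (n : ℕ), 0 < n → n < 2 ^ J → θ < |x i - n / 2 ^ J|) :
    testH J θ j x = (gc 0 1 (2 ^ J) j).indicator 1 x := by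
  have hlo : ∀ i, ¬ ((j i : ℕ) = 0) → θ < |x i - (j i : ℕ) / 2 ^ J| := fun i hi =>
    hfar i _ (Nat.pos_of_ne_zero hi) (j i).2
  have hhi : ∀ i, ¬ ((j i : ℕ) + 1 = 2 ^ J) →
      θ < |(((j i : ℕ) + 1 : ℕ) : ℝ) / 2 ^ J - x i| := by
    intro i hi
    rw [abs_sub_comm]
    have := (j i).2
    exact hfar i _ (Nat.succ_pos _) (by omega)
  by_cases hm : x ∈ gc 0 1 (2 ^ J) j
  · rw [Set.indicator_of_mem hm]
    have h := (test_mem_gc J j x).1 hm
    unfold testH
    refine Finset.prod_eq_one fun i _ => ?_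
    rw [test_cut_one hθ _ (hlo i) (by linarith [(h i).1]),
      test_cut_one hθ _ (hhi i) (by linarith [(h i).2]), mul_one]
  · rw [Set.indicator_of_notMem hm]
    rw [test_mem_gc] at hm
    push Not at hm
    obtain ⟨i, hi⟩ := hm
    have hxi := hx i
    simp only [PiLp.zero_apply, zero_add] at hxi
    unfold testH
    refine Finset.prod_eq_zero (Finset.mem_univ i) ?_
    by_cases h1 : ((j i : ℕ) : ℝ) / 2 ^ J ≤ x i
    · have h2 := hi h1
      have hb : ¬ ((j i : ℕ) + 1 = 2 ^ J) := by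
        intro e
        rw [e] at h2
        push_cast at h2
        rw [div_self (by positivity)] at h2
        linarith [hxi.2]
      rw [test_cut_zero hθ _ hb (hhi i hb) (by linarith), mul_zero]
    · have hb : ¬ ((j i : ℕ) = 0) := by
        intro e
        rw [e] at h1
        apply h1
        simpa using hxi.1
      push Not at h1
      rw [test_cut_zero hθ _ hb (hlo i hb) (by linarith), zero_mul]

/-- product of one-dimensional cut-offs built from `Real.smoothTransition`; the constants come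
from compactness of the closed unit cube -/
theorem exists_testFn (J : ℕ) {θ : ℝ} (hθ : 0 < θ) :
    ∃ (Mc : ℝ) (h : (Fin d → Fin (2 ^ J)) → E d → ℝ) (g : (Fin d → Fin (2 ^ J)) → E d → E d),
      0 < Mc ∧ ∀ j, TestFn J θ Mc j (h j) (g j) := by
  choose M hM0 hlip hgrad htay using fun j : Fin d → Fin (2 ^ J) =>
    test_C2 (test_H_contDiff J θ j)
  have hle : ∀ j, M j ≤ ∑ k, M k + 1 := fun j => by
    have := Finset.single_le_sum (f := M) (fun k _ => hM0 k) (Finset.mem_univ j)
    linarith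
  have hpos : 0 < ∑ k, M k + 1 := by
    have := Finset.sum_nonneg (s := Finset.univ) (fun k _ => hM0 k)
    linarith
  refine ⟨∑ k, M k + 1, testH J θ, fun j => gradient (testH J θ j), hpos, fun j => ?_⟩
  refine ⟨(test_H_contDiff J θ j).continuous, fun x => ?_, fun x => ?_, fun a ha b hb => ?_,
    fun c hc => (hgrad j c hc).trans (hle j), fun a ha b hb c hc => ?_,
    fun x hx hfar => test_H_ind J hθ j x hx hfar⟩
  · exact Finset.prod_nonneg fun i _ => mul_nonneg (test_cut_nonneg _ _ _) (test_cut_nonneg _ _ _)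
  · exact Finset.prod_le_one
      (fun i _ => mul_nonneg (test_cut_nonneg _ _ _) (test_cut_nonneg _ _ _))
      (fun i _ => mul_le_one₀ (test_cut_le_one _ _ _) (test_cut_nonneg _ _ _)
        (test_cut_le_one _ _ _))
  · exact (hlip j a ha b hb).trans (mul_le_mul_of_nonneg_right (hle j) (norm_nonneg _))
  · refine (htay j a ha b hb c hc).trans ?_
    have := hle j
    gcongr

end Pool.Agent.Lib.MP_fe8b6f_pr
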