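import Pool.Agent.Lib.MP_fe8b6f_pr.LocC
import Pool.Agent.Lib.MP_fe8b6f_pr.Test
import Pool.Agent.Lib.MP_fe8b6f_pr.GBas

/-! Pointwise localisation lemma for `p ≥ 1`. Part 1. -/

open MeasureTheory ProbabilityTheory
open scoped NNReal ENNReal

noncomputable section

namespace Pool.Agent.Lib.MP_fe8b6f_pr

variable {d : ℕ}

theorem locpa_fold {L K0 : ℝ} {ξ x : E d} (hx : x ∈ cube (0 : E d) L) (hξ : ‖ξ‖ ≤ K0) (y : E d) :
    ‖x - (fold L (y + ξ) - ξ)‖ ≤ ‖x - y‖ + (Lay L K0).indicator (fun _ => 2 * K0) x := by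
  have hK0 : 0 ≤ K0 := (norm_nonneg _).trans hξ
  have h1 : ‖x - (fold L (y + ξ) - ξ)‖ ≤
      ‖fold L (x + ξ) - fold L (y + ξ)‖ + ‖x + ξ - fold L (x + ξ)‖ := by
    refine le_trans (le_of_eq ?_) (norm_add_le _ _)
    congr 1
    abel
  have h2 : ‖fold L (x + ξ) - fold L (y + ξ)‖ ≤ ‖x - y‖ := by
    refine (norm_fold_sub L _ _).trans (le_of_eq ?_)
    congr 1
    abel
  refine h1.trans (add_le_add h2 ?_)
  by_cases hl : x ∈ Lay L K0
  · rw [Set.indicator_of_mem hl]
    refine (norm_sub_fold_le (x + ξ) (cube_subset_ecube L le_rfl hx)).trans ?_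
    rw [add_sub_cancel_left]
    linarith
  · rw [Set.indicator_of_notMem hl]
    have h3 : x + ξ ∈ ecube L 0 := by
      intro i
      have h4 : ¬ (x i ≤ K0 ∨ L - K0 ≤ x i) := fun h =>
        hl ⟨cube_subset_ecube L hK0 hx, i, h⟩
      push Not at h4
      have h5 := abs_le.1 ((abs_coord_le_norm ξ i).trans hξ)
      simp only [PiLp.add_apply]
      constructor <;> linarith [h4.1, h4.2, h5.1, h5.2]
    rw [fold_eq_self h3]
    simp

theorem locpa_short {p : ℝ} (hp : 0 < p) {ε : ℝ} (hε : 0 < ε) :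
    ∃ C : ℝ≥0, ∀ (L K K0 : ℝ) (ξ : E d) (μ : Measure (E d)) (γ : Measure (E d × E d)),
      γ.map Prod.fst = μ → ‖ξ‖ ≤ K0 →
      Wp p ((γ.restrict {q : E d × E d | ‖q.1 - q.2‖ ≤ K ∧ q.1 ∈ cube 0 L}).map Prod.fst)
        (sh ξ (nu1 K L ξ γ)) ≤ ENNReal.ofReal (1 + ε) * CQ p L γ +
        C * (ENNReal.ofReal (K0 ^ p) * μ (cube 0 L ∩ Lay L K0)) := by
  obtain ⟨C, -, hC⟩ := rpow_add_le_eps hp hε
  refine ⟨C * (2 : ℝ≥0) ^ p, fun L K K0 ξ μ γ h1 hξ => ?_⟩
  have hK0 : 0 ≤ K0 := (norm_nonneg _).trans hξ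
  set S : Set (E d × E d) := {q : E d × E d | ‖q.1 - q.2‖ ≤ K ∧ q.1 ∈ cube 0 L} with hS
  have hSm : MeasurableSet S :=
    (measurableSet_le (measurable_fst.sub measurable_snd).norm measurable_const).inter
      (measurable_fst (measurableSet_cube 0 L))
  have hf : Measurable fun q : E d × E d => fold L (q.2 + ξ) :=
    (measurable_fold L).comp (measurable_snd.add_const ξ)
  have hsh : sh ξ (nu1 K L ξ γ) = (γ.restrict S).map fun q => fold L (q.2 + ξ) - ξ := by
    rw [sh, nu1, Measure.map_map (measurable_sub_const ξ) hf]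
    rfl
  have hLay : MeasurableSet (Lay L K0 : Set (E d)) :=
    measurableSet_Lay_fun L (f := fun x : E d => x) (t := fun _ => K0) measurable_id
      measurable_const
  have hA : MeasurableSet (cube (0 : E d) L ∩ Lay L K0) := (measurableSet_cube 0 L).inter hLay
  rw [hsh]
  refine (Wp_plan_le p _ measurable_fst (hf.sub_const ξ)).trans ?_
  set c : ℝ≥0∞ := ENNReal.ofReal (2 * K0) ^ p with hc
  have hpt : ∀ q ∈ S, ‖q.1 - (fold L (q.2 + ξ) - ξ)‖ₑ ^ p ≤
      ENNReal.ofReal (1 + ε) * ‖q.1 - q.2‖ₑ ^ p +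
        C * (Prod.fst ⁻¹' (cube (0 : E d) L ∩ Lay L K0)).indicator (fun _ => c) q := by
    intro q hq
    have h2 := locpa_fold hq.2 hξ q.2
    have h3 : ‖q.1 - (fold L (q.2 + ξ) - ξ)‖ₑ ≤ ‖q.1 - q.2‖ₑ +
        ENNReal.ofReal ((Lay L K0).indicator (fun _ => 2 * K0) q.1) := by
      rw [← ofReal_norm, ← ofReal_norm, ← ENNReal.ofReal_add (norm_nonneg _)
        (Set.indicator_nonneg (fun _ _ => by positivity) _)]
      exact ENNReal.ofReal_le_ofReal h2
    refine (ENNReal.rpow_le_rpow h3 hp.le).trans ((hC _ _).trans ?_)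
    gcongr
    by_cases hl : q.1 ∈ Lay L K0
    · rw [Set.indicator_of_mem hl, Set.indicator_of_mem (by exact ⟨hq.2, hl⟩)]
    · rw [Set.indicator_of_notMem hl]
      simp [hp]
  refine (setLIntegral_mono' hSm hpt).trans ?_
  rw [lintegral_add_left ((measurable_ecost p).const_mul _),
    lintegral_const_mul _ (measurable_ecost p),
    lintegral_const_mul _ (measurable_const.indicator (measurable_fst hA))]
  refine add_le_add ?_ ?_
  · gcongr
    exact lintegral_mono_set fun q hq => hq.2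
  · rw [lintegral_indicator_const (measurable_fst hA), ENNReal.coe_mul, mul_assoc, ← mul_assoc
      (((2 : ℝ≥0) ^ p : ℝ≥0) : ℝ≥0∞)]
    gcongr
    · rw [hc, ENNReal.ofReal_mul (by norm_num), ENNReal.mul_rpow_of_nonneg _ _ hp.le,
        ENNReal.ofReal_rpow_of_nonneg hK0 hp.le, ENNReal.coe_rpow_of_nonneg _ hp.le]
      simp
    · rw [← h1, Measure.map_apply measurable_fst hA]
      exact Measure.restrict_apply_le _ _

/-- reduction to the folded second marginal -/
theorem G_le_nu1 {p : ℝ} (hp : 1 ≤ p) {ε : ℝ} (hε : 0 < ε) :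
    ∃ C : ℝ≥0, ∀ (L K K0 : ℝ) (ξ : E d) (μ : Measure (E d)) (γ : Measure (E d × E d)),
      0 < L → γ.map Prod.fst = μ → γ.map Prod.snd = volume → μ (cube 0 L) ≠ ⊤ → ‖ξ‖ ≤ K0 →
      0 ≤ K → K + K0 ≤ L →
      G p L ξ μ ≤ ENNReal.ofReal (1 + ε) * CQ p L γ +
        C * (ENNReal.ofReal (K0 ^ p) * μ (cube 0 L ∩ Lay L K0) +
          ENNReal.ofReal (L ^ p) * FB K K0 L γ +
          Wp p ((nu1 K L ξ γ).restrict (cube 0 L)) (avg (nu1 K L ξ γ) 0 L 1)) := by
  have hp0 : 0 < p := by linarith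
  set e := min 1 (ε / 3) with he
  have he0 : 0 < e := by positivity
  have he1 : e ≤ 1 := min_le_left _ _
  have he2 : e ≤ ε / 3 := min_le_right _ _
  obtain ⟨C1, hC1⟩ := Wp_tri_eps (d := d) hp0 he0
  obtain ⟨C2, hC2⟩ := locpa_short (d := d) hp0 he0
  refine ⟨2 * C2 + ((√d + 1) ^ p).toNNReal + C1,
    fun L K K0 ξ μ γ hL h1 h2 hμ hξ hK hKL => ?_⟩
  have hK0 : 0 ≤ K0 := (norm_nonneg _).trans hξ
  set S : Set (E d × E d) := {q : E d × E d | ‖q.1 - q.2‖ ≤ K ∧ q.1 ∈ cube 0 L} with hS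
  set T : Set (E d × E d) := {q : E d × E d | K < ‖q.1 - q.2‖ ∧ q.1 ∈ cube 0 L} with hT
  have hQ := measurableSet_cube (0 : E d) L
  have hQ' := measurableSet_cube (-ξ) L
  have hSm : MeasurableSet S :=
    (measurableSet_le (measurable_fst.sub measurable_snd).norm measurable_const).inter
      (measurable_fst hQ)
  have hTm : MeasurableSet T :=
    (measurableSet_lt measurable_const (measurable_fst.sub measurable_snd).norm).inter
      (measurable_fst hQ)
  have hdisj : Disjoint S T := by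
    rw [Set.disjoint_left]
    intro q hq hq'
    exact absurd hq.1 (not_le.2 hq'.1)
  have hun : S ∪ T = Prod.fst ⁻¹' cube (0 : E d) L := by
    ext q
    constructor
    · rintro (h | h) <;> exact h.2
    · intro h
      rcases le_or_gt ‖q.1 - q.2‖ K with h' | h'
      · exact Or.inl ⟨h', h⟩
      · exact Or.inr ⟨h', h⟩
  have hsplit : μ.restrict (cube 0 L) =
      (γ.restrict S).map Prod.fst + (γ.restrict T).map Prod.fst := by
    rw [← h1, Measure.restrict_map measurable_fst hQ, ← hun, Measure.restrict_union hdisj hTm,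
      Measure.map_add _ _ measurable_fst]
  have hmass : μ (cube 0 L) = γ S + γ T := by
    rw [← h1, Measure.map_apply measurable_fst hQ, ← hun, measure_union hdisj hTm]
  have hSt : γ S ≠ ⊤ := ne_top_of_le_ne_top hμ (by rw [hmass]; exact le_self_add)
  have hTt : γ T ≠ ⊤ := ne_top_of_le_ne_top hμ (by rw [hmass]; exact le_add_self)
  have hV0 : volume (cube (0 : E d) L) ≠ 0 := by
    rw [volume_cube _ hL.le]; exact (ENNReal.ofReal_pos.2 (by positivity)).ne'
  have hVt : volume (cube (0 : E d) L) ≠ ⊤ := by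
    rw [volume_cube _ hL.le]; exact ENNReal.ofReal_ne_top
  have hVV : volume (cube (-ξ) L) = volume (cube (0 : E d) L) := by
    rw [volume_cube _ hL.le, volume_cube _ hL.le]
  have hf : Measurable fun q : E d × E d => fold L (q.2 + ξ) :=
    (measurable_fold L).comp (measurable_snd.add_const ξ)
  have hnc := nu1_compl_cube (K := K) h2 hξ hKL
  have hnu : nu1 K L ξ γ Set.univ = γ S := by
    rw [nu1, Measure.map_apply hf MeasurableSet.univ]
    simp [hS]
  have hnQ : nu1 K L ξ γ (cube 0 L) = γ S := by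
    rw [← hnu, ← measure_add_measure_compl hQ, hnc, add_zero]
  have hnr : (nu1 K L ξ γ).restrict (cube 0 L) = nu1 K L ξ γ :=
    Measure.restrict_eq_self_of_ae_mem hnc
  have hfin : IsFiniteMeasure (sh ξ (nu1 K L ξ γ)) := by
    constructor
    rw [sh_apply _ _ MeasurableSet.univ, Set.preimage_univ, hnu]
    exact hSt.lt_top
  have htar : sh ξ (avg (nu1 K L ξ γ) 0 L 1) =
      (γ S / volume (cube (0 : E d) L)) • volume.restrict (cube (-ξ) L) := by
    have h3 := sh_restrict_cube ξ (-ξ) L (volume : Measure (E d))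
    rw [add_neg_cancel, sh_volume] at h3
    rw [avg_one, sh_smul, h3, hnQ]
  have hshort : Wp p ((γ.restrict S).map Prod.fst)
      ((γ S / volume (cube (0 : E d) L)) • volume.restrict (cube (-ξ) L)) ≤
      ENNReal.ofReal (1 + ε) * CQ p L γ +
        2 * C2 * (ENNReal.ofReal (K0 ^ p) * μ (cube 0 L ∩ Lay L K0)) +
        C1 * Wp p ((nu1 K L ξ γ).restrict (cube 0 L)) (avg (nu1 K L ξ γ) 0 L 1) := by
    refine (hC1 _ _ _ hfin).trans ?_
    rw [← htar, Wp_sh hp0.le, hnr]
    gcongr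
    refine (mul_le_mul_right (hC2 L K K0 ξ μ γ h1 hξ) _).trans ?_
    rw [mul_add, ← mul_assoc, ← mul_assoc, ← ENNReal.ofReal_mul (by linarith)]
    gcongr
    · nlinarith
    · rw [← ENNReal.ofReal_ofNat]
      exact ENNReal.ofReal_le_ofReal (by linarith)
  have hlong : Wp p ((γ.restrict T).map Prod.fst)
      ((γ T / volume (cube (0 : E d) L)) • volume.restrict (cube (-ξ) L)) ≤
      ((√d + 1) ^ p).toNNReal * (ENNReal.ofReal (L ^ p) * FB K K0 L γ) := by
    have hm : (γ.restrict T).map Prod.fst Set.univ = γ T := by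
      rw [Measure.map_apply measurable_fst MeasurableSet.univ]
      simp
    have : IsFiniteMeasure ((γ.restrict T).map Prod.fst) := ⟨by rw [hm]; exact hTt.lt_top⟩
    refine (Wp_diam hp0.le (S := cube 0 L) (T := cube (-ξ) L) (D := (√d + 1) * L)
      ?_ ?_ ?_ ?_).trans ?_
    · rw [hm, Measure.smul_apply, Measure.restrict_apply MeasurableSet.univ, Set.univ_inter, hVV,
        smul_eq_mul, ENNReal.div_mul_cancel hV0 hVt]
    · rw [Measure.map_apply measurable_fst hQ.compl,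
        Measure.restrict_apply (measurable_fst hQ.compl)]
      have : Prod.fst ⁻¹' (cube (0 : E d) L)ᶜ ∩ T = ∅ := by
        ext q
        constructor
        · rintro ⟨h, h'⟩
          exact h h'.2
        · exact False.elim
      rw [this, measure_empty]
    · rw [Measure.smul_apply, Measure.restrict_apply hQ'.compl]
      simp
    · intro x hx y hy
      have hy' : y + ξ ∈ cube (0 : E d) L := by
        intro i
        have := hy i
        simp only [PiLp.add_apply, PiLp.neg_apply, PiLp.zero_apply] at this ⊢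
        constructor <;> linarith [this.1, this.2]
      have h3 := norm_sub_le_of_cube hL.le hx hy'
      have h4 : ‖x - y‖ ≤ ‖x - (y + ξ)‖ + ‖ξ‖ := by
        refine le_trans (le_of_eq ?_) (norm_add_le _ _)
        congr 1
        abel
      linarith
    · rw [hm, ENNReal.ofReal_rpow_of_nonneg (by positivity) hp0.le,
        Real.mul_rpow (by positivity) hL.le, ENNReal.ofReal_mul (by positivity), mul_assoc]
      gcongr
      · exact le_rfl
      · exact le_self_add
  rw [G, hsplit, hmass, ENNReal.add_div, add_smul]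
  refine (Wc_add_le _ _ _ _ _).trans ((add_le_add hshort hlong).trans ?_)
  push_cast
  set a := ENNReal.ofReal (K0 ^ p) * μ (cube 0 L ∩ Lay L K0)
  set b := ENNReal.ofReal (L ^ p) * FB K K0 L γ
  set c := Wp p ((nu1 K L ξ γ).restrict (cube 0 L)) (avg (nu1 K L ξ γ) 0 L 1)
  set r : ℝ≥0∞ := ((((√d + 1) ^ p).toNNReal : ℝ≥0) : ℝ≥0∞)
  rw [add_assoc, add_assoc]
  gcongr
  calc 2 * (C2 : ℝ≥0∞) * a + (C1 * c + r * b) ≤
      2 * C2 * (a + b + c) + (C1 * (a + b + c) + r * (a + b + c)) := by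
        gcongr
        · exact le_self_add.trans le_self_add
        · exact le_add_self
        · exact le_add_self.trans le_self_add
    _ = (2 * C2 + r + C1) * (a + b + c) := by ring

theorem locpa_cell {L η : ℝ} {ν : Measure (E d)} {m m' : ℕ} (hL : 0 < L) (hm : 0 < m)
    (hm' : 0 < m') (hν : ν (cube 0 L) ≠ ⊤)
    (h : ∀ j, |(ν (gc 0 L (m * m') j)).toReal - (L / (m * m' : ℕ)) ^ d| ≤ η)
    (j : Fin d → Fin m) :
    |(ν (gc 0 L m j)).toReal - (L / m) ^ d| ≤ (m' : ℝ) ^ d * η := by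
  obtain ⟨e, he⟩ := exists_grid_equiv (d := d) m m'
  have hs : 0 < L / m := by positivity
  have h1 : ν (gc 0 L m j) = ∑ j', ν (gc 0 L (m * m') (e (j, j'))) := by
    rw [gc, measure_cube_eq_sum ν _ hs hm']
    exact Finset.sum_congr rfl fun j' _ => by rw [(he 0 L j j').2]
  have h2 : ∀ j', ν (gc 0 L (m * m') (e (j, j'))) ≠ ⊤ := fun j' =>
    ne_top_of_le_ne_top hν (measure_mono (gc_subset 0 hL.le _ _))
  have h3 : (L / m) ^ d = ∑ _j' : Fin d → Fin m', (L / (m * m' : ℕ)) ^ d := by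
    rw [Finset.sum_const, Finset.card_univ, Fintype.card_fun, Fintype.card_fin, Fintype.card_fin,
      nsmul_eq_mul]
    push_cast
    rw [← mul_pow]
    congr 1
    field_simp
  rw [h1, ENNReal.toReal_sum fun j' _ => h2 j', h3, ← Finset.sum_sub_distrib]
  refine (Finset.abs_sum_le_sum_abs _ _).trans ((Finset.sum_le_sum fun j' _ => h _).trans ?_)
  rw [Finset.sum_const, Finset.card_univ, Fintype.card_fun, Fintype.card_fin, Fintype.card_fin,
    nsmul_eq_mul]
  push_cast
  exact le_rfl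

/-- coarse levels from the discrepancies at level `J` -/
theorem disc_coarse_le {p : ℝ} (hp : 1 ≤ p) (hd : 1 ≤ d) (J : ℕ) :
    ∃ C : ℝ, ∀ (L δ : ℝ) (ν : Measure (E d)) (k : ℕ), 0 < L → 0 ≤ δ → k ≤ J →
      ν (cube 0 L) ≠ ⊤ →
      (∀ j, |(ν (gc 0 L (2 ^ J) j)).toReal - (L / (2 ^ J : ℕ)) ^ d| ≤ δ * L ^ (d - 1)) →
      disc p ν 0 L (2 ^ k) ≤ ENNReal.ofReal (C * δ ^ p * L ^ d) := by
  have hp0 : 0 < p := by linarith
  set c : ℕ → ℝ := fun k => ((2 ^ k : ℕ) : ℝ) ^ d *
    ((((2 ^ k : ℕ) : ℝ))⁻¹ ^ (p + d - d * p) * (((2 ^ (J - k) : ℕ) : ℝ) ^ d) ^ p) with hc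
  have hc0 : ∀ k, 0 ≤ c k := fun k => by positivity
  refine ⟨∑ k ∈ Finset.range (J + 1), c k, fun L δ ν k hL hδ hk hν h => ?_⟩
  have hJ : 2 ^ J = 2 ^ k * 2 ^ (J - k) := by rw [← pow_add]; congr 1; omega
  rw [hJ] at h
  have h1 := locpa_cell hL (by positivity) (by positivity) hν h
  have hck : c k ≤ ∑ k ∈ Finset.range (J + 1), c k :=
    Finset.single_le_sum (fun k _ => hc0 k) (Finset.mem_range.2 (by omega))
  set m : ℝ := ((2 ^ k : ℕ) : ℝ) with hm
  set m' : ℝ := ((2 ^ (J - k) : ℕ) : ℝ) with hm'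
  have hm0 : 0 < m := by positivity
  have hm1 : 0 < m' := by positivity
  have hpow : L ^ (p + d - d * p) * (L ^ (d - 1)) ^ p = L ^ d := by
    rw [← Real.rpow_natCast L (d - 1), ← Real.rpow_mul hL.le, ← Real.rpow_add hL,
      ← Real.rpow_natCast L d]
    congr 1
    rw [Nat.cast_sub hd]
    push_cast
    ring
  have h2 : ∀ j : Fin d → Fin (2 ^ k), ENNReal.ofReal ((L / m) ^ (p + d - d * p) *
      |(ν (gc 0 L (2 ^ k) j)).toReal - (L / m) ^ d| ^ p) ≤
      ENNReal.ofReal (m⁻¹ ^ (p + d - d * p) * (m' ^ d) ^ p * (δ ^ p * L ^ d)) := by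
    intro j
    refine ENNReal.ofReal_le_ofReal ?_
    calc _ ≤ (L / m) ^ (p + d - d * p) * (m' ^ d * (δ * L ^ (d - 1))) ^ p := by
          gcongr
          exact h1 j
      _ = _ := by
          rw [div_eq_mul_inv, Real.mul_rpow hL.le (by positivity),
            Real.mul_rpow (by positivity) (by positivity),
            Real.mul_rpow hδ (by positivity), ← hpow]
          ring
  refine (Finset.sum_le_sum fun j _ => h2 j).trans ?_
  rw [Finset.sum_const, Finset.card_univ, Fintype.card_fun, Fintype.card_fin, Fintype.card_fin,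
    nsmul_eq_mul, ← ENNReal.ofReal_natCast, ← ENNReal.ofReal_mul (by positivity)]
  refine ENNReal.ofReal_le_ofReal ?_
  rw [Nat.cast_pow, ← hm, ← mul_assoc, mul_assoc (∑ k ∈ Finset.range (J + 1), c k)]
  gcongr

end Pool.Agent.Lib.MP_fe8b6f_pr
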