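import Pool.Agent.Lib.MP_fe8b6f_pr.ConcA
import Pool.Agent.Lib.MP_fe8b6f_pr.Loc0

/-! Abstract lower bound for `p < 1`. -/

open MeasureTheory ProbabilityTheory
open scoped NNReal ENNReal

noncomputable section

namespace Pool.Agent.Lib.MP_fe8b6f_pr

variable {d : ℕ}

theorem main0_meas_dev (L : ℝ) :
    Measurable fun μ : Measure (E d) => ENNReal.ofReal |(μ (cube 0 L)).toReal - L ^ d| :=
  ENNReal.measurable_ofReal.comp
    (((Measure.measurable_coe (measurableSet_cube 0 L)).ennreal_toReal.sub measurable_const).abs)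

theorem measurable_F0 {p L : ℝ} (hp : 0 < p) (hL : 0 < L) :
    Measurable (F0 p L : Measure (E d) → ℝ≥0∞) := by
  unfold F0
  exact ((measurable_Gf hp hL 0).div_const _).sub
    ((measurable_const.mul (main0_meas_dev L)).div_const _)

theorem main0_swap {X : Type} [MeasurableSpace X] (τ : Measure X) [SFinite τ] {Λ : ℝ}
    (hΛ : 0 < Λ) {Φ : E d × X → ℝ≥0∞} (hΦ : Measurable Φ) :
    avz Λ (fun z => ∫⁻ q, Φ (z, q) ∂τ) = ∫⁻ q, avz Λ (fun z => Φ (z, q)) ∂τ := by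
  unfold avz
  rw [lintegral_lintegral_swap (f := fun z q => Φ (z, q)) hΦ.aemeasurable]
  simp only [div_eq_mul_inv]
  rw [lintegral_mul_const']
  exact ENNReal.inv_ne_top.2 (ENNReal.ofReal_pos.2 (pow_pos hΛ d)).ne'

theorem main0_meas_avz {X : Type} [MeasurableSpace X] (Λ : ℝ)
    {Φ : E d × X → ℝ≥0∞} (hΦ : Measurable Φ) :
    Measurable fun q => avz Λ (fun z => Φ (z, q)) := by
  unfold avz
  exact (hΦ.lintegral_prod_left' (μ := volume.restrict (cube 0 Λ))).div_const _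

theorem main0_cap {X : Type} [MeasurableSpace X] {P : ℝ → Measure (Measure (E d))}
    {T : ℝ → Measure X} {m : ℝ → X → Measure (E d)} (hT : TFam P T m) {L : ℝ} (hL : 0 < L)
    {F : Measure (E d) → ℝ≥0∞} (hF : Measurable F) (N : ℕ) {ε : ℝ≥0∞} (hε : 0 < ε) :
    ∀ᶠ Λ in Filter.atTop, ∀ z : E d,
      ∫⁻ μ, min (F μ) N ∂(P L) ≤ ∫⁻ q, F (loc z L (m Λ q)) ∂(T Λ) + ε := by
  have hN0 : ((N : ℝ≥0∞) + 1) ≠ 0 := by simp
  have hNt : ((N : ℝ≥0∞) + 1) ≠ ⊤ := by simp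
  obtain ⟨Λ0, h0⟩ := hT.lim L hL (ε / (N + 1)) (ENNReal.div_pos hε.ne' hNt)
  filter_upwards [Filter.eventually_ge_atTop Λ0] with Λ hΛ z
  have h1 := h0 Λ hΛ z (fun μ => min (F μ) N / (N + 1))
    ((hF.min measurable_const).div_const _) (fun μ => by
      rw [ENNReal.div_le_iff hN0 hNt, one_mul]
      exact (min_le_right _ _).trans le_self_add)
  have hi : ((N : ℝ≥0∞) + 1)⁻¹ ≠ ⊤ := ENNReal.inv_ne_top.2 hN0
  simp only [div_eq_mul_inv] at h1
  rw [lintegral_mul_const' _ _ hi, lintegral_mul_const' _ _ hi, ← add_mul,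
    ENNReal.mul_le_mul_iff_left (ENNReal.inv_ne_zero.2 hNt) hi] at h1
  refine h1.trans (add_le_add_left (lintegral_mono fun q => min_le_left _ _) _)

theorem main0_sum {X : Type} [MeasurableSpace X] {P : ℝ → Measure (Measure (E d))}
    {T : ℝ → Measure X} {m : ℝ → X → Measure (E d)} (hT : TFam P T m) {p : ℝ}
    (hp : 0 < p) (hp1 : p < 1) :
    ∃ C : ℝ≥0, ∀ (L0 : ℝ) (M : ℕ), 0 < L0 →
      ∑ i ∈ Finset.range M, ∫⁻ μ, F0 p (L0 * 2 ^ i) μ ∂(P (L0 * 2 ^ i)) ≤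
        ((M : ℝ≥0∞) + 1 + C) * Filter.liminf (tL p T m) Filter.atTop := by
  obtain ⟨C, hC⟩ := loc0 (d := d) hp hp1
  refine ⟨C, fun L0 M hL0 => ?_⟩
  have hLi : ∀ i : ℕ, 0 < L0 * 2 ^ i := fun i => by positivity
  set K : ℝ≥0∞ := (M : ℝ≥0∞) + 1 + C with hK
  have hK0 : K ≠ 0 := by simp [hK]
  have hKt : K ≠ ⊤ := by simp [hK]
  have hN : ∀ N : ℕ, ∑ i ∈ Finset.range M, ∫⁻ μ, min (F0 p (L0 * 2 ^ i) μ) N ∂(P (L0 * 2 ^ i)) ≤
      K * Filter.liminf (tL p T m) Filter.atTop := by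
    intro N
    refine ENNReal.le_of_forall_pos_le_add fun η hη _ => ?_
    have hM0 : ((M : ℝ≥0∞) + 1) ≠ 0 := by simp
    have hMt : ((M : ℝ≥0∞) + 1) ≠ ⊤ := by simp
    have hε : (0 : ℝ≥0∞) < η / (M + 1) := ENNReal.div_pos (by simpa using hη.ne') hMt
    have hev : ∀ᶠ Λ in Filter.atTop, ∀ i ∈ Finset.range M, ∀ z : E d,
        ∫⁻ μ, min (F0 p (L0 * 2 ^ i) μ) N ∂(P (L0 * 2 ^ i)) ≤
          ∫⁻ q, F0 p (L0 * 2 ^ i) (loc z (L0 * 2 ^ i) (m Λ q)) ∂(T Λ) + η / (M + 1) :=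
      (Filter.eventually_all_finset _).2 fun i _ =>
        main0_cap hT (hLi i) (measurable_F0 hp (hLi i)) N hε
    set S := ∑ i ∈ Finset.range M, ∫⁻ μ, min (F0 p (L0 * 2 ^ i) μ) N ∂(P (L0 * 2 ^ i)) with hS
    have hev2 : ∀ᶠ Λ in Filter.atTop, (S - η) / K ≤ tL p T m Λ := by
      filter_upwards [hev, Filter.eventually_gt_atTop 0] with Λ h1 hΛ
      have := hT.prob Λ hΛ
      have hm : ∀ i : ℕ, Measurable fun zq : E d × X =>
          F0 p (L0 * 2 ^ i) (loc zq.1 (L0 * 2 ^ i) (m Λ zq.2)) := fun i =>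
        (measurable_F0 hp (hLi i)).comp (hT.meas Λ _ hΛ)
      rw [ENNReal.div_le_iff hK0 hKt, tsub_le_iff_right]
      calc S ≤ ∑ i ∈ Finset.range M,
            (∫⁻ q, avz Λ (fun z => F0 p (L0 * 2 ^ i) (loc z (L0 * 2 ^ i) (m Λ q))) ∂(T Λ) +
              η / (M + 1)) := by
            refine Finset.sum_le_sum fun i hi => ?_
            rw [← main0_swap (T Λ) hΛ (hm i), ← avz_const (d := d) hΛ (η / (M + 1) : ℝ≥0∞),
              ← avz_add Λ (hm i).lintegral_prod_right',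
              ← avz_const (d := d) hΛ (∫⁻ μ, min (F0 p (L0 * 2 ^ i) μ) N ∂(P (L0 * 2 ^ i)))]
            exact avz_mono Λ fun z => h1 i hi z
        _ = ∫⁻ q, ∑ i ∈ Finset.range M,
              avz Λ (fun z => F0 p (L0 * 2 ^ i) (loc z (L0 * 2 ^ i) (m Λ q))) ∂(T Λ) +
              M * (η / (M + 1)) := by
            rw [Finset.sum_add_distrib, Finset.sum_const, Finset.card_range, nsmul_eq_mul,
              lintegral_finsetSum _ fun i _ => main0_meas_avz Λ (hm i)]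
        _ ≤ ∫⁻ q, K * (PW p Λ (m Λ q) / ENNReal.ofReal (Λ ^ d)) ∂(T Λ) + η := by
            refine add_le_add (lintegral_mono fun q => hC L0 Λ M (m Λ q) hL0 hΛ) ?_
            calc (M : ℝ≥0∞) * (η / (M + 1)) ≤ (M + 1) * (η / (M + 1)) :=
                  mul_le_mul_left le_self_add _
              _ = η := ENNReal.mul_div_cancel hM0 hMt
        _ = tL p T m Λ * K + η := by
            unfold tL
            simp only [div_eq_mul_inv]
            rw [lintegral_const_mul' _ _ hKt, lintegral_mul_const' _ _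
              (ENNReal.inv_ne_top.2 (ENNReal.ofReal_pos.2 (pow_pos hΛ d)).ne'), mul_comm K]
    have h3 : (S - η) / K ≤ Filter.liminf (tL p T m) Filter.atTop :=
      Filter.le_liminf_of_le (by isBoundedDefault) hev2
    rw [ENNReal.div_le_iff hK0 hKt, tsub_le_iff_right, mul_comm] at h3
    exact h3
  have hsup : ∀ i : ℕ, ∫⁻ μ, F0 p (L0 * 2 ^ i) μ ∂(P (L0 * 2 ^ i)) =
      ⨆ N : ℕ, ∫⁻ μ, min (F0 p (L0 * 2 ^ i) μ) N ∂(P (L0 * 2 ^ i)) := by
    intro i
    rw [← lintegral_iSup (fun N => (measurable_F0 hp (hLi i)).min measurable_const)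
      (fun N N' h μ => min_le_min_left _ (by exact_mod_cast h))]
    refine lintegral_congr fun μ => ?_
    rw [← inf_iSup_eq, ENNReal.iSup_natCast]
    simp
  simp only [hsup]
  rw [ENNReal.finsetSum_iSup_of_monotone
    (f := fun (i N : ℕ) => ∫⁻ μ, min (F0 p (L0 * 2 ^ i) μ) N ∂(P (L0 * 2 ^ i)))
    fun i N N' h => lintegral_mono fun μ => min_le_min_left _ (by exact_mod_cast h)]
  exact iSup_le hN

theorem main0_err {P : ℝ → Measure (Measure (E d))} (hP : Fam P) {p : ℝ} (hp : 0 < p)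
    (hpd : p < ((d : ℝ) - 2) / 2) {η : ℝ≥0∞} (hη : 0 < η) :
    ∀ᶠ L in Filter.atTop, cL p P 0 L ≤ ∫⁻ μ, F0 p L μ ∂(P L) + η := by
  obtain ⟨C, hC⟩ := hP.mass_dev
  have ht : Filter.Tendsto (fun L : ℝ => ENNReal.ofReal (√d ^ p * C * L ^ (-(((d : ℝ) - 2) / 2 - p))))
      Filter.atTop (nhds 0) := by
    rw [← ENNReal.ofReal_zero]
    refine ENNReal.tendsto_ofReal ?_
    have := (tendsto_rpow_neg_atTop (y := ((d : ℝ) - 2) / 2 - p) (by linarith)).const_mul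
      (√d ^ p * C)
    simpa using this
  filter_upwards [ht.eventually (ge_mem_nhds hη), Filter.eventually_ge_atTop 1] with L h1 hL1
  have hL : 0 < L := by linarith
  have hLd : 0 < L ^ d := pow_pos hL d
  have hi : (ENNReal.ofReal (L ^ d))⁻¹ ≠ ⊤ :=
    ENNReal.inv_ne_top.2 (ENNReal.ofReal_pos.2 hLd).ne'
  have hc : ENNReal.ofReal (√d * L) ^ p ≠ ⊤ :=
    ENNReal.rpow_ne_top_of_nonneg hp.le ENNReal.ofReal_ne_top
  calc cL p P 0 L = ∫⁻ μ, Gf p L 0 μ / ENNReal.ofReal (L ^ d) ∂(P L) := by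
        unfold cL
        simp only [div_eq_mul_inv]
        rw [lintegral_mul_const' _ _ hi]
    _ ≤ ∫⁻ μ, F0 p L μ + ENNReal.ofReal (√d * L) ^ p *
          ENNReal.ofReal |(μ (cube 0 L)).toReal - L ^ d| / ENNReal.ofReal (L ^ d) ∂(P L) :=
        lintegral_mono fun μ => le_tsub_add
    _ = ∫⁻ μ, F0 p L μ ∂(P L) + ENNReal.ofReal (√d * L) ^ p *
          (∫⁻ μ, ENNReal.ofReal |(μ (cube 0 L)).toReal - L ^ d| ∂(P L)) /
            ENNReal.ofReal (L ^ d) := by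
        rw [lintegral_add_left (measurable_F0 hp hL)]
        simp only [div_eq_mul_inv]
        rw [lintegral_mul_const' _ _ hi, lintegral_const_mul' _ _ hc]
    _ ≤ ∫⁻ μ, F0 p L μ ∂(P L) + η := by
        refine add_le_add_right (le_trans ?_ h1) _
        refine (ENNReal.div_le_div_right (mul_le_mul_right (hC L hL1) _) _).trans (le_of_eq ?_)
        rw [ENNReal.ofReal_rpow_of_nonneg (by positivity) hp.le,
          ← ENNReal.ofReal_mul (by positivity), ← ENNReal.ofReal_div_of_pos hLd]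
        congr 1
        rw [Real.mul_rpow (by positivity) hL.le, div_eq_iff hLd.ne', ← Real.rpow_natCast L d]
        have e1 : L ^ p * L ^ (((d : ℝ) + 2) / 2) =
            L ^ (-(((d : ℝ) - 2) / 2 - p)) * L ^ (d : ℝ) := by
          rw [← Real.rpow_add hL, ← Real.rpow_add hL]
          congr 1
          ring
        calc √d ^ p * L ^ p * (C * L ^ (((d : ℝ) + 2) / 2))
            = √d ^ p * C * (L ^ p * L ^ (((d : ℝ) + 2) / 2)) := by ring
          _ = _ := by rw [e1]; ring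

theorem main0 {X : Type} [MeasurableSpace X] {P : ℝ → Measure (Measure (E d))}
    {T : ℝ → Measure X} {m : ℝ → X → Measure (E d)} (hP : Fam P) (hT : TFam P T m) {p : ℝ}
    (hp : 0 < p) (hp1 : p < 1) (hpd : p < ((d : ℝ) - 2) / 2) :
    cInf p P ≤ Filter.liminf (tL p T m) Filter.atTop := by
  obtain ⟨C, hC⟩ := main0_sum hT hp hp1
  set l := Filter.liminf (tL p T m) Filter.atTop with hl
  refine le_of_forall_lt_imp_le_of_dense fun b hb => ?_
  refine ENNReal.le_of_forall_pos_le_add fun η hη hlt => ?_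
  have hη2 : (0 : ℝ≥0∞) < η / 2 := ENNReal.div_pos (by simpa using hη.ne') (by simp)
  have h1 : ∀ᶠ L in Filter.atTop, b < cL p P 0 L := Filter.eventually_lt_of_lt_liminf hb
  obtain ⟨L1, hL1⟩ := Filter.eventually_atTop.1 (h1.and (main0_err hP hp hpd hη2))
  set L0 := max L1 1 with hL0
  have hL0p : 0 < L0 := lt_of_lt_of_le one_pos (le_max_right _ _)
  have hLi : ∀ i : ℕ, L1 ≤ L0 * 2 ^ i := fun i =>
    (le_max_left L1 1).trans (le_mul_of_one_le_right hL0p.le (one_le_pow₀ one_le_two))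
  have hfin : (1 + (C : ℝ≥0∞)) * l / (η / 2) ≠ ⊤ :=
    ENNReal.div_ne_top (ENNReal.mul_ne_top (by simp) hlt.ne) hη2.ne'
  obtain ⟨M, hM⟩ := ENNReal.exists_nat_gt hfin
  have hM0 : (M : ℝ≥0∞) ≠ 0 := (lt_of_le_of_lt zero_le hM).ne'
  have hη2t : (η : ℝ≥0∞) / 2 ≠ ⊤ := ENNReal.div_ne_top (by simp) (by simp)
  have hM' : (1 + (C : ℝ≥0∞)) * l ≤ M * (η / 2) :=
    (ENNReal.div_le_iff hη2.ne' hη2t).1 hM.le
  have h2 : (M : ℝ≥0∞) * b ≤ M * (l + η) := by
    calc (M : ℝ≥0∞) * b = ∑ _i ∈ Finset.range M, b := by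
          rw [Finset.sum_const, Finset.card_range, nsmul_eq_mul]
      _ ≤ ∑ i ∈ Finset.range M,
            (∫⁻ μ, F0 p (L0 * 2 ^ i) μ ∂(P (L0 * 2 ^ i)) + η / 2) :=
          Finset.sum_le_sum fun i _ => (hL1 _ (hLi i)).1.le.trans (hL1 _ (hLi i)).2
      _ = ∑ i ∈ Finset.range M, ∫⁻ μ, F0 p (L0 * 2 ^ i) μ ∂(P (L0 * 2 ^ i)) + M * (η / 2) := by
          rw [Finset.sum_add_distrib, Finset.sum_const, Finset.card_range, nsmul_eq_mul]
      _ ≤ ((M : ℝ≥0∞) + 1 + C) * l + M * (η / 2) := add_le_add_left (hC L0 M hL0p) _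
      _ = M * l + (1 + C) * l + M * (η / 2) := by ring
      _ ≤ M * l + M * (η / 2) + M * (η / 2) := by gcongr
      _ = M * (l + (η / 2 + η / 2)) := by ring
      _ = M * (l + η) := by rw [ENNReal.add_halves]
  exact (ENNReal.mul_le_mul_iff_right hM0 (by simp)).1 h2

end Pool.Agent.Lib.MP_fe8b6f_pr
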