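import Pool.Agent.Lib.MP_fe8b6f_pr.PLa

/-! Decorrelation of the interlacement. -/

open MeasureTheory ProbabilityTheory
open scoped NNReal ENNReal

noncomputable section

namespace Pool.Agent.Lib.MP_fe8b6f_pr

variable {d : ℕ}

/-- Lebesgue started paths rarely visit two distant cubes -/
theorem IsWiener.two_cubes {W : Measure (Path d)} (hW : IsWiener W) (hd : 3 ≤ d) {s : ℝ}
    (hs : 0 < s) {ε : ℝ≥0∞} (hε : 0 < ε) :
    ∃ r : ℝ, ∀ a b : E d, r ≤ ‖a - b‖ →
      ((volume : Measure (E d)).prod W)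
        (hitS (cube a s) (Set.Icc 0 1) ∩ hitS (cube b s) (Set.Ici 0)) ≤ ε := by
  have := hW.isProbabilityMeasure
  obtain ⟨C, hC1, -, hC3⟩ := hW.hit_bounds hd
  set μ : Measure (E d × Path d) := (volume : Measure (E d)).prod W with hμ
  set D : ℝ := √d * s with hD
  have hD0 : 0 ≤ D := by positivity
  have hε2 : 0 < ε / 2 := ENNReal.half_pos hε.ne'
  set B : ℕ → Set (E d × Path d) := fun n =>
    hitS (Metric.closedBall 0 D) (Set.Icc 0 1) ∩ {q | (n : ℝ) ≤ ‖q.1‖} with hB
  have hBm : ∀ n, MeasurableSet (B n) := fun n =>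
    (isClosed_hitS_Icc Metric.isClosed_closedBall 0 1).measurableSet.inter
      (measurableSet_le measurable_const measurable_fst.norm)
  have hBa : Antitone B := by
    intro m n hmn q hq
    refine ⟨hq.1, ?_⟩
    have h1 : (m : ℝ) ≤ n := by exact_mod_cast hmn
    exact h1.trans hq.2
  have hB0 : μ (B 0) ≠ ⊤ := by
    refine ne_top_of_le_ne_top ?_ ((measure_mono Set.inter_subset_left).trans
      (hC1 (Metric.closedBall 0 D) 0 1 le_rfl zero_le_one))
    exact ENNReal.mul_ne_top (ENNReal.mul_ne_top ENNReal.coe_ne_top ENNReal.ofReal_ne_top)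
      Metric.isBounded_closedBall.thickening.measure_lt_top.ne
  have hlim := tendsto_measure_iInter_atTop (μ := μ) (fun n => (hBm n).nullMeasurableSet) hBa
    ⟨0, hB0⟩
  have hemp : ⋂ n, B n = ∅ := by
    rw [Set.eq_empty_iff_forall_notMem]
    intro q hq
    obtain ⟨n, hn⟩ := exists_nat_gt ‖q.1‖
    exact absurd (Set.mem_iInter.1 hq n).2 (not_le.2 hn)
  rw [hemp, measure_empty] at hlim
  obtain ⟨n, hn⟩ := (hlim.eventually (ge_mem_nhds hε2)).exists
  set M : ℝ≥0∞ := C * volume (Metric.ball (0 : E d) (1 + D)) * volume (Metric.ball (0 : E d) n)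
    with hM
  have hMt : M ≠ ⊤ := ENNReal.mul_ne_top (ENNReal.mul_ne_top ENNReal.coe_ne_top
    measure_ball_lt_top.ne) measure_ball_lt_top.ne
  have hd' : (0 : ℝ) < d - 2 := by
    have : (3 : ℝ) ≤ d := by exact_mod_cast hd
    linarith
  have hlim2 : Filter.Tendsto (fun ρ : ℝ => M * ENNReal.ofReal (ρ ^ (2 - (d : ℝ)))) Filter.atTop
      (nhds 0) := by
    have h1 := ENNReal.tendsto_ofReal (tendsto_rpow_neg_atTop hd')
    rw [ENNReal.ofReal_zero, neg_sub] at h1
    have h2 := ENNReal.Tendsto.const_mul h1 (Or.inr hMt)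
    rwa [mul_zero] at h2
  obtain ⟨ρ, hρ1, hρ0⟩ :=
    ((hlim2.eventually (ge_mem_nhds hε2)).and (Filter.eventually_gt_atTop 0)).exists
  refine ⟨ρ + 1 + D + n, fun a b hab => ?_⟩
  set N : Set (E d × Path d) := (Metric.ball (0 : E d) n ×ˢ Set.univ) ∩
    hitS (Metric.closedBall (b - a) D) (Set.Ici 0) with hN
  have hNm : MeasurableSet N := (measurableSet_ball.prod MeasurableSet.univ).inter
    (measurableSet_hitS_Ici Metric.isClosed_closedBall 0)
  have hN2 : μ N ≤ ε / 2 := by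
    rw [hμ, Measure.prod_apply hNm]
    calc ∫⁻ x, W (Prod.mk x ⁻¹' N)
        ≤ ∫⁻ x, (Metric.ball (0 : E d) n).indicator (fun _ => C *
          ENNReal.ofReal (ρ ^ (2 - (d : ℝ))) * volume (Metric.ball (0 : E d) (1 + D))) x := by
          refine lintegral_mono fun x => ?_
          by_cases hx : x ∈ Metric.ball (0 : E d) n
          · rw [Set.indicator_of_mem hx]
            have h1 := hC3 (Metric.closedBall (b - a) D) x ρ hρ0 (fun y hy => by
              have h2 : ‖y - (b - a)‖ ≤ D := mem_closedBall_iff_norm.1 hy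
              have h3 : ‖x‖ < n := mem_ball_zero_iff.1 hx
              have h4 : ‖a - b‖ ≤ ‖y - (b - a)‖ + ‖y - x‖ + ‖x‖ := by
                have e : a - b = (y - (b - a)) - (y - x) - x := by abel
                rw [e]
                exact (norm_sub_le _ _).trans (by gcongr; exact norm_sub_le _ _)
              linarith)
            rw [thickening_closedBall one_pos hD0, Measure.addHaar_ball_center] at h1
            exact (measure_mono fun w hw => hw.2).trans h1
          · have : Prod.mk x ⁻¹' N = ∅ := by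
              rw [Set.eq_empty_iff_forall_notMem]
              intro w hw
              exact hx hw.1.1
            rw [this, measure_empty]
            exact zero_le
      _ = M * ENNReal.ofReal (ρ ^ (2 - (d : ℝ))) := by
          rw [lintegral_indicator_const measurableSet_ball, hM]
          ring
      _ ≤ ε / 2 := hρ1
  have hΨ : Measurable (Prod.map (fun x : E d => x - a) (id : Path d → Path d)) :=
    (measurable_id.sub_const a).prodMap measurable_id
  have hΨμ : μ.map (Prod.map (fun x : E d => x - a) (id : Path d → Path d)) = μ := by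
    rw [hμ, ← Measure.map_prod_map _ _ (measurable_id'.sub_const a) measurable_id,
      map_sub_right_eq_self, Measure.map_id]
  have hcube : ∀ c y : E d, y ∈ cube c s → ‖y - c‖ ≤ D := fun c y hy =>
    norm_sub_le_of_cube hs.le hy fun i => ⟨le_rfl, by linarith⟩
  calc μ (hitS (cube a s) (Set.Icc 0 1) ∩ hitS (cube b s) (Set.Ici 0))
      ≤ μ ((Prod.map (fun x : E d => x - a) (id : Path d → Path d)) ⁻¹' (B n ∪ N)) := by
        refine measure_mono ?_
        rintro q ⟨⟨t1, ht1, h1⟩, ⟨t2, ht2, h2⟩⟩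
        by_cases hq : (n : ℝ) ≤ ‖q.1 - a‖
        · refine Or.inl ⟨⟨t1, ht1, ?_⟩, hq⟩
          rw [mem_closedBall_zero_iff]
          have e : q.1 - a + q.2 t1.toNNReal = q.1 + q.2 t1.toNNReal - a := by abel
          exact (congrArg norm e).le.trans (hcube _ _ h1)
        · refine Or.inr ⟨⟨mem_ball_zero_iff.2 (not_le.1 hq), Set.mem_univ _⟩, ⟨t2, ht2, ?_⟩⟩
          rw [mem_closedBall_iff_norm]
          have e : q.1 - a + q.2 t2.toNNReal - (b - a) = q.1 + q.2 t2.toNNReal - b := by abel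
          exact (congrArg norm e).le.trans (hcube _ _ h2)
    _ ≤ μ (B n ∪ N) := by
        refine (Measure.le_map_apply hΨ.aemeasurable _).trans ?_
        rw [hΨμ]
    _ ≤ ε / 2 + ε / 2 := (measure_union_le _ _).trans (add_le_add hn hN2)
    _ = ε := ENNReal.add_halves ε

theorem mix_shift (q : E d × Path d) (j : ℕ) {t : ℝ} (h : (j : ℝ) ≤ t) :
    q.1 + q.2 j + shift j q.2 (t - j).toNNReal = q.1 + q.2 t.toNNReal := by
  have h3 : (j : ℝ≥0) + (t - j).toNNReal = t.toNNReal := by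
    apply NNReal.eq
    have h4 : (0 : ℝ) ≤ t := (Nat.cast_nonneg j).trans h
    rw [NNReal.coe_add, Real.coe_toNNReal _ (sub_nonneg.2 h), Real.coe_toNNReal _ h4]
    simp
  rw [shift_apply, h3]
  abel

theorem IsWiener.two_cubes_time {W : Measure (Path d)} (hW : IsWiener W) (hd : 3 ≤ d) {s : ℝ}
    (hs : 0 < s) {ε : ℝ≥0∞} (hε : 0 < ε) :
    ∃ r : ℝ, ∀ (a b : E d) (τ : ℝ), r ≤ ‖a - b‖ → 1 ≤ τ →
      ((volume : Measure (E d)).prod W)
        (hitS (cube a s) (Set.Ico 0 τ) ∩ hitS (cube b s) (Set.Ico 0 τ)) ≤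
        ε * ENNReal.ofReal τ := by
  have hε4 : 0 < ε / 4 := ENNReal.div_pos hε.ne' ENNReal.ofNat_ne_top
  obtain ⟨r, hr⟩ := hW.two_cubes hd hs hε4
  refine ⟨r, fun a b τ hab hτ => ?_⟩
  set μ : Measure (E d × Path d) := (volume : Measure (E d)).prod W with hμ
  set Φ : ℕ → E d × Path d → E d × Path d := fun j q => (q.1 + q.2 j, shift j q.2) with hΦ
  have hΦm : ∀ j, Measurable (Φ j) := fun j =>
    (measurable_fst.add ((measurable_ev _).comp measurable_snd)).prodMk
      ((continuous_shift.comp (continuous_const.prodMk continuous_id)).measurable.comp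
        measurable_snd)
  have hΦle : ∀ j A, μ (Φ j ⁻¹' A) ≤ μ A := by
    intro j A
    refine (Measure.le_map_apply (hΦm j).aemeasurable _).trans ?_
    rw [hμ, hΦ, hW.map_volume_shift]
  have key : ∀ (a b : E d) (q : E d × Path d) (t1 t2 : ℝ), 0 ≤ t1 → t1 ≤ t2 →
      q.1 + q.2 t1.toNNReal ∈ cube a s → q.1 + q.2 t2.toNNReal ∈ cube b s →
      Φ ⌊t1⌋₊ q ∈ hitS (cube a s) (Set.Icc 0 1) ∩ hitS (cube b s) (Set.Ici 0) := by
    intro a b q t1 t2 h0 h12 h1 h2
    have h3 := Nat.floor_le h0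
    have h4 := Nat.lt_floor_add_one t1
    refine ⟨⟨t1 - ⌊t1⌋₊, ⟨by linarith, by linarith⟩, ?_⟩,
      ⟨t2 - ⌊t1⌋₊, Set.mem_Ici.2 (by linarith), ?_⟩⟩
    · rw [mix_shift q _ h3]; exact h1
    · rw [mix_shift q _ (h3.trans h12)]; exact h2
  calc μ (hitS (cube a s) (Set.Ico 0 τ) ∩ hitS (cube b s) (Set.Ico 0 τ))
      ≤ μ (⋃ j ∈ Finset.range ⌈τ⌉₊,
          (Φ j ⁻¹' (hitS (cube a s) (Set.Icc 0 1) ∩ hitS (cube b s) (Set.Ici 0)) ∪
          Φ j ⁻¹' (hitS (cube b s) (Set.Icc 0 1) ∩ hitS (cube a s) (Set.Ici 0)))) := by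
        refine measure_mono ?_
        rintro q ⟨⟨t1, ht1, h1⟩, ⟨t2, ht2, h2⟩⟩
        simp only [Set.mem_iUnion, Finset.mem_range]
        rcases le_total t1 t2 with h | h
        · exact ⟨⌊t1⌋₊, Nat.lt_ceil.2 ((Nat.floor_le ht1.1).trans_lt ht1.2),
            Or.inl (key a b q t1 t2 ht1.1 h h1 h2)⟩
        · exact ⟨⌊t2⌋₊, Nat.lt_ceil.2 ((Nat.floor_le ht2.1).trans_lt ht2.2),
            Or.inr (key b a q t2 t1 ht2.1 h h2 h1)⟩
    _ ≤ ∑ j ∈ Finset.range ⌈τ⌉₊, (ε / 4 + ε / 4) := by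
        refine (measure_biUnion_finset_le _ _).trans (Finset.sum_le_sum fun j _ => ?_)
        refine (measure_union_le _ _).trans (add_le_add ?_ ?_)
        · exact (hΦle j _).trans (hr a b hab)
        · exact (hΦle j _).trans (hr b a (by rwa [norm_sub_rev]))
    _ = (⌈τ⌉₊ : ℝ≥0∞) * (ε / 4 + ε / 4) := by
        rw [Finset.sum_const, Finset.card_range, nsmul_eq_mul]
    _ ≤ (2 * ENNReal.ofReal τ) * (ε / 4 + ε / 4) := by
        gcongr
        have h1 : (⌈τ⌉₊ : ℝ) ≤ 2 * τ := by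
          have := Nat.ceil_lt_add_one (zero_le_one.trans hτ)
          linarith
        rw [← ENNReal.ofReal_natCast, ← ENNReal.ofReal_ofNat 2,
          ← ENNReal.ofReal_mul zero_le_two]
        exact ENNReal.ofReal_le_ofReal h1
    _ = (4 * (ε / 4)) * ENNReal.ofReal τ := by ring
    _ = ε * ENNReal.ofReal τ := by
        rw [ENNReal.mul_div_cancel (by norm_num) ENNReal.ofNat_ne_top]

theorem IsWiener.fam {W : Measure (Path d)} (hW : IsWiener W) (hd : 3 ≤ d) : Fam (PL W) := by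
  have := hW.isProbabilityMeasure
  refine ⟨fun L _ => hW.PL_prob L, fun L s a hs hL ha => hW.PL_stat hd hs hL ha,
    fun L i hL => hW.PL_refl hd hL i, fun L hL f hf => hW.PL_mean hd hL hf,
    fun q hq => hW.PL_mom hd hq, fun s hs ε hε => ?_⟩
  have hε4 : 0 < ε / 4 := ENNReal.div_pos hε.ne' ENNReal.ofNat_ne_top
  obtain ⟨r, hr⟩ := hW.two_cubes_time hd hs hε4
  refine ⟨r, fun L a b hL ha hb hab F H hF hH hF1 hH1 => ?_⟩
  have hR : 0 < √d * L + 1 := by positivity
  have := hW.isFiniteMeasure_nuI (√d * L + 1) (loc 0 L)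
  have h1 := CP_indep measurableSet_zero_measure (measurable_loc a s) (measurable_loc b s)
    (loc_zero a s) (loc_zero b s) (loc_add a s) (loc_add b s) (nuI W (√d * L + 1) (loc 0 L))
    hF hH hF1 hH1
  have h2 : ∀ (c : E d) (F : Measure (E d) → ℝ≥0∞), cube c s ⊆ cube 0 L → Measurable F →
      ∫⁻ μ, F (loc c s μ) ∂(CP (nuI W (√d * L + 1) (loc 0 L))) = ∫⁻ μ, F μ ∂(PL W s) := by
    intro c F hc hF
    rw [← hW.PL_stat hd hs hL hc, lintegral_map hF (measurable_loc c s)]
    rfl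
  rw [h2 a F ha hF, h2 b H hb hH] at h1
  refine h1.trans (add_le_add le_rfl ?_)
  set A : Set (Measure (E d)) := {x | loc a s x ≠ 0 ∧ loc b s x ≠ 0} with hA
  have hAm : MeasurableSet A :=
    (measurable_loc a s measurableSet_zero_measure.compl).inter
      (measurable_loc b s measurableSet_zero_measure.compl)
  obtain ⟨τ0, -, hτ0⟩ := hW.ident_loc hd hR (a := 0) (s := L)
    ((cube_subset_closedBall hL.le).trans (Metric.closedBall_subset_closedBall (by linarith))) hε4
  have h3 := (hτ0 (max τ0 1) (le_max_left _ _) (A.indicator 1) (measurable_one.indicator hAm)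
    (fun μ => Set.indicator_le_self' (fun _ _ => zero_le) μ)
    (Set.indicator_of_notMem (fun h => h.1 (loc_zero a s)) _)).2
  rw [lintegral_indicator_one hAm] at h3
  have h4 : ∫⁻ q, A.indicator (1 : Measure (E d) → ℝ≥0∞)
      (loc 0 L (occ q.1 q.2 (Set.Ico 0 (max τ0 1)))) ∂((volume : Measure (E d)).prod W)
      ≤ ε / 4 * ENNReal.ofReal (max τ0 1) := by
    refine le_trans ?_ (hr a b (max τ0 1) hab (le_max_right _ _))
    refine le_trans (lintegral_mono fun q => ?_) (lintegral_indicator_one_le _)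
    by_cases hq : loc 0 L (occ q.1 q.2 (Set.Ico 0 (max τ0 1))) ∈ A
    · have h5 : ∀ c : E d, cube c s ⊆ cube 0 L →
          loc c s (loc 0 L (occ q.1 q.2 (Set.Ico 0 (max τ0 1)))) ≠ 0 →
          q ∈ hitS (cube c s) (Set.Ico 0 (max τ0 1)) := by
        intro c hc h
        rw [loc_loc hc, zero_add, Ne, loc_eq_zero_iff] at h
        exact mem_hitS_of_occ_ne_zero measurableSet_Ico (measurableSet_cube c s) h
      rw [Set.indicator_of_mem hq, Set.indicator_of_mem (Set.mem_inter (h5 a ha hq.1) (h5 b hb hq.2))]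
      rfl
    · rw [Set.indicator_of_notMem hq]
      exact zero_le
  have h6 : ENNReal.ofReal (max τ0 1) ≠ 0 :=
    (ENNReal.ofReal_pos.2 (lt_of_lt_of_le one_pos (le_max_right _ _))).ne'
  calc 2 * nuI W (√d * L + 1) (loc 0 L) A
      ≤ 2 * ((ENNReal.ofReal (max τ0 1))⁻¹ * (ε / 4 * ENNReal.ofReal (max τ0 1)) + ε / 4) := by
        gcongr
        exact h3.trans (by gcongr)
    _ = 2 * ((ENNReal.ofReal (max τ0 1))⁻¹ * ENNReal.ofReal (max τ0 1) * (ε / 4) + ε / 4) := by
        ring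
    _ = 4 * (ε / 4) := by
        rw [ENNReal.inv_mul_cancel h6 ENNReal.ofReal_ne_top]
        ring
    _ = ε := ENNReal.mul_div_cancel (by norm_num) ENNReal.ofNat_ne_top

end Pool.Agent.Lib.MP_fe8b6f_pr
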