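import Pool.Agent.Lib.MP_fe8b6f_pr.Defs

/-! Basic facts on the transport cost. -/

open MeasureTheory ProbabilityTheory
open scoped NNReal ENNReal

noncomputable section

namespace Pool.Agent.Lib.MP_fe8b6f_pr

variable {d : ℕ}

theorem Wc_le {c : E d → E d → ℝ≥0∞} {μ ν : Measure (E d)} {π : Measure (E d × E d)}
    (h1 : π.map Prod.fst = μ) (h2 : π.map Prod.snd = ν) :
    Wc c μ ν ≤ ∫⁻ z, c z.1 z.2 ∂π := by
  unfold Wc
  exact iInf_le_of_le π (iInf_le_of_le h1 (iInf_le_of_le h2 le_rfl))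

theorem Wc_mono {c c' : E d → E d → ℝ≥0∞} (hc : ∀ x y, c x y ≤ c' x y) (μ ν : Measure (E d)) :
    Wc c μ ν ≤ Wc c' μ ν := by
  conv_rhs => unfold Wc
  refine le_iInf fun π => le_iInf fun h1 => le_iInf fun h2 => ?_
  exact (Wc_le h1 h2).trans (lintegral_mono fun z => hc _ _)

theorem Wc_zero (c : E d → E d → ℝ≥0∞) : Wc c 0 0 = 0 := by
  refine le_antisymm ?_ bot_le
  have h := Wc_le (c := c) (π := (0 : Measure (E d × E d))) (μ := 0) (ν := 0)
    (Measure.map_zero _) (Measure.map_zero _)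
  simpa using h

theorem Wc_add_le (c : E d → E d → ℝ≥0∞) (μ₁ μ₂ ν₁ ν₂ : Measure (E d)) :
    Wc c (μ₁ + μ₂) (ν₁ + ν₂) ≤ Wc c μ₁ ν₁ + Wc c μ₂ ν₂ := by
  conv_rhs => unfold Wc
  simp only [ENNReal.iInf_add, ENNReal.add_iInf, le_iInf_iff]
  intro π h1 h2 π' h1' h2'
  rw [← lintegral_add_measure]
  refine Wc_le ?_ ?_
  · rw [Measure.map_add _ _ measurable_fst]; simp [*]
  · rw [Measure.map_add _ _ measurable_snd]; simp [*]

theorem Wc_sum_le {ι : Type*} (c : E d → E d → ℝ≥0∞) (s : Finset ι) (μ ν : ι → Measure (E d)) :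
    Wc c (∑ i ∈ s, μ i) (∑ i ∈ s, ν i) ≤ ∑ i ∈ s, Wc c (μ i) (ν i) := by
  classical
  induction s using Finset.induction_on with
  | empty => simp [Wc_zero]
  | insert a s ha ih =>
    simp only [Finset.sum_insert ha]
    exact (Wc_add_le c _ _ _ _).trans (by gcongr)

theorem Wc_smul_le (c : E d → E d → ℝ≥0∞) {r : ℝ≥0∞} (hr : r ≠ ⊤) (μ ν : Measure (E d)) :
    Wc c (r • μ) (r • ν) ≤ r * Wc c μ ν := by
  rcases eq_or_ne r 0 with rfl | h0
  · simp [Wc_zero]
  conv_rhs => unfold Wc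
  simp only [ENNReal.mul_iInf_of_ne h0 hr, le_iInf_iff]
  intro π h1 h2
  have h := Wc_le (c := c) (π := r • π) (μ := r • μ) (ν := r • ν)
    (by rw [Measure.map_smul, h1]) (by rw [Measure.map_smul, h2])
  rwa [lintegral_smul_measure, smul_eq_mul] at h

theorem measurable_ecost (p : ℝ) : Measurable fun z : E d × E d => ‖z.1 - z.2‖ₑ ^ p := by
  exact ((measurable_fst.sub measurable_snd).enorm).pow_const p

theorem Wp_comm (p : ℝ) (μ ν : Measure (E d)) : Wp p μ ν = Wp p ν μ := by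
  have key : ∀ μ ν : Measure (E d), Wp p μ ν ≤ Wp p ν μ := by
    intro μ ν
    conv_rhs => unfold Wp Wc
    refine le_iInf fun π => le_iInf fun h1 => le_iInf fun h2 => ?_
    have h := Wc_le (c := fun x y => ‖x - y‖ₑ ^ p) (π := π.map Prod.swap) (μ := μ) (ν := ν)
      (by rw [Measure.map_map measurable_fst measurable_swap]; exact h2)
      (by rw [Measure.map_map measurable_snd measurable_swap]; exact h1)
    rw [lintegral_map (measurable_ecost p) measurable_swap] at h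
    refine h.trans (le_of_eq (lintegral_congr fun z => ?_))
    simp only [Prod.fst_swap, Prod.snd_swap]
    rw [enorm_sub_rev]
  exact le_antisymm (key _ _) (key _ _)

theorem Wp_plan_le {X : Type*} [MeasurableSpace X] (p : ℝ) (π : Measure X) {f g : X → E d}
    (hf : Measurable f) (hg : Measurable g) :
    Wp p (π.map f) (π.map g) ≤ ∫⁻ x, ‖f x - g x‖ₑ ^ p ∂π := by
  have hm : Measurable fun x => (f x, g x) := hf.prodMk hg
  have h := Wc_le (c := fun x y => ‖x - y‖ₑ ^ p) (π := π.map fun x => (f x, g x))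
    (μ := π.map f) (ν := π.map g)
    (by rw [Measure.map_map measurable_fst hm]; rfl)
    (by rw [Measure.map_map measurable_snd hm]; rfl)
  rwa [lintegral_map (measurable_ecost p) hm] at h

theorem Wp_map_le (p : ℝ) (μ : Measure (E d)) {T : E d → E d} (hT : Measurable T) :
    Wp p μ (μ.map T) ≤ ∫⁻ x, ‖x - T x‖ₑ ^ p ∂μ := by
  have h := Wp_plan_le p μ (f := fun x => x) (g := T) measurable_id hT
  rwa [Measure.map_id'] at h

theorem Wp_self {p : ℝ} (hp : 0 < p) (μ : Measure (E d)) : Wp p μ μ = 0 := by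
  refine le_antisymm ?_ bot_le
  have h := Wp_map_le p μ (T := fun x => x) measurable_id
  rw [Measure.map_id'] at h
  simpa [ENNReal.zero_rpow_of_pos hp] using h

/-- product coupling -/
theorem Wp_diam {p : ℝ} (hp : 0 ≤ p) {μ ν : Measure (E d)} [IsFiniteMeasure μ]
    (hm : μ Set.univ = ν Set.univ) {S T : Set (E d)} (hS : μ Sᶜ = 0) (hT : ν Tᶜ = 0) {D : ℝ}
    (hD : ∀ x ∈ S, ∀ y ∈ T, ‖x - y‖ ≤ D) :
    Wp p μ ν ≤ ENNReal.ofReal D ^ p * μ Set.univ := by
  have hfin : IsFiniteMeasure ν := ⟨by rw [← hm]; exact measure_lt_top _ _⟩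
  rcases eq_or_ne (μ Set.univ) 0 with h0 | h0
  · have hμ : μ = 0 := Measure.measure_univ_eq_zero.mp h0
    have hν : ν = 0 := Measure.measure_univ_eq_zero.mp (hm ▸ h0)
    subst hμ hν
    unfold Wp
    rw [Wc_zero]
    exact bot_le
  have htop : μ Set.univ ≠ ⊤ := measure_ne_top _ _
  have h := Wc_le (c := fun x y => ‖x - y‖ₑ ^ p) (π := (μ Set.univ)⁻¹ • μ.prod ν)
    (μ := μ) (ν := ν)
    (by
      rw [Measure.map_smul, Measure.map_fst_prod, smul_smul, ← hm,
        ENNReal.inv_mul_cancel h0 htop, one_smul])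
    (by
      rw [Measure.map_smul, Measure.map_snd_prod, smul_smul,
        ENNReal.inv_mul_cancel h0 htop, one_smul])
  refine h.trans ?_
  rw [lintegral_smul_measure, smul_eq_mul]
  have hS' : ∀ᵐ z ∂(μ.prod ν), z.1 ∈ S :=
    Measure.quasiMeasurePreserving_fst.ae (p := fun x => x ∈ S) hS
  have hT' : ∀ᵐ z ∂(μ.prod ν), z.2 ∈ T :=
    Measure.quasiMeasurePreserving_snd.ae (p := fun x => x ∈ T) hT
  have hle : ∫⁻ z, ‖z.1 - z.2‖ₑ ^ p ∂(μ.prod ν) ≤
      ∫⁻ _z, ENNReal.ofReal D ^ p ∂(μ.prod ν) := by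
    refine lintegral_mono_ae ?_
    filter_upwards [hS', hT'] with z h1 h2
    refine ENNReal.rpow_le_rpow ?_ hp
    rw [← ofReal_norm]
    exact ENNReal.ofReal_le_ofReal (hD _ h1 _ h2)
  rw [lintegral_const, ← Set.univ_prod_univ, Measure.prod_prod, ← hm] at hle
  calc (μ Set.univ)⁻¹ * ∫⁻ z, ‖z.1 - z.2‖ₑ ^ p ∂(μ.prod ν)
      ≤ (μ Set.univ)⁻¹ * (ENNReal.ofReal D ^ p * (μ Set.univ * μ Set.univ)) := by gcongr
    _ = ENNReal.ofReal D ^ p * (((μ Set.univ)⁻¹ * μ Set.univ) * μ Set.univ) := by ring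
    _ = ENNReal.ofReal D ^ p * μ Set.univ := by rw [ENNReal.inv_mul_cancel h0 htop, one_mul]

/-- complete a sub-coupling by the product coupling of the remainders -/
theorem Wp_sub_plan {p : ℝ} (hp : 0 ≤ p) {μ ν : Measure (E d)} [IsFiniteMeasure μ]
    (hm : μ Set.univ = ν Set.univ) (π : Measure (E d × E d)) (h1 : π.map Prod.fst ≤ μ)
    (h2 : π.map Prod.snd ≤ ν) {S T : Set (E d)} (hS : μ Sᶜ = 0) (hT : ν Tᶜ = 0) {D : ℝ}
    (hD : ∀ x ∈ S, ∀ y ∈ T, ‖x - y‖ ≤ D) :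
    Wp p μ ν ≤ ∫⁻ z, ‖z.1 - z.2‖ₑ ^ p ∂π +
      ENNReal.ofReal D ^ p * (μ Set.univ - π Set.univ) := by
  have hfin : IsFiniteMeasure ν := ⟨by rw [← hm]; exact measure_lt_top _ _⟩
  have hf1 : IsFiniteMeasure (π.map Prod.fst) := isFiniteMeasure_of_le μ h1
  have hf2 : IsFiniteMeasure (π.map Prod.snd) := isFiniteMeasure_of_le ν h2
  have e1 : (μ - π.map Prod.fst) Set.univ = μ Set.univ - π Set.univ := by
    rw [Measure.sub_apply MeasurableSet.univ h1,
      Measure.map_apply measurable_fst MeasurableSet.univ, Set.preimage_univ]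
  have e2 : (ν - π.map Prod.snd) Set.univ = μ Set.univ - π Set.univ := by
    rw [Measure.sub_apply MeasurableSet.univ h2,
      Measure.map_apply measurable_snd MeasurableSet.univ, Set.preimage_univ, hm]
  have hS' : (μ - π.map Prod.fst) Sᶜ = 0 :=
    le_antisymm ((Measure.le_iff'.mp Measure.sub_le _).trans hS.le) bot_le
  have hT' : (ν - π.map Prod.snd) Tᶜ = 0 :=
    le_antisymm ((Measure.le_iff'.mp Measure.sub_le _).trans hT.le) bot_le
  have hd := Wp_diam hp (μ := μ - π.map Prod.fst) (ν := ν - π.map Prod.snd) (e1.trans e2.symm)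
    hS' hT' hD
  rw [e1] at hd
  have ha := Wc_add_le (fun x y : E d => ‖x - y‖ₑ ^ p) (μ - π.map Prod.fst) (π.map Prod.fst)
    (ν - π.map Prod.snd) (π.map Prod.snd)
  rw [Measure.sub_add_cancel_of_le h1, Measure.sub_add_cancel_of_le h2] at ha
  refine ha.trans ?_
  rw [add_comm]
  exact add_le_add (Wc_le rfl rfl) hd

theorem Wp_map_map {p : ℝ} (hp : 0 ≤ p) {T : E d → E d} (hT : Measurable T) {c : ℝ≥0}
    (hc : c ≠ 0) (h : ∀ x y, ‖T x - T y‖ ≤ c * ‖x - y‖) (μ ν : Measure (E d)) :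
    Wp p (μ.map T) (ν.map T) ≤ (c : ℝ≥0∞) ^ p * Wp p μ ν := by
  have h0 : (c : ℝ≥0∞) ^ p ≠ 0 := by
    have : (c : ℝ≥0∞) ≠ 0 := ENNReal.coe_ne_zero.mpr hc
    simp [ENNReal.rpow_eq_zero_iff, this]
  have ht : (c : ℝ≥0∞) ^ p ≠ ⊤ := ENNReal.rpow_ne_top_of_nonneg hp ENNReal.coe_ne_top
  conv_rhs => unfold Wp Wc
  simp only [ENNReal.mul_iInf_of_ne h0 ht, le_iInf_iff]
  intro π h1 h2
  have hp' := Wp_plan_le p π (f := fun z => T z.1) (g := fun z => T z.2)
    (hT.comp measurable_fst) (hT.comp measurable_snd)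
  rw [← h1, ← h2, Measure.map_map hT measurable_fst, Measure.map_map hT measurable_snd]
  refine le_trans hp' ?_
  rw [← lintegral_const_mul' _ _ ht]
  refine lintegral_mono fun z => ?_
  simp only
  rw [← ENNReal.mul_rpow_of_nonneg _ _ hp]
  refine ENNReal.rpow_le_rpow ?_ hp
  rw [← ofReal_norm, ← ofReal_norm, ← ENNReal.ofReal_coe_nnreal,
    ← ENNReal.ofReal_mul c.coe_nonneg]
  exact ENNReal.ofReal_le_ofReal (h _ _)

theorem Wp_sh {p : ℝ} (hp : 0 ≤ p) (a : E d) (μ ν : Measure (E d)) :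
    Wp p (sh a μ) (sh a ν) = Wp p μ ν := by
  have key : ∀ (a : E d) (μ ν : Measure (E d)), Wp p (sh a μ) (sh a ν) ≤ Wp p μ ν := by
    intro a μ ν
    have h := Wp_map_map hp (T := fun x : E d => x - a) (measurable_id.sub_const a) (c := 1)
      one_ne_zero (fun x y => by simp) μ ν
    simpa [sh] using h
  have hinv : ∀ μ : Measure (E d), sh (-a) (sh a μ) = μ := by
    intro μ
    unfold sh
    rw [Measure.map_map (by fun_prop) (by fun_prop)]
    have : ((fun x : E d => x - -a) ∘ fun x => x - a) = id := by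
      funext x; simp
    rw [this, Measure.map_id]
  refine le_antisymm (key a μ ν) ?_
  have h := key (-a) (sh a μ) (sh a ν)
  rwa [hinv, hinv] at h

theorem Wp_retract {p : ℝ} (hp : 0 ≤ p) {T : E d → E d} (hT : Measurable T) {μ : Measure (E d)}
    {S : Set (E d)} (hS : μ Sᶜ = 0) (h : ∀ x ∈ S, ∀ y, ‖x - T y‖ ≤ ‖x - y‖) (ν : Measure (E d)) :
    Wp p μ (ν.map T) ≤ Wp p μ ν := by
  conv_rhs => unfold Wp Wc
  refine le_iInf fun π => le_iInf fun h1 => le_iInf fun h2 => ?_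
  have hp' := Wp_plan_le p π (f := Prod.fst) (g := fun z => T z.2)
    measurable_fst (hT.comp measurable_snd)
  have hS' : ∀ᵐ z ∂π, z.1 ∈ S := by
    refine ae_of_ae_map (p := fun x => x ∈ S) measurable_fst.aemeasurable ?_
    rw [h1]; exact hS
  rw [← h2, Measure.map_map hT measurable_snd]
  rw [h1] at hp'
  refine le_trans hp' (lintegral_mono_ae ?_)
  filter_upwards [hS'] with z hz
  refine ENNReal.rpow_le_rpow ?_ hp
  rw [← ofReal_norm, ← ofReal_norm]
  exact ENNReal.ofReal_le_ofReal (h _ hz _)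

end Pool.Agent.Lib.MP_fe8b6f_pr
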