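import Pool.Agent.Lib.MP_fe8b6f_pr.OTa

/-! Gluing and triangle inequalities. -/

open MeasureTheory ProbabilityTheory
open scoped NNReal ENNReal

noncomputable section

namespace Pool.Agent.Lib.MP_fe8b6f_pr

variable {d : ℕ}

theorem otb_glue {c₁ c₂ c₃ : E d → E d → ℝ≥0∞}
    (h1 : Measurable fun z : E d × E d => c₁ z.1 z.2)
    (h2 : Measurable fun z : E d × E d => c₂ z.1 z.2)
    (h3 : Measurable fun z : E d × E d => c₃ z.1 z.2) {A B : ℝ≥0∞}
    (h : ∀ x y z, c₃ x z ≤ A * c₁ x y + B * c₂ y z)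
    (π₁ π₂ : Measure (E d × E d)) [IsFiniteMeasure π₁] [IsFiniteMeasure π₂]
    (hν : π₁.map Prod.snd = π₂.map Prod.fst) :
    Wc c₃ (π₁.map Prod.fst) (π₂.map Prod.snd) ≤
      A * ∫⁻ z, c₁ z.1 z.2 ∂π₁ + B * ∫⁻ z, c₂ z.1 z.2 ∂π₂ := by
  set Γ : Measure ((E d × E d) × E d) :=
    π₁ ⊗ₘ (π₂.condKernel.comap Prod.snd measurable_snd) with hΓ
  have m13 : Measurable fun q : (E d × E d) × E d => (q.1.1, q.2) := by fun_prop
  have m23 : Measurable fun q : (E d × E d) × E d => (q.1.2, q.2) := by fun_prop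
  have e12 : Γ.map Prod.fst = π₁ := Measure.fst_compProd _ _
  have e23 : Γ.map (fun q : (E d × E d) × E d => (q.1.2, q.2)) = π₂ := by
    conv_rhs => rw [← π₂.disintegrate π₂.condKernel]
    ext s hs
    rw [Measure.map_apply m23 hs, hΓ, Measure.compProd_apply (m23 hs), Measure.compProd_apply hs,
      Measure.fst, ← hν, lintegral_map (Kernel.measurable_kernel_prodMk_left hs) measurable_snd]
    rfl
  have f1 : (Γ.map fun q : (E d × E d) × E d => (q.1.1, q.2)).map Prod.fst = π₁.map Prod.fst := by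
    rw [← e12, Measure.map_map measurable_fst m13, Measure.map_map measurable_fst measurable_fst]
    rfl
  have f2 : (Γ.map fun q : (E d × E d) × E d => (q.1.1, q.2)).map Prod.snd = π₂.map Prod.snd := by
    rw [← e23, Measure.map_map measurable_snd m13, Measure.map_map measurable_snd m23]
    rfl
  refine (Wc_le f1 f2).trans ?_
  have i1 : ∫⁻ z, c₁ z.1 z.2 ∂π₁ = ∫⁻ q, c₁ q.1.1 q.1.2 ∂Γ := by
    rw [← e12, lintegral_map h1 measurable_fst]
  have i2 : ∫⁻ z, c₂ z.1 z.2 ∂π₂ = ∫⁻ q, c₂ q.1.2 q.2 ∂Γ := by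
    rw [← e23, lintegral_map h2 m23]
  have n1 : Measurable fun q : (E d × E d) × E d => c₁ q.1.1 q.1.2 := h1.comp measurable_fst
  have n2 : Measurable fun q : (E d × E d) × E d => c₂ q.1.2 q.2 := h2.comp m23
  rw [lintegral_map h3 m13, i1, i2, ← lintegral_const_mul _ n1, ← lintegral_const_mul _ n2,
    ← lintegral_add_left (n1.const_mul _)]
  exact lintegral_mono fun q => h _ _ _

theorem otb_enorm_tri (x y z : E d) : ‖x - z‖ₑ ≤ ‖x - y‖ₑ + ‖y - z‖ₑ := by
  have := enorm_add_le (x - y) (y - z)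
  rwa [sub_add_sub_cancel] at this

theorem otb_conv {p : ℝ} (hp : 1 ≤ p) {u v : ℝ} (hu : 0 < u) (hv : 0 < v) (huv : u + v = 1)
    (s t : ℝ≥0∞) : (s + t) ^ p ≤
      ENNReal.ofReal (u ^ (1 - p)) * s ^ p + ENNReal.ofReal (v ^ (1 - p)) * t ^ p := by
  have key : ∀ {u : ℝ}, 0 < u → ∀ s : ℝ≥0∞, ENNReal.ofReal u * ((ENNReal.ofReal u)⁻¹ * s) = s ∧
      ENNReal.ofReal u * ((ENNReal.ofReal u)⁻¹ * s) ^ p = ENNReal.ofReal (u ^ (1 - p)) * s ^ p := by
    intro u hu s
    have h0 : ENNReal.ofReal u ≠ 0 := by simpa using hu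
    have h1 : ENNReal.ofReal u ≠ ⊤ := ENNReal.ofReal_ne_top
    refine ⟨by rw [← mul_assoc, ENNReal.mul_inv_cancel h0 h1, one_mul], ?_⟩
    rw [ENNReal.mul_rpow_of_nonneg _ _ (by linarith), ← mul_assoc, ENNReal.inv_rpow,
      ← ENNReal.rpow_neg, ← ENNReal.ofReal_rpow_of_pos hu, sub_eq_add_neg,
      ENNReal.rpow_add _ _ h0 h1, ENNReal.rpow_one]
  have hw : ENNReal.ofReal u + ENNReal.ofReal v = 1 := by
    rw [← ENNReal.ofReal_add hu.le hv.le, huv, ENNReal.ofReal_one]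
  have := ENNReal.rpow_arith_mean_le_arith_mean2_rpow _ _ ((ENNReal.ofReal u)⁻¹ * s)
    ((ENNReal.ofReal v)⁻¹ * t) hw hp
  rwa [(key hu s).1, (key hv t).1, (key hu s).2, (key hv t).2] at this

/-- gluing lemma (disintegrate the second plan with `Measure.condKernel`) -/
theorem Wc_glue {c₁ c₂ c₃ : E d → E d → ℝ≥0∞}
    (h1 : Measurable fun z : E d × E d => c₁ z.1 z.2)
    (h2 : Measurable fun z : E d × E d => c₂ z.1 z.2)
    (h3 : Measurable fun z : E d × E d => c₃ z.1 z.2) {A B : ℝ≥0∞} (hA0 : A ≠ 0) (hA : A ≠ ⊤)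
    (hB0 : B ≠ 0) (hB : B ≠ ⊤) (h : ∀ x y z, c₃ x z ≤ A * c₁ x y + B * c₂ y z)
    (μ ν ρ : Measure (E d)) [IsFiniteMeasure ν] :
    Wc c₃ μ ρ ≤ A * Wc c₁ μ ν + B * Wc c₂ ν ρ := by
  rw [Wc.eq_1 c₁, Wc.eq_1 c₂, ENNReal.mul_iInf_of_ne hA0 hA, ENNReal.mul_iInf_of_ne hB0 hB]
  refine ENNReal.le_iInf_add_iInf fun π₁ π₂ => ?_
  rw [ENNReal.mul_iInf_of_ne hA0 hA, ENNReal.mul_iInf_of_ne hB0 hB]
  refine ENNReal.le_iInf_add_iInf fun a1 b1 => ?_
  rw [ENNReal.mul_iInf_of_ne hA0 hA, ENNReal.mul_iInf_of_ne hB0 hB]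
  refine ENNReal.le_iInf_add_iInf fun a2 b2 => ?_
  have : IsFiniteMeasure π₁ := ⟨by
    have := measure_lt_top ν Set.univ
    rwa [← a2, Measure.map_apply measurable_snd MeasurableSet.univ] at this⟩
  have : IsFiniteMeasure π₂ := ⟨by
    have := measure_lt_top ν Set.univ
    rwa [← b1, Measure.map_apply measurable_fst MeasurableSet.univ] at this⟩
  have := otb_glue h1 h2 h3 h π₁ π₂ (a2.trans b1.symm)
  rwa [a1, b2] at this

theorem rpow_add_le_eps {p : ℝ} (hp : 0 < p) {ε : ℝ} (hε : 0 < ε) :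
    ∃ C : ℝ≥0, C ≠ 0 ∧ ∀ a b : ℝ≥0∞,
      (a + b) ^ p ≤ ENNReal.ofReal (1 + ε) * a ^ p + C * b ^ p := by
  have h1 : 1 < (1 + ε) ^ (1 / p) := Real.one_lt_rpow (by linarith) (by positivity)
  obtain ⟨η, hη⟩ : ∃ η : ℝ, η = (1 + ε) ^ (1 / p) - 1 := ⟨_, rfl⟩
  have hη0 : 0 < η := by linarith
  have hC : 0 < (η⁻¹ + 1) ^ p := by positivity
  refine ⟨Real.toNNReal ((η⁻¹ + 1) ^ p), by simpa using hC, fun a b => ?_⟩
  have h0 : ENNReal.ofReal η ≠ 0 := by simpa using hη0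
  rcases le_total b (ENNReal.ofReal η * a) with h | h
  · refine le_trans ?_ le_self_add
    have h2 : a + b ≤ ENNReal.ofReal (1 + η) * a := by
      rw [ENNReal.ofReal_add zero_le_one hη0.le, add_mul, ENNReal.ofReal_one, one_mul]
      gcongr
    refine (ENNReal.rpow_le_rpow h2 hp.le).trans (le_of_eq ?_)
    rw [ENNReal.mul_rpow_of_nonneg _ _ hp.le, ENNReal.ofReal_rpow_of_pos (by linarith), hη,
      add_sub_cancel, ← Real.rpow_mul (by linarith), one_div_mul_cancel hp.ne', Real.rpow_one]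
  · refine le_trans ?_ le_add_self
    have h3 : a ≤ (ENNReal.ofReal η)⁻¹ * b := by
      calc a = (ENNReal.ofReal η)⁻¹ * (ENNReal.ofReal η * a) := by
            rw [← mul_assoc, ENNReal.inv_mul_cancel h0 ENNReal.ofReal_ne_top, one_mul]
        _ ≤ _ := by gcongr
    have h2 : a + b ≤ ENNReal.ofReal (η⁻¹ + 1) * b := by
      rw [ENNReal.ofReal_add (by positivity) zero_le_one, add_mul, ENNReal.ofReal_one, one_mul,
        ENNReal.ofReal_inv_of_pos hη0]
      gcongr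
    refine (ENNReal.rpow_le_rpow h2 hp.le).trans (le_of_eq ?_)
    rw [ENNReal.mul_rpow_of_nonneg _ _ hp.le, ENNReal.ofReal_rpow_of_pos (by positivity)]
    rfl

theorem Wp_tri_eps {p : ℝ} (hp : 0 < p) {ε : ℝ} (hε : 0 < ε) :
    ∃ C : ℝ≥0, ∀ μ ν ρ : Measure (E d), IsFiniteMeasure ν →
      Wp p μ ρ ≤ ENNReal.ofReal (1 + ε) * Wp p μ ν + C * Wp p ν ρ := by
  obtain ⟨C, hC, h⟩ := rpow_add_le_eps hp hε
  refine ⟨C, fun μ ν ρ _ => ?_⟩
  refine Wc_glue (measurable_ecost p) (measurable_ecost p) (measurable_ecost p) ?_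
    ENNReal.ofReal_ne_top (by simpa using hC) ENNReal.coe_ne_top (fun x y z => ?_) μ ν ρ
  · have : 0 < 1 + ε := by linarith
    simpa using this
  · exact (ENNReal.rpow_le_rpow (otb_enorm_tri x y z) hp.le).trans (h _ _)

/-- weighted chain inequality; induction on `n` with `Wc_glue` and
`(s + t) ^ p ≤ λ ^ (1 - p) * s ^ p + (1 - λ) ^ (1 - p) * t ^ p` -/
theorem Wp_chain {p : ℝ} (hp : 1 ≤ p) (n : ℕ) (ν : ℕ → Measure (E d))
    (hν : ∀ k, IsFiniteMeasure (ν k)) (w : ℕ → ℝ) (hw : ∀ k < n, 0 < w k)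
    (hs : ∑ k ∈ Finset.range n, w k ≤ 1) :
    Wp p (ν 0) (ν n) ≤
      ∑ k ∈ Finset.range n, ENNReal.ofReal (w k ^ (1 - p)) * Wp p (ν k) (ν (k + 1)) := by
  induction n generalizing w with
  | zero => rw [Wp_self (by linarith)]; exact zero_le
  | succ n ih =>
    rw [Finset.sum_range_succ] at hs ⊢
    have hwn : 0 < w n := hw n (Nat.lt_succ_self n)
    rcases Nat.eq_zero_or_pos n with rfl | hn
    · simp only [Finset.range_zero, Finset.sum_empty, zero_add] at hs ⊢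
      refine le_mul_of_one_le_left zero_le ?_
      rw [ENNReal.one_le_ofReal]
      exact Real.one_le_rpow_of_pos_of_le_one_of_nonpos hwn hs (by linarith)
    · have hσ : 0 < ∑ k ∈ Finset.range n, w k :=
        Finset.sum_pos (fun k hk => hw k (by simp at hk; omega)) ⟨0, by simpa using hn⟩
      have hu : 0 < 1 - w n := by linarith
      have h1 := ih (fun k => w k / (1 - w n)) (fun k hk => div_pos (hw k (by omega)) hu) (by
        rw [← Finset.sum_div, div_le_one hu]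
        linarith)
      have := hν n
      have hpos : ∀ {u : ℝ}, 0 < u → ENNReal.ofReal (u ^ (1 - p)) ≠ 0 := fun hu => by
        simpa using Real.rpow_pos_of_pos hu _
      have h2 : Wp p (ν 0) (ν (n + 1)) ≤ ENNReal.ofReal ((1 - w n) ^ (1 - p)) * Wp p (ν 0) (ν n) +
          ENNReal.ofReal (w n ^ (1 - p)) * Wp p (ν n) (ν (n + 1)) :=
        Wc_glue (measurable_ecost p) (measurable_ecost p) (measurable_ecost p) (hpos hu)
          ENNReal.ofReal_ne_top (hpos hwn) ENNReal.ofReal_ne_top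
          (fun x y z => (ENNReal.rpow_le_rpow (otb_enorm_tri x y z) (by linarith)).trans
            (otb_conv hp hu hwn (by ring) _ _)) _ _ _
      refine h2.trans (add_le_add ?_ le_rfl)
      refine (mul_le_mul_right h1 _).trans (le_of_eq ?_)
      rw [Finset.mul_sum]
      refine Finset.sum_congr rfl fun k hk => ?_
      have hk' : 0 < w k := hw k (by simp at hk; omega)
      rw [← mul_assoc, ← ENNReal.ofReal_mul (by positivity), ← Real.mul_rpow hu.le (by positivity),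
        mul_div_cancel₀ _ hu.ne']

end Pool.Agent.Lib.MP_fe8b6f_pr
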