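import Pool.Agent.Lib.MP_fe8b6f_pr.PLa1

/-! Properties of the law of the interlacement in a cube. Part 2. -/

open MeasureTheory ProbabilityTheory
open scoped NNReal ENNReal

noncomputable section

namespace Pool.Agent.Lib.MP_fe8b6f_pr

variable {d : ℕ}

theorem pLa_meas_occ (A : Set (E d)) (hA : MeasurableSet A) :
    Measurable fun q : E d × Path d => occ q.1 q.2 (Set.Ici 0) A :=
  (Measure.measurable_coe hA).comp measurable_occ

theorem pLa_mean {W : Measure (Path d)} (hW : IsWiener W) (hd : 3 ≤ d) {R : ℝ} (hR : 0 < R)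
    {A : Set (E d)} (hA : MeasurableSet A) (hAR : A ⊆ Metric.closedBall 0 R) :
    ENNReal.ofReal (capBall d R) *
      ∫⁻ q, occ q.1 q.2 (Set.Ici 0) A ∂((sphereUnif d R).prod W) = volume A := by
  have h := hW.mean_sphere hd hR (f := A.indicator 1) (measurable_one.indicator hA)
  have key : ∀ μ : Measure (E d),
      ∫⁻ y in Metric.closedBall (0 : E d) R, A.indicator (1 : E d → ℝ≥0∞) y ∂μ = μ A := by
    intro μ
    rw [lintegral_indicator_one hA, Measure.restrict_apply hA, Set.inter_eq_left.2 hAR]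
  simp only [key] at h
  exact h

theorem pLa_pow {W : Measure (Path d)} (hW : IsWiener W) (hd : 3 ≤ d) {R L : ℝ} (hR : 0 < R)
    (hL : 0 < L) (hAR : cube (0 : E d) L ⊆ Metric.closedBall 0 R) (k : ℕ) :
    ENNReal.ofReal (capBall d R) *
      ∫⁻ q, occ q.1 q.2 (Set.Ici 0) (cube 0 L) ^ (k + 1) ∂((sphereUnif d R).prod W) ≤
      ENNReal.ofReal ((Nat.factorial (k + 1) : ℝ) * L ^ d * (3 * L ^ 2) ^ k) := by
  have := hW.isProbabilityMeasure
  have hA : MeasurableSet (cube (0 : E d) L) := measurableSet_cube 0 L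
  have hm := pLa_meas_occ (d := d) _ hA
  have hvol : volume (cube (0 : E d) L) = ENNReal.ofReal (L ^ d) := volume_cube 0 hL.le
  have ha : ∀ y, ∫⁻ w, occ y w (Set.Ici 0) (cube (0 : E d) L) ∂W ≤
      ENNReal.ofReal (3 * L ^ 2) := fun y => hW.occ_total_le hd y hL hA hvol.le
  have h1 : ∫⁻ q, occ q.1 q.2 (Set.Ici 0) (cube 0 L) ^ (k + 1) ∂((sphereUnif d R).prod W) ≤
      (Nat.factorial (k + 1) : ℝ≥0∞) * ENNReal.ofReal (3 * L ^ 2) ^ k *
        ∫⁻ q, occ q.1 q.2 (Set.Ici 0) (cube 0 L) ∂((sphereUnif d R).prod W) := by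
    rw [lintegral_prod _ (hm.pow_const _).aemeasurable, lintegral_prod _ hm.aemeasurable,
      ← lintegral_const_mul _ hm.lintegral_prod_right']
    exact lintegral_mono fun x => hW.kac hA ha k x
  calc ENNReal.ofReal (capBall d R) *
        ∫⁻ q, occ q.1 q.2 (Set.Ici 0) (cube 0 L) ^ (k + 1) ∂((sphereUnif d R).prod W)
      ≤ ENNReal.ofReal (capBall d R) * ((Nat.factorial (k + 1) : ℝ≥0∞) *
          ENNReal.ofReal (3 * L ^ 2) ^ k *
          ∫⁻ q, occ q.1 q.2 (Set.Ici 0) (cube 0 L) ∂((sphereUnif d R).prod W)) := by gcongr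
    _ = (Nat.factorial (k + 1) : ℝ≥0∞) * ENNReal.ofReal (3 * L ^ 2) ^ k *
          ENNReal.ofReal (L ^ d) := by
        rw [mul_left_comm, pLa_mean hW hd hR hA hAR, hvol]
    _ = ENNReal.ofReal ((Nat.factorial (k + 1) : ℝ) * L ^ d * (3 * L ^ 2) ^ k) := by
        rw [ENNReal.ofReal_mul (p := (Nat.factorial (k + 1) : ℝ) * L ^ d) (by positivity),
          ENNReal.ofReal_mul (p := (Nat.factorial (k + 1) : ℝ)) (by positivity),
          ENNReal.ofReal_natCast, ENNReal.ofReal_pow (p := 3 * L ^ 2) (by positivity)]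
        ring

theorem pLa_num (hd : 3 ≤ d) {q : ℝ} (hq : 1 ≤ q) (C : ℝ) {L : ℝ} (hL : 1 ≤ L) :
    C * ((L ^ d * (3 * L ^ 2)) ^ (q / 2) + (3 * L ^ 2) ^ q) ≤
      |C| * (3 ^ (q / 2) + 3 ^ q) * L ^ (q * (d + 2) / 2) := by
  have hL0 : 0 < L := by linarith
  have hd' : (3 : ℝ) ≤ d := by exact_mod_cast hd
  have e1 : (L ^ d * (3 * L ^ 2)) ^ (q / 2) = 3 ^ (q / 2) * L ^ (q * (d + 2) / 2) := by
    have : L ^ d * (3 * L ^ 2) = 3 * L ^ ((d : ℝ) + 2) := by
      rw [Real.rpow_add hL0, Real.rpow_natCast, Real.rpow_two]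
      ring
    rw [this, Real.mul_rpow (by norm_num) (by positivity), ← Real.rpow_mul hL0.le]
    congr 2
    ring
  have e2 : (3 * L ^ 2) ^ q ≤ 3 ^ q * L ^ (q * (d + 2) / 2) := by
    rw [Real.mul_rpow (by norm_num) (by positivity), ← Real.rpow_two, ← Real.rpow_mul hL0.le]
    refine mul_le_mul_of_nonneg_left ?_ (by positivity)
    refine Real.rpow_le_rpow_of_exponent_le hL ?_
    nlinarith
  have hpos : 0 ≤ (L ^ d * (3 * L ^ 2)) ^ (q / 2) + (3 * L ^ 2) ^ q := by positivity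
  calc C * ((L ^ d * (3 * L ^ 2)) ^ (q / 2) + (3 * L ^ 2) ^ q)
      ≤ |C| * ((L ^ d * (3 * L ^ 2)) ^ (q / 2) + (3 * L ^ 2) ^ q) :=
        mul_le_mul_of_nonneg_right (le_abs_self C) hpos
    _ ≤ |C| * (3 ^ (q / 2) * L ^ (q * (d + 2) / 2) + 3 ^ q * L ^ (q * (d + 2) / 2)) := by
        rw [e1]
        gcongr
    _ = |C| * (3 ^ (q / 2) + 3 ^ q) * L ^ (q * (d + 2) / 2) := by ring

theorem IsWiener.PL_mom {W : Measure (Path d)} (hW : IsWiener W) (hd : 3 ≤ d) {q : ℝ}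
    (hq : 1 ≤ q) : ∃ C : ℝ, ∀ L : ℝ, 1 ≤ L → ∀ h : E d → ℝ, Measurable h →
    (∀ x, 0 ≤ h x) → (∀ x, h x ≤ 1) →
    ∫⁻ μ, ENNReal.ofReal (|∫ x in cube 0 L, h x ∂μ - ∫ x in cube 0 L, h x| ^ q) ∂(PL W L) ≤
      ENNReal.ofReal (C * L ^ (q * (d + 2) / 2)) := by
  obtain ⟨C, hC⟩ := CP_moment (M := Measure (E d)) hq
  refine ⟨|C| * (3 ^ (q / 2) + 3 ^ q), fun L hL h hh h0 h1 => ?_⟩
  have hL0 : 0 < L := by linarith
  have hR : 0 < √(d : ℝ) * L + 1 := by positivity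
  have hA : MeasurableSet (cube (0 : E d) L) := measurableSet_cube 0 L
  have hAR : cube (0 : E d) L ⊆ Metric.closedBall 0 (√(d : ℝ) * L + 1) :=
    (cube_subset_closedBall hL0.le).trans (Metric.closedBall_subset_closedBall (by linarith))
  have hf : Measurable fun x => ENNReal.ofReal (h x) := hh.ennreal_ofReal
  set Y : Measure (E d) → ℝ≥0∞ := fun μ => ∫⁻ x in cube 0 L, ENNReal.ofReal (h x) ∂μ with hY
  have hYm : Measurable Y :=
    (Measure.measurable_lintegral hf).comp (measurable_restrict_measure hA)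
  have hY0 : Y 0 = 0 := by simp [hY]
  have hYa : ∀ μ ν, Y (μ + ν) = Y μ + Y ν := by
    intro μ ν
    simp only [hY, Measure.restrict_add, lintegral_add_measure]
  have hYle : ∀ μ, Y μ ≤ μ (cube 0 L) := by
    intro μ
    calc Y μ ≤ ∫⁻ _ in cube 0 L, 1 ∂μ :=
          lintegral_mono fun x => ENNReal.ofReal_le_one.2 (h1 x)
      _ = μ (cube 0 L) := by simp
  have hint : ∀ μ : Measure (E d), ∫ x in cube 0 L, h x ∂μ = (Y μ).toReal := fun μ =>
    integral_eq_lintegral_of_nonneg_ae (Filter.Eventually.of_forall h0) hh.aestronglyMeasurable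
  have hfin := hW.isFiniteMeasure_nuI (√(d : ℝ) * L + 1) (loc 0 L)
  have hmean : ∫⁻ μ, Y μ ∂(nuI W (√(d : ℝ) * L + 1) (loc 0 L)) = Y volume := by
    rw [← lintegral_CP_additive hYm hY0 hYa]
    exact hW.PL_mean hd hL0 hf
  have hmom : ∀ k : ℕ, ∫⁻ μ, Y μ ^ (k + 1) ∂(nuI W (√(d : ℝ) * L + 1) (loc 0 L)) ≤
      ENNReal.ofReal ((Nat.factorial (k + 1) : ℝ) * L ^ d * (3 * L ^ 2) ^ k) := by
    intro k
    refine le_trans ?_ (pLa_pow hW hd hR hL0 hAR k)
    unfold nuI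
    rw [lintegral_smul_measure, smul_eq_mul]
    gcongr
    refine (lintegral_map_le _ _).trans (lintegral_mono fun z => ?_)
    have h2 := hYle (loc 0 L (occ z.1 z.2 (Set.Ici 0)))
    rw [loc_cube] at h2
    exact pow_le_pow_left' h2 _
  have hmain := hC _ Y (L ^ d) (3 * L ^ 2) hfin hYm hY0 hYa (by positivity) (by positivity) hmom
  rw [hmean] at hmain
  simp only [hint]
  exact hmain.trans (ENNReal.ofReal_le_ofReal (pLa_num hd hq C hL))

end Pool.Agent.Lib.MP_fe8b6f_pr
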