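import Pool.Agent.Lib.MP_fe8b6f_pr.Ident2
import Pool.Agent.Lib.MP_fe8b6f_pr.Kac
import Pool.Agent.Lib.MP_fe8b6f_pr.CPb
import Pool.Agent.Lib.MP_fe8b6f_pr.CPc
import Pool.Agent.Lib.MP_fe8b6f_pr.Fold

/-! Properties of the law of the interlacement in a cube. Part 1. -/

open MeasureTheory ProbabilityTheory
open scoped NNReal ENNReal

noncomputable section

namespace Pool.Agent.Lib.MP_fe8b6f_pr

variable {d : ℕ}

theorem pla1_nuI_map (W : Measure (Path d)) (R : ℝ) {φ ψ : Measure (E d) → Measure (E d)}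
    (hφ : Measurable φ) (hψ : Measurable ψ) : (nuI W R φ).map ψ = nuI W R (ψ ∘ φ) := by
  unfold nuI
  rw [Measure.map_smul, Measure.map_map hψ
    (show Measurable fun q : E d × Path d => φ (occ q.1 q.2 (Set.Ici 0)) from
      hφ.comp measurable_occ)]
  rfl

theorem pla1_cube_ball {L : ℝ} (hL : 0 < L) :
    cube (0 : E d) L ⊆ Metric.closedBall 0 (√d * L + 1) :=
  (cube_subset_closedBall hL.le).trans (Metric.closedBall_subset_closedBall (by linarith))

theorem pla1_loc_zero (L : ℝ) (μ : Measure (E d)) : loc 0 L μ = μ.restrict (cube 0 L) := by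
  rw [loc, sh_zero_left]

theorem pla1_meas_hyper (i : Fin d) (L : ℝ) : MeasurableSet {x : E d | x i = L} :=
  measurableSet_eq_fun (by fun_prop) measurable_const

theorem pla1_vol_hyper (i : Fin d) (L : ℝ) : volume {x : E d | x i = L} = 0 := by
  have h := (PiLp.volume_preserving_ofLp (Fin d)).measure_preimage
    (s := {f : Fin d → ℝ | f i = L})
    (measurableSet_eq_fun (measurable_pi_apply i) measurable_const).nullMeasurableSet
  exact h.trans (Measure.pi_hyperplane (fun _ : Fin d => (volume : Measure ℝ)) i L)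

theorem pla1_reflM_loc (i : Fin d) (L : ℝ) {μ : Measure (E d)} (h : μ {x | x i = L} = 0) :
    reflM i L (loc 0 L μ) = loc 0 L (μ.map (refl i L)) := by
  have hQ := measurableSet_cube (0 : E d) L
  rw [pla1_loc_zero, pla1_loc_zero, reflM, Measure.restrict_map (measurable_refl i L) hQ,
    Measure.restrict_map (measurable_refl i L) hQ,
    Measure.restrict_restrict (measurable_refl i L hQ)]
  congr 1
  refine Measure.restrict_congr_set (ae_eq_set.2 ⟨measure_mono_null
    (fun x hx => (hx.2 hx.1.1).elim) (measure_empty (μ := μ)), measure_mono_null ?_ h⟩)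
  rintro x ⟨hx, hx'⟩
  by_contra hxi
  refine hx' ⟨hx, fun j => ?_⟩
  have h1 := hx j
  by_cases hj : j = i
  · subst hj
    simp only [refl, upd, Function.update_self, PiLp.zero_apply, zero_add] at h1 ⊢
    exact ⟨by linarith [h1.2], lt_of_le_of_ne (by linarith [h1.1]) hxi⟩
  · simpa only [refl, upd, Function.update_of_ne hj] using h1

theorem pla1_refl_int {W : Measure (Path d)} (hW : IsWiener W) (i : Fin d) (L : ℝ) (I : Set ℝ)
    {F : Measure (E d) → ℝ≥0∞} (hF : Measurable F) :
    ∫⁻ q, F (reflM i L (loc 0 L (occ q.1 q.2 I))) ∂((volume : Measure (E d)).prod W) =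
      ∫⁻ q, F (loc 0 L (occ q.1 q.2 I)) ∂((volume : Measure (E d)).prod W) := by
  have := hW.isProbabilityMeasure
  obtain ⟨O, hO⟩ := exists_refl_isometry i
  have hH := pla1_meas_hyper i L
  have h1 := hW.lintegral_volume_occ I
    (measurable_one.indicator hH : Measurable (Set.indicator {x : E d | x i = L} 1))
  simp only [lintegral_indicator_one hH, pla1_vol_hyper, mul_zero] at h1
  have h2 := (lintegral_eq_zero_iff ((Measure.measurable_coe hH).comp measurable_occ)).1 h1
  have h3 : MeasurePreserving (Prod.map (refl i L) (rot O)) ((volume : Measure (E d)).prod W)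
      ((volume : Measure (E d)).prod W) :=
    MeasurePreserving.prod ⟨measurable_refl i L, map_refl_volume i L⟩
      ⟨(continuous_rot O).measurable, hW.map_rot O⟩
  rw [← h3.lintegral_comp (f := fun q => F (loc 0 L (occ q.1 q.2 I)))
    (hF.comp ((measurable_loc 0 L).comp measurable_occ))]
  refine lintegral_congr_ae ?_
  filter_upwards [h2] with q hq
  rw [pla1_reflM_loc i L hq, occ_map_affine (measurable_refl i L) O (hO L)]
  rfl

theorem IsWiener.PL_prob {W : Measure (Path d)} (hW : IsWiener W) (L : ℝ) :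
    IsProbabilityMeasure (PL W L) := by
  have := hW.isFiniteMeasure_nuI (√d * L + 1) (loc 0 L)
  exact isProbabilityMeasure_CP _

theorem IsWiener.PL_stat {W : Measure (Path d)} (hW : IsWiener W) (hd : 3 ≤ d) {L s : ℝ}
    {a : E d} (hs : 0 < s) (hL : 0 < L) (ha : cube a s ⊆ cube 0 L) :
    (PL W L).map (loc a s) = PL W s := by
  have := hW.isFiniteMeasure_nuI (√d * L + 1) (loc 0 L)
  have h1 : loc a s ∘ loc 0 L = loc a s := funext fun μ => by
    rw [Function.comp_apply, loc_loc ha, zero_add]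
  rw [PL, CP_map (measurable_loc a s) (loc_zero a s) (loc_add a s),
    pla1_nuI_map W _ (measurable_loc 0 L) (measurable_loc a s), h1]
  exact hW.CP_nuI_loc hd (by positivity) hs (ha.trans (pla1_cube_ball hL))

theorem IsWiener.PL_mean {W : Measure (Path d)} (hW : IsWiener W) (hd : 3 ≤ d) {L : ℝ}
    (hL : 0 < L) {f : E d → ℝ≥0∞} (hf : Measurable f) :
    ∫⁻ μ, (∫⁻ x in cube 0 L, f x ∂μ) ∂(PL W L) = ∫⁻ x in cube 0 L, f x := by
  have := hW.isFiniteMeasure_nuI (√d * L + 1) (loc 0 L)
  have hQ := measurableSet_cube (0 : E d) L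
  have hY : Measurable fun μ : Measure (E d) => ∫⁻ x in cube 0 L, f x ∂μ :=
    (Measure.measurable_lintegral hf).comp (measurable_restrict_measure hQ)
  have h1 : ∀ μ : Measure (E d), ∫⁻ y in Metric.closedBall 0 (√d * L + 1),
      (cube 0 L).indicator f y ∂μ = ∫⁻ x in cube 0 L, f x ∂μ := fun μ => by
    rw [lintegral_indicator hQ, Measure.restrict_restrict hQ,
      Set.inter_eq_left.2 (pla1_cube_ball hL)]
  have h2 := hW.mean_sphere hd (R := √d * L + 1) (by positivity) (hf.indicator hQ)
  simp only [h1] at h2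
  rw [PL, lintegral_CP_additive hY (by simp) (fun μ ν => by
    rw [Measure.restrict_add, lintegral_add_measure]), nuI, lintegral_smul_measure,
    lintegral_map hY (show Measurable fun q : E d × Path d =>
      loc 0 L (occ q.1 q.2 (Set.Ici 0)) from (measurable_loc 0 L).comp measurable_occ), ← h2]
  simp only [pla1_loc_zero, Measure.restrict_restrict hQ, Set.inter_self, smul_eq_mul]

theorem IsWiener.PL_refl {W : Measure (Path d)} (hW : IsWiener W) (hd : 3 ≤ d) {L : ℝ}
    (hL : 0 < L) (i : Fin d) : (PL W L).map (reflM i L) = PL W L := by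
  have := hW.isFiniteMeasure_nuI (√d * L + 1) (loc 0 L)
  rw [PL, CP_map (measurable_reflM i L) (reflM_zero i L) (reflM_add i L)]
  refine CP_eq_of_close measurableSet_zero_measure _ _ fun A hA hA0 => ?_
  have hF : Measurable (A.indicator (1 : Measure (E d) → ℝ≥0∞)) := measurable_one.indicator hA
  have hF1 : ∀ μ, A.indicator (1 : Measure (E d) → ℝ≥0∞) μ ≤ 1 := fun μ =>
    Set.indicator_le_self' (fun _ _ => zero_le) μ
  have hF0 : A.indicator (1 : Measure (E d) → ℝ≥0∞) 0 = 0 := Set.indicator_of_notMem hA0 _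
  rw [← lintegral_indicator_one hA, ← lintegral_indicator_one hA,
    lintegral_map hF (measurable_reflM i L)]
  have key : ∀ ε : ℝ≥0, 0 < ε →
      ∫⁻ μ, A.indicator 1 (reflM i L μ) ∂(nuI W (√d * L + 1) (loc 0 L)) ≤
        ∫⁻ μ, A.indicator 1 μ ∂(nuI W (√d * L + 1) (loc 0 L)) + ε ∧
      ∫⁻ μ, A.indicator 1 μ ∂(nuI W (√d * L + 1) (loc 0 L)) ≤
        ∫⁻ μ, A.indicator 1 (reflM i L μ) ∂(nuI W (√d * L + 1) (loc 0 L)) + ε := by
    intro ε hε
    obtain ⟨τ, -, hτ⟩ := hW.ident_loc hd (R := √d * L + 1) (by positivity) (pla1_cube_ball hL)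
      (ε := (ε : ℝ≥0∞) / 2) (ENNReal.half_pos (ENNReal.coe_ne_zero.2 hε.ne'))
    obtain ⟨h1, h2⟩ := hτ τ le_rfl _ hF hF1 hF0
    obtain ⟨h3, h4⟩ := hτ τ le_rfl (fun μ => A.indicator 1 (reflM i L μ))
      (hF.comp (measurable_reflM i L)) (fun μ => hF1 _) (by rw [reflM_zero, hF0])
    rw [pla1_refl_int hW i L _ hF] at h3 h4
    constructor
    · refine h4.trans ((add_le_add_left h1 _).trans (le_of_eq ?_))
      rw [add_assoc, ENNReal.add_halves]
    · refine h2.trans ((add_le_add_left h3 _).trans (le_of_eq ?_))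
      rw [add_assoc, ENNReal.add_halves]
  exact le_antisymm (ENNReal.le_of_forall_pos_le_add fun ε hε _ => (key ε hε).1)
    (ENNReal.le_of_forall_pos_le_add fun ε hε _ => (key ε hε).2)

end Pool.Agent.Lib.MP_fe8b6f_pr
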