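import Pool.Agent.Lib.MP_fe8b6f_pr.Per

/-! Periodic plans: averaging formula and lifting of torus couplings. Part 1. -/

open MeasureTheory ProbabilityTheory
open scoped NNReal ENNReal

noncomputable section

namespace Pool.Agent.Lib.MP_fe8b6f_pr

variable {d : ℕ}

theorem ppla_sigmaFinite {γ : Measure (E d × E d)} (h : γ.map Prod.snd = volume) :
    SigmaFinite γ :=
  SigmaFinite.of_map γ measurable_snd.aemeasurable (by rw [h]; infer_instance)

theorem ppla_meas_sub (z : E d) :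
    Measurable fun q : E d × E d => ((q.1 - z, q.2 - z) : E d × E d) :=
  (measurable_fst.sub_const z).prodMk (measurable_snd.sub_const z)

theorem ppla_meas_add (z : E d) :
    Measurable fun q : E d × E d => ((q.1 + z, q.2 + z) : E d × E d) :=
  (measurable_fst.add_const z).prodMk (measurable_snd.add_const z)

theorem ppla_meas_cell (Λ : ℝ) : MeasurableSet {q : E d × E d | q.1 ∈ cube 0 Λ} :=
  measurable_fst (measurableSet_cube 0 Λ)

theorem PPlan.sigmaFinite {Λ : ℝ} {μ : Measure (E d)} {γ : Measure (E d × E d)}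
    (h : PPlan Λ μ γ) : SigmaFinite γ := by
  exact ppla_sigmaFinite h.snd

theorem sigmaFinite_of_snd {γ : Measure (E d × E d)} (h : γ.map Prod.snd = volume) :
    SigmaFinite γ := by
  exact ppla_sigmaFinite h

theorem shP_fst (z : E d) (γ : Measure (E d × E d)) :
    (shP z γ).map Prod.fst = sh z (γ.map Prod.fst) := by
  unfold shP sh
  rw [Measure.map_map measurable_fst (ppla_meas_sub z),
    Measure.map_map (measurable_id'.sub_const z) measurable_fst]
  rfl

theorem shP_snd (z : E d) {γ : Measure (E d × E d)} (h : γ.map Prod.snd = volume) :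
    (shP z γ).map Prod.snd = volume := by
  have h1 : (shP z γ).map Prod.snd = sh z (γ.map Prod.snd) := by
    unfold shP sh
    rw [Measure.map_map measurable_snd (ppla_meas_sub z),
      Measure.map_map (measurable_id'.sub_const z) measurable_snd]
    rfl
  rw [h1, h, sh_volume]

theorem PPlan.isPer_shP {Λ : ℝ} {μ : Measure (E d)} {γ : Measure (E d × E d)}
    (h : PPlan Λ μ γ) : IsPer Λ fun z => shP z γ := by
  intro x k
  show shP (x + Λ • lat k) γ = shP x γ
  unfold shP
  conv_lhs => rw [← h.inv k]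
  rw [Measure.map_map (ppla_meas_sub _) (ppla_meas_add _)]
  have e : ((fun q : E d × E d => ((q.1 - (x + Λ • lat k), q.2 - (x + Λ • lat k)) : E d × E d)) ∘
      fun q : E d × E d => ((q.1 + Λ • lat k, q.2 + Λ • lat k) : E d × E d)) =
      fun q : E d × E d => ((q.1 - x, q.2 - x) : E d × E d) := by
    funext q
    simp only [Function.comp_apply, add_sub_add_right_eq_sub]
  rw [e]

theorem lintegral_shP (z : E d) (γ : Measure (E d × E d)) {h : E d × E d → ℝ≥0∞}
    (hh : Measurable h) :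
    ∫⁻ q, h q ∂(shP z γ) = ∫⁻ q, h (q.1 - z, q.2 - z) ∂γ := by
  unfold shP
  rw [lintegral_map hh (ppla_meas_sub z)]

theorem ppla_meas_joint {h : E d × E d → ℝ≥0∞} (hh : Measurable h) :
    Measurable fun zq : E d × (E d × E d) => h (zq.2.1 - zq.1, zq.2.2 - zq.1) :=
  hh.comp ((measurable_snd.fst.sub measurable_fst).prodMk
    (measurable_snd.snd.sub measurable_fst))

theorem measurable_lintegral_shP {γ : Measure (E d × E d)} [SFinite γ] {h : E d × E d → ℝ≥0∞}
    (hh : Measurable h) : Measurable fun z => ∫⁻ q, h q ∂(shP z γ) := by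
  have e : (fun z => ∫⁻ q, h q ∂(shP z γ)) = fun z => ∫⁻ q, h (q.1 - z, q.2 - z) ∂γ := by
    funext z
    exact lintegral_shP z γ hh
  rw [e]
  exact (ppla_meas_joint hh).lintegral_prod_right'

/-- splitting of a periodic plan along the cells of the first coordinate -/
theorem ppla_split {Λ : ℝ} (hΛ : 0 < Λ) {μ : Measure (E d)} {γ : Measure (E d × E d)}
    (hγ : PPlan Λ μ γ) {h : E d × E d → ℝ≥0∞} (hh : Measurable h) (z : E d) :
    ∫⁻ q, h (q.1 - z, q.2 - z) ∂γ = ∑' k : Fin d → ℤ,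
      ∫⁻ q in {q : E d × E d | q.1 ∈ cube 0 Λ},
        h (q.1 - (z + Λ • lat k), q.2 - (z + Λ • lat k)) ∂γ := by
  set S : (Fin d → ℤ) → Set (E d × E d) := fun k => {q | q.1 + Λ • lat k ∈ cube 0 Λ} with hS
  have hSm : ∀ k, MeasurableSet (S k) := fun k =>
    (measurable_fst.add_const (Λ • lat k)) (measurableSet_cube 0 Λ)
  have hneg : ∀ (x : E d) (k : Fin d → ℤ), x - Λ • lat (-k) = x + Λ • lat k := by
    intro x k
    rw [lat_neg, smul_neg, sub_neg_eq_add]
  have hSd : Pairwise (Function.onFun Disjoint S) := by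
    intro k l hkl
    refine Set.disjoint_left.2 fun q hk hl => hkl ?_
    obtain ⟨m, -, hm⟩ := existsUnique_cell hΛ (0 : E d) q.1
    have h1 : -k = m := hm (-k) (by
      show q.1 - Λ • lat (-k) ∈ cube 0 Λ
      rw [hneg]; exact hk)
    have h2 : -l = m := hm (-l) (by
      show q.1 - Λ • lat (-l) ∈ cube 0 Λ
      rw [hneg]; exact hl)
    exact neg_injective (h1.trans h2.symm)
  have hSu : ⋃ k, S k = Set.univ := by
    refine Set.eq_univ_of_forall fun q => ?_
    obtain ⟨m, hm, -⟩ := existsUnique_cell hΛ (0 : E d) q.1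
    refine Set.mem_iUnion.2 ⟨-m, ?_⟩
    show q.1 + Λ • lat (-m) ∈ cube 0 Λ
    rw [← hneg, neg_neg]
    exact hm
  rw [← setLIntegral_univ, ← hSu, lintegral_iUnion hSm hSd]
  refine tsum_congr fun k => ?_
  have hg : Measurable fun q : E d × E d =>
      h (q.1 - (z + Λ • lat k), q.2 - (z + Λ • lat k)) := hh.comp (ppla_meas_sub _)
  conv_rhs => rw [← hγ.inv k]
  rw [setLIntegral_map (ppla_meas_cell Λ) hg (ppla_meas_add _)]
  simp only [add_sub_add_right_eq_sub]
  rfl

theorem ppla_lintegral_rho (Λ : ℝ) (γ : Measure (E d × E d)) {f : E d → ℝ≥0∞}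
    (hf : Measurable f) :
    ∫⁻ v, f v ∂(rho Λ γ) =
      (∫⁻ q in {q : E d × E d | q.1 ∈ cube 0 Λ}, f (q.1 - q.2) ∂γ) / ENNReal.ofReal (Λ ^ d) := by
  have hs : Measurable fun q : E d × E d => q.1 - q.2 := measurable_fst.sub measurable_snd
  unfold rho
  rw [lintegral_smul_measure, lintegral_map hf hs, smul_eq_mul, ENNReal.div_eq_inv_mul]

/-- averaging (mass transport) formula -/
theorem PPlan.avz_lintegral {Λ : ℝ} (hΛ : 0 < Λ) {μ : Measure (E d)} {γ : Measure (E d × E d)}
    (hγ : PPlan Λ μ γ) {h : E d × E d → ℝ≥0∞} (hh : Measurable h) :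
    avz Λ (fun z => ∫⁻ q, h q ∂(shP z γ)) = ∫⁻ v, (∫⁻ u, h (u, u - v)) ∂(rho Λ γ) := by
  have := hγ.sigmaFinite
  have hf : Measurable fun v : E d => ∫⁻ u, h (u, u - v) := by
    have : Measurable fun vu : E d × E d => h (vu.2, vu.2 - vu.1) :=
      hh.comp (measurable_snd.prodMk (measurable_snd.sub measurable_fst))
    exact this.lintegral_prod_right'
  rw [ppla_lintegral_rho Λ γ hf]
  unfold avz
  set Φ : E d → ℝ≥0∞ := fun z => ∫⁻ q in {q : E d × E d | q.1 ∈ cube 0 Λ},
    h (q.1 - z, q.2 - z) ∂γ with hΦ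
  have hΦm : Measurable Φ := (ppla_meas_joint hh).lintegral_prod_right'
  have e1 : ∫⁻ z in cube 0 Λ, ∫⁻ q, h q ∂(shP z γ) =
      ∫⁻ z in cube 0 Λ, ∑' k : Fin d → ℤ, Φ (z + Λ • lat k) := by
    refine lintegral_congr fun z => ?_
    rw [lintegral_shP z γ hh, ppla_split hΛ hγ hh z]
  have e2 : ∫⁻ z in cube 0 Λ, ∑' k : Fin d → ℤ, Φ (z + Λ • lat k) = ∫⁻ z, Φ z := by
    have hk : ∀ k : Fin d → ℤ, Measurable fun z => Φ (z + Λ • lat k) := fun k =>
      hΦm.comp (measurable_id'.add_const (Λ • lat k))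
    rw [lintegral_tsum fun k => (hk k).aemeasurable, lintegral_unfold hΛ hΦm]
  have e3 : ∫⁻ z, Φ z =
      ∫⁻ q in {q : E d × E d | q.1 ∈ cube 0 Λ}, (∫⁻ z, h (q.1 - z, q.2 - z)) ∂γ :=
    lintegral_lintegral_swap (ppla_meas_joint hh).aemeasurable
  have e4 : ∀ q : E d × E d, ∫⁻ z, h (q.1 - z, q.2 - z) = ∫⁻ u, h (u, u - (q.1 - q.2)) := by
    intro q
    rw [← lintegral_sub_left_eq_self (fun u => h (u, u - (q.1 - q.2))) q.1]
    refine lintegral_congr fun z => ?_
    have : q.1 - z - (q.1 - q.2) = q.2 - z := by abel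
    rw [this]
  rw [e1, e2, e3]
  simp only [e4]

theorem PPlan.isProbabilityMeasure_rho {Λ : ℝ} (hΛ : 0 < Λ) {μ : Measure (E d)}
    {γ : Measure (E d × E d)} (hγ : PPlan Λ μ γ) : IsProbabilityMeasure (rho Λ γ) := by
  have hA : MeasurableSet (cube (0 : E d) 1) := measurableSet_cube 0 1
  have hi : Measurable ((cube (0 : E d) 1).indicator (1 : E d → ℝ≥0∞)) :=
    measurable_one.indicator hA
  have hh : Measurable fun q : E d × E d => (cube (0 : E d) 1).indicator (1 : E d → ℝ≥0∞) q.2 :=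
    hi.comp measurable_snd
  have hv : volume (cube (0 : E d) 1) = 1 := by
    rw [volume_cube 0 zero_le_one, one_pow, ENNReal.ofReal_one]
  have key := hγ.avz_lintegral hΛ hh
  have e1 : (fun z => ∫⁻ q, (cube (0 : E d) 1).indicator (1 : E d → ℝ≥0∞) q.2 ∂(shP z γ)) =
      fun _ => 1 := by
    funext z
    rw [← lintegral_map hi measurable_snd, shP_snd z hγ.snd, lintegral_indicator_one hA, hv]
  have e2 : ∀ v : E d, ∫⁻ u, (cube (0 : E d) 1).indicator (1 : E d → ℝ≥0∞) (u - v) = 1 := by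
    intro v
    rw [lintegral_sub_right_eq_self ((cube (0 : E d) 1).indicator (1 : E d → ℝ≥0∞)) v,
      lintegral_indicator_one hA, hv]
  rw [e1, avz_const hΛ] at key
  simp only [e2, lintegral_const, one_mul] at key
  exact ⟨key.symm⟩

theorem lintegral_rho_cost (p : ℝ) {Λ : ℝ} (hΛ : 0 < Λ) (γ : Measure (E d × E d)) :
    ∫⁻ v, ‖v‖ₑ ^ p ∂(rho Λ γ) = CQ p Λ γ / ENNReal.ofReal (Λ ^ d) := by
  have hf : Measurable fun v : E d => ‖v‖ₑ ^ p := measurable_enorm.pow_const p
  have _ := hΛ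
  rw [ppla_lintegral_rho Λ γ hf]
  rfl

end Pool.Agent.Lib.MP_fe8b6f_pr
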