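import Pool.Agent.Lib.MP_fe8b6f_pr.PerA

/-! Periodic functions, periodisation of measures, averages over the period cell. Part 2. -/

open MeasureTheory ProbabilityTheory
open scoped NNReal ENNReal

noncomputable section

namespace Pool.Agent.Lib.MP_fe8b6f_pr

variable {d : ℕ}

theorem per_tsum (Λ : ℝ) (μ : Measure (E d)) {A : Set (E d)} (hA : MeasurableSet A) :
    per Λ μ A = ∑' k : Fin d → ℤ, μ ((fun x => x + Λ • lat k) ⁻¹' A) := by
  unfold per
  rw [Measure.sum_apply _ hA]
  exact tsum_congr fun k => Measure.map_apply (measurable_add_const _) hA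

theorem per_perS_eq (Λ : ℝ) (A : Set (E d)) :
    perS Λ A = ⋃ k : Fin d → ℤ, (fun x => x + Λ • lat k) ⁻¹' A := by
  ext x
  simp [perS]

theorem lintegral_per (Λ : ℝ) (μ : Measure (E d)) {f : E d → ℝ≥0∞} (hf : Measurable f) :
    ∫⁻ x, f x ∂(per Λ μ) = ∑' k : Fin d → ℤ, ∫⁻ x, f (x + Λ • lat k) ∂μ := by
  unfold per
  rw [lintegral_sum_measure]
  exact tsum_congr fun k => lintegral_map hf (measurable_add_const _)

theorem per_zero (Λ : ℝ) : per Λ (0 : Measure (E d)) = 0 := by
  refine Measure.ext_of_lintegral _ fun f hf => ?_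
  rw [lintegral_per _ _ hf]
  simp

theorem per_add (Λ : ℝ) (μ ν : Measure (E d)) : per Λ (μ + ν) = per Λ μ + per Λ ν := by
  refine Measure.ext_of_lintegral _ fun f hf => ?_
  rw [lintegral_add_measure, lintegral_per _ _ hf, lintegral_per _ _ hf, lintegral_per _ _ hf,
    ← ENNReal.tsum_add]
  exact tsum_congr fun k => lintegral_add_measure _ _ _

theorem per_smul (Λ : ℝ) (r : ℝ≥0∞) (μ : Measure (E d)) : per Λ (r • μ) = r • per Λ μ := by
  refine Measure.ext_of_lintegral _ fun f hf => ?_
  rw [lintegral_smul_measure, lintegral_per _ _ hf, lintegral_per _ _ hf, smul_eq_mul,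
    ← ENNReal.tsum_mul_left]
  exact tsum_congr fun k => lintegral_smul_measure _ _

theorem measurable_per (Λ : ℝ) : Measurable (per Λ : Measure (E d) → Measure (E d)) := by
  refine Measure.measurable_of_measurable_coe _ fun A hA => ?_
  simp only [per_tsum Λ _ hA]
  exact Measurable.tsum fun k => Measure.measurable_coe (measurable_add_const _ hA)

theorem sh_per (Λ : ℝ) (a : E d) (μ : Measure (E d)) : sh a (per Λ μ) = per Λ (sh a μ) := by
  refine Measure.ext_of_lintegral _ fun f hf => ?_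
  have h1 : Measurable fun x : E d => x - a := measurable_sub_const a
  unfold sh
  rw [lintegral_map hf h1, lintegral_per _ _ (f := fun x => f (x - a)) (hf.comp h1),
    lintegral_per _ _ hf]
  refine tsum_congr fun k => ?_
  rw [lintegral_map (f := fun x => f (x + Λ • lat k)) (hf.comp (measurable_add_const _)) h1]
  simp only [add_sub_right_comm]

/-- the periodisation only depends on the measure modulo the lattice -/
theorem per_map_of_lat {X : Type*} [MeasurableSpace X] (Λ : ℝ) (ρ : Measure X) {f : X → E d}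
    (hf : Measurable f) {k : X → Fin d → ℤ} (hk : Measurable k) :
    per Λ (ρ.map fun x => f x + Λ • lat (k x)) = per Λ (ρ.map f) := by
  refine Measure.ext_of_lintegral _ fun F hF => ?_
  have hl : Measurable fun x => Λ • lat (k x) :=
    (measurable_of_countable fun l : Fin d → ℤ => (Λ • lat l : E d)).comp hk
  have key : ∀ g : X → E d, Measurable g →
      ∫⁻ x, F x ∂(per Λ (ρ.map g)) = ∫⁻ x, ∑' l : Fin d → ℤ, F (g x + Λ • lat l) ∂ρ := by
    intro g hg
    rw [lintegral_per _ _ hF, lintegral_tsum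
      (f := fun (l : Fin d → ℤ) x => F (g x + Λ • lat l)) fun l =>
        (hF.comp (hg.add_const (Λ • lat l))).aemeasurable]
    exact tsum_congr fun l =>
      lintegral_map (f := fun x => F (x + Λ • lat l)) (hF.comp (measurable_add_const _)) hg
  rw [key (fun x => f x + Λ • lat (k x)) (hf.add hl), key _ hf]
  refine lintegral_congr fun x => ?_
  rw [← (Equiv.addLeft (k x)).tsum_eq fun l => F (f x + Λ • lat l)]
  refine tsum_congr fun l => ?_
  rw [Equiv.coe_addLeft, lat_add, smul_add, add_assoc]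

theorem per_volume_cell {Λ : ℝ} (hΛ : 0 < Λ) :
    per Λ ((volume : Measure (E d)).restrict (cube 0 Λ)) = volume := by
  refine Measure.ext_of_lintegral _ fun f hf => ?_
  rw [lintegral_per _ _ hf, lintegral_unfold hΛ hf]

theorem per_cube_ne_top {Λ : ℝ} (hΛ : 0 < Λ) {μ : Measure (E d)} (hμ : μ Set.univ ≠ ⊤)
    (z : E d) (L : ℝ) : per Λ μ (cube z L) ≠ ⊤ := by
  have cell : ∀ a : E d, per Λ μ (cube a Λ) ≤ μ Set.univ := by
    intro a
    rw [per_tsum Λ μ (measurableSet_cube _ _), ← measure_iUnion ?_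
      fun k => measurable_add_const _ (measurableSet_cube _ _)]
    · exact measure_mono (Set.subset_univ _)
    · intro k l hkl
      rw [Function.onFun, Set.disjoint_left]
      intro x hk hl
      apply hkl
      refine neg_injective ((existsUnique_cell hΛ a x).unique ?_ ?_)
      · rw [lat_neg, smul_neg, sub_neg_eq_add]
        exact hk
      · rw [lat_neg, smul_neg, sub_neg_eq_add]
        exact hl
  obtain ⟨n, hn⟩ := exists_nat_ge (L / Λ)
  have hm : (0 : ℝ) < ((n + 1 : ℕ) : ℝ) := by exact_mod_cast n.succ_pos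
  have hL : L ≤ ((n + 1 : ℕ) : ℝ) * Λ := by
    rw [div_le_iff₀ hΛ] at hn
    push_cast
    nlinarith
  have h1 : cube z L ⊆ cube z (((n + 1 : ℕ) : ℝ) * Λ) := fun x hx i =>
    ⟨(hx i).1, (hx i).2.trans_le (by linarith)⟩
  refine ne_top_of_le_ne_top ?_ (measure_mono h1)
  rw [measure_cube_eq_sum _ z (mul_pos hm hΛ) n.succ_pos]
  refine ENNReal.sum_ne_top.2 fun j _ => ne_top_of_le_ne_top hμ ?_
  unfold gc
  rw [mul_div_cancel_left₀ Λ hm.ne']
  exact cell _

theorem per_apply_ne_zero {Λ : ℝ} {μ : Measure (E d)} {A : Set (E d)} (hA : MeasurableSet A)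
    (h : per Λ μ A ≠ 0) : μ (perS Λ A) ≠ 0 := by
  intro h0
  apply h
  rw [per_tsum Λ μ hA, ENNReal.tsum_eq_zero]
  exact fun k => measure_mono_null (t := perS Λ A) (fun x hx => ⟨k, hx⟩) h0

theorem measurableSet_perS (Λ : ℝ) {A : Set (E d)} (hA : MeasurableSet A) :
    MeasurableSet (perS Λ A) := by
  rw [per_perS_eq]
  exact MeasurableSet.iUnion fun k => measurable_add_const _ hA

theorem isPer_indicator_perS (Λ : ℝ) (A : Set (E d)) :
    IsPer Λ ((perS Λ A).indicator (1 : E d → ℝ≥0∞)) := by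
  intro x k
  have h : x + Λ • lat k ∈ perS Λ A ↔ x ∈ perS Λ A := by
    constructor
    · rintro ⟨l, hl⟩
      exact ⟨k + l, by rwa [lat_add, smul_add, ← add_assoc]⟩
    · rintro ⟨l, hl⟩
      refine ⟨-k + l, ?_⟩
      rwa [lat_add, lat_neg, smul_add, smul_neg, ← add_assoc, add_neg_cancel_right]
  by_cases hx : x ∈ perS Λ A
  · rw [Set.indicator_of_mem hx, Set.indicator_of_mem (h.2 hx)]
    rfl
  · rw [Set.indicator_of_notMem hx, Set.indicator_of_notMem fun h' => hx (h.1 h')]

theorem volume_cell_inter_perS {Λ : ℝ} (hΛ : 0 < Λ) {A : Set (E d)} (hA : MeasurableSet A) :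
    volume (cube 0 Λ ∩ perS Λ A) ≤ volume A := by
  rw [Set.inter_comm, ← Measure.restrict_apply (measurableSet_perS Λ hA), per_perS_eq]
  refine (measure_iUnion_le _).trans (le_of_eq ?_)
  rw [← per_tsum Λ _ hA, per_volume_cell hΛ]

theorem thickening_perS (Λ r : ℝ) (A : Set (E d)) :
    Metric.thickening r (perS Λ A) ⊆ perS Λ (Metric.thickening r A) := by
  intro x hx
  obtain ⟨y, ⟨k, hk⟩, hxy⟩ := Metric.mem_thickening_iff.1 hx
  exact ⟨k, Metric.mem_thickening_iff.2 ⟨_, hk, by rwa [dist_add_right]⟩⟩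

end Pool.Agent.Lib.MP_fe8b6f_pr
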