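import Pool.Agent.Lib.MP_fe8b6f_pr.OTa
import Pool.Agent.Lib.MP_fe8b6f_pr.Grid

/-! Periodic functions, periodisation of measures, averages over the period cell. Part 1. -/

open MeasureTheory ProbabilityTheory
open scoped NNReal ENNReal

noncomputable section

namespace Pool.Agent.Lib.MP_fe8b6f_pr

variable {d : ℕ}

theorem lat_add (k l : Fin d → ℤ) : lat (k + l) = lat k + lat l := by
  ext i
  simp [lat]

theorem lat_neg (k : Fin d → ℤ) : lat (-k) = -lat k := by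
  ext i
  simp [lat]

theorem lat_zero : lat (0 : Fin d → ℤ) = 0 := by
  ext i
  simp [lat]

theorem pera_mem {Λ : ℝ} (hΛ : 0 < Λ) (a x : E d) (k : Fin d → ℤ) :
    x - Λ • lat k ∈ cube a Λ ↔ (fun i => ⌊(x i - a i) / Λ⌋) = k := by
  rw [funext_iff]
  refine forall_congr' fun i => ?_
  rw [Int.floor_eq_iff, le_div_iff₀ hΛ, div_lt_iff₀ hΛ]
  change a i ≤ x i - Λ * k i ∧ x i - Λ * k i < a i + Λ ↔ _
  constructor <;> rintro ⟨h1, h2⟩ <;> constructor <;> linarith

/-- every point lies in exactly one translate of the period cell -/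
theorem existsUnique_cell {Λ : ℝ} (hΛ : 0 < Λ) (a x : E d) :
    ∃! k : Fin d → ℤ, x - Λ • lat k ∈ cube a Λ := by
  simp only [pera_mem hΛ]
  exact ⟨_, rfl, fun k hk => hk.symm⟩

/-- unfolding of an integral against any measure -/
theorem lintegral_eq_tsum_cells {Λ : ℝ} (hΛ : 0 < Λ) (μ : Measure (E d)) (f : E d → ℝ≥0∞) :
    ∫⁻ x, f x ∂μ = ∑' k : Fin d → ℤ, ∫⁻ x in cube (Λ • lat k) Λ, f x ∂μ := by
  have hc : ∀ (k : Fin d → ℤ) (x : E d), x ∈ cube (Λ • lat k) Λ ↔ x - Λ • lat k ∈ cube 0 Λ := by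
    intro k x
    rw [← add_zero (Λ • lat k), ← preimage_sub_cube, add_zero]
    rfl
  have hU : ⋃ k : Fin d → ℤ, cube (Λ • lat k) Λ = Set.univ := by
    refine Set.eq_univ_of_forall fun x => ?_
    obtain ⟨k, hk, -⟩ := existsUnique_cell hΛ 0 x
    exact Set.mem_iUnion.2 ⟨k, (hc k x).2 hk⟩
  rw [← lintegral_iUnion (fun k => measurableSet_cube _ _), hU, Measure.restrict_univ]
  intro k l hkl
  refine Set.disjoint_left.2 fun x hk hl => hkl ?_
  exact (existsUnique_cell hΛ 0 x).unique ((hc k x).1 hk) ((hc l x).1 hl)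

theorem pera_translate (a b : E d) (s : ℝ) (f : E d → ℝ≥0∞) :
    ∫⁻ x in cube (b + a) s, f x = ∫⁻ x in cube a s, f (x + b) := by
  have h := preimage_sub_cube (-b) (b + a) s
  simp only [sub_neg_eq_add, neg_add_cancel_left] at h
  rw [← h]
  exact ((measurePreserving_add_right (volume : Measure (E d)) b).setLIntegral_comp_preimage_emb
    (measurableEmbedding_addRight b) f _).symm

theorem lintegral_unfold {Λ : ℝ} (hΛ : 0 < Λ) {f : E d → ℝ≥0∞} (hf : Measurable f) :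
    ∫⁻ x, f x = ∑' k : Fin d → ℤ, ∫⁻ x in cube 0 Λ, f (x + Λ • lat k) := by
  have _ := hf
  rw [lintegral_eq_tsum_cells hΛ]
  refine tsum_congr fun k => ?_
  rw [← pera_translate, add_zero]

theorem pera_cell {Λ : ℝ} (hΛ : 0 < Λ) {φ : E d → ℝ≥0∞} (hφ : Measurable φ)
    (hper : IsPer Λ φ) (a : E d) : ∫⁻ z in cube a Λ, φ z = ∫⁻ z in cube 0 Λ, φ z := by
  have hi := hφ.indicator (measurableSet_cube a Λ)
  have hk : ∀ k : Fin d → ℤ, Measurable fun x => (cube a Λ).indicator φ (x + Λ • lat k) :=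
    fun k => hi.comp (measurable_add_const (Λ • lat k))
  rw [← lintegral_indicator (measurableSet_cube a Λ), lintegral_unfold hΛ hi, ← lintegral_tsum
    (fun k => (hk k).aemeasurable)]
  refine lintegral_congr fun x => ?_
  obtain ⟨k, hk, hu⟩ := existsUnique_cell hΛ a x
  rw [tsum_eq_single (-k)]
  · rw [Set.indicator_of_mem, hper]
    rwa [lat_neg, smul_neg, ← sub_eq_add_neg]
  · intro l hl
    refine Set.indicator_of_notMem (fun h => hl ?_) _
    have h1 : x - Λ • lat (-l) ∈ cube a Λ := by rwa [lat_neg, smul_neg, sub_neg_eq_add]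
    rw [← hu (-l) h1, neg_neg]

theorem setLIntegral_per_shift {Λ : ℝ} (hΛ : 0 < Λ) {φ : E d → ℝ≥0∞} (hφ : Measurable φ)
    (hper : IsPer Λ φ) (a : E d) :
    ∫⁻ z in cube 0 Λ, φ (z + a) = ∫⁻ z in cube 0 Λ, φ z := by
  rw [← pera_translate, pera_cell hΛ hφ hper]

theorem avz_shift {Λ : ℝ} (hΛ : 0 < Λ) {φ : E d → ℝ≥0∞} (hφ : Measurable φ) (hper : IsPer Λ φ)
    (a : E d) : avz Λ (fun z => φ (z + a)) = avz Λ φ := by
  rw [avz, avz, setLIntegral_per_shift hΛ hφ hper]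

theorem avz_mono (Λ : ℝ) {φ ψ : E d → ℝ≥0∞} (h : ∀ z, φ z ≤ ψ z) : avz Λ φ ≤ avz Λ ψ := by
  exact ENNReal.div_le_div_right (lintegral_mono h) _

theorem avz_const {Λ : ℝ} (hΛ : 0 < Λ) (c : ℝ≥0∞) : avz (d := d) Λ (fun _ => c) = c := by
  rw [avz, setLIntegral_const, volume_cube 0 hΛ.le]
  exact ENNReal.mul_div_cancel_right (ENNReal.ofReal_pos.2 (pow_pos hΛ d)).ne'
    ENNReal.ofReal_ne_top

theorem avz_add (Λ : ℝ) {φ : E d → ℝ≥0∞} (hφ : Measurable φ) (ψ : E d → ℝ≥0∞) :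
    avz Λ (fun z => φ z + ψ z) = avz Λ φ + avz Λ ψ := by
  rw [avz, avz, avz, lintegral_add_left hφ, ENNReal.add_div]

theorem avz_const_mul (Λ : ℝ) {c : ℝ≥0∞} (hc : c ≠ ⊤) (φ : E d → ℝ≥0∞) :
    avz Λ (fun z => c * φ z) = c * avz Λ φ := by
  rw [avz, avz, lintegral_const_mul' _ _ hc, mul_div_assoc]

theorem avz_sum {ι : Type*} (Λ : ℝ) (s : Finset ι) {φ : ι → E d → ℝ≥0∞}
    (hφ : ∀ i, Measurable (φ i)) :
    avz Λ (fun z => ∑ i ∈ s, φ i z) = ∑ i ∈ s, avz Λ (φ i) := by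
  simp only [avz]
  rw [lintegral_finsetSum _ (fun i _ => hφ i), div_eq_mul_inv, Finset.sum_mul]
  simp only [div_eq_mul_inv]

/-- a periodic function integrates over a cube of side `m Λ` to `m ^ d` times the cell -/
theorem setLIntegral_per_cube {Λ : ℝ} (hΛ : 0 < Λ) {φ : E d → ℝ≥0∞} (hφ : Measurable φ)
    (hper : IsPer Λ φ) (a : E d) (m : ℕ) :
    ∫⁻ z in cube a (m * Λ), φ z = (m : ℝ≥0∞) ^ d * ∫⁻ z in cube 0 Λ, φ z := by
  rcases Nat.eq_zero_or_pos m with rfl | hm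
  · rcases Nat.eq_zero_or_pos d with rfl | hd
    · have e : ∀ (b : E 0) (s : ℝ), cube b s = Set.univ := fun b s =>
        Set.eq_univ_of_forall fun x i => i.elim0
      rw [e, e, pow_zero, one_mul]
    · have e : cube a (((0 : ℕ) : ℝ) * Λ) = ∅ := by
        refine Set.eq_empty_of_forall_notMem fun x hx => ?_
        have := hx ⟨0, hd⟩
        simp only [Nat.cast_zero, zero_mul, add_zero] at this
        linarith [this.1, this.2]
      rw [e, Measure.restrict_empty, lintegral_zero_measure, Nat.cast_zero, zero_pow hd.ne',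
        zero_mul]
  · have hm' : (0 : ℝ) < m := Nat.cast_pos.2 hm
    rw [restrict_cube_eq_sum volume a (mul_pos hm' hΛ) hm, lintegral_finsetSum_measure]
    have e : ∀ j, ∫⁻ z in gc a (m * Λ) m j, φ z = ∫⁻ z in cube 0 Λ, φ z := fun j => by
      rw [gc, mul_div_cancel_left₀ Λ hm'.ne', pera_cell hΛ hφ hper]
    simp only [e]
    rw [Finset.sum_const, Finset.card_univ, Fintype.card_fun, Fintype.card_fin, Fintype.card_fin,
      nsmul_eq_mul, Nat.cast_pow]

end Pool.Agent.Lib.MP_fe8b6f_pr
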