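import Pool.Agent.Lib.MP_fe8b6f_pr.OTa
import Pool.Agent.Lib.MP_fe8b6f_pr.Grid
import Pool.Agent.Lib.MP_fe8b6f_pr.DefsEq

/-! Empty cells force a transport cost. -/

open MeasureTheory ProbabilityTheory
open scoped NNReal ENNReal

noncomputable section

namespace Pool.Agent.Lib.MP_fe8b6f_pr

variable {d : ℕ}

/-- middle cube of `cube a s` -/
def pos1_mid (a : E d) (s : ℝ) : Set (E d) :=
  cube (a + WithLp.toLp 2 fun _ => s / 4) (s / 2)

theorem pos1_mid_subset (a : E d) (s : ℝ) : pos1_mid a s ⊆ cube a s := by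
  intro x hx i
  have h := hx i
  simp only [PiLp.add_apply] at h
  constructor <;> linarith [h.1, h.2]

theorem pos1_far {a x y : E d} {s : ℝ} (hx : x ∉ cube a s) (hy : y ∈ pos1_mid a s) :
    s / 4 ≤ ‖x - y‖ := by
  simp only [cube, Set.mem_ofPred_eq, not_forall] at hx
  obtain ⟨i, hi⟩ := hx
  have h := hy i
  simp only [PiLp.add_apply] at h
  refine le_trans ?_ (abs_coord_le_norm (x - y) i)
  rw [PiLp.sub_apply]
  rcases not_and_or.1 hi with h1 | h1
  · exact le_abs.2 (Or.inr (by linarith [h.1, not_le.1 h1]))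
  · exact le_abs.2 (Or.inl (by linarith [h.2, not_lt.1 h1]))

/-- the uniform mass in the middle cube (side `s / 2`, `s = L / m`) of an empty cell comes from
outside the cell, at distance at least `s / 4` -/
theorem G_void {p L : ℝ} (hp : 0 < p) (hL : 0 < L) {m : ℕ} (hm : 0 < m) (μ : Measure (E d))
    (S : Finset (Fin d → Fin m)) (hS : ∀ j ∈ S, μ (gc 0 L m j) = 0) :
    (S.card : ℝ≥0∞) * (μ (cube 0 L) / volume (cube (0 : E d) L) *
      ENNReal.ofReal ((L / m / 2) ^ d) * ENNReal.ofReal (L / m / 4) ^ p) ≤ G p L 0 μ := by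
  have hm' : (0 : ℝ) < m := by exact_mod_cast hm
  have hs : 0 < L / m := by positivity
  set U : Set (E d) := ⋃ j ∈ S, pos1_mid (gcorner 0 L m j) (L / m) with hU
  have hmid : ∀ j, MeasurableSet (pos1_mid (gcorner (0 : E d) L m j) (L / m)) := fun j =>
    measurableSet_cube _ _
  have hUm : MeasurableSet U := S.measurableSet_biUnion fun j _ => hmid j
  have hUsub : U ⊆ cube 0 L := Set.iUnion₂_subset fun j _ =>
    (pos1_mid_subset _ _).trans (gc_subset 0 hL.le m j)
  have hUvol : volume U = S.card * ENNReal.ofReal ((L / m / 2) ^ d) := by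
    rw [hU, measure_biUnion_finset _ fun j _ => hmid j]
    · have hv : ∀ j, volume (pos1_mid (gcorner (0 : E d) L m j) (L / m)) =
          ENNReal.ofReal ((L / m / 2) ^ d) := fun j => volume_cube _ (by positivity)
      rw [Finset.sum_congr rfl fun j _ => hv j, Finset.sum_const, nsmul_eq_mul]
    · intro j _ j' _ hjj'
      exact (gc_disjoint (0 : E d) hL m hjj').mono (pos1_mid_subset _ _)
        (pos1_mid_subset _ _)
  unfold G Wp Wc
  refine le_iInf fun π => le_iInf fun h1 => le_iInf fun h2 => ?_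
  have hae : ∀ᵐ z ∂π, ∀ j ∈ S, z.1 ∉ gc 0 L m j := by
    refine (Filter.eventually_all_finset S).2 fun j hj => ?_
    have h0 : π (Prod.fst ⁻¹' gc 0 L m j) = 0 := by
      rw [← Measure.map_apply measurable_fst (measurableSet_gc 0 L m j), h1]
      exact le_antisymm ((Measure.restrict_apply_le _ _).trans (hS j hj).le) bot_le
    exact measure_eq_zero_iff_ae_notMem.1 h0
  have hπU : π (Prod.snd ⁻¹' U) =
      μ (cube 0 L) / volume (cube (0 : E d) L) * (S.card * ENNReal.ofReal ((L / m / 2) ^ d)) := by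
    rw [← Measure.map_apply measurable_snd hUm, h2, neg_zero, Measure.smul_apply,
      Measure.restrict_apply hUm, Set.inter_eq_left.2 hUsub, hUvol, smul_eq_mul]
  calc (S.card : ℝ≥0∞) * (μ (cube 0 L) / volume (cube (0 : E d) L) *
        ENNReal.ofReal ((L / m / 2) ^ d) * ENNReal.ofReal (L / m / 4) ^ p)
      = ENNReal.ofReal (L / m / 4) ^ p * π (Prod.snd ⁻¹' U) := by rw [hπU]; ring
    _ = ∫⁻ z, (Prod.snd ⁻¹' U).indicator (fun _ => ENNReal.ofReal (L / m / 4) ^ p) z ∂π := by
        rw [lintegral_indicator_const (measurable_snd hUm)]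
    _ ≤ _ := by
        refine lintegral_mono_ae (hae.mono fun z hz => ?_)
        by_cases hzU : z ∈ Prod.snd ⁻¹' U
        · rw [Set.indicator_of_mem hzU]
          obtain ⟨j, hj, hzj⟩ := Set.mem_iUnion₂.1 hzU
          have h3 := pos1_far (hz j hj) hzj
          refine ENNReal.rpow_le_rpow ?_ hp.le
          rw [← ofReal_norm]
          exact ENNReal.ofReal_le_ofReal h3
        · rw [Set.indicator_of_notMem hzU]
          exact bot_le

theorem PL_void (W : Measure (Path d)) (L : ℝ) : PL W L {μ | μ (cube 0 L) = 0} ≠ 0 := by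
  unfold PL CP
  intro h
  have h1 := (Measure.le_sum (fun k : ℕ =>
    ENNReal.ofReal (Real.exp (-((nuI W (√d * L + 1) (loc 0 L)) Set.univ).toReal) /
      (Nat.factorial k : ℝ)) • cpow (nuI W (√d * L + 1) (loc 0 L)) k) 0)
    {μ | μ (cube 0 L) = 0}
  rw [h, Measure.smul_apply, cpow, Measure.dirac_apply_of_mem (by simp), smul_eq_mul, mul_one,
    nonpos_iff_eq_zero, ENNReal.ofReal_eq_zero] at h1
  exact absurd h1 (not_le.2 (by positivity))

end Pool.Agent.Lib.MP_fe8b6f_pr
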