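import Pool.Agent.Lib.MP_fe8b6f_pr.Pos1
import Pool.Agent.Lib.MP_fe8b6f_pr.ConcA1

/-! Positivity of the limit. -/

open MeasureTheory ProbabilityTheory
open scoped NNReal ENNReal

noncomputable section

namespace Pool.Agent.Lib.MP_fe8b6f_pr

variable {d : ℕ}

theorem pos2_meas (a : E d) (s : ℝ) : MeasurableSet {μ : Measure (E d) | μ (cube a s) = 0} :=
  Measure.measurable_coe (measurableSet_cube a s) (measurableSet_singleton 0)

theorem pos2_void {P : ℝ → Measure (Measure (E d))} (hP : Fam P) {L s : ℝ} {a : E d} (hL : 0 < L)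
    (hs : 0 < s) (hs2 : s ≤ 2) (hsub : cube a s ⊆ cube 0 L) :
    P 2 {μ | μ (cube 0 2) = 0} ≤ P L {μ | μ (cube a s) = 0} := by
  have key : ∀ (L : ℝ) (a : E d), 0 < L → cube a s ⊆ cube 0 L →
      P L {μ | μ (cube a s) = 0} = P s {μ | μ (cube 0 s) = 0} := by
    intro L a hL hsub
    rw [← hP.stat L s a hs hL hsub, Measure.map_apply (measurable_loc a s) (pos2_meas 0 s)]
    congr 1
    ext μ
    simp [loc_cube]
  have h2 : cube (0 : E d) s ⊆ cube 0 2 :=
    fun x hx i => ⟨(hx i).1, (hx i).2.trans_le (by linarith)⟩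
  rw [key L a hL hsub, ← key 2 0 two_pos h2]
  exact measure_mono fun μ hμ => measure_mono_null h2 hμ

theorem pos2_bad {P : ℝ → Measure (Measure (E d))} (hP : Fam P) (hd : 3 ≤ d) {ε : ℝ≥0∞}
    (hε : 0 < ε) :
    ∀ᶠ L : ℝ in Filter.atTop, P L {μ | (μ (cube 0 L)).toReal < L ^ d / 2} ≤ ε := by
  obtain ⟨C, hC⟩ := hP.mass_dev
  have ht : Filter.Tendsto (fun L : ℝ => ENNReal.ofReal (2 * |C| * L ^ (-(1 / 2 : ℝ))))
      Filter.atTop (nhds 0) := by
    have := ENNReal.tendsto_ofReal ((tendsto_rpow_neg_atTop (y := 1 / 2) (by norm_num)).const_mul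
      (2 * |C|))
    simpa using this
  filter_upwards [ht.eventually (ge_mem_nhds hε), Filter.eventually_ge_atTop 1] with L h1 hL
  have hL0 : 0 < L := by linarith
  have hT : 0 < L ^ d / 2 := by positivity
  have hm : Measurable fun μ : Measure (E d) =>
      ENNReal.ofReal |(μ (cube 0 L)).toReal - L ^ d| :=
    ((Measure.measurable_coe (measurableSet_cube 0 L)).ennreal_toReal.sub_const _).abs.ennreal_ofReal
  refine le_trans ?_ h1
  refine (measure_mono fun μ hμ => ?_).trans ((meas_ge_le_lintegral_div hm.aemeasurable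
    (ENNReal.ofReal_pos.2 hT).ne' ENNReal.ofReal_ne_top).trans ?_)
  · refine ENNReal.ofReal_le_ofReal ?_
    have h2 : (μ (cube 0 L)).toReal < L ^ d / 2 := hμ
    rw [le_abs]
    right
    linarith
  · refine (ENNReal.div_le_div_right (hC L hL) _).trans ?_
    rw [← ENNReal.ofReal_div_of_pos hT]
    refine ENNReal.ofReal_le_ofReal ((div_le_iff₀ hT).2 ?_)
    have hd' : (3 : ℝ) ≤ d := by exact_mod_cast hd
    have h2 : L ^ (((d : ℝ) + 2) / 2) ≤ L ^ (-(1 / 2 : ℝ)) * L ^ d := by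
      rw [← Real.rpow_natCast, ← Real.rpow_add hL0]
      exact Real.rpow_le_rpow_of_exponent_le hL (by linarith)
    calc C * L ^ (((d : ℝ) + 2) / 2) ≤ |C| * (L ^ (-(1 / 2 : ℝ)) * L ^ d) :=
          mul_le_mul (le_abs_self C) h2 (by positivity) (abs_nonneg C)
      _ = _ := by ring

theorem pos2_point {p L : ℝ} (hp : 0 < p) (hL : 0 < L) {m : ℕ} (hm : 0 < m) (hs : 1 ≤ L / m)
    {μ : Measure (E d)} (hμ : μ (cube 0 L) ≠ ⊤) :
    ∑ j : Fin d → Fin m, ({μ : Measure (E d) | μ (gc 0 L m j) = 0} \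
      {μ | (μ (cube 0 L)).toReal < L ^ d / 2}).indicator (fun _ => ENNReal.ofReal (1 / 2) *
        ENNReal.ofReal ((1 / 2) ^ d) * ENNReal.ofReal (1 / 4) ^ p) μ ≤ Gf p L 0 μ := by
  classical
  by_cases hB : (μ (cube 0 L)).toReal < L ^ d / 2
  · rw [Finset.sum_eq_zero fun j _ => Set.indicator_of_notMem (fun h => h.2 hB) _]
    exact zero_le
  rw [Gf, if_neg hμ]
  refine le_trans ?_ (G_void hp hL hm μ (Finset.univ.filter fun j => μ (gc 0 L m j) = 0)
    fun j hj => (Finset.mem_filter.1 hj).2)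
  rw [← nsmul_eq_mul, ← Finset.sum_const, Finset.sum_filter]
  refine Finset.sum_le_sum fun j _ => ?_
  split_ifs with hj
  · refine (Set.indicator_le_self _ _ μ).trans ?_
    gcongr
    · rw [volume_cube 0 hL.le, ENNReal.le_div_iff_mul_le (Or.inl (by simp [hL]))
        (Or.inl ENNReal.ofReal_ne_top), ← ENNReal.ofReal_mul (by norm_num),
        ENNReal.ofReal_le_iff_le_toReal hμ]
      linarith
  · rw [Set.indicator_of_notMem fun h => hj h.1]

/-- grid `m = ⌊L⌋`, cells of side in `[1, 2]` are empty with probability at least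
`q = P 2 {μ (cube 0 2) = 0}` (stationarity), and the total mass is at least `L ^ d / 2` with high
probability (`mass_dev`) -/
theorem Fam.cInf_pos {P : ℝ → Measure (Measure (E d))} (hP : Fam P) (hd : 3 ≤ d) {p : ℝ}
    (hp : 0 < p) (hv : P 2 {μ | μ (cube 0 2) = 0} ≠ 0) : 0 < cInf p P := by
  set q := P 2 {μ | μ (cube 0 2) = 0} with hq
  set c := ENNReal.ofReal (1 / 2) * ENNReal.ofReal ((1 / 2) ^ d) * ENNReal.ofReal (1 / 4) ^ p
    with hc
  have hq2 : 0 < q / 2 := ENNReal.half_pos hv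
  have hc0 : c ≠ 0 := by simp [hc]
  have hqt : q ≠ ⊤ := by
    have := hP.prob 2 two_pos
    exact measure_ne_top _ _
  refine lt_of_lt_of_le (b := ENNReal.ofReal ((1 / 2) ^ d) * (c * (q / 2)))
    (ENNReal.mul_pos (by simp) (mul_ne_zero hc0 hq2.ne'))
    (Filter.le_liminf_of_le (by isBoundedDefault) ?_)
  filter_upwards [pos2_bad hP hd hq2, Filter.eventually_ge_atTop 1] with L hB hL
  have hL0 : 0 < L := by linarith
  set m := ⌊L⌋₊ with hm
  have hm0 : 0 < m := Nat.floor_pos.2 hL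
  have hm1 : (1 : ℝ) ≤ m := by exact_mod_cast hm0
  have hm2 : (m : ℝ) ≤ L := Nat.floor_le hL0.le
  have hm3 : L < m + 1 := Nat.lt_floor_add_one L
  have hmB : MeasurableSet {μ : Measure (E d) | (μ (cube 0 L)).toReal < L ^ d / 2} :=
    measurableSet_lt (Measure.measurable_coe (measurableSet_cube 0 L)).ennreal_toReal
      measurable_const
  have hA : ∀ j : Fin d → Fin m, MeasurableSet ({μ : Measure (E d) | μ (gc 0 L m j) = 0} \
      {μ | (μ (cube 0 L)).toReal < L ^ d / 2}) := fun j => (pos2_meas _ _).diff hmB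
  have h1 := lintegral_mono_ae ((hP.ae_fin hL0).mono fun μ hμ =>
    pos2_point hp hL0 hm0 ((one_le_div (by linarith)).2 hm2) hμ)
  rw [lintegral_finsetSum _ fun j _ => measurable_const.indicator (hA j)] at h1
  have h2 : ∑ _j : Fin d → Fin m, c * (q / 2) ≤ ∫⁻ μ, Gf p L 0 μ ∂(P L) := by
    refine le_trans (Finset.sum_le_sum fun j _ => ?_) h1
    rw [lintegral_indicator_const (hA j)]
    gcongr
    refine le_trans ?_ le_measure_sdiff
    rw [← ENNReal.sub_half hqt]
    exact tsub_le_tsub (pos2_void hP hL0 (by positivity)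
      ((div_le_iff₀ (by linarith)).2 (by linarith)) (gc_subset 0 hL0.le m j)) hB
  rw [cL, ENNReal.le_div_iff_mul_le (Or.inl (by simp [hL0])) (Or.inl ENNReal.ofReal_ne_top)]
  refine le_trans ?_ h2
  rw [Finset.sum_const, nsmul_eq_mul, mul_right_comm, ← ENNReal.ofReal_mul (by positivity),
    ← mul_pow]
  gcongr
  rw [Finset.card_univ, Fintype.card_fun, Fintype.card_fin, Fintype.card_fin,
    ← ENNReal.ofReal_natCast, Nat.cast_pow]
  gcongr
  linarith

end Pool.Agent.Lib.MP_fe8b6f_pr
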