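import Pool.Agent.Lib.MP_fe8b6f_pr.UpD
import Pool.Agent.Lib.MP_fe8b6f_pr.ConcB1

/-! Upper tail of the normalised cost on growing cubes. -/

open MeasureTheory ProbabilityTheory
open scoped NNReal ENNReal

noncomputable section

namespace Pool.Agent.Lib.MP_fe8b6f_pr

variable {d : ℕ}

variable {X : Type} [MeasurableSpace X] {P : ℝ → Measure (Measure (E d))} {T : ℝ → Measure X}
  {m : ℝ → X → Measure (E d)}

theorem sa1_dim {p : ℝ} (hdp : InRange d p) : 3 ≤ d := by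
  rcases hdp with ⟨h | h, -⟩ | ⟨h, -⟩ <;> omega

/-- one large scale at which the upper tail of the limit law is small -/
theorem Fam.tail_scale (hP : Fam P) {p : ℝ} (hdp : InRange d p) {b η : ℝ} (s0 : ℝ)
    (hb : cInf p P < ENNReal.ofReal b) (hη : 0 < η) :
    ∃ L : ℝ, s0 ≤ L ∧ 1 ≤ L ∧
      ∫⁻ μ, (Gf p L 0 μ - ENNReal.ofReal ((1 + η) * b * L ^ d)) ∂(P L) ≤
        ENNReal.ofReal (2 * η * L ^ d) := by
  have hp : 0 < p := hdp.elim (fun h => h.2.1) fun h => h.2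
  have hd := sa1_dim hdp
  have hb0 : 0 < b := ENNReal.ofReal_pos.1 (zero_le.trans_lt hb)
  obtain ⟨C1, hC1⟩ := G_sub (d := d) hp hη
  have hC10 : (0 : ℝ) ≤ C1 := C1.2
  obtain ⟨s1, hs1⟩ := hP.ufam.sub_error hdp (ε := η / (C1 + 1)) (by positivity)
  obtain ⟨s, hcs, hs0⟩ := ((Filter.frequently_lt_of_liminf_lt (by isBoundedDefault) hb).and_eventually
    (Filter.eventually_ge_atTop (max (max 1 s0) s1))).exists
  have hs1' : 1 ≤ s := ((le_max_left _ _).trans (le_max_left _ _)).trans hs0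
  have hs : 0 < s := zero_lt_one.trans_le hs1'
  have hsd : 0 < s ^ d := pow_pos hs d
  have hI : ∫⁻ μ, Gf p s 0 μ ∂(P s) ≤ ENNReal.ofReal (b * s ^ d) := by
    rw [ENNReal.ofReal_mul hb0.le]
    exact (ENNReal.div_le_iff (ENNReal.ofReal_pos.2 hsd).ne' ENNReal.ofReal_ne_top).1 hcs.le
  obtain ⟨m0, hm0⟩ := hP.lln (by omega) hs (measurable_Gf hp hs 0)
    (hP.lintegral_Gf_ne_top hp hs 0)
    (ε := ENNReal.ofReal (η / (1 + η) * s ^ d)) (ENNReal.ofReal_pos.2 (by positivity))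
  obtain ⟨n, hn0, hn⟩ : ∃ n : ℕ, m0 ≤ n ∧ 0 < n :=
    ⟨max m0 1, le_max_left _ _, lt_of_lt_of_le one_pos (le_max_right _ _)⟩
  have hlln := hm0 n hn0
  have hn1 : (1 : ℝ) ≤ n := by exact_mod_cast hn
  have hsL : s ≤ n * s := le_mul_of_one_le_left hs.le hn1
  have hL : 0 < n * s := hs.trans_le hsL
  have hdiv : n * s / n = s := mul_div_cancel_left₀ _ (by positivity)
  obtain ⟨Err, hEm, hE1, hE2⟩ := hs1 (n * s) n hL hn
    (by rw [hdiv]; exact (le_max_right _ _).trans hs0)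
  refine ⟨n * s, (((le_max_right _ _).trans (le_max_left _ _)).trans hs0).trans hsL,
    hs1'.trans hsL, ?_⟩
  set I := ∫⁻ μ, Gf p s 0 μ ∂(P s) with hIdef
  set M : ℝ≥0∞ := (n : ℝ≥0∞) ^ d with hM
  have hMr : M = ENNReal.ofReal ((n : ℝ) ^ d) := by
    rw [hM, ENNReal.ofReal_pow (by positivity), ENNReal.ofReal_natCast]
  have hM0 : M ≠ 0 := by
    rw [hMr]
    exact (ENNReal.ofReal_pos.2 (by positivity)).ne'
  have hMt : M ≠ ⊤ := by
    rw [hMr]
    exact ENNReal.ofReal_ne_top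
  have hpt : ∀ᵐ μ ∂(P (n * s)),
      Gf p (n * s) 0 μ - ENNReal.ofReal ((1 + η) * b * (n * s) ^ d) ≤
        ENNReal.ofReal (1 + η) * M * ((∑ j : Fin d → Fin n,
          Gf p s 0 (loc (gcorner 0 (n * s) n j) s μ)) / M - I) + C1 * Err μ := by
    filter_upwards [hP.ae_fin hL] with μ hμ
    have h1 := hC1 (n * s) n 0 μ hL hn hμ
    rw [hdiv] at h1
    have h3 : ∀ j : Fin d → Fin n, G p s 0 (loc (gcorner 0 (n * s) n j) s μ) =
        Gf p s 0 (loc (gcorner 0 (n * s) n j) s μ) := by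
      intro j
      have h5 := gc_subset (0 : E d) hL.le n j
      rw [gc, hdiv] at h5
      rw [Gf, if_neg]
      rw [loc_cube]
      exact ne_top_of_le_ne_top hμ (measure_mono h5)
    simp_rw [h3] at h1
    rw [tsub_le_iff_right, Gf, if_neg hμ]
    refine h1.trans ?_
    generalize (∑ j : Fin d → Fin n, Gf p s 0 (loc (gcorner 0 (n * s) n j) s μ)) = A
    have h6 : A ≤ M * (A / M - I) + M * I := by
      rw [← mul_add]
      calc A = M * (A / M) := (ENNReal.mul_div_cancel hM0 hMt).symm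
        _ ≤ _ := mul_le_mul_right le_tsub_add _
    have h7 : ENNReal.ofReal (1 + η) * (M * I) ≤
        ENNReal.ofReal ((1 + η) * b * (n * s) ^ d) := by
      refine (mul_le_mul_right (mul_le_mul_right hI _) _).trans (le_of_eq ?_)
      rw [hMr, ← ENNReal.ofReal_mul (by positivity), ← ENNReal.ofReal_mul (by positivity)]
      congr 1
      ring
    calc ENNReal.ofReal (1 + η) * A + C1 * Wp p (avg μ 0 (n * s) n) (avg μ 0 (n * s) 1)
        ≤ ENNReal.ofReal (1 + η) * (M * (A / M - I) + M * I) + C1 * Err μ :=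
          add_le_add (mul_le_mul_right h6 _) (mul_le_mul_right (hE1 μ hμ) _)
      _ = ENNReal.ofReal (1 + η) * M * (A / M - I) + C1 * Err μ +
          ENNReal.ofReal (1 + η) * (M * I) := by ring
      _ ≤ _ := add_le_add_right h7 _
  refine (lintegral_mono_ae hpt).trans ?_
  rw [lintegral_add_right _ (hEm.const_mul _),
    lintegral_const_mul' _ _ (ENNReal.mul_ne_top ENNReal.ofReal_ne_top hMt),
    lintegral_const_mul _ hEm]
  refine (add_le_add (mul_le_mul_right hlln _) (mul_le_mul_right hE2 _)).trans ?_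
  rw [hMr, ← ENNReal.ofReal_mul (by positivity), ← ENNReal.ofReal_mul (by positivity),
    ← ENNReal.ofReal_coe_nnreal, ← ENNReal.ofReal_mul hC10,
    ← ENNReal.ofReal_add (by positivity) (by positivity)]
  refine ENNReal.ofReal_le_ofReal ?_
  have h4 : (C1 : ℝ) * (η / (C1 + 1) * (n * s) ^ d) ≤ η * (n * s) ^ d := by
    have h5 : (C1 : ℝ) * (η / (C1 + 1) * (n * s) ^ d) = C1 / (C1 + 1) * (η * (n * s) ^ d) := by
      ring
    rw [h5]
    exact mul_le_of_le_one_left (by positivity) ((div_le_one (by positivity)).2 (by linarith))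
  have h8 : (1 + η) * (n : ℝ) ^ d * (η / (1 + η) * s ^ d) = η * (n * s) ^ d := by
    rw [mul_pow]
    field_simp
  linarith

/-- the local limit for functionals dominated by the cost -/
theorem UFam.local_le (hT : UFam P T m) {p L : ℝ} (hp : 0 < p) (hL : 1 ≤ L)
    {Y : Measure (E d) → ℝ≥0∞} (hY : Measurable Y) (hYG : ∀ μ, Y μ ≤ Gf p L 0 μ)
    {ε : ℝ≥0∞} (hε : 0 < ε) :
    ∃ Λ0 : ℝ, ∀ Λ, Λ0 ≤ Λ → ∀ z : E d, cube z L ⊆ cube 0 Λ →
      ∫⁻ x, Y (loc z L (m Λ x)) ∂(T Λ) ≤ ∫⁻ μ, Y μ ∂(P L) + ε := by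
  have hL0 : 0 < L := by linarith
  rcases eq_or_ne ε ⊤ with rfl | hεt
  · exact ⟨0, fun Λ _ z _ => by simp⟩
  obtain ⟨K, hK, hKb⟩ := upc2_sq hT hL
  set D : ℝ≥0∞ := ENNReal.ofReal (√d * L + ‖(0 : E d)‖) ^ p with hD
  have hDt : D ≠ ⊤ := ENNReal.rpow_ne_top_of_nonneg hp.le ENNReal.ofReal_ne_top
  have hε2 : ε / 2 ≠ 0 := (ENNReal.half_pos hε.ne').ne'
  have hε2t : ε / 2 ≠ ⊤ := ENNReal.div_ne_top hεt two_ne_zero
  set M : ℝ≥0∞ := D ^ 2 * K / (ε / 2) + 1 with hM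
  have hM0 : M ≠ 0 := by simp [hM]
  have hMt : M ≠ ⊤ := ENNReal.add_ne_top.2
    ⟨ENNReal.div_ne_top (ENNReal.mul_ne_top (ENNReal.pow_ne_top hDt) hK) hε2, ENNReal.one_ne_top⟩
  have hMe : D ^ 2 * K / M ≤ ε / 2 := by
    rw [ENNReal.div_le_iff hM0 hMt, hM, mul_add, ENNReal.mul_div_cancel hε2 hε2t]
    exact le_self_add
  obtain ⟨Λ0, hΛ0⟩ := hT.lim L hL0 (ε / 2 / M) (ENNReal.div_pos hε2 hMt)
  refine ⟨max Λ0 L, fun Λ hΛ z hz => ?_⟩
  have hF : Measurable fun μ : Measure (E d) => min (Y μ) M / M :=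
    (hY.min measurable_const).div_const M
  have h1 := hΛ0 Λ (le_of_max_le_left hΛ) z (fun μ => min (Y μ) M / M) hz hF
    (fun μ => ENNReal.div_le_of_le_mul (by rw [one_mul]; exact min_le_right _ _))
  have h2 := hKb Λ (le_of_max_le_right hΛ) z hz
  have h3 : ∀ x, Y (loc z L (m Λ x)) ≤ M * (min (Y (loc z L (m Λ x))) M / M) +
      D ^ 2 / M * ENNReal.ofReal (m Λ x (cube z L)).toReal ^ 2 := by
    intro x
    refine (upc2_trunc _ hM0 hMt).trans (add_le_add_right ?_ _)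
    have h := (hYG _).trans (upc2_Gf_le hp hL0 (loc z L (m Λ x)))
    rw [loc_cube] at h
    calc Y (loc z L (m Λ x)) ^ 2 / M
        ≤ (D * ENNReal.ofReal (m Λ x (cube z L)).toReal) ^ 2 / M := by gcongr
      _ = _ := by rw [mul_pow, div_eq_mul_inv, div_eq_mul_inv, mul_right_comm]
  have hm : Measurable fun x => M * (min (Y (loc z L (m Λ x))) M / M) :=
    (hF.comp ((measurable_loc z L).comp (hT.meas Λ))).const_mul M
  have hDM : D ^ 2 / M ≠ ⊤ := ENNReal.div_ne_top (ENNReal.pow_ne_top hDt) hM0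
  have h4 : M * ∫⁻ μ, min (Y μ) M / M ∂(P L) ≤ ∫⁻ μ, Y μ ∂(P L) := by
    rw [← lintegral_const_mul' _ _ hMt]
    refine lintegral_mono fun μ => ?_
    rw [ENNReal.mul_div_cancel hM0 hMt]
    exact min_le_left _ _
  calc ∫⁻ x, Y (loc z L (m Λ x)) ∂(T Λ)
      ≤ M * ∫⁻ x, min (Y (loc z L (m Λ x))) M / M ∂(T Λ) +
        D ^ 2 / M * ∫⁻ x, ENNReal.ofReal (m Λ x (cube z L)).toReal ^ 2 ∂(T Λ) := by
        rw [← lintegral_const_mul' _ _ hMt, ← lintegral_const_mul' _ _ hDM,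
          ← lintegral_add_left hm]
        exact lintegral_mono h3
    _ ≤ M * (∫⁻ μ, min (Y μ) M / M ∂(P L) + ε / 2 / M) + D ^ 2 / M * K := by gcongr
    _ ≤ (∫⁻ μ, Y μ ∂(P L) + ε / 2) + ε / 2 := by
        rw [mul_add, ENNReal.mul_div_cancel hM0 hMt]
        refine add_le_add (add_le_add_left h4 _) (le_of_eq_of_le ?_ hMe)
        rw [div_eq_mul_inv, div_eq_mul_inv, mul_right_comm]
    _ = _ := by rw [add_assoc, ENNReal.add_halves]

/-- remainder of one cell -/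
def sa1_R (p : ℝ) (C : ℝ≥0) (L s : ℝ) (c : E d) (μ : Measure (E d)) : ℝ≥0∞ :=
  C * (ENNReal.ofReal (√d * (s - L)) ^ p * μ (cube c L)) +
    ENNReal.ofReal (√d * s) ^ p * μ (cube c s \ cube c L)

theorem sa1_measurable_R (p : ℝ) (C : ℝ≥0) (L s : ℝ) (c : E d) : Measurable (sa1_R p C L s c) :=
  (((Measure.measurable_coe (measurableSet_cube c L)).const_mul _).const_mul _).add
    ((Measure.measurable_coe ((measurableSet_cube c s).diff (measurableSet_cube c L))).const_mul _)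

theorem sa1_mean_R (hT : UFam P T m) {p : ℝ} (hp : 0 < p) {ε : ℝ}
    (C : ℝ≥0) {L s Λ : ℝ} (hL : 0 < L) (hLs : L ≤ s) (hΛ : 0 < Λ) {c : E d}
    (hc : cube c s ⊆ cube 0 Λ)
    (he : C * ((√d * (s - L)) ^ p * L ^ d) + (√d * s) ^ p * (s ^ d - L ^ d) ≤ ε * L ^ d) :
    ∫⁻ x, sa1_R p C L s c (m Λ x) ∂(T Λ) ≤ ENNReal.ofReal (ε * L ^ d) := by
  have hs : 0 < s := hL.trans_le hLs
  have hm := (measurableSet_cube c s).diff (measurableSet_cube c L)
  have h1 : 0 ≤ √d * (s - L) := mul_nonneg (Real.sqrt_nonneg _) (sub_nonneg.2 hLs)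
  have h2 : 0 ≤ √d * s := mul_nonneg (Real.sqrt_nonneg _) hs.le
  have h3 : L ^ d ≤ s ^ d := pow_le_pow_left₀ hL.le hLs d
  have h4 : 0 ≤ L ^ d := (pow_pos hL d).le
  have hC : (0 : ℝ) ≤ C := C.2
  have m2 : Measurable fun x => ENNReal.ofReal (√d * s) ^ p * m Λ x (cube c s \ cube c L) :=
    ((Measure.measurable_coe hm).comp (hT.meas Λ)).const_mul _
  unfold sa1_R
  rw [lintegral_add_right _ m2, ENNReal.ofReal_rpow_of_nonneg h1 hp.le,
    ENNReal.ofReal_rpow_of_nonneg h2 hp.le,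
    lintegral_const_mul' _ _ ENNReal.coe_ne_top, lintegral_const_mul' _ _ ENNReal.ofReal_ne_top,
    lintegral_const_mul' _ _ ENNReal.ofReal_ne_top,
    hT.mean Λ hΛ _ (measurableSet_cube c L) ((upd1_cube_mono c hLs).trans hc),
    hT.mean Λ hΛ _ hm (Set.sdiff_subset.trans hc),
    measure_sdiff (upd1_cube_mono c hLs) (measurableSet_cube c L).nullMeasurableSet
      (gbasa_vol_ne_top c hL), volume_cube c hL.le, volume_cube c hs.le,
    ← ENNReal.ofReal_sub _ h4, ← ENNReal.ofReal_coe_nnreal,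
    ← ENNReal.ofReal_mul (Real.rpow_nonneg h1 p), ← ENNReal.ofReal_mul hC,
    ← ENNReal.ofReal_mul (Real.rpow_nonneg h2 p),
    ← ENNReal.ofReal_add (mul_nonneg hC (mul_nonneg (Real.rpow_nonneg h1 p) h4))
      (mul_nonneg (Real.rpow_nonneg h2 p) (sub_nonneg.2 h3))]
  exact ENNReal.ofReal_le_ofReal he

theorem sa1_key (hP : Fam P) (hT : UFam P T m) {p : ℝ} (hdp : InRange d p) {b ε : ℝ}
    (hb : cInf p P < ENNReal.ofReal b) (hε : 0 < ε) :
    ∀ᶠ Λ in Filter.atTop,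
      ∫⁻ x, (Gf p Λ 0 (m Λ x) - ENNReal.ofReal ((1 + ε) ^ 3 * b * Λ ^ d)) ∂(T Λ) ≤
        ENNReal.ofReal (((1 + ε) * ((1 + ε) * (3 * ε) + ε) + ε) * Λ ^ d) := by
  have hp : 0 < p := hdp.elim (fun h => h.2.1) fun h => h.2
  have hb0 : 0 < b := ENNReal.ofReal_pos.1 (zero_le.trans_lt hb)
  obtain ⟨C1, hC1⟩ := G_sub (d := d) hp hε
  obtain ⟨C2, hC2⟩ := G_grow (d := d) hp hε
  have hC10 : (0 : ℝ) ≤ C1 := C1.2
  obtain ⟨s0, hs0⟩ := hT.sub_error hdp (ε := ε / (C1 + 1)) (by positivity)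
  obtain ⟨L, hL0, hL1, hGP⟩ := hP.tail_scale hdp s0 hb hε
  have hL : 0 < L := zero_lt_one.trans_le hL1
  have hLd : 0 < L ^ d := pow_pos hL d
  set a : ℝ≥0∞ := ENNReal.ofReal ((1 + ε) * b * L ^ d) with ha
  have hYm : Measurable fun μ : Measure (E d) => Gf p L 0 μ - a :=
    (measurable_Gf hp hL 0).sub_const a
  obtain ⟨Λ0, hΛ0⟩ := hT.local_le hp hL1 hYm (fun μ => tsub_le_self)
    (ENNReal.ofReal_pos.2 (mul_pos hε hLd))
  have hcont : Continuous fun s : ℝ =>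
      C2 * ((√d * (s - L)) ^ p * L ^ d) + (√d * s) ^ p * (s ^ d - L ^ d) := by
    have h1 := Real.continuous_rpow_const hp.le
    exact (continuous_const.mul ((h1.comp (continuous_const.mul
      (continuous_id.sub continuous_const))).mul continuous_const)).add
      ((h1.comp (continuous_const.mul continuous_id)).mul
        ((continuous_pow d).sub continuous_const))
  have hten := (hcont.tendsto L).comp (upd1_scale hL)
  simp only [sub_self, mul_zero, Real.zero_rpow hp.ne', zero_mul, add_zero] at hten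
  filter_upwards [hten.eventually (gt_mem_nhds (mul_pos hε hLd)), Filter.eventually_ge_atTop Λ0,
    Filter.eventually_ge_atTop L] with Λ he hΛ1 hΛ2
  have hΛ : 0 < Λ := hL.trans_le hΛ2
  have hΛd : 0 < Λ ^ d := pow_pos hΛ d
  have hn : 0 < ⌊Λ / L⌋₊ := Nat.floor_pos.2 ((one_le_div hL).2 hΛ2)
  have hn' : (0 : ℝ) < ⌊Λ / L⌋₊ := Nat.cast_pos.2 hn
  have hnL : (⌊Λ / L⌋₊ : ℝ) * L ≤ Λ := (le_div_iff₀ hL).1 (Nat.floor_le (div_pos hΛ hL).le)
  simp only [Function.comp_apply] at he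
  generalize ⌊Λ / L⌋₊ = n at he hn hn' hnL
  have hLs : L ≤ Λ / n := (le_div_iff₀ hn').2 ((mul_comm _ _).trans_le hnL)
  obtain ⟨Err, hE1, hE2, hE3⟩ := hs0 Λ n hΛ hn (hL0.trans hLs)
  have hsub : ∀ j : Fin d → Fin n, cube (gcorner 0 Λ n j) (Λ / n) ⊆ cube 0 Λ :=
    fun j => gc_subset 0 hΛ.le n j
  have h3 : ((n ^ d : ℕ) : ℝ) * L ^ d ≤ Λ ^ d := by
    rw [Nat.cast_pow, ← mul_pow]
    exact pow_le_pow_left₀ (by positivity) hnL d
  set H : (Fin d → Fin n) → Measure (E d) → ℝ≥0∞ := fun j μ =>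
    ENNReal.ofReal (1 + ε) * (Gf p L 0 (loc (gcorner 0 Λ n j) L μ) - a) +
      sa1_R p C2 L (Λ / n) (gcorner 0 Λ n j) μ with hH
  have hpath : ∀ μ : Measure (E d), μ (cube 0 Λ) ≠ ⊤ →
      Gf p Λ 0 μ - ENNReal.ofReal ((1 + ε) ^ 3 * b * Λ ^ d) ≤
        ENNReal.ofReal (1 + ε) * ∑ j : Fin d → Fin n, H j μ + C1 * Err μ := by
    intro μ hμ
    rw [tsub_le_iff_right, Gf, if_neg hμ]
    have h5 : ∀ j : Fin d → Fin n, G p (Λ / n) 0 (loc (gcorner 0 Λ n j) (Λ / n) μ) ≤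
        H j μ + ENNReal.ofReal (1 + ε) * a := by
      intro j
      have h1 : μ (cube (gcorner 0 Λ n j) (Λ / n)) ≠ ⊤ :=
        ne_top_of_le_ne_top hμ (measure_mono (hsub j))
      refine (upd1_cell hLs _ h1 (hC2 L _ _ hL hLs (by rwa [loc_cube]))).trans ?_
      simp only [upd1_H, hH, sa1_R]
      rw [add_assoc, add_right_comm, ← mul_add]
      exact add_le_add_left (mul_le_mul_right le_tsub_add _) _
    have h6 : ENNReal.ofReal (1 + ε) * ∑ _j : Fin d → Fin n, ENNReal.ofReal (1 + ε) * a ≤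
        ENNReal.ofReal ((1 + ε) ^ 3 * b * Λ ^ d) := by
      rw [Finset.sum_const, Finset.card_univ, Fintype.card_fun, Fintype.card_fin, Fintype.card_fin,
        nsmul_eq_mul, ← ENNReal.ofReal_natCast, ha, ← ENNReal.ofReal_mul (by positivity),
        ← ENNReal.ofReal_mul (Nat.cast_nonneg _), ← ENNReal.ofReal_mul (by positivity)]
      refine ENNReal.ofReal_le_ofReal ?_
      have := mul_le_mul_of_nonneg_left h3 (show 0 ≤ (1 + ε) ^ 3 * b by positivity)
      linarith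
    refine (hC1 Λ n 0 μ hΛ hn hμ).trans ((add_le_add (mul_le_mul_right
      (Finset.sum_le_sum fun j _ => h5 j) _) (mul_le_mul_right (hE2 μ hμ) _)).trans ?_)
    rw [Finset.sum_add_distrib, mul_add, add_right_comm]
    exact add_le_add_right h6 _
  have mY : ∀ j : Fin d → Fin n, Measurable fun x =>
      ENNReal.ofReal (1 + ε) * (Gf p L 0 (loc (gcorner 0 Λ n j) L (m Λ x)) - a) :=
    fun j => (hYm.comp ((measurable_loc _ L).comp (hT.meas Λ))).const_mul _
  have mH : ∀ j : Fin d → Fin n, Measurable fun x => H j (m Λ x) :=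
    fun j => (mY j).add ((sa1_measurable_R p C2 L _ _).comp (hT.meas Λ))
  have hcell : ∀ j : Fin d → Fin n, ∫⁻ x, H j (m Λ x) ∂(T Λ) ≤
      ENNReal.ofReal (((1 + ε) * (3 * ε) + ε) * L ^ d) := by
    intro j
    simp only [hH]
    rw [lintegral_add_left (mY j), lintegral_const_mul' _ _ ENNReal.ofReal_ne_top]
    refine (add_le_add (mul_le_mul_right
      ((hΛ0 Λ hΛ1 _ ((upd1_cube_mono _ hLs).trans (hsub j))).trans (add_le_add_left hGP _)) _)
      (sa1_mean_R hT hp C2 hL hLs hΛ (hsub j) he.le)).trans (le_of_eq ?_)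
    rw [← ENNReal.ofReal_add (by positivity) (by positivity), ← ENNReal.ofReal_mul (by positivity),
      ← ENNReal.ofReal_add (by positivity) (by positivity)]
    congr 1
    ring
  have mE : Measurable fun x => (C1 : ℝ≥0∞) * Err (m Λ x) := (hE1.comp (hT.meas Λ)).const_mul _
  have h1 := lintegral_mono_ae ((hT.ae_fin hΛ).mono fun x hx => hpath (m Λ x) hx)
  rw [lintegral_add_right _ mE, lintegral_const_mul' _ _ ENNReal.ofReal_ne_top,
    lintegral_const_mul' _ _ ENNReal.coe_ne_top, lintegral_finsetSum _ fun j _ => mH j] at h1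
  have h2 := h1.trans (add_le_add (mul_le_mul_right (Finset.sum_le_sum fun j _ => hcell j) _)
    (mul_le_mul_right hE3 _))
  rw [Finset.sum_const, Finset.card_univ, Fintype.card_fun, Fintype.card_fin, Fintype.card_fin,
    nsmul_eq_mul, ← ENNReal.ofReal_natCast, ← ENNReal.ofReal_coe_nnreal,
    ← ENNReal.ofReal_mul (Nat.cast_nonneg _), ← ENNReal.ofReal_mul (by positivity),
    ← ENNReal.ofReal_mul hC10, ← ENNReal.ofReal_add (by positivity) (by positivity)] at h2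
  refine h2.trans (ENNReal.ofReal_le_ofReal ?_)
  have h4 : (C1 : ℝ) * (ε / (C1 + 1) * Λ ^ d) ≤ ε * Λ ^ d := by
    have h5 : (C1 : ℝ) * (ε / (C1 + 1) * Λ ^ d) = C1 / (C1 + 1) * (ε * Λ ^ d) := by ring
    rw [h5]
    exact mul_le_of_le_one_left (by positivity) ((div_le_one (by positivity)).2 (by linarith))
  have h6 := mul_le_mul_of_nonneg_left h3
    (show 0 ≤ (1 + ε) * ((1 + ε) * (3 * ε) + ε) by positivity)
  linarith

/-- the upper tail above any level larger than the limit constant vanishes in the mean -/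
theorem UFam.tail (hP : Fam P) (hT : UFam P T m) {p : ℝ} (hdp : InRange d p) {t η : ℝ}
    (ht : cInf p P < ENNReal.ofReal t) (hη : 0 < η) :
    ∀ᶠ Λ in Filter.atTop,
      ∫⁻ x, (Gf p Λ 0 (m Λ x) - ENNReal.ofReal (t * Λ ^ d)) ∂(T Λ) ≤
        ENNReal.ofReal (η * Λ ^ d) := by
  obtain ⟨b, -, hb, hbt⟩ := ENNReal.lt_iff_exists_real_btwn.1 ht
  have h1 : Continuous fun ε : ℝ => (1 + ε) ^ 3 * b := by fun_prop
  have h2 : Continuous fun ε : ℝ => (1 + ε) * ((1 + ε) * (3 * ε) + ε) + ε := by fun_prop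
  have h3 := (h1.tendsto 0).mono_left (nhdsWithin_le_nhds (s := Set.Ioi 0))
  have h4 := (h2.tendsto 0).mono_left (nhdsWithin_le_nhds (s := Set.Ioi 0))
  simp only [add_zero, one_mul, one_pow, mul_zero] at h3 h4
  obtain ⟨ε, ⟨h5, h6⟩, hε⟩ := (((h3.eventually
    (gt_mem_nhds (ENNReal.ofReal_lt_ofReal_iff'.1 hbt).1)).and
      (h4.eventually (gt_mem_nhds hη))).and self_mem_nhdsWithin).exists
  filter_upwards [sa1_key hP hT hdp hb hε, Filter.eventually_gt_atTop 0] with Λ hΛ hΛ0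
  have hΛd : 0 ≤ Λ ^ d := (pow_pos hΛ0 d).le
  refine le_trans (lintegral_mono fun x => tsub_le_tsub_left (ENNReal.ofReal_le_ofReal
    (mul_le_mul_of_nonneg_right h5.le hΛd)) _) (hΛ.trans (ENNReal.ofReal_le_ofReal
      (mul_le_mul_of_nonneg_right h6.le hΛd)))

end Pool.Agent.Lib.MP_fe8b6f_pr
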