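import Pool.Agent.Lib.MP_fe8b6f_pr.SA1
import Pool.Agent.Lib.MP_fe8b6f_pr.Fin2

/-! The torus cost does not depend on the starting point and converges in the mean. -/

open MeasureTheory ProbabilityTheory
open scoped NNReal ENNReal

noncomputable section

namespace Pool.Agent.Lib.MP_fe8b6f_pr

variable {d : ℕ}

theorem Wc_map_le {c : E d → E d → ℝ≥0∞} {τ : E d → E d} (hτ : Measurable τ)
    (h : ∀ x y, c (τ x) (τ y) ≤ c x y) (μ ν : Measure (E d)) :
    Wc c (μ.map τ) (ν.map τ) ≤ Wc c μ ν := by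
  conv_rhs => unfold Wc
  refine le_iInf fun π => le_iInf fun h1 => le_iInf fun h2 => ?_
  have hm : Measurable (Prod.map τ τ) := hτ.prodMap hτ
  refine (Wc_le (π := π.map (Prod.map τ τ)) ?_ ?_).trans
    ((lintegral_map_le _ _).trans (lintegral_mono fun z => h _ _))
  · rw [← h1, Measure.map_map measurable_fst hm, Measure.map_map hτ measurable_fst]
    rfl
  · rw [← h2, Measure.map_map measurable_snd hm, Measure.map_map hτ measurable_snd]
    rfl

theorem sa2_tdist (a x y : E d) : tdist (frac (x + a)) (frac (y + a)) ≤ tdist x y := by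
  refine le_iInf fun k => iInf_le_of_le
    (fun i => k i - ⌊x i + a i⌋ + ⌊y i + a i⌋) (le_of_eq ?_)
  congr 1
  ext i
  simp only [frac, lat, Int.fract, PiLp.sub_apply, PiLp.add_apply]
  push_cast
  ring

theorem sa2_frac_add (a y : E d) : frac (frac y + a) = frac (y + a) := by
  ext i
  simp only [frac, PiLp.add_apply]
  refine Int.fract_eq_fract.2 ⟨-⌊y i⌋, ?_⟩
  simp only [Int.fract]
  push_cast
  ring

theorem sa2_vol (a : E d) :
    ((volume : Measure (E d)).restrict (cube 0 1)).map (fun y => frac (y + a)) =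
      volume.restrict (cube 0 1) := by
  have hm : Measurable fun y : E d => frac (y + a) := fin2a_meas_frac.comp (measurable_add_const a)
  refine Measure.ext_of_lintegral _ fun f hf => ?_
  have hper : IsPer 1 fun z : E d => f (frac z) := fun x k => by
    have := isPer_red (d := d) one_pos x k
    rw [fin2a_red_one] at this
    simp only [this]
  rw [lintegral_map hf hm, setLIntegral_per_shift (φ := fun z : E d => f (frac z)) one_pos
    (hf.comp fin2a_meas_frac) hper a]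
  refine setLIntegral_congr_fun (measurableSet_cube 0 1) fun z hz => ?_
  have := red_eq_self one_pos hz
  rw [fin2a_red_one] at this
  simp only [this]

theorem sa2_shift_le {p : ℝ} (hp : 0 ≤ p) (x a : E d) (w : Path d) (I : Set ℝ) :
    WTor p ((occ (x + a) w I).map frac) ≤ WTor p ((occ x w I).map frac) := by
  have hm : Measurable fun y : E d => frac (y + a) := fin2a_meas_frac.comp (measurable_add_const a)
  have h1 : (occ (x + a) w I).map frac = ((occ x w I).map frac).map fun y => frac (y + a) := by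
    rw [occ, occ, Measure.map_map fin2a_meas_frac (bmb2_meas _ w),
      Measure.map_map fin2a_meas_frac (bmb2_meas _ w),
      Measure.map_map hm (fin2a_meas_frac.comp (bmb2_meas _ w))]
    congr 1
    funext t
    simp only [Function.comp_apply, sa2_frac_add, add_right_comm]
  have h := Wc_map_le (c := fun x y => tdist x y ^ p) hm
    (fun x y => ENNReal.rpow_le_rpow (sa2_tdist a x y) hp) ((occ x w I).map frac)
    (((occ x w I).map frac) Set.univ • volume.restrict (cube 0 1))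
  rw [Measure.map_smul, sa2_vol] at h
  rw [h1, WTor, Measure.map_apply hm MeasurableSet.univ, Set.preimage_univ]
  exact h

/-- the torus cost does not depend on the starting point -/
theorem WTor_start {p : ℝ} (hp : 0 ≤ p) (x : E d) (w : Path d) (I : Set ℝ) :
    WTor p ((occ x w I).map frac) = WTor p ((occ 0 w I).map frac) := by
  refine le_antisymm ?_ ?_
  · simpa only [zero_add] using sa2_shift_le hp 0 x w I
  · simpa only [add_neg_cancel] using sa2_shift_le hp x (-x) w I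

theorem torusCost_start {p : ℝ} (hp : 0 ≤ p) (W : Measure (Path d)) (T : ℝ) :
    torusCost p W T = ∫⁻ w, WTor p ((occ 0 w (Set.Icc 0 T)).map frac) ∂W := by
  unfold torusCost
  simp only [fun x w => WTor_start hp x w (Set.Icc 0 T)]
  rw [setLIntegral_const, volume_cube 0 zero_le_one, one_pow, ENNReal.ofReal_one, mul_one]

theorem sa2_dev {Ω : Type*} [MeasurableSpace Ω] (W : Measure Ω) [IsProbabilityMeasure W]
    {X H : Ω → ℝ≥0∞} (hH : Measurable H) {c δ : ℝ≥0∞} (hc : c ≠ ⊤) (hX : ∀ w, X w - c ≤ H w)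
    (hlow : c ≤ ∫⁻ w, X w ∂W + δ) :
    ∫⁻ w, ((X w - c) + (c - X w)) ∂W ≤ 2 * ∫⁻ w, H w ∂W + δ := by
  have h1 : ∫⁻ w, (c - X w) ∂W + ∫⁻ w, X w ∂W ≤ c + ∫⁻ w, H w ∂W := by
    refine (le_lintegral_add _ _).trans ?_
    calc ∫⁻ w, (c - X w + X w) ∂W ≤ ∫⁻ w, (c + H w) ∂W := by
          refine lintegral_mono fun w => ?_
          rw [tsub_add_eq_max]
          exact max_le le_self_add (le_add_tsub.trans (add_le_add_right (hX w) _))
      _ = _ := by rw [lintegral_add_left measurable_const, lintegral_const, measure_univ, mul_one]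
  have h2 : ∫⁻ w, (c - X w) ∂W ≤ ∫⁻ w, H w ∂W + δ := by
    refine (ENNReal.add_le_add_iff_right hc).1 ?_
    calc ∫⁻ w, (c - X w) ∂W + c ≤ ∫⁻ w, (c - X w) ∂W + (∫⁻ w, X w ∂W + δ) :=
          add_le_add_right hlow _
      _ ≤ c + ∫⁻ w, H w ∂W + δ := by
          rw [← add_assoc]
          exact add_le_add_left h1 _
      _ = _ := by ring
  calc ∫⁻ w, ((X w - c) + (c - X w)) ∂W ≤ ∫⁻ w, (H w + (c - X w)) ∂W :=
        lintegral_mono fun w => add_le_add_left (hX w) _
    _ = ∫⁻ w, H w ∂W + ∫⁻ w, (c - X w) ∂W := lintegral_add_left hH _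
    _ ≤ ∫⁻ w, H w ∂W + (∫⁻ w, H w ∂W + δ) := add_le_add_right h2 _
    _ = _ := by ring

theorem IsWiener.majorant {W : Measure (Path d)} (hW : IsWiener W) (hd : 3 ≤ d) {p T : ℝ}
    (hp : 0 < p) (hT : 0 < T) (t : ℝ) :
    ∃ H : E d × Path d → ℝ≥0∞, Measurable H ∧
      (∀ x w, WTor p ((occ x w (Set.Icc 0 T)).map frac) /
        ENNReal.ofReal (T ^ (1 - p / ((d : ℝ) - 2))) - ENNReal.ofReal t ≤ H (x, w)) ∧
      ∫⁻ x in cube 0 1, ∫⁻ w, H (x, w) ∂W =
        (∫⁻ q, (Gf p (T ^ (1 / ((d : ℝ) - 2))) 0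
            (tm (T ^ (1 / ((d : ℝ) - 2))) (Set.Ico 0 ((T ^ (1 / ((d : ℝ) - 2))) ^ d)) q) -
          ENNReal.ofReal (t * (T ^ (1 / ((d : ℝ) - 2))) ^ d))
            ∂(TP W (T ^ (1 / ((d : ℝ) - 2))))) /
          ENNReal.ofReal ((T ^ (1 / ((d : ℝ) - 2))) ^ d) := by
  have := hW.isProbabilityMeasure
  have hd3 : (3 : ℝ) ≤ d := by exact_mod_cast hd
  have hd2 : (0 : ℝ) < (d : ℝ) - 2 := by linarith
  set Λ : ℝ := T ^ (1 / ((d : ℝ) - 2)) with hΛdef
  have hΛ : 0 < Λ := Real.rpow_pos_of_pos hT _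
  have hTΛ : Λ ^ ((d : ℝ) - 2) = T := by
    rw [hΛdef, ← Real.rpow_mul hT.le, one_div, inv_mul_cancel₀ hd2.ne', Real.rpow_one]
  have hΛd : Λ ^ d = Λ ^ 2 * T := by
    rw [← hTΛ, ← Real.rpow_natCast Λ d, ← Real.rpow_natCast Λ 2, ← Real.rpow_add hΛ]
    congr 1
    push_cast
    ring
  have hexp : T ^ (1 - p / ((d : ℝ) - 2)) * (Λ ^ 2 * Λ ^ p) = Λ ^ d := by
    have h1 : T ^ (1 - p / ((d : ℝ) - 2)) = Λ ^ ((d : ℝ) - 2 - p) := by
      conv_lhs => rw [← hTΛ]
      rw [← Real.rpow_mul hΛ.le]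
      congr 1
      field_simp
    rw [h1, ← Real.rpow_natCast Λ d, ← Real.rpow_natCast Λ 2, ← Real.rpow_add hΛ,
      ← Real.rpow_add hΛ]
    congr 1
    push_cast
    ring
  obtain ⟨c, hc⟩ : ∃ c : ℝ≥0, (c : ℝ) = Λ := ⟨⟨Λ, hΛ.le⟩, rfl⟩
  have hc0 : c ≠ 0 := by
    rintro rfl
    simp at hc
    exact hΛ.ne hc
  have hcE : (c : ℝ≥0∞) ^ 2 = ENNReal.ofReal (Λ ^ 2) := by
    rw [← hc, ENNReal.ofReal_pow c.coe_nonneg, ENNReal.ofReal_coe_nnreal]
  set Φ : E d × Path d → ℝ≥0∞ := fun q => Gf p Λ 0 (tm Λ (Set.Ico 0 (Λ ^ d)) q) with hΦ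
  have hΦm : Measurable Φ := (measurable_Gf hp hΛ 0).comp (measurable_tm Λ _)
  have hpt : ∀ (x : E d) (w : Path d),
      ENNReal.ofReal (Λ ^ 2 * Λ ^ p) * WTor p ((occ x w (Set.Icc 0 T)).map frac) ≤
        Φ (Λ • x, scal c w) := by
    intro x w
    have h1 := occ_scal hc0 x w (I := Set.Ico 0 T) measurableSet_Ico
    rw [hc, fin2a_preimage_Ico hΛ, ← hΛd, hcE] at h1
    have hr0 : ENNReal.ofReal (Λ ^ 2) ≠ 0 := by
      simp only [ne_eq, ENNReal.ofReal_eq_zero, not_le]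
      positivity
    have hfin : occ x w (Set.Ico 0 T) Set.univ ≠ ⊤ := by
      rw [occ_univ, Real.volume_Ico]
      exact ENNReal.ofReal_ne_top
    have h3 := fin2a_Gf hp.le hΛ hr0 ENNReal.ofReal_ne_top _ hfin
    simp only [hΦ, tm]
    rw [h1, occ_Icc, ENNReal.ofReal_mul (by positivity)]
    exact h3
  have hv0 : ENNReal.ofReal (Λ ^ d) ≠ 0 := by
    simp only [ne_eq, ENNReal.ofReal_eq_zero, not_le]
    positivity
  have hsm : Measurable fun x : E d => Λ • x := measurable_const_smul Λ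
  have ha0 : ENNReal.ofReal (Λ ^ 2 * Λ ^ p) ≠ 0 := by
    simp only [ne_eq, ENNReal.ofReal_eq_zero, not_le]
    positivity
  have hden : ENNReal.ofReal (Λ ^ d) =
      ENNReal.ofReal (Λ ^ 2 * Λ ^ p) * ENNReal.ofReal (T ^ (1 - p / ((d : ℝ) - 2))) := by
    rw [← ENNReal.ofReal_mul (by positivity), mul_comm, hexp]
  set Ψ : E d × Path d → ℝ≥0∞ := fun q => Φ q - ENNReal.ofReal (t * Λ ^ d) with hΨ
  have hΨm : Measurable Ψ := hΦm.sub_const _
  refine ⟨fun q => (ENNReal.ofReal (Λ ^ d))⁻¹ * Ψ (Λ • q.1, scal c q.2),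
    (hΨm.comp (hsm.prodMap (continuous_scal c).measurable)).const_mul _, fun x w => ?_, ?_⟩
  · rw [tsub_le_iff_right]
    calc WTor p ((occ x w (Set.Icc 0 T)).map frac) / ENNReal.ofReal (T ^ (1 - p / ((d : ℝ) - 2)))
        = ENNReal.ofReal (Λ ^ 2 * Λ ^ p) * WTor p ((occ x w (Set.Icc 0 T)).map frac) /
            ENNReal.ofReal (Λ ^ d) := by
          rw [hden, ENNReal.mul_div_mul_left _ _ ha0 ENNReal.ofReal_ne_top]
      _ ≤ (Ψ (Λ • x, scal c w) + ENNReal.ofReal (t * Λ ^ d)) / ENNReal.ofReal (Λ ^ d) :=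
          ENNReal.div_le_div_right ((hpt x w).trans le_tsub_add) _
      _ = _ := by
          rw [ENNReal.add_div, ENNReal.div_eq_inv_mul, ENNReal.ofReal_mul' (by positivity),
            ENNReal.mul_div_cancel_right hv0 ENNReal.ofReal_ne_top]
  · have hinv : (ENNReal.ofReal (Λ ^ d))⁻¹ ≠ ⊤ := ENNReal.inv_ne_top.2 hv0
    change _ = (∫⁻ q, Ψ q ∂(TP W Λ)) / _
    rw [hW.lintegral_TP hΨm, avz, fin2a_volume_cube hΛ, lintegral_smul_measure, smul_eq_mul,
      ENNReal.div_eq_inv_mul, ENNReal.div_eq_inv_mul, ← mul_assoc _ (ENNReal.ofReal (Λ ^ d)),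
      ENNReal.inv_mul_cancel hv0 ENNReal.ofReal_ne_top, one_mul,
      lintegral_map hΨm.lintegral_prod_right' hsm, ← lintegral_const_mul' _ _ hinv]
    refine lintegral_congr fun x => ?_
    have hx : Measurable fun w : Path d => Ψ (Λ • x, w) := hΨm.comp measurable_prodMk_left
    have h4 : ∫⁻ w, Ψ (Λ • x, w) ∂W = ∫⁻ w, Ψ (Λ • x, scal c w) ∂W := by
      conv_lhs => rw [← hW.map_scal hc0]
      exact lintegral_map hx (continuous_scal c).measurable
    simp only
    rw [h4, lintegral_const_mul' _ _ hinv]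

/-- convergence in the mean for the motion started at the origin -/
theorem IsWiener.mean_limit {W : Measure (Path d)} (hW : IsWiener W) {p : ℝ} (hdp : InRange d p)
    {c : ℝ≥0} (hc : cInf p (PL W) = c)
    (hlim : Filter.Tendsto (fun T : ℝ => torusCost p W T /
      ENNReal.ofReal (T ^ (1 - p / ((d : ℝ) - 2)))) Filter.atTop (nhds (c : ℝ≥0∞))) :
    Filter.Tendsto (fun T : ℝ => ∫⁻ w,
      ((WTor p ((occ 0 w (Set.Icc 0 T)).map frac) / ENNReal.ofReal (T ^ (1 - p / ((d : ℝ) - 2))) -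
        c) + (c - WTor p ((occ 0 w (Set.Icc 0 T)).map frac) /
          ENNReal.ofReal (T ^ (1 - p / ((d : ℝ) - 2))))) ∂W) Filter.atTop (nhds 0) := by
  have := hW.isProbabilityMeasure
  have hd := sa1_dim hdp
  have hp : 0 < p := hdp.elim (fun h => h.2.1) fun h => h.2
  have hd3 : (3 : ℝ) ≤ d := by exact_mod_cast hd
  have hd2 : (0 : ℝ) < (d : ℝ) - 2 := by linarith
  have ht : Filter.Tendsto (fun T : ℝ => T ^ (1 / ((d : ℝ) - 2))) Filter.atTop Filter.atTop :=
    tendsto_rpow_atTop (by positivity)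
  refine ENNReal.tendsto_nhds_zero.2 fun ε hε => ?_
  obtain ⟨δ, hδ, hδε⟩ : ∃ δ : ℝ, 0 < δ ∧ 5 * ENNReal.ofReal δ ≤ ε := by
    obtain ⟨e, -, he0, heε⟩ := ENNReal.lt_iff_exists_real_btwn.1 hε
    have he := ENNReal.ofReal_pos.1 he0
    refine ⟨e / 5, by positivity, le_trans (le_of_eq ?_) heε.le⟩
    rw [← ENNReal.ofReal_ofNat 5, ← ENNReal.ofReal_mul (by norm_num)]
    congr 1
    ring
  have hδ' : 0 < ENNReal.ofReal δ := ENNReal.ofReal_pos.2 hδ
  have hct : ENNReal.ofReal (c + δ) = c + ENNReal.ofReal δ := by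
    rw [ENNReal.ofReal_add c.coe_nonneg hδ.le, ENNReal.ofReal_coe_nnreal]
  have htail := ht.eventually ((hW.ufam hd).tail (hW.fam hd) hdp (t := c + δ)
    (by rw [hc, hct]; exact ENNReal.lt_add_right ENNReal.coe_ne_top hδ'.ne') hδ)
  filter_upwards [htail, (ENNReal.tendsto_nhds ENNReal.coe_ne_top).1 hlim _ hδ',
    Filter.eventually_gt_atTop 0] with T h1 h2 hT
  obtain ⟨H, hH, hH1, hH2⟩ := hW.majorant hd hp hT (c + δ)
  have hΛd : 0 < (T ^ (1 / ((d : ℝ) - 2))) ^ d := pow_pos (Real.rpow_pos_of_pos hT _) d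
  have h3 : ∫⁻ x in cube 0 1, ∫⁻ w, H (x, w) ∂W ≤ ENNReal.ofReal δ := by
    rw [hH2, ENNReal.div_le_iff (ENNReal.ofReal_pos.2 hΛd).ne' ENNReal.ofReal_ne_top,
      ← ENNReal.ofReal_mul hδ.le]
    exact h1
  have hTe : ENNReal.ofReal (T ^ (1 - p / ((d : ℝ) - 2))) ≠ 0 :=
    (ENNReal.ofReal_pos.2 (Real.rpow_pos_of_pos hT _)).ne'
  have h4 : (c : ℝ≥0∞) ≤ ∫⁻ w, WTor p ((occ 0 w (Set.Icc 0 T)).map frac) /
      ENNReal.ofReal (T ^ (1 - p / ((d : ℝ) - 2))) ∂W + ENNReal.ofReal δ := by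
    simp only [ENNReal.div_eq_inv_mul]
    rw [lintegral_const_mul' _ _ (ENNReal.inv_ne_top.2 hTe), ← torusCost_start hp.le,
      ← ENNReal.div_eq_inv_mul]
    exact tsub_le_iff_right.1 h2.1
  have h5 := fun x : E d => sa2_dev W (H := fun w => H (x, w) + ENNReal.ofReal δ)
    ((hH.comp measurable_prodMk_left).add_const _) ENNReal.coe_ne_top (fun w => by
      have h6 := hH1 x w
      rw [WTor_start hp.le, hct, tsub_le_iff_right] at h6
      rw [tsub_le_iff_right]
      refine h6.trans (le_of_eq ?_)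
      ring) h4
  have h7 := lintegral_mono (μ := (volume : Measure (E d)).restrict (cube 0 1)) h5
  simp only [lintegral_add_right _ measurable_const, lintegral_const, measure_univ, mul_one,
    mul_add, Measure.restrict_apply_univ, volume_cube (0 : E d) zero_le_one, one_pow,
    ENNReal.ofReal_one] at h7
  rw [lintegral_const_mul' _ _ (by norm_num)] at h7
  refine h7.trans (le_trans ?_ hδε)
  calc 2 * (∫⁻ x in cube 0 1, ∫⁻ w, H (x, w) ∂W) + 2 * ENNReal.ofReal δ + ENNReal.ofReal δ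
      ≤ 2 * ENNReal.ofReal δ + 2 * ENNReal.ofReal δ + ENNReal.ofReal δ := by gcongr
    _ = _ := by ring

end Pool.Agent.Lib.MP_fe8b6f_pr
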