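import Pool.Agent.Lib.MP_fe8b6f_pr.SA2

/-! Change of the speed of the Brownian motion. -/

open MeasureTheory ProbabilityTheory
open scoped NNReal ENNReal

noncomputable section

namespace Pool.Agent.Lib.MP_fe8b6f_pr

variable {d : ℕ}

theorem Wc_smul (c : E d → E d → ℝ≥0∞) {r : ℝ≥0∞} (h0 : r ≠ 0) (hr : r ≠ ⊤)
    (μ ν : Measure (E d)) : Wc c (r • μ) (r • ν) = r * Wc c μ ν := by
  refine le_antisymm (Wc_smul_le c hr μ ν) ?_
  have h := Wc_smul_le c (ENNReal.inv_ne_top.2 h0) (r • μ) (r • ν)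
  rw [smul_smul, smul_smul, ENNReal.inv_mul_cancel h0 hr, one_smul, one_smul] at h
  refine (mul_le_mul_right h r).trans (le_of_eq ?_)
  rw [← mul_assoc, ENNReal.mul_inv_cancel h0 hr, one_mul]

theorem WTor_smul (p : ℝ) {r : ℝ≥0∞} (h0 : r ≠ 0) (hr : r ≠ ⊤) (μ : Measure (E d)) :
    WTor p (r • μ) = r * WTor p μ := by
  rw [WTor, WTor, Measure.smul_apply, smul_eq_mul, ← smul_smul, Wc_smul _ h0 hr]

theorem WDom_smul (p : ℝ) (Ω : Set (E d)) {r : ℝ≥0∞} (h0 : r ≠ 0) (hr : r ≠ ⊤)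
    (μ : Measure (E d)) : WDom p Ω (r • μ) = r * WDom p Ω μ := by
  rw [WDom, WDom, Measure.restrict_smul, Measure.smul_apply, smul_eq_mul, mul_div_assoc,
    ← smul_smul, Wp, Wp, Wc_smul _ h0 hr]

/-- Brownian scaling as a measurable equivalence -/
def scalE {c : ℝ≥0} (hc : c ≠ 0) : Path d ≃ᵐ Path d :=
  Homeomorph.toMeasurableEquiv
    { toFun := scal c
      invFun := scal c⁻¹
      left_inv := fun w => by
        ext s i
        have e : s / c⁻¹ ^ 2 / c ^ 2 = s := by field_simp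
        change ((c⁻¹ : ℝ≥0) : ℝ) * ((c : ℝ) * w (s / c⁻¹ ^ 2 / c ^ 2) i) = w s i
        rw [e, NNReal.coe_inv, inv_mul_cancel_left₀ (NNReal.coe_ne_zero.2 hc)]
      right_inv := fun w => by
        ext s i
        have e : s / c ^ 2 / c⁻¹ ^ 2 = s := by field_simp
        change (c : ℝ) * (((c⁻¹ : ℝ≥0) : ℝ) * w (s / c ^ 2 / c⁻¹ ^ 2) i) = w s i
        rw [e, NNReal.coe_inv, mul_inv_cancel_left₀ (NNReal.coe_ne_zero.2 hc)]
      continuous_toFun := continuous_scal c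
      continuous_invFun := continuous_scal c⁻¹ }

/-- dilation of paths as a measurable equivalence -/
def dilE {c : ℝ≥0} (hc : c ≠ 0) : Path d ≃ᵐ Path d :=
  (Homeomorph.smulOfNeZero (c : ℝ) (NNReal.coe_ne_zero.2 hc)).toMeasurableEquiv

theorem occ_dil {c : ℝ≥0} (hc : c ≠ 0) (x : E d) (w : Path d) {I : Set ℝ} (hI : MeasurableSet I) :
    occ x ((c : ℝ) • w) I =
      ((c : ℝ≥0∞) ^ 2)⁻¹ • occ x (scal c w) ((fun s => s / (c : ℝ) ^ 2) ⁻¹' I) := by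
  have hc' : (c : ℝ) ≠ 0 := NNReal.coe_ne_zero.2 hc
  have h := occ_scal hc ((c : ℝ)⁻¹ • x) w hI
  rw [smul_inv_smul₀ hc'] at h
  rw [h, smul_smul, ENNReal.inv_mul_cancel (pow_ne_zero _ (ENNReal.coe_ne_zero.2 hc))
    (ENNReal.pow_ne_top ENNReal.coe_ne_top), one_smul, occ, occ,
    Measure.map_map (measurable_const_smul _) (bmb2_meas _ w)]
  congr 1
  funext t
  simp only [Function.comp_apply, smul_add, smul_inv_smul₀ hc', ContinuousMap.smul_apply]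

theorem IsWiener.lintegral_dil {W : Measure (Path d)} (hW : IsWiener W) {c : ℝ≥0} (hc : c ≠ 0)
    (p T : ℝ) (x : E d) (F : ℝ≥0∞ → ℝ≥0∞) :
    ∫⁻ w, F (WTor p ((occ x w (Set.Icc 0 T)).map frac)) ∂(W.map fun w => (c : ℝ) • w) =
      ∫⁻ w, F (((c : ℝ≥0∞) ^ 2)⁻¹ *
        WTor p ((occ x w (Set.Icc 0 ((c : ℝ) ^ 2 * T))).map frac)) ∂W := by
  have hc2 : (0 : ℝ) < (c : ℝ) ^ 2 := pow_pos (NNReal.coe_pos.2 (pos_iff_ne_zero.2 hc)) 2
  have hpre : (fun s : ℝ => s / (c : ℝ) ^ 2) ⁻¹' Set.Icc 0 T = Set.Icc 0 ((c : ℝ) ^ 2 * T) := by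
    ext s
    simp only [Set.mem_preimage, Set.mem_Icc]
    rw [div_le_iff₀ hc2, le_div_iff₀ hc2, zero_mul, mul_comm]
  have h1 := lintegral_map_equiv (μ := W)
    (fun w => F (WTor p ((occ x w (Set.Icc 0 T)).map frac))) (dilE hc)
  have h2 := lintegral_map_equiv (μ := W) (fun w => F (((c : ℝ≥0∞) ^ 2)⁻¹ *
    WTor p ((occ x w (Set.Icc 0 ((c : ℝ) ^ 2 * T))).map frac))) (scalE hc)
  rw [show W.map (scalE hc) = W from hW.map_scal hc] at h2
  rw [h2]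
  refine h1.trans (lintegral_congr fun w => ?_)
  change F (WTor p ((occ x ((c : ℝ) • w) _).map frac)) = F (_ * WTor p ((occ x (scal c w) _).map frac))
  rw [occ_dil hc x w measurableSet_Icc, hpre, Measure.map_smul, WTor_smul p
    (ENNReal.inv_ne_zero.2 (ENNReal.pow_ne_top ENNReal.coe_ne_top))
    (ENNReal.inv_ne_top.2 (pow_ne_zero _ (ENNReal.coe_ne_zero.2 hc)))]

theorem IsWiener.torusCost_dil {W : Measure (Path d)} (hW : IsWiener W) {c : ℝ≥0} (hc : c ≠ 0)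
    (p T : ℝ) : torusCost p (W.map fun w => (c : ℝ) • w) T =
      ((c : ℝ≥0∞) ^ 2)⁻¹ * torusCost p W ((c : ℝ) ^ 2 * T) := by
  have ht : ((c : ℝ≥0∞) ^ 2)⁻¹ ≠ ⊤ :=
    ENNReal.inv_ne_top.2 (pow_ne_zero _ (ENNReal.coe_ne_zero.2 hc))
  unfold torusCost
  rw [← lintegral_const_mul' _ _ ht]
  refine lintegral_congr fun x => ?_
  rw [← lintegral_const_mul' _ _ ht]
  exact hW.lintegral_dil hc p T x fun y => y

theorem IsWiener.interCost_dil {W : Measure (Path d)} (hW : IsWiener W) {c : ℝ≥0} (hc : c ≠ 0)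
    (p R : ℝ) (Ω : Set (E d)) (u : ℝ) : interCost p (W.map fun w => (c : ℝ) • w) R Ω u =
      ((c : ℝ≥0∞) ^ 2)⁻¹ * interCost p W R Ω u := by
  have := hW.isProbabilityMeasure
  have := isProbabilityMeasure_sphereUnif (d := d) R
  have ht : ((c : ℝ≥0∞) ^ 2)⁻¹ ≠ ⊤ :=
    ENNReal.inv_ne_top.2 (pow_ne_zero _ (ENNReal.coe_ne_zero.2 hc))
  have h0 : ((c : ℝ≥0∞) ^ 2)⁻¹ ≠ 0 := ENNReal.inv_ne_zero.2 (ENNReal.pow_ne_top ENNReal.coe_ne_top)
  have hc2 : (0 : ℝ) < (c : ℝ) ^ 2 := pow_pos (NNReal.coe_pos.2 (pos_iff_ne_zero.2 hc)) 2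
  have hpre : (fun s : ℝ => s / (c : ℝ) ^ 2) ⁻¹' Set.Ici 0 = Set.Ici 0 := by
    ext s
    simp only [Set.mem_preimage, Set.mem_Ici]
    rw [le_div_iff₀ hc2, zero_mul]
  have : IsProbabilityMeasure (W.map fun w => (c : ℝ) • w) :=
    Measure.isProbabilityMeasure_map (dilE hc).measurable.aemeasurable
  have m1 : MeasurePreserving ((MeasurableEquiv.refl (E d)).prodCongr (dilE hc))
      ((sphereUnif d R).prod W) ((sphereUnif d R).prod (W.map fun w => (c : ℝ) • w)) :=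
    (MeasurePreserving.id _).prod ⟨(dilE hc).measurable, rfl⟩
  have m2 : MeasurePreserving ((MeasurableEquiv.refl (E d)).prodCongr (scalE hc))
      ((sphereUnif d R).prod W) ((sphereUnif d R).prod W) :=
    (MeasurePreserving.id _).prod ⟨(scalE hc).measurable, hW.map_scal hc⟩
  unfold interCost
  rw [← lintegral_const_mul' _ _ ht]
  refine lintegral_congr fun n => ?_
  rw [← lintegral_const_mul' _ _ ht,
    MeasurePreserving.lintegral_map_equiv _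
      (MeasurableEquiv.piCongrRight fun _ : Fin n => (MeasurableEquiv.refl (E d)).prodCongr (dilE hc))
      (measurePreserving_pi _ _ fun _ => m1),
    MeasurePreserving.lintegral_map_equiv (fun X : Fin n → E d × Path d => ((c : ℝ≥0∞) ^ 2)⁻¹ * _)
      (MeasurableEquiv.piCongrRight fun _ : Fin n => (MeasurableEquiv.refl (E d)).prodCongr (scalE hc))
      (measurePreserving_pi _ _ fun _ => m2)]
  refine lintegral_congr fun X => ?_
  change WDom p Ω (∑ i, (occ (X i).1 ((c : ℝ) • (X i).2) _).restrict _) =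
    _ * WDom p Ω (∑ i, (occ (X i).1 (scal c (X i).2) _).restrict _)
  simp only [occ_dil hc _ _ measurableSet_Ici, hpre, Measure.restrict_smul]
  rw [← Finset.smul_sum, WDom_smul p Ω h0 ht]

theorem sa3_ratio {c : ℝ≥0} (hc : c ≠ 0) (e : ℝ) {T : ℝ} (hT : 0 < T) (y : ℝ≥0∞) :
    ((c : ℝ≥0∞) ^ 2)⁻¹ * y / ENNReal.ofReal (T ^ e) =
      (((c ^ 2)⁻¹ * (c ^ 2) ^ e : ℝ≥0) : ℝ≥0∞) * (y / ENNReal.ofReal (((c : ℝ) ^ 2 * T) ^ e)) := by
  have hc2 : (0 : ℝ) < (c : ℝ) ^ 2 := pow_pos (NNReal.coe_pos.2 (pos_iff_ne_zero.2 hc)) 2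
  have h1 : (((c ^ 2) ^ e : ℝ≥0) : ℝ≥0∞) = ENNReal.ofReal (((c : ℝ) ^ 2) ^ e) := by
    rw [← ENNReal.ofReal_coe_nnreal, NNReal.coe_rpow, NNReal.coe_pow]
  have h2 : ENNReal.ofReal (((c : ℝ) ^ 2) ^ e) ≠ 0 :=
    (ENNReal.ofReal_pos.2 (Real.rpow_pos_of_pos hc2 e)).ne'
  rw [ENNReal.coe_mul, ENNReal.coe_inv (pow_ne_zero _ hc), ENNReal.coe_pow, h1,
    Real.mul_rpow hc2.le hT.le, ENNReal.ofReal_mul (Real.rpow_pos_of_pos hc2 e).le, mul_assoc,
    ← mul_div_assoc (ENNReal.ofReal _), ENNReal.mul_div_mul_left _ _ h2 ENNReal.ofReal_ne_top,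
    mul_div_assoc]

/-- the limit theorems for the motion of speed `c` follow from those of the standard motion -/
theorem IsWiener.dil_limits {W : Measure (Path d)} (hW : IsWiener W) {p : ℝ} (hp : 0 < p)
    {c : ℝ≥0} (hc : c ≠ 0) (e : ℝ) {a : ℝ≥0} :
    (∀ (R : ℝ) (Ω : Set (E d)), Filter.Tendsto (fun u : ℝ => interCost p W R Ω u /
        ENNReal.ofReal (u ^ e)) Filter.atTop (nhds (a : ℝ≥0∞)) →
      Filter.Tendsto (fun u : ℝ => interCost p (W.map fun w => (c : ℝ) • w) R Ω ((c : ℝ) ^ 2 * u) /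
        ENNReal.ofReal (u ^ e)) Filter.atTop
        (nhds (((c ^ 2)⁻¹ * (c ^ 2) ^ e * a : ℝ≥0) : ℝ≥0∞))) ∧
    (Filter.Tendsto (fun T : ℝ => torusCost p W T / ENNReal.ofReal (T ^ e)) Filter.atTop
        (nhds (a : ℝ≥0∞)) →
      Filter.Tendsto (fun T : ℝ => torusCost p (W.map fun w => (c : ℝ) • w) T /
        ENNReal.ofReal (T ^ e)) Filter.atTop
        (nhds (((c ^ 2)⁻¹ * (c ^ 2) ^ e * a : ℝ≥0) : ℝ≥0∞))) ∧
    (Filter.Tendsto (fun T : ℝ => ∫⁻ w,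
        ((WTor p ((occ 0 w (Set.Icc 0 T)).map frac) / ENNReal.ofReal (T ^ e) - a) +
          (a - WTor p ((occ 0 w (Set.Icc 0 T)).map frac) / ENNReal.ofReal (T ^ e))) ∂W)
        Filter.atTop (nhds 0) →
      ∀ ν : Measure (E d), IsProbabilityMeasure ν → Filter.Tendsto (fun T : ℝ => ∫⁻ x, ∫⁻ w,
        ((WTor p ((occ x w (Set.Icc 0 T)).map frac) / ENNReal.ofReal (T ^ e) -
          (((c ^ 2)⁻¹ * (c ^ 2) ^ e * a : ℝ≥0) : ℝ≥0∞)) +
          ((((c ^ 2)⁻¹ * (c ^ 2) ^ e * a : ℝ≥0) : ℝ≥0∞) -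
            WTor p ((occ x w (Set.Icc 0 T)).map frac) / ENNReal.ofReal (T ^ e)))
          ∂(W.map fun w => (c : ℝ) • w) ∂ν) Filter.atTop (nhds 0)) := by
  have hc2 : (0 : ℝ) < (c : ℝ) ^ 2 := pow_pos (NNReal.coe_pos.2 (pos_iff_ne_zero.2 hc)) 2
  have ht : Filter.Tendsto (fun T : ℝ => (c : ℝ) ^ 2 * T) Filter.atTop Filter.atTop :=
    Filter.tendsto_id.const_mul_atTop hc2
  set κ : ℝ≥0 := (c ^ 2)⁻¹ * (c ^ 2) ^ e with hκ
  refine ⟨fun R Ω h => ?_, fun h => ?_, fun h ν hν => ?_⟩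
  · rw [ENNReal.coe_mul]
    refine (ENNReal.Tendsto.const_mul (h.comp ht) (Or.inr ENNReal.coe_ne_top)).congr' ?_
    filter_upwards [Filter.eventually_gt_atTop 0] with u hu
    rw [hW.interCost_dil hc, sa3_ratio hc e hu]
    rfl
  · rw [ENNReal.coe_mul]
    refine (ENNReal.Tendsto.const_mul (h.comp ht) (Or.inr ENNReal.coe_ne_top)).congr' ?_
    filter_upwards [Filter.eventually_gt_atTop 0] with T hT
    rw [hW.torusCost_dil hc, sa3_ratio hc e hT]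
    rfl
  · have h1 := ENNReal.Tendsto.const_mul (a := (κ : ℝ≥0∞)) (h.comp ht) (Or.inr ENNReal.coe_ne_top)
    rw [mul_zero] at h1
    refine h1.congr' ?_
    filter_upwards [Filter.eventually_gt_atTop 0] with T hT
    simp only [fun x w => WTor_start hp.le x w (Set.Icc 0 T)]
    rw [lintegral_const, measure_univ, mul_one, hW.lintegral_dil hc p T 0 fun y =>
      (y / ENNReal.ofReal (T ^ e) - ((κ * a : ℝ≥0) : ℝ≥0∞)) +
        (((κ * a : ℝ≥0) : ℝ≥0∞) - y / ENNReal.ofReal (T ^ e)),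
      Function.comp_apply, ← lintegral_const_mul' _ _ ENNReal.coe_ne_top]
    refine lintegral_congr fun w => ?_
    rw [sa3_ratio hc e hT, ENNReal.coe_mul κ a, mul_add,
      ENNReal.mul_sub fun _ _ => ENNReal.coe_ne_top, ENNReal.mul_sub fun _ _ => ENNReal.coe_ne_top]

end Pool.Agent.Lib.MP_fe8b6f_pr
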