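import Pool.Agent.Lib.MP_fe8b6f_pr.HO

/-! Strong Markov property at the hitting time of a closed set. -/

open MeasureTheory ProbabilityTheory
open scoped NNReal ENNReal

noncomputable section

namespace Pool.Agent.Lib.MP_fe8b6f_pr

variable {d : ℕ}

theorem sm_ht_le {K : Set (E d)} {q : E d × Path d} {t : ℝ≥0} (h : q.1 + q.2 t ∈ K) :
    ht K q ≤ t :=
  csInf_le (OrderBot.bddBelow _) h

theorem sm_ht_mem {K : Set (E d)} (hK : IsClosed K) {q : E d × Path d} {t : ℝ≥0}
    (h : q.1 + q.2 t ∈ K) : q.1 + q.2 (ht K q) ∈ K := by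
  have hc : IsClosed {t : ℝ≥0 | q.1 + q.2 t ∈ K} :=
    hK.preimage (continuous_const.add q.2.continuous)
  exact hc.csInf_mem ⟨t, h⟩ (OrderBot.bddBelow _)

theorem sm_mem_hitS {K : Set (E d)} {q : E d × Path d} {τ : ℝ} {t : ℝ≥0}
    (h : q.1 + q.2 t ∈ K) (hτ : (t : ℝ) ≤ τ) : q ∈ hitS K (Set.Icc 0 τ) :=
  ⟨t, ⟨t.2, hτ⟩, by simpa using h⟩

theorem ht_mem {K : Set (E d)} (hK : IsClosed K) {q : E d × Path d} {τ : ℝ}
    (hq : q ∈ hitS K (Set.Icc 0 τ)) : q.1 + q.2 (ht K q) ∈ K ∧ (ht K q : ℝ) ≤ τ := by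
  obtain ⟨t, ⟨h0, hτ⟩, h⟩ := hq
  refine ⟨sm_ht_mem hK h, ?_⟩
  have h1 : (ht K q : ℝ) ≤ (t.toNNReal : ℝ) := NNReal.coe_le_coe.2 (sm_ht_le h)
  rw [Real.coe_toNNReal t h0] at h1
  exact h1.trans hτ

theorem measurable_ht {K : Set (E d)} (hK : IsClosed K) : Measurable (ht K) := by
  refine measurable_of_Iic fun a => ?_
  have hs : ht K ⁻¹' Set.Iic a = hitS K (Set.Icc 0 (a : ℝ)) ∪ (hitS K (Set.Ici 0))ᶜ := by
    ext q
    simp only [Set.mem_preimage, Set.mem_Iic, Set.mem_union, Set.mem_compl_iff]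
    constructor
    · intro h
      by_cases hq : q ∈ hitS K (Set.Ici 0)
      · left
        obtain ⟨t, -, ht'⟩ := hq
        exact sm_mem_hitS (sm_ht_mem hK ht') (NNReal.coe_le_coe.2 h)
      · right
        exact hq
    · rintro (h | h)
      · exact NNReal.coe_le_coe.1 (ht_mem hK h).2
      · have he : {t : ℝ≥0 | q.1 + q.2 t ∈ K} = ∅ := by
          ext t
          simp only [Set.mem_ofPred_eq, Set.mem_empty_iff_false, iff_false]
          intro ht'
          exact h ⟨t, t.2, by simpa using ht'⟩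
        have : ht K q = 0 := by
          unfold ht
          rw [he]
          exact NNReal.sInf_empty
        rw [this]
        exact zero_le
  rw [hs]
  exact (isClosed_hitS_Icc hK 0 a).measurableSet.union (measurableSet_hitS_Ici hK 0).compl

theorem not_mem_of_lt_ht {K : Set (E d)} {q : E d × Path d} {t : ℝ≥0} (h : t < ht K q) :
    q.1 + q.2 t ∉ K :=
  fun h' => absurd (sm_ht_le h') (not_le.2 h)

/-- index of the dyadic interval containing `t` -/
def smIdx (n : ℕ) (t : ℝ≥0) : ℕ := ⌊t * 2 ^ n⌋₊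

/-- right end point of the `j`-th dyadic interval -/
def smT (n j : ℕ) : ℝ≥0 := ((j : ℝ≥0) + 1) / 2 ^ n

theorem sm_lt_smT (n : ℕ) (t : ℝ≥0) : t < smT n (smIdx n t) := by
  unfold smT smIdx
  rw [lt_div_iff₀ (by positivity)]
  exact Nat.lt_floor_add_one _

theorem sm_smT_le (n : ℕ) (t : ℝ≥0) : smT n (smIdx n t) ≤ t + (2⁻¹ : ℝ≥0) ^ n := by
  unfold smT smIdx
  rw [div_le_iff₀ (by positivity), add_mul, ← mul_pow, inv_mul_cancel₀ (by norm_num), one_pow]
  exact add_le_add (Nat.floor_le zero_le) le_rfl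

theorem sm_tendsto (t : ℝ≥0) :
    Filter.Tendsto (fun n => smT n (smIdx n t)) Filter.atTop (nhds t) := by
  have h1 : Filter.Tendsto (fun n : ℕ => t + (2⁻¹ : ℝ≥0) ^ n) Filter.atTop (nhds (t + 0)) :=
    tendsto_const_nhds.add (NNReal.tendsto_pow_atTop_nhds_zero_of_lt_one (by norm_num))
  rw [add_zero] at h1
  exact tendsto_of_tendsto_of_tendsto_of_le_of_le tendsto_const_nhds h1
    (fun n => (sm_lt_smT n t).le) (fun n => sm_smT_le n t)

theorem sm_measurable_idx (n : ℕ) : Measurable (smIdx n) :=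
  Nat.measurable_floor.comp (measurable_id.mul_const _)

/-- the hitting time before `t` is read from the stopped path -/
theorem sm_stop_of {K : Set (E d)} (hK : IsClosed K) {x : E d} {w : Path d} {τ : ℝ} {t : ℝ≥0}
    (h : (x, w) ∈ hitS K (Set.Icc 0 τ)) (hlt : ht K (x, w) < t) :
    (x, stop t w) ∈ hitS K (Set.Icc 0 τ) ∧ ht K (x, stop t w) = ht K (x, w) := by
  obtain ⟨h1, h2⟩ := ht_mem hK h
  have h3 : (x, stop t w).1 + (x, stop t w).2 (ht K (x, w)) ∈ K := by
    show x + stop t w (ht K (x, w)) ∈ K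
    rw [stop_apply, min_eq_left hlt.le]
    exact h1
  refine ⟨sm_mem_hitS h3 h2, le_antisymm (sm_ht_le h3) ?_⟩
  have h4 : x + stop t w (ht K (x, stop t w)) ∈ K := sm_ht_mem hK h3
  rw [stop_apply] at h4
  exact (sm_ht_le (q := (x, w)) h4).trans (min_le_left _ _)

theorem sm_of_stop {K : Set (E d)} (hK : IsClosed K) {x : E d} {w : Path d} {τ : ℝ} {t : ℝ≥0}
    (h : (x, stop t w) ∈ hitS K (Set.Icc 0 τ)) (hlt : ht K (x, stop t w) < t) :
    (x, w) ∈ hitS K (Set.Icc 0 τ) ∧ ht K (x, w) < t := by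
  obtain ⟨h1, h2⟩ := ht_mem hK h
  have h3 : x + w (ht K (x, stop t w)) ∈ K := by
    have h4 : x + stop t w (ht K (x, stop t w)) ∈ K := h1
    rwa [stop_apply, min_eq_left hlt.le] at h4
  exact ⟨sm_mem_hitS (q := (x, w)) h3 h2, (sm_ht_le (q := (x, w)) h3).trans_lt hlt⟩

theorem sm_measurable_H {K : Set (E d)} (hK : IsClosed K) (x : E d) :
    Measurable fun w : Path d => ht K (x, w) :=
  (measurable_ht hK).comp measurable_prodMk_left

theorem sm_measurable_pos {K : Set (E d)} (hK : IsClosed K) (x : E d) :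
    Measurable fun w : Path d => (ht K (x, w), x + w (ht K (x, w))) :=
  (sm_measurable_H hK x).prodMk
    (measurable_const.add
      (measurable_path_eval.comp (measurable_id.prodMk (sm_measurable_H hK x))))

theorem sm_measurableSet {K : Set (E d)} (hK : IsClosed K) (x : E d) (τ : ℝ) :
    MeasurableSet {w : Path d | (x, w) ∈ hitS K (Set.Icc 0 τ)} :=
  measurable_prodMk_left (isClosed_hitS_Icc hK 0 τ).measurableSet

/-- one dyadic piece -/
theorem sm_piece {W : Measure (Path d)} (hW : IsWiener W) {K : Set (E d)} (hK : IsClosed K)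
    (x : E d) (τ : ℝ) (n j : ℕ) {Φ : (ℝ≥0 × E d) × Path d → ℝ≥0∞} (hΦ : Measurable Φ) :
    ∫⁻ w in {w : Path d | (x, w) ∈ hitS K (Set.Icc 0 τ) ∧ smIdx n (ht K (x, w)) = j},
        Φ ((ht K (x, w), x + w (ht K (x, w))), shift (smT n j) w) ∂W =
      ∫⁻ w in {w : Path d | (x, w) ∈ hitS K (Set.Icc 0 τ) ∧ smIdx n (ht K (x, w)) = j},
        (∫⁻ w', Φ ((ht K (x, w), x + w (ht K (x, w))), w') ∂W) ∂W := by
  set B : Set (Path d) :=
    {w : Path d | (x, w) ∈ hitS K (Set.Icc 0 τ) ∧ smIdx n (ht K (x, w)) = j} with hB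
  have hBm : MeasurableSet B :=
    (sm_measurableSet hK x τ).inter
      (((sm_measurable_idx n).comp (sm_measurable_H hK x)) (measurableSet_singleton j))
  set Ψ : Path d × Path d → ℝ≥0∞ := fun p =>
    (Prod.fst ⁻¹' B).indicator
      (fun p : Path d × Path d => Φ ((ht K (x, p.1), x + p.1 (ht K (x, p.1))), p.2)) p with hΨ
  have hΨm : Measurable Ψ :=
    (hΦ.comp (((sm_measurable_pos hK x).comp measurable_fst).prodMk measurable_snd)).indicator
      (measurable_fst hBm)
  have key : ∀ w w' : Path d, Ψ (stop (smT n j) w, w') =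
      B.indicator (fun w => Φ ((ht K (x, w), x + w (ht K (x, w))), w')) w := by
    intro w w'
    by_cases hw : w ∈ B
    · have hlt : ht K (x, w) < smT n j := by
        have := sm_lt_smT n (ht K (x, w))
        rwa [hw.2] at this
      obtain ⟨h1, h2⟩ := sm_stop_of hK hw.1 hlt
      have hs : (stop (smT n j) w, w') ∈ Prod.fst ⁻¹' B := ⟨h1, by
        show smIdx n (ht K (x, stop (smT n j) w)) = j
        rw [h2]; exact hw.2⟩
      rw [Set.indicator_of_mem hw, hΨ]
      simp only
      rw [Set.indicator_of_mem hs]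
      simp only
      rw [h2, stop_apply, min_eq_left hlt.le]
    · have hs : (stop (smT n j) w, w') ∉ Prod.fst ⁻¹' B := by
        intro hs
        have hs1 : (x, stop (smT n j) w) ∈ hitS K (Set.Icc 0 τ) := hs.1
        have hs2 : smIdx n (ht K (x, stop (smT n j) w)) = j := hs.2
        have hlt : ht K (x, stop (smT n j) w) < smT n j := by
          have := sm_lt_smT n (ht K (x, stop (smT n j) w))
          rwa [hs2] at this
        obtain ⟨h1, h2⟩ := sm_of_stop hK hs1 hlt
        obtain ⟨-, h3⟩ := sm_stop_of hK h1 h2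
        exact hw ⟨h1, by rw [← h3]; exact hs2⟩
      rw [Set.indicator_of_notMem hw, hΨ]
      simp only
      rw [Set.indicator_of_notMem hs]
  have hM := hW.markov (smT n j) hΨm
  rw [← lintegral_indicator hBm, ← lintegral_indicator hBm]
  refine (lintegral_congr fun w => ?_).trans (hM.trans (lintegral_congr fun w => ?_))
  · rw [key]
    by_cases hw : w ∈ B
    · rw [Set.indicator_of_mem hw, Set.indicator_of_mem hw]
    · rw [Set.indicator_of_notMem hw, Set.indicator_of_notMem hw]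
  · simp only [key]
    by_cases hw : w ∈ B
    · simp only [Set.indicator_of_mem hw]
    · simp only [Set.indicator_of_notMem hw, lintegral_zero]

/-- Markov property at the discretised hitting time -/
theorem sm_discrete {W : Measure (Path d)} (hW : IsWiener W) {K : Set (E d)} (hK : IsClosed K)
    (x : E d) (τ : ℝ) (n : ℕ) {Φ : (ℝ≥0 × E d) × Path d → ℝ≥0∞} (hΦ : Measurable Φ) :
    ∫⁻ w in {w : Path d | (x, w) ∈ hitS K (Set.Icc 0 τ)},
        Φ ((ht K (x, w), x + w (ht K (x, w))), shift (smT n (smIdx n (ht K (x, w)))) w) ∂W =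
      ∫⁻ w in {w : Path d | (x, w) ∈ hitS K (Set.Icc 0 τ)},
        (∫⁻ w', Φ ((ht K (x, w), x + w (ht K (x, w))), w') ∂W) ∂W := by
  set B : ℕ → Set (Path d) := fun j =>
    {w : Path d | (x, w) ∈ hitS K (Set.Icc 0 τ) ∧ smIdx n (ht K (x, w)) = j} with hB
  have hBm : ∀ j, MeasurableSet (B j) := fun j =>
    (sm_measurableSet hK x τ).inter
      (((sm_measurable_idx n).comp (sm_measurable_H hK x)) (measurableSet_singleton j))
  have hU : {w : Path d | (x, w) ∈ hitS K (Set.Icc 0 τ)} = ⋃ j, B j := by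
    ext w
    simp only [Set.mem_ofPred_eq, Set.mem_iUnion, hB]
    exact ⟨fun h => ⟨_, h, rfl⟩, fun ⟨_, h, _⟩ => h⟩
  have hD : Pairwise (Function.onFun Disjoint B) := by
    intro i j hij
    refine Set.disjoint_left.2 fun w hi hj => hij ?_
    exact hi.2.symm.trans hj.2
  rw [hU, lintegral_iUnion hBm hD, lintegral_iUnion hBm hD]
  refine tsum_congr fun j => ?_
  rw [← sm_piece hW hK x τ n j hΦ]
  refine setLIntegral_congr_fun (hBm j) fun w hw => ?_
  have h2 : smIdx n (ht K (x, w)) = j := hw.2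
  simp only [h2]

/-- strong Markov property for a fixed starting point -/
theorem sm_fixed {W : Measure (Path d)} (hW : IsWiener W) {K : Set (E d)} (hK : IsClosed K)
    (x : E d) (τ : ℝ) {Φ : (ℝ≥0 × E d) × Path d → ℝ≥0∞} (hΦ : Measurable Φ) :
    ∫⁻ w in {w : Path d | (x, w) ∈ hitS K (Set.Icc 0 τ)},
        Φ ((ht K (x, w), x + w (ht K (x, w))), shift (ht K (x, w)) w) ∂W =
      ∫⁻ w in {w : Path d | (x, w) ∈ hitS K (Set.Icc 0 τ)},
        (∫⁻ w', Φ ((ht K (x, w), x + w (ht K (x, w))), w') ∂W) ∂W := by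
  have := hW.isProbabilityMeasure
  set A : Set (Path d) := {w : Path d | (x, w) ∈ hitS K (Set.Icc 0 τ)} with hA
  set P : Path d → ℝ≥0 × E d := fun w => (ht K (x, w), x + w (ht K (x, w))) with hP
  have hPm : Measurable P := sm_measurable_pos hK x
  have hS : ∀ {H : Path d → ℝ≥0}, Measurable H → Measurable fun w => (P w, shift (H w) w) :=
    fun hH => hPm.prodMk (continuous_shift.measurable.comp (hH.prodMk measurable_id))
  have hR : ∀ {Φ : (ℝ≥0 × E d) × Path d → ℝ≥0∞}, Measurable Φ →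
      ∫⁻ z, Φ z ∂(((W.restrict A).map P).prod W) = ∫⁻ w in A, (∫⁻ w', Φ (P w, w') ∂W) ∂W := by
    intro Φ hΦ
    rw [lintegral_prod _ hΦ.aemeasurable, lintegral_map hΦ.lintegral_prod_right' hPm]
  have hμ : (W.restrict A).map (fun w => (P w, shift (ht K (x, w)) w)) =
      ((W.restrict A).map P).prod W := by
    refine ext_of_forall_lintegral_eq_of_IsFiniteMeasure fun f => ?_
    have hf : Measurable fun z => ((f z : ℝ≥0) : ℝ≥0∞) :=
      measurable_coe_nnreal_ennreal.comp f.continuous.measurable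
    rw [hR hf, lintegral_map hf (hS (sm_measurable_H hK x))]
    obtain ⟨C, hC⟩ : ∃ C : ℝ≥0, ∀ z, f z ≤ C :=
      ⟨nndist f 0, fun z => BoundedContinuousFunction.NNReal.upper_bound f z⟩
    have hlim : Filter.Tendsto
        (fun n => ∫⁻ w in A, ((f (P w, shift (smT n (smIdx n (ht K (x, w)))) w) : ℝ≥0) : ℝ≥0∞) ∂W)
        Filter.atTop
        (nhds (∫⁻ w in A, ((f (P w, shift (ht K (x, w)) w) : ℝ≥0) : ℝ≥0∞) ∂W)) := by
      refine tendsto_lintegral_of_dominated_convergence (fun _ => (C : ℝ≥0∞)) (fun n => ?_)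
        (fun n => Filter.Eventually.of_forall fun w => ENNReal.coe_le_coe.2 (hC _)) ?_
        (Filter.Eventually.of_forall fun w => ?_)
      · exact hf.comp (hS ((measurable_of_countable (smT n)).comp
          ((sm_measurable_idx n).comp (sm_measurable_H hK x))))
      · rw [lintegral_const]
        exact ENNReal.mul_ne_top ENNReal.coe_ne_top (measure_ne_top _ _)
      · have hc : Continuous fun t : ℝ≥0 => ((f (P w, shift t w) : ℝ≥0) : ℝ≥0∞) :=
          ENNReal.continuous_coe.comp (f.continuous.comp (continuous_const.prodMk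
            (continuous_shift.comp (continuous_id.prodMk continuous_const))))
        exact (hc.tendsto _).comp (sm_tendsto _)
    have hconst : (fun n => ∫⁻ w in A,
        ((f (P w, shift (smT n (smIdx n (ht K (x, w)))) w) : ℝ≥0) : ℝ≥0∞) ∂W) =
        fun _ => ∫⁻ w in A, (∫⁻ w', ((f (P w, w') : ℝ≥0) : ℝ≥0∞) ∂W) ∂W :=
      funext fun n => sm_discrete hW hK x τ n hf
    rw [hconst] at hlim
    exact tendsto_nhds_unique hlim tendsto_const_nhds
  have h1 := hR hΦ
  rw [← hμ, lintegral_map hΦ (hS (sm_measurable_H hK x))] at h1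
  exact h1

theorem IsWiener.strong_markov {W : Measure (Path d)} (hW : IsWiener W) {K : Set (E d)}
    (hK : IsClosed K) (ι : Measure (E d)) [SFinite ι] (τ : ℝ)
    {Φ : (ℝ≥0 × E d) × Path d → ℝ≥0∞} (hΦ : Measurable Φ) :
    ∫⁻ q in hitS K (Set.Icc 0 τ), Φ ((ht K q, q.1 + q.2 (ht K q)), shift (ht K q) q.2)
        ∂(ι.prod W) =
      ∫⁻ q in hitS K (Set.Icc 0 τ), (∫⁻ w', Φ ((ht K q, q.1 + q.2 (ht K q)), w') ∂W)
        ∂(ι.prod W) := by
  have := hW.isProbabilityMeasure
  have hA : MeasurableSet (hitS K (Set.Icc 0 τ)) := (isClosed_hitS_Icc hK 0 τ).measurableSet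
  have hPm : Measurable fun q : E d × Path d => (ht K q, q.1 + q.2 (ht K q)) :=
    (measurable_ht hK).prodMk (measurable_fst.add
      (measurable_path_eval.comp (measurable_snd.prodMk (measurable_ht hK))))
  have hL : Measurable fun q : E d × Path d =>
      Φ ((ht K q, q.1 + q.2 (ht K q)), shift (ht K q) q.2) :=
    hΦ.comp (hPm.prodMk
      (continuous_shift.measurable.comp ((measurable_ht hK).prodMk measurable_snd)))
  have hRm : Measurable fun q : E d × Path d =>
      ∫⁻ w', Φ ((ht K q, q.1 + q.2 (ht K q)), w') ∂W :=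
    hΦ.lintegral_prod_right'.comp hPm
  rw [← lintegral_indicator hA, ← lintegral_indicator hA,
    lintegral_prod _ (hL.indicator hA).aemeasurable,
    lintegral_prod _ (hRm.indicator hA).aemeasurable]
  refine lintegral_congr fun x => ?_
  have h := sm_fixed hW hK x τ hΦ
  rw [← lintegral_indicator (sm_measurableSet hK x τ),
    ← lintegral_indicator (sm_measurableSet hK x τ)] at h
  exact h

end Pool.Agent.Lib.MP_fe8b6f_pr
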