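import Mathlib

/-!
Definitions used in the statement: Wiener measure, occupation measures, transport costs,
stationary Brownian motion on the flat torus, Brownian interlacement in a ball.
-/

open MeasureTheory ProbabilityTheory
open scoped NNReal ENNReal

noncomputable section

namespace Pool.Agent.Lib.MP_fe8b6f_pr

/-- Euclidean space of dimension `d`. -/
abbrev E (d : ℕ) := EuclideanSpace ℝ (Fin d)

/-- Continuous paths from the half-line to `E d` (uniform convergence on compact sets). -/
abbrev Path (d : ℕ) := C(ℝ≥0, E d)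

/-- The Borel sigma-algebra on path space. -/
instance pathMeasurableSpace (d : ℕ) : MeasurableSpace (Path d) := borel _

instance pathBorelSpace (d : ℕ) : BorelSpace (Path d) := ⟨rfl⟩

variable {d : ℕ}

/-- `W` is the Wiener measure: the `d` coordinates of the canonical process are independent
standard real Brownian motions. -/
structure IsWiener (W : Measure (Path d)) : Prop where
  brownian : ∀ i : Fin d, IsBrownianReal (fun (t : ℝ≥0) (w : Path d) => w t i) W
  indep : iIndepFun (fun (i : Fin d) (w : Path d) (t : ℝ≥0) => w t i) W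

/-- Occupation measure of the path `t ↦ x + w t` during the time set `I`. -/
def occ (x : E d) (w : Path d) (I : Set ℝ) : Measure (E d) :=
  (volume.restrict I).map fun t : ℝ => x + w t.toNNReal

/-- Optimal transport cost between `μ` and `ν` for the cost function `c`:
the infimum of `∫ c dπ` over all couplings `π`. -/
def Wc (c : E d → E d → ℝ≥0∞) (μ ν : Measure (E d)) : ℝ≥0∞ :=
  ⨅ (π : Measure (E d × E d)) (_ : π.map Prod.fst = μ) (_ : π.map Prod.snd = ν),
    ∫⁻ z, c z.1 z.2 ∂π

/-- `W^p(μ, ν)` for the Euclidean distance (no `p`-th root). -/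
def Wp (p : ℝ) (μ ν : Measure (E d)) : ℝ≥0∞ := Wc (fun x y => ‖x - y‖ₑ ^ p) μ ν

/-- The half-open cube with lower corner `a` and side `s`. -/
def cube (a : E d) (s : ℝ) : Set (E d) := {x | ∀ i, a i ≤ x i ∧ x i < a i + s}

/-- `W^p_Ω(μ)`: cost of transporting `μ` restricted to `Ω` to the uniform measure of the same
mass on `Ω`. -/
def WDom (p : ℝ) (Ω : Set (E d)) (μ : Measure (E d)) : ℝ≥0∞ :=
  Wp p (μ.restrict Ω) ((μ Ω / volume Ω) • volume.restrict Ω)

/-- The point of `E d` with integer coordinates `k`. -/
def lat (k : Fin d → ℤ) : E d := WithLp.toLp 2 fun i => (k i : ℝ)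

/-- The flat distance on the torus, for representatives `x`, `y`. -/
def tdist (x y : E d) : ℝ≥0∞ := ⨅ k : Fin d → ℤ, ‖x - y - lat k‖ₑ

/-- The representative in `[0,1)^d` of the class of `x` in the torus. -/
def frac (x : E d) : E d := WithLp.toLp 2 fun i => Int.fract (x i)

/-- `W^p_{T^d}(μ)` for a measure `μ` on the torus, identified with `[0,1)^d`. -/
def WTor (p : ℝ) (μ : Measure (E d)) : ℝ≥0∞ :=
  Wc (fun x y => tdist x y ^ p) μ (μ Set.univ • volume.restrict (cube 0 1))

/-- `E[W^p_{T^d}(μ_T)]` for the stationary Brownian motion on the torus: uniform starting point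
`x` in `[0,1)^d`, Brownian path `w`, occupation measure up to time `T` projected to the torus. -/
def torusCost (p : ℝ) (W : Measure (Path d)) (T : ℝ) : ℝ≥0∞ :=
  ∫⁻ x in cube 0 1, ∫⁻ w, WTor p ((occ x w (Set.Icc 0 T)).map frac) ∂W

/-- The uniform probability measure on the sphere of radius `R` centred at the origin
(radial projection of the normalised Lebesgue measure of the unit ball). -/
def sphereUnif (d : ℕ) (R : ℝ) : Measure (E d) :=
  ((volume (Metric.ball (0 : E d) 1))⁻¹ • volume.restrict (Metric.ball (0 : E d) 1)).map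
    fun x => (R / ‖x‖) • x

/-- Newtonian capacity of a ball of radius `R` for standard Brownian motion in dimension `d`. -/
def capBall (d : ℕ) (R : ℝ) : ℝ :=
  2 * Real.pi ^ ((d : ℝ) / 2) * R ^ ((d : ℝ) - 2) / Real.Gamma ((d : ℝ) / 2 - 1)

/-- `E[W^p_Ω(I_u)]`, with the interlacement built in the closed ball `K` of radius `R`:
a Poisson number, of mean `u Cap(K)`, of independent Brownian motions started uniformly on the
boundary sphere, and the sum of their total occupation measures restricted to `K`. -/
def interCost (p : ℝ) (W : Measure (Path d)) (R : ℝ) (Ω : Set (E d)) (u : ℝ) : ℝ≥0∞ :=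
  ∫⁻ n, (∫⁻ X : Fin n → E d × Path d,
      WDom p Ω (∑ i, (occ (X i).1 (X i).2 (Set.Ici 0)).restrict (Metric.closedBall 0 R))
      ∂(Measure.pi fun _ => (sphereUnif d R).prod W))
    ∂(poissonMeasure (u * capBall d R).toNNReal)

/-- The range of pairs `(d, p)` of the problem. -/
def InRange (d : ℕ) (p : ℝ) : Prop :=
  ((d = 3 ∨ d = 4) ∧ 0 < p ∧ p < ((d : ℝ) - 2) / 2) ∨ (5 ≤ d ∧ 0 < p)

end Pool.Agent.Lib.MP_fe8b6f_pr
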