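import Pool.Agent.Lib.MP_fe8b6f_pr.TK2

/-! Heat kernel on the torus. Part 3. -/

open MeasureTheory ProbabilityTheory
open scoped NNReal ENNReal

noncomputable section

namespace Pool.Agent.Lib.MP_fe8b6f_pr

variable {d : ℕ}

theorem IsWiener.isProbabilityMeasure_TP {W : Measure (Path d)} (hW : IsWiener W) {Λ : ℝ}
    (hΛ : 0 < Λ) : IsProbabilityMeasure (TP W Λ) := by
  have hW1 := hW.isProbabilityMeasure
  refine ⟨?_⟩
  rw [TP, Measure.smul_apply, ← Set.univ_prod_univ, Measure.prod_prod, Measure.restrict_apply_univ,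
    volume_cube _ hΛ.le, measure_univ, mul_one, smul_eq_mul]
  exact ENNReal.inv_mul_cancel (ENNReal.ofReal_pos.2 (by positivity)).ne' ENNReal.ofReal_ne_top

theorem IsWiener.lintegral_TP {W : Measure (Path d)} (hW : IsWiener W) {Λ : ℝ}
    {Φ : E d × Path d → ℝ≥0∞} (hΦ : Measurable Φ) :
    ∫⁻ q, Φ q ∂(TP W Λ) = avz Λ fun x => ∫⁻ w, Φ (x, w) ∂W := by
  have hW1 := hW.isProbabilityMeasure
  rw [TP, lintegral_smul_measure, lintegral_prod _ hΦ.aemeasurable, avz, smul_eq_mul,
    ENNReal.div_eq_inv_mul]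

/-- stationarity on the torus -/
theorem IsWiener.TP_shift {W : Measure (Path d)} (hW : IsWiener W) {Λ : ℝ} (hΛ : 0 < Λ)
    (t : ℝ≥0) (z : E d) {Φ : E d × Path d → ℝ≥0∞} (hΦ : Measurable Φ)
    (hper : ∀ w, IsPer Λ fun x => Φ (x, w)) :
    ∫⁻ q, Φ (q.1 + q.2 t + z, shift t q.2) ∂(TP W Λ) = ∫⁻ q, Φ q ∂(TP W Λ) := by
  have hW1 := hW.isProbabilityMeasure
  have hs : Measurable (shift t : Path d → Path d) :=
    (continuous_shift.comp (continuous_const.prodMk continuous_id)).measurable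
  have hΨ : Measurable fun q : E d × Path d => Φ (q.1 + q.2 t + z, shift t q.2) :=
    hΦ.comp (((measurable_fst.add ((measurable_ev t).comp measurable_snd)).add_const z).prodMk
      (hs.comp measurable_snd))
  have hG : Measurable fun w : Path d => ∫⁻ x in cube 0 Λ, Φ (x, w) := hΦ.lintegral_prod_left'
  rw [TP, lintegral_smul_measure, lintegral_smul_measure, lintegral_prod_symm _ hΨ.aemeasurable,
    lintegral_prod_symm _ hΦ.aemeasurable]
  congr 1
  have h1 : ∀ w : Path d, ∫⁻ x in cube 0 Λ, Φ (x + w t + z, shift t w) =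
      ∫⁻ x in cube 0 Λ, Φ (x, shift t w) := by
    intro w
    have h2 := setLIntegral_per_shift hΛ (φ := fun x => Φ (x, shift t w))
      (hΦ.comp (measurable_id.prodMk measurable_const)) (hper _) (w t + z)
    simpa only [add_assoc] using h2
  simp only [h1]
  conv_rhs => rw [← hW.map_shift t, lintegral_map hG hs]

end Pool.Agent.Lib.MP_fe8b6f_pr
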