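import Pool.Agent.Lib.MP_fe8b6f_pr.BMb
import Pool.Agent.Lib.MP_fe8b6f_pr.Per

/-! Heat kernel on the torus. Part 1. -/

open MeasureTheory ProbabilityTheory
open scoped NNReal ENNReal

noncomputable section

namespace Pool.Agent.Lib.MP_fe8b6f_pr

variable {d : ℕ}

theorem tk1_young {η : ℝ} (hη : 0 < η) (u z : E d) :
    ‖u + z‖ ^ 2 ≤ (1 + η) * ‖u‖ ^ 2 + (1 + η) / η * ‖z‖ ^ 2 := by
  have h1 : ‖u + z‖ ^ 2 ≤ (‖u‖ + ‖z‖) ^ 2 :=
    pow_le_pow_left₀ (norm_nonneg _) (norm_add_le u z) 2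
  have h2 : (1 + η) * ‖u‖ ^ 2 + (1 + η) / η * ‖z‖ ^ 2 - (‖u‖ + ‖z‖) ^ 2 =
      (η * ‖u‖ - ‖z‖) ^ 2 / η := by
    field_simp
    ring
  have h3 : 0 ≤ (η * ‖u‖ - ‖z‖) ^ 2 / η := by positivity
  linarith

/-- comparison of heat kernels at nearby points and nearby times -/
theorem tk1_heat_le {s η : ℝ} (hs : 0 < s) (hη : 0 < η) (u z : E d)
    (hz : ‖z‖ ^ 2 ≤ 2 * s * η ^ 2) :
    heat s u ≤ ENNReal.ofReal (Real.exp (η * ((d : ℝ) / 2 + 1))) * heat (s * (1 + η)) (u + z) := by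
  unfold heat
  rw [← ENNReal.ofReal_mul (Real.exp_pos _).le]
  refine ENNReal.ofReal_le_ofReal ?_
  have h1η : 0 < 1 + η := by linarith
  have hA : (2 * Real.pi * s) ^ (-(d : ℝ) / 2) =
      (1 + η) ^ ((d : ℝ) / 2) * (2 * Real.pi * (s * (1 + η))) ^ (-(d : ℝ) / 2) := by
    have e1 : 2 * Real.pi * (s * (1 + η)) = (2 * Real.pi * s) * (1 + η) := by ring
    rw [e1, Real.mul_rpow (by positivity) h1η.le, mul_left_comm, ← Real.rpow_add h1η]
    have e2 : (d : ℝ) / 2 + -(d : ℝ) / 2 = 0 := by ring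
    rw [e2, Real.rpow_zero, mul_one]
  have hB : (1 + η) ^ ((d : ℝ) / 2) ≤ Real.exp (η * ((d : ℝ) / 2)) := by
    rw [Real.exp_mul]
    refine Real.rpow_le_rpow h1η.le ?_ (by positivity)
    have := Real.add_one_le_exp η
    linarith
  have hC : -‖u‖ ^ 2 / (2 * s) ≤ η + -‖u + z‖ ^ 2 / (2 * (s * (1 + η))) := by
    have h1 := tk1_young hη u z
    have h2 : (1 + η) / η * ‖z‖ ^ 2 ≤ (1 + η) / η * (2 * s * η ^ 2) :=
      mul_le_mul_of_nonneg_left hz (by positivity)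
    have h3 : (1 + η) / η * (2 * s * η ^ 2) = η * (2 * (s * (1 + η))) := by
      field_simp
    have h4 : -‖u‖ ^ 2 / (2 * s) = -((1 + η) * ‖u‖ ^ 2) / (2 * (s * (1 + η))) := by
      field_simp
    have h5 : η + -‖u + z‖ ^ 2 / (2 * (s * (1 + η))) =
        (η * (2 * (s * (1 + η))) + -‖u + z‖ ^ 2) / (2 * (s * (1 + η))) := by
      field_simp
    rw [h4, h5]
    refine div_le_div_of_nonneg_right ?_ (by positivity)
    linarith
  have hD : Real.exp (-‖u‖ ^ 2 / (2 * s)) ≤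
      Real.exp η * Real.exp (-‖u + z‖ ^ 2 / (2 * (s * (1 + η)))) := by
    rw [← Real.exp_add]
    exact Real.exp_le_exp.2 hC
  have hE : Real.exp (η * ((d : ℝ) / 2 + 1)) = Real.exp (η * ((d : ℝ) / 2)) * Real.exp η := by
    rw [← Real.exp_add]
    congr 1
    ring
  rw [hA, hE]
  have hP : 0 ≤ (2 * Real.pi * (s * (1 + η))) ^ (-(d : ℝ) / 2) := by positivity
  calc (1 + η) ^ ((d : ℝ) / 2) * (2 * Real.pi * (s * (1 + η))) ^ (-(d : ℝ) / 2) *
        Real.exp (-‖u‖ ^ 2 / (2 * s))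
      ≤ Real.exp (η * ((d : ℝ) / 2)) * (2 * Real.pi * (s * (1 + η))) ^ (-(d : ℝ) / 2) *
        (Real.exp η * Real.exp (-‖u + z‖ ^ 2 / (2 * (s * (1 + η))))) := by
        gcongr
    _ = _ := by ring

theorem tk1_measurable_heat (s : ℝ) : Measurable (heat s : E d → ℝ≥0∞) :=
  measurable_heat.comp measurable_prodMk_left

/-- the cell average of the heat semigroup applied to a periodic function -/
theorem tk1_avz_heat {Λ s : ℝ} (hΛ : 0 < Λ) (hs : 0 < s) (a : E d) {f : E d → ℝ≥0∞}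
    (hf : Measurable f) (hper : IsPer Λ f) :
    avz Λ (fun z => ∫⁻ y, f y * heat s (y - a - z)) = avz Λ f := by
  unfold avz
  congr 1
  have h1 : ∀ z : E d, ∫⁻ y, f y * heat s (y - a - z) = ∫⁻ u, f (z + (u + a)) * heat s u := by
    intro z
    rw [← lintegral_add_right_eq_self (μ := (volume : Measure (E d)))
      (fun y => f y * heat s (y - a - z)) (a + z)]
    refine lintegral_congr fun u => ?_
    have e1 : u + (a + z) - a - z = u := by abel
    have e2 : u + (a + z) = z + (u + a) := by abel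
    rw [e1, e2]
  simp only [h1]
  have hm : Measurable (Function.uncurry fun (z u : E d) => f (z + (u + a)) * heat s u) :=
    (hf.comp (measurable_fst.add (measurable_snd.add_const a))).mul
      ((tk1_measurable_heat s).comp measurable_snd)
  rw [lintegral_lintegral_swap hm.aemeasurable]
  have h2 : ∀ u : E d, ∫⁻ z in cube 0 Λ, f (z + (u + a)) * heat s u =
      (∫⁻ z in cube 0 Λ, f z) * heat s u := by
    intro u
    have hu : Measurable fun z : E d => f (z + (u + a)) :=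
      hf.comp (measurable_id.add_const (u + a))
    rw [lintegral_mul_const _ hu, setLIntegral_per_shift hΛ hf hper]
  simp only [h2]
  rw [lintegral_const_mul _ (tk1_measurable_heat s), lintegral_heat hs, mul_one]

theorem tk1_avz_mono (Λ : ℝ) {φ ψ : E d → ℝ≥0∞} (h : ∀ z ∈ cube (0 : E d) Λ, φ z ≤ ψ z) :
    avz Λ φ ≤ avz Λ ψ := by
  unfold avz
  exact ENNReal.div_le_div_right (setLIntegral_mono' (measurableSet_cube 0 Λ) h) _

theorem tk1_norm_sq_le {Λ : ℝ} (hΛ : 0 < Λ) {z : E d} (hz : z ∈ cube (0 : E d) Λ) :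
    ‖z‖ ^ 2 ≤ d * Λ ^ 2 := by
  have h1 : ‖z‖ ≤ √d * Λ := by
    have := cube_subset_closedBall hΛ.le hz
    rwa [mem_closedBall_zero_iff] at this
  have h2 : ‖z‖ ^ 2 ≤ (√d * Λ) ^ 2 := pow_le_pow_left₀ (norm_nonneg _) h1 2
  rwa [mul_pow, Real.sq_sqrt (Nat.cast_nonneg d)] at h2

theorem IsWiener.torus_mix {W : Measure (Path d)} (hW : IsWiener W) {ε : ℝ} (hε : 0 < ε) :
    ∃ C : ℝ, 0 < C ∧ ∀ (Λ t : ℝ) (a : E d) (f : E d → ℝ≥0∞), 0 < Λ → C * Λ ^ 2 ≤ t →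
      Measurable f → IsPer Λ f →
      ∫⁻ w, f (a + w t.toNNReal) ∂W ≤ ENNReal.ofReal (1 + ε) * avz Λ f ∧
        avz Λ f ≤ ENNReal.ofReal (1 + ε) * ∫⁻ w, f (a + w t.toNNReal) ∂W := by
  have hd0 : (0 : ℝ) < (d : ℝ) / 2 + 1 := by positivity
  obtain ⟨η, hη, hexp⟩ : ∃ η : ℝ, 0 < η ∧ Real.exp (η * ((d : ℝ) / 2 + 1)) = 1 + ε := by
    refine ⟨Real.log (1 + ε) / ((d : ℝ) / 2 + 1), div_pos (Real.log_pos (by linarith)) hd0, ?_⟩
    rw [div_mul_cancel₀ _ hd0.ne', Real.exp_log (by linarith)]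
  have h1η : 0 < 1 + η := by linarith
  refine ⟨d * (1 + η) / (2 * η ^ 2) + 1, by positivity, fun Λ t a f hΛ ht hf hper => ?_⟩
  have hC : 0 < (d * (1 + η) / (2 * η ^ 2) + 1) * Λ ^ 2 := by positivity
  have ht0 : 0 < t := hC.trans_le ht
  have hs0 : 0 < t / (1 + η) := div_pos ht0 h1η
  have hkey : (d : ℝ) * Λ ^ 2 ≤ 2 * (t / (1 + η)) * η ^ 2 := by
    have h1 : d * (1 + η) / (2 * η ^ 2) * Λ ^ 2 ≤ t := by
      have : 0 ≤ Λ ^ 2 := by positivity
      nlinarith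
    have h2 : (d : ℝ) * Λ ^ 2 =
        (d * (1 + η) / (2 * η ^ 2) * Λ ^ 2) * (2 * η ^ 2 / (1 + η)) := by
      field_simp
    have h3 : 2 * (t / (1 + η)) * η ^ 2 = t * (2 * η ^ 2 / (1 + η)) := by
      field_simp
    rw [h2, h3]
    exact mul_le_mul_of_nonneg_right h1 (by positivity)
  have hkey' : (d : ℝ) * Λ ^ 2 ≤ 2 * t * η ^ 2 := by
    refine hkey.trans ?_
    have : t / (1 + η) ≤ t := div_le_self ht0.le (by linarith)
    gcongr
  rw [hW.lintegral_eval ht0 a hf]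
  constructor
  · rw [← tk1_avz_heat hΛ (mul_pos ht0 h1η) a hf hper,
      ← avz_const_mul Λ ENNReal.ofReal_ne_top, ← avz_const hΛ (∫⁻ y, f y * heat t (y - a))]
    refine tk1_avz_mono Λ fun z hz => ?_
    rw [← lintegral_const_mul' _ _ ENNReal.ofReal_ne_top]
    refine lintegral_mono fun y => ?_
    have h1 := tk1_heat_le ht0 hη (y - a) (-z)
      (by rw [norm_neg]; exact (tk1_norm_sq_le hΛ hz).trans hkey')
    rw [hexp, ← sub_eq_add_neg] at h1
    rw [mul_left_comm]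
    exact mul_le_mul_right h1 _
  · rw [← tk1_avz_heat hΛ hs0 a hf hper,
      ← avz_const hΛ (ENNReal.ofReal (1 + ε) * ∫⁻ y, f y * heat t (y - a))]
    refine tk1_avz_mono Λ fun z hz => ?_
    rw [← lintegral_const_mul' _ _ ENNReal.ofReal_ne_top]
    refine lintegral_mono fun y => ?_
    have h1 := tk1_heat_le hs0 hη (y - a - z) z ((tk1_norm_sq_le hΛ hz).trans hkey)
    rw [hexp, sub_add_cancel, div_mul_cancel₀ _ h1η.ne'] at h1
    rw [mul_left_comm]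
    exact mul_le_mul_right h1 _

end Pool.Agent.Lib.MP_fe8b6f_pr
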