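import Pool.Agent.Lib.MP_fe8b6f_pr.TK1

/-! Heat kernel on the torus. Part 2. -/

open MeasureTheory ProbabilityTheory
open scoped NNReal ENNReal

noncomputable section

namespace Pool.Agent.Lib.MP_fe8b6f_pr

variable {d : ℕ}

theorem tk2_heat_le {t T : ℝ} (ht : 0 < t) (h : t ≤ T) (y : E d) :
    heat t y ≤ ENNReal.ofReal ((T / t) ^ ((d : ℝ) / 2)) * heat T y := by
  have hT : 0 < T := ht.trans_le h
  unfold heat
  rw [← ENNReal.ofReal_mul (by positivity)]
  refine ENNReal.ofReal_le_ofReal ?_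
  have h1 : (T / t) ^ ((d : ℝ) / 2) * (2 * Real.pi * T) ^ (-(d : ℝ) / 2) =
      (2 * Real.pi * t) ^ (-(d : ℝ) / 2) := by
    have h2 : 2 * Real.pi * T = T / t * (2 * Real.pi * t) := by field_simp
    rw [h2, Real.mul_rpow (by positivity) (by positivity), ← mul_assoc,
      ← Real.rpow_add (by positivity), show (d : ℝ) / 2 + -(d : ℝ) / 2 = 0 by ring,
      Real.rpow_zero, one_mul]
  rw [← mul_assoc, h1]
  refine mul_le_mul_of_nonneg_left (Real.exp_le_exp.2 ?_) (by positivity)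
  rw [neg_div, neg_div, neg_le_neg_iff]
  gcongr

theorem IsWiener.torus_ub {W : Measure (Path d)} (hW : IsWiener W) :
    ∃ C : ℝ, 0 < C ∧ ∀ (Λ t : ℝ) (a : E d) (f : E d → ℝ≥0∞), 0 < Λ → 0 < t →
      Measurable f → IsPer Λ f →
      ∫⁻ w, f (a + w t.toNNReal) ∂W ≤
        ENNReal.ofReal (C * (t ^ (-(d : ℝ) / 2) * Λ ^ d + 1)) * avz Λ f := by
  obtain ⟨C, hC, h⟩ := hW.torus_mix (ε := 1) one_pos
  have hc : 0 < C ^ ((d : ℝ) / 2) := by positivity
  refine ⟨2 * (C ^ ((d : ℝ) / 2) + 1), by positivity, fun Λ t a f hΛ ht hf hper => ?_⟩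
  have hx : 0 < t ^ (-(d : ℝ) / 2) * Λ ^ d := by positivity
  rcases le_total (C * Λ ^ 2) t with h1 | h1
  · refine (h Λ t a f hΛ h1 hf hper).1.trans ?_
    gcongr
    nlinarith [mul_pos hc hx]
  · have hT : 0 < C * Λ ^ 2 := by positivity
    have h2 := (h Λ (C * Λ ^ 2) a f hΛ le_rfl hf hper).1
    rw [hW.lintegral_eval hT a hf] at h2
    rw [hW.lintegral_eval ht a hf]
    have h3 : (C * Λ ^ 2 / t) ^ ((d : ℝ) / 2) =
        C ^ ((d : ℝ) / 2) * (t ^ (-(d : ℝ) / 2) * Λ ^ d) := by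
      rw [Real.div_rpow hT.le ht.le, Real.mul_rpow hC.le (by positivity), neg_div,
        Real.rpow_neg ht.le, ← Real.rpow_natCast Λ 2, ← Real.rpow_mul hΛ.le,
        show ((2 : ℕ) : ℝ) * ((d : ℝ) / 2) = d by push_cast; ring, Real.rpow_natCast]
      ring
    calc ∫⁻ y, f y * heat t (y - a)
        ≤ ∫⁻ y, ENNReal.ofReal ((C * Λ ^ 2 / t) ^ ((d : ℝ) / 2)) *
            (f y * heat (C * Λ ^ 2) (y - a)) := by
          refine lintegral_mono fun y => ?_
          rw [mul_left_comm]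
          gcongr
          exact tk2_heat_le ht h1 _
      _ = ENNReal.ofReal ((C * Λ ^ 2 / t) ^ ((d : ℝ) / 2)) *
            ∫⁻ y, f y * heat (C * Λ ^ 2) (y - a) :=
          lintegral_const_mul' _ _ ENNReal.ofReal_ne_top
      _ ≤ ENNReal.ofReal ((C * Λ ^ 2 / t) ^ ((d : ℝ) / 2)) *
            (ENNReal.ofReal (1 + 1) * avz Λ f) := by gcongr
      _ ≤ _ := by
          rw [← mul_assoc, ← ENNReal.ofReal_mul (by positivity), h3]
          refine mul_le_mul_left (ENNReal.ofReal_le_ofReal ?_) _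
          nlinarith [mul_pos hc hx]

end Pool.Agent.Lib.MP_fe8b6f_pr
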