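import Pool.Agent.Lib.MP_fe8b6f_pr.TK
import Pool.Agent.Lib.MP_fe8b6f_pr.Defs2

/-! The transition operator on bounded periodic functions. -/

open MeasureTheory ProbabilityTheory
open scoped NNReal ENNReal

noncomputable section

namespace Pool.Agent.Lib.MP_fe8b6f_pr

variable {d : ℕ}

theorem BMP.abs {Λ : ℝ} {g : E d → ℝ} (hg : BMP Λ g) : BMP Λ fun x => |g x| := by
  obtain ⟨M, hM⟩ := hg.bdd
  refine ⟨hg.meas.abs, fun x k => ?_, M, fun x => ?_⟩
  · simp only [hg.per x k]
  · rw [abs_abs]; exact hM x

theorem BMP.sub_const {Λ : ℝ} {g : E d → ℝ} (hg : BMP Λ g) (c : ℝ) : BMP Λ fun x => g x - c := by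
  obtain ⟨M, hM⟩ := hg.bdd
  refine ⟨hg.meas.sub_const c, fun x k => ?_, M + |c|, fun x => ?_⟩
  · simp only [hg.per x k]
  · exact (abs_sub _ _).trans (add_le_add (hM x) le_rfl)

theorem IsWiener.BMP_Pop {W : Measure (Path d)} (hW : IsWiener W) {Λ : ℝ} {g : E d → ℝ}
    (hg : BMP Λ g) (t : ℝ≥0) : BMP Λ (Pop W t g) := by
  have := hW.isProbabilityMeasure
  obtain ⟨M, hM⟩ := hg.bdd
  have hm : Measurable fun z : E d × Path d => g (z.1 + z.2 t) :=
    hg.meas.comp (measurable_fst.add ((measurable_ev t).comp measurable_snd))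
  refine ⟨?_, fun x k => ?_, M, fun x => ?_⟩
  · exact (hm.stronglyMeasurable.integral_prod_right' (ν := W)).measurable
  · unfold Pop
    refine integral_congr_ae (Filter.Eventually.of_forall fun w => ?_)
    have h := hg.per (x + w t) k
    simp only
    rw [← h, add_right_comm]
  · unfold Pop
    have h := norm_integral_le_of_norm_le_const (μ := W) (f := fun w : Path d => g (x + w t))
      (C := M) (Filter.Eventually.of_forall fun w => hM _)
    simpa using h

/-- real form of the Markov property -/
theorem IsWiener.markov_real {W : Measure (Path d)} (hW : IsWiener W) (t : ℝ≥0)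
    {Φ : Path d × Path d → ℝ} (hΦ : Measurable Φ) {M : ℝ} (hM : ∀ z, |Φ z| ≤ M) :
    ∫ w, Φ (stop t w, shift t w) ∂W = ∫ w, ∫ w', Φ (stop t w, w') ∂W ∂W := by
  have := hW.isProbabilityMeasure
  have h1 : Measurable (stop t : Path d → Path d) := (continuous_stop t).measurable
  have h2 : Measurable (shift t : Path d → Path d) :=
    (continuous_shift.comp (continuous_const.prodMk continuous_id)).measurable
  have h3 := (indepFun_iff_map_prod_eq_prod_map_map h1.aemeasurable h2.aemeasurable).1
    (bma_indep hW t)
  have hP : IsProbabilityMeasure (W.map (stop t)) := Measure.isProbabilityMeasure_map h1.aemeasurable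
  have hint : Integrable Φ ((W.map (stop t)).prod W) :=
    Integrable.of_bound hΦ.aestronglyMeasurable M (Filter.Eventually.of_forall fun z => hM z)
  rw [← integral_map (h1.prodMk h2).aemeasurable hΦ.aestronglyMeasurable, h3, hW.map_shift,
    integral_prod _ hint, integral_map h1.aemeasurable
      (hΦ.stronglyMeasurable.integral_prod_right' (ν := W)).aestronglyMeasurable]

theorem IsWiener.Pop_add {W : Measure (Path d)} (hW : IsWiener W) {Λ : ℝ} {g : E d → ℝ}
    (hg : BMP Λ g) (s t : ℝ≥0) : Pop W (s + t) g = Pop W s (Pop W t g) := by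
  obtain ⟨M, hM⟩ := hg.bdd
  funext x
  have hm : Measurable fun z : Path d × Path d => g (x + z.1 s + z.2 t) :=
    hg.meas.comp ((((measurable_ev s).comp measurable_fst).const_add x).add
      ((measurable_ev t).comp measurable_snd))
  have h := hW.markov_real s hm (M := M) fun z => hM _
  have e1 : ∀ w : Path d, stop s w s = w s := fun w => by simp [stop]
  have e2 : ∀ w : Path d, shift s w t = w (s + t) - w s := fun w => by simp [shift]
  simp only [e1, e2] at h
  unfold Pop
  rw [← h]
  refine integral_congr_ae (Filter.Eventually.of_forall fun w => ?_)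
  simp only
  congr 1
  abel

end Pool.Agent.Lib.MP_fe8b6f_pr
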