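import Pool.Agent.Lib.MP_fe8b6f_pr.TK
import Pool.Agent.Lib.MP_fe8b6f_pr.Defs2

/-! Real averages over the period cell and mixing. -/

open MeasureTheory ProbabilityTheory
open scoped NNReal ENNReal

noncomputable section

namespace Pool.Agent.Lib.MP_fe8b6f_pr

variable {d : ℕ}

theorem tm1b_finite {Λ : ℝ} (hΛ : 0 < Λ) :
    IsFiniteMeasure ((volume : Measure (E d)).restrict (cube 0 Λ)) := by
  refine ⟨?_⟩
  rw [Measure.restrict_apply_univ, volume_cube _ hΛ.le]
  exact ENNReal.ofReal_lt_top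

theorem tm1b_integrable {X : Type*} [MeasurableSpace X] (μ : Measure X) [IsFiniteMeasure μ]
    {g : X → ℝ} (hg : Measurable g) {M : ℝ} (hM : ∀ x, |g x| ≤ M) : Integrable g μ :=
  Integrable.of_bound hg.aestronglyMeasurable M (ae_of_all _ fun x => hM x)

theorem tm1b_neg {Λ : ℝ} {g : E d → ℝ} (hg : BMP Λ g) : BMP Λ fun x => -g x := by
  obtain ⟨M, hM⟩ := hg.bdd
  exact ⟨hg.meas.neg, fun x k => by simp only [hg.per x k], M, fun x => by
    rw [abs_neg]; exact hM x⟩

theorem tm1b_shift {Λ : ℝ} {g : E d → ℝ} (hg : BMP Λ g) (a : E d) :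
    BMP Λ fun x => g (x + a) := by
  obtain ⟨M, hM⟩ := hg.bdd
  refine ⟨hg.meas.comp (measurable_id.add_const a), fun x k => ?_, M, fun x => hM _⟩
  show g (x + Λ • lat k + a) = g (x + a)
  rw [add_right_comm, hg.per]

theorem tm1b_pos {Λ : ℝ} {g : E d → ℝ} (hg : BMP Λ g) : BMP Λ fun x => max (g x) 0 := by
  obtain ⟨M, hM⟩ := hg.bdd
  refine ⟨hg.meas.max measurable_const, fun x k => by simp only [hg.per x k], M, fun x => ?_⟩
  have := hM x
  rw [abs_le] at this ⊢
  constructor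
  · exact le_trans (by linarith [this.1, this.2]) (le_max_right _ _)
  · exact max_le this.2 (by linarith [this.1, this.2])

theorem BMP.integrableOn {Λ : ℝ} (hΛ : 0 < Λ) {g : E d → ℝ} (hg : BMP Λ g) :
    IntegrableOn g (cube 0 Λ) := by
  obtain ⟨M, hM⟩ := hg.bdd
  have := tm1b_finite (d := d) hΛ
  exact tm1b_integrable _ hg.meas hM

/-- real form of `setLIntegral_per_shift` -/
theorem BMP.Pav_shift {Λ : ℝ} (hΛ : 0 < Λ) {g : E d → ℝ} (hg : BMP Λ g) (a : E d) :
    Pav Λ (fun x => g (x + a)) = Pav Λ g := by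
  unfold Pav
  congr 1
  rw [integral_eq_lintegral_pos_part_sub_lintegral_neg_part (hg.integrableOn hΛ),
    integral_eq_lintegral_pos_part_sub_lintegral_neg_part ((tm1b_shift hg a).integrableOn hΛ)]
  have h1 := setLIntegral_per_shift hΛ (φ := fun x => ENNReal.ofReal (g x))
    hg.meas.ennreal_ofReal (fun x k => by simp only [hg.per x k]) a
  have h2 := setLIntegral_per_shift hΛ (φ := fun x => ENNReal.ofReal (-g x))
    hg.meas.neg.ennreal_ofReal (fun x k => by simp only [hg.per x k]) a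
  rw [h1, h2]

theorem Pav_const {Λ : ℝ} (hΛ : 0 < Λ) (c : ℝ) : Pav (d := d) Λ (fun _ => c) = c := by
  unfold Pav
  have h : (0 : ℝ) < Λ ^ d := by positivity
  rw [setIntegral_const, Measure.real, volume_cube _ hΛ.le, ENNReal.toReal_ofReal h.le,
    smul_eq_mul]
  field_simp

theorem Pav_mono {Λ : ℝ} (hΛ : 0 < Λ) {f g : E d → ℝ} (hf : BMP Λ f) (hg : BMP Λ g)
    (h : ∀ x, f x ≤ g x) : Pav Λ f ≤ Pav Λ g := by
  unfold Pav
  exact div_le_div_of_nonneg_right
    (integral_mono (hf.integrableOn hΛ) (hg.integrableOn hΛ) h) (by positivity)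

theorem Pav_add {Λ : ℝ} (hΛ : 0 < Λ) {f g : E d → ℝ} (hf : BMP Λ f) (hg : BMP Λ g) :
    Pav Λ (fun x => f x + g x) = Pav Λ f + Pav Λ g := by
  unfold Pav
  rw [integral_add (hf.integrableOn hΛ) (hg.integrableOn hΛ), add_div]

theorem Pav_const_mul (Λ c : ℝ) (f : E d → ℝ) : Pav Λ (fun x => c * f x) = c * Pav Λ f := by
  unfold Pav
  rw [integral_const_mul, mul_div_assoc]

theorem abs_Pav_le {Λ : ℝ} (hΛ : 0 < Λ) (f : E d → ℝ) :
    |Pav Λ f| ≤ Pav Λ fun x => |f x| := by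
  unfold Pav
  have h : (0 : ℝ) < Λ ^ d := by positivity
  rw [abs_div, abs_of_pos h]
  exact div_le_div_of_nonneg_right abs_integral_le_integral_abs h.le

theorem IsWiener.Pav_Pop {W : Measure (Path d)} (hW : IsWiener W) {Λ : ℝ} (hΛ : 0 < Λ)
    {g : E d → ℝ} (hg : BMP Λ g) (t : ℝ≥0) : Pav Λ (Pop W t g) = Pav Λ g := by
  have := hW.isProbabilityMeasure
  have := tm1b_finite (d := d) hΛ
  obtain ⟨M, hM⟩ := hg.bdd
  have hm : Measurable fun q : E d × Path d => g (q.1 + q.2 t) :=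
    hg.meas.comp (measurable_fst.add ((measurable_ev t).comp measurable_snd))
  have hi : Integrable (Function.uncurry fun (x : E d) (w : Path d) => g (x + w t))
      ((volume.restrict (cube 0 Λ)).prod W) := tm1b_integrable _ hm fun q => hM _
  have h1 : ∀ w : Path d, ∫ x in cube 0 Λ, g (x + w t) = ∫ x in cube 0 Λ, g x := by
    intro w
    have h2 := hg.Pav_shift hΛ (w t)
    unfold Pav at h2
    have h : (Λ ^ d) ≠ 0 := by positivity
    exact (div_left_inj' h).mp h2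
  unfold Pav Pop
  rw [integral_integral_swap hi]
  simp only [h1, integral_const, probReal_univ, one_smul]

theorem tm1b_mix_nonneg {W : Measure (Path d)} (hW : IsWiener W) {Λ : ℝ} (hΛ : 0 < Λ)
    {t : ℝ≥0} {g : E d → ℝ} (hg : BMP Λ g) (h0 : ∀ x, 0 ≤ g x) (x : E d)
    (h1 : ∫⁻ w, ENNReal.ofReal (g (x + w t)) ∂W ≤
      ENNReal.ofReal (1 + 1 / 2) * avz Λ fun y => ENNReal.ofReal (g y))
    (h2 : (avz Λ fun y => ENNReal.ofReal (g y)) ≤
      ENNReal.ofReal (1 + 1 / 2) * ∫⁻ w, ENNReal.ofReal (g (x + w t)) ∂W) :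
    |Pop W t g x - Pav Λ g| ≤ 1 / 2 * Pav Λ g := by
  have := hW.isProbabilityMeasure
  obtain ⟨M, hM⟩ := hg.bdd
  have hL : (0 : ℝ) < Λ ^ d := by positivity
  have hi : Integrable (fun w : Path d => g (x + w t)) W :=
    tm1b_integrable _ (hg.meas.comp ((measurable_ev t).const_add x)) fun w => hM _
  have e1 : ∫⁻ w, ENNReal.ofReal (g (x + w t)) ∂W = ENNReal.ofReal (Pop W t g x) :=
    (ofReal_integral_eq_lintegral_ofReal hi (ae_of_all _ fun w => h0 _)).symm
  have e2 : (avz Λ fun y => ENNReal.ofReal (g y)) = ENNReal.ofReal (Pav Λ g) := by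
    unfold avz Pav
    rw [← ofReal_integral_eq_lintegral_ofReal (hg.integrableOn hΛ) (ae_of_all _ h0),
      ENNReal.ofReal_div_of_pos hL]
  have p1 : 0 ≤ Pop W t g x := integral_nonneg fun w => h0 _
  have p2 : 0 ≤ Pav Λ g := div_nonneg (integral_nonneg h0) hL.le
  rw [e1, e2, ← ENNReal.ofReal_mul (by norm_num),
    ENNReal.ofReal_le_ofReal_iff (by positivity)] at h1 h2
  rw [abs_le]
  constructor <;> linarith

theorem IsWiener.mix_real {W : Measure (Path d)} (hW : IsWiener W) :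
    ∃ C : ℝ, 0 < C ∧ ∀ (Λ : ℝ) (t : ℝ≥0) (g : E d → ℝ) (x : E d), 0 < Λ → C * Λ ^ 2 ≤ t →
      BMP Λ g → |Pop W t g x - Pav Λ g| ≤ 1 / 2 * Pav Λ fun y => |g y| := by
  have := hW.isProbabilityMeasure
  obtain ⟨C, hC, h⟩ := hW.torus_mix (ε := 1 / 2) (by norm_num)
  refine ⟨C, hC, fun Λ t g x hΛ ht hg => ?_⟩
  have key : ∀ f : E d → ℝ, BMP Λ f → (∀ y, 0 ≤ f y) →
      |Pop W t f x - Pav Λ f| ≤ 1 / 2 * Pav Λ f := by
    intro f hf h0
    have h1 := h Λ t x (fun y => ENNReal.ofReal (f y)) hΛ ht hf.meas.ennreal_ofReal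
      (fun y k => by simp only [hf.per y k])
    rw [Real.toNNReal_coe] at h1
    exact tm1b_mix_nonneg hW hΛ hf h0 x h1.1 h1.2
  have hp := tm1b_pos hg
  have hn := tm1b_pos (tm1b_neg hg)
  have k1 := key _ hp fun y => le_max_right _ _
  have k2 := key _ hn fun y => le_max_right _ _
  have hint : ∀ f : E d → ℝ, BMP Λ f → Integrable (fun w : Path d => f (x + w t)) W := by
    intro f hf
    obtain ⟨M, hM⟩ := hf.bdd
    exact tm1b_integrable _ (hf.meas.comp ((measurable_ev t).const_add x)) fun w => hM _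
  have e1 : Pop W t g x = Pop W t (fun y => max (g y) 0) x - Pop W t (fun y => max (-g y) 0) x := by
    unfold Pop
    rw [← integral_sub (hint _ hp) (hint _ hn)]
    simp only [max_zero_sub_max_neg_zero_eq_self]
  have e2 : Pav Λ g = Pav Λ (fun y => max (g y) 0) - Pav Λ (fun y => max (-g y) 0) := by
    unfold Pav
    rw [← sub_div, ← integral_sub (hp.integrableOn hΛ) (hn.integrableOn hΛ)]
    simp only [max_zero_sub_max_neg_zero_eq_self]
  have e3 : (Pav Λ fun y => |g y|) =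
      Pav Λ (fun y => max (g y) 0) + Pav Λ (fun y => max (-g y) 0) := by
    rw [← Pav_add hΛ hp hn]
    simp only [max_zero_add_max_neg_zero_eq_abs_self]
  rw [e1, e2, e3]
  rw [abs_le] at k1 k2 ⊢
  constructor <;> linarith [k1.1, k1.2, k2.1, k2.2]

end Pool.Agent.Lib.MP_fe8b6f_pr
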