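import Pool.Agent.Lib.MP_fe8b6f_pr.TM1a
import Pool.Agent.Lib.MP_fe8b6f_pr.TM1b

/-! Additive functionals. -/

open MeasureTheory ProbabilityTheory
open scoped NNReal ENNReal

noncomputable section

namespace Pool.Agent.Lib.MP_fe8b6f_pr

variable {d : ℕ}

theorem tm1c_meas {f : E d → ℝ} (hf : Measurable f) :
    Measurable fun z : (E d × Path d) × ℝ => f (z.1.1 + z.1.2 z.2.toNNReal) := by
  refine hf.comp (measurable_fst.fst.add ?_)
  exact measurable_path_eval.comp
    (measurable_fst.snd.prodMk (measurable_real_toNNReal.comp measurable_snd))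

theorem tm1c_abs_le {f : E d → ℝ} {M : ℝ} (hM : ∀ x, |f x| ≤ M) (t : ℝ) (x : E d) (w : Path d) :
    |Sf f t x w| ≤ M * volume.real (Set.Ico (0 : ℝ) t) := by
  have h := norm_setIntegral_le_of_norm_le_const (μ := volume)
    (f := fun s : ℝ => f (x + w s.toNNReal)) (s := Set.Ico 0 t) (C := M) measure_Ico_lt_top
    (fun _ _ => hM _)
  exact h

theorem tm1c_interval (f : E d → ℝ) {t : ℝ} (ht : 0 ≤ t) (x : E d) (w : Path d) :
    Sf f t x w = ∫ u in (0 : ℝ)..t, f (x + w u.toNNReal) := by
  rw [intervalIntegral.integral_of_le ht, Sf, integral_Ico_eq_integral_Ioc]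

theorem measurable_Sf {f : E d → ℝ} (hf : Measurable f) (t : ℝ) :
    Measurable fun q : E d × Path d => Sf f t q.1 q.2 := by
  exact ((tm1c_meas hf).stronglyMeasurable.integral_prod_right'
    (ν := volume.restrict (Set.Ico 0 t))).measurable

theorem abs_Sf_le {f : E d → ℝ} (hf1 : ∀ x, |f x| ≤ 1) {t : ℝ} (ht : 0 ≤ t) (x : E d)
    (w : Path d) : |Sf f t x w| ≤ t := by
  have h := tm1c_abs_le hf1 t x w
  rwa [Real.volume_real_Ico_of_le ht, sub_zero, one_mul] at h

theorem Sf_add {f : E d → ℝ} (hf : Measurable f) {M : ℝ} (hM : ∀ x, |f x| ≤ M) (s : ℝ≥0) {t : ℝ}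
    (ht : 0 ≤ t) (x : E d) (w : Path d) :
    Sf f (s + t) x w = Sf f s x (stop s w) + Sf f t (x + w s) (shift s w) := by
  have hs : (0 : ℝ) ≤ s := s.2
  have hm : Measurable fun u : ℝ => f (x + w u.toNNReal) :=
    (tm1c_meas hf).comp (measurable_const.prodMk measurable_id : Measurable fun u : ℝ => ((x, w), u))
  have hi : ∀ a b : ℝ, IntervalIntegrable (fun u : ℝ => f (x + w u.toNNReal)) volume a b := by
    intro a b
    rw [intervalIntegrable_iff]
    exact Measure.integrableOn_of_bounded (M := M) measure_Ioc_lt_top.ne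
      hm.aestronglyMeasurable (Filter.Eventually.of_forall fun u => hM _)
  rw [tm1c_interval f (add_nonneg hs ht), tm1c_interval f hs, tm1c_interval f ht,
    ← intervalIntegral.integral_add_adjacent_intervals (hi 0 s) (hi s (s + t))]
  congr 1
  · refine intervalIntegral.integral_congr fun u hu => ?_
    rw [Set.uIcc_of_le hs] at hu
    have : u.toNNReal ≤ s := Real.toNNReal_le_iff_le_coe.2 hu.2
    simp only [stop_apply, min_eq_left this]
  · have h1 := intervalIntegral.integral_comp_add_left (a := 0) (b := t)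
      (fun u : ℝ => f (x + w u.toNNReal)) (s : ℝ)
    rw [add_zero] at h1
    rw [← h1]
    refine intervalIntegral.integral_congr fun u hu => ?_
    rw [Set.uIcc_of_le ht] at hu
    simp only [shift_apply]
    rw [Real.toNNReal_add hs hu.1, Real.toNNReal_coe]
    congr 1
    abel

theorem IsWiener.BMP_Sf {W : Measure (Path d)} (hW : IsWiener W) {Λ : ℝ} {f : E d → ℝ}
    (hf : BMP Λ f) (t : ℝ) : BMP Λ fun x => ∫ w, Sf f t x w ∂W := by
  have := hW.isProbabilityMeasure
  obtain ⟨M, hM⟩ := hf.bdd
  refine ⟨((measurable_Sf hf.meas t).stronglyMeasurable.integral_prod_right'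
    (ν := W)).measurable, ?_, M * volume.real (Set.Ico (0 : ℝ) t), ?_⟩
  · intro x k
    simp only [Sf, add_right_comm x (Λ • lat k), hf.per _ k]
  · intro x
    have h := norm_integral_le_of_norm_le_const (μ := W) (f := fun w => Sf f t x w)
      (Filter.Eventually.of_forall fun w => tm1c_abs_le hM t x w)
    simpa using h

theorem IsWiener.Pav_Sf {W : Measure (Path d)} (hW : IsWiener W) {Λ : ℝ} (hΛ : 0 < Λ)
    {f : E d → ℝ} (hf : BMP Λ f) {t : ℝ} (ht : 0 ≤ t) :
    Pav Λ (fun x => ∫ w, Sf f t x w ∂W) = t * Pav Λ f := by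
  have := hW.isProbabilityMeasure
  obtain ⟨M, hM⟩ := hf.bdd
  have hfin : IsFiniteMeasure ((volume : Measure (E d)).restrict (cube 0 Λ)) := by
    rw [isFiniteMeasure_restrict, volume_cube _ hΛ.le]
    exact ENNReal.ofReal_ne_top
  have h1 : ∀ x, ∫ w, Sf f t x w ∂W = ∫ u in Set.Ico 0 t, Pop W u.toNNReal f x := by
    intro x
    refine integral_integral_swap (f := fun (w : Path d) (u : ℝ) => f (x + w u.toNNReal)) ?_
    refine Integrable.of_bound ?_ M (Filter.Eventually.of_forall fun z => hM _)
    exact ((tm1c_meas hf.meas).comp ((measurable_const.prodMk measurable_fst).prodMk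
      measurable_snd : Measurable fun z : Path d × ℝ => ((x, z.1), z.2))).aestronglyMeasurable
  have h2 : Measurable fun z : E d × ℝ => Pop W z.2.toNNReal f z.1 := by
    have a1 : Measurable fun z : (E d × ℝ) × Path d => f (z.1.1 + z.2 z.1.2.toNNReal) :=
      (tm1c_meas hf.meas).comp ((measurable_fst.fst.prodMk measurable_snd).prodMk
        measurable_fst.snd : Measurable fun z : (E d × ℝ) × Path d => ((z.1.1, z.2), z.1.2))
    exact (a1.stronglyMeasurable.integral_prod_right' (ν := W)).measurable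
  have h3 : ∫ x in cube 0 Λ, ∫ u in Set.Ico 0 t, Pop W u.toNNReal f x =
      ∫ u in Set.Ico 0 t, ∫ x in cube 0 Λ, Pop W u.toNNReal f x := by
    refine integral_integral_swap (f := fun (x : E d) (u : ℝ) => Pop W u.toNNReal f x) ?_
    refine Integrable.of_bound h2.aestronglyMeasurable M (Filter.Eventually.of_forall fun z => ?_)
    have h := norm_integral_le_of_norm_le_const (μ := W)
      (f := fun w : Path d => f (z.1 + w z.2.toNNReal))
      (Filter.Eventually.of_forall fun w => hM _)
    simpa [Pop, Function.uncurry] using h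
  have h4 : ∀ u : ℝ, (∫ x in cube 0 Λ, Pop W u.toNNReal f x) / Λ ^ d = Pav Λ f := fun u =>
    hW.Pav_Pop hΛ hf u.toNNReal
  simp only [h1]
  rw [Pav, h3, ← integral_div]
  simp only [h4]
  rw [setIntegral_const, Real.volume_real_Ico_of_le ht, sub_zero, smul_eq_mul]

end Pool.Agent.Lib.MP_fe8b6f_pr
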