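import Pool.Agent.Lib.MP_fe8b6f_pr.TM1c

/-! The discrete Duhamel formula. -/

open MeasureTheory ProbabilityTheory
open scoped NNReal ENNReal

noncomputable section

namespace Pool.Agent.Lib.MP_fe8b6f_pr

variable {d : ℕ}

theorem tm2_abs_Sf {f : E d → ℝ} {M : ℝ} (hM : ∀ x, |f x| ≤ M) {t : ℝ} (ht : 0 ≤ t) (x : E d)
    (w : Path d) : |Sf f t x w| ≤ M * t := by
  have h := norm_setIntegral_le_of_norm_le_const (μ := volume) (s := Set.Ico (0 : ℝ) t)
    (f := fun s : ℝ => f (x + w s.toNNReal)) (C := M) (by simp) (fun s _ => hM _)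
  have hv : (volume : Measure ℝ).real (Set.Ico 0 t) = t := by
    simp [Measure.real, ht]
  rw [hv] at h
  exact h

theorem tm2_exp_le {f : E d → ℝ} {M : ℝ} (hM : ∀ x, |f x| ≤ M) (θ : ℝ) {t : ℝ} (ht : 0 ≤ t)
    (x : E d) (w : Path d) : |Real.exp (θ * Sf f t x w)| ≤ Real.exp (|θ| * (M * t)) := by
  rw [abs_of_pos (Real.exp_pos _)]
  refine Real.exp_le_exp.mpr ((le_abs_self _).trans ?_)
  rw [abs_mul]
  exact mul_le_mul_of_nonneg_left (tm2_abs_Sf hM ht x w) (abs_nonneg _)

theorem tm2_Sf_per {Λ : ℝ} {f : E d → ℝ} (hf : IsPer Λ f) (t : ℝ) (x : E d) (k : Fin d → ℤ)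
    (w : Path d) : Sf f t (x + Λ • lat k) w = Sf f t x w := by
  unfold Sf
  refine integral_congr_ae (Filter.Eventually.of_forall fun s => ?_)
  simp only
  rw [add_right_comm, hf]

theorem tm2_Sf_stop (f : E d → ℝ) (x : E d) (w : Path d) :
    Sf f 1 x (stop 1 w) = Sf f 1 x w := by
  unfold Sf
  refine setIntegral_congr_fun measurableSet_Ico fun s hs => ?_
  have h : min s.toNNReal 1 = s.toNNReal := by
    refine min_eq_left ?_
    rw [Real.toNNReal_le_one]
    exact hs.2.le
  simp only [stop_apply, h]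

theorem tm2_int_le {W : Measure (Path d)} [IsProbabilityMeasure W] {F : Path d → ℝ} {C : ℝ}
    (h : ∀ w, |F w| ≤ C) : |∫ w, F w ∂W| ≤ C := by
  have h1 := norm_integral_le_of_norm_le_const (μ := W) (f := F) (C := C)
    (Filter.Eventually.of_forall h)
  simpa using h1

theorem tm2_integrable {W : Measure (Path d)} [IsProbabilityMeasure W] {F : Path d → ℝ}
    (hF : Measurable F) {C : ℝ} (h : ∀ w, |F w| ≤ C) : Integrable F W :=
  Integrable.of_bound hF.aestronglyMeasurable C (Filter.Eventually.of_forall h)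

theorem IsWiener.BMP_uf {W : Measure (Path d)} (hW : IsWiener W) {Λ : ℝ} {f : E d → ℝ}
    (hf : BMP Λ f) (θ : ℝ) (n : ℕ) : BMP Λ (uf W θ f n) := by
  have := hW.isProbabilityMeasure
  obtain ⟨M, hM⟩ := hf.bdd
  refine ⟨?_, ?_, Real.exp (|θ| * (M * n)), fun x => ?_⟩
  · have hm : Measurable fun q : E d × Path d => Real.exp (θ * Sf f n q.1 q.2) :=
      Real.measurable_exp.comp ((measurable_Sf hf.meas n).const_mul θ)
    exact (hm.stronglyMeasurable.integral_prod_right' (ν := W)).measurable
  · intro x k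
    unfold uf
    simp only [tm2_Sf_per hf.per]
  · exact tm2_int_le fun w => tm2_exp_le hM θ (Nat.cast_nonneg n) x w

theorem tm2_meas_add_ev (t : ℝ≥0) : Measurable fun q : E d × Path d => q.1 + q.2 t :=
  measurable_fst.add ((measurable_ev t).comp measurable_snd)

theorem IsWiener.BMP_gf {W : Measure (Path d)} (hW : IsWiener W) {Λ : ℝ} {f : E d → ℝ}
    (hf : BMP Λ f) (θ : ℝ) (n : ℕ) : BMP Λ (gf W θ f n) := by
  have := hW.isProbabilityMeasure
  obtain ⟨M, hM⟩ := hf.bdd
  have hu := hW.BMP_uf hf θ n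
  obtain ⟨U, hU⟩ := hu.bdd
  refine ⟨?_, ?_, (Real.exp (|θ| * (M * 1)) + 1) * U, fun x => ?_⟩
  · have hm : Measurable fun q : E d × Path d =>
        (Real.exp (θ * Sf f 1 q.1 q.2) - 1) * uf W θ f n (q.1 + q.2 1) :=
      ((Real.measurable_exp.comp ((measurable_Sf hf.meas 1).const_mul θ)).sub_const 1).mul
        (hu.meas.comp (tm2_meas_add_ev 1))
    exact (hm.stronglyMeasurable.integral_prod_right' (ν := W)).measurable
  · intro x k
    unfold gf
    refine integral_congr_ae (Filter.Eventually.of_forall fun w => ?_)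
    simp only
    rw [tm2_Sf_per hf.per, add_right_comm, hu.per]
  · refine tm2_int_le fun w => ?_
    rw [abs_mul]
    refine mul_le_mul ?_ (hU _) (abs_nonneg _) (by positivity)
    refine (abs_sub _ _).trans ?_
    rw [abs_one]
    exact add_le_add_left (tm2_exp_le hM θ zero_le_one x w) 1

theorem tm2_step {W : Measure (Path d)} (hW : IsWiener W) {Λ : ℝ} {f : E d → ℝ}
    (hf : BMP Λ f) (θ : ℝ) (n : ℕ) (x : E d) :
    uf W θ f (n + 1) x = gf W θ f n x + Pop W 1 (uf W θ f n) x := by
  have := hW.isProbabilityMeasure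
  obtain ⟨M, hM⟩ := hf.bdd
  have hu := hW.BMP_uf hf θ n
  obtain ⟨U, hU⟩ := hu.bdd
  have hS1 : Measurable fun w : Path d => Real.exp (θ * Sf f 1 x w) :=
    Real.measurable_exp.comp
      (((measurable_Sf hf.meas 1).comp measurable_prodMk_left).const_mul θ)
  have hΦ : Measurable fun z : Path d × Path d =>
      Real.exp (θ * Sf f 1 x z.1) * Real.exp (θ * Sf f n (x + z.1 1) z.2) := by
    refine (hS1.comp measurable_fst).mul (Real.measurable_exp.comp (Measurable.const_mul ?_ θ))
    have h2 : Measurable fun z : Path d × Path d => ((x + z.1 1, z.2) : E d × Path d) :=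
      (((measurable_ev 1).comp measurable_fst).const_add x).prodMk measurable_snd
    exact (measurable_Sf hf.meas n).comp h2
  have hb : ∀ z : Path d × Path d,
      |Real.exp (θ * Sf f 1 x z.1) * Real.exp (θ * Sf f n (x + z.1 1) z.2)| ≤
        Real.exp (|θ| * (M * 1)) * Real.exp (|θ| * (M * n)) := by
    intro z
    rw [abs_mul]
    exact mul_le_mul (tm2_exp_le hM θ zero_le_one _ _) (tm2_exp_le hM θ (Nat.cast_nonneg n) _ _)
      (abs_nonneg _) (Real.exp_pos _).le
  have hmk := hW.markov_real 1 hΦ hb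
  have hs1 : ∀ w : Path d, stop 1 w 1 = w 1 := fun w => by rw [stop_apply, min_self]
  simp only [tm2_Sf_stop, hs1, integral_const_mul] at hmk
  have h1 : uf W θ f (n + 1) x = ∫ w, Real.exp (θ * Sf f 1 x w) *
      Real.exp (θ * Sf f n (x + w 1) (shift 1 w)) ∂W := by
    unfold uf
    refine integral_congr_ae (Filter.Eventually.of_forall fun w => ?_)
    have h := Sf_add hf.meas hM 1 (Nat.cast_nonneg n : (0 : ℝ) ≤ n) x w
    rw [NNReal.coe_one, tm2_Sf_stop] at h
    simp only
    rw [← Real.exp_add, ← mul_add, ← h]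
    congr 3
    push_cast
    ring
  have hum : Measurable fun w : Path d => uf W θ f n (x + w 1) :=
    hu.meas.comp ((measurable_ev 1).const_add x)
  have i1 : Integrable (fun w : Path d =>
      (Real.exp (θ * Sf f 1 x w) - 1) * uf W θ f n (x + w 1)) W := by
    refine tm2_integrable ((hS1.sub_const 1).mul hum)
      (C := (Real.exp (|θ| * (M * 1)) + 1) * U) fun w => ?_
    rw [abs_mul]
    refine mul_le_mul ?_ (hU _) (abs_nonneg _) (by positivity)
    refine (abs_sub _ _).trans ?_
    rw [abs_one]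
    exact add_le_add_left (tm2_exp_le hM θ zero_le_one x w) 1
  have i2 : Integrable (fun w : Path d => uf W θ f n (x + w 1)) W :=
    tm2_integrable hum fun w => hU _
  rw [h1, hmk]
  unfold gf Pop
  rw [← integral_add i1 i2]
  refine integral_congr_ae (Filter.Eventually.of_forall fun w => ?_)
  simp only
  unfold uf
  ring

theorem tm2_Pop_zero {W : Measure (Path d)} (hW : IsWiener W) (g : E d → ℝ) (x : E d) :
    Pop W 0 g x = g x := by
  have := hW.isProbabilityMeasure
  unfold Pop
  rw [integral_congr_ae (g := fun _ => g x)]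
  · simp
  · filter_upwards [hW.ae_zero] with w hw
    rw [hw, add_zero]

theorem IsWiener.duhamel {W : Measure (Path d)} (hW : IsWiener W) {Λ : ℝ} {f : E d → ℝ}
    (hf : BMP Λ f) (θ : ℝ) (n : ℕ) (x : E d) :
    uf W θ f n x = 1 + ∑ k ∈ Finset.range n, Pop W k (gf W θ f (n - 1 - k)) x := by
  have := hW.isProbabilityMeasure
  induction n generalizing x with
  | zero => simp [uf, Sf]
  | succ n ih =>
    rw [tm2_step hW hf, Finset.sum_range_succ']
    have hint : ∀ k ∈ Finset.range n, Integrable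
        (fun w : Path d => Pop W k (gf W θ f (n - 1 - k)) (x + w 1)) W := by
      intro k _
      have hb := hW.BMP_Pop (hW.BMP_gf hf θ (n - 1 - k)) k
      obtain ⟨C, hC⟩ := hb.bdd
      exact tm2_integrable (hb.meas.comp ((measurable_ev 1).const_add x)) fun w => hC _
    have h1 : Pop W 1 (uf W θ f n) x = 1 + ∑ k ∈ Finset.range n,
        Pop W 1 (Pop W k (gf W θ f (n - 1 - k))) x := by
      have : Pop W 1 (uf W θ f n) x = ∫ w, (1 + ∑ k ∈ Finset.range n,
          Pop W k (gf W θ f (n - 1 - k)) (x + w 1)) ∂W := by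
        unfold Pop
        refine integral_congr_ae (Filter.Eventually.of_forall fun w => ?_)
        exact ih _
      rw [this, integral_add (integrable_const _) (integrable_finsetSum _ hint),
        integral_finsetSum _ hint]
      simp only [integral_const, probReal_univ, smul_eq_mul, mul_one]
      rfl
    rw [h1]
    have h2 : ∀ k ∈ Finset.range n, Pop W ((k + 1 : ℕ) : ℝ≥0) (gf W θ f (n + 1 - 1 - (k + 1))) x =
        Pop W 1 (Pop W k (gf W θ f (n - 1 - k))) x := by
      intro k _
      have e1 : n + 1 - 1 - (k + 1) = n - 1 - k := by omega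
      have e2 : ((k + 1 : ℕ) : ℝ≥0) = 1 + k := by push_cast; ring
      rw [e1, e2, hW.Pop_add (hW.BMP_gf hf θ _)]
    rw [Finset.sum_congr rfl h2]
    have e3 : n + 1 - 1 - 0 = n := by omega
    rw [e3, Nat.cast_zero, tm2_Pop_zero hW]
    ring

end Pool.Agent.Lib.MP_fe8b6f_pr
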