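import Pool.Agent.Lib.MP_fe8b6f_pr.TM1c

/-! Summed mixing bound. -/

open MeasureTheory ProbabilityTheory
open scoped NNReal ENNReal

noncomputable section

namespace Pool.Agent.Lib.MP_fe8b6f_pr

variable {d : ℕ}

theorem tm2a_abs_Sf_le {f : E d → ℝ} {B : ℝ} (hB : ∀ x, |f x| ≤ B) {t : ℝ} (ht : 0 ≤ t)
    (x : E d) (w : Path d) : |Sf f t x w| ≤ B * t := by
  have h := norm_setIntegral_le_of_norm_le_const (μ := (volume : Measure ℝ))
    (s := Set.Ico 0 t) (f := fun s : ℝ => f (x + w s.toNNReal)) (C := B)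
    (by simp) (fun s _ => by simpa using hB _)
  simpa [Sf, Measure.real, ht] using h

theorem tm2a_Sf_stop (f : E d → ℝ) (s : ℝ≥0) (x : E d) (w : Path d) :
    Sf f s x (stop s w) = Sf f s x w := by
  unfold Sf
  refine setIntegral_congr_fun measurableSet_Ico fun u hu => ?_
  have : u.toNNReal ≤ s := Real.toNNReal_le_iff_le_coe.2 hu.2.le
  simp only [stop_apply, min_eq_left this]

theorem tm2a_integrable {W : Measure (Path d)} (hW : IsWiener W) {Φ : Path d → ℝ}
    (hΦ : Measurable Φ) {B : ℝ} (hB : ∀ w, |Φ w| ≤ B) : Integrable Φ W := by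
  have := hW.isProbabilityMeasure
  exact Integrable.of_bound hΦ.aestronglyMeasurable B
    (Filter.Eventually.of_forall fun w => by simpa using hB w)

theorem tm2a_int_ev {W : Measure (Path d)} (hW : IsWiener W) {Λ : ℝ} {g : E d → ℝ}
    (hg : BMP Λ g) (t : ℝ≥0) (x : E d) : Integrable (fun w : Path d => g (x + w t)) W := by
  obtain ⟨B, hB⟩ := hg.bdd
  exact tm2a_integrable hW (hg.meas.comp (measurable_const.add (measurable_ev t)))
    fun w => hB _

theorem tm2a_sum_psi {W : Measure (Path d)} (hW : IsWiener W) {Λ : ℝ} {F : E d → ℝ}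
    (hF : BMP Λ F) (x : E d) (m : ℕ) :
    ∑ k ∈ Finset.range m, Pop W k (fun y => ∫ w, Sf F 1 y w ∂W) x = ∫ w, Sf F m x w ∂W := by
  obtain ⟨B, hB⟩ := hF.bdd
  induction m with
  | zero => simp [Sf]
  | succ m ih =>
    rw [Finset.sum_range_succ, ih]
    have hΦ : Measurable fun z : Path d × Path d => Sf F 1 (x + z.1 (m : ℝ≥0)) z.2 :=
      (measurable_Sf hF.meas 1).comp
        ((measurable_const.add ((measurable_ev _).comp measurable_fst)).prodMk measurable_snd)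
    have hmk := hW.markov_real (m : ℝ≥0) hΦ (M := B * 1)
      fun z => tm2a_abs_Sf_le hB zero_le_one _ _
    simp only [stop_apply, min_self] at hmk
    have hadd : ∀ w : Path d, Sf F ((m + 1 : ℕ) : ℝ) x w =
        Sf F m x w + Sf F 1 (x + w (m : ℝ≥0)) (shift (m : ℝ≥0) w) := by
      intro w
      have h := Sf_add hF.meas hB (m : ℝ≥0) zero_le_one x w
      rw [tm2a_Sf_stop] at h
      simpa using h
    have h1 : Integrable (fun w : Path d => Sf F m x w) W :=
      tm2a_integrable hW ((measurable_Sf hF.meas m).comp (measurable_const.prodMk measurable_id))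
        fun w => tm2a_abs_Sf_le hB (Nat.cast_nonneg m) _ _
    have h2 : Integrable
        (fun w : Path d => Sf F 1 (x + w (m : ℝ≥0)) (shift (m : ℝ≥0) w)) W :=
      tm2a_integrable hW ((measurable_Sf hF.meas 1).comp
        ((measurable_const.add (measurable_ev _)).prodMk
          (continuous_shift.comp (continuous_const.prodMk continuous_id)).measurable))
        fun w => tm2a_abs_Sf_le hB zero_le_one _ _
    simp only [hadd]
    rw [integral_add h1 h2, hmk]
    rfl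

theorem tm2a_BMP_mul {Λ : ℝ} {g : E d → ℝ} (hg : BMP Λ g) (c : ℝ) : BMP Λ fun x => c * g x := by
  obtain ⟨B, hB⟩ := hg.bdd
  refine ⟨measurable_const.mul hg.meas, fun x k => by simp only [hg.per x k], |c| * B, fun x => ?_⟩
  rw [abs_mul]
  exact mul_le_mul_of_nonneg_left (hB x) (abs_nonneg c)

theorem tm2a_BMP_const (Λ c : ℝ) : BMP (d := d) Λ fun _ => c :=
  ⟨measurable_const, fun _ _ => rfl, |c|, fun _ => le_rfl⟩

theorem tm2a_Pop_sub {W : Measure (Path d)} (hW : IsWiener W) {Λ : ℝ} {g : E d → ℝ}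
    (hg : BMP Λ g) (t : ℝ≥0) (c : ℝ) (x : E d) :
    Pop W t (fun y => g y - c) x = Pop W t g x - c := by
  have := hW.isProbabilityMeasure
  unfold Pop
  rw [integral_sub (tm2a_int_ev hW hg t x) (integrable_const c)]
  simp

theorem tm2a_Pop_le {W : Measure (Path d)} (hW : IsWiener W) {Λ : ℝ} {g h : E d → ℝ}
    (hh : BMP Λ h) (hgh : ∀ y, |g y| ≤ h y) (t : ℝ≥0) (x : E d) :
    |Pop W t g x| ≤ Pop W t h x := by
  have := norm_integral_le_of_norm_le (tm2a_int_ev hW hh t x)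
    (f := fun w : Path d => g (x + w t))
    (Filter.Eventually.of_forall fun w => by simpa using hgh _)
  simpa [Pop] using this

theorem tm2a_Pop_const {W : Measure (Path d)} (hW : IsWiener W) (t : ℝ≥0) (c : ℝ) (x : E d) :
    Pop W t (fun _ => c) x = c := by
  have := hW.isProbabilityMeasure
  simp [Pop]

theorem tm2a_Pav_sub {Λ : ℝ} (hΛ : 0 < Λ) {g : E d → ℝ} (hg : BMP Λ g) (c : ℝ) :
    Pav Λ (fun y => g y - c) = Pav Λ g - c := by
  have h := Pav_add hΛ hg (tm2a_BMP_const Λ (-c))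
  rw [Pav_const hΛ] at h
  simpa [sub_eq_add_neg] using h

theorem tm2a_geom {W : Measure (Path d)} (hW : IsWiener W) {Λ : ℝ} (hΛ : 0 < Λ) {k0 : ℕ}
    (hmix : ∀ (g : E d → ℝ) (x : E d), BMP Λ g →
      |Pop W k0 g x - Pav Λ g| ≤ 1 / 2 * Pav Λ fun y => |g y|)
    {g : E d → ℝ} (hg : BMP Λ g) (j : ℕ) (x : E d) :
    |Pop W (((j + 1) * k0 : ℕ) : ℝ≥0) g x - Pav Λ g| ≤
      (1 / 2) ^ (j + 1) * Pav Λ fun y => |g y| := by
  induction j generalizing x with
  | zero => simpa using hmix g x hg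
  | succ j ih =>
    set t : ℝ≥0 := (((j + 1) * k0 : ℕ) : ℝ≥0) with ht
    have hP : BMP Λ (Pop W t g) := hW.BMP_Pop hg t
    have hh : BMP Λ fun y => Pop W t g y - Pav Λ g := hP.sub_const _
    have h1 := hmix _ x hh
    rw [tm2a_Pop_sub hW hP, tm2a_Pav_sub hΛ hP, hW.Pav_Pop hΛ hg, sub_self, sub_zero] at h1
    have h2 : Pav Λ (fun y => |Pop W t g y - Pav Λ g|) ≤
        (1 / 2) ^ (j + 1) * Pav Λ fun y => |g y| := by
      have := Pav_mono hΛ hh.abs (tm2a_BMP_const Λ _) ih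
      rwa [Pav_const hΛ] at this
    have h3 : (((j + 1 + 1) * k0 : ℕ) : ℝ≥0) = (k0 : ℝ≥0) + t := by
      rw [ht]; push_cast; ring
    rw [h3, hW.Pop_add hg, pow_succ]
    linarith

theorem tm2a_late {W : Measure (Path d)} (hW : IsWiener W) {Λ : ℝ} (hΛ : 0 < Λ) {k0 : ℕ}
    (hk0 : 0 < k0)
    (hmix : ∀ (g : E d → ℝ) (x : E d), BMP Λ g →
      |Pop W k0 g x - Pav Λ g| ≤ 1 / 2 * Pav Λ fun y => |g y|)
    {g : E d → ℝ} (hg : BMP Λ g) {k : ℕ} (hk : k0 ≤ k) (x : E d) :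
    |Pop W k g x - Pav Λ g| ≤ (1 / 2) ^ (k / k0) * Pav Λ fun y => |g y| := by
  obtain ⟨j, hj⟩ : ∃ j, k / k0 = j + 1 :=
    Nat.exists_eq_succ_of_ne_zero (Nat.div_pos hk hk0).ne'
  set t : ℝ≥0 := (((j + 1) * k0 : ℕ) : ℝ≥0) with ht
  have hP : BMP Λ (Pop W t g) := hW.BMP_Pop hg t
  have h3 : (k : ℝ≥0) = ((k % k0 : ℕ) : ℝ≥0) + t := by
    rw [ht, ← Nat.cast_add, ← hj, Nat.mod_add_div']
  rw [hj, h3, hW.Pop_add hg, ← tm2a_Pop_sub hW hP]
  have := tm2a_Pop_le hW (tm2a_BMP_const Λ _) (tm2a_geom hW hΛ hmix hg j)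
    ((k % k0 : ℕ) : ℝ≥0) x
  rwa [tm2a_Pop_const hW] at this

theorem tm2a_sum_geom {k0 : ℕ} (hk0 : 0 < k0) (n : ℕ) :
    ∑ k ∈ Finset.range n, (if k < k0 then (0 : ℝ) else (1 / 2) ^ (k / k0)) ≤ k0 := by
  have key : ∀ J : ℕ, ∑ k ∈ Finset.range ((J + 1) * k0),
      (if k < k0 then (0 : ℝ) else (1 / 2) ^ (k / k0)) = k0 * (1 - (1 / 2) ^ J) := by
    intro J
    induction J with
    | zero =>
      rw [Finset.sum_eq_zero]
      · simp
      · intro k hk
        rw [if_pos (by simpa using hk)]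
    | succ J ih =>
      rw [show (J + 1 + 1) * k0 = (J + 1) * k0 + k0 by ring, Finset.sum_range_add, ih]
      have : ∀ i ∈ Finset.range k0,
          (if (J + 1) * k0 + i < k0 then (0 : ℝ) else (1 / 2) ^ (((J + 1) * k0 + i) / k0)) =
            (1 / 2) ^ (J + 1) := by
        intro i hi
        have hi' : i < k0 := Finset.mem_range.1 hi
        rw [if_neg (by nlinarith), add_comm, Nat.add_mul_div_right _ _ hk0,
          Nat.div_eq_of_lt hi', zero_add]
      rw [Finset.sum_congr rfl this, Finset.sum_const, Finset.card_range, nsmul_eq_mul, pow_succ]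
      ring
  have hsub : Finset.range n ⊆ Finset.range ((n + 1) * k0) :=
    Finset.range_subset_range.2 (by nlinarith)
  refine (Finset.sum_le_sum_of_subset_of_nonneg hsub fun k _ _ => by positivity).trans ?_
  rw [key]
  have : (0 : ℝ) ≤ (1 / 2) ^ n := by positivity
  have : (0 : ℝ) ≤ k0 := Nat.cast_nonneg _
  nlinarith

theorem IsWiener.sum_mix {W : Measure (Path d)} (hW : IsWiener W) {Λ : ℝ} (hΛ : 0 < Λ)
    {k0 : ℕ} (hk0 : 0 < k0)
    (hmix : ∀ (g : E d → ℝ) (x : E d), BMP Λ g →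
      |Pop W k0 g x - Pav Λ g| ≤ 1 / 2 * Pav Λ fun y => |g y|)
    {f : E d → ℝ} (hf : BMP Λ f) {α β M : ℝ} (hM : 0 ≤ M) (hβ : Pav Λ (fun y => |f y|) ≤ β)
    (hα : ∀ x, ∫ w, Sf (fun y => |f y|) k0 x w ∂W ≤ α) (hαβ : k0 * β ≤ α)
    {g : ℕ → E d → ℝ} {n : ℕ} (hg : ∀ k < n, BMP Λ (g k))
    (hdom : ∀ k < n, ∀ y, |g k y| ≤ M * ∫ w, Sf (fun y => |f y|) 1 y w ∂W) (x : E d) :
    ∑ k ∈ Finset.range n, |Pop W k (g k) x - Pav Λ (g k)| ≤ 3 * M * α := by
  set ψ : E d → ℝ := fun y => ∫ w, Sf (fun y => |f y|) 1 y w ∂W with hψ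
  have hψB : BMP Λ ψ := hW.BMP_Sf hf.abs 1
  have hMψ : BMP Λ fun y => M * ψ y := tm2a_BMP_mul hψB M
  have hψ0 : ∀ y, 0 ≤ ψ y := fun y =>
    integral_nonneg fun w => integral_nonneg fun s => abs_nonneg _
  have hβ0 : 0 ≤ β := by
    have := Pav_mono hΛ (tm2a_BMP_const Λ 0) hf.abs fun y => abs_nonneg _
    rw [Pav_const hΛ] at this
    exact this.trans hβ
  have hav : ∀ k < n, Pav Λ (fun y => |g k y|) ≤ M * β := by
    intro k hk
    have h1 := Pav_mono hΛ (hg k hk).abs hMψ (hdom k hk)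
    rw [Pav_const_mul, hψ, hW.Pav_Sf hΛ hf.abs zero_le_one, one_mul] at h1
    exact h1.trans (mul_le_mul_of_nonneg_left hβ hM)
  have hP0 : ∀ k : ℕ, 0 ≤ Pop W k ψ x := fun k => integral_nonneg fun w => hψ0 _
  have hterm : ∀ k ∈ Finset.range n, |Pop W k (g k) x - Pav Λ (g k)| ≤
      (if k < k0 then M * Pop W k ψ x + M * β else 0) +
        (if k < k0 then (0 : ℝ) else (1 / 2) ^ (k / k0)) * (M * β) := by
    intro k hk
    have hk' : k < n := Finset.mem_range.1 hk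
    split_ifs with h
    · have h1 := tm2a_Pop_le hW hMψ (hdom k hk') k x
      have h2 : Pop W k (fun y => M * ψ y) x = M * Pop W k ψ x := integral_const_mul _ _
      have h3 := (abs_Pav_le hΛ (g k)).trans (hav k hk')
      have h4 := abs_sub (Pop W k (g k) x) (Pav Λ (g k))
      linarith
    · have h1 := tm2a_late hW hΛ hk0 hmix (hg k hk') (not_lt.1 h) x
      rw [zero_add]
      exact h1.trans (mul_le_mul_of_nonneg_left (hav k hk') (by positivity))
  refine (Finset.sum_le_sum hterm).trans ?_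
  rw [Finset.sum_add_distrib, ← Finset.sum_mul, ← Finset.sum_filter]
  have hA : ∑ k ∈ (Finset.range n).filter (· < k0), (M * Pop W k ψ x + M * β) ≤
      ∑ k ∈ Finset.range k0, (M * Pop W k ψ x + M * β) := by
    refine Finset.sum_le_sum_of_subset_of_nonneg (fun k hk => ?_) fun k _ _ => ?_
    · exact Finset.mem_range.2 (Finset.mem_filter.1 hk).2
    · exact add_nonneg (mul_nonneg hM (hP0 k)) (mul_nonneg hM hβ0)
  rw [Finset.sum_add_distrib (s := Finset.range k0), ← Finset.mul_sum, hψ,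
    tm2a_sum_psi hW hf.abs, Finset.sum_const, Finset.card_range, nsmul_eq_mul] at hA
  have hB := mul_le_mul_of_nonneg_right (tm2a_sum_geom hk0 n) (mul_nonneg hM hβ0)
  have h1 := mul_le_mul_of_nonneg_left (hα x) hM
  have h2 := mul_le_mul_of_nonneg_left hαβ hM
  nlinarith

end Pool.Agent.Lib.MP_fe8b6f_pr
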