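import Pool.Agent.Lib.MP_fe8b6f_pr.TM2a
import Pool.Agent.Lib.MP_fe8b6f_pr.TM2

/-! Exponential moment of additive functionals on the torus. -/

open MeasureTheory ProbabilityTheory
open scoped NNReal ENNReal

noncomputable section

namespace Pool.Agent.Lib.MP_fe8b6f_pr

variable {d : ℕ}

theorem tm3_integrable {W : Measure (Path d)} [IsProbabilityMeasure W] {F : Path d → ℝ}
    (hF : Measurable F) {M : ℝ} (hM : ∀ w, |F w| ≤ M) : Integrable F W :=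
  Integrable.of_bound hF.aestronglyMeasurable M (Filter.Eventually.of_forall fun w => by
    rw [Real.norm_eq_abs]; exact hM w)

theorem tm3_measS {f : E d → ℝ} (hf : Measurable f) (t : ℝ) (y : E d) :
    Measurable fun w : Path d => Sf f t y w :=
  (measurable_Sf hf t).comp measurable_prodMk_left

theorem tm3_absS (f : E d → ℝ) (t : ℝ) (y : E d) (w : Path d) :
    |Sf f t y w| ≤ Sf (fun y => |f y|) t y w := by
  unfold Sf
  exact abs_integral_le_integral_abs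

theorem tm3_bmp_add {Λ : ℝ} {f g : E d → ℝ} (hf : BMP Λ f) (hg : BMP Λ g) :
    BMP Λ fun x => f x + g x := by
  obtain ⟨M, hM⟩ := hf.bdd
  obtain ⟨N, hN⟩ := hg.bdd
  refine ⟨hf.meas.add hg.meas, fun x k => ?_, M + N, fun x => ?_⟩
  · simp only [hf.per x k, hg.per x k]
  · exact (abs_add_le _ _).trans (add_le_add (hM x) (hN x))

theorem tm3_bmp_mul {Λ : ℝ} {f : E d → ℝ} (hf : BMP Λ f) (c : ℝ) :
    BMP Λ fun x => c * f x := by
  obtain ⟨M, hM⟩ := hf.bdd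
  refine ⟨hf.meas.const_mul c, fun x k => ?_, |c| * M, fun x => ?_⟩
  · simp only [hf.per x k]
  · rw [abs_mul]; exact mul_le_mul_of_nonneg_left (hM x) (abs_nonneg c)

theorem tm3_bmp_const (Λ c : ℝ) : BMP (d := d) Λ fun _ => c :=
  ⟨measurable_const, fun _ _ => rfl, |c|, fun _ => le_rfl⟩

theorem tm3_bmp_sum {Λ : ℝ} {g : ℕ → E d → ℝ} (hg : ∀ k, BMP Λ (g k)) (n : ℕ) :
    BMP Λ fun x => ∑ k ∈ Finset.range n, g k x := by
  induction n with
  | zero => simpa using tm3_bmp_const (d := d) Λ 0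
  | succ n ih =>
    simp only [Finset.sum_range_succ]
    exact tm3_bmp_add ih (hg n)

theorem tm3_Pav_sum {Λ : ℝ} (hΛ : 0 < Λ) {g : ℕ → E d → ℝ} (hg : ∀ k, BMP Λ (g k)) (n : ℕ) :
    Pav Λ (fun x => ∑ k ∈ Finset.range n, g k x) = ∑ k ∈ Finset.range n, Pav Λ (g k) := by
  induction n with
  | zero => simpa using Pav_const (d := d) hΛ 0
  | succ n ih =>
    simp only [Finset.sum_range_succ]
    rw [Pav_add hΛ (tm3_bmp_sum hg n) (hg n), ih]

theorem tm3_uf_nonneg (W : Measure (Path d)) (θ : ℝ) (f : E d → ℝ) (n : ℕ) (x : E d) :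
    0 ≤ uf W θ f n x :=
  integral_nonneg fun _ => (Real.exp_pos _).le

theorem tm3_Pav_nonneg {Λ : ℝ} (hΛ : 0 < Λ) {g : E d → ℝ} (hg : ∀ x, 0 ≤ g x) : 0 ≤ Pav Λ g :=
  div_nonneg (integral_nonneg hg) (pow_pos hΛ _).le

theorem tm3_theta {f : E d → ℝ} (hf1 : ∀ x, |f x| ≤ 1) {θ : ℝ} (hθ1 : |θ| ≤ 1) (y : E d)
    (w : Path d) : |θ * Sf f 1 y w| ≤ 1 := by
  rw [abs_mul]
  have h := abs_Sf_le hf1 zero_le_one y w
  calc |θ| * |Sf f 1 y w| ≤ 1 * 1 := mul_le_mul hθ1 h (abs_nonneg _) zero_le_one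
    _ = 1 := one_mul 1

theorem tm3_exp_bound {f : E d → ℝ} (hf1 : ∀ x, |f x| ≤ 1) {θ : ℝ} (hθ1 : |θ| ≤ 1) (y : E d)
    (w : Path d) : |Real.exp (θ * Sf f 1 y w) - 1| ≤ 2 * |θ| * Sf (fun y => |f y|) 1 y w := by
  refine (Real.abs_exp_sub_one_le (tm3_theta hf1 hθ1 y w)).trans ?_
  rw [abs_mul, mul_assoc]
  gcongr
  exact tm3_absS f 1 y w

theorem tm3_exp_bound2 {f : E d → ℝ} (hf1 : ∀ x, |f x| ≤ 1) {θ : ℝ} (hθ1 : |θ| ≤ 1) (y : E d)
    (w : Path d) : Real.exp (θ * Sf f 1 y w) - 1 ≤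
      θ * Sf f 1 y w + θ ^ 2 * Sf (fun y => |f y|) 1 y w := by
  have h1 := (abs_le.1 (Real.abs_exp_sub_one_sub_id_le (tm3_theta hf1 hθ1 y w))).2
  have h2 := abs_Sf_le hf1 zero_le_one y w
  have h3 := tm3_absS f 1 y w
  have h4 : Sf f 1 y w ^ 2 ≤ Sf (fun y => |f y|) 1 y w := by
    rw [← sq_abs, sq]
    calc |Sf f 1 y w| * |Sf f 1 y w| ≤ 1 * |Sf f 1 y w| :=
          mul_le_mul_of_nonneg_right h2 (abs_nonneg _)
      _ ≤ _ := by rw [one_mul]; exact h3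
  have h5 : (θ * Sf f 1 y w) ^ 2 ≤ θ ^ 2 * Sf (fun y => |f y|) 1 y w := by
    rw [mul_pow]; exact mul_le_mul_of_nonneg_left h4 (sq_nonneg _)
  linarith

/-- domination of a source-type integral -/
theorem tm3_dom {W : Measure (Path d)} [IsProbabilityMeasure W] {f : E d → ℝ}
    (hf : Measurable f) (hf1 : ∀ x, |f x| ≤ 1) {θ : ℝ} (hθ1 : |θ| ≤ 1) {h : E d → ℝ} {B : ℝ}
    (hB : ∀ x, |h x| ≤ B) (y : E d) :
    |∫ w, (Real.exp (θ * Sf f 1 y w) - 1) * h (y + w 1) ∂W| ≤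
      2 * |θ| * B * ∫ w, Sf (fun y => |f y|) 1 y w ∂W := by
  have hB0 : 0 ≤ B := (abs_nonneg _).trans (hB y)
  have hint : Integrable (fun w : Path d => Sf (fun y => |f y|) 1 y w) W :=
    tm3_integrable (tm3_measS hf.abs 1 y)
      (fun w => abs_Sf_le (f := fun y => |f y|) (fun x => by rw [abs_abs]; exact hf1 x)
        zero_le_one y w)
  rw [← integral_const_mul, ← Real.norm_eq_abs]
  refine norm_integral_le_of_norm_le (hint.const_mul _) (Filter.Eventually.of_forall fun w => ?_)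
  rw [Real.norm_eq_abs, abs_mul]
  have h1 := tm3_exp_bound hf1 hθ1 y w
  have h0 : 0 ≤ 2 * |θ| * Sf (fun y => |f y|) 1 y w := (abs_nonneg _).trans h1
  calc |Real.exp (θ * Sf f 1 y w) - 1| * |h (y + w 1)|
      ≤ 2 * |θ| * Sf (fun y => |f y|) 1 y w * B := mul_le_mul h1 (hB _) (abs_nonneg _) h0
    _ = 2 * |θ| * B * Sf (fun y => |f y|) 1 y w := by ring

/-- pointwise upper bound for the source term -/
theorem tm3_gf_le {W : Measure (Path d)} (hW : IsWiener W) {Λ : ℝ} {f : E d → ℝ}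
    (hf : BMP Λ f) (hf1 : ∀ x, |f x| ≤ 1) {θ : ℝ} (hθ1 : |θ| ≤ 1) (j : ℕ) {a B : ℝ}
    (ha : 0 ≤ a) (hB : ∀ x, |uf W θ f j x - a| ≤ B) (y : E d) :
    gf W θ f j y ≤ (2 * |θ| * B + a * θ ^ 2) * (∫ w, Sf (fun y => |f y|) 1 y w ∂W) +
      a * θ * ∫ w, Sf f 1 y w ∂W := by
  have := hW.isProbabilityMeasure
  have hu := hW.BMP_uf hf θ j
  have hmS := tm3_measS hf.meas 1 y
  have hmE : Measurable fun w : Path d => Real.exp (θ * Sf f 1 y w) - 1 :=
    (Real.measurable_exp.comp (hmS.const_mul θ)).sub_const 1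
  have hE2 : ∀ w : Path d, |Real.exp (θ * Sf f 1 y w) - 1| ≤ 2 := fun w => by
    have := Real.abs_exp_sub_one_le (tm3_theta hf1 hθ1 y w)
    have := tm3_theta hf1 hθ1 y w
    linarith
  have hiE : Integrable (fun w : Path d => Real.exp (θ * Sf f 1 y w) - 1) W :=
    tm3_integrable hmE hE2
  have hmU : Measurable fun w : Path d => uf W θ f j (y + w 1) - a :=
    (hu.meas.comp (measurable_const.add (measurable_ev 1))).sub_const a
  have hi1 : Integrable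
      (fun w : Path d => (Real.exp (θ * Sf f 1 y w) - 1) * (uf W θ f j (y + w 1) - a)) W :=
    tm3_integrable (hmE.mul hmU) (M := 2 * B) fun w => by
      rw [abs_mul]; exact mul_le_mul (hE2 w) (hB _) (abs_nonneg _) zero_le_two
  have hiS : Integrable (fun w : Path d => Sf f 1 y w) W :=
    tm3_integrable hmS fun w => abs_Sf_le hf1 zero_le_one y w
  have hiA : Integrable (fun w : Path d => Sf (fun y => |f y|) 1 y w) W :=
    tm3_integrable (tm3_measS hf.meas.abs 1 y)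
      (fun w => abs_Sf_le (f := fun y => |f y|) (fun x => by rw [abs_abs]; exact hf1 x)
        zero_le_one y w)
  have hsplit : gf W θ f j y =
      ∫ w, (Real.exp (θ * Sf f 1 y w) - 1) * (uf W θ f j (y + w 1) - a) ∂W +
        a * ∫ w, (Real.exp (θ * Sf f 1 y w) - 1) ∂W := by
    rw [← integral_const_mul, ← integral_add hi1 (hiE.const_mul a)]
    unfold gf
    refine integral_congr_ae (Filter.Eventually.of_forall fun w => ?_)
    simp only
    ring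
  have h1 := (abs_le.1 (tm3_dom (W := W) hf.meas hf1 hθ1
    (h := fun x => uf W θ f j x - a) hB y)).2
  have h2 : ∫ w, (Real.exp (θ * Sf f 1 y w) - 1) ∂W ≤
      θ * (∫ w, Sf f 1 y w ∂W) + θ ^ 2 * ∫ w, Sf (fun y => |f y|) 1 y w ∂W := by
    rw [← integral_const_mul, ← integral_const_mul,
      ← integral_add (hiS.const_mul _) (hiA.const_mul _)]
    exact integral_mono hiE ((hiS.const_mul _).add (hiA.const_mul _))
      fun w => tm3_exp_bound2 hf1 hθ1 y w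
  have h3 := mul_le_mul_of_nonneg_left h2 ha
  rw [hsplit]
  nlinarith [h1, h3]

theorem tm3_Pav_gf {W : Measure (Path d)} (hW : IsWiener W) {Λ : ℝ} (hΛ : 0 < Λ) {f : E d → ℝ}
    (hf : BMP Λ f) (hf1 : ∀ x, |f x| ≤ 1) (hf0 : Pav Λ f = 0) {β θ : ℝ}
    (hβ : Pav Λ (fun y => |f y|) ≤ β) (hθ1 : |θ| ≤ 1) (j : ℕ) {a B : ℝ}
    (ha : 0 ≤ a) (hB : ∀ x, |uf W θ f j x - a| ≤ B) :
    Pav Λ (gf W θ f j) ≤ (2 * |θ| * B + a * θ ^ 2) * β := by
  have hB0 : 0 ≤ B := (abs_nonneg _).trans (hB 0)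
  have h1 := hW.BMP_Sf hf.abs 1
  have h2 := hW.BMP_Sf hf 1
  have h3 := Pav_mono hΛ (hW.BMP_gf hf θ j)
    (tm3_bmp_add (tm3_bmp_mul h1 (2 * |θ| * B + a * θ ^ 2)) (tm3_bmp_mul h2 (a * θ)))
    (tm3_gf_le hW hf hf1 hθ1 j ha hB)
  rw [Pav_add hΛ (tm3_bmp_mul h1 _) (tm3_bmp_mul h2 _), Pav_const_mul, Pav_const_mul,
    hW.Pav_Sf hΛ hf.abs zero_le_one, hW.Pav_Sf hΛ hf zero_le_one, hf0] at h3
  have h4 : 0 ≤ 2 * |θ| * B + a * θ ^ 2 := by positivity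
  calc Pav Λ (gf W θ f j) ≤ (2 * |θ| * B + a * θ ^ 2) * Pav Λ (fun y => |f y|) := by
        simpa using h3
    _ ≤ _ := mul_le_mul_of_nonneg_left hβ h4

theorem tm3_Pav_uf {W : Measure (Path d)} (hW : IsWiener W) {Λ : ℝ} (hΛ : 0 < Λ) {f : E d → ℝ}
    (hf : BMP Λ f) (θ : ℝ) (n : ℕ) :
    Pav Λ (uf W θ f n) = 1 + ∑ k ∈ Finset.range n, Pav Λ (gf W θ f (n - 1 - k)) := by
  have hfun : uf W θ f n =
      fun x => 1 + ∑ k ∈ Finset.range n, Pop W k (gf W θ f (n - 1 - k)) x :=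
    funext fun x => hW.duhamel hf θ n x
  have hb : ∀ k : ℕ, BMP Λ (Pop W k (gf W θ f (n - 1 - k))) := fun k =>
    hW.BMP_Pop (hW.BMP_gf hf θ _) _
  rw [hfun, Pav_add hΛ (tm3_bmp_const Λ 1) (tm3_bmp_sum hb n), Pav_const hΛ, tm3_Pav_sum hΛ hb]
  congr 1
  exact Finset.sum_congr rfl fun k _ => hW.Pav_Pop hΛ (hW.BMP_gf hf θ _) _

theorem IsWiener.exp_moment {W : Measure (Path d)} (hW : IsWiener W) {Λ : ℝ} (hΛ : 0 < Λ)
    {k0 : ℕ} (hk0 : 0 < k0)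
    (hmix : ∀ (g : E d → ℝ) (x : E d), BMP Λ g →
      |Pop W k0 g x - Pav Λ g| ≤ 1 / 2 * Pav Λ fun y => |g y|)
    {f : E d → ℝ} (hf : BMP Λ f) (hf1 : ∀ x, |f x| ≤ 1) (hf0 : Pav Λ f = 0) {α β θ : ℝ}
    (hβ : Pav Λ (fun y => |f y|) ≤ β) (hα : ∀ x, ∫ w, Sf (fun y => |f y|) k0 x w ∂W ≤ α)
    (hαβ : k0 * β ≤ α) (hθ1 : |θ| ≤ 1) (hθ : 12 * α * |θ| ≤ 1) (n : ℕ) :
    Pav Λ (uf W θ f n) ≤ Real.exp (θ ^ 2 * β * (1 + 24 * α) * n) := by
  have := hW.isProbabilityMeasure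
  have hβ0 : 0 ≤ β := (tm3_Pav_nonneg hΛ fun _ => abs_nonneg _).trans hβ
  have hα0 : 0 ≤ α := le_trans (by positivity) hαβ
  obtain ⟨κ, hκ⟩ : ∃ κ, κ = θ ^ 2 * β * (1 + 24 * α) := ⟨_, rfl⟩
  have hκ0 : 0 ≤ κ := by rw [hκ]; positivity
  have hK1 : 1 ≤ 1 + κ := by linarith
  have key : ∀ n : ℕ, Pav Λ (uf W θ f n) ≤ (1 + κ) ^ n ∧
      ∀ x, |uf W θ f n x - Pav Λ (uf W θ f n)| ≤ 12 * α * |θ| * (1 + κ) ^ n := by
    intro n
    induction n using Nat.strong_induction_on with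
    | _ n ih =>
      have hub : ∀ j < n, ∀ x, |uf W θ f j x| ≤ 2 * (1 + κ) ^ n := by
        intro j hj x
        rw [abs_of_nonneg (tm3_uf_nonneg W θ f j x)]
        have h1 := (ih j hj).1
        have h2 := (abs_le.1 ((ih j hj).2 x)).2
        have h3 : (1 + κ) ^ j ≤ (1 + κ) ^ n := pow_le_pow_right₀ hK1 hj.le
        have h4 : 0 ≤ (1 + κ) ^ j := by positivity
        have h5 : 12 * α * |θ| * (1 + κ) ^ j ≤ 1 * (1 + κ) ^ j :=
          mul_le_mul_of_nonneg_right hθ h4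
        linarith
      have hg : ∀ j < n, Pav Λ (gf W θ f j) ≤ κ * (1 + κ) ^ j := by
        intro j hj
        have h0 : 0 ≤ Pav Λ (uf W θ f j) := tm3_Pav_nonneg hΛ (tm3_uf_nonneg W θ f j)
        refine (tm3_Pav_gf hW hΛ hf hf1 hf0 hβ hθ1 j h0 (ih j hj).2).trans ?_
        have h1 : Pav Λ (uf W θ f j) * θ ^ 2 ≤ (1 + κ) ^ j * θ ^ 2 :=
          mul_le_mul_of_nonneg_right (ih j hj).1 (sq_nonneg _)
        have h2 : 2 * |θ| * (12 * α * |θ| * (1 + κ) ^ j) = 24 * α * θ ^ 2 * (1 + κ) ^ j := by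
          rw [← sq_abs θ]; ring
        rw [h2]
        calc (24 * α * θ ^ 2 * (1 + κ) ^ j + Pav Λ (uf W θ f j) * θ ^ 2) * β
            ≤ (24 * α * θ ^ 2 * (1 + κ) ^ j + (1 + κ) ^ j * θ ^ 2) * β := by gcongr
          _ = θ ^ 2 * β * (1 + 24 * α) * (1 + κ) ^ j := by ring
          _ = _ := by rw [← hκ]
      have hav := tm3_Pav_uf hW hΛ hf θ n
      refine ⟨?_, fun x => ?_⟩
      · rw [hav, Finset.sum_range_reflect (fun j => Pav Λ (gf W θ f j)) n]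
        have h1 : ∑ j ∈ Finset.range n, Pav Λ (gf W θ f j) ≤
            ∑ j ∈ Finset.range n, κ * (1 + κ) ^ j :=
          Finset.sum_le_sum fun j hj => hg j (Finset.mem_range.1 hj)
        have h2 : ∑ j ∈ Finset.range n, κ * (1 + κ) ^ j = (1 + κ) ^ n - 1 := by
          rw [← Finset.mul_sum, ← geom_sum_mul (1 + κ) n]; ring
        linarith
      · have hM : 0 ≤ 2 * |θ| * (2 * (1 + κ) ^ n) := by positivity
        have h1 := hW.sum_mix hΛ hk0 hmix hf hM hβ hα hαβ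
          (g := fun k => gf W θ f (n - 1 - k)) (n := n) (fun k _ => hW.BMP_gf hf θ _)
          (fun k hk y => tm3_dom (W := W) hf.meas hf1 hθ1 (hub (n - 1 - k) (by omega)) y) x
        rw [hW.duhamel hf θ n x, hav, add_sub_add_left_eq_sub, ← Finset.sum_sub_distrib]
        refine (Finset.abs_sum_le_sum_abs _ _).trans (h1.trans (le_of_eq ?_))
        ring
  refine (key n).1.trans ?_
  rw [← hκ, mul_comm κ, Real.exp_nat_mul]
  exact pow_le_pow_left₀ (by linarith) (by linarith [Real.add_one_le_exp κ]) n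

end Pool.Agent.Lib.MP_fe8b6f_pr
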