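import Pool.Agent.Lib.MP_fe8b6f_pr.TK
import Pool.Agent.Lib.MP_fe8b6f_pr.Defs2

/-! Occupation time of a periodised cube. -/

open MeasureTheory ProbabilityTheory
open scoped NNReal ENNReal

noncomputable section

namespace Pool.Agent.Lib.MP_fe8b6f_pr

variable {d : ℕ}

theorem tm4_tail (hd : 3 ≤ d) {a : ℝ} (ha : 0 < a) :
    ∫⁻ t in Set.Ici a, ENNReal.ofReal (t ^ (-(d : ℝ) / 2)) ≤
      ENNReal.ofReal (2 * a ^ (1 - (d : ℝ) / 2)) := by
  have h := bmb_half hd
  have hlt : -(d : ℝ) / 2 < -1 := by linarith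
  rw [← setLIntegral_congr Ioi_ae_eq_Ici,
    ← ofReal_integral_eq_lintegral_ofReal (integrableOn_Ioi_rpow_of_lt hlt ha),
    integral_Ioi_rpow_of_lt hlt ha]
  · refine ENNReal.ofReal_le_ofReal ?_
    have e : -(d : ℝ) / 2 + 1 = 1 - (d : ℝ) / 2 := by ring
    have p : 0 < a ^ (1 - (d : ℝ) / 2) := by positivity
    rw [e, div_le_iff_of_neg (by linarith)]
    nlinarith
  · refine (ae_restrict_mem measurableSet_Ioi).mono fun t ht => ?_
    exact Real.rpow_nonneg (ha.trans ht).le _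

theorem tm4_avz {Λ r : ℝ} (hΛ : 0 < Λ) (hr : 0 ≤ r) (a : E d) :
    avz Λ ((perS Λ (cube a r)).indicator (1 : E d → ℝ≥0∞)) ≤ ENNReal.ofReal (r ^ d / Λ ^ d) := by
  have hA : MeasurableSet (perS Λ (cube a r)) := measurableSet_perS Λ (measurableSet_cube a r)
  unfold avz
  rw [lintegral_indicator_one hA, Measure.restrict_apply hA, Set.inter_comm,
    ENNReal.ofReal_div_of_pos (by positivity), ← volume_cube a hr]
  exact ENNReal.div_le_div_right (volume_cell_inter_perS hΛ (measurableSet_cube a r)) _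

/-- occupation time of a periodised cube up to the mixing time -/
theorem IsWiener.occ_perS_le {W : Measure (Path d)} (hW : IsWiener W) (hd : 3 ≤ d) {C0 : ℝ}
    (hC0 : 0 < C0) :
    ∃ C : ℝ, 0 < C ∧ ∀ (Λ r t : ℝ) (a x : E d), 1 ≤ r → r ≤ Λ → t ≤ C0 * Λ ^ 2 + 1 →
      ∫⁻ w, occ x w (Set.Ico 0 t) (perS Λ (cube a r)) ∂W ≤ ENNReal.ofReal (C * r ^ 2) := by
  have := hW.isProbabilityMeasure
  obtain ⟨C, hC, hub⟩ := hW.torus_ub
  refine ⟨1 + 2 * C + C * (C0 + 1), by positivity, fun Λ r t a x hr hrΛ ht => ?_⟩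
  have hr0 : 0 < r := by linarith
  have hΛ : 0 < Λ := by linarith
  have hr2 : 0 < r ^ 2 := by positivity
  set A : Set (E d) := perS Λ (cube a r) with hAdef
  have hA : MeasurableSet A := measurableSet_perS Λ (measurableSet_cube a r)
  have hf : Measurable (A.indicator (1 : E d → ℝ≥0∞)) := measurable_one.indicator hA
  have h1 : ∀ w, occ x w (Set.Ico 0 t) A ≤
      ENNReal.ofReal (r ^ 2) + occ x w (Set.Ico (r ^ 2) t) A := by
    intro w
    have hdis : Disjoint (Set.Ico 0 (r ^ 2)) (Set.Ico (r ^ 2) t) :=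
      Set.disjoint_left.2 fun s h1 h2 => absurd h1.2 (not_lt.2 h2.1)
    have hsub : Set.Ico 0 t ⊆ Set.Ico 0 (r ^ 2) ∪ Set.Ico (r ^ 2) t := by
      intro s hs
      rcases lt_or_ge s (r ^ 2) with h | h
      · exact Or.inl ⟨hs.1, h⟩
      · exact Or.inr ⟨h, hs.2⟩
    refine (occ_mono x w hsub A).trans ?_
    rw [occ_union x w hdis measurableSet_Ico, Measure.add_apply]
    refine add_le_add_left ?_ _
    refine (measure_mono (Set.subset_univ A)).trans_eq ?_
    rw [occ_univ, Real.volume_Ico, sub_zero]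
  have h2 := hW.lintegral_occ_eq x (I := Set.Ico (r ^ 2) t) measurableSet_Ico
    (fun s hs => hr2.le.trans hs.1) hf
  simp only [lintegral_indicator_one hA] at h2
  have h3 : ∀ s ∈ Set.Ico (r ^ 2) t, ∫⁻ y, A.indicator 1 y * heat s (y - x) ≤
      ENNReal.ofReal (C * r ^ d) * ENNReal.ofReal (s ^ (-(d : ℝ) / 2)) +
        ENNReal.ofReal (C * (r ^ d / Λ ^ d)) := by
    intro s hs
    have hs0 : 0 < s := hr2.trans_le hs.1
    rw [← hW.lintegral_eval hs0 x hf]
    refine (hub Λ s x _ hΛ hs0 hf (isPer_indicator_perS Λ _)).trans ?_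
    refine (mul_le_mul_right (tm4_avz hΛ hr0.le a) _).trans_eq ?_
    rw [← ENNReal.ofReal_mul (by positivity), ← ENNReal.ofReal_mul (by positivity),
      ← ENNReal.ofReal_add (by positivity) (by positivity)]
    congr 1
    field_simp
  have e1 : C * r ^ d * (2 * (r ^ 2) ^ (1 - (d : ℝ) / 2)) = 2 * C * r ^ 2 := by
    have e : (r ^ 2) ^ (1 - (d : ℝ) / 2) * r ^ d = r ^ 2 := by
      rw [← Real.rpow_natCast r 2, ← Real.rpow_natCast r d, ← Real.rpow_mul hr0.le,
        ← Real.rpow_add hr0]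
      congr 1
      push_cast
      ring
    calc C * r ^ d * (2 * (r ^ 2) ^ (1 - (d : ℝ) / 2))
        = 2 * C * ((r ^ 2) ^ (1 - (d : ℝ) / 2) * r ^ d) := by ring
      _ = _ := by rw [e]
  have e2 : C * (r ^ d / Λ ^ d) * (t - r ^ 2) ≤ C * (C0 + 1) * r ^ 2 := by
    have q1 : r ^ d / Λ ^ d ≤ r ^ 2 / Λ ^ 2 := by
      rw [← div_pow, ← div_pow]
      exact pow_le_pow_of_le_one (by positivity) ((div_le_one hΛ).2 hrΛ) (by omega)
    have q2 : t - r ^ 2 ≤ (C0 + 1) * Λ ^ 2 := by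
      have : 1 ≤ Λ ^ 2 := one_le_pow₀ (hr.trans hrΛ)
      nlinarith
    calc C * (r ^ d / Λ ^ d) * (t - r ^ 2) ≤ C * (r ^ d / Λ ^ d) * ((C0 + 1) * Λ ^ 2) := by
          gcongr
      _ ≤ C * (r ^ 2 / Λ ^ 2) * ((C0 + 1) * Λ ^ 2) := by gcongr
      _ = _ := by field_simp
  have h4 : ∫⁻ w, occ x w (Set.Ico (r ^ 2) t) A ∂W ≤
      ENNReal.ofReal (2 * C * r ^ 2) + ENNReal.ofReal (C * (C0 + 1) * r ^ 2) := by
    rw [h2]
    refine (setLIntegral_mono' measurableSet_Ico h3).trans ?_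
    rw [lintegral_add_right _ measurable_const, lintegral_const_mul _ (by fun_prop),
      setLIntegral_const, Real.volume_Ico]
    refine add_le_add ?_ ?_
    · refine (mul_le_mul_right ((lintegral_mono_set Set.Ico_subset_Ici_self).trans
        (tm4_tail hd hr2)) _).trans_eq ?_
      rw [← ENNReal.ofReal_mul (by positivity), e1]
    · rw [← ENNReal.ofReal_mul (by positivity)]
      exact ENNReal.ofReal_le_ofReal e2
  calc ∫⁻ w, occ x w (Set.Ico 0 t) A ∂W
      ≤ ∫⁻ w, (ENNReal.ofReal (r ^ 2) + occ x w (Set.Ico (r ^ 2) t) A) ∂W := lintegral_mono h1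
    _ = ENNReal.ofReal (r ^ 2) + ∫⁻ w, occ x w (Set.Ico (r ^ 2) t) A ∂W := by
        rw [lintegral_add_left measurable_const, lintegral_const, measure_univ, mul_one]
    _ ≤ ENNReal.ofReal (r ^ 2) +
          (ENNReal.ofReal (2 * C * r ^ 2) + ENNReal.ofReal (C * (C0 + 1) * r ^ 2)) :=
        add_le_add_right h4 _
    _ = _ := by
        rw [← ENNReal.ofReal_add (by positivity) (by positivity),
          ← ENNReal.ofReal_add (by positivity) (by positivity)]
        congr 1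
        ring

end Pool.Agent.Lib.MP_fe8b6f_pr
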