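import Pool.Agent.Lib.MP_fe8b6f_pr.Per
import Pool.Agent.Lib.MP_fe8b6f_pr.Defs2

/-! Reduction to the period cell. -/

open MeasureTheory ProbabilityTheory
open scoped NNReal ENNReal

noncomputable section

namespace Pool.Agent.Lib.MP_fe8b6f_pr

variable {d : ℕ}

theorem tm4a_red_apply (Λ : ℝ) (x : E d) (i : Fin d) :
    red Λ x i = Λ * Int.fract (Λ⁻¹ * x i) := by
  simp [red, frac]

theorem tm4a_lat_apply (k : Fin d → ℤ) (i : Fin d) : lat k i = (k i : ℝ) := by
  simp [lat]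

theorem measurable_red (Λ : ℝ) : Measurable (red Λ : E d → E d) := by
  have h1 : Measurable (frac : E d → E d) := by
    unfold frac
    refine (WithLp.measurable_toLp 2 _).comp ?_
    refine measurable_pi_lambda _ fun i => ?_
    exact measurable_fract.comp (by fun_prop)
  unfold red
  exact (h1.comp (measurable_id.const_smul Λ⁻¹)).const_smul Λ

theorem red_mem {Λ : ℝ} (hΛ : 0 < Λ) (x : E d) : red Λ x ∈ cube 0 Λ := by
  intro i
  rw [tm4a_red_apply]
  have h0 := Int.fract_nonneg (Λ⁻¹ * x i)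
  have h1 := Int.fract_lt_one (Λ⁻¹ * x i)
  simp only [PiLp.zero_apply, zero_add]
  exact ⟨mul_nonneg hΛ.le h0, by nlinarith⟩

theorem red_eq_self {Λ : ℝ} (hΛ : 0 < Λ) {x : E d} (hx : x ∈ cube 0 Λ) : red Λ x = x := by
  ext i
  rw [tm4a_red_apply]
  have h := hx i
  simp only [PiLp.zero_apply, zero_add] at h
  have h2 : Int.fract (Λ⁻¹ * x i) = Λ⁻¹ * x i := by
    rw [Int.fract_eq_self]
    refine ⟨mul_nonneg (inv_nonneg.2 hΛ.le) h.1, ?_⟩
    rw [inv_mul_lt_iff₀ hΛ, mul_one]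
    exact h.2
  rw [h2, ← mul_assoc, mul_inv_cancel₀ hΛ.ne', one_mul]

theorem isPer_red {Λ : ℝ} (hΛ : 0 < Λ) : IsPer Λ (red Λ : E d → E d) := by
  intro x k
  ext i
  rw [tm4a_red_apply, tm4a_red_apply]
  congr 1
  have h : Λ⁻¹ * (x + Λ • lat k) i = Λ⁻¹ * x i + (k i : ℝ) := by
    simp only [PiLp.add_apply, PiLp.smul_apply, smul_eq_mul, tm4a_lat_apply]
    field_simp
  rw [h, Int.fract_add_intCast]

theorem tm4a_red_eq {Λ : ℝ} (hΛ : 0 < Λ) (x : E d) :
    red Λ x = x + Λ • lat fun i => -⌊Λ⁻¹ * x i⌋ := by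
  ext i
  rw [tm4a_red_apply]
  simp only [PiLp.add_apply, PiLp.smul_apply, smul_eq_mul, tm4a_lat_apply, Int.fract]
  push_cast
  field_simp
  ring

theorem per_restrict_cell {Λ : ℝ} (hΛ : 0 < Λ) (μ : Measure (E d)) :
    (per Λ μ).restrict (cube 0 Λ) = μ.map (red Λ) := by
  ext A hA
  have hC : MeasurableSet (A ∩ cube (0 : E d) Λ) := hA.inter (measurableSet_cube _ _)
  rw [Measure.restrict_apply hA, per_tsum Λ μ hC, Measure.map_apply (measurable_red Λ) hA,
    ← measure_iUnion ?_ fun k => measurable_add_const _ hC]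
  · congr 1
    ext x
    simp only [Set.mem_iUnion, Set.mem_preimage, Set.mem_inter_iff]
    constructor
    · rintro ⟨k, hk, hk'⟩
      rw [← isPer_red hΛ x k, red_eq_self hΛ hk']
      exact hk
    · intro hx
      refine ⟨fun i => -⌊Λ⁻¹ * x i⌋, ?_⟩
      rw [← tm4a_red_eq hΛ]
      exact ⟨hx, red_mem hΛ x⟩
  · intro k l hkl
    rw [Function.onFun, Set.disjoint_left]
    intro x hk hl
    apply hkl
    refine neg_injective ((existsUnique_cell hΛ 0 x).unique ?_ ?_)
    · rw [lat_neg, smul_neg, sub_neg_eq_add]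
      exact hk.2
    · rw [lat_neg, smul_neg, sub_neg_eq_add]
      exact hl.2

theorem abs_rpow_le_exp {q : ℝ} (hq : 1 ≤ q) :
    ∃ C : ℝ, 0 ≤ C ∧ ∀ x : ℝ, |x| ^ q ≤ C * (Real.exp x + Real.exp (-x)) := by
  obtain ⟨n, hn⟩ := exists_nat_ge q
  refine ⟨(n.factorial : ℝ) + 1, by positivity, fun x => ?_⟩
  have h0 := abs_nonneg x
  have he : Real.exp |x| ≤ Real.exp x + Real.exp (-x) := by
    rcases abs_cases x with h | h
    · rw [h.1]
      linarith [Real.exp_pos (-x)]
    · rw [h.1]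
      linarith [Real.exp_pos x]
  have h1 : 1 ≤ Real.exp |x| := Real.one_le_exp h0
  have h2 : |x| ^ n ≤ n.factorial * Real.exp |x| := by
    have h := Real.pow_div_factorial_le_exp |x| h0 n
    rw [div_le_iff₀ (by positivity)] at h
    linarith
  have h3 : |x| ^ q ≤ |x| ^ n + 1 := by
    rcases le_total |x| 1 with h | h
    · have := Real.rpow_le_one h0 h (by linarith : 0 ≤ q)
      have h4 : 0 ≤ |x| ^ n := by positivity
      linarith
    · have := Real.rpow_le_rpow_of_exponent_le h hn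
      rw [Real.rpow_natCast] at this
      linarith
  have h5 : (0 : ℝ) ≤ n.factorial := by positivity
  calc |x| ^ q ≤ (n.factorial + 1) * Real.exp |x| := by nlinarith
    _ ≤ _ := mul_le_mul_of_nonneg_left he (by positivity)

end Pool.Agent.Lib.MP_fe8b6f_pr
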