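import Pool.Agent.Lib.MP_fe8b6f_pr.TM3
import Pool.Agent.Lib.MP_fe8b6f_pr.TM4a
import Pool.Agent.Lib.MP_fe8b6f_pr.TM4
import Pool.Agent.Lib.MP_fe8b6f_pr.TorA1

/-! Moments of the torus occupation measure. -/

open MeasureTheory ProbabilityTheory
open scoped NNReal ENNReal

noncomputable section

namespace Pool.Agent.Lib.MP_fe8b6f_pr

variable {d : ℕ}

theorem tm5a_perS {Λ : ℝ} (hΛ : 0 < Λ) {A : Set (E d)} {y : E d} (hy : red Λ y ∈ A) :
    y ∈ perS Λ A := by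
  obtain ⟨k, hk, -⟩ := existsUnique_cell hΛ (0 : E d) y
  have h1 := isPer_red hΛ (y - Λ • lat k) k
  rw [sub_add_cancel, red_eq_self hΛ hk] at h1
  refine ⟨-k, ?_⟩
  rwa [lat_neg, smul_neg, ← sub_eq_add_neg, ← h1]

theorem tm5a_intOn {g : E d → ℝ} (hg : Measurable g) {M : ℝ} (hM : ∀ y, |g y| ≤ M) (x : E d)
    (w : Path d) (t : ℝ) : IntegrableOn (fun s : ℝ => g (x + w s.toNNReal)) (Set.Ico 0 t) :=
  Measure.integrableOn_of_bounded (M := M) measure_Ico_lt_top.ne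
    (hg.comp (bmb2_meas x w)).aestronglyMeasurable (Filter.Eventually.of_forall fun _ => hM _)

theorem tm5a_eq {Λ : ℝ} (hΛ : 0 < Λ) {h : E d → ℝ} (hh : Measurable h) (h1 : ∀ y, |h y| ≤ 1)
    (h0 : ∀ y, y ∉ cube 0 Λ → h y = 0) (x : E d × Path d) :
    ∫ y, h y ∂(tm Λ (Set.Ico 0 (Λ ^ d)) x) - ∫ y, h y =
      Sf (fun y => h (red Λ y) - (∫ y, h y) / Λ ^ d) (Λ ^ d) x.1 x.2 := by
  have hT : 0 < Λ ^ d := pow_pos hΛ d
  rw [← setIntegral_eq_integral_of_forall_compl_eq_zero (μ := tm Λ (Set.Ico 0 (Λ ^ d)) x) h0, tm,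
    per_restrict_cell hΛ, integral_map (measurable_red Λ).aemeasurable hh.aestronglyMeasurable,
    occ, integral_map (f := fun y => h (red Λ y)) (bmb2_meas x.1 x.2).aemeasurable
      (hh.comp (measurable_red Λ)).aestronglyMeasurable, Sf,
    integral_sub (tm5a_intOn (g := fun y => h (red Λ y)) (hh.comp (measurable_red Λ))
      (fun y => h1 _) x.1 x.2 _) (integrableOn_const measure_Ico_lt_top.ne), setIntegral_const,
    Real.volume_real_Ico_of_le hT.le, sub_zero, smul_eq_mul, mul_div_cancel₀ _ hT.ne']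

theorem tm5a_floor {f : E d → ℝ} (hf : Measurable f) (hf1 : ∀ y, |f y| ≤ 1) {T : ℝ} (hT : 0 ≤ T)
    (x : E d) (w : Path d) : |Sf f T x w - Sf f (⌊T⌋₊ : ℕ) x w| ≤ 1 := by
  have h0 : 0 ≤ T - (⌊T⌋₊ : ℕ) := sub_nonneg.2 (Nat.floor_le hT)
  have h1 := Sf_add hf hf1 (⌊T⌋₊ : ℕ) h0 x w
  have h2 := Sf_add hf hf1 (⌊T⌋₊ : ℕ) le_rfl x w
  rw [NNReal.coe_natCast, add_sub_cancel] at h1
  rw [NNReal.coe_natCast, add_zero] at h2
  have h3 := abs_le.1 (abs_Sf_le hf1 h0 (x + w (⌊T⌋₊ : ℕ)) (shift (⌊T⌋₊ : ℕ) w))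
  have h4 := abs_le.1 (abs_Sf_le hf1 le_rfl (x + w (⌊T⌋₊ : ℕ)) (shift (⌊T⌋₊ : ℕ) w))
  have h5 := Nat.lt_floor_add_one T
  rw [abs_le]
  constructor <;> linarith [h3.1, h3.2, h4.1, h4.2]

theorem tm5a_occ {W : Measure (Path d)} (hW : IsWiener W) {g : E d → ℝ} (hg0 : ∀ y, 0 ≤ g y)
    {A : Set (E d)} (hA : MeasurableSet A) {m : ℝ}
    (hgA : ∀ y, g y ≤ A.indicator 1 y + m) {t B : ℝ} (ht : 0 ≤ t) (hB : 0 ≤ B) (x : E d)
    (hocc : ∫⁻ w, occ x w (Set.Ico 0 t) A ∂W ≤ ENNReal.ofReal B) :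
    ∫ w, Sf g t x w ∂W ≤ B + t * m := by
  have := hW.isProbabilityMeasure
  have hmeas : Measurable fun w : Path d => occ x w (Set.Ico 0 t) A :=
    (Measure.measurable_coe hA).comp (measurable_occ.comp measurable_prodMk_left)
  have hfin : ∫⁻ w, occ x w (Set.Ico 0 t) A ∂W ≠ ⊤ := ne_top_of_le_ne_top ENNReal.ofReal_ne_top hocc
  have hint := integrable_toReal_of_lintegral_ne_top hmeas.aemeasurable hfin
  have h1 : ∀ w, Sf g t x w ≤ (occ x w (Set.Ico 0 t) A).toReal + t * m := by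
    intro w
    have hi : IntegrableOn (fun s : ℝ => A.indicator (1 : E d → ℝ) (x + w s.toNNReal))
        (Set.Ico 0 t) :=
      tm5a_intOn (measurable_one.indicator hA) (M := 1)
        (fun y => by by_cases hy : y ∈ A <;> simp [hy]) x w t
    refine (integral_mono_of_nonneg (Filter.Eventually.of_forall fun s => hg0 _)
      (hi.add (integrableOn_const measure_Ico_lt_top.ne))
      (Filter.Eventually.of_forall fun s => hgA _)).trans (le_of_eq ?_)
    simp only [Pi.add_apply]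
    rw [integral_add hi (integrableOn_const measure_Ico_lt_top.ne), setIntegral_const,
      Real.volume_real_Ico_of_le ht, sub_zero, smul_eq_mul, occ,
      ← integral_map (f := A.indicator (1 : E d → ℝ)) (bmb2_meas x w).aemeasurable
        (measurable_one.indicator hA).aestronglyMeasurable, integral_indicator_one hA]
    rfl
  refine (integral_mono_of_nonneg
    (Filter.Eventually.of_forall fun w => integral_nonneg fun s => hg0 _)
    (hint.add (integrable_const (t * m))) (Filter.Eventually.of_forall h1)).trans ?_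
  simp only [Pi.add_apply]
  rw [integral_add hint (integrable_const _), integral_const, probReal_univ, one_smul,
    integral_toReal hmeas.aemeasurable (ae_lt_top hmeas hfin)]
  exact add_le_add (ENNReal.toReal_le_of_le_ofReal hB hocc) le_rfl

theorem tm5a_TP {W : Measure (Path d)} (hW : IsWiener W) {Λ : ℝ} (hΛ : 0 < Λ) {f : E d → ℝ}
    (hf : BMP Λ f) (hf1 : ∀ y, |f y| ≤ 1) (θ : ℝ) (n : ℕ) :
    ∫⁻ x, ENNReal.ofReal (Real.exp (θ * Sf f n x.1 x.2)) ∂(TP W Λ) =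
      ENNReal.ofReal (Pav Λ (uf W θ f n)) := by
  have := hW.isProbabilityMeasure
  have hm : Measurable fun x : E d × Path d => Real.exp (θ * Sf f n x.1 x.2) :=
    ((measurable_Sf hf.meas n).const_mul θ).exp
  rw [hW.lintegral_TP hm.ennreal_ofReal, avz, Pav, ENNReal.ofReal_div_of_pos (pow_pos hΛ d),
    ofReal_integral_eq_lintegral_ofReal ((hW.BMP_uf hf θ n).integrableOn hΛ)
      (Filter.Eventually.of_forall fun x => integral_nonneg fun w => (Real.exp_pos _).le)]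
  congr 1
  refine lintegral_congr fun x => ?_
  rw [uf, ofReal_integral_eq_lintegral_ofReal _
    (Filter.Eventually.of_forall fun w => (Real.exp_pos _).le)]
  refine Integrable.of_bound (hm.comp measurable_prodMk_left).aestronglyMeasurable
    (Real.exp (|θ| * n)) (Filter.Eventually.of_forall fun w => ?_)
  rw [Real.norm_eq_abs, abs_of_pos (Real.exp_pos _), Real.exp_le_exp]
  refine (le_abs_self _).trans ?_
  rw [abs_mul]
  exact mul_le_mul_of_nonneg_left (abs_Sf_le hf1 (Nat.cast_nonneg n) x w) (abs_nonneg θ)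

theorem tm5a_point {q Cq c ρ X Y : ℝ} (hCq : 0 ≤ Cq)
    (hC : ∀ x : ℝ, |x| ^ q ≤ Cq * (Real.exp x + Real.exp (-x))) (hc : 0 < c) (hρ : 0 < ρ)
    (hθ : c / ρ ≤ 1) (hXY : |X - Y| ≤ 1) :
    |X| ^ q ≤ (ρ / c) ^ q * Cq * Real.exp 1 *
      (Real.exp (c / ρ * Y) + Real.exp (-(c / ρ) * Y)) := by
  have hθ0 : 0 < c / ρ := div_pos hc hρ
  have h1 : |X| = ρ / c * |c / ρ * X| := by
    rw [abs_mul, abs_of_pos hθ0]
    field_simp
  have h2 := abs_le.1 hXY
  have h3 : Real.exp (c / ρ * X) ≤ Real.exp 1 * Real.exp (c / ρ * Y) := by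
    rw [← Real.exp_add, Real.exp_le_exp]
    nlinarith [h2.1, h2.2]
  have h4 : Real.exp (-(c / ρ * X)) ≤ Real.exp 1 * Real.exp (-(c / ρ) * Y) := by
    rw [← Real.exp_add, Real.exp_le_exp]
    nlinarith [h2.1, h2.2]
  rw [h1, Real.mul_rpow (by positivity) (abs_nonneg _), mul_assoc, mul_assoc]
  refine mul_le_mul_of_nonneg_left ((hC _).trans ?_) (by positivity)
  rw [mul_add (Real.exp 1)]
  exact mul_le_mul_of_nonneg_left (add_le_add h3 h4) hCq

theorem IsWiener.torus_mom {W : Measure (Path d)} (hW : IsWiener W) (hd : 3 ≤ d) {q : ℝ}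
    (hq : 1 ≤ q) :
    ∃ C : ℝ, 0 ≤ C ∧ ∀ (Λ r : ℝ) (a : E d) (h : E d → ℝ), 1 ≤ r → r ≤ Λ →
    cube a r ⊆ cube 0 Λ → Measurable h → (∀ y, 0 ≤ h y) → (∀ y, h y ≤ 1) →
    (∀ y, y ∉ cube a r → h y = 0) →
    ∫⁻ x, ENNReal.ofReal (|∫ y, h y ∂(tm Λ (Set.Ico 0 (Λ ^ d)) x) - ∫ y, h y| ^ q) ∂(TP W Λ) ≤
      ENNReal.ofReal (C * r ^ (q * (d + 2) / 2)) := by
  obtain ⟨C0, hC0, hmix⟩ := hW.mix_real
  obtain ⟨C, hC, hocc⟩ := hW.occ_perS_le hd hC0
  obtain ⟨Cq, hCq, hq'⟩ := abs_rpow_le_exp hq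
  set C1 := C + 2 * (C0 + 1) with hC1
  have hC1p : 0 < C1 := by positivity
  set c := min 1 (1 / (12 * C1)) with hc
  have hc0 : 0 < c := lt_min one_pos (by positivity)
  have hc1 : c ≤ 1 := min_le_left _ _
  have hc2 : 12 * C1 * c ≤ 1 := by
    have := min_le_right 1 (1 / (12 * C1))
    rw [← hc, le_div_iff₀ (by positivity)] at this
    linarith
  set B := Real.exp (2 * (1 + 24 * C1)) with hB
  refine ⟨(1 / c) ^ q * Cq * Real.exp 1 * (B + B), by positivity, ?_⟩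
  intro Λ r a h hr hrΛ hsub hh h0 h1 hsupp
  have hr0 : 0 < r := by linarith
  have hΛ : 0 < Λ := by linarith
  have hT : 0 < Λ ^ d := pow_pos hΛ d
  have hoff : ∀ y, y ∉ cube 0 Λ → h y = 0 := fun y hy => hsupp y fun hy' => hy (hsub hy')
  have habs : ∀ y, |h y| ≤ 1 := fun y => by rw [abs_of_nonneg (h0 y)]; exact h1 y
  set m := (∫ y, h y) / Λ ^ d with hm
  have hm0 : 0 ≤ m := div_nonneg (integral_nonneg h0) hT.le
  have hm1 : m ≤ (r / Λ) ^ d := by
    rw [div_pow]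
    refine div_le_div_of_nonneg_right ?_ hT.le
    have h2 := norm_setIntegral_le_of_norm_le_const (μ := volume) (s := cube a r) (f := h) (C := 1)
      (by rw [volume_cube a hr0.le]; exact ENNReal.ofReal_lt_top) (fun y _ => habs y)
    rw [setIntegral_eq_integral_of_forall_compl_eq_zero hsupp, one_mul, Measure.real,
      volume_cube a hr0.le, ENNReal.toReal_ofReal (by positivity)] at h2
    exact (le_abs_self _).trans h2
  have hrΛ1 : r / Λ ≤ 1 := (div_le_one hΛ).2 hrΛ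
  have hm2 : (r / Λ) ^ d ≤ (r / Λ) ^ 2 := pow_le_pow_of_le_one (by positivity) hrΛ1 (by omega)
  have hm3 : m ≤ 1 := hm1.trans (pow_le_one₀ (by positivity) hrΛ1)
  have hg : BMP Λ fun y => h (red Λ y) :=
    ⟨hh.comp (measurable_red Λ), fun x k => by rw [isPer_red hΛ x k], 1, fun y => habs _⟩
  have hcst : ∀ b : ℝ, BMP (d := d) Λ fun _ => b :=
    fun b => ⟨measurable_const, fun _ _ => rfl, |b|, fun _ => le_rfl⟩
  have hPg : Pav Λ (fun y => h (red Λ y)) = m := by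
    rw [Pav, setIntegral_congr_fun (measurableSet_cube 0 Λ) (g := h)
      (fun y hy => by simp only [red_eq_self hΛ hy]),
      setIntegral_eq_integral_of_forall_compl_eq_zero hoff]
  set f : E d → ℝ := fun y => h (red Λ y) - m with hf
  have hfB : BMP Λ f := hg.sub_const m
  have hf1 : ∀ y, |f y| ≤ 1 := fun y =>
    abs_le.2 ⟨by linarith [h0 (red Λ y)], by linarith [h1 (red Λ y)]⟩
  have hf2 : ∀ y, |f y| ≤ h (red Λ y) + m := fun y =>
    abs_le.2 ⟨by linarith [h0 (red Λ y)], by linarith [h0 (red Λ y)]⟩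
  have hf0 : Pav Λ f = 0 := by
    have h2 := Pav_add hΛ hg (hcst (-m))
    rw [hPg, Pav_const hΛ, add_neg_cancel] at h2
    exact h2
  have hβ : Pav Λ (fun y => |f y|) ≤ 2 * (r / Λ) ^ d := by
    have h2 := Pav_mono hΛ hfB.abs (g := fun y => h (red Λ y) + m)
      (by simpa using hg.sub_const (-m)) hf2
    rw [Pav_add hΛ hg (hcst m), hPg, Pav_const hΛ] at h2
    linarith
  set k0 := ⌈C0 * Λ ^ 2⌉₊ with hk0
  have hk1 : (k0 : ℝ) ≤ C0 * Λ ^ 2 + 1 := (Nat.ceil_lt_add_one (by positivity)).le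
  have hk2 : (k0 : ℝ) * (r / Λ) ^ d ≤ (C0 + 1) * r ^ 2 := by
    have h2 : (k0 : ℝ) ≤ (C0 + 1) * Λ ^ 2 := by nlinarith
    calc (k0 : ℝ) * (r / Λ) ^ d ≤ (C0 + 1) * Λ ^ 2 * (r / Λ) ^ 2 := by gcongr
      _ = (C0 + 1) * r ^ 2 := by field_simp
  have hα : ∀ x, ∫ w, Sf (fun y => |f y|) k0 x w ∂W ≤ C1 * r ^ 2 := by
    intro x
    have h2 := tm5a_occ hW (g := fun y => |f y|) (fun y => abs_nonneg _)
      (measurableSet_perS Λ (measurableSet_cube a r)) (m := m) (fun y => (hf2 y).trans (by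
        by_cases hy : red Λ y ∈ cube a r
        · rw [Set.indicator_of_mem (tm5a_perS hΛ hy)]
          exact add_le_add (h1 _) le_rfl
        · rw [hsupp _ hy]
          exact add_le_add (Set.indicator_nonneg (fun _ _ => zero_le_one) y) le_rfl))
      (Nat.cast_nonneg k0) (by positivity) x (hocc Λ r k0 a x hr hrΛ hk1)
    have h3 : (k0 : ℝ) * m ≤ k0 * (r / Λ) ^ d := mul_le_mul_of_nonneg_left hm1 (Nat.cast_nonneg _)
    have h4 : 0 ≤ (C0 + 1) * r ^ 2 := by positivity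
    rw [hC1]
    linarith
  set ρ := r ^ (((d : ℝ) + 2) / 2) with hρ
  have hρ0 : 0 < ρ := Real.rpow_pos_of_pos hr0 _
  have hd' : (3 : ℝ) ≤ d := by exact_mod_cast hd
  have hρ1 : r ^ 2 ≤ ρ := by
    rw [hρ, ← Real.rpow_natCast]
    exact Real.rpow_le_rpow_of_exponent_le hr (by push_cast; linarith)
  have hρ2 : ρ ^ 2 = r ^ d * r ^ 2 := by
    rw [hρ, ← Real.rpow_natCast, ← Real.rpow_mul hr0.le, ← pow_add, ← Real.rpow_natCast]
    congr 1
    push_cast
    ring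
  have hr2 : 1 ≤ r ^ 2 := one_le_pow₀ hr
  have hθ1 : c / ρ ≤ 1 := (div_le_one hρ0).2 (by linarith)
  have hexp : ∀ θ : ℝ, |θ| = c / ρ → Pav Λ (uf W θ f ⌊Λ ^ d⌋₊) ≤ B := by
    intro θ hθ
    refine (hW.exp_moment hΛ (k0 := k0) (Nat.ceil_pos.2 (by positivity))
      (fun g x hg => hmix Λ k0 g x hΛ (by rw [NNReal.coe_natCast]; exact Nat.le_ceil _) hg)
      hfB hf1 hf0 hβ hα ?_ (hθ ▸ hθ1) ?_ _).trans ?_
    · have h4 : 0 ≤ C * r ^ 2 := by positivity
      rw [hC1]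
      linarith
    · rw [hθ, ← mul_div_assoc, div_le_one hρ0]
      calc 12 * (C1 * r ^ 2) * c = 12 * C1 * c * r ^ 2 := by ring
        _ ≤ 1 * ρ := by gcongr
        _ = ρ := one_mul _
    · rw [hB, Real.exp_le_exp, ← sq_abs, hθ]
      have h2 : (⌊Λ ^ d⌋₊ : ℝ) ≤ Λ ^ d := Nat.floor_le hT.le
      calc (c / ρ) ^ 2 * (2 * (r / Λ) ^ d) * (1 + 24 * (C1 * r ^ 2)) * ⌊Λ ^ d⌋₊
          ≤ (1 / ρ) ^ 2 * (2 * (r / Λ) ^ d) * (r ^ 2 + 24 * (C1 * r ^ 2)) * Λ ^ d := by gcongr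
        _ = 2 * (1 + 24 * C1) := by
          rw [div_pow, div_pow, hρ2]
          field_simp
  have hK : 0 ≤ (ρ / c) ^ q * Cq * Real.exp 1 := by positivity
  have hmeas : ∀ θ : ℝ, Measurable fun x : E d × Path d =>
      ENNReal.ofReal (Real.exp (θ * Sf f (⌊Λ ^ d⌋₊ : ℕ) x.1 x.2)) :=
    fun θ => ((measurable_Sf hfB.meas _).const_mul θ).exp.ennreal_ofReal
  calc ∫⁻ x, ENNReal.ofReal
        (|∫ y, h y ∂(tm Λ (Set.Ico 0 (Λ ^ d)) x) - ∫ y, h y| ^ q) ∂(TP W Λ)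
      ≤ ∫⁻ x, ENNReal.ofReal ((ρ / c) ^ q * Cq * Real.exp 1) *
          (ENNReal.ofReal (Real.exp (c / ρ * Sf f (⌊Λ ^ d⌋₊ : ℕ) x.1 x.2)) +
            ENNReal.ofReal (Real.exp (-(c / ρ) * Sf f (⌊Λ ^ d⌋₊ : ℕ) x.1 x.2))) ∂(TP W Λ) := by
        refine lintegral_mono fun x => ?_
        rw [tm5a_eq hΛ hh habs hoff, ← ENNReal.ofReal_add (Real.exp_pos _).le (Real.exp_pos _).le,
          ← ENNReal.ofReal_mul hK]
        exact ENNReal.ofReal_le_ofReal (tm5a_point hCq hq' hc0 hρ0 hθ1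
          (tm5a_floor hfB.meas hf1 hT.le x.1 x.2))
    _ ≤ ENNReal.ofReal ((ρ / c) ^ q * Cq * Real.exp 1) * (ENNReal.ofReal B + ENNReal.ofReal B) := by
        rw [lintegral_const_mul' _ _ ENNReal.ofReal_ne_top, lintegral_add_left (hmeas _),
          tm5a_TP hW hΛ hfB hf1, tm5a_TP hW hΛ hfB hf1]
        gcongr
        · exact hexp _ (abs_of_pos (by positivity))
        · exact hexp _ (by rw [abs_neg, abs_of_pos (by positivity)])
    _ = _ := by
        rw [← ENNReal.ofReal_add (by positivity) (by positivity), ← ENNReal.ofReal_mul hK,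
          div_eq_mul_one_div ρ, Real.mul_rpow hρ0.le (by positivity), hρ, ← Real.rpow_mul hr0.le,
          show ((d : ℝ) + 2) / 2 * q = q * (d + 2) / 2 by ring]
        congr 1
        ring

end Pool.Agent.Lib.MP_fe8b6f_pr
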