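import Pool.Agent.Lib.MP_fe8b6f_pr.TorA2

/-! Blocks of the torus path: law, decoupling, pair estimate. Part 3. -/

open MeasureTheory ProbabilityTheory
open scoped NNReal ENNReal

noncomputable section

namespace Pool.Agent.Lib.MP_fe8b6f_pr

variable {d : ℕ}

theorem tora_shift (Λ : ℝ) (x : E d) (w : Path d) (t : ℝ≥0) {a b a' b' : ℝ} (h0 : 0 ≤ a')
    (ha : a = t + a') (hb : b = t + b') :
    tm Λ (Set.Ico a b) (x, w) = tm Λ (Set.Ico a' b') (x + w t, shift t w) := by
  simp only [tm]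
  rw [← occ_shift x w t measurableSet_Ico (fun s hs => h0.trans hs.1)]
  congr 2
  ext s
  simp only [Set.mem_Ico, Set.mem_preimage, ha, hb]
  constructor
  · rintro ⟨h1, h2⟩
    constructor <;> linarith
  · rintro ⟨h1, h2⟩
    constructor <;> linarith

theorem tora_stop (Λ : ℝ) (x : E d) (w : Path d) (t : ℝ≥0) {a b : ℝ} (hb : b ≤ t) :
    tm Λ (Set.Ico a b) (x, stop t w) = tm Λ (Set.Ico a b) (x, w) := by
  simp only [tm]
  rw [occ_stop x w t measurableSet_Ico (fun s hs => hs.2.le.trans hb)]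

theorem tora_union (Λ L : ℝ) (q : E d × Path d) {I I' : Set ℝ} (h : Disjoint I I')
    (hI' : MeasurableSet I') :
    loc 0 L (tm Λ (I ∪ I') q) = loc 0 L (tm Λ I q) + loc 0 L (tm Λ I' q) := by
  simp only [tm]
  rw [occ_union _ _ h hI', per_add, loc_add]

theorem tora_mono (Λ L : ℝ) (q : E d × Path d) {I I' : Set ℝ} (h : I ⊆ I')
    (hI : MeasurableSet I) (h0 : loc 0 L (tm Λ I q) ≠ 0) : loc 0 L (tm Λ I' q) ≠ 0 := by
  rw [← Set.sdiff_union_of_subset h, tora_union Λ L q Set.disjoint_sdiff_left hI]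
  intro hc
  exact h0 (Measure.nonpos_iff_eq_zero'.1 (hc ▸ Measure.le_add_left le_rfl))

/-- the block of the time set `I` is visible in the cube -/
def toraVis (Λ L : ℝ) (I : Set ℝ) : Set (E d × Path d) := {q | loc 0 L (tm Λ I q) ≠ 0}

theorem tora_meas (Λ L : ℝ) (I : Set ℝ) : MeasurableSet (toraVis (d := d) Λ L I) :=
  ((measurable_loc _ _).comp (measurable_tm _ _)) measurableSet_zero_measure.compl

theorem tora_markov {W : Measure (Path d)} (hW : IsWiener W) (Λ L : ℝ) (T : ℝ≥0)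
    {a b a' b' s : ℝ} (h0 : 0 ≤ a') (ha : a = T + a') (hb : b = T + b') {K : ℝ≥0∞} (hK : K ≠ ⊤)
    (hB : ∀ y : E d, W {w | (y, w) ∈ toraVis Λ L (Set.Ico a' b')} ≤ K) :
    TP W Λ (toraVis Λ L (Set.Ico s T) ∩ toraVis Λ L (Set.Ico a b)) ≤
      K * TP W Λ (toraVis Λ L (Set.Ico s T)) := by
  have := hW.isProbabilityMeasure
  have mA := tora_meas (d := d) Λ L (Set.Ico s T)
  have mB := tora_meas (d := d) Λ L (Set.Ico a b)
  have mB' := tora_meas (d := d) Λ L (Set.Ico a' b')
  rw [← lintegral_indicator_one (mA.inter mB), ← lintegral_indicator_one mA,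
    hW.lintegral_TP (measurable_one.indicator (mA.inter mB)),
    hW.lintegral_TP (measurable_one.indicator mA), ← avz_const_mul Λ hK]
  refine avz_mono Λ (fun x => ?_)
  have m1 : Measurable fun z : Path d × Path d =>
      (toraVis Λ L (Set.Ico s T)).indicator (1 : E d × Path d → ℝ≥0∞) (x, z.1) *
        (toraVis Λ L (Set.Ico a' b')).indicator (1 : E d × Path d → ℝ≥0∞) (x + z.1 T, z.2) :=
    ((measurable_one.indicator mA).comp (measurable_const.prodMk measurable_fst)).mul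
      ((measurable_one.indicator mB').comp
        ((((measurable_ev T).comp measurable_fst).const_add x).prodMk measurable_snd))
  have e1 := hW.markov T m1
  have e2 : ∀ w : Path d, (toraVis Λ L (Set.Ico s T)).indicator (1 : E d × Path d → ℝ≥0∞)
      (x, stop T w) = (toraVis Λ L (Set.Ico s T)).indicator 1 (x, w) := by
    intro w
    refine Set.indicator_eq_indicator ?_ rfl
    simp only [toraVis, Set.mem_ofPred_eq]
    rw [tora_stop Λ x w T le_rfl]
  have e3 : ∀ w : Path d, (toraVis Λ L (Set.Ico s T) ∩ toraVis Λ L (Set.Ico a b)).indicator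
      (1 : E d × Path d → ℝ≥0∞) (x, w) =
      (toraVis Λ L (Set.Ico s T)).indicator (1 : E d × Path d → ℝ≥0∞) (x, w) *
        (toraVis Λ L (Set.Ico a' b')).indicator (1 : E d × Path d → ℝ≥0∞)
          (x + w T, shift T w) := by
    intro w
    rw [Set.inter_indicator_one, Pi.mul_apply]
    congr 1
    refine Set.indicator_eq_indicator ?_ rfl
    simp only [toraVis, Set.mem_ofPred_eq]
    rw [tora_shift Λ x w T h0 ha hb]
  simp only [e2, stop_apply, min_self] at e1
  simp only [e3]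
  rw [e1, ← lintegral_const_mul' _ _ hK]
  refine lintegral_mono (fun w => ?_)
  have m2 : MeasurableSet {w' : Path d | (x + w T, w') ∈ toraVis Λ L (Set.Ico a' b')} :=
    (measurable_const.prodMk measurable_id) mB'
  have m3 : Measurable fun w' : Path d =>
      (toraVis Λ L (Set.Ico a' b')).indicator (1 : E d × Path d → ℝ≥0∞) (x + w T, w') :=
    (measurable_one.indicator mB').comp (measurable_const.prodMk measurable_id)
  simp only
  rw [lintegral_const_mul _ m3, mul_comm]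
  gcongr
  refine le_trans (le_of_eq ?_) (hB (x + w T))
  rw [← lintegral_indicator_one m2]
  rfl

theorem IsWiener.block_pair {W : Measure (Path d)} (hW : IsWiener W) (hd : 3 ≤ d) (L : ℝ) :
    ∃ C : ℝ, 0 < C ∧ ∀ (Λ τ a : ℝ) (g i : ℕ), 0 < Λ → 0 < a → a ≤ τ →
      let Y : ℕ → E d × Path d → Measure (E d) :=
        fun i q => loc 0 L (tm Λ (Set.Ico (i * τ) ((i + 1) * τ)) q)
      TP W Λ {q | Y i q ≠ 0 ∧ ∃ j, i < j ∧ j ≤ i + g ∧ Y j q ≠ 0} ≤
        ENNReal.ofReal (C * ((τ + 1) / Λ ^ d *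
          (a ^ (1 - (d : ℝ) / 2) + ((g + 1) * τ + 1) / Λ ^ d) + (a + 1) / Λ ^ d)) := by
  obtain ⟨C, hC, h1, h2⟩ := hW.torus_hit hd L
  refine ⟨C * C + C, by positivity, fun Λ τ a g i hΛ ha haτ => ?_⟩
  intro Y
  have hτ : 0 < τ := ha.trans_le haτ
  have hi : (0 : ℝ) ≤ i * τ := by positivity
  have hT0 : (0 : ℝ) ≤ (i + 1) * τ - a := by linarith
  set T : ℝ≥0 := ((i + 1) * τ - a).toNNReal with hT
  have hTc : (T : ℝ) = (i + 1) * τ - a := Real.coe_toNNReal _ hT0
  have hsub : {q | Y i q ≠ 0 ∧ ∃ j, i < j ∧ j ≤ i + g ∧ Y j q ≠ 0} ⊆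
      (toraVis Λ L (Set.Ico (i * τ) T) ∩
        toraVis Λ L (Set.Ico ((i + 1) * τ) ((i + g + 1) * τ))) ∪
      hitS (perS Λ (cube 0 L)) (Set.Icc (T : ℝ) ((i + 1) * τ)) := by
    rintro q ⟨hq, j, hj1, hj2, hj⟩
    by_cases hA : loc 0 L (tm Λ (Set.Ico (T : ℝ) ((i + 1) * τ)) q) = 0
    · left
      constructor
      · have e1 : Set.Ico (i * τ) ((i + 1) * τ) =
            Set.Ico (i * τ) (T : ℝ) ∪ Set.Ico (T : ℝ) ((i + 1) * τ) :=
          (Set.Ico_union_Ico_eq_Ico (by linarith) (by linarith)).symm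
        simp only [Y] at hq
        rw [e1, tora_union Λ L q Set.Ico_disjoint_Ico_same measurableSet_Ico, hA, add_zero] at hq
        exact hq
      · refine tora_mono Λ L q (Set.Ico_subset_Ico ?_ ?_) measurableSet_Ico hj
        · have : ((i : ℝ) + 1) ≤ j := by exact_mod_cast hj1
          gcongr
        · have : (j : ℝ) ≤ i + g := by exact_mod_cast hj2
          gcongr
    · right
      exact hitS_mono subset_rfl Set.Ico_subset_Icc_self
        (mem_hitS_of_loc_tm_ne_zero measurableSet_Ico hA)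
  have hΛd : 0 < Λ ^ d := by positivity
  have hg : (0 : ℝ) ≤ g * τ := by positivity
  have hK : ∀ y : E d, W {w | (y, w) ∈ toraVis Λ L (Set.Ico a (a + g * τ))} ≤
      ENNReal.ofReal (C * (a ^ (1 - (d : ℝ) / 2) + ((g + 1) * τ + 1) / Λ ^ d)) := by
    intro y
    refine le_trans (measure_mono (fun w hw => hitS_mono subset_rfl Set.Ico_subset_Icc_self
      (mem_hitS_of_loc_tm_ne_zero measurableSet_Ico hw)))
      ((h2 Λ a (a + g * τ) y hΛ ha (by linarith)).trans (ENNReal.ofReal_le_ofReal ?_))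
    gcongr
    linarith
  have b1 := tora_markov hW Λ L T (a := (i + 1) * τ) (b := (i + g + 1) * τ) (s := i * τ) ha.le
    (by rw [hTc]; ring) (by rw [hTc]; ring) ENNReal.ofReal_ne_top hK
  have b2 : TP W Λ (toraVis Λ L (Set.Ico (i * τ) T)) ≤ ENNReal.ofReal (C * (τ + 1) / Λ ^ d) := by
    refine le_trans (measure_mono (fun q hq => hitS_mono subset_rfl Set.Ico_subset_Icc_self
      (mem_hitS_of_loc_tm_ne_zero measurableSet_Ico hq)))
      ((h1 Λ (i * τ) T hΛ hi (by linarith)).trans (ENNReal.ofReal_le_ofReal ?_))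
    gcongr
    linarith
  have b3 := h1 Λ T ((i + 1) * τ) hΛ T.coe_nonneg (by linarith)
  have e3 : (i + 1) * τ - T + 1 = a + 1 := by rw [hTc]; ring
  rw [e3] at b3
  have hX : 0 ≤ a ^ (1 - (d : ℝ) / 2) + ((g + 1) * τ + 1) / Λ ^ d := by positivity
  refine (measure_mono hsub).trans ((measure_union_le _ _).trans ?_)
  refine (add_le_add (b1.trans (mul_le_mul_right b2 _)) b3).trans ?_
  rw [← ENNReal.ofReal_mul (by positivity), ← ENNReal.ofReal_add (by positivity) (by positivity)]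
  refine ENNReal.ofReal_le_ofReal ?_
  have hP : 0 ≤ (τ + 1) / Λ ^ d := by positivity
  have hQ : 0 ≤ (a + 1) / Λ ^ d := by positivity
  rw [mul_div_assoc, mul_div_assoc]
  generalize a ^ (1 - (d : ℝ) / 2) + ((g + 1) * τ + 1) / Λ ^ d = X at hX ⊢
  generalize (τ + 1) / Λ ^ d = P at hP ⊢
  generalize (a + 1) / Λ ^ d = Q at hQ ⊢
  have t1 : 0 ≤ C * (P * X) := by positivity
  have t2 : 0 ≤ C * C * Q := by positivity
  nlinarith

end Pool.Agent.Lib.MP_fe8b6f_pr
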