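import Pool.Agent.Lib.MP_fe8b6f_pr.TorA1

/-! Blocks of the torus path: law, decoupling, pair estimate. Part 2. -/

open MeasureTheory ProbabilityTheory
open scoped NNReal ENNReal

noncomputable section

namespace Pool.Agent.Lib.MP_fe8b6f_pr

variable {d : ℕ}

theorem tora2_shift (Λ τ : ℝ) (x : E d) (w : Path d) (t : ℝ≥0) {a b : ℝ} (ha : a = t)
    (hb : b = t + τ) :
    tm Λ (Set.Ico a b) (x, w) = tm Λ (Set.Ico 0 τ) (x + w t, shift t w) := by
  simp only [tm]
  rw [← occ_shift x w t measurableSet_Ico (fun s hs => hs.1)]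
  congr 2
  ext s
  simp only [Set.mem_Ico, Set.mem_preimage, ha, hb]
  constructor
  · rintro ⟨h1, h2⟩
    constructor <;> linarith
  · rintro ⟨h1, h2⟩
    constructor <;> linarith

theorem tora2_stop (Λ : ℝ) (x : E d) (w : Path d) (t : ℝ≥0) {a b : ℝ} (hb : b ≤ t) :
    tm Λ (Set.Ico a b) (x, stop t w) = tm Λ (Set.Ico a b) (x, w) := by
  simp only [tm]
  rw [occ_stop x w t measurableSet_Ico (fun s hs => hs.2.le.trans hb)]

/-- two applications of the Markov property -/
theorem tora2_markov {W : Measure (Path d)} (hW : IsWiener W) {X : Type} [MeasurableSpace X]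
    {S : Path d → X} (hS : Measurable S) {Ψ : X × (E d × Path d) → ℝ≥0∞} (hΨ : Measurable Ψ)
    (x : E d) (t u : ℝ≥0) (h1 : ∀ w, S (stop t w) = S w) (h2 : ∀ w, S (stop (t + u) w) = S w) :
    ∫⁻ w, Ψ (S w, (x + w (t + u), shift (t + u) w)) ∂W =
      ∫⁻ w, ∫⁻ w', ∫⁻ w'', Ψ (S w, (x + w t + w' u, w'')) ∂W ∂W ∂W := by
  have := hW.isProbabilityMeasure
  have m1 : Measurable fun z : Path d × Path d => Ψ (S z.1, (x + z.1 (t + u), z.2)) :=
    hΨ.comp ((hS.comp measurable_fst).prodMk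
      ((((measurable_ev (t + u)).comp measurable_fst).const_add x).prodMk measurable_snd))
  have e1 := hW.markov (t + u) m1
  simp only [h2, stop_apply, min_self] at e1
  rw [e1]
  have m2 : Measurable fun z : (Path d × Path d) × Path d =>
      Ψ (S z.1.1, (x + z.1.1 t + z.1.2 u, z.2)) :=
    hΨ.comp ((hS.comp (measurable_fst.comp measurable_fst)).prodMk
      (((((measurable_ev t).comp (measurable_fst.comp measurable_fst)).const_add x).add
        ((measurable_ev u).comp (measurable_snd.comp measurable_fst))).prodMk measurable_snd))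
  have e2 := hW.markov t (m2.lintegral_prod_right' (ν := W))
  simp only [h1, stop_apply, min_self, shift_apply] at e2
  rw [← e2]
  refine lintegral_congr (fun w => ?_)
  have e3 : x + w t + (w (t + u) - w t) = x + w (t + u) := by abel
  rw [e3]

theorem tora2_arith {A b c : ℝ≥0∞} {ε : ℝ} (hε : 0 < ε) (hb : b ≤ c)
    (h1 : A ≤ ENNReal.ofReal (1 + ε) * b) (h2 : b ≤ ENNReal.ofReal (1 + ε) * A) :
    A ≤ b + ENNReal.ofReal ε * c ∧ b ≤ A + ENNReal.ofReal ε * c := by
  rw [ENNReal.ofReal_add zero_le_one hε.le, ENNReal.ofReal_one, add_mul, one_mul] at h1 h2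
  refine ⟨h1.trans (by gcongr), ?_⟩
  rcases le_total A b with h | h
  · exact h2.trans (by gcongr; exact h.trans hb)
  · exact h.trans le_self_add

theorem IsWiener.block_dec {W : Measure (Path d)} (hW : IsWiener W) {ε : ℝ} (hε : 0 < ε) :
    ∃ C : ℝ, 0 < C ∧ ∀ (Λ τ L : ℝ) (g j : ℕ) (ψ : Measure (E d) × Measure (E d) → ℝ≥0∞),
      0 < Λ → 0 ≤ τ → C * Λ ^ 2 ≤ g * τ → Measurable ψ → (∀ z, ψ z ≤ 1) →
      (∀ s, ψ (s, 0) = 0) →
      let Y : ℕ → E d × Path d → Measure (E d) :=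
        fun i q => loc 0 L (tm Λ (Set.Ico (i * τ) ((i + 1) * τ)) q)
      let β : Measure (Measure (E d)) :=
        (TP W Λ).map (fun q => loc 0 L (tm Λ (Set.Ico 0 τ) q))
      ∫⁻ q, ψ (∑ i ∈ Finset.range (j - g), Y i q, Y j q) ∂(TP W Λ) ≤
          ∫⁻ q, (∫⁻ y, ψ (∑ i ∈ Finset.range (j - g), Y i q, y) ∂β) ∂(TP W Λ) +
            ENNReal.ofReal ε * β {0}ᶜ ∧
        ∫⁻ q, (∫⁻ y, ψ (∑ i ∈ Finset.range (j - g), Y i q, y) ∂β) ∂(TP W Λ) ≤
          ∫⁻ q, ψ (∑ i ∈ Finset.range (j - g), Y i q, Y j q) ∂(TP W Λ) +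
            ENNReal.ofReal ε * β {0}ᶜ := by
  obtain ⟨C, hC, hmix⟩ := hW.torus_mix hε
  refine ⟨C, hC, fun Λ τ L g j ψ hΛ hτ hg hψ hψ1 hψ0 => ?_⟩
  intro Y β
  have := hW.isProbabilityMeasure
  have := hW.isProbabilityMeasure_TP hΛ
  have mY : ∀ I : Set ℝ, Measurable fun q : E d × Path d => loc 0 L (tm Λ I q) :=
    fun I => (measurable_loc _ _).comp (measurable_tm _ _)
  rcases le_total j g with hjg | hjg
  · have e0 : j - g = 0 := Nat.sub_eq_zero_of_le hjg
    have m0 : Measurable fun y : Measure (E d) => ψ (0, y) :=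
      hψ.comp (measurable_const.prodMk measurable_id)
    have e1 : ∫⁻ q, ψ (0, Y j q) ∂(TP W Λ) = ∫⁻ y, ψ (0, y) ∂β := by
      rw [← lintegral_map m0 (mY _), hW.block_law hΛ hτ L j]
    simp only [e0, Finset.range_zero, Finset.sum_empty, lintegral_const, measure_univ, mul_one, e1]
    exact ⟨le_self_add, le_self_add⟩
  obtain ⟨m, rfl⟩ := Nat.exists_eq_add_of_le' hjg
  rw [Nat.add_sub_cancel]
  set t : ℝ≥0 := (m * τ).toNNReal with ht
  set u : ℝ≥0 := (g * τ).toNNReal with hu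
  have htc : (t : ℝ) = m * τ := Real.coe_toNNReal _ (by positivity)
  have huc : (u : ℝ) = g * τ := Real.coe_toNNReal _ (by positivity)
  set S : E d × Path d → Measure (E d) := fun q => ∑ i ∈ Finset.range m, Y i q with hS
  have mS : Measurable S := Finset.measurable_sum _ (fun i _ => mY _)
  have hstop : ∀ (r : ℝ≥0), t ≤ r → ∀ x w, S (x, stop r w) = S (x, w) := by
    intro r hr x w
    refine Finset.sum_congr rfl (fun i hi => ?_)
    have h1 : ((i : ℝ) + 1) ≤ m := by exact_mod_cast Finset.mem_range.1 hi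
    have h2 : ((i : ℝ) + 1) * τ ≤ r :=
      (mul_le_mul_of_nonneg_right h1 hτ).trans (htc ▸ NNReal.coe_le_coe.2 hr)
    simp only [Y]
    rw [tora2_stop Λ x w r h2]
  set Ψ : Measure (E d) × (E d × Path d) → ℝ≥0∞ :=
    fun z => ψ (z.1, loc 0 L (tm Λ (Set.Ico 0 τ) z.2)) with hΨ
  have mΨ : Measurable Ψ := hψ.comp (measurable_fst.prodMk ((mY _).comp measurable_snd))
  set A : E d × Path d → ℝ≥0∞ :=
    fun q => ∫⁻ w', ∫⁻ w'', Ψ (S q, (q.1 + q.2 t + w' u, w'')) ∂W ∂W with hA
  have mA : Measurable A := by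
    have m1 : Measurable fun z : ((E d × Path d) × Path d) × Path d =>
        Ψ (S z.1.1, (z.1.1.1 + z.1.1.2 t + z.1.2 u, z.2)) :=
      mΨ.comp ((mS.comp (measurable_fst.comp measurable_fst)).prodMk
        ((((measurable_fst.comp (measurable_fst.comp measurable_fst)).add
          ((measurable_ev t).comp (measurable_snd.comp (measurable_fst.comp measurable_fst)))).add
          ((measurable_ev u).comp (measurable_snd.comp measurable_fst))).prodMk measurable_snd))
    exact (m1.lintegral_prod_right' (ν := W)).lintegral_prod_right' (ν := W)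
  have eA : ∫⁻ q, ψ (S q, Y (m + g) q) ∂(TP W Λ) = ∫⁻ q, A q ∂(TP W Λ) := by
    have m1 : Measurable fun q : E d × Path d => ψ (S q, Y (m + g) q) :=
      hψ.comp (mS.prodMk (mY _))
    rw [hW.lintegral_TP m1, hW.lintegral_TP mA]
    congr 1
    funext x
    have e1 := tora2_markov hW (S := fun w => S (x, w))
      (mS.comp (measurable_const.prodMk measurable_id)) mΨ x t u (hstop t le_rfl x)
      (hstop (t + u) le_self_add x)
    refine Eq.trans ?_ e1
    refine lintegral_congr (fun w => ?_)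
    simp only [Y, hΨ]
    rw [tora2_shift Λ τ x w (t + u)]
    · rw [NNReal.coe_add, htc, huc]
      push_cast
      ring
    · rw [NNReal.coe_add, htc, huc]
      push_cast
      ring
  have key : ∀ q, A q ≤ (∫⁻ y, ψ (S q, y) ∂β) + ENNReal.ofReal ε * β {0}ᶜ ∧
      ∫⁻ y, ψ (S q, y) ∂β ≤ A q + ENNReal.ofReal ε * β {0}ᶜ := by
    intro q
    have m0 : Measurable fun y : Measure (E d) => ψ (S q, y) :=
      hψ.comp (measurable_const.prodMk measurable_id)
    have m1 : Measurable fun z : E d × Path d => Ψ (S q, z) :=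
      mΨ.comp (measurable_const.prodMk measurable_id)
    have e1 : ∫⁻ y, ψ (S q, y) ∂β = avz Λ fun x => ∫⁻ w, Ψ (S q, (x, w)) ∂W := by
      rw [lintegral_map m0 (mY _)]
      exact hW.lintegral_TP m1
    have hper : IsPer Λ fun x => ∫⁻ w, Ψ (S q, (x, w)) ∂W := by
      intro x k
      refine lintegral_congr (fun w => ?_)
      simp only [hΨ]
      rw [show tm Λ (Set.Ico 0 τ) (x + Λ • lat k, w) = tm Λ (Set.Ico 0 τ) (x, w) from
        isPer_tm Λ (Set.Ico 0 τ) w x k]
    obtain ⟨h1, h2⟩ := hmix Λ (g * τ) (q.1 + q.2 t) _ hΛ hg (m1.lintegral_prod_right' (ν := W)) hper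
    rw [← e1] at h1 h2
    refine tora2_arith hε ?_ h1 h2
    rw [← lintegral_indicator_one measurableSet_zero_measure.compl]
    refine lintegral_mono (fun y => ?_)
    by_cases hy : y = 0
    · simp only [hy, hψ0]
      exact zero_le
    · rw [Set.indicator_of_mem (by simpa using hy)]
      exact hψ1 _
  change ∫⁻ q, ψ (S q, Y (m + g) q) ∂(TP W Λ) ≤ ∫⁻ q, (∫⁻ y, ψ (S q, y) ∂β) ∂(TP W Λ) + _ ∧
    ∫⁻ q, (∫⁻ y, ψ (S q, y) ∂β) ∂(TP W Λ) ≤ ∫⁻ q, ψ (S q, Y (m + g) q) ∂(TP W Λ) + _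
  rw [eA]
  constructor
  · refine (lintegral_mono (fun q => (key q).1)).trans ?_
    rw [lintegral_add_right _ measurable_const, lintegral_const, measure_univ, mul_one]
  · refine (lintegral_mono (fun q => (key q).2)).trans ?_
    rw [lintegral_add_right _ measurable_const, lintegral_const, measure_univ, mul_one]

end Pool.Agent.Lib.MP_fe8b6f_pr
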