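import Pool.Agent.Lib.MP_fe8b6f_pr.TorA
import Pool.Agent.Lib.MP_fe8b6f_pr.Lind
import Pool.Agent.Lib.MP_fe8b6f_pr.Mix

/-! Local limit of the torus occupation measure. Part 1. -/

open MeasureTheory ProbabilityTheory
open scoped NNReal ENNReal

noncomputable section

namespace Pool.Agent.Lib.MP_fe8b6f_pr

variable {d : ℕ}

theorem torb1_unfold (W : Measure (Path d)) [SFinite W] {Λ : ℝ} (hΛ : 0 < Λ)
    {Φ : E d × Path d → ℝ≥0∞} (hΦ : Measurable Φ) :
    ∫⁻ q, Φ q ∂((volume : Measure (E d)).prod W) =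
      ∫⁻ q, ∑' k : Fin d → ℤ, Φ (q.1 + Λ • lat k, q.2)
        ∂((volume.restrict (cube (0 : E d) Λ)).prod W) := by
  have hm : ∀ k : Fin d → ℤ, Measurable fun q : E d × Path d => Φ (q.1 + Λ • lat k, q.2) :=
    fun k => hΦ.comp ((measurable_fst.add_const _).prodMk measurable_snd)
  rw [lintegral_tsum (fun k => (hm k).aemeasurable), lintegral_prod _ hΦ.aemeasurable,
    lintegral_unfold hΛ hΦ.lintegral_prod_right']
  refine tsum_congr (fun k => ?_)
  rw [lintegral_prod _ (hm k).aemeasurable]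

theorem torb1_map (x v : E d) (w : Path d) (I : Set ℝ) :
    (occ x w I).map (fun y => y + v) = occ (x + v) w I := by
  have hc : Measurable fun t : ℝ => x + w t.toNNReal :=
    (continuous_const.add (w.continuous.comp continuous_real_toNNReal)).measurable
  rw [occ, occ, Measure.map_map (measurable_add_const v) hc]
  congr 1
  funext t
  simp only [Function.comp]
  abel

theorem torb1_sum (Λ L : ℝ) (I : Set ℝ) (q : E d × Path d) :
    loc 0 L (tm Λ I q) =
      Measure.sum fun k : Fin d → ℤ => loc 0 L (occ (q.1 + Λ • lat k) q.2 I) := by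
  simp only [loc, sh_zero_left, tm, per, torb1_map]
  rw [Measure.restrict_sum _ (measurableSet_cube _ _)]

theorem torb1_hit {L : ℝ} {I : Set ℝ} (hI : MeasurableSet I) {x : E d} {w : Path d}
    (h : loc 0 L (occ x w I) ≠ 0) : (x, w) ∈ hitS (cube 0 L) I :=
  mem_hitS_of_occ_ne_zero hI (measurableSet_cube _ _) (fun h0 => h ((loc_eq_zero_iff _ _ _).2 h0))

theorem torb1_unique {Λ L R : ℝ} (hL : 0 ≤ L) (hΛ0 : 0 < Λ) (hΛ : √d * L + 2 * R ≤ Λ) {I : Set ℝ}
    {x : E d} {w : Path d} (hw : ∀ t ∈ I, ‖w t.toNNReal‖ < R) {k l : Fin d → ℤ}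
    (hk : (x + Λ • lat k, w) ∈ hitS (cube 0 L) I) (hl : (x + Λ • lat l, w) ∈ hitS (cube 0 L) I) :
    k = l := by
  obtain ⟨t, ht, hk⟩ := hk
  obtain ⟨s, hs, hl⟩ := hl
  have h1 := norm_sub_le_of_cube hL hk hl
  have e : Λ • (lat k - lat l : E d) = (x + Λ • lat k + w t.toNNReal -
      (x + Λ • lat l + w s.toNNReal)) - w t.toNNReal + w s.toNNReal := by
    rw [smul_sub]
    abel
  have h2 : ‖Λ • (lat k - lat l : E d)‖ < Λ := by
    rw [e]
    have h3 := norm_add_le ((x + Λ • lat k + w t.toNNReal -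
      (x + Λ • lat l + w s.toNNReal)) - w t.toNNReal) (w s.toNNReal)
    have h4 := norm_sub_le (x + Λ • lat k + w t.toNNReal -
      (x + Λ • lat l + w s.toNNReal)) (w t.toNNReal)
    have h5 := hw t ht
    have h6 := hw s hs
    simp only at h1
    linarith
  rw [norm_smul, Real.norm_of_nonneg hΛ0.le] at h2
  have h3 : ‖(lat k - lat l : E d)‖ < 1 := by
    by_contra hc
    push Not at hc
    nlinarith
  funext i
  have h4 := (abs_coord_le_norm (lat k - lat l : E d) i).trans_lt h3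
  have h5 : (lat k - lat l : E d) i = ((k i - l i : ℤ) : ℝ) := by
    simp [lat]
  rw [h5, ← Int.cast_abs] at h4
  have h6 : |k i - l i| < 1 := (Int.cast_lt (R := ℝ)).1 (by rw [Int.cast_one]; exact h4)
  have h7 := Int.abs_lt_one_iff.1 h6
  omega

/-- paths which visit `K` and move far away before time `τ` -/
def torb1Bad (K : Set (E d)) (τ R : ℝ) : Set (E d × Path d) :=
  hitS K (Set.Icc 0 τ) ∩ {q | ((0 : E d), q.2) ∈ hitS {x : E d | R ≤ ‖x‖} (Set.Icc 0 τ)}

theorem torb1_meas {K : Set (E d)} (hK : IsClosed K) (τ R : ℝ) :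
    MeasurableSet (torb1Bad K τ R) := by
  refine (isClosed_hitS_Icc hK 0 τ).measurableSet.inter ?_
  have hc : IsClosed {x : E d | R ≤ ‖x‖} := isClosed_le continuous_const continuous_norm
  exact (measurable_const.prodMk measurable_snd) (isClosed_hitS_Icc hc 0 τ).measurableSet

theorem torb1_small {W : Measure (Path d)} (hW : IsWiener W) (hd : 3 ≤ d) (r : ℝ) {τ : ℝ}
    (hτ : 0 ≤ τ) {ε : ℝ≥0∞} (hε : 0 < ε) :
    ∃ R : ℝ, 0 < R ∧ ((volume : Measure (E d)).prod W)
      (torb1Bad (Metric.closedBall 0 r) τ R) ≤ ε := by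
  obtain ⟨C, hC, -⟩ := hW.hit_bounds hd
  have hfin : ((volume : Measure (E d)).prod W)
      (torb1Bad (Metric.closedBall 0 r) τ ((0 : ℕ) : ℝ)) ≠ ⊤ := by
    refine ne_top_of_le_ne_top ?_ ((measure_mono Set.inter_subset_left).trans
      (hC (Metric.closedBall 0 r) 0 τ le_rfl hτ))
    exact ENNReal.mul_ne_top (ENNReal.mul_ne_top ENNReal.coe_ne_top ENNReal.ofReal_ne_top)
      (Metric.isBounded_closedBall.thickening).measure_lt_top.ne
  have hanti : Antitone fun n : ℕ => torb1Bad (Metric.closedBall (0 : E d) r) τ (n : ℝ) := by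
    intro m n hmn q hq
    refine ⟨hq.1, hitS_mono (fun x hx => ?_) subset_rfl hq.2⟩
    exact le_trans (Nat.cast_le.2 hmn : (m : ℝ) ≤ n) hx
  have hlim := tendsto_measure_iInter_atTop (μ := (volume : Measure (E d)).prod W)
    (fun n : ℕ => (torb1_meas Metric.isClosed_closedBall τ (n : ℝ)).nullMeasurableSet) hanti
    ⟨0, hfin⟩
  have hempty : ⋂ n : ℕ, torb1Bad (Metric.closedBall (0 : E d) r) τ (n : ℝ) = ∅ := by
    refine Set.eq_empty_of_forall_notMem (fun q hq => ?_)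
    have hc : Continuous fun t : ℝ => q.2 t.toNNReal :=
      q.2.continuous.comp continuous_real_toNNReal
    obtain ⟨M, hM⟩ := (isCompact_Icc (a := (0 : ℝ)) (b := τ)).exists_bound_of_continuousOn
      hc.continuousOn
    obtain ⟨n, hn⟩ := exists_nat_gt M
    obtain ⟨t, ht, h⟩ := (Set.mem_iInter.1 hq n).2
    have h1 := hM t ht
    simp only [zero_add, Set.mem_ofPred_eq] at h
    linarith
  rw [hempty, measure_empty] at hlim
  obtain ⟨n, hn1, hn2⟩ :=
    ((Filter.eventually_gt_atTop 0).and (hlim.eventually (gt_mem_nhds hε))).exists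
  exact ⟨n, Nat.cast_pos.2 hn1, hn2.le⟩

theorem torb1_point {Λ L R τ τ1 : ℝ} (hL : 0 ≤ L) (hΛ0 : 0 < Λ) (hΛ : √d * L + 2 * R ≤ Λ)
    (hτ : τ ≤ τ1) {F : Measure (E d) → ℝ≥0∞} (hF1 : ∀ μ, F μ ≤ 1) (hF0 : F 0 = 0)
    (q : E d × Path d) :
    F (loc 0 L (tm Λ (Set.Ico 0 τ) q)) ≤
      ∑' k : Fin d → ℤ, F (loc 0 L (occ (q.1 + Λ • lat k) q.2 (Set.Ico 0 τ))) +
        ∑' k : Fin d → ℤ, (torb1Bad (Metric.closedBall 0 (√d * L)) τ1 R).indicator 1
          (q.1 + Λ • lat k, q.2) ∧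
    ∑' k : Fin d → ℤ, F (loc 0 L (occ (q.1 + Λ • lat k) q.2 (Set.Ico 0 τ))) ≤
      F (loc 0 L (tm Λ (Set.Ico 0 τ) q)) +
        ∑' k : Fin d → ℤ, (torb1Bad (Metric.closedBall 0 (√d * L)) τ1 R).indicator 1
          (q.1 + Λ • lat k, q.2) := by
  have hI : Set.Ico 0 τ ⊆ Set.Icc 0 τ1 := fun t ht => ⟨ht.1, ht.2.le.trans hτ⟩
  rw [torb1_sum]
  set ν : (Fin d → ℤ) → Measure (E d) :=
    fun k => loc 0 L (occ (q.1 + Λ • lat k) q.2 (Set.Ico 0 τ)) with hν
  by_cases h0 : ∀ k, ν k = 0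
  · have e1 : Measure.sum ν = 0 := by
      rw [show ν = fun _ => 0 from funext h0]
      exact Measure.sum_zero
    have e2 : ∑' k, F (ν k) = 0 := by simp only [h0, hF0, tsum_zero]
    rw [e1, e2, hF0]
    exact ⟨zero_le, zero_le⟩
  push Not at h0
  obtain ⟨k₀, hk₀⟩ := h0
  by_cases hb : ((0 : E d), q.2) ∈ hitS {x : E d | R ≤ ‖x‖} (Set.Icc 0 τ1)
  · have key : ∀ k, ν k ≠ 0 → (torb1Bad (Metric.closedBall 0 (√d * L)) τ1 R).indicator
        (1 : E d × Path d → ℝ≥0∞) (q.1 + Λ • lat k, q.2) = 1 := by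
      intro k hk
      rw [Set.indicator_of_mem]
      · rfl
      · exact ⟨hitS_mono (cube_subset_closedBall hL) hI (torb1_hit measurableSet_Ico hk), hb⟩
    constructor
    · refine (hF1 _).trans (le_add_left ?_)
      rw [← key k₀ hk₀]
      exact ENNReal.le_tsum k₀
    · refine le_add_left (ENNReal.tsum_le_tsum (fun k => ?_))
      by_cases hk : ν k = 0
      · change F (ν k) ≤ _
        rw [hk, hF0]
        exact zero_le
      · rw [key k hk]
        exact hF1 _
  · have hw : ∀ t ∈ Set.Ico 0 τ, ‖q.2 t.toNNReal‖ < R := by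
      intro t ht
      by_contra hc
      push Not at hc
      exact hb ⟨t, hI ht, by simpa using hc⟩
    have hz : ∀ k, k ≠ k₀ → ν k = 0 := by
      intro k hk
      by_contra hc
      exact hk (torb1_unique hL hΛ0 hΛ hw (torb1_hit measurableSet_Ico hc)
        (torb1_hit measurableSet_Ico hk₀))
    have e1 : Measure.sum ν = ν k₀ := by
      ext A hA
      rw [Measure.sum_apply _ hA, tsum_eq_single k₀]
      intro k hk
      rw [hz k hk]
      rfl
    have e2 : ∑' k, F (ν k) = F (ν k₀) := by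
      rw [tsum_eq_single k₀]
      intro k hk
      rw [hz k hk, hF0]
    rw [e1, e2]
    exact ⟨le_self_add, le_self_add⟩

/-- unfolding: one block on a large torus looks like a Lebesgue started path in space -/
theorem IsWiener.unfold_block {W : Measure (Path d)} (hW : IsWiener W) (hd : 3 ≤ d) {L τ1 : ℝ}
    (hL : 0 < L) {ε : ℝ≥0∞} (hε : 0 < ε) :
    ∃ Λ0 : ℝ, ∀ Λ τ : ℝ, Λ0 ≤ Λ → 0 ≤ τ → τ ≤ τ1 → ∀ F : Measure (E d) → ℝ≥0∞, Measurable F →
      (∀ μ, F μ ≤ 1) → F 0 = 0 →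
      ∫⁻ q, F (loc 0 L (tm Λ (Set.Ico 0 τ) q)) ∂((volume.restrict (cube (0 : E d) Λ)).prod W) ≤
        ∫⁻ q, F (loc 0 L (occ q.1 q.2 (Set.Ico 0 τ))) ∂((volume : Measure (E d)).prod W) + ε ∧
      ∫⁻ q, F (loc 0 L (occ q.1 q.2 (Set.Ico 0 τ))) ∂((volume : Measure (E d)).prod W) ≤
        ∫⁻ q, F (loc 0 L (tm Λ (Set.Ico 0 τ) q))
          ∂((volume.restrict (cube (0 : E d) Λ)).prod W) + ε := by
  have := hW.isProbabilityMeasure
  obtain ⟨R, hR, hRε⟩ := torb1_small hW hd (√d * L) (le_max_right τ1 0) hε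
  refine ⟨√d * L + 2 * R, fun Λ τ hΛ _ hτ F hF hF1 hF0 => ?_⟩
  have hΛ0 : 0 < Λ := lt_of_lt_of_le (by positivity) hΛ
  have hG : Measurable fun q : E d × Path d => F (loc 0 L (occ q.1 q.2 (Set.Ico 0 τ))) :=
    hF.comp ((measurable_loc _ _).comp measurable_occ)
  have hT : Measurable fun q : E d × Path d => F (loc 0 L (tm Λ (Set.Ico 0 τ) q)) :=
    hF.comp ((measurable_loc _ _).comp (measurable_tm _ _))
  have hB := torb1_meas (d := d) (Metric.isClosed_closedBall (x := 0) (ε := √d * L)) (max τ1 0) R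
  have hH : Measurable ((torb1Bad (Metric.closedBall 0 (√d * L)) (max τ1 0) R).indicator
      (1 : E d × Path d → ℝ≥0∞)) := measurable_one.indicator hB
  have hHs : Measurable fun q : E d × Path d => ∑' k : Fin d → ℤ,
      (torb1Bad (Metric.closedBall 0 (√d * L)) (max τ1 0) R).indicator
        (1 : E d × Path d → ℝ≥0∞) (q.1 + Λ • lat k, q.2) :=
    Measurable.tsum
      (fun k => hH.comp ((measurable_fst.add_const _).prodMk measurable_snd))
  have eH := torb1_unfold W hΛ0 hH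
  rw [lintegral_indicator_one hB] at eH
  rw [eH] at hRε
  rw [torb1_unfold W hΛ0 hG]
  have hp := fun q => torb1_point (d := d) hL.le hΛ0 hΛ (hτ.trans (le_max_left τ1 0)) hF1 hF0 q
  constructor
  · refine (lintegral_mono (fun q => (hp q).1)).trans ?_
    rw [lintegral_add_right _ hHs]
    exact add_le_add le_rfl hRε
  · refine (lintegral_mono (fun q => (hp q).2)).trans ?_
    rw [lintegral_add_right _ hHs]
    exact add_le_add le_rfl hRε

end Pool.Agent.Lib.MP_fe8b6f_pr
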