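import Pool.Agent.Lib.MP_fe8b6f_pr.UpA1

/-! Moments of the cell masses of averaged measures. -/

open MeasureTheory ProbabilityTheory
open scoped NNReal ENNReal

noncomputable section

namespace Pool.Agent.Lib.MP_fe8b6f_pr

variable {d : ℕ}

variable {X : Type} [MeasurableSpace X] {P : ℝ → Measure (Measure (E d))} {T : ℝ → Measure X}
  {m : ℝ → X → Measure (E d)}

/-- weight of the `i`-th cell -/
def upa_w (Λ : ℝ) (n : ℕ) (A : Set (E d)) (κ : ℝ) (i : Fin d → Fin n) : ℝ :=
  (volume (A ∩ gc 0 Λ n i)).toReal / (Λ / n) ^ d / κ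

/-- the test function -/
def upa_h (Λ : ℝ) (n : ℕ) (A : Set (E d)) (κ : ℝ) (y : E d) : ℝ :=
  ∑ i : Fin d → Fin n, (gc 0 Λ n i).indicator (fun _ => upa_w Λ n A κ i) y

theorem upa_meas (Λ : ℝ) (n : ℕ) (A : Set (E d)) (κ : ℝ) : Measurable (upa_h Λ n A κ) :=
  Finset.measurable_sum _ fun i _ => measurable_const.indicator (measurableSet_gc 0 Λ n i)

theorem upa_cases {Λ : ℝ} (hΛ : 0 < Λ) (n : ℕ) (A : Set (E d)) (κ : ℝ) (y : E d) :
    upa_h Λ n A κ y = 0 ∨ ∃ i, y ∈ gc 0 Λ n i ∧ upa_h Λ n A κ y = upa_w Λ n A κ i := by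
  by_cases h : ∃ i, y ∈ gc (0 : E d) Λ n i
  · obtain ⟨i, hi⟩ := h
    refine Or.inr ⟨i, hi, ?_⟩
    rw [upa_h, Finset.sum_eq_single i, Set.indicator_of_mem hi]
    · intro i' _ hne
      exact Set.indicator_of_notMem
        (fun h' => Set.disjoint_left.1 (gc_disjoint 0 hΛ n hne) h' hi) _
    · intro h'
      exact absurd (Finset.mem_univ i) h'
  · left
    exact Finset.sum_eq_zero fun i _ => Set.indicator_of_notMem (fun h' => h ⟨i, h'⟩) _

theorem upa_int {Λ : ℝ} (hΛ : 0 < Λ) {n : ℕ} {A : Set (E d)} (hA : MeasurableSet A) {κ : ℝ}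
    (hκ : κ ≠ 0) {μ : Measure (E d)} (hμ : μ (cube 0 Λ) ≠ ⊤) (hn : 0 < n) :
    (avg μ 0 Λ n A).toReal = κ * ∫ y, upa_h Λ n A κ y ∂μ := by
  have hfin : ∀ i : Fin d → Fin n, μ (gc 0 Λ n i) ≠ ⊤ := fun i =>
    ne_top_of_le_ne_top hμ (measure_mono (gc_subset 0 hΛ.le n i))
  have hn' : (0 : ℝ) < n := by exact_mod_cast hn
  have hs : 0 < (Λ / n) ^ d := by positivity
  have hv : ∀ i : Fin d → Fin n, volume (A ∩ gc 0 Λ n i) ≠ ⊤ := fun i =>
    ne_top_of_le_ne_top (by rw [volume_gc 0 hΛ.le]; exact ENNReal.ofReal_ne_top)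
      (measure_mono Set.inter_subset_right)
  unfold upa_h
  rw [integral_finsetSum _ fun i _ =>
    (integrable_indicator_iff (measurableSet_gc 0 Λ n i)).2
      (integrableOn_const (hfin i)), avg, Measure.finsetSum_apply, ENNReal.toReal_sum,
    Finset.mul_sum]
  · refine Finset.sum_congr rfl fun i _ => ?_
    rw [integral_indicator_const _ (measurableSet_gc 0 Λ n i), Measure.smul_apply,
      Measure.restrict_apply hA, smul_eq_mul, smul_eq_mul, ENNReal.toReal_mul, ENNReal.toReal_div,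
      volume_gc 0 hΛ.le, ENNReal.toReal_ofReal hs.le, upa_w, Measure.real]
    field_simp
  · intro i _
    rw [Measure.smul_apply, Measure.restrict_apply hA, smul_eq_mul, volume_gc 0 hΛ.le]
    exact ENNReal.mul_ne_top (ENNReal.div_ne_top (hfin i) (ENNReal.ofReal_pos.2 hs).ne') (hv i)

theorem upa_avg_volume {Λ : ℝ} (hΛ : 0 < Λ) {n : ℕ} (hn : 0 < n) {A : Set (E d)}
    (hA : MeasurableSet A) (hsub : A ⊆ cube 0 Λ) : avg volume 0 Λ n A = volume A := by
  have hn' : (0 : ℝ) < n := by exact_mod_cast hn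
  have hs : 0 < (Λ / n) ^ d := by positivity
  have h1 : avg volume (0 : E d) Λ n = volume.restrict (cube 0 Λ) := by
    rw [restrict_cube_eq_sum volume 0 hΛ hn, avg]
    refine Finset.sum_congr rfl fun i _ => ?_
    rw [ENNReal.div_self, one_smul]
    · rw [volume_gc 0 hΛ.le]
      exact (ENNReal.ofReal_pos.2 hs).ne'
    · rw [volume_gc 0 hΛ.le]
      exact ENNReal.ofReal_ne_top
  rw [h1, Measure.restrict_apply hA, Set.inter_eq_left.2 hsub]

theorem upa_w_le {Λ r : ℝ} (hΛ : 0 < Λ) (hr : 0 < r) {n : ℕ} (hn : 0 < n) (a : E d)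
    (i : Fin d → Fin n) : upa_w Λ n (cube a r) ((r / max r (Λ / n)) ^ d) i ≤ 1 := by
  have hn' : (0 : ℝ) < n := by exact_mod_cast hn
  have hs : 0 < Λ / n := by positivity
  have h1 : (volume (cube a r ∩ gc 0 Λ n i)).toReal ≤ r ^ d :=
    ENNReal.toReal_le_of_le_ofReal (by positivity)
      ((measure_mono Set.inter_subset_left).trans (volume_cube a hr.le).le)
  have h2 : (volume (cube a r ∩ gc 0 Λ n i)).toReal ≤ (Λ / n) ^ d :=
    ENNReal.toReal_le_of_le_ofReal (by positivity)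
      ((measure_mono Set.inter_subset_right).trans (volume_gc 0 hΛ.le n i).le)
  rw [upa_w, div_le_one (by positivity), div_le_iff₀ (by positivity)]
  rcases le_total r (Λ / n) with h | h
  · rw [max_eq_right h, ← mul_pow, div_mul_cancel₀ _ hs.ne']
    exact h1
  · rw [max_eq_left h, div_self hr.ne', one_pow, one_mul]
    exact h2

/-- the mass that the `n`-grid average gives to a cell `A` of the `n'`-grid is the integral of
`h y = vol (cell of y ∩ A) / vol cell`, which is at most `(r / R) ^ d` and vanishes outside a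
cube of side `min (3 R) Λ` -/
theorem UFam.cell_moment (hT : UFam P T m) {q : ℝ} (hq : 1 ≤ q) :
    ∃ C : ℝ, 0 ≤ C ∧ ∀ (Λ : ℝ) (n n' : ℕ) (j : Fin d → Fin n'), 0 < n → 0 < n' → 1 ≤ Λ / n →
      ∫⁻ x, ENNReal.ofReal
          (|(avg (m Λ x) 0 Λ n (gc 0 Λ n' j)).toReal - (Λ / n') ^ d| ^ q) ∂(T Λ) ≤
        ENNReal.ofReal (C * (Λ / n' / max (Λ / n') (Λ / n)) ^ (d * q) *
          (max (Λ / n') (Λ / n)) ^ (q * (d + 2) / 2)) := by
  obtain ⟨C, hC, hmom⟩ := hT.mom q hq
  refine ⟨C * 3 ^ (q * (d + 2) / 2), by positivity, fun Λ n n' j hn hn' hs => ?_⟩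
  have hn1 : (1 : ℝ) ≤ n := by exact_mod_cast hn
  have hn1' : (1 : ℝ) ≤ n' := by exact_mod_cast hn'
  have hΛ1 : 1 ≤ Λ := by
    rw [le_div_iff₀ (by linarith)] at hs
    linarith
  have hΛ : 0 < Λ := by linarith
  have hr : 0 < Λ / n' := by positivity
  set r := Λ / n' with hrdef
  set R := max r (Λ / n) with hR
  have hR1 : 1 ≤ R := le_max_of_le_right hs
  have hrR : r ≤ R := le_max_left _ _
  have hsR : Λ / n ≤ R := le_max_right _ _
  set κ := (r / R) ^ d with hκ
  have hκ0 : 0 < κ := by positivity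
  set a : E d := gcorner 0 Λ n' j with ha
  have hA : gc 0 Λ n' j = cube a r := rfl
  have hAsub : cube a r ⊆ cube 0 Λ := gc_subset 0 hΛ.le n' j
  set ρ := min (3 * R) Λ with hρ
  have hρ1 : 1 ≤ ρ := le_min (by linarith) hΛ1
  have hρΛ : ρ ≤ Λ := min_le_right _ _
  let b : E d := WithLp.toLp 2 fun k => max 0 (min (a k - R) (Λ - ρ))
  have hb : ∀ k, b k = max 0 (min (a k - R) (Λ - ρ)) := fun _ => rfl
  have hbsub : cube b ρ ⊆ cube 0 Λ := by
    intro y hy k
    have h1 := hy k
    have h2 : 0 ≤ b k := le_max_left _ _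
    have h3 : b k ≤ Λ - ρ := max_le (by linarith) (min_le_right _ _)
    simp only [PiLp.zero_apply, zero_add]
    constructor <;> linarith [h1.1, h1.2]
  have hw0 : ∀ i, 0 ≤ upa_w Λ n (cube a r) κ i := fun i => by
    unfold upa_w
    positivity
  have hh0 : ∀ y, 0 ≤ upa_h Λ n (cube a r) κ y := fun y => by
    rcases upa_cases hΛ n (cube a r) κ y with h | ⟨i, -, h⟩
    · exact h.ge
    · rw [h]
      exact hw0 i
  have hh1 : ∀ y, upa_h Λ n (cube a r) κ y ≤ 1 := fun y => by
    rcases upa_cases hΛ n (cube a r) κ y with h | ⟨i, -, h⟩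
    · rw [h]
      exact zero_le_one
    · rw [h]
      exact upa_w_le hΛ hr hn a i
  have hsupp : ∀ y, y ∉ cube b ρ → upa_h Λ n (cube a r) κ y = 0 := by
    intro y hy
    rcases upa_cases hΛ n (cube a r) κ y with h | ⟨i, hi, h⟩
    · exact h
    · rw [h]
      by_contra hne
      have hne' : (cube a r ∩ gc 0 Λ n i).Nonempty := by
        rw [Set.nonempty_iff_ne_empty]
        intro he
        apply hne
        rw [upa_w, he, measure_empty, ENNReal.toReal_zero, zero_div, zero_div]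
      obtain ⟨z, hz1, hz2⟩ := hne'
      refine hy fun k => ?_
      have h1 := hz1 k
      have h2 := hz2 k
      have h3 := hi k
      have h4 := gc_subset 0 hΛ.le n i hi k
      simp only [PiLp.zero_apply, zero_add] at h4
      rw [hb]
      constructor
      · refine max_le h4.1 ((min_le_left _ _).trans ?_)
        linarith [h1.1, h2.2, h3.1]
      · rcases le_total (3 * R) Λ with h5 | h5
        · have h6 : ρ = 3 * R := min_eq_left h5
          have h7 := le_max_right 0 (min (a k - R) (Λ - ρ))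
          rcases le_total (a k - R) (Λ - ρ) with h8 | h8
          · rw [min_eq_left h8] at h7 ⊢
            linarith [h1.2, h2.1, h3.2]
          · rw [min_eq_right h8] at h7 ⊢
            linarith [h4.2]
        · have h6 : ρ = Λ := min_eq_right h5
          have h7 := le_max_left 0 (min (a k - R) (Λ - ρ))
          linarith [h4.2]
  have key := hmom Λ ρ b _ hρ1 hρΛ hbsub (upa_meas Λ n (cube a r) κ) hh0 hh1 hsupp
  have hvol : r ^ d = κ * ∫ y, upa_h Λ n (cube a r) κ y := by
    rw [← upa_int hΛ (measurableSet_cube a r) hκ0.ne' _ hn,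
      upa_avg_volume hΛ hn (measurableSet_cube a r) hAsub, volume_cube a hr.le,
      ENNReal.toReal_ofReal (by positivity)]
    rw [volume_cube 0 hΛ.le]
    exact ENNReal.ofReal_ne_top
  have hκq : κ ^ q = (r / R) ^ (d * q) := by
    rw [hκ, Real.rpow_mul (by positivity), Real.rpow_natCast]
  have he : 0 ≤ q * (d + 2) / 2 := by
    have : 0 ≤ q := by linarith
    positivity
  calc ∫⁻ x, ENNReal.ofReal (|(avg (m Λ x) 0 Λ n (gc 0 Λ n' j)).toReal - r ^ d| ^ q) ∂(T Λ)
      = ∫⁻ x, ENNReal.ofReal (κ ^ q) * ENNReal.ofReal (|∫ y, upa_h Λ n (cube a r) κ y ∂(m Λ x) -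
          ∫ y, upa_h Λ n (cube a r) κ y| ^ q) ∂(T Λ) := by
        refine lintegral_congr_ae ((hT.ae_fin hΛ).mono fun x hx => ?_)
        dsimp only
        rw [hA, upa_int hΛ (measurableSet_cube a r) hκ0.ne' hx hn, hvol, ← mul_sub, abs_mul,
          abs_of_pos hκ0, Real.mul_rpow hκ0.le (abs_nonneg _),
          ENNReal.ofReal_mul (by positivity)]
    _ ≤ ENNReal.ofReal (κ ^ q) * ENNReal.ofReal (C * ρ ^ (q * (d + 2) / 2)) := by
        rw [lintegral_const_mul' _ _ ENNReal.ofReal_ne_top]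
        gcongr
    _ ≤ _ := by
        rw [← ENNReal.ofReal_mul (by positivity), hκq]
        refine ENNReal.ofReal_le_ofReal ?_
        have h1 : ρ ^ (q * (d + 2) / 2) ≤ 3 ^ (q * (d + 2) / 2) * R ^ (q * (d + 2) / 2) := by
          rw [← Real.mul_rpow (by norm_num) (by linarith)]
          exact Real.rpow_le_rpow (by linarith) (min_le_left _ _) he
        have h2 : 0 ≤ (r / R) ^ (d * q) := by positivity
        calc (r / R) ^ (d * q) * (C * ρ ^ (q * (d + 2) / 2))
            ≤ (r / R) ^ (d * q) * (C * (3 ^ (q * (d + 2) / 2) * R ^ (q * (d + 2) / 2))) := by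
              gcongr
          _ = _ := by ring

end Pool.Agent.Lib.MP_fe8b6f_pr
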