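import Pool.Agent.Lib.MP_fe8b6f_pr.AKTA
import Pool.Agent.Lib.MP_fe8b6f_pr.Defs2

/-! Averaged measures: measurability and masses. -/

open MeasureTheory ProbabilityTheory
open scoped NNReal ENNReal

noncomputable section

namespace Pool.Agent.Lib.MP_fe8b6f_pr

variable {d : ℕ}

variable {X : Type} [MeasurableSpace X] {P : ℝ → Measure (Measure (E d))} {T : ℝ → Measure X}
  {m : ℝ → X → Measure (E d)}

theorem measurable_avg (a : E d) (s : ℝ) (n : ℕ) :
    Measurable fun ν : Measure (E d) => avg ν a s n := by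
  refine Measure.measurable_measure.2 fun A hA => ?_
  simp only [avg, Measure.coe_finsetSum, Finset.sum_apply, Measure.smul_apply, smul_eq_mul]
  refine Finset.measurable_sum _ fun j _ => ?_
  exact ((Measure.measurable_coe (measurableSet_gc a s n j)).div_const _).mul_const _

theorem avg_restrict (ν : Measure (E d)) (a : E d) {s : ℝ} (hs : 0 < s) (n : ℕ) :
    (avg ν a s n).restrict (cube a s) = avg ν a s n := by
  refine Measure.restrict_eq_self_of_ae_mem ?_
  rw [ae_iff]
  have hc : MeasurableSet {x : E d | ¬ x ∈ cube a s} := (measurableSet_cube a s).compl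
  simp only [avg, Measure.coe_finsetSum, Finset.sum_apply, Measure.smul_apply, smul_eq_mul]
  refine Finset.sum_eq_zero fun j _ => ?_
  rw [Measure.restrict_apply hc]
  have : {x : E d | ¬ x ∈ cube a s} ∩ gc a s n j = ∅ := by
    ext x
    simp only [Set.mem_inter_iff, Set.mem_empty_iff_false, iff_false, not_and]
    exact fun h1 h2 => h1 (gc_subset a hs.le n j h2)
  rw [this, measure_empty, mul_zero]

theorem avg_cube (ν : Measure (E d)) (a : E d) {s : ℝ} (hs : 0 < s) {n : ℕ} (hn : 0 < n) :
    avg ν a s n (cube a s) = ν (cube a s) := by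
  rw [measure_cube_eq_sum ν a hs hn]
  simp only [avg, Measure.coe_finsetSum, Finset.sum_apply, Measure.smul_apply, smul_eq_mul]
  refine Finset.sum_congr rfl fun j _ => ?_
  rw [Measure.restrict_apply (measurableSet_cube a s),
    Set.inter_eq_self_of_subset_right (gc_subset a hs.le n j)]
  have h0 : volume (gc a s n j) ≠ 0 := by
    rw [volume_gc a hs.le]
    have : (0 : ℝ) < (s / n) ^ d := by positivity
    simpa using this
  have h1 : volume (gc a s n j) ≠ ⊤ := by
    rw [volume_gc a hs.le]
    exact ENNReal.ofReal_ne_top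
  exact ENNReal.div_mul_cancel h0 h1

theorem UFam.ae_fin (hT : UFam P T m) {Λ : ℝ} (hΛ : 0 < Λ) :
    ∀ᵐ x ∂(T Λ), m Λ x (cube 0 Λ) ≠ ⊤ := by
  have hm : Measurable fun x => m Λ x (cube 0 Λ) :=
    (Measure.measurable_coe (measurableSet_cube 0 Λ)).comp (hT.meas Λ)
  have h := ae_lt_top hm (by
    rw [hT.mean Λ hΛ _ (measurableSet_cube 0 Λ) subset_rfl, volume_cube _ hΛ.le]
    exact ENNReal.ofReal_ne_top)
  filter_upwards [h] with x hx using hx.ne

end Pool.Agent.Lib.MP_fe8b6f_pr
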