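import Pool.Agent.Lib.MP_fe8b6f_pr.UpA
import Pool.Agent.Lib.MP_fe8b6f_pr.AK2

/-! The subadditivity error for convex costs. -/

open MeasureTheory ProbabilityTheory
open scoped NNReal ENNReal

noncomputable section

namespace Pool.Agent.Lib.MP_fe8b6f_pr

variable {d : ℕ}

variable {X : Type} [MeasurableSpace X] {P : ℝ → Measure (Measure (E d))} {T : ℝ → Measure X}
  {m : ℝ → X → Measure (E d)}

theorem upb1_term {p r s u : ℝ} (hp : 1 ≤ p) (hr : 0 < r) (hs : 0 < s)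
    (h1 : r ≤ s * 2 ^ (-u)) (h2 : s * 2 ^ (-u - 1) ≤ r) :
    (2 : ℝ) ^ (|u| * (p - 1) / 2) * (r ^ p * (max r s) ^ (-(3 * p / 2))) ≤
      2 ^ (p / 2) * s ^ (-(p / 2)) * 2 ^ (-(|u| / 2)) := by
  obtain ⟨ρ, rfl⟩ : ∃ ρ : ℝ, r = 2 ^ ρ :=
    ⟨Real.logb 2 r, (Real.rpow_logb (by norm_num) (by norm_num) hr).symm⟩
  obtain ⟨σ, rfl⟩ : ∃ σ : ℝ, s = 2 ^ σ :=
    ⟨Real.logb 2 s, (Real.rpow_logb (by norm_num) (by norm_num) hs).symm⟩
  have h2p : (0 : ℝ) < 2 := by norm_num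
  rw [← Real.rpow_add h2p, Real.rpow_le_rpow_left_iff (by norm_num)] at h1 h2
  have hmax : max ((2 : ℝ) ^ ρ) (2 ^ σ) = 2 ^ (max ρ σ) := by
    rcases le_total ρ σ with h | h
    · rw [max_eq_right h, max_eq_right (Real.rpow_le_rpow_of_exponent_le (by norm_num) h)]
    · rw [max_eq_left h, max_eq_left (Real.rpow_le_rpow_of_exponent_le (by norm_num) h)]
  rw [hmax, ← Real.rpow_mul h2p.le, ← Real.rpow_mul h2p.le, ← Real.rpow_mul h2p.le,
    ← Real.rpow_add h2p, ← Real.rpow_add h2p, ← Real.rpow_add h2p, ← Real.rpow_add h2p]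
  refine Real.rpow_le_rpow_of_exponent_le (by norm_num) ?_
  have a1 := le_max_left ρ σ
  have a2 := le_max_right ρ σ
  set M := max ρ σ
  have hp0 : 0 ≤ p := by linarith
  rcases le_total 0 u with hu | hu
  · rw [abs_of_nonneg hu]
    have b1 := mul_nonneg hp0 (sub_nonneg.2 a2)
    have b2 := mul_nonneg hp0 (sub_nonneg.2 h1)
    have b3 := mul_nonneg hp0 hu
    nlinarith
  · rw [abs_of_nonpos hu]
    have b1 := mul_nonneg hp0 (sub_nonneg.2 a1)
    have b2 := mul_nonneg hp0 (sub_nonneg.2 h2)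
    nlinarith

theorem upb1_geom : ∃ S : ℝ, 0 ≤ S ∧ ∀ k0 : ℕ,
    ∑' k : ℕ, ENNReal.ofReal ((2 : ℝ) ^ (-(|(k : ℝ) - k0| / 2))) ≤ ENNReal.ofReal S := by
  set q : ℝ≥0∞ := ENNReal.ofReal ((2 : ℝ) ^ (-(1 / 2 : ℝ))) with hq
  have hq1 : q < 1 := by
    rw [hq, ENNReal.ofReal_lt_one]
    exact Real.rpow_lt_one_of_one_lt_of_neg (by norm_num) (by norm_num)
  have hpow : ∀ i : ℕ, ENNReal.ofReal ((2 : ℝ) ^ (-((i : ℝ) / 2))) = q ^ i := by
    intro i
    rw [hq, ← ENNReal.ofReal_pow (by positivity), ← Real.rpow_natCast,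
      ← Real.rpow_mul (by norm_num)]
    congr 2
    ring
  have hfin : (1 - q)⁻¹ + (1 - q)⁻¹ ≠ ⊤ := by
    have : (1 - q)⁻¹ ≠ ⊤ := ENNReal.inv_ne_top.2 (tsub_pos_of_lt hq1).ne'
    exact ENNReal.add_ne_top.2 ⟨this, this⟩
  refine ⟨((1 - q)⁻¹ + (1 - q)⁻¹).toReal, ENNReal.toReal_nonneg, fun k0 => ?_⟩
  rw [ENNReal.ofReal_toReal hfin, ← ENNReal.summable.sum_add_tsum_nat_add' (k := k0)]
  refine add_le_add ?_ (le_of_eq ?_)
  · rw [← Finset.sum_range_reflect, ← ENNReal.tsum_geometric]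
    refine le_trans (Finset.sum_le_sum fun i hi => ?_) (ENNReal.sum_le_tsum (Finset.range k0))
    have hi' : i < k0 := Finset.mem_range.1 hi
    have e : |((k0 - 1 - i : ℕ) : ℝ) - k0| = ((i + 1 : ℕ) : ℝ) := by
      have : k0 = (k0 - 1 - i) + (i + 1) := by omega
      have h2 : (k0 : ℝ) = ((k0 - 1 - i : ℕ) : ℝ) + ((i + 1 : ℕ) : ℝ) := by
        exact_mod_cast this
      rw [h2, sub_add_cancel_left, abs_neg, Nat.abs_cast]
    rw [e, hpow]
    exact pow_le_pow_right_of_le_one' hq1.le (Nat.le_succ i)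
  · rw [← ENNReal.tsum_geometric]
    refine tsum_congr fun i => ?_
    have e : |((i + k0 : ℕ) : ℝ) - k0| = (i : ℝ) := by
      push_cast
      rw [add_sub_cancel_right, Nat.abs_cast]
    rw [e, hpow]

theorem upb1_disc (hT : UFam P T m) {p : ℝ} (hp : 1 ≤ p) (hd : 5 ≤ d) :
    ∃ C : ℝ, 0 ≤ C ∧ ∀ (Λ : ℝ) (n n' : ℕ), 0 < Λ → 0 < n → 0 < n' → 1 ≤ Λ / n →
      ∫⁻ x, disc p (avg (m Λ x) 0 Λ n) 0 Λ n' ∂(T Λ) ≤
        ENNReal.ofReal (C * Λ ^ d *
          ((Λ / n') ^ p * (max (Λ / n') (Λ / n)) ^ (-(3 * p / 2)))) := by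
  obtain ⟨C, hC0, hC⟩ := hT.cell_moment hp
  refine ⟨C, hC0, fun Λ n n' hΛ hn hn' hs => ?_⟩
  have hn'r : (0 : ℝ) < n' := by exact_mod_cast hn'
  set r : ℝ := Λ / n' with hr
  have hr0 : 0 < r := by positivity
  set R : ℝ := max r (Λ / n) with hR
  have hR1 : 1 ≤ R := hs.trans (le_max_right _ _)
  have hR0 : 0 < R := by linarith
  have hmeas : ∀ j : Fin d → Fin n', Measurable fun x => ENNReal.ofReal
      (|(avg (m Λ x) 0 Λ n (gc 0 Λ n' j)).toReal - r ^ d| ^ p) := by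
    intro j
    have h1 : Measurable fun x => avg (m Λ x) 0 Λ n (gc 0 Λ n' j) :=
      (Measure.measurable_coe (measurableSet_gc 0 Λ n' j)).comp
        ((measurable_avg 0 Λ n).comp (hT.meas Λ))
    exact ((continuous_abs.measurable.comp
      (h1.ennreal_toReal.sub_const _)).pow_const p).ennreal_ofReal
  have e1 : ∀ x, disc p (avg (m Λ x) 0 Λ n) 0 Λ n' =
      ∑ j : Fin d → Fin n', ENNReal.ofReal (r ^ (p + d - d * p)) * ENNReal.ofReal
        (|(avg (m Λ x) 0 Λ n (gc 0 Λ n' j)).toReal - r ^ d| ^ p) := by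
    intro x
    unfold disc
    refine Finset.sum_congr rfl fun j _ => ?_
    rw [← ENNReal.ofReal_mul (by positivity)]
  simp only [e1]
  rw [lintegral_finsetSum _ fun j _ => (hmeas j).const_mul _]
  have term : ∀ j ∈ (Finset.univ : Finset (Fin d → Fin n')),
      ∫⁻ x, ENNReal.ofReal (r ^ (p + d - d * p)) * ENNReal.ofReal
        (|(avg (m Λ x) 0 Λ n (gc 0 Λ n' j)).toReal - r ^ d| ^ p) ∂(T Λ) ≤
      ENNReal.ofReal (C * r ^ d * (r ^ p * R ^ (-(3 * p / 2)))) := by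
    intro j _
    rw [lintegral_const_mul' _ _ ENNReal.ofReal_ne_top]
    refine (mul_le_mul_right (hC Λ n n' j hn hn' hs) _).trans ?_
    rw [← ENNReal.ofReal_mul (by positivity)]
    refine ENNReal.ofReal_le_ofReal ?_
    have hd' : (5 : ℝ) ≤ d := by exact_mod_cast hd
    have a1 : r ^ (p + d - d * p) * r ^ ((d : ℝ) * p) = r ^ d * r ^ p := by
      rw [← Real.rpow_add hr0, ← Real.rpow_natCast, ← Real.rpow_add hr0]
      congr 1
      ring
    have a2 : (R ^ ((d : ℝ) * p))⁻¹ * R ^ (p * (d + 2) / 2) ≤ R ^ (-(3 * p / 2)) := by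
      rw [← Real.rpow_neg hR0.le, ← Real.rpow_add hR0]
      refine Real.rpow_le_rpow_of_exponent_le hR1 ?_
      have := mul_nonneg (by linarith : 0 ≤ p) (sub_nonneg.2 hd')
      nlinarith
    rw [← hr, ← hR, Real.div_rpow hr0.le hR0.le]
    calc r ^ (p + d - d * p) * (C * (r ^ ((d : ℝ) * p) / R ^ ((d : ℝ) * p)) *
          R ^ (p * (d + 2) / 2))
        = C * (r ^ (p + d - d * p) * r ^ ((d : ℝ) * p)) *
          ((R ^ ((d : ℝ) * p))⁻¹ * R ^ (p * (d + 2) / 2)) := by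
          rw [div_eq_mul_inv]
          ring
      _ ≤ C * (r ^ (p + d - d * p) * r ^ ((d : ℝ) * p)) * R ^ (-(3 * p / 2)) :=
          mul_le_mul_of_nonneg_left a2 (by positivity)
      _ = _ := by
          rw [a1]
          ring
  refine (Finset.sum_le_sum term).trans (le_of_eq ?_)
  rw [Finset.sum_const, Finset.card_univ, Fintype.card_fun, Fintype.card_fin, Fintype.card_fin,
    nsmul_eq_mul, ← ENNReal.ofReal_natCast, ← ENNReal.ofReal_mul (by positivity)]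
  congr 1
  have a3 : Λ ^ d = (n' : ℝ) ^ d * r ^ d := by
    rw [← mul_pow, hr, mul_div_cancel₀ _ hn'r.ne']
  rw [a3]
  push_cast
  ring

theorem UFam.sub_error_high (hT : UFam P T m) {p : ℝ} (hp : 1 ≤ p) (hd : 5 ≤ d) {ε : ℝ}
    (hε : 0 < ε) :
    ∃ s0 : ℝ, ∀ (Λ : ℝ) (n : ℕ), 0 < Λ → 0 < n → s0 ≤ Λ / n →
      ∃ Err : Measure (E d) → ℝ≥0∞, Measurable Err ∧
        (∀ μ : Measure (E d), μ (cube 0 Λ) ≠ ⊤ → Wp p (avg μ 0 Λ n) (avg μ 0 Λ 1) ≤ Err μ) ∧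
        ∫⁻ x, Err (m Λ x) ∂(T Λ) ≤ ENNReal.ofReal (ε * Λ ^ d) := by
  obtain ⟨C1, hC1⟩ := AKT_two (d := d) hp
  obtain ⟨C2, hC20, hC2⟩ := upb1_disc hT hp hd
  obtain ⟨S, hS0, hS⟩ := upb1_geom
  set K : ℝ := C1 * (C2 * 2 ^ (p / 2) * S) with hK
  have hlim : Filter.Tendsto (fun s : ℝ => K * s ^ (-(p / 2))) Filter.atTop (nhds (K * 0)) :=
    (tendsto_rpow_neg_atTop (by linarith)).const_mul K
  rw [mul_zero] at hlim
  obtain ⟨s1, hs1⟩ := Filter.eventually_atTop.1 (hlim.eventually (ge_mem_nhds hε))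
  refine ⟨max 1 s1, fun Λ n hΛ hn hs0 => ?_⟩
  have hs : 1 ≤ Λ / n := (le_max_left _ _).trans hs0
  have hKs := hs1 _ ((le_max_right _ _).trans hs0)
  set k0 : ℕ := Nat.log 2 n with hk0
  have hnr : (0 : ℝ) < n := by exact_mod_cast hn
  have hk1 : (2 : ℝ) ^ k0 ≤ n := by exact_mod_cast Nat.pow_log_le_self 2 hn.ne'
  have hk2 : (n : ℝ) ≤ 2 ^ (k0 + 1) := by
    exact_mod_cast (Nat.lt_pow_succ_log_self (by norm_num : 1 < 2) n).le
  have hmeas : ∀ k : ℕ, Measurable fun μ : Measure (E d) =>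
      ENNReal.ofReal (2 ^ (|(k : ℝ) - k0| * (p - 1) / 2)) *
        disc p (avg μ 0 Λ n) 0 Λ (2 ^ (k + 1)) :=
    fun k => ((measurable_disc p 0 Λ _).comp (measurable_avg 0 Λ n)).const_mul _
  refine ⟨fun μ => C1 * ∑' k : ℕ, ENNReal.ofReal (2 ^ (|(k : ℝ) - k0| * (p - 1) / 2)) *
        disc p (avg μ 0 Λ n) 0 Λ (2 ^ (k + 1)),
    (Measurable.ennreal_tsum hmeas).const_mul _, fun μ hμ => ?_, ?_⟩
  · have h := hC1 0 Λ (avg μ 0 Λ n) k0 hΛ (by rw [avg_cube μ 0 hΛ hn]; exact hμ)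
    rw [avg_restrict μ 0 hΛ, avg_one, avg_cube μ 0 hΛ hn, ← avg_one] at h
    exact h
  · have hm2 : ∀ k : ℕ, AEMeasurable (fun x =>
        ENNReal.ofReal (2 ^ (|(k : ℝ) - k0| * (p - 1) / 2)) *
          disc p (avg (m Λ x) 0 Λ n) 0 Λ (2 ^ (k + 1))) (T Λ) :=
      fun k => ((hmeas k).comp (hT.meas Λ)).aemeasurable
    rw [lintegral_const_mul' _ _ ENNReal.coe_ne_top, lintegral_tsum hm2]
    have term : ∀ k : ℕ, ∫⁻ x, ENNReal.ofReal (2 ^ (|(k : ℝ) - k0| * (p - 1) / 2)) *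
        disc p (avg (m Λ x) 0 Λ n) 0 Λ (2 ^ (k + 1)) ∂(T Λ) ≤
        ENNReal.ofReal (C2 * Λ ^ d * (2 ^ (p / 2) * (Λ / n) ^ (-(p / 2)))) *
          ENNReal.ofReal ((2 : ℝ) ^ (-(|(k : ℝ) - k0| / 2))) := by
      intro k
      rw [lintegral_const_mul' _ _ ENNReal.ofReal_ne_top]
      refine (mul_le_mul_right (hC2 Λ n (2 ^ (k + 1)) hΛ hn (by positivity) hs) _).trans ?_
      rw [← ENNReal.ofReal_mul (by positivity), ← ENNReal.ofReal_mul (by positivity)]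
      refine ENNReal.ofReal_le_ofReal ?_
      have e1 : (2 : ℝ) ^ (-((k : ℝ) - k0)) = 2 ^ (k0 + 1) / 2 ^ (k + 1) := by
        rw [← Real.rpow_natCast, ← Real.rpow_natCast, ← Real.rpow_sub (by norm_num)]
        congr 1
        push_cast
        ring
      have e2 : (2 : ℝ) ^ (-((k : ℝ) - k0) - 1) = 2 ^ k0 / 2 ^ (k + 1) := by
        rw [← Real.rpow_natCast, ← Real.rpow_natCast, ← Real.rpow_sub (by norm_num)]
        congr 1
        push_cast
        ring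
      have hP : (0 : ℝ) < 2 ^ (k + 1) := by positivity
      have h1 : Λ / ((2 ^ (k + 1) : ℕ) : ℝ) ≤ Λ / n * 2 ^ (-((k : ℝ) - k0)) := by
        rw [e1]
        push_cast
        rw [div_mul_div_comm, div_le_div_iff₀ hP (by positivity)]
        have := mul_le_mul_of_nonneg_left hk2 (mul_pos hΛ hP).le
        nlinarith
      have h2 : Λ / n * 2 ^ (-((k : ℝ) - k0) - 1) ≤ Λ / ((2 ^ (k + 1) : ℕ) : ℝ) := by
        rw [e2]
        push_cast
        rw [div_mul_div_comm, div_le_div_iff₀ (by positivity) hP]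
        have := mul_le_mul_of_nonneg_left hk1 (mul_pos hΛ hP).le
        nlinarith
      have h3 := upb1_term hp (by positivity) (by positivity) h1 h2
      calc _ = C2 * Λ ^ d * ((2 : ℝ) ^ (|(k : ℝ) - k0| * (p - 1) / 2) *
            ((Λ / ((2 ^ (k + 1) : ℕ) : ℝ)) ^ p *
              (max (Λ / ((2 ^ (k + 1) : ℕ) : ℝ)) (Λ / n)) ^ (-(3 * p / 2)))) := by ring
        _ ≤ C2 * Λ ^ d * (2 ^ (p / 2) * (Λ / n) ^ (-(p / 2)) *
            2 ^ (-(|(k : ℝ) - k0| / 2))) := mul_le_mul_of_nonneg_left h3 (by positivity)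
        _ = _ := by ring
    refine (mul_le_mul_right (ENNReal.tsum_le_tsum term) _).trans ?_
    rw [ENNReal.tsum_mul_left]
    refine (mul_le_mul_right (mul_le_mul_right (hS k0) _) _).trans ?_
    rw [← ENNReal.ofReal_mul (by positivity), ← ENNReal.ofReal_coe_nnreal,
      ← ENNReal.ofReal_mul (by positivity)]
    refine ENNReal.ofReal_le_ofReal ?_
    calc _ = K * (Λ / n) ^ (-(p / 2)) * Λ ^ d := by
          rw [hK]
          ring
      _ ≤ _ := mul_le_mul_of_nonneg_right hKs (by positivity)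

end Pool.Agent.Lib.MP_fe8b6f_pr
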