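import Pool.Agent.Lib.MP_fe8b6f_pr.UpA
import Pool.Agent.Lib.MP_fe8b6f_pr.AK3

/-! The subadditivity error for concave costs. -/

open MeasureTheory ProbabilityTheory
open scoped NNReal ENNReal

noncomputable section

namespace Pool.Agent.Lib.MP_fe8b6f_pr

variable {d : ℕ}

variable {X : Type} [MeasurableSpace X] {P : ℝ → Measure (Measure (E d))} {T : ℝ → Measure X}
  {m : ℝ → X → Measure (E d)}

theorem upb2_tele {u c : ℝ} (hu : 0 < u) (hc : 1 < c) :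
    min u u⁻¹ ≤ 2 * (1 + c) / (c - 1) * (c * u / (1 + c * u) - u / (1 + u)) := by
  have hc1 : 0 < c - 1 := by linarith
  have h1 : 0 < 1 + u := by linarith
  have h2 : 0 < 1 + c * u := by positivity
  have key : 2 * (1 + c) / (c - 1) * (c * u / (1 + c * u) - u / (1 + u)) =
      2 * (1 + c) * u / ((1 + u) * (1 + c * u)) := by
    field_simp
    ring
  rw [key, le_div_iff₀ (mul_pos h1 h2)]
  rcases le_total u 1 with h | h
  · have h3 : (1 + u) * (1 + c * u) ≤ 2 * (1 + c) := by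
      apply mul_le_mul (by linarith) (by nlinarith) h2.le (by norm_num)
    calc min u u⁻¹ * ((1 + u) * (1 + c * u)) ≤ u * (2 * (1 + c)) :=
          mul_le_mul (min_le_left _ _) h3 (mul_pos h1 h2).le hu.le
      _ = 2 * (1 + c) * u := by ring
  · have h3 : (1 + u) * (1 + c * u) ≤ (2 * u) * ((1 + c) * u) := by
      apply mul_le_mul (by linarith) (by nlinarith) h2.le (by positivity)
    calc min u u⁻¹ * ((1 + u) * (1 + c * u)) ≤ u⁻¹ * ((2 * u) * ((1 + c) * u)) :=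
          mul_le_mul (min_le_right _ _) h3 (mul_pos h1 h2).le (inv_pos.2 hu).le
      _ = 2 * (1 + c) * u := by field_simp

theorem upb2_term {r s p e δ : ℝ} (hr : 0 < r) (hs : 0 < s) (hδp : δ ≤ p) (hδe : δ ≤ e)
    (hδ : 0 < δ) :
    r ^ p * (max r s) ^ (-(e + p)) ≤ s ^ (-e) * min ((r / s) ^ δ) ((r / s) ^ δ)⁻¹ := by
  have ht : 0 < r / s := div_pos hr hs
  have hrs : r = r / s * s := by field_simp
  rcases le_total r s with h | h
  · have ht1 : r / s ≤ 1 := (div_le_one hs).2 h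
    have hu1 : (r / s) ^ δ ≤ 1 := Real.rpow_le_one ht.le ht1 hδ.le
    have hu0 : 0 < (r / s) ^ δ := Real.rpow_pos_of_pos ht _
    have hmin : min ((r / s) ^ δ) ((r / s) ^ δ)⁻¹ = (r / s) ^ δ :=
      min_eq_left (hu1.trans ((one_le_inv₀ hu0).2 hu1))
    rw [max_eq_right h, hmin]
    have h1 : r ^ p * s ^ (-(e + p)) = s ^ (-e) * (r / s) ^ p := by
      rw [Real.div_rpow hr.le hs.le, neg_add, Real.rpow_add hs, Real.rpow_neg hs.le p]
      ring
    rw [h1]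
    exact mul_le_mul_of_nonneg_left (Real.rpow_le_rpow_of_exponent_ge ht ht1 hδp)
      (Real.rpow_pos_of_pos hs _).le
  · have ht1 : 1 ≤ r / s := (one_le_div hs).2 h
    have hu1 : 1 ≤ (r / s) ^ δ := Real.one_le_rpow ht1 hδ.le
    have hu0 : 0 < (r / s) ^ δ := Real.rpow_pos_of_pos ht _
    have hmin : min ((r / s) ^ δ) ((r / s) ^ δ)⁻¹ = ((r / s) ^ δ)⁻¹ :=
      min_eq_right (((inv_le_one₀ hu0).2 hu1).trans hu1)
    rw [max_eq_left h, hmin, ← Real.rpow_neg ht.le]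
    have h1 : r ^ p * r ^ (-(e + p)) = s ^ (-e) * (r / s) ^ (-e) := by
      rw [← Real.rpow_add hr, ← Real.mul_rpow hs.le ht.le, mul_comm s, ← hrs]
      congr 1
      ring
    rw [h1]
    exact mul_le_mul_of_nonneg_left (Real.rpow_le_rpow_of_exponent_le ht1 (by linarith))
      (Real.rpow_pos_of_pos hs _).le

theorem upb2_sum {p e : ℝ} (hp : 0 < p) (he : 0 < e) :
    ∃ K : ℝ, 0 ≤ K ∧ ∀ (Λ s : ℝ) (N : ℕ), 0 < Λ → 0 < s →
      ∑ k ∈ Finset.range N, (Λ / ((2 ^ (k + 1) : ℕ) : ℝ)) ^ p *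
        (max (Λ / ((2 ^ (k + 1) : ℕ) : ℝ)) s) ^ (-(e + p)) ≤ K * s ^ (-e) := by
  set δ := min p e with hδ
  have hδ0 : 0 < δ := lt_min hp he
  set c : ℝ := 2 ^ δ with hc
  have hc1 : 1 < c := Real.one_lt_rpow (by norm_num) hδ0
  have hK : 0 ≤ 2 * (1 + c) / (c - 1) := div_nonneg (by linarith) (by linarith)
  refine ⟨2 * (1 + c) / (c - 1), hK, fun Λ s N hΛ hs => ?_⟩
  set U : ℕ → ℝ := fun k => (Λ / ((2 ^ k : ℕ) : ℝ) / s) ^ δ with hU
  have hU0 : ∀ k, 0 < U k := fun k => Real.rpow_pos_of_pos (by positivity) _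
  have hUs : ∀ k, U k = c * U (k + 1) := fun k => by
    simp only [hU, hc]
    rw [← Real.mul_rpow (by norm_num) (by positivity)]
    congr 1
    push_cast
    field_simp
    ring
  set g : ℕ → ℝ := fun k => U k / (1 + U k) with hg
  have hterm : ∀ k, (Λ / ((2 ^ (k + 1) : ℕ) : ℝ)) ^ p *
      (max (Λ / ((2 ^ (k + 1) : ℕ) : ℝ)) s) ^ (-(e + p)) ≤
      s ^ (-e) * (2 * (1 + c) / (c - 1)) * (g k - g (k + 1)) := fun k => by
    refine (upb2_term (by positivity) hs (min_le_left p e) (min_le_right p e) hδ0).trans ?_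
    rw [mul_assoc]
    refine mul_le_mul_of_nonneg_left ?_ (Real.rpow_pos_of_pos hs _).le
    have := upb2_tele (hU0 (k + 1)) hc1
    simp only [hg]
    rw [hUs k]
    exact this
  refine (Finset.sum_le_sum fun k _ => hterm k).trans ?_
  rw [← Finset.mul_sum, Finset.sum_range_sub']
  have h0 : g 0 ≤ 1 := (div_le_one (by linarith [hU0 0])).2 (by linarith)
  have h1 : 0 ≤ g N := div_nonneg (hU0 N).le (by linarith [hU0 N])
  have h2 : 0 ≤ s ^ (-e) * (2 * (1 + c) / (c - 1)) :=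
    mul_nonneg (Real.rpow_pos_of_pos hs _).le hK
  calc s ^ (-e) * (2 * (1 + c) / (c - 1)) * (g 0 - g N)
      ≤ s ^ (-e) * (2 * (1 + c) / (c - 1)) * 1 := mul_le_mul_of_nonneg_left (by linarith) h2
    _ = _ := by ring

theorem upb2_alg {Λ R C p : ℝ} {N : ℕ} (hΛ : 0 < Λ) (hN : 0 < N) (hR : 0 < R) :
    (N : ℝ) ^ d * ((Λ / N) ^ p * (C * (Λ / N / R) ^ ((d : ℝ) * 1) * R ^ (1 * ((d : ℝ) + 2) / 2))) =
      C * Λ ^ d * ((Λ / N) ^ p * R ^ (-((((d : ℝ) - 2) / 2 - p) + p))) := by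
  have hN' : (0 : ℝ) < N := Nat.cast_pos.2 hN
  have h1 : R ^ (1 * ((d : ℝ) + 2) / 2) =
      R ^ d * R ^ (-((((d : ℝ) - 2) / 2 - p) + p)) := by
    rw [← Real.rpow_natCast, ← Real.rpow_add hR]
    congr 1
    ring
  rw [h1, mul_one, Real.rpow_natCast, div_pow, div_pow]
  field_simp

theorem upb2_disc (hT : UFam P T m) (p : ℝ) :
    ∃ C : ℝ, 0 ≤ C ∧ ∀ (Λ : ℝ) (n N : ℕ), 0 < Λ → 0 < n → 0 < N → 1 ≤ Λ / n →
      ∫⁻ x, discL p (avg (m Λ x) 0 Λ n) 0 Λ N ∂(T Λ) ≤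
        ENNReal.ofReal (C * Λ ^ d * ((Λ / N) ^ p *
          (max (Λ / N) (Λ / n)) ^ (-((((d : ℝ) - 2) / 2 - p) + p)))) := by
  obtain ⟨C, hC0, hC⟩ := hT.cell_moment (q := 1) le_rfl
  refine ⟨C, hC0, fun Λ n N hΛ hn hN h1 => ?_⟩
  have hN' : (0 : ℝ) < N := Nat.cast_pos.2 hN
  have hr : 0 < Λ / N := div_pos hΛ hN'
  have hR : 0 < max (Λ / N) (Λ / n) := lt_max_of_lt_left hr
  have hrp : 0 ≤ (Λ / N) ^ p := (Real.rpow_pos_of_pos hr _).le
  have hmeas : ∀ j : Fin d → Fin N, Measurable fun x =>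
      ENNReal.ofReal |(avg (m Λ x) 0 Λ n (gc 0 Λ N j)).toReal - (Λ / N) ^ d| := fun j => by
    have h2 : Measurable fun x => avg (m Λ x) 0 Λ n (gc 0 Λ N j) :=
      (Measure.measurable_coe (measurableSet_gc 0 Λ N j)).comp
        ((measurable_avg 0 Λ n).comp (hT.meas Λ))
    exact (continuous_abs.measurable.comp (h2.ennreal_toReal.sub_const _)).ennreal_ofReal
  unfold discL
  simp only [ENNReal.ofReal_mul hrp]
  rw [lintegral_finsetSum _ fun j _ => (hmeas j).const_mul _]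
  have hj : ∀ j : Fin d → Fin N, ∫⁻ x, ENNReal.ofReal ((Λ / N) ^ p) *
      ENNReal.ofReal |(avg (m Λ x) 0 Λ n (gc 0 Λ N j)).toReal - (Λ / N) ^ d| ∂(T Λ) ≤
      ENNReal.ofReal ((Λ / N) ^ p * (C * (Λ / N / max (Λ / N) (Λ / n)) ^ ((d : ℝ) * 1) *
        (max (Λ / N) (Λ / n)) ^ (1 * ((d : ℝ) + 2) / 2))) := fun j => by
    rw [lintegral_const_mul _ (hmeas j), ENNReal.ofReal_mul hrp]
    refine mul_le_mul_right ?_ _
    have := hC Λ n N j hn hN h1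
    simpa only [Real.rpow_one] using this
  refine (Finset.sum_le_sum fun j _ => hj j).trans (le_of_eq ?_)
  rw [Finset.sum_const, Finset.card_univ, Fintype.card_pi, nsmul_eq_mul,
    ← upb2_alg hΛ hN hR, ENNReal.ofReal_mul (pow_pos hN' d).le]
  congr 1
  simp [ENNReal.ofReal_pow]

theorem UFam.sub_error_low (hT : UFam P T m) {p : ℝ} (hp : 0 < p) (hp1 : p ≤ 1)
    (hpd : p < ((d : ℝ) - 2) / 2) {ε : ℝ} (hε : 0 < ε) :
    ∃ s0 : ℝ, ∀ (Λ : ℝ) (n : ℕ), 0 < Λ → 0 < n → s0 ≤ Λ / n →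
      ∃ Err : Measure (E d) → ℝ≥0∞, Measurable Err ∧
        (∀ μ : Measure (E d), μ (cube 0 Λ) ≠ ⊤ → Wp p (avg μ 0 Λ n) (avg μ 0 Λ 1) ≤ Err μ) ∧
        ∫⁻ x, Err (m Λ x) ∂(T Λ) ≤ ENNReal.ofReal (ε * Λ ^ d) := by
  obtain ⟨A, hA⟩ := AKT_low (d := d) hp hp1
  obtain ⟨C, hC0, hC⟩ := upb2_disc hT p
  set e : ℝ := ((d : ℝ) - 2) / 2 - p with he
  have he0 : 0 < e := by linarith
  obtain ⟨K, hK0, hK⟩ := upb2_sum hp he0
  have hlim : Filter.Tendsto (fun s : ℝ => (A : ℝ) * C * K * s ^ (-e)) Filter.atTop (nhds 0) := by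
    have := (tendsto_rpow_neg_atTop he0).const_mul ((A : ℝ) * C * K)
    simpa using this
  obtain ⟨s0, hs0⟩ := Filter.eventually_atTop.1
    ((hlim.eventually (ge_mem_nhds hε)).and (Filter.eventually_ge_atTop (1 : ℝ)))
  refine ⟨s0, fun Λ n hΛ hn hs => ?_⟩
  obtain ⟨hs1, hs2⟩ := hs0 _ hs
  have hmk : ∀ k : ℕ, Measurable fun μ : Measure (E d) =>
      discL p (avg μ 0 Λ n) 0 Λ (2 ^ (k + 1)) := fun k =>
    (measurable_discL p 0 Λ _).comp (measurable_avg 0 Λ n)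
  refine ⟨fun μ => A * ∑' k : ℕ, discL p (avg μ 0 Λ n) 0 Λ (2 ^ (k + 1)),
    (Measurable.tsum hmk).const_mul _, fun μ hμ => ?_, ?_⟩
  · have h := hA 0 Λ (avg μ 0 Λ n) hΛ (by rw [avg_cube μ 0 hΛ hn]; exact hμ)
    rw [avg_restrict μ 0 hΛ n, avg_one, avg_cube μ 0 hΛ hn, ← avg_one] at h
    exact h
  · have hmk' : ∀ k : ℕ, Measurable fun x =>
        discL p (avg (m Λ x) 0 Λ n) 0 Λ (2 ^ (k + 1)) := fun k => (hmk k).comp (hT.meas Λ)
    rw [lintegral_const_mul _ (Measurable.tsum hmk'),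
      lintegral_tsum fun k => (hmk' k).aemeasurable]
    have hΛd : 0 ≤ Λ ^ d := (pow_pos hΛ d).le
    have hsum : ∑' k : ℕ, ∫⁻ x, discL p (avg (m Λ x) 0 Λ n) 0 Λ (2 ^ (k + 1)) ∂(T Λ) ≤
        ENNReal.ofReal (C * Λ ^ d * (K * (Λ / n) ^ (-e))) := by
      rw [ENNReal.tsum_eq_iSup_nat]
      refine iSup_le fun N => ?_
      refine (Finset.sum_le_sum fun k _ =>
        hC Λ n (2 ^ (k + 1)) hΛ hn (by positivity) hs2).trans ?_
      rw [← ENNReal.ofReal_sum_of_nonneg, ← Finset.mul_sum]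
      · exact ENNReal.ofReal_le_ofReal (mul_le_mul_of_nonneg_left
          (hK Λ (Λ / n) N hΛ (by linarith)) (mul_nonneg hC0 hΛd))
      · intro k _
        have h1 : (0 : ℝ) < Λ / ((2 ^ (k + 1) : ℕ) : ℝ) := by positivity
        exact mul_nonneg (mul_nonneg hC0 hΛd) (mul_nonneg (Real.rpow_pos_of_pos h1 _).le
          (Real.rpow_pos_of_pos (lt_max_of_lt_left h1) _).le)
    refine (mul_le_mul_right hsum _).trans ?_
    rw [← ENNReal.ofReal_coe_nnreal, ← ENNReal.ofReal_mul A.coe_nonneg]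
    refine ENNReal.ofReal_le_ofReal ?_
    calc (A : ℝ) * (C * Λ ^ d * (K * (Λ / n) ^ (-e)))
        = (A : ℝ) * C * K * (Λ / n) ^ (-e) * Λ ^ d := by ring
      _ ≤ ε * Λ ^ d := mul_le_mul_of_nonneg_right hs1 hΛd

end Pool.Agent.Lib.MP_fe8b6f_pr
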