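import Pool.Agent.Lib.MP_fe8b6f_pr.GBasA
import Pool.Agent.Lib.MP_fe8b6f_pr.Defs2

/-! Growing a cube. -/

open MeasureTheory ProbabilityTheory
open scoped NNReal ENNReal

noncomputable section

namespace Pool.Agent.Lib.MP_fe8b6f_pr

variable {d : ℕ}

theorem upc1_cube_box (s : ℝ) : cube (0 : E d) s = box 0 (WithLp.toLp 2 fun _ => s) := by
  ext x
  simp [cube, box]

theorem upc1_subset {L s : ℝ} (h : L ≤ s) : cube (0 : E d) L ⊆ cube 0 s := fun x hx i =>
  ⟨(hx i).1, (hx i).2.trans_le (by linarith)⟩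

theorem upc1_box {p : ℝ} (hp : 0 ≤ p) {L s : ℝ} (hL : 0 < L) (h : L ≤ s) {m : ℝ≥0∞}
    (hm : m ≠ ⊤) :
    Wp p ((m / volume (cube (0 : E d) L)) • volume.restrict (cube (0 : E d) L))
      ((m / volume (cube (0 : E d) s)) • volume.restrict (cube (0 : E d) s)) ≤
      ENNReal.ofReal (√d * (s - L)) ^ p * m := by
  rw [upc1_cube_box L, upc1_cube_box s]
  refine Wp_box hp (fun i => by simpa using hL) (fun i => by simpa using hL.trans_le h)
    (by linarith) (fun i => by simpa using h) (fun i => ?_) hm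
  simp only
  rw [abs_sub_comm, abs_of_nonneg (by linarith)]

theorem upc1_rest {p : ℝ} (hp : 0 ≤ p) {s : ℝ} (hs : 0 < s) {μ : Measure (E d)} {A : Set (E d)}
    (hA : A ⊆ cube 0 s) (hμ : μ A ≠ ⊤) :
    Wp p (μ.restrict A) ((μ A / volume (cube (0 : E d) s)) • volume.restrict (cube (0 : E d) s)) ≤
      ENNReal.ofReal (√d * s) ^ p * μ A := by
  have : IsFiniteMeasure (μ.restrict A) := isFiniteMeasure_restrict.2 hμ
  have h := Wp_diam hp (μ := μ.restrict A)
    (ν := (μ A / volume (cube (0 : E d) s)) • volume.restrict (cube (0 : E d) s))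
    (by rw [gbasa_mass _ _ hs, Measure.restrict_apply_univ]) (S := cube 0 s) (T := cube 0 s)
    (by
      rw [Measure.restrict_apply (measurableSet_cube 0 s).compl]
      have e : (cube (0 : E d) s)ᶜ ∩ A = ∅ :=
        Set.eq_empty_of_forall_notMem fun x hx => hx.1 (hA hx.2)
      rw [e, measure_empty])
    (by rw [Measure.smul_apply, Measure.restrict_apply (measurableSet_cube _ s).compl,
      Set.compl_inter_self, measure_empty, smul_zero])
    (D := √d * s) (fun x hx y hy => norm_sub_le_of_cube hs.le hx hy)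
  rwa [Measure.restrict_apply_univ] at h

theorem G_grow {p : ℝ} (hp : 0 < p) {ε : ℝ} (hε : 0 < ε) :
    ∃ C : ℝ≥0, ∀ (L s : ℝ) (μ : Measure (E d)), 0 < L → L ≤ s → μ (cube 0 s) ≠ ⊤ →
      G p s 0 μ ≤ ENNReal.ofReal (1 + ε) * G p L 0 μ +
        C * (ENNReal.ofReal (√d * (s - L)) ^ p * μ (cube 0 L)) +
        ENNReal.ofReal (√d * s) ^ p * μ (cube 0 s \ cube 0 L) := by
  obtain ⟨C, hC⟩ := Wp_tri_eps (d := d) hp hε
  refine ⟨C, fun L s μ hL hLs hμ => ?_⟩
  have hs : 0 < s := hL.trans_le hLs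
  have hsub := upc1_subset (d := d) hLs
  have hμL : μ (cube 0 L) ≠ ⊤ := ne_top_of_le_ne_top hμ (measure_mono hsub)
  have hμD : μ (cube 0 s \ cube 0 L) ≠ ⊤ := ne_top_of_le_ne_top hμ (measure_mono Set.sdiff_subset)
  have hU : cube (0 : E d) L ∪ (cube 0 s \ cube 0 L) = cube 0 s := Set.union_sdiff_cancel hsub
  have hmD : MeasurableSet (cube (0 : E d) s \ cube 0 L) :=
    (measurableSet_cube 0 s).diff (measurableSet_cube 0 L)
  have h1 : μ.restrict (cube 0 s) =
      μ.restrict (cube 0 L) + μ.restrict (cube 0 s \ cube 0 L) := by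
    rw [← Measure.restrict_union Set.disjoint_sdiff_right hmD, hU]
  have h2 : μ (cube 0 s) = μ (cube 0 L) + μ (cube 0 s \ cube 0 L) := by
    rw [← measure_union Set.disjoint_sdiff_right hmD, hU]
  have hfin : IsFiniteMeasure
      ((μ (cube 0 L) / volume (cube (0 : E d) L)) • volume.restrict (cube (0 : E d) L)) :=
    ⟨by rw [gbasa_mass _ _ hL]; exact hμL.lt_top⟩
  unfold G
  rw [neg_zero, h1, h2, ENNReal.add_div, add_smul]
  refine (Wc_add_le _ _ _ _ _).trans (add_le_add ?_ ?_)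
  · refine (hC _ _ _ hfin).trans ?_
    gcongr
    exact upc1_box hp.le hL hLs hμL
  · exact upc1_rest hp.le hs Set.sdiff_subset hμD

end Pool.Agent.Lib.MP_fe8b6f_pr
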