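import Pool.Agent.Lib.MP_fe8b6f_pr.UpA1
import Pool.Agent.Lib.MP_fe8b6f_pr.GBas

/-! Local expectations. -/

open MeasureTheory ProbabilityTheory
open scoped NNReal ENNReal

noncomputable section

namespace Pool.Agent.Lib.MP_fe8b6f_pr

variable {d : ℕ}

variable {X : Type} [MeasurableSpace X] {P : ℝ → Measure (Measure (E d))} {T : ℝ → Measure X}
  {m : ℝ → X → Measure (E d)}

theorem upc2_trunc (g : ℝ≥0∞) {M : ℝ≥0∞} (h0 : M ≠ 0) (ht : M ≠ ⊤) :
    g ≤ M * (min g M / M) + g ^ 2 / M := by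
  rw [ENNReal.mul_div_cancel h0 ht]
  rcases le_total g M with h | h
  · rw [min_eq_left h]
    exact le_self_add
  · refine le_add_left ?_
    rw [ENNReal.le_div_iff_mul_le (Or.inl h0) (Or.inl ht), sq]
    exact mul_le_mul_right h _

theorem upc2_Gf_le {p L : ℝ} (hp : 0 < p) (hL : 0 < L) (μ : Measure (E d)) :
    Gf p L 0 μ ≤ ENNReal.ofReal (√d * L + ‖(0 : E d)‖) ^ p *
      ENNReal.ofReal (μ (cube 0 L)).toReal := by
  unfold Gf
  split_ifs with h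
  · exact zero_le
  · rw [ENNReal.ofReal_toReal h]
    exact G_bound hp.le hL 0 h

theorem upc2_sq (hT : UFam P T m) {L : ℝ} (hL : 1 ≤ L) :
    ∃ K : ℝ≥0∞, K ≠ ⊤ ∧ ∀ Λ, L ≤ Λ → ∀ z : E d, cube z L ⊆ cube 0 Λ →
      ∫⁻ x, ENNReal.ofReal (m Λ x (cube z L)).toReal ^ 2 ∂(T Λ) ≤ K := by
  obtain ⟨C, -, hC⟩ := hT.mom 2 (by norm_num)
  have hL0 : 0 < L := by linarith
  refine ⟨2 * ENNReal.ofReal (C * L ^ ((2 : ℝ) * (d + 2) / 2)) +
    ENNReal.ofReal (2 * (L ^ d) ^ 2), by finiteness, fun Λ hΛ z hz => ?_⟩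
  have := hT.prob Λ (by linarith)
  have h1 := hC Λ L z ((cube z L).indicator 1) hL hΛ hz
    (measurable_one.indicator (measurableSet_cube z L))
    (fun y => Set.indicator_nonneg (fun _ _ => zero_le_one) y)
    (fun y => Set.indicator_le_self' (fun _ _ => zero_le_one) y)
    (fun y hy => Set.indicator_of_notMem hy _)
  simp only [integral_indicator_one (measurableSet_cube z L), Measure.real,
    volume_cube z hL0.le, ENNReal.toReal_ofReal (pow_pos hL0 d).le] at h1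
  have h2 : ∀ y : ℝ, 0 ≤ y → ENNReal.ofReal y ^ 2 ≤
      2 * ENNReal.ofReal (|y - L ^ d| ^ (2 : ℝ)) + ENNReal.ofReal (2 * (L ^ d) ^ 2) := by
    intro y hy
    rw [← ENNReal.ofReal_pow hy, Real.rpow_two, sq_abs,
      ← ENNReal.ofReal_ofNat 2, ← ENNReal.ofReal_mul (by norm_num),
      ← ENNReal.ofReal_add (by positivity) (by positivity)]
    refine ENNReal.ofReal_le_ofReal ?_
    nlinarith [sq_nonneg (y - 2 * L ^ d)]
  refine (lintegral_mono fun x => h2 _ ENNReal.toReal_nonneg).trans ?_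
  rw [lintegral_add_right _ measurable_const, lintegral_const, measure_univ, mul_one,
    lintegral_const_mul' _ _ (by norm_num)]
  exact add_le_add_left (mul_le_mul_right h1 _) _

/-- truncation and uniform integrability -/
theorem UFam.local_Gf (hP : Fam P) (hT : UFam P T m) {p L : ℝ} (hp : 0 < p) (hL : 1 ≤ L)
    {ε : ℝ≥0∞} (hε : 0 < ε) :
    ∃ Λ0 : ℝ, ∀ Λ, Λ0 ≤ Λ → ∀ z : E d, cube z L ⊆ cube 0 Λ →
      ∫⁻ x, Gf p L 0 (loc z L (m Λ x)) ∂(T Λ) ≤ ∫⁻ μ, Gf p L 0 μ ∂(P L) + ε := by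
  have hL0 : 0 < L := by linarith
  rcases eq_or_ne ε ⊤ with rfl | hεt
  · exact ⟨0, fun Λ _ z _ => by simp⟩
  obtain ⟨K, hK, hKb⟩ := upc2_sq hT hL
  set D : ℝ≥0∞ := ENNReal.ofReal (√d * L + ‖(0 : E d)‖) ^ p with hD
  have hDt : D ≠ ⊤ := ENNReal.rpow_ne_top_of_nonneg hp.le ENNReal.ofReal_ne_top
  have hε2 : ε / 2 ≠ 0 := (ENNReal.half_pos hε.ne').ne'
  have hε2t : ε / 2 ≠ ⊤ := ENNReal.div_ne_top hεt two_ne_zero
  set M : ℝ≥0∞ := D ^ 2 * K / (ε / 2) + 1 with hM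
  have hM0 : M ≠ 0 := by simp [hM]
  have hMt : M ≠ ⊤ := ENNReal.add_ne_top.2
    ⟨ENNReal.div_ne_top (ENNReal.mul_ne_top (ENNReal.pow_ne_top hDt) hK) hε2, ENNReal.one_ne_top⟩
  have hMe : D ^ 2 * K / M ≤ ε / 2 := by
    rw [ENNReal.div_le_iff hM0 hMt, hM, mul_add, ENNReal.mul_div_cancel hε2 hε2t]
    exact le_self_add
  obtain ⟨Λ0, hΛ0⟩ := hT.lim L hL0 (ε / 2 / M) (ENNReal.div_pos hε2 hMt)
  refine ⟨max Λ0 L, fun Λ hΛ z hz => ?_⟩
  have hG := measurable_Gf (d := d) hp hL0 0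
  have hF : Measurable fun μ : Measure (E d) => min (Gf p L 0 μ) M / M :=
    (hG.min measurable_const).div_const M
  have h1 := hΛ0 Λ (le_of_max_le_left hΛ) z (fun μ => min (Gf p L 0 μ) M / M) hz hF
    (fun μ => ENNReal.div_le_of_le_mul (by rw [one_mul]; exact min_le_right _ _))
  have h2 := hKb Λ (le_of_max_le_right hΛ) z hz
  have h3 : ∀ x, Gf p L 0 (loc z L (m Λ x)) ≤ M * (min (Gf p L 0 (loc z L (m Λ x))) M / M) +
      D ^ 2 / M * ENNReal.ofReal (m Λ x (cube z L)).toReal ^ 2 := by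
    intro x
    refine (upc2_trunc _ hM0 hMt).trans (add_le_add_right ?_ _)
    have h := upc2_Gf_le hp hL0 (loc z L (m Λ x))
    rw [loc_cube] at h
    calc Gf p L 0 (loc z L (m Λ x)) ^ 2 / M
        ≤ (D * ENNReal.ofReal (m Λ x (cube z L)).toReal) ^ 2 / M := by gcongr
      _ = _ := by rw [mul_pow, div_eq_mul_inv, div_eq_mul_inv, mul_right_comm]
  have hm : Measurable fun x => M * (min (Gf p L 0 (loc z L (m Λ x))) M / M) :=
    (hF.comp ((measurable_loc z L).comp (hT.meas Λ))).const_mul M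
  have hDM : D ^ 2 / M ≠ ⊤ := ENNReal.div_ne_top (ENNReal.pow_ne_top hDt) hM0
  have h4 : M * ∫⁻ μ, min (Gf p L 0 μ) M / M ∂(P L) ≤ ∫⁻ μ, Gf p L 0 μ ∂(P L) := by
    rw [← lintegral_const_mul' _ _ hMt]
    refine lintegral_mono fun μ => ?_
    rw [ENNReal.mul_div_cancel hM0 hMt]
    exact min_le_left _ _
  calc ∫⁻ x, Gf p L 0 (loc z L (m Λ x)) ∂(T Λ)
      ≤ M * ∫⁻ x, min (Gf p L 0 (loc z L (m Λ x))) M / M ∂(T Λ) +
        D ^ 2 / M * ∫⁻ x, ENNReal.ofReal (m Λ x (cube z L)).toReal ^ 2 ∂(T Λ) := by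
        rw [← lintegral_const_mul' _ _ hMt, ← lintegral_const_mul' _ _ hDM,
          ← lintegral_add_left hm]
        exact lintegral_mono h3
    _ ≤ M * (∫⁻ μ, min (Gf p L 0 μ) M / M ∂(P L) + ε / 2 / M) + D ^ 2 / M * K := by gcongr
    _ ≤ (∫⁻ μ, Gf p L 0 μ ∂(P L) + ε / 2) + ε / 2 := by
        rw [mul_add, ENNReal.mul_div_cancel hM0 hMt]
        refine add_le_add (add_le_add_left h4 _) (le_of_eq_of_le ?_ hMe)
        rw [div_eq_mul_inv, div_eq_mul_inv, mul_right_comm]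
    _ = _ := by rw [add_assoc, ENNReal.add_halves]

end Pool.Agent.Lib.MP_fe8b6f_pr
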