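import Pool.Agent.Lib.MP_fe8b6f_pr.UpB1
import Pool.Agent.Lib.MP_fe8b6f_pr.UpB2
import Pool.Agent.Lib.MP_fe8b6f_pr.UpC1
import Pool.Agent.Lib.MP_fe8b6f_pr.UpC2

/-! Abstract upper bound. -/

open MeasureTheory ProbabilityTheory
open scoped NNReal ENNReal

noncomputable section

namespace Pool.Agent.Lib.MP_fe8b6f_pr

variable {d : ℕ}

variable {X : Type} [MeasurableSpace X] {P : ℝ → Measure (Measure (E d))} {T : ℝ → Measure X}
  {m : ℝ → X → Measure (E d)}

theorem UFam.sub_error (hT : UFam P T m) {p : ℝ} (hdp : InRange d p) {ε : ℝ} (hε : 0 < ε) :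
    ∃ s0 : ℝ, ∀ (Λ : ℝ) (n : ℕ), 0 < Λ → 0 < n → s0 ≤ Λ / n →
      ∃ Err : Measure (E d) → ℝ≥0∞, Measurable Err ∧
        (∀ μ : Measure (E d), μ (cube 0 Λ) ≠ ⊤ → Wp p (avg μ 0 Λ n) (avg μ 0 Λ 1) ≤ Err μ) ∧
        ∫⁻ x, Err (m Λ x) ∂(T Λ) ≤ ENNReal.ofReal (ε * Λ ^ d) := by
  rcases hdp with ⟨hd, hp, hpd⟩ | ⟨hd, hp⟩
  · refine hT.sub_error_low hp ?_ hpd hε
    rcases hd with rfl | rfl <;> norm_num at hpd <;> linarith
  · rcases le_total 1 p with h | h
    · exact hT.sub_error_high h hd hε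
    · rcases eq_or_lt_of_le h with h1 | h1
      · exact hT.sub_error_high h1.ge hd hε
      · refine hT.sub_error_low hp h ?_ hε
        have : (5 : ℝ) ≤ d := by exact_mod_cast hd
        linarith

theorem upd1_cube_mono (c : E d) {L s : ℝ} (h : L ≤ s) : cube c L ⊆ cube c s :=
  fun _ hx i => ⟨(hx i).1, (hx i).2.trans_le (add_le_add_right h _)⟩

/-- measurable majorant of the cost of one cell -/
def upd1_H (p ε : ℝ) (C : ℝ≥0) (L s : ℝ) (c : E d) (μ : Measure (E d)) : ℝ≥0∞ :=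
  ENNReal.ofReal (1 + ε) * Gf p L 0 (loc c L μ) +
    C * (ENNReal.ofReal (√d * (s - L)) ^ p * μ (cube c L)) +
    ENNReal.ofReal (√d * s) ^ p * μ (cube c s \ cube c L)

theorem upd1_measurable_H {p : ℝ} (hp : 0 < p) (ε : ℝ) (C : ℝ≥0) {L : ℝ} (hL : 0 < L) (s : ℝ)
    (c : E d) : Measurable (upd1_H p ε C L s c) :=
  ((((measurable_Gf hp hL 0).comp (measurable_loc c L)).const_mul _).add
    (((Measure.measurable_coe (measurableSet_cube c L)).const_mul _).const_mul _)).add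
    ((Measure.measurable_coe ((measurableSet_cube c s).diff (measurableSet_cube c L))).const_mul _)

theorem upd1_cell {p ε : ℝ} {C : ℝ≥0} {L s : ℝ} (hLs : L ≤ s) (c : E d) {μ : Measure (E d)}
    (hμ : μ (cube c s) ≠ ⊤)
    (h : G p s 0 (loc c s μ) ≤ ENNReal.ofReal (1 + ε) * G p L 0 (loc c s μ) +
      C * (ENNReal.ofReal (√d * (s - L)) ^ p * loc c s μ (cube 0 L)) +
      ENNReal.ofReal (√d * s) ^ p * loc c s μ (cube 0 s \ cube 0 L)) :
    G p s 0 (loc c s μ) ≤ upd1_H p ε C L s c μ := by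
  have h0 : (loc c s μ).restrict (cube 0 L) = loc c L μ := by
    unfold loc
    rw [Measure.restrict_restrict (measurableSet_cube 0 L),
      Set.inter_eq_self_of_subset_left (upd1_cube_mono 0 hLs)]
  have h1 : G p L 0 (loc c s μ) = Gf p L 0 (loc c L μ) := by
    rw [← G_restrict, h0, Gf, if_neg]
    rw [loc_cube]
    exact ne_top_of_le_ne_top hμ (measure_mono (upd1_cube_mono c hLs))
  have h2 : loc c s μ (cube 0 L) = μ (cube c L) := by
    rw [← loc_cube c L μ, ← h0, Measure.restrict_apply_self]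
  have h3 : loc c s μ (cube 0 s \ cube 0 L) = μ (cube c s \ cube c L) := by
    have hm := (measurableSet_cube (0 : E d) s).diff (measurableSet_cube 0 L)
    unfold loc
    rw [Measure.restrict_apply hm, Set.inter_eq_self_of_subset_left Set.sdiff_subset,
      sh_apply c μ hm, Set.preimage_sdiff, preimage_sub_cube, preimage_sub_cube, add_zero]
  rw [h1, h2, h3] at h
  exact h

theorem upd1_mean_H (hT : UFam P T m) {p : ℝ} (hp : 0 < p) {ε a : ℝ} (hε : 0 < ε) (ha : 0 ≤ a)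
    (C : ℝ≥0) {L s Λ : ℝ} (hL : 0 < L) (hLs : L ≤ s) (hΛ : 0 < Λ) {c : E d}
    (hc : cube c s ⊆ cube 0 Λ)
    (hG : ∫⁻ x, Gf p L 0 (loc c L (m Λ x)) ∂(T Λ) ≤ ENNReal.ofReal (a * L ^ d))
    (he : C * ((√d * (s - L)) ^ p * L ^ d) + (√d * s) ^ p * (s ^ d - L ^ d) ≤ ε * L ^ d) :
    ∫⁻ x, upd1_H p ε C L s c (m Λ x) ∂(T Λ) ≤ ENNReal.ofReal (((1 + ε) * a + ε) * L ^ d) := by
  have hs : 0 < s := hL.trans_le hLs
  have hm := (measurableSet_cube c s).diff (measurableSet_cube c L)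
  have h1 : 0 ≤ √d * (s - L) := mul_nonneg (Real.sqrt_nonneg _) (sub_nonneg.2 hLs)
  have h2 : 0 ≤ √d * s := mul_nonneg (Real.sqrt_nonneg _) hs.le
  have h3 : L ^ d ≤ s ^ d := pow_le_pow_left₀ hL.le hLs d
  have h4 : 0 ≤ L ^ d := (pow_pos hL d).le
  have hC : (0 : ℝ) ≤ C := C.2
  have m1 : Measurable fun x => (C : ℝ≥0∞) *
      (ENNReal.ofReal (√d * (s - L)) ^ p * m Λ x (cube c L)) :=
    (((Measure.measurable_coe (measurableSet_cube c L)).comp (hT.meas Λ)).const_mul _).const_mul _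
  have m2 : Measurable fun x => ENNReal.ofReal (√d * s) ^ p * m Λ x (cube c s \ cube c L) :=
    ((Measure.measurable_coe hm).comp (hT.meas Λ)).const_mul _
  unfold upd1_H
  rw [lintegral_add_right _ m2, lintegral_add_right _ m1, ENNReal.ofReal_rpow_of_nonneg h1 hp.le,
    ENNReal.ofReal_rpow_of_nonneg h2 hp.le, lintegral_const_mul' _ _ ENNReal.ofReal_ne_top,
    lintegral_const_mul' _ _ ENNReal.coe_ne_top, lintegral_const_mul' _ _ ENNReal.ofReal_ne_top,
    lintegral_const_mul' _ _ ENNReal.ofReal_ne_top,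
    hT.mean Λ hΛ _ (measurableSet_cube c L) ((upd1_cube_mono c hLs).trans hc),
    hT.mean Λ hΛ _ hm (Set.sdiff_subset.trans hc),
    measure_sdiff (upd1_cube_mono c hLs) (measurableSet_cube c L).nullMeasurableSet
      (gbasa_vol_ne_top c hL), volume_cube c hL.le, volume_cube c hs.le,
    ← ENNReal.ofReal_sub _ h4, ← ENNReal.ofReal_coe_nnreal,
    ← ENNReal.ofReal_mul (Real.rpow_nonneg h1 p), ← ENNReal.ofReal_mul hC,
    ← ENNReal.ofReal_mul (Real.rpow_nonneg h2 p), add_assoc,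
    ← ENNReal.ofReal_add (mul_nonneg hC (mul_nonneg (Real.rpow_nonneg h1 p) h4))
      (mul_nonneg (Real.rpow_nonneg h2 p) (sub_nonneg.2 h3)), add_mul, mul_assoc (1 + ε),
    ENNReal.ofReal_add (p := (1 + ε) * (a * L ^ d)) (by positivity) (by positivity),
    ENNReal.ofReal_mul (p := 1 + ε) (by positivity)]
  exact add_le_add (mul_le_mul_right hG _) (ENNReal.ofReal_le_ofReal he)

theorem upd1_scale {L : ℝ} (hL : 0 < L) :
    Filter.Tendsto (fun Λ : ℝ => Λ / (⌊Λ / L⌋₊ : ℝ)) Filter.atTop (nhds L) := by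
  have h1 := (tendsto_nat_floor_div_atTop (R := ℝ)).comp (Filter.tendsto_id.atTop_div_const hL)
  have h2 := (tendsto_const_nhds (x := L)).div h1 one_ne_zero
  rw [div_one] at h2
  refine h2.congr fun Λ => ?_
  simp only [Pi.div_apply, Function.comp_apply, id]
  rw [div_div_eq_mul_div, mul_div_cancel₀ _ hL.ne']

theorem upd1_key (hP : Fam P) (hT : UFam P T m) {p : ℝ} (hdp : InRange d p) {b ε : ℝ}
    (hb : cInf p P < ENNReal.ofReal b) (hε : 0 < ε) :
    ∀ᶠ Λ in Filter.atTop,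
      uL p T m Λ ≤ ENNReal.ofReal ((1 + ε) * ((1 + ε) * (b + ε) + ε) + ε) := by
  have hp : 0 < p := hdp.elim (fun h => h.2.1) fun h => h.2
  have hb0 : 0 < b := ENNReal.ofReal_pos.1 (zero_le.trans_lt hb)
  obtain ⟨C1, hC1⟩ := G_sub (d := d) hp hε
  obtain ⟨C2, hC2⟩ := G_grow (d := d) hp hε
  have hC10 : (0 : ℝ) ≤ C1 := C1.2
  obtain ⟨s0, hs0⟩ := hT.sub_error hdp (ε := ε / (C1 + 1)) (by positivity)
  obtain ⟨L, hcL, hL0⟩ := ((Filter.frequently_lt_of_liminf_lt (by isBoundedDefault) hb).and_eventually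
    (Filter.eventually_ge_atTop (max 1 s0))).exists
  have hL1 : 1 ≤ L := (le_max_left _ _).trans hL0
  have hL : 0 < L := zero_lt_one.trans_le hL1
  have hLd : 0 < L ^ d := pow_pos hL d
  obtain ⟨Λ0, hΛ0⟩ := hT.local_Gf hP hp hL1 (ENNReal.ofReal_pos.2 (mul_pos hε hLd))
  have hGP : ∫⁻ μ, Gf p L 0 μ ∂(P L) ≤ ENNReal.ofReal (b * L ^ d) := by
    rw [ENNReal.ofReal_mul hb0.le]
    exact (ENNReal.div_le_iff (ENNReal.ofReal_pos.2 hLd).ne' ENNReal.ofReal_ne_top).1 hcL.le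
  have hcont : Continuous fun s : ℝ =>
      C2 * ((√d * (s - L)) ^ p * L ^ d) + (√d * s) ^ p * (s ^ d - L ^ d) := by
    have h1 := Real.continuous_rpow_const hp.le
    exact (continuous_const.mul ((h1.comp (continuous_const.mul
      (continuous_id.sub continuous_const))).mul continuous_const)).add
      ((h1.comp (continuous_const.mul continuous_id)).mul
        ((continuous_pow d).sub continuous_const))
  have hten := (hcont.tendsto L).comp (upd1_scale hL)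
  simp only [sub_self, mul_zero, Real.zero_rpow hp.ne', zero_mul, add_zero] at hten
  filter_upwards [hten.eventually (gt_mem_nhds (mul_pos hε hLd)), Filter.eventually_ge_atTop Λ0,
    Filter.eventually_ge_atTop L] with Λ he hΛ1 hΛ2
  have hΛ : 0 < Λ := hL.trans_le hΛ2
  have hΛd : 0 < Λ ^ d := pow_pos hΛ d
  have hn : 0 < ⌊Λ / L⌋₊ := Nat.floor_pos.2 ((one_le_div hL).2 hΛ2)
  have hn' : (0 : ℝ) < ⌊Λ / L⌋₊ := Nat.cast_pos.2 hn
  have hnL : (⌊Λ / L⌋₊ : ℝ) * L ≤ Λ := (le_div_iff₀ hL).1 (Nat.floor_le (div_pos hΛ hL).le)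
  simp only [Function.comp_apply] at he
  generalize ⌊Λ / L⌋₊ = n at he hn hn' hnL
  have hLs : L ≤ Λ / n := (le_div_iff₀ hn').2 ((mul_comm _ _).trans_le hnL)
  obtain ⟨Err, hE1, hE2, hE3⟩ := hs0 Λ n hΛ hn (((le_max_right _ _).trans hL0).trans hLs)
  have hsub : ∀ j : Fin d → Fin n, cube (gcorner 0 Λ n j) (Λ / n) ⊆ cube 0 Λ :=
    fun j => gc_subset 0 hΛ.le n j
  have hpath : ∀ μ : Measure (E d), μ (cube 0 Λ) ≠ ⊤ → Gf p Λ 0 μ ≤ ENNReal.ofReal (1 + ε) *
      ∑ j : Fin d → Fin n, upd1_H p ε C2 L (Λ / n) (gcorner 0 Λ n j) μ + C1 * Err μ := by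
    intro μ hμ
    rw [Gf, if_neg hμ]
    refine (hC1 Λ n 0 μ hΛ hn hμ).trans (add_le_add (mul_le_mul_right
      (Finset.sum_le_sum fun j _ => ?_) _) (mul_le_mul_right (hE2 μ hμ) _))
    have h1 : μ (cube (gcorner 0 Λ n j) (Λ / n)) ≠ ⊤ :=
      ne_top_of_le_ne_top hμ (measure_mono (hsub j))
    exact upd1_cell hLs _ h1 (hC2 L _ _ hL hLs (by rwa [loc_cube]))
  have hcell : ∀ j : Fin d → Fin n,
      ∫⁻ x, upd1_H p ε C2 L (Λ / n) (gcorner 0 Λ n j) (m Λ x) ∂(T Λ) ≤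
        ENNReal.ofReal (((1 + ε) * (b + ε) + ε) * L ^ d) := by
    intro j
    refine upd1_mean_H hT hp hε (by positivity) C2 hL hLs hΛ (hsub j) ?_ he.le
    rw [add_mul, ENNReal.ofReal_add (by positivity) (by positivity)]
    exact (hΛ0 Λ hΛ1 _ ((upd1_cube_mono _ hLs).trans (hsub j))).trans (add_le_add_left hGP _)
  have mE : Measurable fun x => (C1 : ℝ≥0∞) * Err (m Λ x) := (hE1.comp (hT.meas Λ)).const_mul _
  have mH : ∀ j : Fin d → Fin n,
      Measurable fun x => upd1_H p ε C2 L (Λ / n) (gcorner 0 Λ n j) (m Λ x) :=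
    fun j => (upd1_measurable_H hp ε C2 hL _ _).comp (hT.meas Λ)
  have h1 := lintegral_mono_ae ((hT.ae_fin hΛ).mono fun x hx => hpath (m Λ x) hx)
  rw [lintegral_add_right _ mE, lintegral_const_mul' _ _ ENNReal.ofReal_ne_top,
    lintegral_const_mul' _ _ ENNReal.coe_ne_top, lintegral_finsetSum _ fun j _ => mH j] at h1
  have h2 := h1.trans (add_le_add (mul_le_mul_right (Finset.sum_le_sum fun j _ => hcell j) _)
    (mul_le_mul_right hE3 _))
  rw [Finset.sum_const, Finset.card_univ, Fintype.card_fun, Fintype.card_fin, Fintype.card_fin,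
    nsmul_eq_mul, ← ENNReal.ofReal_natCast, ← ENNReal.ofReal_coe_nnreal,
    ← ENNReal.ofReal_mul (Nat.cast_nonneg _), ← ENNReal.ofReal_mul (by positivity),
    ← ENNReal.ofReal_mul hC10, ← ENNReal.ofReal_add (by positivity) (by positivity)] at h2
  unfold uL
  rw [ENNReal.div_le_iff (ENNReal.ofReal_pos.2 hΛd).ne' ENNReal.ofReal_ne_top,
    ← ENNReal.ofReal_mul (by positivity)]
  refine h2.trans (ENNReal.ofReal_le_ofReal ?_)
  have h3 : ((n ^ d : ℕ) : ℝ) * L ^ d ≤ Λ ^ d := by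
    rw [Nat.cast_pow, ← mul_pow]
    exact pow_le_pow_left₀ (by positivity) hnL d
  have h4 : (C1 : ℝ) * (ε / (C1 + 1) * Λ ^ d) ≤ ε * Λ ^ d := by
    have h5 : (C1 : ℝ) * (ε / (C1 + 1) * Λ ^ d) = C1 / (C1 + 1) * (ε * Λ ^ d) := by ring
    rw [h5]
    exact mul_le_of_le_one_left (by positivity) ((div_le_one (by positivity)).2 (by linarith))
  have h6 := mul_le_mul_of_nonneg_left h3
    (show 0 ≤ (1 + ε) * ((1 + ε) * (b + ε) + ε) by positivity)
  linarith

theorem main_upper (hP : Fam P) (hT : UFam P T m) {p : ℝ} (hdp : InRange d p) :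
    Filter.limsup (uL p T m) Filter.atTop ≤ cInf p P := by
  refine le_of_forall_gt_imp_ge_of_dense fun c hc => ?_
  obtain ⟨b, -, hb, hbc⟩ := ENNReal.lt_iff_exists_real_btwn.1 hc
  obtain ⟨b', -, hbb, hb'⟩ := ENNReal.lt_iff_exists_real_btwn.1 hbc
  have h1 : Continuous fun ε : ℝ => (1 + ε) * ((1 + ε) * (b + ε) + ε) + ε := by fun_prop
  have h2 := (h1.tendsto 0).mono_left (nhdsWithin_le_nhds (s := Set.Ioi 0))
  simp only [add_zero, one_mul] at h2
  obtain ⟨ε, h3, hε⟩ := ((h2.eventually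
    (gt_mem_nhds (ENNReal.ofReal_lt_ofReal_iff'.1 hbb).1)).and self_mem_nhdsWithin).exists
  refine Filter.limsup_le_of_le (by isBoundedDefault) ?_
  filter_upwards [upd1_key hP hT hdp hb hε] with Λ hΛ
  exact hΛ.trans ((ENNReal.ofReal_le_ofReal h3.le).trans hb'.le)

end Pool.Agent.Lib.MP_fe8b6f_pr
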