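import Pool.Agent.Lib.MP_fe8b6f_pr.Stmt

/-! Definitions for the Levy-Ciesielski construction of the Wiener measure. -/

open MeasureTheory ProbabilityTheory
open scoped NNReal ENNReal

noncomputable section

namespace Pool.Agent.Lib.MP_fe8b6f_pr

variable {d : ℕ}

/-- normalised ramp on the `k`-th dyadic interval of level `n` -/
def psi (n k : ℕ) (t : ℝ) : ℝ := √(2 ^ n) * max 0 (min (t - k / 2 ^ n) (1 / 2 ^ n))

/-- Schauder functions on the half-line -/
def sch : ℕ → ℕ → ℝ → ℝ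
  | 0, k, t => psi 0 k t
  | n + 1, k, t => (psi (n + 1) (2 * k) t - psi (n + 1) (2 * k + 1) t) / √2

/-- level `n` of the expansion -/
def lev (n : ℕ) (z : ℕ → ℝ) (t : ℝ) : ℝ := ∑ k ∈ Finset.range (⌈t⌉₊ * 2 ^ n), z k * sch n k t

/-- growth condition on the coefficients -/
def Slow (z : ℕ → ℕ → ℝ) : Prop :=
  ∃ n0 : ℕ, ∀ n, n0 ≤ n → ∀ k, k < n * 2 ^ n → |z n k| ≤ (13 / 10) ^ n

/-- independent standard Gaussians -/
def gm (ι : Type) : Measure (ι → ℝ) := Measure.infinitePi fun _ => gaussianReal 0 1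

end Pool.Agent.Lib.MP_fe8b6f_pr
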