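import Pool.Agent.Lib.MP_fe8b6f_pr.WE0

/-! Schauder functions. -/

open MeasureTheory ProbabilityTheory
open scoped NNReal ENNReal

noncomputable section

namespace Pool.Agent.Lib.MP_fe8b6f_pr

variable {d : ℕ}

theorem we1_continuous_psi (n k : ℕ) : Continuous (psi n k) := by
  unfold psi
  fun_prop

theorem we1_psi_zero {n k : ℕ} {t : ℝ} (h : t * 2 ^ n ≤ k) : psi n k t = 0 := by
  have h1 : t - k / 2 ^ n ≤ 0 := sub_nonpos.2 ((le_div_iff₀ (by positivity)).2 h)
  unfold psi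
  rw [max_eq_left ((min_le_left _ _).trans h1), mul_zero]

theorem we1_psi_full {n k : ℕ} {t : ℝ} (h : (k : ℝ) + 1 ≤ t * 2 ^ n) :
    psi n k t = √(2 ^ n) * (1 / 2 ^ n) := by
  have h1 : 1 / 2 ^ n ≤ t - k / 2 ^ n := by
    rw [le_sub_iff_add_le, ← add_div, div_le_iff₀ (by positivity)]
    linarith
  unfold psi
  rw [min_eq_right h1, max_eq_right (by positivity)]

theorem we1_psi_mem (n k : ℕ) (t : ℝ) : 0 ≤ psi n k t ∧ psi n k t ≤ √(2 ^ n) * (1 / 2 ^ n) :=
  ⟨mul_nonneg (Real.sqrt_nonneg _) (le_max_left _ _),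
    mul_le_mul_of_nonneg_left (max_le (by positivity) (min_le_right _ _)) (Real.sqrt_nonneg _)⟩

theorem we1_abs_sch_le (n k : ℕ) (t : ℝ) : |sch (n + 1) k t| ≤ (1 / √2) ^ n := by
  have h2 : (0 : ℝ) < √2 := by positivity
  have h3 : (√2 : ℝ) ^ n * √2 ^ n = 2 ^ n := by
    rw [← mul_pow, Real.mul_self_sqrt zero_le_two]
  have h4 : √((2 : ℝ) ^ (n + 1)) = √2 ^ n * √2 := by
    rw [pow_succ, Real.sqrt_mul (by positivity), ← h3, Real.sqrt_mul_self (by positivity)]
  obtain ⟨a1, a2⟩ := we1_psi_mem (n + 1) (2 * k) t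
  obtain ⟨b1, b2⟩ := we1_psi_mem (n + 1) (2 * k + 1) t
  have h5 : |psi (n + 1) (2 * k) t - psi (n + 1) (2 * k + 1) t| ≤
      √(2 ^ (n + 1)) * (1 / 2 ^ (n + 1)) := abs_le.2 ⟨by linarith, by linarith⟩
  change |(psi (n + 1) (2 * k) t - psi (n + 1) (2 * k + 1) t) / √2| ≤ _
  rw [abs_div, abs_of_pos h2, div_le_iff₀ h2]
  refine h5.trans ?_
  have h6 : (0 : ℝ) < √2 ^ n := pow_pos h2 n
  rw [h4, pow_succ (2 : ℝ), ← h3, one_div_pow]
  have h7 : √2 ^ n * √2 * (1 / (√2 ^ n * √2 ^ n * 2)) = 1 / √2 ^ n * √2 * (1 / 2) := by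
    field_simp
  rw [h7]
  exact mul_le_of_le_one_right (by positivity) (by norm_num)

theorem we1_sch_ne {n k : ℕ} {t : ℝ} (h : k ≠ ⌊t * 2 ^ n⌋₊) : sch (n + 1) k t = 0 := by
  change (psi (n + 1) (2 * k) t - psi (n + 1) (2 * k + 1) t) / √2 = 0
  have e : t * 2 ^ (n + 1) = 2 * (t * 2 ^ n) := by ring
  rcases le_or_gt (t * 2 ^ n) k with h1 | h1
  · rw [we1_psi_zero (by rw [e]; push_cast; linarith),
      we1_psi_zero (by rw [e]; push_cast; linarith), sub_self, zero_div]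
  · have h2 : (k : ℝ) + 1 ≤ t * 2 ^ n := by
      by_contra h2
      exact h ((Nat.floor_eq_iff ((Nat.cast_nonneg k).trans h1.le)).2 ⟨h1.le, not_le.1 h2⟩).symm
    rw [we1_psi_full (by rw [e]; push_cast; linarith),
      we1_psi_full (by rw [e]; push_cast; linarith), sub_self, zero_div]

theorem continuous_sch (n k : ℕ) : Continuous (sch n k) := by
  cases n with
  | zero => exact we1_continuous_psi 0 k
  | succ n => exact ((we1_continuous_psi _ _).sub (we1_continuous_psi _ _)).div_const _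

theorem sch_eq_zero {n k N : ℕ} {t : ℝ} (ht : t ≤ N) (hk : N * 2 ^ n ≤ k) : sch n k t = 0 := by
  have h1 : t * 2 ^ n ≤ k :=
    (mul_le_mul_of_nonneg_right ht (by positivity)).trans (by exact_mod_cast hk)
  have h0 : (0 : ℝ) ≤ k := Nat.cast_nonneg k
  cases n with
  | zero => exact we1_psi_zero h1
  | succ n =>
    change (psi (n + 1) (2 * k) t - psi (n + 1) (2 * k + 1) t) / √2 = 0
    rw [we1_psi_zero (by push_cast; linarith), we1_psi_zero (by push_cast; linarith), sub_self,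
      zero_div]

theorem lev_eq (n : ℕ) (z : ℕ → ℝ) {N : ℕ} {t : ℝ} (ht : t ≤ N) :
    lev n z t = ∑ k ∈ Finset.range (N * 2 ^ n), z k * sch n k t := by
  refine Finset.sum_subset (Finset.range_subset_range.2
    (Nat.mul_le_mul_right _ (Nat.ceil_le.2 ht))) fun k _ hk => ?_
  rw [sch_eq_zero (Nat.le_ceil t) (not_lt.1 fun e => hk (Finset.mem_range.2 e)), mul_zero]

theorem continuous_lev (n : ℕ) (z : ℕ → ℝ) : Continuous (lev n z) := by
  refine continuous_iff_continuousAt.2 fun t => ?_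
  obtain ⟨N, hN⟩ := exists_nat_gt t
  have h1 : Continuous fun s => ∑ k ∈ Finset.range (N * 2 ^ n), z k * sch n k s :=
    continuous_finsetSum _ fun k _ => continuous_const.mul (continuous_sch n k)
  exact h1.continuousAt.congr ((gt_mem_nhds hN).mono fun s hs => (lev_eq n z hs.le).symm)

/-- at most one function of level `n + 1` is nonzero at `t` -/
theorem sum_abs_sch_le (n K : ℕ) (t : ℝ) :
    ∑ k ∈ Finset.range K, |sch (n + 1) k t| ≤ (1 / √2) ^ n := by
  have h1 : ∀ k ∈ Finset.range K, |sch (n + 1) k t| ≤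
      if k = ⌊t * 2 ^ n⌋₊ then (1 / √2) ^ n else 0 := by
    intro k _
    split_ifs with h
    · exact we1_abs_sch_le n k t
    · rw [we1_sch_ne h, abs_zero]
  refine (Finset.sum_le_sum h1).trans ?_
  rw [Finset.sum_ite_eq']
  split_ifs
  · exact le_rfl
  · positivity

end Pool.Agent.Lib.MP_fe8b6f_pr
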