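import Pool.Agent.Lib.MP_fe8b6f_pr.WE1

/-! The covariance of the Schauder expansion. -/

open MeasureTheory ProbabilityTheory
open scoped NNReal ENNReal

noncomputable section

namespace Pool.Agent.Lib.MP_fe8b6f_pr

variable {d : ℕ}

theorem we2_clamp_add (u h : ℝ) (hh : 0 ≤ h) :
    max 0 (min u (2 * h)) = max 0 (min u h) + max 0 (min (u - h) h) := by
  simp only [max_def, min_def]
  split_ifs <;> linarith

theorem we2_psi_split (n k : ℕ) (t : ℝ) :
    psi n k t = (psi (n + 1) (2 * k) t + psi (n + 1) (2 * k + 1) t) / √2 := by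
  have h2 : (0 : ℝ) < √2 := Real.sqrt_pos.mpr (by norm_num)
  have hp : (0 : ℝ) < 2 ^ n := by positivity
  have hs : √((2 : ℝ) ^ (n + 1)) = √(2 ^ n) * √2 := by
    rw [pow_succ, Real.sqrt_mul hp.le]
  have e1 : ((2 * k : ℕ) : ℝ) / 2 ^ (n + 1) = k / 2 ^ n := by
    push_cast; field_simp; ring
  have e2 : t - ((2 * k + 1 : ℕ) : ℝ) / 2 ^ (n + 1) = t - k / 2 ^ n - 1 / 2 ^ (n + 1) := by
    push_cast; field_simp; ring
  have e3 : (1 : ℝ) / 2 ^ n = 2 * (1 / 2 ^ (n + 1)) := by
    field_simp; ring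
  unfold psi
  rw [hs, e1, e2, e3, we2_clamp_add _ _ (by positivity)]
  field_simp

theorem we2_psi_zero {n k N : ℕ} {t : ℝ} (ht : t ≤ N) (hk : N * 2 ^ n ≤ k) : psi n k t = 0 := by
  have hp : (0 : ℝ) < 2 ^ n := by positivity
  have h1 : (N : ℝ) ≤ k / 2 ^ n := by
    rw [le_div_iff₀ hp]; exact_mod_cast hk
  unfold psi
  rw [max_eq_left, mul_zero]
  exact (min_le_left _ _).trans (by linarith)

theorem we2_sum_two_mul (f : ℕ → ℝ) (K : ℕ) :
    ∑ k ∈ Finset.range (2 * K), f k = ∑ k ∈ Finset.range K, (f (2 * k) + f (2 * k + 1)) := by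
  induction K with
  | zero => simp
  | succ K ih =>
    rw [show 2 * (K + 1) = 2 * K + 1 + 1 by ring, Finset.sum_range_succ, Finset.sum_range_succ,
      ih, Finset.sum_range_succ]
    ring

theorem sum_sch_eq (M N : ℕ) {s t : ℝ} (hs : s ≤ N) (ht : t ≤ N) :
    ∑ n ∈ Finset.range (M + 1), ∑ k ∈ Finset.range (N * 2 ^ n), sch n k s * sch n k t =
      ∑ k ∈ Finset.range (N * 2 ^ M), psi M k s * psi M k t := by
  induction M with
  | zero => simp [sch]
  | succ M ih =>
    rw [Finset.sum_range_succ, ih]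
    have h1 : ∑ k ∈ Finset.range (N * 2 ^ (M + 1)), sch (M + 1) k s * sch (M + 1) k t =
        ∑ k ∈ Finset.range (N * 2 ^ M), sch (M + 1) k s * sch (M + 1) k t := by
      symm
      apply Finset.sum_subset
      · apply Finset.range_subset_range.mpr
        rw [pow_succ]; nlinarith [Nat.zero_le (N * 2 ^ M)]
      · intro k _ hk
        have hk' : N * 2 ^ M ≤ k := by simpa using hk
        have a1 : psi (M + 1) (2 * k) s = 0 :=
          we2_psi_zero hs (by rw [pow_succ]; nlinarith)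
        have a2 : psi (M + 1) (2 * k + 1) s = 0 :=
          we2_psi_zero hs (by rw [pow_succ]; nlinarith)
        simp [sch, a1, a2]
    rw [h1, show N * 2 ^ (M + 1) = 2 * (N * 2 ^ M) by ring, we2_sum_two_mul,
      ← Finset.sum_add_distrib]
    refine Finset.sum_congr rfl fun k _ => ?_
    have h2 : (√2 : ℝ) * √2 = 2 := Real.mul_self_sqrt (by norm_num)
    rw [we2_psi_split M k s, we2_psi_split M k t]
    simp only [sch]
    rw [div_mul_div_comm, div_mul_div_comm, h2]
    ring

theorem we2_sum_clamp (h : ℝ) (hh : 0 ≤ h) {s : ℝ} (hs : 0 ≤ s) (K : ℕ) :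
    ∑ k ∈ Finset.range K, max 0 (min (s - k * h) h) = min s (K * h) := by
  induction K with
  | zero => simp [hs]
  | succ K ih =>
    rw [Finset.sum_range_succ, ih]
    push_cast
    rw [add_mul, one_mul]
    simp only [max_def, min_def]
    split_ifs <;> linarith

theorem we2_err (h : ℝ) (hh : 0 < h) {s t : ℝ} (hst : s ≤ t) (K : ℕ) :
    0 ≤ ∑ k ∈ Finset.range K, max 0 (min (s - k * h) h) * (h - max 0 (min (t - k * h) h)) ∧
    ∑ k ∈ Finset.range K, max 0 (min (s - k * h) h) * (h - max 0 (min (t - k * h) h)) ≤ h * h ∧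
    (K * h ≤ s →
      ∑ k ∈ Finset.range K, max 0 (min (s - k * h) h) * (h - max 0 (min (t - k * h) h)) = 0) := by
  induction K with
  | zero => simp; positivity
  | succ K ih =>
    obtain ⟨h0, h1, h2⟩ := ih
    rw [Finset.sum_range_succ]
    have b0 : 0 ≤ max 0 (min (s - K * h) h) := le_max_left _ _
    have b1 : max 0 (min (s - K * h) h) ≤ h := max_le hh.le (min_le_right _ _)
    have c0 : 0 ≤ max 0 (min (t - K * h) h) := le_max_left _ _
    have c1 : max 0 (min (t - K * h) h) ≤ h := max_le hh.le (min_le_right _ _)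
    have p0 : 0 ≤ max 0 (min (s - K * h) h) * (h - max 0 (min (t - K * h) h)) :=
      mul_nonneg b0 (by linarith)
    refine ⟨by linarith, ?_, ?_⟩
    · by_cases hK : K * h ≤ s
      · rw [h2 hK, zero_add]
        exact mul_le_mul b1 (by linarith) (by linarith) hh.le
      · have : max 0 (min (s - K * h) h) = 0 :=
          max_eq_left ((min_le_left _ _).trans (by linarith [not_le.mp hK]))
        rw [this, zero_mul, add_zero]
        exact h1
    · intro hK
      push_cast at hK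
      rw [add_mul, one_mul] at hK
      have : max 0 (min (t - K * h) h) = h := by
        rw [min_eq_right (by linarith), max_eq_right hh.le]
      rw [h2 (by linarith), this]
      ring

theorem we2_bound (M N : ℕ) {s t : ℝ} (hs0 : 0 ≤ s) (hst : s ≤ t) (hs : s ≤ N) :
    |∑ k ∈ Finset.range (N * 2 ^ M), psi M k s * psi M k t - s| ≤ 1 / 2 ^ M := by
  have hp : (0 : ℝ) < 2 ^ M := by positivity
  set h : ℝ := 1 / 2 ^ M with hh
  have hh0 : 0 < h := by positivity
  have hm : 2 ^ M * h = 1 := by rw [hh]; field_simp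
  obtain ⟨e0, e1, -⟩ := we2_err h hh0 hst (N * 2 ^ M)
  have e2 := we2_sum_clamp h hh0.le hs0 (N * 2 ^ M)
  have e3 : ((N * 2 ^ M : ℕ) : ℝ) * h = N := by
    push_cast; rw [mul_assoc, hm, mul_one]
  rw [e3, min_eq_left hs] at e2
  have e4 : ∑ k ∈ Finset.range (N * 2 ^ M), psi M k s * psi M k t - s =
      -(2 ^ M * ∑ k ∈ Finset.range (N * 2 ^ M),
        max 0 (min (s - k * h) h) * (h - max 0 (min (t - k * h) h))) := by
    have e5 : ∀ k : ℕ, psi M k s * psi M k t - max 0 (min (s - k * h) h) =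
        -(2 ^ M * (max 0 (min (s - k * h) h) * (h - max 0 (min (t - k * h) h)))) := by
      intro k
      have q : (k : ℝ) / 2 ^ M = k * h := by rw [hh]; ring
      have r : √((2 : ℝ) ^ M) * √(2 ^ M) = 2 ^ M := Real.mul_self_sqrt hp.le
      unfold psi
      rw [q, ← hh, mul_mul_mul_comm, r]
      linear_combination (max 0 (min (s - k * h) h)) * hm
    rw [Finset.mul_sum, ← Finset.sum_neg_distrib, ← Finset.sum_congr rfl fun k _ => e5 k,
      Finset.sum_sub_distrib, e2]
  rw [e4, abs_neg, abs_of_nonneg (mul_nonneg hp.le e0)]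
  calc _ ≤ 2 ^ M * (h * h) := mul_le_mul_of_nonneg_left e1 hp.le
    _ = h := by rw [← mul_assoc, hm, one_mul]

theorem abs_sum_psi_sub_le (M N : ℕ) {s t : ℝ} (hs0 : 0 ≤ s) (ht0 : 0 ≤ t) (hs : s ≤ N)
    (ht : t ≤ N) :
    |∑ k ∈ Finset.range (N * 2 ^ M), psi M k s * psi M k t - min s t| ≤ 1 / 2 ^ M := by
  rcases le_total s t with h | h
  · rw [min_eq_left h]; exact we2_bound M N hs0 h hs
  · rw [min_eq_right h]
    have := we2_bound M N ht0 h ht
    simpa only [mul_comm (psi M _ t)] using this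

theorem tendsto_sum_sch (N : ℕ) {s t : ℝ} (hs0 : 0 ≤ s) (ht0 : 0 ≤ t) (hs : s ≤ N)
    (ht : t ≤ N) :
    Filter.Tendsto (fun M => ∑ n ∈ Finset.range M, ∑ k ∈ Finset.range (N * 2 ^ n),
      sch n k s * sch n k t) Filter.atTop (nhds (min s t)) := by
  rw [← Filter.tendsto_add_atTop_iff_nat 1]
  simp only [sum_sch_eq _ N hs ht]
  rw [tendsto_iff_dist_tendsto_zero]
  have hl : Filter.Tendsto (fun M : ℕ => (1 / 2 : ℝ) ^ M) Filter.atTop (nhds 0) :=
    tendsto_pow_atTop_nhds_zero_of_lt_one (by norm_num) (by norm_num)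
  refine squeeze_zero (fun _ => dist_nonneg) (fun M => ?_) hl
  rw [Real.dist_eq, one_div_pow]
  exact abs_sum_psi_sub_le M N hs0 ht0 hs ht

end Pool.Agent.Lib.MP_fe8b6f_pr
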