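import Pool.Agent.Lib.MP_fe8b6f_pr.WE0

/-! Gaussian facts. -/

open MeasureTheory ProbabilityTheory
open scoped NNReal ENNReal

noncomputable section

namespace Pool.Agent.Lib.MP_fe8b6f_pr

variable {d : ℕ}

theorem isProbabilityMeasure_gm (ι : Type) : IsProbabilityMeasure (gm ι) := by
  unfold gm
  infer_instance

theorem wE3_map_eval {ι : Type} (i : ι) : (gm ι).map (fun ω => ω i) = gaussianReal 0 1 :=
  Measure.infinitePi_map_eval (fun _ : ι => gaussianReal 0 1) i

theorem wE3_charFun (v : ℝ≥0) (t : ℝ) :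
    charFun (gaussianReal 0 v) t = Complex.exp (-(((v : ℝ) * t ^ 2 / 2 : ℝ) : ℂ)) := by
  rw [charFun_gaussianReal]
  congr 1
  push_cast
  ring

theorem gm_map_sum {ι : Type} (s : Finset ι) (c : ι → ℝ) :
    (gm ι).map (fun ω => ∑ i ∈ s, c i * ω i) = gaussianReal 0 (∑ i ∈ s, c i ^ 2).toNNReal := by
  have := isProbabilityMeasure_gm ι
  have hind : iIndepFun (fun (i : ι) (ω : ι → ℝ) => c i * ω i) (gm ι) :=
    iIndepFun_infinitePi (P := fun _ : ι => gaussianReal 0 1) (X := fun i x => c i * x)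
      (fun i => by fun_prop)
  have hmap : ∀ i, (gm ι).map (fun ω => c i * ω i) =
      gaussianReal 0 (NNReal.mk (c i ^ 2) (sq_nonneg _)) := by
    intro i
    have h1 : (fun ω : ι → ℝ => c i * ω i) = (fun x => c i * x) ∘ fun ω => ω i := rfl
    rw [h1, ← Measure.map_map (by fun_prop) (by fun_prop), wE3_map_eval,
      gaussianReal_map_const_mul]
    simp
  have hmeas : ∀ i, Measurable fun ω : ι → ℝ => c i * ω i := fun i => by fun_prop
  refine Measure.ext_of_charFun ?_
  rw [(hind.restrict s).charFun_map_fun_finsetSum_eq_prod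
    (fun i _ => (hmeas i).aemeasurable)]
  funext t
  rw [Finset.prod_apply, wE3_charFun,
    Real.coe_toNNReal _ (Finset.sum_nonneg fun i _ => sq_nonneg _)]
  simp_rw [hmap, wE3_charFun]
  rw [← Complex.exp_sum]
  congr 1
  simp only [NNReal.coe_mk]
  push_cast
  rw [Finset.sum_mul, Finset.sum_div, Finset.sum_neg_distrib]

/-- almost sure limits of centred Gaussians (characteristic functions) -/
theorem map_eq_gaussian_of_tendsto {Ω : Type} [MeasurableSpace Ω] {μ : Measure Ω}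
    [IsProbabilityMeasure μ] {X : ℕ → Ω → ℝ} {Y : Ω → ℝ} (hX : ∀ n, Measurable (X n))
    (hY : Measurable Y) {v : ℕ → ℝ} {v0 : ℝ}
    (hlaw : ∀ n, μ.map (X n) = gaussianReal 0 (v n).toNNReal)
    (hv : Filter.Tendsto v Filter.atTop (nhds v0))
    (hlim : ∀ᵐ ω ∂μ, Filter.Tendsto (fun n => X n ω) Filter.atTop (nhds (Y ω))) :
    μ.map Y = gaussianReal 0 v0.toNNReal := by
  refine Measure.ext_of_charFun (funext fun t => ?_)
  have hc : Continuous fun x : ℝ => Complex.exp (t * x * Complex.I) := by fun_prop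
  have hZ : ∀ Z : Ω → ℝ, Measurable Z →
      charFun (μ.map Z) t = ∫ ω, Complex.exp (t * Z ω * Complex.I) ∂μ := by
    intro Z hZ
    rw [charFun_apply_real, integral_map hZ.aemeasurable hc.aestronglyMeasurable]
  have h1 : Filter.Tendsto (fun n => charFun (μ.map (X n)) t) Filter.atTop
      (nhds (charFun (μ.map Y) t)) := by
    simp_rw [fun n => hZ _ (hX n), hZ _ hY]
    refine tendsto_integral_of_dominated_convergence (fun _ => 1)
      (fun n => (hc.measurable.comp (hX n)).aestronglyMeasurable) (integrable_const _)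
      (fun n => Filter.Eventually.of_forall fun ω => ?_) ?_
    · rw [← Complex.ofReal_mul, Complex.norm_exp_ofReal_mul_I]
    · filter_upwards [hlim] with ω hω
      exact (hc.tendsto _).comp hω
  have h2 : Filter.Tendsto (fun n => charFun (μ.map (X n)) t) Filter.atTop
      (nhds (charFun (gaussianReal 0 v0.toNNReal) t)) := by
    simp_rw [hlaw, wE3_charFun]
    have hc2 : Continuous fun u : ℝ =>
        Complex.exp (-((((u.toNNReal : ℝ≥0) : ℝ) * t ^ 2 / 2 : ℝ) : ℂ)) := by
      have : Continuous fun u : ℝ => ((u.toNNReal : ℝ≥0) : ℝ) :=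
        NNReal.continuous_coe.comp continuous_real_toNNReal
      fun_prop
    exact (hc2.tendsto _).comp hv
  exact tendsto_nhds_unique h1 h2

theorem wE3_tail : ∃ m : ℝ≥0∞, m ≠ ⊤ ∧ ∀ a : ℝ, 0 < a →
    gaussianReal 0 1 {x : ℝ | a < |x|} ≤ m * ENNReal.ofReal ((a ^ 4)⁻¹) := by
  have hint : Integrable (fun x : ℝ => ‖x‖ ^ 4) (gaussianReal 0 1) :=
    MemLp.integrable_norm_pow' (f := id) (p := 4) (by
      simpa using memLp_id_gaussianReal (μ := 0) (v := 1) 4)
  refine ⟨∫⁻ x, ENNReal.ofReal (‖x‖ ^ 4) ∂(gaussianReal 0 1), hint.lintegral_lt_top.ne,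
    fun a ha => ?_⟩
  have ha4 : 0 < a ^ 4 := by positivity
  have hm : Measurable fun x : ℝ => ENNReal.ofReal (‖x‖ ^ 4) := by fun_prop
  have h := meas_ge_le_lintegral_div (μ := gaussianReal 0 1) hm.aemeasurable
    (ε := ENNReal.ofReal (a ^ 4)) (by simpa using ha4) ENNReal.ofReal_ne_top
  rw [ENNReal.ofReal_inv_of_pos ha4, ← div_eq_mul_inv]
  refine le_trans (measure_mono fun x hx => ?_) h
  refine ENNReal.ofReal_le_ofReal ?_
  exact pow_le_pow_left₀ ha.le (le_of_lt hx) 4

/-- Borel-Cantelli with the fourth moment -/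
theorem ae_slow :
    ∀ᵐ ω ∂(gm (Fin d × ℕ × ℕ)), ∀ i : Fin d, Slow fun n k => ω (i, n, k) := by
  obtain ⟨m, hm, htail⟩ := wE3_tail
  rw [ae_all_iff]
  intro i
  set s : ℕ → Set (Fin d × ℕ × ℕ → ℝ) := fun n =>
    ⋃ k ∈ Finset.range (n * 2 ^ n), {ω | ((13 : ℝ) / 10) ^ n < |ω (i, n, k)|} with hs
  have hone : ∀ n k : ℕ, gm (Fin d × ℕ × ℕ) {ω | ((13 : ℝ) / 10) ^ n < |ω (i, n, k)|} ≤
      m * ENNReal.ofReal (((((13 : ℝ) / 10) ^ n) ^ 4)⁻¹) := by
    intro n k
    have h := htail (((13 : ℝ) / 10) ^ n) (by positivity)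
    rw [← wE3_map_eval (i, n, k), Measure.map_apply (by fun_prop)
      (measurableSet_lt measurable_const (by fun_prop))] at h
    exact h
  have hle : ∀ n, gm (Fin d × ℕ × ℕ) (s n) ≤
      m * ENNReal.ofReal ((n : ℝ) ^ 1 * (20000 / 28561) ^ n) := by
    intro n
    refine (measure_biUnion_finset_le _ _).trans ?_
    refine (Finset.sum_le_sum fun k _ => hone n k).trans ?_
    rw [Finset.sum_const, Finset.card_range, nsmul_eq_mul, mul_left_comm,
      ← ENNReal.ofReal_natCast, ← ENNReal.ofReal_mul (by positivity)]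
    refine le_of_eq ?_
    congr 2
    push_cast
    rw [pow_one, mul_assoc, ← pow_mul, mul_comm n 4, pow_mul, ← inv_pow, ← mul_pow]
    norm_num
  have hsum : Summable fun n : ℕ => (n : ℝ) ^ 1 * ((20000 : ℝ) / 28561) ^ n :=
    summable_pow_mul_geometric_of_norm_lt_one 1 (by
      rw [Real.norm_eq_abs, abs_of_pos (by norm_num)]
      norm_num)
  have hfin : ∑' n, gm (Fin d × ℕ × ℕ) (s n) ≠ ⊤ := by
    refine ne_top_of_le_ne_top ?_ (ENNReal.tsum_le_tsum hle)
    rw [ENNReal.tsum_mul_left]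
    exact ENNReal.mul_ne_top hm hsum.tsum_ofReal_ne_top
  filter_upwards [ae_eventually_notMem hfin] with ω hω
  obtain ⟨n0, hn0⟩ := Filter.eventually_atTop.1 hω
  refine ⟨n0, fun n hn k hk => ?_⟩
  by_contra hcon
  exact hn0 n hn (Set.mem_biUnion (Finset.mem_coe.2 (Finset.mem_range.2 hk)) (not_le.1 hcon))

end Pool.Agent.Lib.MP_fe8b6f_pr
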