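import Pool.Agent.Lib.MP_fe8b6f_pr.WE1
import Pool.Agent.Lib.MP_fe8b6f_pr.BMa1

/-! The random path. -/

open MeasureTheory ProbabilityTheory
open scoped NNReal ENNReal

noncomputable section

namespace Pool.Agent.Lib.MP_fe8b6f_pr

variable {d : ℕ}

theorem we4_sqrt : (13 / 10 : ℝ) < √2 := Real.lt_sqrt_of_sq_lt (by norm_num)

theorem we4_summable : Summable fun n : ℕ => √2 * (13 / 10 * (1 / √2) : ℝ) ^ n := by
  have h := we4_sqrt
  refine (summable_geometric_of_lt_one (by positivity) ?_).mul_left _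
  rw [mul_one_div, div_lt_one (by positivity)]
  exact h

theorem we4_bound {z : ℕ → ℕ → ℝ} (hz : Slow z) (N : ℕ) :
    ∀ᶠ n in Filter.atTop, ∀ t ∈ Set.Iio (N : ℝ),
      ‖lev n (z n) t‖ ≤ √2 * (13 / 10 * (1 / √2) : ℝ) ^ n := by
  obtain ⟨n0, hn0⟩ := hz
  filter_upwards [Filter.eventually_ge_atTop n0, Filter.eventually_ge_atTop (N + 1)] with
    n h0 h1 t ht
  obtain ⟨m, rfl⟩ : ∃ m, n = m + 1 := ⟨n - 1, by omega⟩
  have hs : (0 : ℝ) < √2 := by positivity
  rw [Real.norm_eq_abs, lev_eq (m + 1) _ (le_of_lt ht)]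
  refine (Finset.abs_sum_le_sum_abs _ _).trans ?_
  have h2 : ∀ k ∈ Finset.range (N * 2 ^ (m + 1)),
      |z (m + 1) k * sch (m + 1) k t| ≤ (13 / 10) ^ (m + 1) * |sch (m + 1) k t| := by
    intro k hk
    rw [abs_mul]
    refine mul_le_mul_of_nonneg_right (hn0 _ h0 k ?_) (abs_nonneg _)
    exact (Finset.mem_range.1 hk).trans_le (Nat.mul_le_mul_right _ (by omega))
  refine (Finset.sum_le_sum h2).trans ?_
  rw [← Finset.mul_sum]
  refine (mul_le_mul_of_nonneg_left (sum_abs_sch_le m _ t) (by positivity)).trans (le_of_eq ?_)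
  rw [mul_pow, pow_succ (1 / √2)]
  field_simp

theorem Slow.summable {z : ℕ → ℕ → ℝ} (hz : Slow z) (t : ℝ) :
    Summable fun n => lev n (z n) t := by
  obtain ⟨N, hN⟩ := exists_nat_gt t
  refine Summable.of_norm_bounded_eventually_nat we4_summable ?_
  filter_upwards [we4_bound hz N] with n hn using hn t hN

theorem Slow.continuous {z : ℕ → ℕ → ℝ} (hz : Slow z) :
    Continuous fun t : ℝ => ∑' n, lev n (z n) t := by
  rw [continuous_iff_continuousAt]
  intro t
  obtain ⟨N, hN⟩ := exists_nat_gt t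
  have h1 := tendstoUniformlyOn_tsum_of_cofinite_eventually (f := fun n t => lev n (z n) t)
    we4_summable (s := Set.Iio (N : ℝ)) (by rw [Nat.cofinite_eq_atTop]; exact we4_bound hz N)
  have h2 := h1.continuousOn (Filter.Frequently.of_forall fun s =>
    continuousOn_finsetSum s fun n _ => (continuous_lev n (z n)).continuousOn)
  exact h2.continuousAt (Iio_mem_nhds hN)

theorem we4_good : MeasurableSet
    {ω : Fin d × ℕ × ℕ → ℝ | ∀ i : Fin d, Slow fun n k => ω (i, n, k)} := by
  unfold Slow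
  simp only [Set.ofPred_forall, Set.ofPred_exists]
  refine MeasurableSet.iInter fun i => MeasurableSet.iUnion fun n0 =>
    MeasurableSet.iInter fun n => MeasurableSet.iInter fun _ => MeasurableSet.iInter fun k =>
      MeasurableSet.iInter fun _ => ?_
  exact measurableSet_le (measurable_pi_apply _).abs measurable_const

/-- the path attached to slowly growing coefficients -/
def we4_path (ω : Fin d × ℕ × ℕ → ℝ) (h : ∀ i : Fin d, Slow fun n k => ω (i, n, k)) : Path d :=
  ⟨fun t => WithLp.toLp 2 fun i => ∑' n, lev n (fun k => ω (i, n, k)) t,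
    (PiLp.continuous_toLp 2 _).comp
      (continuous_pi fun i => (h i).continuous.comp NNReal.continuous_coe)⟩

theorem exists_wpath : ∃ B : (Fin d × ℕ × ℕ → ℝ) → Path d, Measurable B ∧
    ∀ ω, (∀ i : Fin d, Slow fun n k => ω (i, n, k)) → ∀ (t : ℝ≥0) (i : Fin d),
      B ω t i = ∑' n, lev n (fun k => ω (i, n, k)) t := by
  classical
  refine ⟨fun ω => if h : ∀ i : Fin d, Slow fun n k => ω (i, n, k) then we4_path ω h else 0,
    ?_, fun ω h t i => ?_⟩
  · rw [measurable_path_iff]
    intro t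
    have h1 : Measurable fun ω : Fin d × ℕ × ℕ → ℝ =>
        (WithLp.toLp 2 fun i => ∑' n, lev n (fun k => ω (i, n, k)) t : E d) := by
      refine (WithLp.measurable_toLp 2 _).comp (measurable_pi_lambda _ fun i => ?_)
      refine Measurable.tsum fun n => ?_
      unfold lev
      exact Finset.measurable_sum _ fun k _ => (measurable_pi_apply _).mul_const _
    have h2 : Measurable fun ω : Fin d × ℕ × ℕ → ℝ =>
        if ∀ i : Fin d, Slow fun n k => ω (i, n, k) then
          (WithLp.toLp 2 fun i => ∑' n, lev n (fun k => ω (i, n, k)) t : E d) else 0 :=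
      Measurable.ite (we4_good (d := d)) h1 measurable_const
    convert h2 using 2 with ω
    split_ifs with h
    · rfl
    · rfl
  · simp only [dif_pos h]
    rfl

end Pool.Agent.Lib.MP_fe8b6f_pr
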