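import Pool.Agent.Lib.MP_fe8b6f_pr.WE2
import Pool.Agent.Lib.MP_fe8b6f_pr.WE3
import Pool.Agent.Lib.MP_fe8b6f_pr.WE4

/-! Linear functionals of the random path are Gaussian. -/

open MeasureTheory ProbabilityTheory
open scoped NNReal ENNReal

noncomputable section

namespace Pool.Agent.Lib.MP_fe8b6f_pr

variable {d : ℕ}

/-- index set of the truncated expansion -/
def we5_idx (d N M : ℕ) : Finset (Fin d × ℕ × ℕ) :=
  Finset.univ ×ˢ ((Finset.range M ×ˢ Finset.range (N * 2 ^ M)).filter fun q => q.2 < N * 2 ^ q.1)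

theorem we5_sum_idx (N M : ℕ) (f : Fin d × ℕ × ℕ → ℝ) :
    ∑ x ∈ we5_idx d N M, f x =
      ∑ i : Fin d, ∑ n ∈ Finset.range M, ∑ k ∈ Finset.range (N * 2 ^ n), f (i, n, k) := by
  rw [we5_idx, Finset.sum_product]
  refine Finset.sum_congr rfl fun i _ => ?_
  rw [Finset.sum_filter, Finset.sum_product]
  refine Finset.sum_congr rfl fun n hn => ?_
  rw [← Finset.sum_filter]
  refine Finset.sum_congr ?_ fun _ _ => rfl
  ext k
  simp only [Finset.mem_filter, Finset.mem_range]
  refine ⟨fun h => h.2, fun h => ⟨h.trans_le ?_, h⟩⟩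
  exact Nat.mul_le_mul_left N
    (Nat.pow_le_pow_right two_pos (Finset.mem_range.1 hn).le)

/-- coefficients of the linear functional -/
def we5_c {J : Type} [Fintype J] (a : J → ℝ) (t : J → ℝ≥0) (i : J → Fin d)
    (x : Fin d × ℕ × ℕ) : ℝ :=
  ∑ j, if i j = x.1 then a j * sch x.2.1 x.2.2 (t j) else 0

theorem we5_lin {J : Type} [Fintype J] (a : J → ℝ) (t : J → ℝ≥0) (i : J → Fin d) {N : ℕ}
    (hN : ∀ j, (t j : ℝ) ≤ N) (M : ℕ) (ω : Fin d × ℕ × ℕ → ℝ) :
    ∑ x ∈ we5_idx d N M, we5_c a t i x * ω x =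
      ∑ j, a j * ∑ n ∈ Finset.range M, lev n (fun k => ω (i j, n, k)) (t j) := by
  rw [we5_sum_idx]
  simp only [we5_c, Finset.sum_mul, lev_eq _ _ (hN _), Finset.mul_sum]
  have h1 : ∀ i0 : Fin d, ∑ n ∈ Finset.range M, ∑ k ∈ Finset.range (N * 2 ^ n), ∑ j,
      (if i j = i0 then a j * sch n k (t j) else 0) * ω (i0, n, k) =
      ∑ j, ∑ n ∈ Finset.range M, ∑ k ∈ Finset.range (N * 2 ^ n),
        (if i j = i0 then a j * sch n k (t j) else 0) * ω (i0, n, k) := by
    intro i0
    rw [Finset.sum_comm (s := Finset.univ)]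
    refine Finset.sum_congr rfl fun n _ => ?_
    rw [Finset.sum_comm]
  rw [Finset.sum_congr rfl fun i0 _ => h1 i0, Finset.sum_comm]
  refine Finset.sum_congr rfl fun j _ => ?_
  rw [Finset.sum_eq_single (i j)]
  · refine Finset.sum_congr rfl fun n _ => Finset.sum_congr rfl fun k _ => ?_
    rw [if_pos rfl]
    ring
  · intro b _ hb
    simp [hb.symm]
  · intro h
    exact absurd (Finset.mem_univ _) h

theorem we5_sq {J : Type} [Fintype J] (a : J → ℝ) (t : J → ℝ≥0) (i : J → Fin d) (N M : ℕ) :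
    ∑ x ∈ we5_idx d N M, we5_c a t i x ^ 2 =
      ∑ j, ∑ l, a j * a l * if i j = i l then
        ∑ n ∈ Finset.range M, ∑ k ∈ Finset.range (N * 2 ^ n), sch n k (t j) * sch n k (t l)
        else 0 := by
  rw [we5_sum_idx]
  have h0 : ∀ n k : ℕ, ∑ i0 : Fin d, we5_c a t i (i0, n, k) ^ 2 =
      ∑ j, ∑ l, a j * a l * if i j = i l then sch n k (t j) * sch n k (t l) else 0 := by
    intro n k
    simp only [we5_c, sq, Finset.sum_mul_sum]
    rw [Finset.sum_comm]
    refine Finset.sum_congr rfl fun j _ => ?_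
    rw [Finset.sum_comm]
    refine Finset.sum_congr rfl fun l _ => ?_
    rw [Finset.sum_eq_single (i j)]
    · rw [if_pos rfl]
      by_cases h : i j = i l
      · rw [if_pos h.symm, if_pos h]
        ring
      · rw [if_neg (fun h' => h h'.symm), if_neg h]
        ring
    · intro b _ hb
      simp [hb.symm]
    · intro h
      exact absurd (Finset.mem_univ _) h
  have h1 : ∑ i0 : Fin d, ∑ n ∈ Finset.range M, ∑ k ∈ Finset.range (N * 2 ^ n),
      we5_c a t i (i0, n, k) ^ 2 = ∑ n ∈ Finset.range M, ∑ k ∈ Finset.range (N * 2 ^ n),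
        ∑ j, ∑ l, a j * a l * if i j = i l then sch n k (t j) * sch n k (t l) else 0 := by
    rw [Finset.sum_comm]
    refine Finset.sum_congr rfl fun n _ => ?_
    rw [Finset.sum_comm]
    exact Finset.sum_congr rfl fun k _ => h0 n k
  rw [h1]
  have h2 : ∀ n : ℕ, ∑ k ∈ Finset.range (N * 2 ^ n),
      (∑ j, ∑ l, a j * a l * if i j = i l then sch n k (t j) * sch n k (t l) else 0) =
      ∑ j, ∑ l, ∑ k ∈ Finset.range (N * 2 ^ n),
        a j * a l * if i j = i l then sch n k (t j) * sch n k (t l) else 0 := by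
    intro n
    rw [Finset.sum_comm]
    refine Finset.sum_congr rfl fun j _ => ?_
    rw [Finset.sum_comm]
  rw [Finset.sum_congr rfl fun n _ => h2 n, Finset.sum_comm]
  refine Finset.sum_congr rfl fun j _ => ?_
  rw [Finset.sum_comm]
  refine Finset.sum_congr rfl fun l _ => ?_
  by_cases h : i j = i l
  · simp only [if_pos h, Finset.mul_sum]
  · simp [if_neg h]

theorem exists_gauss_path : ∃ W : Measure (Path d), IsProbabilityMeasure W ∧
    ∀ (J : Type) [Fintype J] (a : J → ℝ) (t : J → ℝ≥0) (i : J → Fin d),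
      W.map (fun w => ∑ j, a j * w (t j) (i j)) =
        gaussianReal 0 (∑ j, ∑ l, a j * a l *
          if i j = i l then ((min (t j) (t l) : ℝ≥0) : ℝ) else 0).toNNReal := by
  obtain ⟨B, hB, hBe⟩ := exists_wpath (d := d)
  have := isProbabilityMeasure_gm (Fin d × ℕ × ℕ)
  refine ⟨(gm _).map B, Measure.isProbabilityMeasure_map hB.aemeasurable, ?_⟩
  intro J _ a t i
  have hm : Measurable fun w : Path d => ∑ j, a j * w (t j) (i j) := by
    refine Continuous.measurable ?_
    fun_prop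
  obtain ⟨N, hN⟩ : ∃ N : ℕ, ∀ j, (t j : ℝ) ≤ N := by
    obtain ⟨N, hN⟩ := exists_nat_ge (∑ j, (t j : ℝ))
    exact ⟨N, fun j => (Finset.single_le_sum (f := fun j => (t j : ℝ))
      (fun l _ => (t l).coe_nonneg) (Finset.mem_univ j)).trans hN⟩
  rw [Measure.map_map hm hB]
  refine map_eq_gaussian_of_tendsto
    (X := fun M ω => ∑ x ∈ we5_idx d N M, we5_c a t i x * ω x)
    (v := fun M => ∑ x ∈ we5_idx d N M, we5_c a t i x ^ 2) (fun M => ?_) (hm.comp hB)
    (fun M => gm_map_sum _ _) ?_ ?_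
  · exact Finset.measurable_sum _ fun x _ => (measurable_pi_apply x).const_mul _
  · simp only [we5_sq]
    refine tendsto_finsetSum _ fun j _ => tendsto_finsetSum _ fun l _ => ?_
    refine Filter.Tendsto.const_mul _ ?_
    by_cases h : i j = i l
    · simp only [if_pos h, NNReal.coe_min]
      exact tendsto_sum_sch N (t j).coe_nonneg (t l).coe_nonneg (hN j) (hN l)
    · simp only [if_neg h]
      exact tendsto_const_nhds
  · filter_upwards [ae_slow (d := d)] with ω hω
    simp only [we5_lin a t i hN, Function.comp, hBe ω hω]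
    refine tendsto_finsetSum _ fun j _ => Filter.Tendsto.const_mul _ ?_
    exact ((hω (i j)).summable (t j)).hasSum.tendsto_sum_nat

end Pool.Agent.Lib.MP_fe8b6f_pr
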