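import Pool.Agent.Lib.MP_fe8b6f_pr.WE5
import Pool.Agent.Lib.MP_fe8b6f_pr.BMa2

/-! Existence of the Wiener measure. -/

open MeasureTheory ProbabilityTheory
open scoped NNReal ENNReal

noncomputable section

namespace Pool.Agent.Lib.MP_fe8b6f_pr

variable {d : ℕ}

theorem exists_isWiener (d : ℕ) : ∃ W : Measure (Path d), IsWiener W := by
  classical
  obtain ⟨W, hP, hW⟩ := exists_gauss_path (d := d)
  have hG : IsGaussianProcess (fun (it : Fin d × ℝ≥0) (w : Path d) => w it.2 it.1) W := by
    refine ⟨fun I => ⟨isGaussian_of_map_eq_gaussianReal fun L => ?_⟩⟩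
    have hm : Measurable fun w : Path d => I.restrict fun it : Fin d × ℝ≥0 => w it.2 it.1 :=
      measurable_pi_lambda _ fun it => bma2_meas it.1.1 it.1.2
    have h := hW I (fun j => L fun l => if j = l then 1 else 0) (fun j => j.1.2) (fun j => j.1.1)
    refine ⟨0, _, Eq.trans ?_ h⟩
    rw [Measure.map_map L.continuous.measurable hm]
    congr 1
    funext w
    have h2 := (L : (I → ℝ) →ₗ[ℝ] ℝ).pi_apply_eq_sum_univ
      (I.restrict fun it : Fin d × ℝ≥0 => w it.2 it.1)
    simp only [Function.comp]
    refine h2.trans (Finset.sum_congr rfl fun j _ => ?_)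
    simp only [smul_eq_mul, mul_comm]
    rfl
  have h1 : ∀ (i : Fin d) (t : ℝ≥0), W.map (fun w => w t i) = gaussianReal 0 t := by
    intro i t
    have h := hW Unit (fun _ => 1) (fun _ => t) (fun _ => i)
    simpa using h
  have hv : ∀ (i : Fin d) (t : ℝ≥0), variance (fun w : Path d => w t i) W = t := by
    intro i t
    rw [← variance_id_map (bma2_meas i t).aemeasurable, h1, variance_id_gaussianReal]
  refine ⟨W, isWiener_of_gaussian hG (fun i t => ?_) fun i j s t => ?_⟩
  · have h := integral_map (μ := W) (bma2_meas i t).aemeasurable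
      (f := fun x : ℝ => x) measurable_id.aestronglyMeasurable
    rw [← h, h1, integral_id_gaussianReal]
  · have h := hW (Fin 2) (fun _ => 1) ![s, t] ![i, j]
    have hm : Measurable fun w : Path d => w s i + w t j := (bma2_meas i s).add (bma2_meas j t)
    have h2 : variance (fun w : Path d => w s i + w t j) W =
        s + 2 * (if i = j then ((min s t : ℝ≥0) : ℝ) else 0) + t := by
      rw [← variance_id_map hm.aemeasurable]
      simp only [Fin.sum_univ_two, one_mul, mul_one, Matrix.cons_val_zero, Matrix.cons_val_one,
        min_self, if_true] at h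
      rw [h, variance_id_gaussianReal, Real.coe_toNNReal]
      · by_cases hij : i = j
        · subst hij
          simp only [if_true, min_comm t s]
          ring
        · rw [if_neg hij, if_neg (Ne.symm hij)]
          ring
      · split_ifs <;> positivity
    rw [variance_fun_add (hG.hasGaussianLaw_eval (i, s)).memLp_two
      (hG.hasGaussianLaw_eval (j, t)).memLp_two, hv, hv] at h2
    linarith

end Pool.Agent.Lib.MP_fe8b6f_pr
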